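import Mathlib.Analysis.Complex.Basic
import Mathlib.Data.Complex.BigOperators
import Mathlib.Data.ZMod.Basic
import Mathlib.GroupTheory.Commutator.Basic
import Mathlib.GroupTheory.Abelianization.Defs
import Mathlib.LinearAlgebra.Matrix.SpecialLinearGroup
import Mathlib.LinearAlgebra.Matrix.ProjectiveSpecialLinearGroup
import Mathlib.Algebra.Quaternion
import Mathlib.Algebra.Polynomial.AlgebraMap
import Mathlib.Algebra.Polynomial.Eval.Degree

/-!
# MP_fe8e9b_al: definitions

Spectral gap of tuples in finite groups, angles between subgroups.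
-/

open scoped BigOperators MatrixGroups

namespace Pool.Agent.MPfe8e9b

/-- Squared `L²` norm of a function on a finite set. -/
noncomputable def sq {X : Type*} [Fintype X] (f : X → ℂ) : ℝ := ∑ x, ‖f x‖ ^ 2

/-- Hermitian product of two functions on a finite set. -/
noncomputable def ip {X : Type*} [Fintype X] (f f' : X → ℂ) : ℂ :=
  ∑ x, (starRingEnd ℂ) (f x) * f' x

/-- Right translation of a function on a group. -/
def rt {G : Type*} [Mul G] (s : G) (f : G → ℂ) : G → ℂ := fun g => f (g * s)

/-- Average of the right translates by the elements of a finite group mapped to `G`. -/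
noncomputable def avh {H G : Type*} [Group H] [Fintype H] [Group G] (φ : H →* G) (f : G → ℂ) :
    G → ℂ := fun g => ((Fintype.card H : ℂ))⁻¹ * ∑ h, f (g * φ h)

/-- Invariance under right translations by the image of `φ`. -/
def Inv {H G : Type*} [Group H] [Group G] (φ : H →* G) (f : G → ℂ) : Prop :=
  ∀ h g, f (g * φ h) = f g

/-- The tuple `s` of elements of the finite group `G` has spectral gap `κ`. -/
def Gap {G : Type*} [Group G] [Fintype G] {k : ℕ} (s : Fin k → G) (κ : ℝ) : Prop :=
  ∀ f : G → ℂ, ∑ g, f g = 0 → κ * sq f ≤ ∑ i, sq (rt (s i) f - f)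

/-- Some `k`-tuple of elements of `G` has spectral gap `κ`. -/
def Expd (G : Type*) [Group G] [Fintype G] (k : ℕ) (κ : ℝ) : Prop :=
  ∃ s : Fin k → G, Gap s κ

/-- The squared cosine of the angle between the invariants of the images of `φ₁` and `φ₂`, in the
functions of sum zero on `G`, is at most `c`. -/
def Angle {H₁ H₂ G : Type*} [Group H₁] [Fintype H₁] [Group H₂] [Group G] [Fintype G]
    (φ₁ : H₁ →* G) (φ₂ : H₂ →* G) (c : ℝ) : Prop :=
  ∀ f : G → ℂ, ∑ g, f g = 0 → Inv φ₂ f → sq (avh φ₁ f) ≤ c * sq f

/-- Convolution of weights. -/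
noncomputable def conv {G : Type*} [Group G] [Fintype G] (μ ν : G → ℝ) : G → ℝ :=
  fun x => ∑ h, μ h * ν (h⁻¹ * x)

open Classical in
/-- Powers for the convolution. -/
noncomputable def cpow {G : Type*} [Group G] [Fintype G] (μ : G → ℝ) : ℕ → G → ℝ
  | 0 => fun x => if x = 1 then 1 else 0
  | n + 1 => conv (cpow μ n) μ

/-- The operator of right convolution. -/
noncomputable def cv {G : Type*} [Group G] [Fintype G] (μ : G → ℝ) (f : G → ℂ) : G → ℂ :=
  fun g => ∑ h, (μ h : ℂ) * f (g * h)

/-- The product of homomorphisms. -/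
def piHom {ι : Type*} {H G : ι → Type*} [∀ i, Group (H i)] [∀ i, Group (G i)]
    (φ : ∀ i, H i →* G i) : (∀ i, H i) →* (∀ i, G i) where
  toFun h := fun i => φ i (h i)
  map_one' := by
    funext i
    simp
  map_mul' a b := by
    funext i
    simp

/-- Functions of the first coordinate. -/
def fstHom (A B S : Type*) [Group S] : (A → S) →* (A × B → S) where
  toFun u := fun z => u z.1
  map_one' := rfl
  map_mul' _ _ := rfl

/-- Functions of the second coordinate. -/
def sndHom (A B S : Type*) [Group S] : (B → S) →* (A × B → S) where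
  toFun u := fun z => u z.2
  map_one' := rfl
  map_mul' _ _ := rfl

/-- Constant functions. -/
def constHom (A S : Type*) [Group S] : S →* (A → S) where
  toFun u := fun _ => u
  map_one' := rfl
  map_mul' _ _ := rfl

/-- The elementary matrix with upper right entry `t`. -/
def e12 {R : Type*} [CommRing R] (t : R) : SL(2, R) :=
  ⟨!![1, t; 0, 1], by simp [Matrix.det_fin_two_of]⟩

theorem e12_add {R : Type*} [CommRing R] (s t : R) : e12 (s + t) = e12 s * e12 t := by
  apply Subtype.ext
  show !![1, s + t; 0, 1] = !![1, s; 0, 1] * !![1, t; 0, 1]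
  rw [Matrix.mul_fin_two]
  simp [add_comm]

theorem e12_zero {R : Type*} [CommRing R] : e12 (0 : R) = 1 := by
  apply Subtype.ext
  show !![1, (0 : R); 0, 1] = 1
  exact Matrix.one_fin_two.symm

/-- `(b, c) ↦ (a ↦ e12 (b + c a))`, a homomorphism from `F × F` to the functions from `F` to
`SL(2, F)`. -/
def vHom (F : Type*) [CommRing F] : Multiplicative (F × F) →* (F → SL(2, F)) where
  toFun u := fun a => e12 ((Multiplicative.toAdd u).1 + (Multiplicative.toAdd u).2 * a)
  map_one' := by
    funext a
    show e12 ((0 : F) + 0 * a) = 1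
    rw [zero_mul, add_zero, e12_zero]
  map_mul' u v := by
    funext a
    show e12 (((Multiplicative.toAdd u).1 + (Multiplicative.toAdd v).1) +
      ((Multiplicative.toAdd u).2 + (Multiplicative.toAdd v).2) * a) = _
    rw [Pi.mul_apply, ← e12_add]
    congr 1
    ring

/-- Constant matrices in a product of `SL(2, E i)`, `E i` an extension of `F`. -/
def kHomE (F : Type*) [CommRing F] {ι : Type*} (E : ι → Type*) [∀ i, CommRing (E i)]
    [∀ i, Algebra F (E i)] : SL(2, F) →* (∀ i, SL(2, E i)) where
  toFun k := fun i => Matrix.SpecialLinearGroup.map (algebraMap F (E i)) k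
  map_one' := by
    funext i
    simp
  map_mul' a b := by
    funext i
    simp

/-- `(b, c) ↦ (i ↦ e12 (b + c θ_i))`. -/
def vHomE (F : Type*) [CommRing F] {ι : Type*} (E : ι → Type*) [∀ i, CommRing (E i)]
    [∀ i, Algebra F (E i)] (θ : ∀ i, E i) : Multiplicative (F × F) →* (∀ i, SL(2, E i)) where
  toFun u := fun i => e12 (algebraMap F (E i) (Multiplicative.toAdd u).1 +
    algebraMap F (E i) (Multiplicative.toAdd u).2 * θ i)
  map_one' := by
    funext i
    show e12 (algebraMap F (E i) 0 + algebraMap F (E i) 0 * θ i) = 1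
    rw [map_zero, zero_mul, add_zero, e12_zero]
  map_mul' u v := by
    funext i
    show e12 (algebraMap F (E i) ((Multiplicative.toAdd u).1 + (Multiplicative.toAdd v).1) +
      algebraMap F (E i) ((Multiplicative.toAdd u).2 + (Multiplicative.toAdd v).2) * θ i) = _
    rw [Pi.mul_apply, ← e12_add, map_add, map_add]
    congr 1
    ring

open Polynomial in
/-- The largest degree of the entries of a matrix. -/
noncomputable def dg {F : Type} [Field F] (γ : SL(2, F[X])) : ℕ :=
  Finset.univ.sup fun ij : Fin 2 × Fin 2 => (γ.1 ij.1 ij.2).natDegree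

open Polynomial in
/-- The walk: start at a uniform constant matrix, then multiply on the right by uniform
`e12 (b + c X)` and uniform constant matrices. -/
noncomputable def pw (F : Type) [Field F] [Fintype F] [DecidableEq F] : ℕ → SL(2, F[X]) → ℝ
  | 0 => fun γ => if dg γ = 0 then ((Fintype.card SL(2, F) : ℝ))⁻¹ else 0
  | l + 1 => fun γ => ((Fintype.card SL(2, F) : ℝ) * (Fintype.card F : ℝ) ^ 2)⁻¹ *
      ∑ k : SL(2, F), ∑ bc : F × F,
        pw F l (γ * (Matrix.SpecialLinearGroup.map (C : F →+* F[X]) k)⁻¹ *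
          (e12 (C bc.1 + C bc.2 * X))⁻¹)

/-- The six integral quaternions `1 ± 2i`, `1 ± 2j`, `1 ± 2k` of norm five. -/
def letter : Fin 6 → Quaternion ℤ :=
  ![⟨1, 2, 0, 0⟩, ⟨1, -2, 0, 0⟩, ⟨1, 0, 2, 0⟩, ⟨1, 0, -2, 0⟩, ⟨1, 0, 0, 2⟩, ⟨1, 0, 0, -2⟩]

/-- The number of words of length `t` with product `α`. -/
noncomputable def wd (t : ℕ) (α : Quaternion ℤ) : ℕ :=
  Nat.card {w : Fin t → Fin 6 // (List.ofFn fun i => letter (w i)).prod = α}

end Pool.Agent.MPfe8e9b
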