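import Mathlib
import Pool.Agent.Lib.MP_fe8e9b_al.Defs

/-!
# MP_fe8e9b_al: averages over subgroups
-/

open scoped BigOperators MatrixGroups Pointwise

namespace Pool.Agent.MPfe8e9b

/-! ### Hermitian product and norm -/

section Norm

variable {X : Type*} [Fintype X]

theorem sq_nonneg' (f : X → ℂ) : 0 ≤ sq f :=
  Finset.sum_nonneg fun x _ => by positivity

theorem sq_zero : sq (0 : X → ℂ) = 0 := by
  simp [sq]

theorem sq_eq_zero {f : X → ℂ} : sq f = 0 ↔ f = 0 := by
  constructor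
  · intro h
    have h' := (Finset.sum_eq_zero_iff_of_nonneg (fun x _ => by positivity)).mp h
    funext x
    have := h' x (Finset.mem_univ x)
    simpa using this
  · rintro rfl
    exact sq_zero

theorem sq_neg (f : X → ℂ) : sq (-f) = sq f := by
  simp [sq]

theorem sq_smul (c : ℂ) (f : X → ℂ) : sq (c • f) = ‖c‖ ^ 2 * sq f := by
  simp only [sq, Pi.smul_apply, smul_eq_mul, norm_mul, mul_pow, Finset.mul_sum]

theorem ip_self (f : X → ℂ) : ip f f = (sq f : ℂ) := by
  simp only [ip, sq, Complex.ofReal_sum, Complex.ofReal_pow]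
  refine Finset.sum_congr rfl fun x _ => ?_
  rw [← Complex.normSq_eq_conj_mul_self, Complex.normSq_eq_norm_sq]
  simp

theorem ip_self_re (f : X → ℂ) : (ip f f).re = sq f := by
  rw [ip_self, Complex.ofReal_re]

theorem ip_conj (f f' : X → ℂ) : (starRingEnd ℂ) (ip f f') = ip f' f := by
  simp only [ip, map_sum, map_mul, Complex.conj_conj]
  exact Finset.sum_congr rfl fun x _ => mul_comm _ _

theorem ip_re_comm (f f' : X → ℂ) : (ip f f').re = (ip f' f).re := by
  rw [← ip_conj f' f, Complex.conj_re]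

theorem norm_ip_comm (f f' : X → ℂ) : ‖ip f f'‖ = ‖ip f' f‖ := by
  rw [← ip_conj f' f, Complex.norm_conj]

theorem ip_add_right (f a b : X → ℂ) : ip f (a + b) = ip f a + ip f b := by
  simp only [ip, Pi.add_apply, mul_add, Finset.sum_add_distrib]

theorem ip_add_left (a b f : X → ℂ) : ip (a + b) f = ip a f + ip b f := by
  simp only [ip, Pi.add_apply, map_add, add_mul, Finset.sum_add_distrib]

theorem ip_sub_right (f a b : X → ℂ) : ip f (a - b) = ip f a - ip f b := by
  simp only [ip, Pi.sub_apply, mul_sub, Finset.sum_sub_distrib]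

theorem ip_sub_left (a b f : X → ℂ) : ip (a - b) f = ip a f - ip b f := by
  simp only [ip, Pi.sub_apply, map_sub, sub_mul, Finset.sum_sub_distrib]

theorem ip_smul_right (c : ℂ) (f a : X → ℂ) : ip f (c • a) = c * ip f a := by
  simp only [ip, Pi.smul_apply, smul_eq_mul, Finset.mul_sum]
  exact Finset.sum_congr rfl fun x _ => by ring

theorem ip_smul_left (c : ℂ) (a f : X → ℂ) : ip (c • a) f = (starRingEnd ℂ) c * ip a f := by
  simp only [ip, Pi.smul_apply, smul_eq_mul, Finset.mul_sum, map_mul]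
  exact Finset.sum_congr rfl fun x _ => by ring

theorem ip_zero_right (f : X → ℂ) : ip f 0 = 0 := by
  simp [ip]

theorem ip_zero_left (f : X → ℂ) : ip 0 f = 0 := by
  simp [ip]

theorem ip_sum_right {κ : Type*} (s : Finset κ) (f : X → ℂ) (a : κ → X → ℂ) :
    ip f (∑ k ∈ s, a k) = ∑ k ∈ s, ip f (a k) := by
  simp only [ip, Finset.sum_apply, Finset.mul_sum]
  exact Finset.sum_comm

theorem ip_sum_left {κ : Type*} (s : Finset κ) (f : X → ℂ) (a : κ → X → ℂ) :
    ip (∑ k ∈ s, a k) f = ∑ k ∈ s, ip (a k) f := by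
  simp only [ip, Finset.sum_apply, Finset.sum_mul, map_sum]
  exact Finset.sum_comm

theorem sq_add (f f' : X → ℂ) : sq (f + f') = sq f + sq f' + 2 * (ip f f').re := by
  rw [← ip_self_re, ip_add_left, ip_add_right, ip_add_right, Complex.add_re, Complex.add_re,
    Complex.add_re, ip_self_re, ip_self_re, ip_re_comm f' f]
  ring

theorem sq_sub (f f' : X → ℂ) : sq (f - f') = sq f + sq f' - 2 * (ip f f').re := by
  rw [← ip_self_re, ip_sub_left, ip_sub_right, ip_sub_right, Complex.sub_re, Complex.sub_re,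
    Complex.sub_re, ip_self_re, ip_self_re, ip_re_comm f' f]
  ring

/-- Cauchy–Schwarz. -/
theorem norm_ip_sq_le (f f' : X → ℂ) : ‖ip f f'‖ ^ 2 ≤ sq f * sq f' := by
  have h1 : ‖ip f f'‖ ≤ ∑ x, ‖f x‖ * ‖f' x‖ := by
    refine (norm_sum_le _ _).trans (le_of_eq ?_)
    refine Finset.sum_congr rfl fun x _ => ?_
    rw [norm_mul, Complex.norm_conj]
  calc ‖ip f f'‖ ^ 2 ≤ (∑ x, ‖f x‖ * ‖f' x‖) ^ 2 := by
        gcongr
    _ ≤ sq f * sq f' := Finset.sum_mul_sq_le_sq_mul_sq _ _ _

/-- Cauchy–Schwarz, other form. -/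
theorem norm_ip_le (f f' : X → ℂ) : ‖ip f f'‖ ≤ Real.sqrt (sq f) * Real.sqrt (sq f') := by
  rw [← Real.sqrt_mul (sq_nonneg' f)]
  exact Real.le_sqrt_of_sq_le (norm_ip_sq_le f f')

theorem ip_re_le (f f' : X → ℂ) : (ip f f').re ≤ Real.sqrt (sq f) * Real.sqrt (sq f') :=
  (Complex.re_le_norm _).trans (norm_ip_le f f')

end Norm

/-! ### Right translations -/

section Rt

variable {G : Type*} [Group G]

theorem rt_apply (s : G) (f : G → ℂ) (g : G) : rt s f g = f (g * s) := rfl

theorem rt_mul (s t : G) (f : G → ℂ) : rt s (rt t f) = rt (s * t) f := by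
  funext g
  simp only [rt_apply, mul_assoc]

theorem rt_one (f : G → ℂ) : rt 1 f = f := by
  funext g
  simp [rt_apply]

theorem rt_add (s : G) (f f' : G → ℂ) : rt s (f + f') = rt s f + rt s f' := rfl

theorem rt_sub (s : G) (f f' : G → ℂ) : rt s (f - f') = rt s f - rt s f' := rfl

theorem rt_smul (s : G) (c : ℂ) (f : G → ℂ) : rt s (c • f) = c • rt s f := rfl

theorem rt_zero (s : G) : rt s (0 : G → ℂ) = 0 := rfl

theorem rt_sum {κ : Type*} (S : Finset κ) (s : G) (a : κ → G → ℂ) :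
    rt s (∑ k ∈ S, a k) = ∑ k ∈ S, rt s (a k) := by
  funext g
  simp [rt_apply]

variable [Fintype G]

theorem sum_rt (s : G) (f : G → ℂ) : ∑ g, rt s f g = ∑ g, f g :=
  Fintype.sum_equiv (Equiv.mulRight s) _ _ fun _ => rfl

theorem sq_rt (s : G) (f : G → ℂ) : sq (rt s f) = sq f :=
  Fintype.sum_equiv (Equiv.mulRight s) _ _ fun _ => rfl

theorem ip_rt_rt (s : G) (f f' : G → ℂ) : ip (rt s f) (rt s f') = ip f f' :=
  Fintype.sum_equiv (Equiv.mulRight s) _ _ fun _ => rfl

theorem ip_rt_left (s : G) (f f' : G → ℂ) : ip (rt s f) f' = ip f (rt s⁻¹ f') := by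
  rw [← ip_rt_rt s f, rt_mul, mul_inv_cancel, rt_one]

theorem ip_rt_right (s : G) (f f' : G → ℂ) : ip f (rt s f') = ip (rt s⁻¹ f) f' := by
  rw [ip_rt_left, inv_inv]

end Rt

/-! ### Averages -/

section Avh

variable {H G : Type*} [Group H] [Fintype H] [Group G]

theorem card_ne_zero' : (Fintype.card H : ℂ) ≠ 0 := by
  exact_mod_cast Fintype.card_ne_zero

theorem avh_eq_sum (φ : H →* G) (f : G → ℂ) :
    avh φ f = ((Fintype.card H : ℂ))⁻¹ • ∑ h, rt (φ h) f := by
  funext g
  simp [avh, rt_apply]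

theorem avh_add (φ : H →* G) (f f' : G → ℂ) : avh φ (f + f') = avh φ f + avh φ f' := by
  funext g
  simp only [avh, Pi.add_apply, Finset.sum_add_distrib, mul_add]

theorem avh_sub (φ : H →* G) (f f' : G → ℂ) : avh φ (f - f') = avh φ f - avh φ f' := by
  funext g
  simp only [avh, Pi.sub_apply, Finset.sum_sub_distrib, mul_sub]

theorem avh_smul (φ : H →* G) (c : ℂ) (f : G → ℂ) : avh φ (c • f) = c • avh φ f := by
  funext g
  simp only [avh, Pi.smul_apply, smul_eq_mul, Finset.mul_sum]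
  exact Finset.sum_congr rfl fun x _ => by ring

theorem avh_zero (φ : H →* G) : avh φ (0 : G → ℂ) = 0 := by
  funext g
  simp [avh]

theorem avh_sum {κ : Type*} (S : Finset κ) (φ : H →* G) (a : κ → G → ℂ) :
    avh φ (∑ k ∈ S, a k) = ∑ k ∈ S, avh φ (a k) := by
  classical
  induction S using Finset.induction_on with
  | empty => simp [avh_zero]
  | insert k S hk ih => rw [Finset.sum_insert hk, Finset.sum_insert hk, avh_add, ih]

theorem avh_inv (φ : H →* G) (f : G → ℂ) : Inv φ (avh φ f) := by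
  intro h g
  simp only [avh]
  congr 1
  refine Fintype.sum_equiv (Equiv.mulLeft h) _ _ fun x => ?_
  simp [mul_assoc]

theorem avh_of_inv (φ : H →* G) {f : G → ℂ} (hf : Inv φ f) : avh φ f = f := by
  funext g
  simp only [avh, hf _ g, Finset.sum_const, Finset.card_univ, nsmul_eq_mul]
  rw [← mul_assoc, inv_mul_cancel₀ card_ne_zero', one_mul]

theorem avh_idem (φ : H →* G) (f : G → ℂ) : avh φ (avh φ f) = avh φ f :=
  avh_of_inv φ (avh_inv φ f)

omit [Fintype H] in
theorem inv_iff_rt (φ : H →* G) (f : G → ℂ) : Inv φ f ↔ ∀ h, rt (φ h) f = f :=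
  ⟨fun hf h => funext fun g => hf h g, fun hf h g => congrFun (hf h) g⟩

theorem rt_avh_self (φ : H →* G) (h : H) (f : G → ℂ) : rt (φ h) (avh φ f) = avh φ f :=
  (inv_iff_rt φ _).mp (avh_inv φ f) h

theorem avh_rt_self (φ : H →* G) (h : H) (f : G → ℂ) : avh φ (rt (φ h) f) = avh φ f := by
  funext g
  simp only [avh, rt_apply]
  congr 1
  refine Fintype.sum_equiv (Equiv.mulRight h) _ _ fun x => ?_
  simp [mul_assoc]

variable [Fintype G]

theorem sum_avh (φ : H →* G) (f : G → ℂ) : ∑ g, avh φ f g = ∑ g, f g := by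
  simp only [avh]
  rw [← Finset.mul_sum, Finset.sum_comm]
  have : ∀ h : H, ∑ g, f (g * φ h) = ∑ g, f g := fun h => sum_rt (φ h) f
  simp only [this, Finset.sum_const, Finset.card_univ, nsmul_eq_mul]
  rw [← mul_assoc, inv_mul_cancel₀ card_ne_zero', one_mul]

theorem ip_avh (φ : H →* G) (f f' : G → ℂ) : ip (avh φ f) f' = ip f (avh φ f') := by
  rw [avh_eq_sum, avh_eq_sum, ip_smul_left, ip_smul_right, ip_sum_left, ip_sum_right]
  have hc : (starRingEnd ℂ) ((Fintype.card H : ℂ))⁻¹ = ((Fintype.card H : ℂ))⁻¹ := by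
    rw [map_inv₀, Complex.conj_natCast]
  rw [hc]
  congr 1
  refine Fintype.sum_equiv (Equiv.inv H) _ _ fun h => ?_
  rw [ip_rt_left]
  simp

theorem ip_self_avh (φ : H →* G) (f : G → ℂ) : ip f (avh φ f) = (sq (avh φ f) : ℂ) := by
  rw [← avh_idem, ← ip_avh, avh_idem, ip_self]

theorem ip_self_avh_re (φ : H →* G) (f : G → ℂ) : (ip f (avh φ f)).re = sq (avh φ f) := by
  rw [ip_self_avh, Complex.ofReal_re]

theorem sq_sub_avh (φ : H →* G) (f : G → ℂ) : sq (f - avh φ f) = sq f - sq (avh φ f) := by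
  rw [sq_sub, ip_self_avh_re]
  ring

theorem sq_avh_le (φ : H →* G) (f : G → ℂ) : sq (avh φ f) ≤ sq f := by
  have := sq_nonneg' (f - avh φ f)
  rw [sq_sub_avh] at this
  linarith

end Avh

/-- AVH. Basic facts on averages. -/
theorem avh_facts {H G : Type*} [Group H] [Fintype H] [Group G] [Fintype G] (φ : H →* G)
    (f : G → ℂ) :
    Inv φ (avh φ f) ∧ (Inv φ f → avh φ f = f) ∧ sq (f - avh φ f) = sq f - sq (avh φ f) ∧
      (∑ g, avh φ f g = ∑ g, f g) ∧ (∀ f', ip (avh φ f) f' = ip f (avh φ f')) ∧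
      (ip f (avh φ f)).re = sq (avh φ f) :=
  ⟨avh_inv φ f, avh_of_inv φ, sq_sub_avh φ f, sum_avh φ f, ip_avh φ f, ip_self_avh_re φ f⟩

/-- Sums over `G` and then along the fibres. -/
theorem sum_fibre {H G : Type*} [Group H] [Fintype H] [Group G] [Fintype G] (φ : H →* G)
    {M : Type*} [AddCommMonoid M] (F : G → M) :
    ∑ g : G, ∑ h : H, F (g * φ h) = Fintype.card H • ∑ g, F g := by
  rw [Finset.sum_comm]
  have : ∀ h : H, ∑ g, F (g * φ h) = ∑ g, F g := fun h =>
    Fintype.sum_equiv (Equiv.mulRight (φ h)) _ _ fun _ => rfl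
  simp only [this, Finset.sum_const, Finset.card_univ]

/-- SUB. A gap in a group controls the distance to the invariants of its image. -/
theorem gap_sub {H G : Type*} [Group H] [Fintype H] [Group G] [Fintype G] (φ : H →* G)
    {k : ℕ} (s : Fin k → H) {κ : ℝ} (hs : Gap s κ) (f : G → ℂ) :
    κ * sq (f - avh φ f) ≤ ∑ i, sq (rt (φ (s i)) f - f) := by
  have hcard : (0 : ℝ) < Fintype.card H := by exact_mod_cast Fintype.card_pos
  -- the functions on the fibres
  set F : G → H → ℂ := fun g h => f (g * φ h) - avh φ f g with hF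
  have hsum : ∀ g, ∑ h, F g h = 0 := by
    intro g
    simp only [hF, Finset.sum_sub_distrib, Finset.sum_const, Finset.card_univ, nsmul_eq_mul, avh]
    rw [← mul_assoc, mul_inv_cancel₀ card_ne_zero', one_mul, sub_self]
  have h1 : ∀ g, κ * sq (F g) ≤ ∑ i, sq (rt (s i) (F g) - F g) := fun g => hs (F g) (hsum g)
  have h2 : ∑ g, κ * sq (F g) ≤ ∑ g, ∑ i, sq (rt (s i) (F g) - F g) :=
    Finset.sum_le_sum fun g _ => h1 g
  have h3 : ∑ g, sq (F g) = Fintype.card H * sq (f - avh φ f) := by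
    simp only [sq]
    rw [← nsmul_eq_mul, ← sum_fibre φ (fun g => ‖(f - avh φ f) g‖ ^ 2)]
    refine Finset.sum_congr rfl fun g _ => Finset.sum_congr rfl fun h _ => ?_
    simp only [hF, Pi.sub_apply, avh_inv φ f h g]
  have h4 : ∑ g, ∑ i, sq (rt (s i) (F g) - F g) =
      Fintype.card H * ∑ i, sq (rt (φ (s i)) f - f) := by
    rw [Finset.sum_comm, Finset.mul_sum]
    refine Finset.sum_congr rfl fun i _ => ?_
    simp only [sq]
    rw [← nsmul_eq_mul, ← sum_fibre φ (fun g => ‖(rt (φ (s i)) f - f) g‖ ^ 2)]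
    refine Finset.sum_congr rfl fun g _ => Finset.sum_congr rfl fun h _ => ?_
    simp only [hF, Pi.sub_apply, rt_apply, map_mul, mul_assoc, sub_sub_sub_cancel_right]
  rw [← Finset.mul_sum, h3, h4] at h2
  have h5 : (Fintype.card H : ℝ) * (κ * sq (f - avh φ f)) ≤
      Fintype.card H * ∑ i, sq (rt (φ (s i)) f - f) := by
    linarith
  exact le_of_mul_le_mul_left h5 hcard

end Pool.Agent.MPfe8e9b
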