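import Mathlib
import Pool.Agent.Lib.MP_fe8e9b_al.Defs
import Pool.Agent.Lib.MP_fe8e9b_al.Avg

/-!
# MP_fe8e9b_al: rows and columns, the amplification angle
-/

open scoped BigOperators MatrixGroups Pointwise

namespace Pool.Agent.MPfe8e9b

namespace Amp

section Coord

variable {Z S : Type} [Fintype Z] [DecidableEq Z] [Group S] [Fintype S]

/-- The coordinate embedding. -/
def ms (z : Z) : S →* (Z → S) := MonoidHom.mulSingle (fun _ : Z => S) z

omit [Fintype Z] [Fintype S] in
lemma ms_same (z : Z) (x : S) : ms z x z = x := by simp [ms]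

omit [Fintype Z] [Fintype S] in
lemma ms_ne {z z' : Z} (h : z' ≠ z) (x : S) : ms z x z' = 1 := by simp [ms, h]

omit [Fintype Z] [Fintype S] in
lemma mul_ms (g : Z → S) (z : Z) (x : S) : g * ms z x = Function.update g z (g z * x) := by
  funext z'
  by_cases h : z' = z
  · subst h
    simp [ms]
  · simp [ms, h]

omit [Fintype Z] [Fintype S] in
lemma update_mul (g h : Z → S) (z : Z) (x : S) :
    Function.update g z x * h = Function.update (g * h) z (x * h z) := by
  funext z'
  by_cases h : z' = z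
  · subst h
    simp
  · simp [h]

omit [Fintype Z] in
lemma E_apply (z : Z) (f : (Z → S) → ℂ) (g : Z → S) :
    avh (ms z) f g = ((Fintype.card S : ℂ))⁻¹ * ∑ x, f (Function.update g z x) := by
  unfold avh
  congr 1
  refine Fintype.sum_equiv (Equiv.mulLeft (g z)) _ _ fun x => ?_
  rw [mul_ms]
  rfl

omit [Fintype Z] in
lemma E_rt (z : Z) (h : Z → S) (f : (Z → S) → ℂ) :
    avh (ms z) (rt h f) = rt h (avh (ms z) f) := by
  funext g
  rw [rt_apply, E_apply, E_apply]
  congr 1
  refine Fintype.sum_equiv (Equiv.mulRight (h z)) _ _ fun x => ?_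
  rw [rt_apply, update_mul]
  rfl

omit [Fintype Z] in
lemma E_avh {H : Type} [Group H] [Fintype H] (z : Z) (φ : H →* (Z → S)) (f : (Z → S) → ℂ) :
    avh (ms z) (avh φ f) = avh φ (avh (ms z) f) := by
  rw [avh_eq_sum φ f, avh_smul, avh_sum, avh_eq_sum φ (avh (ms z) f)]
  simp_rw [E_rt]

/-- Independence of the coordinate `z`. -/
def Indep (z : Z) (f : (Z → S) → ℂ) : Prop := ∀ g x, f (Function.update g z x) = f g

omit [Fintype Z] in
lemma indep_E (z : Z) (f : (Z → S) → ℂ) : Indep z (avh (ms z) f) := by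
  intro g x
  rw [E_apply, E_apply]
  simp only [Function.update_idem]

omit [Fintype Z] in
lemma Indep.E {z : Z} {f : (Z → S) → ℂ} (h : Indep z f) (z' : Z) : Indep z (avh (ms z') f) := by
  by_cases hz : z = z'
  · rw [hz]
    exact indep_E z' f
  intro g x
  rw [E_apply, E_apply]
  congr 1
  refine Finset.sum_congr rfl fun y _ => ?_
  rw [Function.update_comm hz, h]

/-- Successive averages over the coordinates of a list. -/
noncomputable def EE : List Z → ((Z → S) → ℂ) → ((Z → S) → ℂ)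
  | [], f => f
  | z :: l, f => EE l (avh (ms z) f)

omit [Fintype Z] in
lemma indep_EE_of {z : Z} (l : List Z) {f : (Z → S) → ℂ} (h : Indep z f) : Indep z (EE l f) := by
  induction l generalizing f with
  | nil => exact h
  | cons z' l ih => exact ih (h.E z')

omit [Fintype Z] in
lemma indep_EE (l : List Z) (f : (Z → S) → ℂ) (z : Z) (hz : z ∈ l) : Indep z (EE l f) := by
  induction l generalizing f with
  | nil => simp at hz
  | cons z' l ih =>
    rcases List.mem_cons.mp hz with rfl | h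
    · exact indep_EE_of l (indep_E z f)
    · exact ih _ h

lemma sum_EE (l : List Z) (f : (Z → S) → ℂ) : ∑ g, EE l f g = ∑ g, f g := by
  induction l generalizing f with
  | nil => rfl
  | cons z l ih =>
    show ∑ g, EE l (avh (ms z) f) g = _
    rw [ih, sum_avh]

omit [Group S] [Fintype S] in
lemma const_of_indep {f : (Z → S) → ℂ} (h : ∀ z, Indep z f) (g g' : Z → S) : f g = f g' := by
  have key : ∀ T : Finset Z, f (T.piecewise g g') = f g' := by
    intro T
    induction T using Finset.induction_on with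
    | empty => simp
    | insert z T hz ih => rw [Finset.piecewise_insert, h z, ih]
  have := key Finset.univ
  rwa [Finset.piecewise_univ] at this

lemma EE_univ {f : (Z → S) → ℂ} (hf : ∑ g, f g = 0) : EE Finset.univ.toList f = 0 := by
  have h1 : ∀ g g' : Z → S, EE Finset.univ.toList f g = EE Finset.univ.toList f g' :=
    const_of_indep fun z => indep_EE _ f z (by simp)
  have h2 := sum_EE Finset.univ.toList f
  rw [hf] at h2
  funext g
  rw [Finset.sum_congr rfl (fun g' _ => h1 g' g), Finset.sum_const, Finset.card_univ,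
    nsmul_eq_mul] at h2
  rcases mul_eq_zero.mp h2 with h3 | h3
  · exact absurd h3 card_ne_zero'
  · exact h3

omit [Fintype Z] in
lemma inv_E {H : Type} [Group H] (φ : H →* (Z → S)) {f : (Z → S) → ℂ} (h : Inv φ f) (z : Z) :
    Inv φ (avh (ms z) f) := by
  rw [inv_iff_rt] at h ⊢
  intro x
  rw [← E_rt, h x]

/-- Reduction to functions with vanishing average over one coordinate. -/
lemma reduce {H₁ H₂ : Type} [Group H₁] [Fintype H₁] [Group H₂] (φ₁ : H₁ →* (Z → S))
    (φ₂ : H₂ →* (Z → S)) {c : ℝ}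
    (hb : ∀ (z : Z) (w : (Z → S) → ℂ), Inv φ₂ w → avh (ms z) w = 0 → sq (avh φ₁ w) ≤ c * sq w)
    (l : List Z) (f : (Z → S) → ℂ) (hf : Inv φ₂ f) (h0 : EE l f = 0) :
    sq (avh φ₁ f) ≤ c * sq f := by
  induction l generalizing f with
  | nil =>
    have h0 : f = 0 := h0
    rw [h0, avh_zero, sq_zero, mul_zero]
  | cons z l ih =>
    have h1 := ih (avh (ms z) f) (inv_E φ₂ hf z) h0
    have h2 := hb z (f - avh (ms z) f) (by
      intro h g
      rw [Pi.sub_apply, Pi.sub_apply, hf h g, inv_E φ₂ hf z h g]) (by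
      rw [avh_sub, avh_idem, sub_self])
    rw [avh_sub, ← E_avh, sq_sub_avh, sq_sub_avh] at h2
    rw [← E_avh] at h1
    linarith

/-- The commutator estimate in one coordinate. -/
lemma comm_coord (hcomm : ∀ f : S → ℂ, ∑ g, f g = 0 →
      (∑ s : S, ∑ t : S, ip f (rt (s * t * s⁻¹ * t⁻¹) f)).re ≤
        (1 / 4) * (Fintype.card S : ℝ) ^ 2 * sq f) (z : Z) (w : (Z → S) → ℂ)
    (hw : avh (ms z) w = 0) :
    (∑ s : S, ∑ t : S, ip w (rt (ms z (s * t * s⁻¹ * t⁻¹)) w)).re ≤
      (1 / 4) * (Fintype.card S : ℝ) ^ 2 * sq w := by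
  have hcard : (0 : ℝ) < Fintype.card S := by exact_mod_cast Fintype.card_pos
  set F : (Z → S) → S → ℂ := fun g x => w (g * ms z x) with hF
  have hsum : ∀ g, ∑ x, F g x = 0 := by
    intro g
    have h1 := congrFun hw g
    unfold avh at h1
    exact (mul_eq_zero.mp h1).resolve_left (inv_ne_zero card_ne_zero')
  have h1 : ∑ g, (∑ s : S, ∑ t : S, ip (F g) (rt (s * t * s⁻¹ * t⁻¹) (F g))).re ≤
      ∑ g, (1 / 4) * (Fintype.card S : ℝ) ^ 2 * sq (F g) :=
    Finset.sum_le_sum fun g _ => hcomm (F g) (hsum g)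
  have h2 : ∑ g, sq (F g) = Fintype.card S * sq w := by
    simp only [sq]
    rw [← nsmul_eq_mul, ← sum_fibre (ms z) (fun g => ‖w g‖ ^ 2)]
  have h3 : ∀ c : S, ∑ g, ip (F g) (rt c (F g)) = Fintype.card S * ip w (rt (ms z c) w) := by
    intro c
    simp only [ip]
    rw [← nsmul_eq_mul, ← sum_fibre (ms z)
      (fun g => (starRingEnd ℂ) (w g) * rt (ms z c) w g)]
    refine Finset.sum_congr rfl fun g _ => Finset.sum_congr rfl fun x _ => ?_
    simp only [hF, rt_apply, map_mul, mul_assoc]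
  have h4 : ∑ g, (∑ s : S, ∑ t : S, ip (F g) (rt (s * t * s⁻¹ * t⁻¹) (F g))).re =
      Fintype.card S * (∑ s : S, ∑ t : S, ip w (rt (ms z (s * t * s⁻¹ * t⁻¹)) w)).re := by
    rw [← Complex.re_sum, Finset.sum_comm]
    have h5 : ∀ s : S, ∑ g, ∑ t : S, ip (F g) (rt (s * t * s⁻¹ * t⁻¹) (F g)) =
        ∑ t : S, (Fintype.card S : ℂ) * ip w (rt (ms z (s * t * s⁻¹ * t⁻¹)) w) := by
      intro s
      rw [Finset.sum_comm]
      exact Finset.sum_congr rfl fun t _ => h3 _
    rw [Finset.sum_congr rfl fun s _ => h5 s]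
    simp_rw [← Finset.mul_sum]
    rw [← Complex.re_ofReal_mul]
    simp
  rw [← Finset.mul_sum, h2, h4] at h1
  have h5 : (Fintype.card S : ℝ) *
      (∑ s : S, ∑ t : S, ip w (rt (ms z (s * t * s⁻¹ * t⁻¹)) w)).re ≤
      Fintype.card S * ((1 / 4) * (Fintype.card S : ℝ) ^ 2 * sq w) := by
    linarith
  exact le_of_mul_le_mul_left h5 hcard

/-- The averages over conjugacy classes in one coordinate. -/
noncomputable def cz (z : Z) (w : (Z → S) → ℂ) (s : S) : (Z → S) → ℂ :=
  ((Fintype.card S : ℂ))⁻¹ • ∑ t : S, rt (ms z (t * s⁻¹ * t⁻¹)) w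

lemma sum_cz (z : Z) (w : (Z → S) → ℂ) :
    (Fintype.card S : ℝ) * ∑ s, sq (cz z w s) =
      (∑ s : S, ∑ t : S, ip w (rt (ms z (s * t * s⁻¹ * t⁻¹)) w)).re := by
  have hcard : (0 : ℝ) < Fintype.card S := by exact_mod_cast Fintype.card_pos
  have h1 : ∀ s, (Fintype.card S : ℂ) ^ 2 * ip (cz z w s) (cz z w s) =
      ∑ t : S, ∑ t' : S, ip w (rt (ms z (t * s * t⁻¹ * (t' * s⁻¹ * t'⁻¹))) w) := by
    intro s
    unfold cz
    rw [ip_smul_left, ip_smul_right, ip_sum_left, map_inv₀, Complex.conj_natCast]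
    have hc : (Fintype.card S : ℂ) ≠ 0 := card_ne_zero'
    have h2 : ∀ X : ℂ, (Fintype.card S : ℂ) ^ 2 *
        ((Fintype.card S : ℂ)⁻¹ * ((Fintype.card S : ℂ)⁻¹ * X)) = X := by
      intro X
      field_simp
    rw [h2]
    refine Finset.sum_congr rfl fun t _ => ?_
    rw [ip_sum_right]
    refine Finset.sum_congr rfl fun t' _ => ?_
    rw [ip_rt_left, rt_mul, ← map_inv, ← map_mul]
    congr 3
    group
  have h3 : ∀ t : S, ∑ s : S, ∑ t' : S, ip w (rt (ms z (t * s * t⁻¹ * (t' * s⁻¹ * t'⁻¹))) w) =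
      ∑ s : S, ∑ u : S, ip w (rt (ms z (s * u * s⁻¹ * u⁻¹)) w) := by
    intro t
    refine Fintype.sum_equiv (MulAut.conj t).toEquiv _ _ fun s => ?_
    refine Fintype.sum_equiv (Equiv.mulRight t⁻¹) _ _ fun t' => ?_
    simp only [MulEquiv.toEquiv_eq_coe, MulEquiv.coe_toEquiv, MulAut.conj_apply,
      Equiv.coe_mulRight]
    congr 3
    group
  have h4 : (Fintype.card S : ℂ) ^ 2 * ∑ s, ip (cz z w s) (cz z w s) =
      Fintype.card S * ∑ s : S, ∑ u : S, ip w (rt (ms z (s * u * s⁻¹ * u⁻¹)) w) := by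
    rw [Finset.mul_sum, Finset.sum_congr rfl fun s _ => h1 s, Finset.sum_comm,
      Finset.sum_congr rfl fun t _ => h3 t, Finset.sum_const, Finset.card_univ, nsmul_eq_mul]
  have h5 : (Fintype.card S : ℂ) * ∑ s, ip (cz z w s) (cz z w s) =
      ∑ s : S, ∑ u : S, ip w (rt (ms z (s * u * s⁻¹ * u⁻¹)) w) := by
    have hc : (Fintype.card S : ℂ) ≠ 0 := card_ne_zero'
    apply mul_left_cancel₀ hc
    rw [← h4]
    ring
  rw [← h5]
  simp_rw [ip_self]
  rw [← Complex.ofReal_sum]
  have h6 : ((Fintype.card S : ℂ)) = ((Fintype.card S : ℝ) : ℂ) := by simp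
  rw [h6, ← Complex.ofReal_mul, Complex.ofReal_re]

end Coord

section Main

variable {S : Type} [Group S] [Fintype S] {A B : Type} [Fintype A] [Fintype B] [DecidableEq A]
  [DecidableEq B]

/-- The basic estimate. -/
lemma base (hcomm : ∀ f : S → ℂ, ∑ g, f g = 0 →
      (∑ s : S, ∑ t : S, ip f (rt (s * t * s⁻¹ * t⁻¹) f)).re ≤
        (1 / 4) * (Fintype.card S : ℝ) ^ 2 * sq f) (z : A × B) (w : (A × B → S) → ℂ)
    (hw : Inv (sndHom A B S) w) (h0 : avh (ms z) w = 0) :
    sq (avh (fstHom A B S) w) ≤ 1 / 2 * sq w := by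
  have hcard : (0 : ℝ) < Fintype.card S := by exact_mod_cast Fintype.card_pos
  obtain ⟨a, b⟩ := z
  -- the diagonal copy of `S` in the row of `a`
  set ψ : S →* (A × B → S) := (fstHom A B S).comp (ms a) with hψ
  have hP : avh (fstHom A B S) (avh ψ w) = avh (fstHom A B S) w := by
    rw [avh_eq_sum ψ, avh_smul, avh_sum]
    have h1 : ∀ s : S, avh (fstHom A B S) (rt (ψ s) w) = avh (fstHom A B S) w := fun s =>
      avh_rt_self (fstHom A B S) (ms a s) w
    simp_rw [h1]
    rw [Finset.sum_const, Finset.card_univ, ← Nat.cast_smul_eq_nsmul ℂ, smul_smul,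
      inv_mul_cancel₀ card_ne_zero', one_smul]
  have h1 : sq (avh (fstHom A B S) w) ≤ sq (avh ψ w) := by
    rw [← hP]
    exact sq_avh_le _ _
  -- the elements of the column
  set τ : S → (A × B → S) := fun t => sndHom A B S (ms b t) with hτ
  have hτw : ∀ t, rt (τ t) w = w := fun t => (inv_iff_rt _ _).mp hw (ms b t)
  set ρ : S → (A × B → S) := fun s z' => if z'.1 = a ∧ z'.2 ≠ b then s else 1 with hρ
  set u : S → (A × B → S) → ℂ := fun s => rt (ρ s) w with hu
  have hsplit : ∀ s, ψ s = ms (a, b) s * ρ s := by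
    intro s
    funext z'
    obtain ⟨a', b'⟩ := z'
    show ms a s a' = ms (a, b) s (a', b') * ρ s (a', b')
    by_cases ha : a' = a
    · subst ha
      by_cases hb : b' = b
      · subst hb
        rw [ms_same, ms_same]
        simp [hρ]
      · rw [ms_same, ms_ne (by simp [hb])]
        simp [hρ, hb]
    · rw [ms_ne ha, ms_ne (by simp [ha])]
      simp [hρ, ha]
  have hτρ : ∀ s t, τ t * ρ s = ρ s * τ t := by
    intro s t
    funext z'
    obtain ⟨a', b'⟩ := z'
    show ms b t b' * ρ s (a', b') = ρ s (a', b') * ms b t b'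
    by_cases hb : b' = b
    · subst hb
      simp [hρ]
    · rw [ms_ne hb, one_mul, mul_one]
  have hτm : ∀ s t, τ t * ms (a, b) s = ms (a, b) (t * s * t⁻¹) * τ t := by
    intro s t
    funext z'
    obtain ⟨a', b'⟩ := z'
    show ms b t b' * ms (a, b) s (a', b') = ms (a, b) (t * s * t⁻¹) (a', b') * ms b t b'
    by_cases hz : (a', b') = (a, b)
    · rw [hz, ms_same, ms_same]
      obtain ⟨rfl, rfl⟩ := Prod.mk.inj hz
      rw [ms_same]
      group
    · rw [ms_ne hz, ms_ne hz, one_mul, mul_one]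
  have hτu : ∀ s t, rt (τ t) (u s) = u s := by
    intro s t
    rw [hu]
    simp only
    rw [rt_mul, hτρ, ← rt_mul, hτw]
  have h2 : ∀ s t, ip w (rt (ms (a, b) s) (u s)) = ip w (rt (ms (a, b) (t * s * t⁻¹)) (u s)) := by
    intro s t
    rw [← ip_rt_rt (τ t), hτw, rt_mul, hτm, ← rt_mul, hτu]
  have h3 : ∀ s, ip w (rt (ms (a, b) s) (u s)) = ip (cz (a, b) w s) (u s) := by
    intro s
    unfold cz
    rw [ip_smul_left, ip_sum_left, map_inv₀, Complex.conj_natCast]
    have h4 : ∀ t : S, ip (rt (ms (a, b) (t * s⁻¹ * t⁻¹)) w) (u s) =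
        ip w (rt (ms (a, b) s) (u s)) := by
      intro t
      rw [ip_rt_left, h2 s t, ← map_inv]
      congr 3
      group
    rw [Finset.sum_congr rfl fun t _ => h4 t, Finset.sum_const, Finset.card_univ, nsmul_eq_mul,
      ← mul_assoc, inv_mul_cancel₀ card_ne_zero', one_mul]
  have h4 : ip w (avh ψ w) = ((Fintype.card S : ℂ))⁻¹ * ∑ s, ip (cz (a, b) w s) (u s) := by
    rw [avh_eq_sum, ip_smul_right, ip_sum_right]
    congr 1
    refine Finset.sum_congr rfl fun s _ => ?_
    rw [hsplit, ← rt_mul, ← h3]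
  have h5 : (Fintype.card S : ℝ) * sq (avh ψ w) = ∑ s, (ip (cz (a, b) w s) (u s)).re := by
    have h6 : (Fintype.card S : ℂ) * ip w (avh ψ w) = ∑ s, ip (cz (a, b) w s) (u s) := by
      rw [h4, ← mul_assoc, mul_inv_cancel₀ card_ne_zero', one_mul]
    rw [ip_self_avh] at h6
    have h7 := congrArg Complex.re h6
    rw [Complex.re_sum] at h7
    rw [← h7]
    simp
  have h6 : ∀ s, (ip (cz (a, b) w s) (u s)).re ≤ Real.sqrt (sq (cz (a, b) w s)) *
      Real.sqrt (sq w) := by
    intro s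
    have := ip_re_le (cz (a, b) w s) (u s)
    rwa [hu, sq_rt] at this
  have h7 : (Fintype.card S : ℝ) * sq (avh ψ w) ≤
      (∑ s, Real.sqrt (sq (cz (a, b) w s))) * Real.sqrt (sq w) := by
    rw [h5, Finset.sum_mul]
    exact Finset.sum_le_sum fun s _ => h6 s
  have h8 : (∑ s, Real.sqrt (sq (cz (a, b) w s))) ^ 2 ≤
      (Fintype.card S : ℝ) * ∑ s, sq (cz (a, b) w s) := by
    have h9 := Finset.sum_mul_sq_le_sq_mul_sq Finset.univ (fun _ : S => (1 : ℝ))
      (fun s => Real.sqrt (sq (cz (a, b) w s)))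
    simp only [one_mul, one_pow, Finset.sum_const, Finset.card_univ, nsmul_eq_mul, mul_one] at h9
    simp_rw [Real.sq_sqrt (sq_nonneg' _)] at h9
    exact h9
  rw [sum_cz] at h8
  have h9 := h8.trans (comm_coord hcomm (a, b) w h0)
  have h10 : ∑ s, Real.sqrt (sq (cz (a, b) w s)) ≤ (1 / 2) * Fintype.card S * Real.sqrt (sq w) := by
    apply le_of_sq_le_sq _ (by positivity)
    refine h9.trans (le_of_eq ?_)
    rw [mul_pow, Real.sq_sqrt (sq_nonneg' w)]
    ring
  have h11 : (Fintype.card S : ℝ) * sq (avh ψ w) ≤ Fintype.card S * (1 / 2 * sq w) := by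
    refine h7.trans ?_
    calc (∑ s, Real.sqrt (sq (cz (a, b) w s))) * Real.sqrt (sq w)
        ≤ ((1 / 2) * Fintype.card S * Real.sqrt (sq w)) * Real.sqrt (sq w) := by gcongr
      _ = (1 / 2) * Fintype.card S * (Real.sqrt (sq w)) ^ 2 := by ring
      _ = Fintype.card S * (1 / 2 * sq w) := by
          rw [Real.sq_sqrt (sq_nonneg' w)]
          ring
  exact h1.trans (le_of_mul_le_mul_left h11 hcard)

end Main

end Amp

/-- AMP. Rows and columns. -/
theorem angle_amp {S : Type} [Group S] [Fintype S] (hS : commutator S = ⊤)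
    (hcomm : ∀ f : S → ℂ, ∑ g, f g = 0 →
      (∑ s : S, ∑ t : S, ip f (rt (s * t * s⁻¹ * t⁻¹) f)).re ≤ (1 / 4) * (Fintype.card S : ℝ) ^ 2 * sq f)
    (A B : Type) [Fintype A] [Fintype B] [DecidableEq A] [DecidableEq B] :
    Angle (fstHom A B S) (sndHom A B S) (1 / 2) := by
  intro f hf hinv
  exact Amp.reduce (fstHom A B S) (sndHom A B S) (fun z w hw h0 => Amp.base hcomm z w hw h0)
    Finset.univ.toList f hinv (Amp.EE_univ hf)

end Pool.Agent.MPfe8e9b
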