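import Mathlib.Algebra.Group.Subgroup.Finite
import Pool.Agent.Lib.MP_fe8e9b_al.Avg

/-!
# MP_fe8e9b_al: angles of products of groups (module ANGPI)
-/

open scoped BigOperators

namespace Pool.Agent.MPfe8e9b

namespace AnglePi

section One

variable {H H' G : Type*} [Group H] [Fintype H] [Group H'] [Group G] [Fintype G]

/-- The angle condition as an inequality for all invariant functions. -/
theorem one_ineq (φ : H →* G) (ψ : H' →* G) {c : ℝ} (h : Angle φ ψ c) (f : G → ℂ)
    (hf : Inv ψ f) :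
    sq (avh φ f) ≤ c * sq f + (1 - c) * sq (avh (MonoidHom.id G) f) := by
  set m := avh (MonoidHom.id G) f with hm
  have hmc : ∀ x y, m x = m y := by
    intro x y
    have := avh_inv (MonoidHom.id G) f (x⁻¹ * y) x
    simp only [MonoidHom.id_apply, mul_inv_cancel_left] at this
    rw [hm, this]
  have hmφ : Inv φ m := fun k g => hmc _ _
  have hmψ : Inv ψ m := fun k g => hmc _ _
  have hsum : ∑ g, (f - m) g = 0 := by
    simp only [Pi.sub_apply, Finset.sum_sub_distrib]
    rw [hm, sum_avh, sub_self]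
  have hinv : Inv ψ (f - m) := by
    intro k g
    simp only [Pi.sub_apply]
    rw [hf k g, hmψ k g]
  have h1 := h (f - m) hsum hinv
  have h2 : avh φ (f - m) = avh φ f - m := by
    rw [avh_sub, avh_of_inv φ hmφ]
  have h3 : (ip f m).re = sq m := ip_self_avh_re (MonoidHom.id G) f
  have h4 : (ip (avh φ f) m).re = sq m := by
    rw [ip_avh, avh_of_inv φ hmφ, h3]
  rw [h2, sq_sub, sq_sub, h3, h4] at h1
  linarith

end One

section Pi

variable {ι : Type*} [Fintype ι] [DecidableEq ι] {H H' G : ι → Type*}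
    [∀ i, Group (H i)] [∀ i, Fintype (H i)] [∀ i, Group (H' i)] [∀ i, Group (G i)]
    [∀ i, Fintype (G i)]

/-- The homomorphism in coordinate `i`. -/
def hat (φ : ∀ i, H i →* G i) (i : ι) : H i →* (∀ i, G i) :=
  (MonoidHom.mulSingle G i).comp (φ i)

omit [Fintype ι] [∀ i, Fintype (H i)] [∀ i, Fintype (G i)] in
theorem hat_apply (φ : ∀ i, H i →* G i) (i : ι) (h : H i) :
    hat φ i h = Pi.mulSingle i (φ i h) := rfl

omit [∀ i, Fintype (H i)] [Fintype ι] [∀ i, Fintype (G i)] in
theorem hat_eq_piHom (φ : ∀ i, H i →* G i) (i : ι) (h : H i) :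
    hat φ i h = piHom φ (Pi.mulSingle i h) := by
  funext j
  show Pi.mulSingle i (φ i h) j = φ j (Pi.mulSingle i h j)
  by_cases hj : j = i
  · subst hj
    simp
  · simp [Pi.mulSingle_eq_of_ne hj]

/-- One coordinate. -/
theorem coord_ineq (φ : ∀ i, H i →* G i) (ψ : ∀ i, H' i →* G i) {c : ℝ} (i : ι)
    (h : Angle (φ i) (ψ i) c) (f : (∀ i, G i) → ℂ) (hf : Inv (hat ψ i) f) :
    sq (avh (hat φ i) f) ≤
      c * sq f + (1 - c) * sq (avh (hat (fun i => MonoidHom.id (G i)) i) f) := by
  have key : ∀ F : (∀ i, G i) → ℂ, ∑ g, sq (fun x : G i => F (g * Pi.mulSingle i x)) =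
      Fintype.card (G i) * sq F := by
    intro F
    simp only [sq]
    rw [Finset.sum_comm]
    have : ∀ x : G i, ∑ g, ‖F (g * Pi.mulSingle i x)‖ ^ 2 = ∑ g, ‖F g‖ ^ 2 := fun x =>
      sq_rt (Pi.mulSingle i x) F
    simp only [this, Finset.sum_const, Finset.card_univ, nsmul_eq_mul]
  have h1 : ∀ g : (∀ i, G i), sq (fun x : G i => avh (hat φ i) f (g * Pi.mulSingle i x)) ≤
      c * sq (fun x : G i => f (g * Pi.mulSingle i x)) + (1 - c) *
        sq (fun x : G i => avh (hat (fun i => MonoidHom.id (G i)) i) f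
          (g * Pi.mulSingle i x)) := by
    intro g
    have hg : Inv (ψ i) (fun x : G i => f (g * Pi.mulSingle i x)) := by
      intro k x
      have := hf k (g * Pi.mulSingle i x)
      rw [hat_apply, mul_assoc, ← Pi.mulSingle_mul] at this
      exact this
    have h2 := one_ineq (φ i) (ψ i) h (fun x : G i => f (g * Pi.mulSingle i x)) hg
    have h3 : avh (φ i) (fun x : G i => f (g * Pi.mulSingle i x)) =
        fun x : G i => avh (hat φ i) f (g * Pi.mulSingle i x) := by
      funext x
      simp only [avh, hat_apply, mul_assoc, ← Pi.mulSingle_mul]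
    have h4 : avh (MonoidHom.id (G i)) (fun x : G i => f (g * Pi.mulSingle i x)) =
        fun x : G i => avh (hat (fun i => MonoidHom.id (G i)) i) f
          (g * Pi.mulSingle i x) := by
      funext x
      simp only [avh, hat_apply, mul_assoc, ← Pi.mulSingle_mul]
    rw [h3, h4] at h2
    exact h2
  have h5 := Finset.sum_le_sum (fun g (_ : g ∈ Finset.univ) => h1 g)
  rw [Finset.sum_add_distrib, ← Finset.mul_sum, ← Finset.mul_sum, key, key, key] at h5
  have hpos : (0 : ℝ) < Fintype.card (G i) := by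
    exact_mod_cast Fintype.card_pos
  nlinarith [h5, hpos, mul_pos hpos hpos, mul_le_mul_of_nonneg_left h5 hpos.le,
    (mul_le_mul_iff_right₀ hpos (b := sq (avh (hat φ i) f)) (c := c * sq f + (1 - c) *
      sq (avh (hat (fun i => MonoidHom.id (G i)) i) f))).mp (by linarith)]

set_option linter.unusedSectionVars false

/-- Successive averages over the coordinates of a list. -/
noncomputable def opL (φ : ∀ i, H i →* G i) : List ι → ((∀ i, G i) → ℂ) → ((∀ i, G i) → ℂ)
  | [], f => f
  | i :: l, f => avh (hat φ i) (opL φ l f)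

theorem opL_sub (φ : ∀ i, H i →* G i) (l : List ι) (f f' : (∀ i, G i) → ℂ) :
    opL φ l (f - f') = opL φ l f - opL φ l f' := by
  induction l with
  | nil => rfl
  | cons i l ih => simp only [opL, ih, avh_sub]

theorem sq_opL_le (φ : ∀ i, H i →* G i) (l : List ι) (f : (∀ i, G i) → ℂ) :
    sq (opL φ l f) ≤ sq f := by
  induction l with
  | nil => exact le_rfl
  | cons i l ih => exact (sq_avh_le _ _).trans ih

theorem avh_rt_comm (φ : ∀ i, H i →* G i) (i j : ι) (hij : i ≠ j) (x : G j)
    (f : (∀ i, G i) → ℂ) :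
    rt (Pi.mulSingle j x) (avh (hat φ i) f) = avh (hat φ i) (rt (Pi.mulSingle j x) f) := by
  funext g
  simp only [rt, avh, hat_apply, mul_assoc]
  congr 1
  refine Finset.sum_congr rfl fun h _ => ?_
  congr 2
  exact (Pi.mulSingle_commute (f := G) hij.symm x (φ i h)).eq

theorem opL_rt_comm (φ : ∀ i, H i →* G i) (l : List ι) (j : ι) (hj : j ∉ l) (x : G j)
    (f : (∀ i, G i) → ℂ) :
    rt (Pi.mulSingle j x) (opL φ l f) = opL φ l (rt (Pi.mulSingle j x) f) := by
  induction l with
  | nil => rfl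
  | cons i l ih =>
    simp only [List.mem_cons, not_or] at hj
    simp only [opL]
    rw [avh_rt_comm φ i j (fun h => hj.1 h.symm), ih hj.2]

theorem opL_sum (φ : ∀ i, H i →* G i) (l : List ι) {κ : Type*} (S : Finset κ)
    (a : κ → (∀ i, G i) → ℂ) : opL φ l (∑ k ∈ S, a k) = ∑ k ∈ S, opL φ l (a k) := by
  induction l with
  | nil => rfl
  | cons i l ih => simp only [opL, ih, avh_sum]

theorem opL_smul (φ : ∀ i, H i →* G i) (l : List ι) (c : ℂ) (f : (∀ i, G i) → ℂ) :
    opL φ l (c • f) = c • opL φ l f := by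
  induction l with
  | nil => rfl
  | cons i l ih => simp only [opL, ih, avh_smul]

theorem opL_avh_comm {K : ι → Type*} [∀ i, Group (K i)] [∀ i, Fintype (K i)]
    (φ : ∀ i, H i →* G i) (ε : ∀ i, K i →* G i) (l : List ι) (j : ι) (hj : j ∉ l)
    (f : (∀ i, G i) → ℂ) :
    avh (hat ε j) (opL φ l f) = opL φ l (avh (hat ε j) f) := by
  rw [avh_eq_sum, avh_eq_sum, opL_smul, opL_sum]
  congr 1
  refine Finset.sum_congr rfl fun h _ => ?_
  rw [hat_apply, opL_rt_comm φ l j hj]

theorem opL_inv (φ : ∀ i, H i →* G i) (ψ : ∀ i, H' i →* G i) (l : List ι) (j : ι)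
    (hj : j ∉ l) (f : (∀ i, G i) → ℂ) (hf : Inv (hat ψ j) f) :
    Inv (hat ψ j) (opL φ l f) := by
  rw [inv_iff_rt] at hf ⊢
  intro h
  rw [hat_apply, opL_rt_comm φ l j hj, ← hat_apply, hf h]

theorem avh_inv_ne {K : ι → Type*} [∀ i, Group (K i)] [∀ i, Fintype (K i)]
    (ε : ∀ i, K i →* G i) (ψ : ∀ i, H' i →* G i) (i j : ι) (hij : i ≠ j)
    (f : (∀ i, G i) → ℂ) (hf : Inv (hat ψ j) f) : Inv (hat ψ j) (avh (hat ε i) f) := by
  rw [inv_iff_rt] at hf ⊢
  intro h
  rw [hat_apply, avh_rt_comm ε i j hij, ← hat_apply, hf h]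

theorem list_ineq (φ : ∀ i, H i →* G i) (ψ : ∀ i, H' i →* G i) {c : ℝ} (hc : 0 ≤ c)
    (hc1 : c ≤ 1) (h : ∀ i, Angle (φ i) (ψ i) c) (l : List ι) (hl : l.Nodup) :
    ∀ f : (∀ i, G i) → ℂ, (∀ i ∈ l, Inv (hat ψ i) f) →
    sq (opL φ l f) ≤ c * sq f + (1 - c) * sq (opL (fun i => MonoidHom.id (G i)) l f) := by
  induction l with
  | nil =>
    intro f _
    simp only [opL]
    linarith
  | cons i l ih =>
    intro f hf
    rw [List.nodup_cons] at hl
    obtain ⟨hil, hl⟩ := hl
    have ihf := ih hl f (fun j hj => hf j (List.mem_cons_of_mem _ hj))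
    set ε : ∀ i, G i →* G i := fun i => MonoidHom.id (G i) with hε
    have ihe := ih hl (avh (hat ε i) f) (fun j hj => avh_inv_ne ε ψ i j
      (fun hij => hil (hij ▸ hj)) f (hf j (List.mem_cons_of_mem _ hj)))
    have h1 := coord_ineq φ ψ i (h i) (opL φ l f)
      (opL_inv φ ψ l i hil f (hf i List.mem_cons_self))
    rw [← hε, opL_avh_comm φ ε l i hil] at h1
    have h2 : sq (opL ε l f) + sq (avh (hat ε i) f) ≤ sq f + sq (avh (hat ε i) (opL ε l f)) := by
      have h3 := sq_sub_avh (hat ε i) f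
      have h4 := sq_sub_avh (hat ε i) (opL ε l f)
      have h5 := sq_opL_le ε l (f - avh (hat ε i) f)
      rw [opL_sub, ← opL_avh_comm ε ε l i hil] at h5
      linarith
    simp only [opL]
    rw [← opL_avh_comm ε ε l i hil] at ihe
    have h1c : 0 ≤ 1 - c := by linarith
    nlinarith [mul_le_mul_of_nonneg_left ihf hc, mul_le_mul_of_nonneg_left ihe h1c,
      mul_le_mul_of_nonneg_left h2 (mul_nonneg hc h1c)]

theorem avh_pi_avh_hat (φ : ∀ i, H i →* G i) (i : ι) (f : (∀ i, G i) → ℂ) :
    avh (piHom φ) (avh (hat φ i) f) = avh (piHom φ) f := by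
  rw [avh_eq_sum (hat φ i), avh_smul, avh_sum]
  have : ∀ h, avh (piHom φ) (rt (hat φ i h) f) = avh (piHom φ) f := by
    intro h
    rw [hat_eq_piHom, avh_rt_self]
  simp only [this, Finset.sum_const, Finset.card_univ, ← Nat.cast_smul_eq_nsmul ℂ, smul_smul]
  rw [inv_mul_cancel₀ card_ne_zero', one_smul]

theorem avh_pi_opL (φ : ∀ i, H i →* G i) (l : List ι) (f : (∀ i, G i) → ℂ) :
    avh (piHom φ) (opL φ l f) = avh (piHom φ) f := by
  induction l with
  | nil => rfl
  | cons i l ih => rw [opL, avh_pi_avh_hat, ih]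

theorem rt_opL_self (φ : ∀ i, H i →* G i) (l : List ι) (j : ι) (hj : j ∈ l) (h : H j)
    (f : (∀ i, G i) → ℂ) : rt (hat φ j h) (opL φ l f) = opL φ l f := by
  induction l with
  | nil => simp at hj
  | cons i l ih =>
    simp only [opL]
    by_cases hij : i = j
    · subst hij
      rw [rt_avh_self]
    · have hj' : j ∈ l := by
        rcases List.mem_cons.mp hj with h' | h'
        · exact absurd h'.symm hij
        · exact h'
      rw [hat_apply, avh_rt_comm φ i j hij, ← hat_apply, ih hj']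

theorem opL_univ (φ : ∀ i, H i →* G i) (f : (∀ i, G i) → ℂ) :
    opL φ (Finset.univ : Finset ι).toList f = avh (piHom φ) f := by
  have hinv : Inv (piHom φ) (opL φ (Finset.univ : Finset ι).toList f) := by
    rw [inv_iff_rt]
    intro h
    let S : Subgroup (∀ i, G i) :=
      { carrier := {s | rt s (opL φ (Finset.univ : Finset ι).toList f) =
          opL φ (Finset.univ : Finset ι).toList f}
        mul_mem' := by
          intro a b ha hb
          simp only [Set.mem_ofPred_eq] at ha hb ⊢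
          rw [← rt_mul, hb, ha]
        one_mem' := rt_one _
        inv_mem' := by
          intro a ha
          simp only [Set.mem_ofPred_eq] at ha ⊢
          conv_lhs => rw [← ha]
          rw [rt_mul, inv_mul_cancel, rt_one] }
    have : piHom φ h ∈ S := by
      refine Subgroup.pi_mem_of_mulSingle_mem _ fun i => ?_
      exact rt_opL_self φ _ i (by simp) (h i) f
    exact this
  rw [← avh_of_inv _ hinv, avh_pi_opL]

end Pi

end AnglePi

/-- ANGLE-PI. Angles of products. -/
theorem angle_pi {ι : Type*} [Fintype ι] [DecidableEq ι] {H H' G : ι → Type*}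
    [∀ i, Group (H i)] [∀ i, Fintype (H i)] [∀ i, Group (H' i)] [∀ i, Group (G i)]
    [∀ i, Fintype (G i)] (φ : ∀ i, H i →* G i) (ψ : ∀ i, H' i →* G i) {c : ℝ} (hc : 0 ≤ c)
    (h : ∀ i, Angle (φ i) (ψ i) c) : Angle (piHom φ) (piHom ψ) c := by
  intro f hf hinv
  by_cases hc1 : c ≤ 1
  · have h1 := AnglePi.list_ineq φ ψ hc hc1 h (Finset.univ : Finset ι).toList
      (Finset.nodup_toList _) f (fun i _ k g => by
        rw [AnglePi.hat_eq_piHom]
        exact hinv _ g)
    rw [AnglePi.opL_univ, AnglePi.opL_univ] at h1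
    have h2 : avh (piHom (fun i => MonoidHom.id (G i))) f = 0 := by
      funext g
      have h3 := sum_rt g⁻¹ f
      simp only [avh, Pi.zero_apply]
      have : ∑ x : (∀ i, G i), f (g * piHom (fun i => MonoidHom.id (G i)) x) = ∑ x, f x :=
        Fintype.sum_equiv (Equiv.mulLeft g) _ _ fun x => rfl
      rw [this, hf, mul_zero]
    rw [h2, sq_zero] at h1
    linarith
  · have h1 := sq_avh_le (piHom φ) f
    have h2 := sq_nonneg' f
    nlinarith

end Pool.Agent.MPfe8e9b
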