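import Pool.Agent.Lib.MP_fe8e9b_al.Defs
import Mathlib.FieldTheory.Finite.Basic
import Mathlib.LinearAlgebra.Matrix.Notation
import Mathlib.Tactic

/-!
# MP_fe8e9b_al: the order of SL(2, F)
-/

set_option autoImplicit false

open scoped BigOperators MatrixGroups

namespace Pool.Agent.MPfe8e9b

namespace SlCard

variable {F : Type} [Field F]

/-- The matrix with nonzero upper left entry. -/
def mkA (a : Fˣ) (b c : F) : SL(2, F) :=
  ⟨!![(a : F), b; c, (1 + b * c) * (a : F)⁻¹], by
    rw [Matrix.det_fin_two_of]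
    have := a.ne_zero
    field_simp
    ring⟩

/-- The matrix with zero upper left entry. -/
def mkB (b : Fˣ) (d : F) : SL(2, F) :=
  ⟨!![0, (b : F); -(b : F)⁻¹, d], by
    rw [Matrix.det_fin_two_of]
    have := b.ne_zero
    field_simp
    ring⟩

lemma det_eq (k : SL(2, F)) : k.1 0 0 * k.1 1 1 - k.1 0 1 * k.1 1 0 = 1 := by
  have := k.2
  rwa [Matrix.det_fin_two] at this

lemma b_ne {k : SL(2, F)} (h : k.1 0 0 = 0) : k.1 0 1 ≠ 0 := by
  intro h1
  have := det_eq k
  rw [h, h1] at this
  simp at this

open Classical in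
/-- The decomposition of SL(2, F). -/
noncomputable def eqv : SL(2, F) ≃ (Fˣ × F × F) ⊕ (Fˣ × F) where
  toFun k := if h : k.1 0 0 = 0 then Sum.inr (Units.mk0 (k.1 0 1) (b_ne h), k.1 1 1)
    else Sum.inl (Units.mk0 (k.1 0 0) h, k.1 0 1, k.1 1 0)
  invFun x := Sum.elim (fun y => mkA y.1 y.2.1 y.2.2) (fun y => mkB y.1 y.2) x
  left_inv k := by
    by_cases h : k.1 0 0 = 0
    · simp only [dif_pos h, Sum.elim_inr]
      apply Subtype.ext
      have hd := det_eq k
      have hb := b_ne h
      ext i j
      fin_cases i <;> fin_cases j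
      · simp [mkB, h]
      · simp [mkB]
      · simp only [mkB, Units.val_mk0]
        show -(k.1 0 1)⁻¹ = k.1 1 0
        rw [h] at hd
        field_simp
        linear_combination hd
      · simp [mkB]
    · simp only [dif_neg h, Sum.elim_inl]
      apply Subtype.ext
      have hd := det_eq k
      ext i j
      fin_cases i <;> fin_cases j
      · simp [mkA]
      · simp [mkA]
      · simp [mkA]
      · simp only [mkA, Units.val_mk0]
        show (1 + k.1 0 1 * k.1 1 0) * (k.1 0 0)⁻¹ = k.1 1 1
        field_simp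
        linear_combination -hd
  right_inv x := by
    rcases x with ⟨a, b, c⟩ | ⟨b, d⟩
    · have h : (mkA a b c).1 0 0 ≠ 0 := by
        show (a : F) ≠ 0
        exact a.ne_zero
      refine (dif_neg h).trans ?_
      refine congrArg Sum.inl ?_
      exact Prod.ext (Units.ext rfl) (Prod.ext rfl rfl)
    · have h : (mkB b d).1 0 0 = 0 := rfl
      refine (dif_pos h).trans ?_
      refine congrArg Sum.inr ?_
      exact Prod.ext (Units.ext rfl) rfl

end SlCard

open SlCard

theorem card_sl2 (F : Type) [Field F] [Fintype F] [DecidableEq F] :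
    Fintype.card SL(2, F) + Fintype.card F = Fintype.card F ^ 3 := by
  have h1 : Fintype.card SL(2, F) = Fintype.card ((Fˣ × F × F) ⊕ (Fˣ × F)) :=
    Fintype.card_congr eqv
  have h2 : Fintype.card Fˣ = Fintype.card F - 1 := by
    rw [← Nat.card_eq_fintype_card, Nat.card_units, Nat.card_eq_fintype_card]
  have h3 : 1 ≤ Fintype.card F := Fintype.card_pos
  rw [h1, Fintype.card_sum, Fintype.card_prod, Fintype.card_prod, Fintype.card_prod, h2]
  obtain ⟨n, hn⟩ : ∃ n, Fintype.card F = n + 1 := ⟨Fintype.card F - 1, by omega⟩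
  rw [hn, Nat.add_sub_cancel]
  ring

/-- The number of matrices with given nonzero first column. -/
theorem card_sl2_col (F : Type) [Field F] [Fintype F] [DecidableEq F] (v : Fin 2 → F)
    (hv : v ≠ 0) :
    (Finset.univ.filter (fun k : SL(2, F) => ∀ i, k.1 i 0 = v i)).card = Fintype.card F := by
  obtain ⟨k₀, hk₀⟩ : ∃ k₀ : SL(2, F), ∀ i, k₀.1 i 0 = v i := by
    by_cases h : v 0 = 0
    · have h1 : v 1 ≠ 0 := by
        intro h1
        apply hv
        funext i
        fin_cases i
        · exact h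
        · exact h1
      refine ⟨⟨!![v 0, -(v 1)⁻¹; v 1, 0], ?_⟩, ?_⟩
      · rw [Matrix.det_fin_two_of]
        field_simp
        ring
      · intro i
        fin_cases i <;> rfl
    · refine ⟨⟨!![v 0, 0; v 1, (v 0)⁻¹], ?_⟩, ?_⟩
      · rw [Matrix.det_fin_two_of]
        field_simp
        ring
      · intro i
        fin_cases i <;> rfl
  rw [← Finset.card_univ (α := F)]
  symm
  refine Finset.card_bij (fun t _ => k₀ * e12 t) ?_ ?_ ?_
  · intro t _
    rw [Finset.mem_filter]
    refine ⟨Finset.mem_univ _, ?_⟩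
    intro i
    rw [← hk₀ i]
    show (k₀.1 * !![1, t; 0, 1]) i 0 = _
    rw [Matrix.mul_apply, Fin.sum_univ_two]
    simp
  · intro t _ t' _ h
    have h1 := mul_left_cancel h
    have h2 := congrArg (fun g : SL(2, F) => g.1 0 1) h1
    exact h2
  · intro k hk
    rw [Finset.mem_filter] at hk
    have hcol : ∀ i, k.1 i 0 = k₀.1 i 0 := fun i => by rw [hk.2 i, hk₀ i]
    have hd := det_eq k
    have hd₀ := det_eq k₀
    have c0 := hcol 0
    have c1 := hcol 1
    refine ⟨k₀.1 1 1 * k.1 0 1 - k₀.1 0 1 * k.1 1 1, Finset.mem_univ _, ?_⟩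
    apply Subtype.ext
    show k₀.1 * !![1, _; 0, 1] = k.1
    ext i j
    rw [Matrix.mul_apply, Fin.sum_univ_two]
    fin_cases i <;> fin_cases j
    · simp only [Fin.zero_eta, Fin.isValue, Matrix.of_apply, Matrix.cons_val', Matrix.cons_val_zero,
        Matrix.cons_val_fin_one, mul_one, Matrix.cons_val_one, mul_zero, add_zero]
      exact c0.symm
    · simp only [Fin.zero_eta, Fin.isValue, Fin.mk_one, Matrix.of_apply, Matrix.cons_val',
        Matrix.cons_val_one, Matrix.cons_val_fin_one, Matrix.cons_val_zero, mul_one]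
      rw [c0, c1] at hd
      linear_combination (k.1 0 1) * hd₀ - (k₀.1 0 1) * hd
    · simp only [Fin.mk_one, Fin.isValue, Fin.zero_eta, Matrix.of_apply, Matrix.cons_val',
        Matrix.cons_val_zero, Matrix.cons_val_fin_one, mul_one, Matrix.cons_val_one, mul_zero,
        add_zero]
      exact c1.symm
    · simp only [Fin.mk_one, Fin.isValue, Matrix.of_apply, Matrix.cons_val', Matrix.cons_val_one,
        Matrix.cons_val_fin_one, Matrix.cons_val_zero, mul_one]
      rw [c0, c1] at hd
      linear_combination (k.1 1 1) * hd₀ - (k₀.1 1 1) * hd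

end Pool.Agent.MPfe8e9b
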