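import Pool.Agent.Lib.MP_fe8e9b_al.Defs
import Pool.Agent.Lib.MP_fe8e9b_al.SlCard
import Mathlib.Algebra.Polynomial.Degree.Operations

/-!
# MP_fe8e9b_al: the walk on SL(2, F[X])
-/

set_option autoImplicit false
set_option linter.unusedSectionVars false

open scoped BigOperators MatrixGroups

namespace Pool.Agent.MPfe8e9b

open Polynomial

namespace Walk

section degree

variable {F : Type} [Field F]

lemma coeff_zero_of_dg_lt (M : SL(2, F[X])) {n : ℕ} (h : dg M < n) (i j : Fin 2) :
    (M.1 i j).coeff n = 0 := by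
  apply coeff_eq_zero_of_natDegree_lt
  refine lt_of_le_of_lt ?_ h
  exact Finset.le_sup (f := fun ij : Fin 2 × Fin 2 => (M.1 ij.1 ij.2).natDegree)
    (Finset.mem_univ (i, j))

lemma le_dg (M : SL(2, F[X])) {n : ℕ} {i j : Fin 2} (h : (M.1 i j).coeff n ≠ 0) : n ≤ dg M := by
  by_contra hlt
  exact h (coeff_zero_of_dg_lt M (not_le.mp hlt) i j)

lemma dg_le {M : SL(2, F[X])} {n : ℕ} (h : ∀ i j, ∀ m, n < m → (M.1 i j).coeff m = 0) :
    dg M ≤ n :=
  Finset.sup_le (fun ij _ => natDegree_le_iff_coeff_eq_zero.mpr (fun m hm => h ij.1 ij.2 m hm))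

lemma det_eq (M : SL(2, F[X])) : M.1 0 0 * M.1 1 1 - M.1 0 1 * M.1 1 0 = 1 := by
  have := M.2
  rwa [Matrix.det_fin_two] at this

lemma exists_coeff (M : SL(2, F[X])) : ∃ i j, (M.1 i j).coeff (dg M) ≠ 0 := by
  obtain ⟨ij, _, h⟩ := Finset.exists_mem_eq_sup (Finset.univ : Finset (Fin 2 × Fin 2))
    ⟨(0, 0), Finset.mem_univ _⟩ (fun ij => (M.1 ij.1 ij.2).natDegree)
  have hdg : dg M = (M.1 ij.1 ij.2).natDegree := h
  by_cases h0 : M.1 ij.1 ij.2 = 0
  · have hz : dg M = 0 := by rw [hdg, h0, natDegree_zero]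
    by_contra hcon
    push Not at hcon
    have hall : ∀ i j, M.1 i j = 0 := by
      intro i j
      ext n
      rcases Nat.eq_zero_or_pos n with rfl | hn
      · have := hcon i j
        rw [hz] at this
        rw [this, coeff_zero]
      · rw [coeff_zero_of_dg_lt M (by omega) i j, coeff_zero]
    have := det_eq M
    rw [hall, hall 0 1] at this
    simp at this
  · refine ⟨ij.1, ij.2, ?_⟩
    rw [hdg, coeff_natDegree]
    exact leadingCoeff_ne_zero.mpr h0

/-- Embedding of the constant matrices. -/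
noncomputable abbrev cst (k : SL(2, F)) : SL(2, F[X]) :=
  Matrix.SpecialLinearGroup.map (C : F →+* F[X]) k

lemma mul_cst_apply (γ : SL(2, F[X])) (k : SL(2, F)) (i j : Fin 2) (n : ℕ) :
    ((γ * cst k).1 i j).coeff n =
      (γ.1 i 0).coeff n * k.1 0 j + (γ.1 i 1).coeff n * k.1 1 j := by
  have h : (γ * cst k).1 i j = γ.1 i 0 * C (k.1 0 j) + γ.1 i 1 * C (k.1 1 j) := by
    show (γ.1 * (cst k).1) i j = _
    rw [Matrix.mul_apply, Fin.sum_univ_two]
    rfl
  rw [h, coeff_add, coeff_mul_C, coeff_mul_C]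

lemma dg_mul_cst_le (γ : SL(2, F[X])) (k : SL(2, F)) : dg (γ * cst k) ≤ dg γ := by
  apply dg_le
  intro i j m hm
  rw [mul_cst_apply, coeff_zero_of_dg_lt γ hm, coeff_zero_of_dg_lt γ hm]
  ring

lemma dg_mul_cst (γ : SL(2, F[X])) (k : SL(2, F)) : dg (γ * cst k) = dg γ := by
  apply le_antisymm (dg_mul_cst_le γ k)
  have h := dg_mul_cst_le (γ * cst k) k⁻¹
  have h2 : γ * cst k * cst k⁻¹ = γ := by
    rw [mul_assoc, ← map_mul, mul_inv_cancel, map_one, mul_one]
  rwa [h2] at h

lemma e12_inv {R : Type} [CommRing R] (t : R) : (e12 t)⁻¹ = e12 (-t) := by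
  rw [inv_eq_iff_mul_eq_one, ← e12_add, add_neg_cancel, e12_zero]

lemma shift_zero (M : SL(2, F[X])) (b c : F) (i : Fin 2) :
    (M * (e12 (C b + C c * X))⁻¹).1 i 0 = M.1 i 0 := by
  rw [e12_inv]
  show (M.1 * (!![1, -(C b + C c * X); 0, 1] : Matrix (Fin 2) (Fin 2) F[X])) i 0 = _
  rw [Matrix.mul_apply, Fin.sum_univ_two]
  simp

lemma shift_one (M : SL(2, F[X])) (b c : F) (i : Fin 2) :
    (M * (e12 (C b + C c * X))⁻¹).1 i 1 = M.1 i 1 - M.1 i 0 * C b - M.1 i 0 * X * C c := by
  rw [e12_inv]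
  show (M.1 * (!![1, -(C b + C c * X); 0, 1] : Matrix (Fin 2) (Fin 2) F[X])) i 1 = _
  rw [Matrix.mul_apply, Fin.sum_univ_two]
  simp
  ring

lemma shift_coeff (M : SL(2, F[X])) (b c : F) (i : Fin 2) (n : ℕ) :
    ((M * (e12 (C b + C c * X))⁻¹).1 i 1).coeff (n + 1) =
      (M.1 i 1).coeff (n + 1) - (M.1 i 0).coeff (n + 1) * b - (M.1 i 0).coeff n * c := by
  rw [shift_one, coeff_sub, coeff_sub, coeff_mul_C, coeff_mul_C, coeff_mul_X]

lemma caseA {M : SL(2, F[X])} {i : Fin 2} (h : (M.1 i 0).coeff (dg M) ≠ 0) (b c : F) :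
    dg M ≤ dg (M * (e12 (C b + C c * X))⁻¹) ∧
      (c ≠ 0 → dg M + 1 ≤ dg (M * (e12 (C b + C c * X))⁻¹)) := by
  refine ⟨le_dg _ (i := i) (j := 0) ?_, fun hc => le_dg _ (i := i) (j := 1) ?_⟩
  · rw [shift_zero]
    exact h
  · rw [shift_coeff, coeff_zero_of_dg_lt M (by omega), coeff_zero_of_dg_lt M (by omega)]
    simp only [zero_mul, sub_zero, zero_sub]
    exact neg_ne_zero.mpr (mul_ne_zero h hc)

lemma caseB {M : SL(2, F[X])} (h : ∀ i, (M.1 i 0).coeff (dg M) = 0) :
    1 ≤ dg M ∧ (∀ b c : F, dg M - 1 ≤ dg (M * (e12 (C b + C c * X))⁻¹)) ∧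
      ∃ c₀ : F, ∀ b c : F, c ≠ c₀ → dg M ≤ dg (M * (e12 (C b + C c * X))⁻¹) := by
  have h1 : 1 ≤ dg M := by
    by_contra hcon
    have h0 : dg M = 0 := by omega
    have hall : ∀ i, M.1 i 0 = 0 := by
      intro i
      ext n
      rcases Nat.eq_zero_or_pos n with rfl | hn
      · have := h i
        rw [h0] at this
        rw [this, coeff_zero]
      · rw [coeff_zero_of_dg_lt M (by omega) i 0, coeff_zero]
    have := det_eq M
    rw [hall, hall] at this
    simp at this
  obtain ⟨i, j, hij⟩ := exists_coeff M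
  have hj : j = 1 := by
    fin_cases j
    · exact absurd (h i) hij
    · rfl
  subst hj
  obtain ⟨m, hm⟩ : ∃ m, dg M = m + 1 := ⟨dg M - 1, by omega⟩
  rw [hm] at hij h
  have key : ∀ b c : F, (M.1 i 1).coeff (m + 1) ≠ (M.1 i 0).coeff m * c →
      m + 1 ≤ dg (M * (e12 (C b + C c * X))⁻¹) := by
    intro b c hne
    apply le_dg _ (i := i) (j := 1)
    rw [shift_coeff, h i, zero_mul, sub_zero]
    exact sub_ne_zero.mpr hne
  refine ⟨h1, ?_, (M.1 i 1).coeff (m + 1) / (M.1 i 0).coeff m, ?_⟩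
  · intro b c
    rw [hm, Nat.add_sub_cancel]
    by_cases hne : (M.1 i 1).coeff (m + 1) = (M.1 i 0).coeff m * c
    · apply le_dg _ (i := i) (j := 0)
      rw [shift_zero]
      intro h0
      rw [h0, zero_mul] at hne
      exact hij hne
    · exact (Nat.le_succ m).trans (key b c hne)
  · intro b c hc
    rw [hm]
    apply key
    intro heq
    have h0 : (M.1 i 0).coeff m ≠ 0 := by
      intro h0
      rw [h0, zero_mul] at heq
      exact hij heq
    apply hc
    rw [heq]
    field_simp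

end degree

section count

variable {F : Type} [Field F] [Fintype F] [DecidableEq F]

/-- The number of matrices with second row in a given line. -/
lemma card_line (a b : F) (hab : a ≠ 0 ∨ b ≠ 0) :
    (Finset.univ.filter (fun k : SL(2, F) => a * k.1 1 1 = b * k.1 1 0)).card ≤
      (Fintype.card F - 1) * Fintype.card F := by
  classical
  have hT : (((Finset.univ : Finset F).erase 0) ×ˢ (Finset.univ : Finset F)).card =
      (Fintype.card F - 1) * Fintype.card F := by
    rw [Finset.card_product, Finset.card_erase_of_mem (Finset.mem_univ _), Finset.card_univ]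
  rw [← hT]
  by_cases ha : a = 0
  · have hb : b ≠ 0 := by
      rcases hab with h | h
      · exact absurd ha h
      · exact h
    refine Finset.card_le_card_of_injOn (fun k => (k.1 1 1, k.1 0 1)) ?_ ?_
    · intro k hk
      rw [Finset.mem_coe, Finset.mem_filter] at hk
      have h2 := hk.2
      rw [ha, zero_mul] at h2
      have h10 : k.1 1 0 = 0 := by
        rcases mul_eq_zero.mp h2.symm with h | h
        · exact absurd h hb
        · exact h
      have hd := SlCard.det_eq k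
      rw [h10, mul_zero, sub_zero] at hd
      rw [Finset.mem_coe, Finset.mem_product, Finset.mem_erase]
      refine ⟨⟨?_, Finset.mem_univ _⟩, Finset.mem_univ _⟩
      intro h0
      simp only at h0
      rw [h0, mul_zero] at hd
      exact zero_ne_one hd
    · intro k hk k' hk' he
      rw [Finset.mem_coe, Finset.mem_filter] at hk hk'
      have h2 := hk.2
      have h2' := hk'.2
      rw [ha, zero_mul] at h2 h2'
      have h10 : k.1 1 0 = 0 := (mul_eq_zero.mp h2.symm).resolve_left hb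
      have h10' : k'.1 1 0 = 0 := (mul_eq_zero.mp h2'.symm).resolve_left hb
      have hd := SlCard.det_eq k
      have hd' := SlCard.det_eq k'
      rw [h10, mul_zero, sub_zero] at hd
      rw [h10', mul_zero, sub_zero] at hd'
      have e1 : k.1 1 1 = k'.1 1 1 := congrArg Prod.fst he
      have e2 : k.1 0 1 = k'.1 0 1 := congrArg Prod.snd he
      have hne : k'.1 1 1 ≠ 0 := by
        intro h0
        rw [h0, mul_zero] at hd'
        exact zero_ne_one hd'
      have e3 : k.1 0 0 = k'.1 0 0 := by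
        rw [e1] at hd
        exact mul_right_cancel₀ hne (hd.trans hd'.symm)
      apply Subtype.ext
      ext i j
      fin_cases i <;> fin_cases j
      · exact e3
      · exact e2
      · exact h10.trans h10'.symm
      · exact e1
  · refine Finset.card_le_card_of_injOn (fun k => (k.1 1 0, k.1 0 0)) ?_ ?_
    · intro k hk
      rw [Finset.mem_coe, Finset.mem_filter] at hk
      have hd := SlCard.det_eq k
      rw [Finset.mem_coe, Finset.mem_product, Finset.mem_erase]
      refine ⟨⟨?_, Finset.mem_univ _⟩, Finset.mem_univ _⟩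
      intro h0
      simp only at h0
      have h2 := hk.2
      rw [h0, mul_zero] at h2
      have h11 : k.1 1 1 = 0 := (mul_eq_zero.mp h2).resolve_left ha
      rw [h0, h11] at hd
      simp at hd
    · intro k hk k' hk' he
      rw [Finset.mem_coe, Finset.mem_filter] at hk hk'
      have e1 : k.1 1 0 = k'.1 1 0 := congrArg Prod.fst he
      have e2 : k.1 0 0 = k'.1 0 0 := congrArg Prod.snd he
      have h2 := hk.2
      have h2' := hk'.2
      have e3 : k.1 1 1 = k'.1 1 1 := by
        rw [e1, ← h2'] at h2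
        exact mul_left_cancel₀ ha h2
      have hd := SlCard.det_eq k
      have hd' := SlCard.det_eq k'
      have hne : k'.1 1 0 ≠ 0 := by
        intro h0
        rw [h0, mul_zero] at h2'
        have h11 : k'.1 1 1 = 0 := (mul_eq_zero.mp h2').resolve_left ha
        rw [h0, h11] at hd'
        simp at hd'
      have e4 : k.1 0 1 = k'.1 0 1 := by
        rw [e1, e2, e3] at hd
        have h5 : k.1 0 1 * k'.1 1 0 = k'.1 0 1 * k'.1 1 0 := by
          linear_combination hd' - hd
        exact mul_right_cancel₀ hne h5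
      apply Subtype.ext
      ext i j
      fin_cases i <;> fin_cases j
      · exact e2
      · exact e4
      · exact e1
      · exact e3

/-- The weight of a degree. -/
noncomputable def wt (F : Type) [Fintype F] (n : ℕ) : ℝ := ((Fintype.card F : ℝ) ^ n)⁻¹

lemma one_lt_q : (1 : ℝ) < Fintype.card F := by
  exact_mod_cast Fintype.one_lt_card (α := F)

lemma wt_pos (n : ℕ) : 0 < wt F n := by
  have := one_lt_q (F := F)
  unfold wt
  positivity

lemma wt_anti {m n : ℕ} (h : m ≤ n) : wt F n ≤ wt F m := by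
  have h1 := one_lt_q (F := F)
  unfold wt
  apply inv_anti₀ (by positivity)
  exact pow_le_pow_right₀ h1.le h

lemma wt_succ (n : ℕ) : wt F n = Fintype.card F * wt F (n + 1) := by
  have h1 := one_lt_q (F := F)
  unfold wt
  rw [pow_succ]
  field_simp

lemma sum_ite (c₀ : F) (x : ℝ) :
    ∑ bc : F × F, (if bc.2 = c₀ then x else 0) = Fintype.card F * x := by
  rw [Fintype.sum_prod_type]
  simp

lemma sum_const (x : ℝ) : ∑ _bc : F × F, x = (Fintype.card F : ℝ) ^ 2 * x := by
  rw [Finset.sum_const, Finset.card_univ, Fintype.card_prod, nsmul_eq_mul]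
  push_cast
  ring

lemma sumA {M : SL(2, F[X])} {i : Fin 2} (h : (M.1 i 0).coeff (dg M) ≠ 0) :
    ∑ bc : F × F, wt F (dg (M * (e12 (C bc.1 + C bc.2 * X))⁻¹)) ≤
      2 * Fintype.card F * wt F (dg M) := by
  have hterm : ∀ bc : F × F, wt F (dg (M * (e12 (C bc.1 + C bc.2 * X))⁻¹)) ≤
      wt F (dg M + 1) + (if bc.2 = 0 then wt F (dg M) else 0) := by
    intro bc
    obtain ⟨h1, h2⟩ := caseA h bc.1 bc.2
    split_ifs with hc
    · have := wt_anti (F := F) h1
      have := wt_pos (F := F) (dg M + 1)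
      linarith
    · have := wt_anti (F := F) (h2 hc)
      linarith
  refine (Finset.sum_le_sum (fun bc _ => hterm bc)).trans ?_
  rw [Finset.sum_add_distrib, sum_ite, sum_const]
  apply le_of_eq
  rw [wt_succ (F := F) (dg M)]
  ring

lemma sumB {M : SL(2, F[X])} (h : ∀ i, (M.1 i 0).coeff (dg M) = 0) :
    ∑ bc : F × F, wt F (dg (M * (e12 (C bc.1 + C bc.2 * X))⁻¹)) ≤
      2 * (Fintype.card F : ℝ) ^ 2 * wt F (dg M) := by
  obtain ⟨h1, h2, c₀, h3⟩ := caseB h
  have hterm : ∀ bc : F × F, wt F (dg (M * (e12 (C bc.1 + C bc.2 * X))⁻¹)) ≤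
      wt F (dg M) + (if bc.2 = c₀ then wt F (dg M - 1) else 0) := by
    intro bc
    split_ifs with hc
    · have := wt_anti (F := F) (h2 bc.1 bc.2)
      have := wt_pos (F := F) (dg M)
      linarith
    · have := wt_anti (F := F) (h3 bc.1 bc.2 hc)
      linarith
  refine (Finset.sum_le_sum (fun bc _ => hterm bc)).trans ?_
  rw [Finset.sum_add_distrib, sum_ite, sum_const]
  apply le_of_eq
  obtain ⟨m, hm⟩ : ∃ m, dg M = m + 1 := ⟨dg M - 1, by omega⟩
  rw [hm, Nat.add_sub_cancel, wt_succ (F := F) m]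
  ring

/-- The main estimate of one step. -/
lemma step (γ : SL(2, F[X])) :
    ∑ k : SL(2, F), ∑ bc : F × F,
      wt F (dg (γ * (cst k)⁻¹ * (e12 (C bc.1 + C bc.2 * X))⁻¹)) ≤
      4 * Fintype.card SL(2, F) * Fintype.card F * wt F (dg γ) := by
  classical
  set q : ℝ := (Fintype.card F : ℝ) with hq
  have hq1 : 1 < q := one_lt_q
  have hdg : ∀ k : SL(2, F), dg (γ * (cst k)⁻¹) = dg γ := by
    intro k
    rw [← map_inv]
    exact dg_mul_cst γ k⁻¹
  obtain ⟨i, j, hij⟩ := exists_coeff γ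
  let B : SL(2, F) → Prop := fun k =>
    (γ.1 i 0).coeff (dg γ) * k.1 1 1 = (γ.1 i 1).coeff (dg γ) * k.1 1 0
  have hcol : ∀ k : SL(2, F), ((γ * (cst k)⁻¹).1 i 0).coeff (dg γ) =
      (γ.1 i 0).coeff (dg γ) * k.1 1 1 - (γ.1 i 1).coeff (dg γ) * k.1 1 0 := by
    intro k
    rw [← map_inv, mul_cst_apply]
    have h1 : (k⁻¹).1 0 0 = k.1 1 1 := by
      rw [Matrix.SpecialLinearGroup.coe_inv, Matrix.adjugate_fin_two]
      rfl
    have h2 : (k⁻¹).1 1 0 = -k.1 1 0 := by
      rw [Matrix.SpecialLinearGroup.coe_inv, Matrix.adjugate_fin_two]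
      rfl
    rw [h1, h2]
    ring
  have hwt := wt_pos (F := F) (dg γ)
  have hterm : ∀ k : SL(2, F), ∑ bc : F × F,
      wt F (dg (γ * (cst k)⁻¹ * (e12 (C bc.1 + C bc.2 * X))⁻¹)) ≤
      2 * q * wt F (dg γ) + (if B k then 2 * q ^ 2 * wt F (dg γ) else 0) := by
    intro k
    by_cases hB : ∀ i', ((γ * (cst k)⁻¹).1 i' 0).coeff (dg (γ * (cst k)⁻¹)) = 0
    · have hBk : B k := by
        have := hB i
        rw [hdg, hcol] at this
        exact sub_eq_zero.mp this
      rw [if_pos hBk]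
      have h1 := sumB hB
      rw [hdg] at h1
      have : 0 ≤ 2 * q * wt F (dg γ) := by positivity
      linarith
    · push Not at hB
      obtain ⟨i', hi'⟩ := hB
      have h1 := sumA hi'
      rw [hdg] at h1
      have : 0 ≤ (if B k then 2 * q ^ 2 * wt F (dg γ) else 0) := by
        split_ifs
        · positivity
        · exact le_rfl
      linarith
  refine (Finset.sum_le_sum (fun k _ => hterm k)).trans ?_
  rw [Finset.sum_add_distrib, Finset.sum_const, Finset.card_univ, nsmul_eq_mul,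
    ← Finset.sum_filter, Finset.sum_const, nsmul_eq_mul]
  have hline : ((Finset.univ.filter B).card : ℝ) ≤ (q - 1) * q := by
    have h1 := card_line ((γ.1 i 0).coeff (dg γ)) ((γ.1 i 1).coeff (dg γ)) (by
      fin_cases j
      · exact Or.inl hij
      · exact Or.inr hij)
    have h2 : (Finset.univ.filter B).card ≤ (Fintype.card F - 1) * Fintype.card F := h1
    have h3 : ((Fintype.card F - 1 : ℕ) : ℝ) = q - 1 := by
      rw [Nat.cast_sub Fintype.card_pos]
      simp [hq]
    calc ((Finset.univ.filter B).card : ℝ)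
        ≤ (((Fintype.card F - 1) * Fintype.card F : ℕ) : ℝ) := by exact_mod_cast h2
      _ = (q - 1) * q := by rw [Nat.cast_mul, h3]
  have hK : (Fintype.card SL(2, F) : ℝ) = q ^ 3 - q := by
    have h1 := card_sl2 F
    have h2 : (Fintype.card SL(2, F) : ℝ) + q = q ^ 3 := by
      rw [hq]
      exact_mod_cast h1
    linarith
  have h5 : ((Finset.univ.filter B).card : ℝ) * (2 * q ^ 2 * wt F (dg γ)) ≤
      (q - 1) * q * (2 * q ^ 2 * wt F (dg γ)) := by
    apply mul_le_mul_of_nonneg_right hline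
    positivity
  have h6 : (q - 1) * q * (2 * q ^ 2 * wt F (dg γ)) ≤
      (Fintype.card SL(2, F) : ℝ) * (2 * q * wt F (dg γ)) := by
    rw [hK]
    have h7 : 0 ≤ q ^ 2 * (q - 1) * (2 * wt F (dg γ)) := by
      have : 0 ≤ q - 1 := by linarith
      positivity
    nlinarith [h7]
  calc (Fintype.card SL(2, F) : ℝ) * (2 * q * wt F (dg γ)) +
        ((Finset.univ.filter B).card : ℝ) * (2 * q ^ 2 * wt F (dg γ))
      ≤ (Fintype.card SL(2, F) : ℝ) * (2 * q * wt F (dg γ)) +
        (Fintype.card SL(2, F) : ℝ) * (2 * q * wt F (dg γ)) := by linarith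
    _ = 4 * Fintype.card SL(2, F) * q * wt F (dg γ) := by ring

lemma dg_step (γ : SL(2, F[X])) (k : SL(2, F)) (b c : F) :
    dg γ ≤ dg (γ * (cst k)⁻¹ * (e12 (C b + C c * X))⁻¹) + 1 := by
  have hdg : dg (γ * (cst k)⁻¹) = dg γ := by
    rw [← map_inv]
    exact dg_mul_cst γ k⁻¹
  by_cases hB : ∀ i', ((γ * (cst k)⁻¹).1 i' 0).coeff (dg (γ * (cst k)⁻¹)) = 0
  · have := (caseB hB).2.1 b c
    omega
  · push Not at hB
    obtain ⟨i', hi'⟩ := hB
    have := (caseA hi' b c).1
    omega

end count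

end Walk

open Walk

theorem walk_bound (F : Type) [Field F] [Fintype F] [DecidableEq F] (l : ℕ) (γ : SL(2, F[X])) :
    0 ≤ pw F l γ ∧
    pw F l γ ≤ 4 ^ l * ((Fintype.card F : ℝ) ^ (l + dg γ))⁻¹ *
      ((Fintype.card SL(2, F) : ℝ))⁻¹ ∧ (l < dg γ → pw F l γ = 0) := by
  have hq1 : (1 : ℝ) < Fintype.card F := one_lt_q
  have hK : (0 : ℝ) < Fintype.card SL(2, F) := by
    exact_mod_cast Fintype.card_pos (α := SL(2, F))
  induction l generalizing γ with
  | zero =>
    have e : pw F 0 γ = if dg γ = 0 then ((Fintype.card SL(2, F) : ℝ))⁻¹ else 0 := rfl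
    rw [e]
    refine ⟨?_, ?_, ?_⟩
    · split_ifs
      · positivity
      · exact le_rfl
    · split_ifs with h
      · rw [h]
        simp
      · positivity
    · intro h
      rw [if_neg (by omega)]
  | succ l ih =>
    have e : pw F (l + 1) γ = ((Fintype.card SL(2, F) : ℝ) * (Fintype.card F : ℝ) ^ 2)⁻¹ *
        ∑ k : SL(2, F), ∑ bc : F × F,
          pw F l (γ * (cst k)⁻¹ * (e12 (C bc.1 + C bc.2 * X))⁻¹) := rfl
    rw [e]
    refine ⟨?_, ?_, ?_⟩
    · apply mul_nonneg (by positivity)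
      exact Finset.sum_nonneg (fun k _ => Finset.sum_nonneg (fun bc _ => (ih _).1))
    · have h1 : ∑ k : SL(2, F), ∑ bc : F × F,
          pw F l (γ * (cst k)⁻¹ * (e12 (C bc.1 + C bc.2 * X))⁻¹) ≤
          (4 ^ l * ((Fintype.card F : ℝ) ^ l)⁻¹ * ((Fintype.card SL(2, F) : ℝ))⁻¹) *
          ∑ k : SL(2, F), ∑ bc : F × F,
            wt F (dg (γ * (cst k)⁻¹ * (e12 (C bc.1 + C bc.2 * X))⁻¹)) := by
        rw [Finset.mul_sum]
        refine Finset.sum_le_sum (fun k _ => ?_)
        rw [Finset.mul_sum]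
        refine Finset.sum_le_sum (fun bc _ => ?_)
        refine (ih _).2.1.trans (le_of_eq ?_)
        unfold wt
        rw [pow_add, mul_inv]
        ring
      have h2 := step γ
      have h3 : 0 ≤ 4 ^ l * ((Fintype.card F : ℝ) ^ l)⁻¹ * ((Fintype.card SL(2, F) : ℝ))⁻¹ := by
        positivity
      have h4 : 0 ≤ ((Fintype.card SL(2, F) : ℝ) * (Fintype.card F : ℝ) ^ 2)⁻¹ := by positivity
      refine (mul_le_mul_of_nonneg_left
        (h1.trans (mul_le_mul_of_nonneg_left h2 h3)) h4).trans (le_of_eq ?_)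
      unfold wt
      have hq0 : (Fintype.card F : ℝ) ≠ 0 := by positivity
      have hK0 : (Fintype.card SL(2, F) : ℝ) ≠ 0 := hK.ne'
      rw [show l + 1 + dg γ = l + dg γ + 1 by ring, pow_succ (Fintype.card F : ℝ) (l + dg γ),
        pow_add]
      field_simp
      ring
    · intro h
      have h1 : ∀ k : SL(2, F), ∀ bc : F × F,
          pw F l (γ * (cst k)⁻¹ * (e12 (C bc.1 + C bc.2 * X))⁻¹) = 0 := by
        intro k bc
        apply (ih _).2.2
        have := dg_step γ k bc.1 bc.2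
        omega
      simp only [h1, Finset.sum_const_zero, mul_zero]

end Pool.Agent.MPfe8e9b
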