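import Mathlib
import Pool.Agent.Lib.MP_fe8e9b_al.Walk

/-!
# MP_fe8e9b_al: number of vectors of small degree with small image
-/

open scoped BigOperators MatrixGroups Pointwise

namespace Pool.Agent.MPfe8e9b

open Polynomial

namespace Ball

theorem natDegree_le_dg {F : Type} [Field F] (γ : SL(2, F[X])) (i j : Fin 2) :
    (γ.1 i j).natDegree ≤ dg γ :=
  Finset.le_sup (f := fun ij : Fin 2 × Fin 2 => (γ.1 ij.1 ij.2).natDegree)
    (Finset.mem_univ (i, j))

/-- The key division. `ρ`, `σ` are rows with `ρ s = Δ * η s + g * σ s` and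
`η 0 * σ 1 - η 1 * σ 0 = ε`, `ε ^ 2 = 1`. -/
theorem solve {F : Type} [Field F] (Δ g : F[X]) (hΔ : Δ ≠ 0) (ρ σ η : Fin 2 → F[X]) (ε : F[X])
    (hε : ε * ε = 1) (hεd : ε.natDegree = 0) (hρ : ∀ s, ρ s = Δ * η s + g * σ s)
    (hdet : η 0 * σ 1 - η 1 * σ 0 = ε) (R m' : ℕ) (hρd : ∀ s, (ρ s).natDegree ≤ m')
    (hσd : ∀ s, (σ s).natDegree ≤ R) (u : F[X]) :
    ∃ y z : F[X], y.natDegree ≤ m' ∧ z.natDegree ≤ R ∧ Δ ∣ y - g * z - u := by
  classical
  set a₀ := (σ 1 * u) / Δ with ha₀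
  set r₀ := (σ 1 * u) % Δ with hr₀
  set a₁ := (-(σ 0 * u)) / Δ with ha₁
  set r₁ := (-(σ 0 * u)) % Δ with hr₁
  have h0 : Δ * a₀ + r₀ = σ 1 * u := EuclideanDomain.div_add_mod _ _
  have h1 : Δ * a₁ + r₁ = -(σ 0 * u) := EuclideanDomain.div_add_mod _ _
  have hr₀d : r₀.natDegree ≤ Δ.natDegree := natDegree_le_natDegree (degree_mod_lt _ hΔ).le
  have hr₁d : r₁.natDegree ≤ Δ.natDegree := natDegree_le_natDegree (degree_mod_lt _ hΔ).le
  have bound : ∀ (τ : Fin 2 → F[X]) (N : ℕ) (_ : ∀ s, (τ s).natDegree ≤ N) (y : F[X])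
      (_ : Δ * y = ε * (τ 0 * r₀ + τ 1 * r₁)), y.natDegree ≤ N := by
    intro τ N hτ y hy
    by_cases hy0 : y = 0
    · rw [hy0, natDegree_zero]
      exact Nat.zero_le _
    · have h2 : (Δ * y).natDegree = Δ.natDegree + y.natDegree := natDegree_mul hΔ hy0
      have h3 : (ε * (τ 0 * r₀ + τ 1 * r₁)).natDegree ≤ N + Δ.natDegree := by
        refine natDegree_mul_le.trans ?_
        rw [hεd, zero_add]
        refine (natDegree_add_le _ _).trans (max_le ?_ ?_)
        · exact natDegree_mul_le.trans (Nat.add_le_add (hτ 0) hr₀d)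
        · exact natDegree_mul_le.trans (Nat.add_le_add (hτ 1) hr₁d)
      rw [← hy, h2] at h3
      omega
  refine ⟨u - ε * (ρ 0 * a₀ + ρ 1 * a₁), -(ε * (σ 0 * a₀ + σ 1 * a₁)), ?_, ?_, ?_⟩
  · refine bound ρ m' hρd _ ?_
    have hD : ρ 0 * σ 1 - ρ 1 * σ 0 = Δ * ε := by
      rw [hρ 0, hρ 1]
      linear_combination Δ * hdet
    linear_combination (-ε * ρ 0) * h0 + (-ε * ρ 1) * h1 - ε * u * hD - Δ * u * hε
  · refine bound σ R hσd _ ?_
    linear_combination (-ε * σ 0) * h0 + (-ε * σ 1) * h1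
  · refine ⟨-(ε * (η 0 * a₀ + η 1 * a₁)), ?_⟩
    rw [hρ 0, hρ 1]
    ring

end Ball

open Ball

/-- BALL. -/
theorem ball_dim (F : Type) [Field F] [Fintype F] [DecidableEq F] (γ η₀ : SL(2, F[X]))
    (R m' : ℕ) (h1 : dg η₀ ≤ R) (h2 : dg (γ * η₀) ≤ m') (T : Finset (Fin 2 → F[X]))
    (hT : ∀ v ∈ T, (∀ i, (v i).natDegree ≤ R) ∧
      (∀ i, ((γ.1.mulVec v) i).natDegree ≤ m')) :
    T.card * Fintype.card F ^ dg γ ≤ Fintype.card F ^ (R + m' + 2) := by
  classical
  obtain ⟨i, k, hik⟩ := Walk.exists_coeff γ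
  -- the other index
  obtain ⟨k', hk', hsplit⟩ : ∃ k' : Fin 2, k' ≠ k ∧ ∀ f : Fin 2 → F[X], ∑ j, f j = f k + f k' := by
    fin_cases k
    · exact ⟨1, by decide, fun f => by simp [Fin.sum_univ_two]⟩
    · exact ⟨0, by decide, fun f => by simp [Fin.sum_univ_two, add_comm]⟩
  set Δ := γ.1 i k with hΔ
  have hΔ0 : Δ ≠ 0 := by
    intro h
    rw [h, coeff_zero] at hik
    exact hik rfl
  have hΔd : Δ.natDegree = dg γ :=
    le_antisymm (natDegree_le_dg γ i k) (le_natDegree_of_ne_zero hik)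
  set g := γ.1 i k' with hg
  set m := dg γ with hm
  have hmul : ∀ s, (γ * η₀).1 i s = Δ * η₀.1 k s + g * η₀.1 k' s := by
    intro s
    rw [Matrix.SpecialLinearGroup.coe_mul, Matrix.mul_apply, hsplit]
  have hdet := η₀.2
  rw [Matrix.det_fin_two] at hdet
  have hexε : ∃ ε : F[X], ε * ε = 1 ∧ ε.natDegree = 0 ∧
      η₀.1 k 0 * η₀.1 k' 1 - η₀.1 k 1 * η₀.1 k' 0 = ε := by
    fin_cases k
    · have : k' = 1 := by
        fin_cases k'
        · exact absurd rfl hk'
        · rfl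
      subst this
      exact ⟨1, by ring, natDegree_one, by simpa using hdet⟩
    · have : k' = 0 := by
        fin_cases k'
        · rfl
        · exact absurd rfl hk'
      subst this
      refine ⟨-1, by ring, by rw [natDegree_neg, natDegree_one], ?_⟩
      simp only [Fin.mk_one, Fin.isValue]
      linear_combination -hdet
  obtain ⟨ε, hε, hεd, hεdet⟩ := hexε
  have hsolve := fun u : F[X] => solve Δ g hΔ0 (fun s => (γ * η₀).1 i s) (fun s => η₀.1 k' s)
    (fun s => η₀.1 k s) ε hε hεd hmul hεdet R m'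
    (fun s => (natDegree_le_dg _ i s).trans h2) (fun s => (natDegree_le_dg _ k' s).trans h1) u
  choose Y Z hY hZ hYZ using hsolve
  -- polynomials of degree less than `m`
  let U : (Fin m → F) → F[X] := fun a => ((degreeLTEquiv F m).symm a : F[X])
  have hUdeg : ∀ a, (U a).degree < m := fun a =>
    mem_degreeLT.mp ((degreeLTEquiv F m).symm a).2
  have hUinj : Function.Injective U := fun a b hab =>
    (degreeLTEquiv F m).symm.injective (Subtype.ext hab)
  -- coefficients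
  have hcoef : ∀ (N : ℕ) (p p' : F[X]), p.natDegree ≤ N → p'.natDegree ≤ N →
      (∀ j : Fin (N + 1), p.coeff j = p'.coeff j) → p = p' := by
    intro N p p' hp hp' h
    ext j
    by_cases hj : j < N + 1
    · exact h ⟨j, hj⟩
    · rw [coeff_eq_zero_of_natDegree_lt (by omega), coeff_eq_zero_of_natDegree_lt (by omega)]
  let Φ : T × (Fin m → F) → (Fin (m' + 1) → F) × (Fin (R + 1) → F) := fun x =>
    (fun j => ((γ.1.mulVec x.1.1) i + Y (U x.2)).coeff j, fun j => (x.1.1 k' + Z (U x.2)).coeff j)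
  have hΦ : Function.Injective Φ := by
    rintro ⟨v, a⟩ ⟨v', a'⟩ h
    have e1 : (γ.1.mulVec v.1) i + Y (U a) = (γ.1.mulVec v'.1) i + Y (U a') := by
      refine hcoef m' _ _ ?_ ?_ fun j => congrFun (congrArg Prod.fst h) j
      · exact (natDegree_add_le _ _).trans (max_le ((hT v.1 v.2).2 i) (hY _))
      · exact (natDegree_add_le _ _).trans (max_le ((hT v'.1 v'.2).2 i) (hY _))
    have e2 : v.1 k' + Z (U a) = v'.1 k' + Z (U a') := by
      refine hcoef R _ _ ?_ ?_ fun j => congrFun (congrArg Prod.snd h) j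
      · exact (natDegree_add_le _ _).trans (max_le ((hT v.1 v.2).1 k') (hZ _))
      · exact (natDegree_add_le _ _).trans (max_le ((hT v'.1 v'.2).1 k') (hZ _))
    have hv : (γ.1.mulVec v.1) i = Δ * v.1 k + g * v.1 k' := by
      rw [Matrix.mulVec, dotProduct, hsplit]
    have hv' : (γ.1.mulVec v'.1) i = Δ * v'.1 k + g * v'.1 k' := by
      rw [Matrix.mulVec, dotProduct, hsplit]
    rw [hv, hv'] at e1
    obtain ⟨w, hw⟩ := hYZ (U a)
    obtain ⟨w', hw'⟩ := hYZ (U a')
    have hUU : U a - U a' = 0 := by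
      refine eq_zero_of_dvd_of_degree_lt (p := Δ) ?_ ?_
      · refine ⟨(v'.1 k - v.1 k) - w + w', ?_⟩
        linear_combination (-1 : F[X]) * hw + hw' + e1 - g * e2
      · rw [degree_eq_natDegree hΔ0, hΔd]
        exact (degree_sub_le _ _).trans_lt (max_lt (hUdeg a) (hUdeg a'))
    have haa : a = a' := hUinj (sub_eq_zero.mp hUU)
    subst haa
    have e3 : v.1 k' = v'.1 k' := add_right_cancel e2
    have e4 : Δ * v.1 k = Δ * v'.1 k := by
      linear_combination e1 - g * e3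
    have e5 : v.1 k = v'.1 k := mul_left_cancel₀ hΔ0 e4
    have e6 : v = v' := by
      apply Subtype.ext
      funext j
      have : j = k ∨ j = k' := by
        have h4 : ∀ a b c : Fin 2, b ≠ a → c = a ∨ c = b := by decide
        exact h4 k k' j hk'
      rcases this with rfl | rfl
      · exact e5
      · exact e3
    rw [e6]
  have hcard := Fintype.card_le_of_injective Φ hΦ
  rw [Fintype.card_prod, Fintype.card_prod, Fintype.card_coe, Fintype.card_fun, Fintype.card_fun,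
    Fintype.card_fun, Fintype.card_fin, Fintype.card_fin, Fintype.card_fin, ← pow_add] at hcard
  refine hcard.trans (le_of_eq ?_)
  congr 1
  omega

end Pool.Agent.MPfe8e9b
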