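import Pool.Agent.Lib.MP_fe8e9b_al.Two
import Pool.Agent.Lib.MP_fe8e9b_al.AnglePi

/-!
# MP_fe8e9b_al: the base family `F_p → SL(2, F_p)` (module BASE)
-/

open scoped BigOperators MatrixGroups

namespace Pool.Agent.MPfe8e9b

namespace Base

section Norm

variable {X : Type*} [Fintype X]

/-- The norm. -/
noncomputable def nrm (f : X → ℂ) : ℝ := Real.sqrt (sq f)

theorem nrm_nonneg (f : X → ℂ) : 0 ≤ nrm f := Real.sqrt_nonneg _

theorem nrm_sq (f : X → ℂ) : nrm f ^ 2 = sq f := Real.sq_sqrt (sq_nonneg' f)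

theorem nrm_zero : nrm (0 : X → ℂ) = 0 := by
  rw [nrm, sq_zero, Real.sqrt_zero]

theorem nrm_neg (f : X → ℂ) : nrm (-f) = nrm f := by
  rw [nrm, sq_neg, nrm]

theorem nrm_sub_comm (f f' : X → ℂ) : nrm (f - f') = nrm (f' - f) := by
  rw [← nrm_neg, neg_sub]

theorem nrm_add_le (f f' : X → ℂ) : nrm (f + f') ≤ nrm f + nrm f' := by
  refine le_of_sq_le_sq ?_ (add_nonneg (nrm_nonneg _) (nrm_nonneg _))
  rw [nrm_sq, sq_add, add_sq, nrm_sq, nrm_sq]
  have := ip_re_le f f'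
  unfold nrm
  linarith

theorem nrm_sub_le (f g h : X → ℂ) : nrm (f - h) ≤ nrm (f - g) + nrm (g - h) := by
  have := nrm_add_le (f - g) (g - h)
  rwa [sub_add_sub_cancel] at this

theorem nrm_smul (c : ℂ) (f : X → ℂ) : nrm (c • f) = ‖c‖ * nrm f := by
  rw [nrm, sq_smul, Real.sqrt_mul (by positivity), Real.sqrt_sq (norm_nonneg _), nrm]

theorem nrm_sum_le {κ : Type*} (S : Finset κ) (a : κ → X → ℂ) :
    nrm (∑ k ∈ S, a k) ≤ ∑ k ∈ S, nrm (a k) := by
  classical
  induction S using Finset.induction_on with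
  | empty => simp [nrm_zero]
  | insert k S hk ih =>
    rw [Finset.sum_insert hk, Finset.sum_insert hk]
    exact (nrm_add_le _ _).trans (by linarith)

end Norm

section Grp

variable {G : Type*} [Group G] [Fintype G]

theorem nrm_rt (s : G) (f : G → ℂ) : nrm (rt s f) = nrm f := by
  rw [nrm, sq_rt, nrm]

theorem nrm_rt_inv (s : G) (f : G → ℂ) : nrm (rt s⁻¹ f - f) = nrm (rt s f - f) := by
  have : rt s⁻¹ f - f = rt s⁻¹ (f - rt s f) := by
    rw [rt_sub, rt_mul, inv_mul_cancel, rt_one]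
  rw [this, nrm_rt, nrm_sub_comm]

theorem nrm_rt_mul (s t : G) (f : G → ℂ) :
    nrm (rt (s * t) f - f) ≤ nrm (rt s f - f) + nrm (rt t f - f) := by
  have : rt (s * t) f - f = rt s (rt t f - f) + (rt s f - f) := by
    rw [rt_sub, rt_mul, sub_add_sub_cancel]
  rw [this]
  refine (nrm_add_le _ _).trans ?_
  rw [nrm_rt, add_comm]

theorem nrm_rt_conj (k s : G) (f : G → ℂ) (hk : rt k f = f) :
    nrm (rt (k * s * k⁻¹) f - f) = nrm (rt s f - f) := by
  have h1 : rt k⁻¹ f = f := by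
    conv_lhs => rw [← hk]
    rw [rt_mul, inv_mul_cancel, rt_one]
  have : rt (k * s * k⁻¹) f - f = rt k (rt s f - f) := by
    rw [← rt_mul, h1, ← rt_mul, rt_sub, hk]
  rw [this, nrm_rt]

theorem nrm_sub_avh {H : Type*} [Group H] [Fintype H] (φ : H →* G) (f : G → ℂ) {b : ℝ}
    (hb : ∀ h, nrm (rt (φ h) f - f) ≤ b) : nrm (f - avh φ f) ≤ b := by
  have h1 : f - avh φ f = (-((Fintype.card H : ℂ))⁻¹) • ∑ h, (rt (φ h) f - f) := by
    rw [avh_eq_sum, Finset.sum_sub_distrib, smul_sub, neg_smul, neg_smul, Finset.sum_const,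
      Finset.card_univ, ← Nat.cast_smul_eq_nsmul ℂ, smul_smul, inv_mul_cancel₀ card_ne_zero',
      one_smul]
    abel
  rw [h1, nrm_smul, norm_neg, norm_inv, Complex.norm_natCast]
  have h2 : nrm (∑ h, (rt (φ h) f - f)) ≤ Fintype.card H * b := by
    refine (nrm_sum_le _ _).trans ?_
    refine (Finset.sum_le_sum fun h _ => hb h).trans ?_
    simp
  have hpos : (0 : ℝ) < Fintype.card H := by exact_mod_cast Fintype.card_pos
  calc (Fintype.card H : ℝ)⁻¹ * nrm (∑ h, (rt (φ h) f - f))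
      ≤ (Fintype.card H : ℝ)⁻¹ * (Fintype.card H * b) := by gcongr
    _ = b := by field_simp

end Grp

section Mat

variable {F : Type*} [Field F]

/-- The diagonal matrix `diag(t, 1/t)`. -/
def dmat (t : F) (ht : t ≠ 0) : SL(2, F) :=
  ⟨!![t, 0; 0, t⁻¹], by simp [Matrix.det_fin_two_of, ht]⟩

theorem dmat_conj (t : F) (ht : t ≠ 0) (a : F) :
    dmat t ht * e12 a * (dmat t ht)⁻¹ = e12 (t ^ 2 * a) := by
  rw [mul_inv_eq_iff_eq_mul]
  apply Subtype.ext
  show !![t, 0; 0, t⁻¹] * !![1, a; 0, 1] = !![1, t ^ 2 * a; 0, 1] * !![t, 0; 0, t⁻¹]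
  rw [Matrix.mul_fin_two, Matrix.mul_fin_two]
  have : t * a = t ^ 2 * a * t⁻¹ := by field_simp
  simp [this]

theorem e12_neg (a : F) : e12 (-a) = (e12 a)⁻¹ := by
  rw [eq_inv_iff_mul_eq_one, ← e12_add, neg_add_cancel, e12_zero]

theorem sq_diff (h2 : (2 : F) ≠ 0) (h3 : (3 : F) ≠ 0) (h5 : (5 : F) ≠ 0) (c : F) :
    ∃ t₁ t₂ : F, t₁ ≠ 0 ∧ t₂ ≠ 0 ∧ t₁ ^ 2 - t₂ ^ 2 = c := by
  by_cases hc : c = 0
  · exact ⟨1, 1, one_ne_zero, one_ne_zero, by rw [hc]; ring⟩
  · have hu : ∃ u : F, u ≠ 0 ∧ u ^ 2 ≠ c ∧ u ^ 2 ≠ -c := by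
      by_cases h1 : (1 : F) ^ 2 ≠ c ∧ (1 : F) ^ 2 ≠ -c
      · exact ⟨1, one_ne_zero, h1.1, h1.2⟩
      · refine ⟨2, h2, ?_, ?_⟩
        · intro h4
          apply h1
          constructor
          · intro h
            apply h3
            linear_combination h4 - h
          · intro h
            apply h5
            linear_combination h4 + h
        · intro h4
          apply h1
          constructor
          · intro h
            apply h5
            linear_combination h4 + h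
          · intro h
            apply h3
            linear_combination h4 - h
    obtain ⟨u, hu0, huc, huc'⟩ := hu
    refine ⟨(u + c / u) / 2, (c / u - u) / 2, ?_, ?_, ?_⟩
    · intro h
      apply huc'
      have h' : u + c / u = 0 := by
        rcases div_eq_zero_iff.mp h with h | h
        · exact h
        · exact absurd h h2
      field_simp at h'
      linear_combination h'
    · intro h
      apply huc
      have h' : c / u - u = 0 := by
        rcases div_eq_zero_iff.mp h with h | h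
        · exact h
        · exact absurd h h2
      field_simp at h'
      linear_combination -h'
    · field_simp
      ring

end Mat

end Base

open Base in
/-- BASE. -/
theorem expd_base
    (hff : ∃ q₀ : ℕ, ∀ (F : Type) [Field F] [Fintype F] [DecidableEq F],
      q₀ ≤ Fintype.card F → Angle (vHom F) (constHom F SL(2, F)) (1 / 4))
    (hnf : ∃ (k : ℕ) (κ : ℝ) (p₀ : ℕ), 0 < κ ∧ ∀ (ι : Type) [Fintype ι] [DecidableEq ι]
      (p : ι → ℕ) [∀ i, Fact (p i).Prime], Function.Injective p → (∀ i, p₀ ≤ p i) →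
      Expd (∀ i, SL(2, ZMod (p i))) k κ) :
    ∃ (k : ℕ) (κ : ℝ) (p₀ : ℕ), 0 < κ ∧ ∀ (ι : Type) [Fintype ι] [DecidableEq ι]
      (p : ι → ℕ) [∀ i, Fact (p i).Prime], Function.Injective p → (∀ i, p₀ ≤ p i) →
      Expd (∀ i, (ZMod (p i) → SL(2, ZMod (p i)))) k κ := by
  obtain ⟨q₀, hq₀⟩ := hff
  obtain ⟨k, κ, p₀, hκ, hexp⟩ := hnf
  refine ⟨k + 1, (146 / κ + 16)⁻¹, max (max p₀ q₀) 7, by positivity, ?_⟩
  intro ι _ _ p _ hp hpi
  have hp0 : ∀ i, p₀ ≤ p i := fun i =>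
    le_trans (le_trans (le_max_left _ _) (le_max_left _ _)) (hpi i)
  have hq0 : ∀ i, q₀ ≤ p i := fun i =>
    le_trans (le_trans (le_max_right _ _) (le_max_left _ _)) (hpi i)
  have hp7 : ∀ i, 7 ≤ p i := fun i => le_trans (le_max_right _ _) (hpi i)
  obtain ⟨s, hs⟩ := hexp ι p hp hp0
  set φV := piHom (fun i => vHom (ZMod (p i))) with hφV
  set φK := piHom (fun i => constHom (ZMod (p i)) SL(2, ZMod (p i))) with hφK
  have hang : Angle φV φK (1 / 4) := by
    refine angle_pi _ _ (by norm_num) fun i => ?_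
    exact hq₀ (ZMod (p i)) (by rw [ZMod.card]; exact hq0 i)
  let ξ : ∀ i, (ZMod (p i) → SL(2, ZMod (p i))) := fun i a => e12 a
  refine ⟨Fin.append (fun j => φK (s j)) (fun _ : Fin 1 => ξ), ?_⟩
  intro f hf
  rw [Fin.sum_univ_add]
  simp only [Fin.append_left, Fin.append_right, Finset.univ_unique, Finset.sum_singleton]
  have htwo := two_sub φV φK (by norm_num) hang f hf
  have hsqrt : Real.sqrt (1 / 4) = 1 / 2 := by
    rw [show (1 / 4 : ℝ) = (1 / 2) ^ 2 by norm_num]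
    exact Real.sqrt_sq (by norm_num)
  rw [hsqrt] at htwo
  have hK := gap_sub φK s hs f
  set EK := ∑ i, sq (rt (φK (s i)) f - f) with hEK
  set f' := avh φK f with hf'
  have hKinv : ∀ x, rt (φK x) f' = f' := fun x => rt_avh_self φK x f
  set de := nrm (f - f') with hde
  set e := nrm (rt ξ f - f) with he
  have hξ : nrm (rt ξ f' - f') ≤ e + 2 * de := by
    have h1 := nrm_sub_le (rt ξ f') (rt ξ f) f'
    have h2 := nrm_sub_le (rt ξ f) f f'
    have h3 : nrm (rt ξ f' - rt ξ f) = de := by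
      rw [← rt_sub, nrm_rt, nrm_sub_comm]
    linarith
  have hV : ∀ u, nrm (rt (φV u) f' - f') ≤ 2 * (e + 2 * de) := by
    intro u
    have hchoice : ∀ i, ∃ t : ZMod (p i) × ZMod (p i), t.1 ≠ 0 ∧ t.2 ≠ 0 ∧
        t.1 ^ 2 - t.2 ^ 2 = (Multiplicative.toAdd (u i)).2 := by
      intro i
      have hne : ∀ m : ℕ, 0 < m → m < 7 → ((m : ℕ) : ZMod (p i)) ≠ 0 := by
        intro m hm hm7 h
        rw [ZMod.natCast_eq_zero_iff] at h
        have := Nat.le_of_dvd hm h
        have := hp7 i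
        omega
      obtain ⟨t₁, t₂, h₁, h₂, h₃⟩ := sq_diff (F := ZMod (p i))
        (by exact_mod_cast hne 2 (by norm_num) (by norm_num))
        (by exact_mod_cast hne 3 (by norm_num) (by norm_num))
        (by exact_mod_cast hne 5 (by norm_num) (by norm_num))
        (Multiplicative.toAdd (u i)).2
      exact ⟨(t₁, t₂), h₁, h₂, h₃⟩
    choose t ht1 ht2 ht3 using hchoice
    let D₁ : ∀ i, SL(2, ZMod (p i)) := fun i => dmat (t i).1 (ht1 i)
    let D₂ : ∀ i, SL(2, ZMod (p i)) := fun i => dmat (t i).2 (ht2 i)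
    let B : ∀ i, SL(2, ZMod (p i)) := fun i => e12 (Multiplicative.toAdd (u i)).1
    have hfac : φV u = φK B * ((φK D₁ * ξ * (φK D₁)⁻¹) * (φK D₂ * ξ * (φK D₂)⁻¹)⁻¹) := by
      funext i a
      show e12 ((Multiplicative.toAdd (u i)).1 + (Multiplicative.toAdd (u i)).2 * a) =
        e12 (Multiplicative.toAdd (u i)).1 *
          ((dmat (t i).1 (ht1 i) * e12 a * (dmat (t i).1 (ht1 i))⁻¹) *
           (dmat (t i).2 (ht2 i) * e12 a * (dmat (t i).2 (ht2 i))⁻¹)⁻¹)
      rw [dmat_conj, dmat_conj, ← e12_neg, ← e12_add, ← e12_add, ← ht3 i]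
      congr 1
      ring
    rw [hfac]
    have h0 : nrm (rt (φK B) f' - f') = 0 := by
      rw [hKinv, sub_self, nrm_zero]
    have h1 := nrm_rt_mul (φK B) ((φK D₁ * ξ * (φK D₁)⁻¹) * (φK D₂ * ξ * (φK D₂)⁻¹)⁻¹) f'
    have h2 := nrm_rt_mul (φK D₁ * ξ * (φK D₁)⁻¹) (φK D₂ * ξ * (φK D₂)⁻¹)⁻¹ f'
    have h3 := nrm_rt_conj (φK D₁) ξ f' (hKinv _)
    have h4 := nrm_rt_conj (φK D₂) ξ f' (hKinv _)
    have h5 := nrm_rt_inv (φK D₂ * ξ * (φK D₂)⁻¹) f'
    linarith
  have hPV : nrm (f' - avh φV f') ≤ 2 * (e + 2 * de) := nrm_sub_avh φV f' hV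
  have hPV' : nrm (f - avh φV f) ≤ 6 * de + 2 * e := by
    have h1 := nrm_sub_le f f' (avh φV f)
    have h2 := nrm_sub_le f' (avh φV f') (avh φV f)
    have h3 : nrm (avh φV f' - avh φV f) ≤ de := by
      rw [← avh_sub]
      refine (Real.sqrt_le_sqrt (sq_avh_le φV (f' - f))).trans ?_
      rw [hde, nrm_sub_comm]
      exact le_rfl
    linarith
  have hde0 : 0 ≤ de := nrm_nonneg _
  have he0 : 0 ≤ e := nrm_nonneg _
  have hsq1 : sq (f - avh φV f) ≤ 72 * de ^ 2 + 8 * e ^ 2 := by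
    rw [← nrm_sq]
    have h1 : nrm (f - avh φV f) ^ 2 ≤ (6 * de + 2 * e) ^ 2 :=
      pow_le_pow_left₀ (nrm_nonneg _) hPV' 2
    nlinarith [sq_nonneg (6 * de - 2 * e)]
  have hde2 : de ^ 2 = sq (f - f') := nrm_sq _
  have he2 : e ^ 2 = sq (rt ξ f - f) := nrm_sq _
  rw [hde2, he2] at hsq1
  set A := sq (f - f') with hA
  set Eξ := sq (rt ξ f - f) with hEξ
  have hEξ0 : 0 ≤ Eξ := sq_nonneg' _
  have hEK0 : 0 ≤ EK := Finset.sum_nonneg fun i _ => sq_nonneg' _
  have hA1 : A ≤ EK / κ := by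
    rw [le_div_iff₀ hκ]
    linarith
  have hfin : sq f ≤ (146 / κ + 16) * (EK + Eξ) := by
    have h1 : sq f ≤ 146 * A + 16 * Eξ := by linarith
    have h2 : 146 * A ≤ 146 / κ * EK := by
      calc 146 * A ≤ 146 * (EK / κ) := by gcongr
        _ = 146 / κ * EK := by ring
    have h3 : 0 ≤ 146 / κ * Eξ := by positivity
    nlinarith
  rw [inv_mul_le_iff₀ (by positivity)]
  exact hfin

end Pool.Agent.MPfe8e9b
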