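import Mathlib
import Pool.Agent.Lib.MP_fe8e9b_al.Avg

/-!
# MP_fe8e9b_al: two subgroups with an angle; quotients, products, small groups
-/

open scoped BigOperators MatrixGroups Pointwise

namespace Pool.Agent.MPfe8e9b

/-- TWO. Two projections with an angle. -/
theorem two_sub {H₁ H₂ G : Type*} [Group H₁] [Fintype H₁] [Group H₂] [Fintype H₂] [Group G]
    [Fintype G] (φ₁ : H₁ →* G) (φ₂ : H₂ →* G) {c : ℝ} (hc : 0 ≤ c) (h : Angle φ₁ φ₂ c)
    (f : G → ℂ) (hf : ∑ g, f g = 0) :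
    (1 - Real.sqrt c) * sq f ≤ sq (f - avh φ₁ f) + sq (f - avh φ₂ f) := by
  rw [sq_sub_avh, sq_sub_avh]
  set a := avh φ₁ f with ha
  set b := avh φ₂ f with hb
  set s := sq a + sq b with hs
  have hs0 : 0 ≤ s := add_nonneg (sq_nonneg' _) (sq_nonneg' _)
  have hc0 : 0 ≤ Real.sqrt c := Real.sqrt_nonneg c
  -- the angle
  have h1 : sq (avh φ₁ b) ≤ c * sq b := by
    refine h b ?_ (avh_inv φ₂ f)
    rw [hb, sum_avh, hf]
  have h2 : (ip a b).re ≤ Real.sqrt c / 2 * s := by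
    have e1 : ip a b = ip a (avh φ₁ b) := by
      rw [← ip_avh φ₁ a b, ha, avh_idem]
    rw [e1]
    refine (ip_re_le _ _).trans ?_
    have h3 : Real.sqrt (sq (avh φ₁ b)) ≤ Real.sqrt c * Real.sqrt (sq b) := by
      rw [← Real.sqrt_mul hc]
      exact Real.sqrt_le_sqrt h1
    calc Real.sqrt (sq a) * Real.sqrt (sq (avh φ₁ b))
        ≤ Real.sqrt (sq a) * (Real.sqrt c * Real.sqrt (sq b)) :=
          mul_le_mul_of_nonneg_left h3 (Real.sqrt_nonneg _)
      _ = Real.sqrt c * (Real.sqrt (sq a) * Real.sqrt (sq b)) := by ring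
      _ ≤ Real.sqrt c * (s / 2) := by
          refine mul_le_mul_of_nonneg_left ?_ hc0
          have e2 := Real.sq_sqrt (sq_nonneg' a)
          have e3 := Real.sq_sqrt (sq_nonneg' b)
          have e4 := sq_nonneg (Real.sqrt (sq a) - Real.sqrt (sq b))
          nlinarith
      _ = Real.sqrt c / 2 * s := by ring
  have h4 : sq (a + b) ≤ (1 + Real.sqrt c) * s := by
    rw [sq_add]
    nlinarith
  have h5 : s = (ip (a + b) f).re := by
    rw [ip_add_left, Complex.add_re, ip_re_comm a f, ip_re_comm b f, ha, hb, ip_self_avh_re,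
      ip_self_avh_re]
  have h6 : s ^ 2 ≤ (1 + Real.sqrt c) * s * sq f := by
    have h7 : s ≤ Real.sqrt (sq (a + b)) * Real.sqrt (sq f) := by
      conv_lhs => rw [h5]
      exact ip_re_le _ _
    calc s ^ 2 ≤ (Real.sqrt (sq (a + b)) * Real.sqrt (sq f)) ^ 2 := by
          gcongr
      _ = sq (a + b) * sq f := by
          rw [mul_pow, Real.sq_sqrt (sq_nonneg' _), Real.sq_sqrt (sq_nonneg' _)]
      _ ≤ _ := mul_le_mul_of_nonneg_right h4 (sq_nonneg' _)
  have h8 : s ≤ (1 + Real.sqrt c) * sq f := by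
    rcases hs0.eq_or_lt with h0 | h0
    · rw [← h0]
      exact mul_nonneg (by linarith) (sq_nonneg' _)
    · have : s * s ≤ s * ((1 + Real.sqrt c) * sq f) := by nlinarith
      exact le_of_mul_le_mul_left this h0
  linarith

/-- EXP-TWO. -/
theorem expd_two {H₁ H₂ G : Type*} [Group H₁] [Fintype H₁] [Group H₂] [Fintype H₂] [Group G]
    [Fintype G] (φ₁ : H₁ →* G) (φ₂ : H₂ →* G) {c : ℝ} (hc : 0 ≤ c) (h : Angle φ₁ φ₂ c)
    {k₁ k₂ : ℕ} {κ : ℝ} (hκ : 0 ≤ κ) (h₁ : Expd H₁ k₁ κ) (h₂ : Expd H₂ k₂ κ) :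
    Expd G (k₁ + k₂) (κ * (1 - Real.sqrt c)) := by
  obtain ⟨s₁, hs₁⟩ := h₁
  obtain ⟨s₂, hs₂⟩ := h₂
  refine ⟨Fin.append (fun i => φ₁ (s₁ i)) (fun i => φ₂ (s₂ i)), ?_⟩
  intro f hf
  rw [Fin.sum_univ_add]
  simp only [Fin.append_left, Fin.append_right]
  have e1 := gap_sub φ₁ s₁ hs₁ f
  have e2 := gap_sub φ₂ s₂ hs₂ f
  have e3 := mul_le_mul_of_nonneg_left (two_sub φ₁ φ₂ hc h f hf) hκ
  linarith

theorem expd_mono {G : Type*} [Group G] [Fintype G] {k k' : ℕ} {κ κ' : ℝ} (hk : k ≤ k')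
    (hκ : κ' ≤ κ) (h : Expd G k κ) : Expd G k' κ' := by
  obtain ⟨s, hs⟩ := h
  obtain ⟨m, rfl⟩ := Nat.exists_eq_add_of_le hk
  refine ⟨Fin.append s (fun _ => 1), ?_⟩
  intro f hf
  rw [Fin.sum_univ_add]
  simp only [Fin.append_left, Fin.append_right, rt_one, sub_self, sq_zero, Finset.sum_const_zero,
    add_zero]
  exact (mul_le_mul_of_nonneg_right hκ (sq_nonneg' f)).trans (hs f hf)

/-- Sums over the source of a surjective homomorphism. -/
theorem sum_comp_surj {G G' : Type*} [Group G] [Fintype G] [Group G'] [Fintype G'] (φ : G →* G')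
    (hφ : Function.Surjective φ) : ∃ n : ℕ, 0 < n ∧ ∀ {M : Type} [AddCommMonoid M] (F : G' → M),
      ∑ g, F (φ g) = n • ∑ g', F g' := by
  classical
  refine ⟨(Finset.univ.filter (fun g => φ g = 1)).card, ?_, ?_⟩
  · rw [Finset.card_pos]
    exact ⟨1, by simp⟩
  · intro M _ F
    rw [← Finset.sum_fiberwise Finset.univ φ (fun g => F (φ g)), Finset.smul_sum]
    refine Finset.sum_congr rfl fun g' _ => ?_
    have h1 : ∀ g ∈ Finset.univ.filter (fun g => φ g = g'), F (φ g) = F g' := by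
      intro g hg
      rw [(Finset.mem_filter.mp hg).2]
    rw [Finset.sum_congr rfl h1, Finset.sum_const]
    congr 1
    exact MonoidHom.card_fiber_eq_of_mem_range φ (hφ g') (hφ 1)

theorem expd_surj {G G' : Type*} [Group G] [Fintype G] [Group G'] [Fintype G'] (φ : G →* G')
    (hφ : Function.Surjective φ) {k : ℕ} {κ : ℝ} (h : Expd G k κ) : Expd G' k κ := by
  obtain ⟨s, hs⟩ := h
  obtain ⟨n, hn, hsum⟩ := sum_comp_surj φ hφ
  refine ⟨fun i => φ (s i), ?_⟩
  intro f hf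
  have h1 := hs (fun g => f (φ g)) (by rw [hsum f, hf, smul_zero])
  have h2 : sq (fun g => f (φ g)) = n * sq f := by
    unfold sq
    rw [hsum (fun g' => ‖f g'‖ ^ 2), nsmul_eq_mul]
  have h3 : ∀ i, sq (rt (s i) (fun g => f (φ g)) - fun g => f (φ g)) =
      n * sq (rt (φ (s i)) f - f) := by
    intro i
    unfold sq
    rw [← nsmul_eq_mul, ← hsum (fun g' => ‖(rt (φ (s i)) f - f) g'‖ ^ 2)]
    refine Finset.sum_congr rfl fun g _ => ?_
    simp [rt_apply]
  rw [h2] at h1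
  simp only [h3] at h1
  rw [← Finset.mul_sum] at h1
  have hn' : (0 : ℝ) < n := by exact_mod_cast hn
  have h4 : (n : ℝ) * (κ * sq f) ≤ n * ∑ i, sq (rt (φ (s i)) f - f) := by linarith
  exact le_of_mul_le_mul_left h4 hn'

theorem angle_prod {G₁ G₂ : Type*} [Group G₁] [Fintype G₁] [Group G₂] [Fintype G₂] :
    Angle (MonoidHom.inl G₁ G₂) (MonoidHom.inr G₁ G₂) 0 := by
  intro f hf hinv
  have h1 : ∀ g₁ g₂, f (g₁, g₂) = f (g₁, 1) := by
    intro g₁ g₂
    have := hinv g₂ (g₁, 1)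
    simpa using this
  have h2 : ∑ g₁, f (g₁, 1) = 0 := by
    have h3 : (Fintype.card G₂ : ℂ) * ∑ g₁, f (g₁, 1) = 0 := by
      rw [← hf, Fintype.sum_prod_type, Finset.mul_sum]
      refine Finset.sum_congr rfl fun g₁ _ => ?_
      rw [Finset.sum_congr rfl fun g₂ _ => h1 g₁ g₂]
      simp
    exact (mul_eq_zero.mp h3).resolve_left card_ne_zero'
  have h4 : avh (MonoidHom.inl G₁ G₂) f = 0 := by
    funext g
    simp only [avh, MonoidHom.inl_apply, Pi.zero_apply]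
    have h5 : ∑ x : G₁, f (g * (x, 1)) = ∑ g₁, f (g₁, 1) := by
      refine Fintype.sum_equiv (Equiv.mulLeft g.1) _ _ fun x => ?_
      rw [show g * (x, 1) = (g.1 * x, g.2) from by
        ext <;> simp]
      exact h1 _ _
    rw [h5, h2, mul_zero]
  rw [h4, sq_zero, zero_mul]

theorem expd_prod {G₁ G₂ : Type*} [Group G₁] [Fintype G₁] [Group G₂] [Fintype G₂] {k₁ k₂ : ℕ}
    {κ : ℝ} (hκ : 0 ≤ κ) (h₁ : Expd G₁ k₁ κ) (h₂ : Expd G₂ k₂ κ) :
    Expd (G₁ × G₂) (k₁ + k₂) κ := by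
  have := expd_two (MonoidHom.inl G₁ G₂) (MonoidHom.inr G₁ G₂) le_rfl angle_prod hκ h₁ h₂
  simpa using this

theorem expd_card {G : Type*} [Group G] [Fintype G] {B : ℕ} (h : Fintype.card G ≤ B) :
    Expd G B 2 := by
  refine expd_mono h le_rfl ⟨(Fintype.equivFin G).symm, ?_⟩
  intro f hf
  have h1 : ∑ i, sq (rt ((Fintype.equivFin G).symm i) f - f) = ∑ g : G, sq (rt g f - f) :=
    Fintype.sum_equiv (Fintype.equivFin G).symm _ _ fun _ => rfl
  have h2 : ∑ g : G, rt g f = 0 := by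
    funext x
    simp only [Finset.sum_apply, rt_apply, Pi.zero_apply]
    rw [← hf]
    exact Fintype.sum_equiv (Equiv.mulLeft x) _ _ fun _ => rfl
  have h3 : ∑ g : G, sq (rt g f - f) = 2 * Fintype.card G * sq f := by
    simp only [sq_sub, sq_rt]
    rw [Finset.sum_sub_distrib, ← Finset.mul_sum]
    have h4 : ∑ g : G, (ip (rt g f) f).re = 0 := by
      rw [← Complex.re_sum, ← ip_sum_left, h2, ip_zero_left, Complex.zero_re]
    rw [h4]
    simp
    ring
  rw [h1, h3]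
  have h5 : (1 : ℝ) ≤ Fintype.card G := by exact_mod_cast Fintype.card_pos
  nlinarith [sq_nonneg' f]

end Pool.Agent.MPfe8e9b
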