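import Mathlib
import Pool.Agent.Lib.MP_fe8e9b_al.Two
import Pool.Agent.Lib.MP_fe8e9b_al.Base

/-!
# MP_fe8e9b_al: a subgroup covered by conjugates of one element
-/

open scoped BigOperators MatrixGroups Pointwise

namespace Pool.Agent.MPfe8e9b

namespace ConjAux

open Base

variable {G : Type*} [Group G] [Fintype G]

theorem nrm_list (f : G → ℂ) {b : ℝ} (l : List G)
    (h : ∀ x ∈ l, nrm (rt x f - f) ≤ b) : nrm (rt l.prod f - f) ≤ l.length * b := by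
  induction l with
  | nil => simp [rt_one, nrm_zero]
  | cons a l ih =>
    rw [List.prod_cons, List.length_cons]
    refine (nrm_rt_mul a l.prod f).trans ?_
    have h1 := h a (by simp)
    have h2 := ih fun x hx => h x (by simp [hx])
    push_cast
    linarith

theorem nrm_avh_le {H : Type*} [Group H] [Fintype H] (φ : H →* G) (f : G → ℂ) :
    nrm (avh φ f) ≤ nrm f :=
  Real.sqrt_le_sqrt (sq_avh_le φ f)

end ConjAux

open Base ConjAux

/-- CONJ. -/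
theorem expd_conj {K V G : Type*} [Group K] [Fintype K] [Group V] [Fintype V] [Group G]
    [Fintype G] (φ : K →* G) (ψ : V →* G) {c : ℝ} (hc : 0 ≤ c) (_hc1 : c < 1)
    (hang : Angle ψ φ c) {k : ℕ} {κ : ℝ} (hκ : 0 < κ) (hK : Expd K k κ) (ξ : G) (L : ℕ)
    (hgen : ∀ v : V, ∃ l : List G, l.length ≤ L ∧ l.prod = ψ v ∧ ∀ x ∈ l, ∃ a : K,
      x = φ a ∨ x = φ a * ξ * (φ a)⁻¹ ∨ x = φ a * ξ⁻¹ * (φ a)⁻¹) :
    Expd G (k + 1) ((1 - Real.sqrt c) * min κ 1 / (9 * (L + 1) ^ 2)) := by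
  obtain ⟨s, hs⟩ := hK
  refine ⟨Fin.append (fun i => φ (s i)) (fun _ : Fin 1 => ξ), ?_⟩
  intro f hf
  rw [Fin.sum_univ_add]
  simp only [Fin.append_left, Fin.append_right, Finset.univ_unique, Finset.sum_singleton]
  set EK := ∑ i, sq (rt (φ (s i)) f - f) with hEK
  set f' := avh φ f with hf'
  set δ := nrm (f - f') with hδ
  set e := nrm (rt ξ f - f) with he
  have hδ0 : 0 ≤ δ := nrm_nonneg _
  have he0 : 0 ≤ e := nrm_nonneg _
  have h1 : κ * δ ^ 2 ≤ EK := by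
    rw [hδ, nrm_sq]
    exact gap_sub φ s hs f
  have hinv : ∀ a, rt (φ a) f' = f' := fun a => rt_avh_self φ a f
  -- displacement of `f'` by `ξ`
  have h2 : nrm (rt ξ f' - f') ≤ e + 2 * δ := by
    have h3 : rt ξ f' - f' = rt ξ (f' - f) + ((rt ξ f - f) + (f - f')) := by
      rw [rt_sub]
      abel
    rw [h3]
    refine (nrm_add_le _ _).trans ?_
    rw [nrm_rt, nrm_sub_comm f' f]
    have := nrm_add_le (rt ξ f - f) (f - f')
    linarith
  have h4 : ∀ v, nrm (rt (ψ v) f' - f') ≤ L * (e + 2 * δ) := by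
    intro v
    obtain ⟨l, hl, hprod, hx⟩ := hgen v
    rw [← hprod]
    refine (nrm_list (b := e + 2 * δ) f' l ?_).trans ?_
    · intro x hxl
      obtain ⟨a, ha | ha | ha⟩ := hx x hxl
      · rw [ha, hinv, sub_self, nrm_zero]
        positivity
      · rw [ha, nrm_rt_conj _ _ _ (hinv a)]
        exact h2
      · rw [ha, nrm_rt_conj _ _ _ (hinv a), nrm_rt_inv]
        exact h2
    · have : (l.length : ℝ) ≤ L := by exact_mod_cast hl
      have h5 : 0 ≤ e + 2 * δ := by positivity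
      exact mul_le_mul_of_nonneg_right this h5
  have h5 := nrm_sub_avh ψ f' h4
  have h6 : nrm (f - avh ψ f) ≤ (2 * L + 2) * δ + L * e := by
    have h7 : f - avh ψ f = (f - f') + ((f' - avh ψ f') + avh ψ (f' - f)) := by
      rw [avh_sub]
      abel
    rw [h7]
    refine (nrm_add_le _ _).trans ?_
    have h8 := nrm_add_le (f' - avh ψ f') (avh ψ (f' - f))
    have h9 := nrm_avh_le ψ (f' - f)
    rw [nrm_sub_comm f' f] at h9
    nlinarith
  have h7 := two_sub ψ φ hc hang f hf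
  have h8 : sq (f - avh ψ f) ≤ ((2 * L + 2) * δ + L * e) ^ 2 := by
    rw [← nrm_sq]
    exact pow_le_pow_left₀ (nrm_nonneg _) h6 2
  have h9 : sq (f - avh φ f) = δ ^ 2 := by rw [hδ, nrm_sq]
  have h10 : sq (rt ξ f - f) = e ^ 2 := by rw [he, nrm_sq]
  rw [h10]
  have hL : (0 : ℝ) ≤ L := Nat.cast_nonneg L
  have h11 : (1 - Real.sqrt c) * sq f ≤ 9 * (L + 1) ^ 2 * (δ ^ 2 + e ^ 2) := by
    have h12 : ((2 * L + 2) * δ + L * e) ^ 2 ≤ 2 * ((2 * L + 2) * δ) ^ 2 + 2 * (L * e) ^ 2 := by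
      nlinarith [sq_nonneg ((2 * L + 2) * δ - L * e)]
    have h13 : (L : ℝ) ^ 2 ≤ (L + 1) ^ 2 := by nlinarith
    have h14 : (1 : ℝ) ≤ (L + 1) ^ 2 := by nlinarith
    have h15 : 0 ≤ δ ^ 2 := sq_nonneg δ
    have h16 : 0 ≤ e ^ 2 := sq_nonneg e
    have h17 : (L : ℝ) ^ 2 * e ^ 2 ≤ (L + 1) ^ 2 * e ^ 2 := mul_le_mul_of_nonneg_right h13 h16
    have h18 : δ ^ 2 ≤ (L + 1) ^ 2 * δ ^ 2 := by nlinarith
    calc (1 - Real.sqrt c) * sq f ≤ sq (f - avh ψ f) + sq (f - avh φ f) := h7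
      _ ≤ ((2 * L + 2) * δ + L * e) ^ 2 + δ ^ 2 := by rw [h9]; linarith
      _ ≤ 2 * ((2 * L + 2) * δ) ^ 2 + 2 * (L * e) ^ 2 + δ ^ 2 := by linarith
      _ = 8 * ((L + 1) ^ 2 * δ ^ 2) + 2 * (L ^ 2 * e ^ 2) + δ ^ 2 := by ring
      _ ≤ 8 * ((L + 1) ^ 2 * δ ^ 2) + 9 * ((L + 1) ^ 2 * e ^ 2) + (L + 1) ^ 2 * δ ^ 2 := by
        have : 0 ≤ (L + 1 : ℝ) ^ 2 * e ^ 2 := by positivity
        linarith
      _ = 9 * (L + 1) ^ 2 * (δ ^ 2 + e ^ 2) := by ring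
  have hm : 0 < min κ 1 := lt_min hκ one_pos
  have h12 : min κ 1 * (δ ^ 2 + e ^ 2) ≤ EK + e ^ 2 := by
    have h13 : min κ 1 * δ ^ 2 ≤ κ * δ ^ 2 :=
      mul_le_mul_of_nonneg_right (min_le_left _ _) (sq_nonneg δ)
    have h14 : min κ 1 * e ^ 2 ≤ 1 * e ^ 2 :=
      mul_le_mul_of_nonneg_right (min_le_right _ _) (sq_nonneg e)
    linarith
  rw [div_mul_eq_mul_div, div_le_iff₀ (by positivity)]
  calc (1 - Real.sqrt c) * min κ 1 * sq f = min κ 1 * ((1 - Real.sqrt c) * sq f) := by ring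
    _ ≤ min κ 1 * (9 * (L + 1) ^ 2 * (δ ^ 2 + e ^ 2)) := mul_le_mul_of_nonneg_left h11 hm.le
    _ = 9 * (L + 1) ^ 2 * (min κ 1 * (δ ^ 2 + e ^ 2)) := by ring
    _ ≤ 9 * (L + 1) ^ 2 * (EK + e ^ 2) := mul_le_mul_of_nonneg_left h12 (by positivity)
    _ = (EK + e ^ 2) * (9 * (L + 1) ^ 2) := by ring

end Pool.Agent.MPfe8e9b
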