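import Pool.Agent.Lib.MP_fe8e9b_al.Defs
import Mathlib.Analysis.Fourier.FiniteAbelian.PontryaginDuality
import Mathlib.NumberTheory.LegendreSymbol.AddCharacter
import Mathlib.LinearAlgebra.Dimension.Constructions
import Mathlib.LinearAlgebra.FiniteDimensional.Lemmas
import Mathlib.Tactic

/-!
# MP_fe8e9b_al: representations of SL(2, F)
-/

set_option autoImplicit false
set_option linter.unusedSectionVars false

open scoped BigOperators MatrixGroups

namespace Pool.Agent.MPfe8e9b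

namespace DimOne

section gen

variable {F : Type} [Field F]

/-- The lower elementary matrix. -/
def e21 (t : F) : SL(2, F) := ⟨!![1, 0; t, 1], by simp [Matrix.det_fin_two_of]⟩

/-- The Weyl element. -/
def wl : SL(2, F) := ⟨!![0, 1; -1, 0], by simp [Matrix.det_fin_two_of]⟩

/-- The diagonal matrix. -/
def dia (a : Fˣ) : SL(2, F) := ⟨!![(a : F), 0; 0, (a : F)⁻¹], by
  rw [Matrix.det_fin_two_of]
  have := a.ne_zero
  field_simp
  ring⟩

lemma wl_mul (t : F) : wl * e21 t = e12 (-t) * wl := by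
  apply Subtype.ext
  show (!![0, 1; -1, 0] : Matrix (Fin 2) (Fin 2) F) * !![1, 0; t, 1] =
    !![1, -t; 0, 1] * !![0, 1; -1, 0]
  rw [Matrix.mul_fin_two, Matrix.mul_fin_two]
  simp

lemma e12_mul_dia (a : Fˣ) (t : F) :
    e12 t * dia a = dia a * e12 (((a : F) ^ 2)⁻¹ * t) := by
  apply Subtype.ext
  show (!![1, t; 0, 1] : Matrix (Fin 2) (Fin 2) F) * !![(a : F), 0; 0, (a : F)⁻¹] =
    !![(a : F), 0; 0, (a : F)⁻¹] * !![1, ((a : F) ^ 2)⁻¹ * t; 0, 1]
  rw [Matrix.mul_fin_two, Matrix.mul_fin_two]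
  have := a.ne_zero
  ext i j
  fin_cases i <;> fin_cases j
  · simp
  · simp
    field_simp
  · simp
  · simp

lemma det_eq' (k : SL(2, F)) : k.1 0 0 * k.1 1 1 - k.1 0 1 * k.1 1 0 = 1 := by
  have := k.2
  rwa [Matrix.det_fin_two] at this

lemma bruhat (g : SL(2, F)) (h : g.1 1 0 ≠ 0) :
    g = e12 ((g.1 0 0 - 1) / g.1 1 0) * e21 (g.1 1 0) * e12 ((g.1 1 1 - 1) / g.1 1 0) := by
  have hd := det_eq' g
  apply Subtype.ext
  show g.1 = (!![1, (g.1 0 0 - 1) / g.1 1 0; 0, 1] : Matrix (Fin 2) (Fin 2) F) *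
    !![1, 0; g.1 1 0, 1] * !![1, (g.1 1 1 - 1) / g.1 1 0; 0, 1]
  rw [Matrix.mul_fin_two, Matrix.mul_fin_two]
  ext i j
  fin_cases i <;> fin_cases j
  · show g.1 0 0 = _
    simp
    field_simp
    ring
  · show g.1 0 1 = _
    simp
    field_simp
    linear_combination -hd
  · show g.1 1 0 = _
    simp
  · show g.1 1 1 = _
    simp
    field_simp
    ring

variable {V : Type} [AddCommGroup V] [Module ℂ V]

lemma triv_of_e12 (ρ : SL(2, F) →* (V →ₗ[ℂ] V)) (h : ∀ t v, ρ (e12 t) v = v) (g : SL(2, F))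
    (v : V) : ρ g v = v := by
  have h21 : ∀ t v, ρ (e21 t) v = v := by
    intro t v
    have h1 : ρ (wl * e21 t) v = ρ wl v := by
      rw [wl_mul, map_mul, Module.End.mul_apply, h]
    have h2 : ρ wl⁻¹ (ρ (wl * e21 t) v) = ρ wl⁻¹ (ρ wl v) := by rw [h1]
    rw [← Module.End.mul_apply, ← Module.End.mul_apply, ← map_mul, ← map_mul,
      inv_mul_cancel_left, inv_mul_cancel, map_one, Module.End.one_apply] at h2
    exact h2
  have hc : ∀ g : SL(2, F), g.1 1 0 ≠ 0 → ∀ v, ρ g v = v := by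
    intro g hg v
    rw [bruhat g hg, map_mul, map_mul, Module.End.mul_apply, Module.End.mul_apply, h, h21, h]
  by_cases hg : g.1 1 0 = 0
  · have hd := det_eq' g
    have h11 : g.1 1 1 ≠ 0 := by
      intro h11
      rw [hg, h11] at hd
      simp at hd
    have h1 : (g * e21 1).1 1 0 ≠ 0 := by
      have : (g * e21 1).1 1 0 = g.1 1 0 * 1 + g.1 1 1 * 1 := by
        show (g.1 * (!![1, 0; 1, 1] : Matrix (Fin 2) (Fin 2) F)) 1 0 = _
        rw [Matrix.mul_apply, Fin.sum_univ_two]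
        simp
      rw [this, hg]
      simpa using h11
    have h2 := hc _ h1 v
    rw [map_mul, Module.End.mul_apply, h21] at h2
    exact h2
  · exact hc g hg v

/-- The weight space of an additive character. -/
def wsp (ρ : SL(2, F) →* (V →ₗ[ℂ] V)) (ψ : AddChar F ℂ) : Submodule ℂ V where
  carrier := {v | ∀ t, ρ (e12 t) v = ψ t • v}
  add_mem' := by
    intro a b ha hb t
    rw [map_add, ha t, hb t, smul_add]
  zero_mem' := by
    intro t
    rw [map_zero, smul_zero]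
  smul_mem' := by
    intro c a ha t
    rw [map_smul, ha t, smul_comm]

lemma mem_wsp {ρ : SL(2, F) →* (V →ₗ[ℂ] V)} {ψ : AddChar F ℂ} {v : V} :
    v ∈ wsp ρ ψ ↔ ∀ t, ρ (e12 t) v = ψ t • v := Iff.rfl

end gen

section proj

variable {F : Type} [Field F] [Fintype F] [DecidableEq F]
variable {V : Type} [AddCommGroup V] [Module ℂ V]

/-- The projection to a weight space. -/
noncomputable def pr (ρ : SL(2, F) →* (V →ₗ[ℂ] V)) (ψ : AddChar F ℂ) : V →ₗ[ℂ] V :=
  (Fintype.card F : ℂ)⁻¹ • ∑ t : F, ψ (-t) • ρ (e12 t)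

lemma pr_apply (ρ : SL(2, F) →* (V →ₗ[ℂ] V)) (ψ : AddChar F ℂ) (v : V) :
    pr ρ ψ v = (Fintype.card F : ℂ)⁻¹ • ∑ t : F, ψ (-t) • ρ (e12 t) v := by
  unfold pr
  rw [LinearMap.smul_apply, LinearMap.sum_apply]
  simp only [LinearMap.smul_apply]

lemma card_ne : (Fintype.card F : ℂ) ≠ 0 := by
  exact_mod_cast Fintype.card_ne_zero

lemma pr_mem (ρ : SL(2, F) →* (V →ₗ[ℂ] V)) (ψ : AddChar F ℂ) (v : V) :
    pr ρ ψ v ∈ wsp ρ ψ := by
  intro s
  rw [pr_apply, map_smul, map_sum, smul_comm]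
  congr 1
  rw [Finset.smul_sum]
  refine Fintype.sum_equiv (Equiv.addLeft s) _ _ (fun t => ?_)
  rw [map_smul, ← Module.End.mul_apply, ← map_mul, ← e12_add, Equiv.coe_addLeft, smul_smul]
  congr 1
  rw [← AddChar.map_add_eq_mul]
  congr 1
  ring

lemma sum_pr (ρ : SL(2, F) →* (V →ₗ[ℂ] V)) (v : V) : ∑ ψ : AddChar F ℂ, pr ρ ψ v = v := by
  simp only [pr_apply]
  rw [← Finset.smul_sum, Finset.sum_comm]
  have h1 : ∀ t : F, ∑ ψ : AddChar F ℂ, ψ (-t) • ρ (e12 t) v =
      if t = 0 then (Fintype.card F : ℂ) • v else 0 := by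
    intro t
    rw [← Finset.sum_smul, AddChar.sum_apply_eq_ite]
    by_cases ht : t = 0
    · rw [if_pos (by rw [ht, neg_zero]), if_pos ht, ht, e12_zero, map_one,
        Module.End.one_apply]
    · rw [if_neg (by rwa [neg_eq_zero]), if_neg ht, zero_smul]
  simp only [h1]
  rw [Finset.sum_ite_eq' Finset.univ (0 : F), if_pos (Finset.mem_univ _), smul_smul,
    inv_mul_cancel₀ card_ne, one_smul]

lemma pr_of_mem {ρ : SL(2, F) →* (V →ₗ[ℂ] V)} (ψ : AddChar F ℂ) {χ : AddChar F ℂ} {v : V}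
    (hv : v ∈ wsp ρ χ) : (ψ = χ → pr ρ ψ v = v) ∧ (ψ ≠ χ → pr ρ ψ v = 0) := by
  classical
  have h1 : pr ρ ψ v = (Fintype.card F : ℂ)⁻¹ • (∑ t : F, (χ - ψ) t) • v := by
    rw [pr_apply, Finset.sum_smul]
    congr 1
    refine Finset.sum_congr rfl (fun t _ => ?_)
    rw [hv t, smul_smul, AddChar.sub_apply, AddChar.map_neg_eq_inv]
    congr 1
    rw [mul_comm]
  rw [h1, AddChar.sum_eq_ite]
  constructor
  · rintro rfl
    rw [if_pos (sub_self _), smul_smul, inv_mul_cancel₀ card_ne, one_smul]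
  · intro hne
    rw [if_neg (sub_ne_zero.mpr (Ne.symm hne)), zero_smul, smul_zero]

lemma exists_char {ρ : SL(2, F) →* (V →ₗ[ℂ] V)} [Nontrivial V]
    (h : ∀ v : V, (∀ g, ρ g v = v) → v = 0) : ∃ ψ : AddChar F ℂ, ψ ≠ 1 ∧ wsp ρ ψ ≠ ⊥ := by
  classical
  by_contra hcon
  push Not at hcon
  have h0 : ∀ ψ : AddChar F ℂ, ψ ≠ 1 → ∀ v, pr ρ ψ v = 0 := by
    intro ψ hψ v
    have h1 := pr_mem ρ ψ v
    rw [hcon ψ hψ, Submodule.mem_bot] at h1
    exact h1
  have h1 : ∀ v, pr ρ 1 v = v := by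
    intro v
    conv_rhs => rw [← sum_pr ρ v]
    symm
    apply Finset.sum_eq_single (1 : AddChar F ℂ)
    · intro ψ _ hψ
      exact h0 ψ hψ v
    · intro hn
      exact absurd (Finset.mem_univ _) hn
  have h2 : ∀ t v, ρ (e12 t) v = v := by
    intro t v
    have h3 := pr_mem ρ 1 v t
    rw [h1, AddChar.one_apply, one_smul] at h3
    exact h3
  obtain ⟨v, hv⟩ := exists_ne (0 : V)
  exact hv (h v (fun g => triv_of_e12 ρ h2 g v))

lemma card_sq : ∃ I : Finset Fˣ, (Fintype.card F - 1) ≤ 2 * I.card ∧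
    ∀ a ∈ I, ∀ b ∈ I, ((a : F) ^ 2)⁻¹ = ((b : F) ^ 2)⁻¹ → a = b := by
  classical
  let f : Fˣ → Fˣ := fun a => a ^ 2
  have h1 : (Finset.univ : Finset Fˣ).card ≤ 2 * ((Finset.univ : Finset Fˣ).image f).card := by
    apply Finset.card_le_mul_card_image
    intro b hb
    rw [Finset.mem_image] at hb
    obtain ⟨a, _, rfl⟩ := hb
    refine (Finset.card_le_card (t := {a, -a}) ?_).trans Finset.card_le_two
    intro x hx
    rw [Finset.mem_filter] at hx
    rw [Finset.mem_insert, Finset.mem_singleton]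
    have h2 : x ^ 2 = a ^ 2 := hx.2
    exact Units.eq_or_eq_neg_of_sq_eq_sq _ _ h2
  obtain ⟨I, _, hinj, hI⟩ := Finset.exists_subset_injOn_image_eq_of_surjOn (f := f)
    (Set.univ : Set Fˣ) ((Finset.univ : Finset Fˣ).image f) (by
      intro y hy
      rw [Finset.mem_coe, Finset.mem_image] at hy
      obtain ⟨a, _, rfl⟩ := hy
      exact ⟨a, Set.mem_univ _, rfl⟩)
  refine ⟨I, ?_, ?_⟩
  · have h2 : (I.image f).card = I.card := Finset.card_image_of_injOn hinj
    rw [← hI, h2, Finset.card_univ] at h1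
    have h3 : Fintype.card Fˣ = Fintype.card F - 1 := by
      rw [← Nat.card_eq_fintype_card, Nat.card_units, Nat.card_eq_fintype_card]
    omega
  · intro a ha b hb hab
    apply hinj ha hb
    have h2 : (a : F) ^ 2 = (b : F) ^ 2 := inv_injective hab
    apply Units.ext
    show ((a ^ 2 : Fˣ) : F) = ((b ^ 2 : Fˣ) : F)
    rw [Units.val_pow_eq_pow_val, Units.val_pow_eq_pow_val, h2]

lemma dia_mem {ρ : SL(2, F) →* (V →ₗ[ℂ] V)} {ψ : AddChar F ℂ} {v : V} (hv : v ∈ wsp ρ ψ)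
    (a : Fˣ) : ρ (dia a) v ∈ wsp ρ (AddChar.mulShift ψ ((a : F) ^ 2)⁻¹) := by
  intro t
  rw [← Module.End.mul_apply, ← map_mul, e12_mul_dia, map_mul, Module.End.mul_apply, hv,
    map_smul, AddChar.mulShift_apply]

end proj

end DimOne

open DimOne

theorem dim_one {F : Type} [Field F] [Fintype F] [DecidableEq F] {V : Type} [AddCommGroup V]
    [Module ℂ V] [FiniteDimensional ℂ V] [Nontrivial V] (ρ : SL(2, F) →* (V →ₗ[ℂ] V))
    (h : ∀ v : V, (∀ g, ρ g v = v) → v = 0) :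
    ∃ W : Submodule ℂ V, W ≠ ⊥ ∧
      ((Fintype.card F : ℝ) - 1) / 2 * Module.finrank ℂ W ≤ Module.finrank ℂ V ∧
      ∀ T : V →ₗ[ℂ] V, (∀ g, T ∘ₗ ρ g = ρ g ∘ₗ T) → ∀ w ∈ W, T w ∈ W := by
  classical
  obtain ⟨ψ, hψ, hW⟩ := exists_char h
  refine ⟨wsp ρ ψ, hW, ?_, ?_⟩
  · obtain ⟨I, hI, hinj⟩ := card_sq (F := F)
    have hprim : ψ.IsPrimitive := AddChar.IsPrimitive.of_ne_one hψ
    have hshift := AddChar.to_mulShift_inj_of_isPrimitive hprim
    let χ : I → AddChar F ℂ := fun a => AddChar.mulShift ψ ((a.1 : F) ^ 2)⁻¹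
    have hχ : ∀ a b : I, χ a = χ b → a = b := by
      intro a b hab
      exact Subtype.ext (hinj a.1 a.2 b.1 b.2 (hshift hab))
    let Φ : (I → wsp ρ ψ) →ₗ[ℂ] V :=
      ∑ a : I, (ρ (dia a.1)) ∘ₗ (wsp ρ ψ).subtype ∘ₗ (LinearMap.proj a)
    have hΦ : ∀ w, Φ w = ∑ a : I, ρ (dia a.1) (w a : V) := by
      intro w
      simp only [Φ, LinearMap.sum_apply, LinearMap.comp_apply, Submodule.subtype_apply,
        LinearMap.proj_apply]
    have hinjΦ : Function.Injective Φ := by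
      rw [injective_iff_map_eq_zero]
      intro w hw
      funext b
      have h1 : pr ρ (χ b) (Φ w) = ρ (dia b.1) (w b : V) := by
        rw [hΦ, map_sum]
        rw [Finset.sum_eq_single b]
        · exact (pr_of_mem (χ b) (dia_mem (w b).2 b.1)).1 rfl
        · intro a _ hab
          refine (pr_of_mem (χ b) (dia_mem (w a).2 a.1)).2 ?_
          intro he
          exact hab (hχ b a he).symm
        · intro hn
          exact absurd (Finset.mem_univ _) hn
      rw [hw, map_zero] at h1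
      have h2 : ρ (dia b.1)⁻¹ (ρ (dia b.1) (w b : V)) = (w b : V) := by
        rw [← Module.End.mul_apply, ← map_mul, inv_mul_cancel, map_one, Module.End.one_apply]
      rw [← h1, map_zero] at h2
      exact Subtype.ext h2.symm
    have h3 := LinearMap.finrank_le_finrank_of_injective hinjΦ
    rw [Module.finrank_pi_fintype] at h3
    simp only [Finset.sum_const, Finset.card_univ, Fintype.card_coe, smul_eq_mul] at h3
    have h4 : ((Fintype.card F : ℝ) - 1) / 2 ≤ (I.card : ℝ) := by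
      have h5 : Fintype.card F ≤ 2 * I.card + 1 := by omega
      have h6 : (Fintype.card F : ℝ) ≤ 2 * I.card + 1 := by exact_mod_cast h5
      linarith
    calc ((Fintype.card F : ℝ) - 1) / 2 * Module.finrank ℂ (wsp ρ ψ)
        ≤ (I.card : ℝ) * Module.finrank ℂ (wsp ρ ψ) := by gcongr
      _ ≤ Module.finrank ℂ V := by exact_mod_cast h3
  · intro T hT w hw t
    have h1 := congrArg (fun L : V →ₗ[ℂ] V => L w) (hT (e12 t))
    simp only [LinearMap.comp_apply] at h1
    rw [← h1, hw t, map_smul]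

end Pool.Agent.MPfe8e9b
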