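import Pool.Agent.Lib.MP_fe8e9b_al.Defs
import Pool.Agent.Lib.MP_fe8e9b_al.Dim1

/-!
# MP_fe8e9b_al: representations of products of groups SL(2, F)
-/

set_option autoImplicit false

open scoped BigOperators MatrixGroups

namespace Pool.Agent.MPfe8e9b

namespace DimPi

/-- One step: restrict to an invariant subspace. -/
lemma step {F : Type} [Field F] [Fintype F] [DecidableEq F] {V : Type} [AddCommGroup V]
    [Module ℂ V] [FiniteDimensional ℂ V] (ρ : SL(2, F) →* (V →ₗ[ℂ] V))
    (h : ∀ v : V, (∀ g, ρ g v = v) → v = 0) (W : Submodule ℂ V) (hW : W ≠ ⊥)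
    (hinv : ∀ g, ∀ w ∈ W, ρ g w ∈ W) :
    ∃ W' : Submodule ℂ V, W' ≠ ⊥ ∧ W' ≤ W ∧
      ((Fintype.card F : ℝ) - 1) / 2 * Module.finrank ℂ W' ≤ Module.finrank ℂ W ∧
      ∀ T : V →ₗ[ℂ] V, (∀ g, T ∘ₗ ρ g = ρ g ∘ₗ T) → (∀ w ∈ W, T w ∈ W) → ∀ w ∈ W', T w ∈ W' := by
  have : Nontrivial W := (Submodule.nontrivial_iff_ne_bot).mpr hW
  let σ : SL(2, F) →* (W →ₗ[ℂ] W) :=
    { toFun := fun g => (ρ g).restrict (hinv g)
      map_one' := by
        ext w
        simp
      map_mul' := by
        intro a b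
        ext w
        simp }
  have hσ : ∀ g (w : W), ((σ g w : W) : V) = ρ g w := by
    intro g w
    rfl
  obtain ⟨U, hU, hdim, hT⟩ := dim_one σ (by
    intro v hv
    apply Subtype.ext
    apply h
    intro g
    rw [← hσ, hv g])
  refine ⟨U.map W.subtype, ?_, ?_, ?_, ?_⟩
  · intro hb
    apply hU
    rw [eq_bot_iff]
    intro u hu
    have h1 : (u : V) ∈ U.map W.subtype := Submodule.mem_map_of_mem hu
    rw [hb, Submodule.mem_bot] at h1
    rw [Submodule.mem_bot]
    exact Subtype.ext h1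
  · exact Submodule.map_subtype_le W U
  · rw [Submodule.finrank_map_subtype_eq]
    exact hdim
  · intro T hTc hTW w hw
    rw [Submodule.mem_map] at hw
    obtain ⟨u, hu, rfl⟩ := hw
    have h1 := hT (T.restrict hTW) (by
      intro g
      ext w
      have h2 := congrArg (fun L : V →ₗ[ℂ] V => L (w : V)) (hTc g)
      exact h2) u hu
    rw [Submodule.mem_map]
    exact ⟨_, h1, rfl⟩

end DimPi

open DimPi

theorem dim_bound {ι : Type} [Fintype ι] [DecidableEq ι] (F : ι → Type) [∀ i, Field (F i)]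
    [∀ i, Fintype (F i)] [∀ i, DecidableEq (F i)] {V : Type} [AddCommGroup V] [Module ℂ V]
    [FiniteDimensional ℂ V] [Nontrivial V] (ρ : (∀ i, SL(2, F i)) →* (V →ₗ[ℂ] V))
    (h : ∀ i, ∀ v : V, (∀ g : SL(2, F i), ρ (Pi.mulSingle i g) v = v) → v = 0) :
    ∏ i, (((Fintype.card (F i) : ℝ) - 1) / 2) ≤ Module.finrank ℂ V := by
  classical
  have hpos : ∀ i, (0 : ℝ) ≤ ((Fintype.card (F i) : ℝ) - 1) / 2 := by
    intro i
    have h1 : (1 : ℝ) ≤ Fintype.card (F i) := by
      exact_mod_cast Fintype.card_pos (α := F i)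
    linarith
  have key : ∀ J : Finset ι, ∃ W : Submodule ℂ V, W ≠ ⊥ ∧
      (∏ i ∈ J, (((Fintype.card (F i) : ℝ) - 1) / 2)) * Module.finrank ℂ W ≤
        Module.finrank ℂ V ∧
      ∀ T : V →ₗ[ℂ] V, (∀ i ∈ J, ∀ g : SL(2, F i),
        T ∘ₗ ρ (Pi.mulSingle i g) = ρ (Pi.mulSingle i g) ∘ₗ T) → ∀ w ∈ W, T w ∈ W := by
    intro J
    induction J using Finset.induction_on with
    | empty =>
      refine ⟨⊤, ?_, ?_, ?_⟩
      · exact (Submodule.nontrivial_iff_ne_bot).mp (by
          have : Nontrivial (⊤ : Submodule ℂ V) := (Submodule.topEquiv (R := ℂ) (M := V)).toEquiv.nontrivial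
          exact this)
      · rw [Finset.prod_empty, one_mul, finrank_top]
      · intro T _ w _
        exact Submodule.mem_top
    | insert j J hj ih =>
      obtain ⟨W, hW, hdim, hT⟩ := ih
      let ρj : SL(2, F j) →* (V →ₗ[ℂ] V) := ρ.comp (MonoidHom.mulSingle (fun i => SL(2, F i)) j)
      have hρj : ∀ g, ρj g = ρ (Pi.mulSingle j g) := fun g => rfl
      obtain ⟨W', hW', hle, hdim', hT'⟩ := step ρj (h j) W hW (by
        intro g
        apply hT
        intro i hi g'
        have hij : i ≠ j := fun e => hj (e ▸ hi)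
        have hcomm : (Pi.mulSingle j g : ∀ i, SL(2, F i)) * Pi.mulSingle i g' =
            Pi.mulSingle i g' * Pi.mulSingle j g := by
          funext l
          rw [Pi.mul_apply, Pi.mul_apply]
          by_cases hl : l = j
          · subst hl
            rw [Pi.mulSingle_eq_same, Pi.mulSingle_eq_of_ne (Ne.symm hij), mul_one, one_mul]
          · rw [Pi.mulSingle_eq_of_ne hl, mul_one, one_mul]
        rw [hρj, ← Module.End.mul_eq_comp, ← Module.End.mul_eq_comp, ← map_mul, ← map_mul,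
          hcomm])
      refine ⟨W', hW', ?_, ?_⟩
      · rw [Finset.prod_insert hj]
        have h1 : (0 : ℝ) ≤ ∏ i ∈ J, (((Fintype.card (F i) : ℝ) - 1) / 2) :=
          Finset.prod_nonneg (fun i _ => hpos i)
        calc (((Fintype.card (F j) : ℝ) - 1) / 2 *
              ∏ i ∈ J, (((Fintype.card (F i) : ℝ) - 1) / 2)) * Module.finrank ℂ W'
            = (∏ i ∈ J, (((Fintype.card (F i) : ℝ) - 1) / 2)) *
              (((Fintype.card (F j) : ℝ) - 1) / 2 * Module.finrank ℂ W') := by ring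
          _ ≤ (∏ i ∈ J, (((Fintype.card (F i) : ℝ) - 1) / 2)) * Module.finrank ℂ W :=
              mul_le_mul_of_nonneg_left hdim' h1
          _ ≤ Module.finrank ℂ V := hdim
      · intro T hTc
        apply hT' T
        · intro g
          exact hTc j (Finset.mem_insert_self j J) g
        · exact hT T (fun i hi g => hTc i (Finset.mem_insert_of_mem hi) g)
  obtain ⟨W, hW, hdim, _⟩ := key Finset.univ
  have h1 : (1 : ℝ) ≤ Module.finrank ℂ W := by
    have : Nontrivial W := (Submodule.nontrivial_iff_ne_bot).mpr hW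
    exact_mod_cast Module.finrank_pos (R := ℂ) (M := W)
  have h2 : (0 : ℝ) ≤ ∏ i, (((Fintype.card (F i) : ℝ) - 1) / 2) :=
    Finset.prod_nonneg (fun i _ => hpos i)
  calc ∏ i, (((Fintype.card (F i) : ℝ) - 1) / 2)
      ≤ (∏ i, (((Fintype.card (F i) : ℝ) - 1) / 2)) * Module.finrank ℂ W :=
        le_mul_of_one_le_right h2 h1
    _ ≤ Module.finrank ℂ V := hdim

end Pool.Agent.MPfe8e9b
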