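import Pool.Agent.Lib.MP_fe8e9b_al.Defs
import Mathlib.Analysis.InnerProductSpace.Trace
import Mathlib.Analysis.InnerProductSpace.PiL2

/-!
# Trace of a positive convolution operator
-/

open scoped BigOperators MatrixGroups

namespace Pool.Agent.MPfe8e9b

namespace TraceAux

variable {G : Type} [Group G] [Fintype G]

theorem cv_add (μ : G → ℝ) (f f' : G → ℂ) : cv μ (f + f') = cv μ f + cv μ f' := by
  funext g
  simp [cv, mul_add, Finset.sum_add_distrib]

theorem cv_smul (μ : G → ℝ) (c : ℂ) (f : G → ℂ) : cv μ (c • f) = c • cv μ f := by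
  funext g
  simp only [cv, Pi.smul_apply, smul_eq_mul, Finset.mul_sum]
  exact Finset.sum_congr rfl fun h _ => by ring

theorem cv_cv (μ ν : G → ℝ) (f : G → ℂ) : cv (conv μ ν) f = cv μ (cv ν f) := by
  funext g
  simp only [cv, conv]
  push_cast
  simp_rw [Finset.sum_mul, Finset.mul_sum]
  rw [Finset.sum_comm]
  refine Finset.sum_congr rfl fun h _ => ?_
  rw [← Equiv.sum_comp (Equiv.mulLeft h)]
  refine Finset.sum_congr rfl fun k _ => ?_
  simp only [Equiv.coe_mulLeft, inv_mul_cancel_left, mul_assoc]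

theorem cv_cpow (μ : G → ℝ) (l : ℕ) (f : G → ℂ) : cv (cpow μ l) f = (cv μ)^[l] f := by
  induction l generalizing f with
  | zero =>
    funext g
    rw [Function.iterate_zero, id, cv, Finset.sum_eq_single 1]
    · simp [cpow]
    · intro x _ hx
      simp [cpow, hx]
    · intro h
      exact absurd (Finset.mem_univ _) h
  | succ l ih =>
    rw [cpow, cv_cv, ih, Function.iterate_succ_apply]

theorem ip_cv (μ : G → ℝ) (hsym : ∀ g, μ g⁻¹ = μ g) (f f' : G → ℂ) :
    ip f (cv μ f') = ip (cv μ f) f' := by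
  simp only [ip, cv, map_sum, map_mul, Complex.conj_ofReal, Finset.sum_mul, Finset.mul_sum]
  rw [Finset.sum_comm]
  conv_rhs => rw [Finset.sum_comm]
  rw [← Equiv.sum_comp (Equiv.inv G)]
  refine Finset.sum_congr rfl fun h _ => ?_
  rw [← Equiv.sum_comp (Equiv.mulRight h)]
  refine Finset.sum_congr rfl fun g _ => ?_
  simp only [Equiv.inv_apply, Equiv.coe_mulRight, hsym, mul_inv_cancel_right]
  ring

theorem pos_pow (μ : G → ℝ) (hsym : ∀ g, μ g⁻¹ = μ g)
    (hpos : ∀ f : G → ℂ, 0 ≤ (ip f (cv μ f)).re) (l : ℕ) :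
    ∀ f : G → ℂ, 0 ≤ (ip f ((cv μ)^[l] f)).re := by
  induction l using Nat.twoStepInduction with
  | zero =>
    intro f
    rw [Function.iterate_zero, id, ip, Complex.re_sum]
    refine Finset.sum_nonneg fun x _ => ?_
    rw [← Complex.normSq_eq_conj_mul_self, Complex.ofReal_re]
    exact Complex.normSq_nonneg _
  | one => exact hpos
  | more l h1 _ =>
    intro f
    rw [Function.iterate_succ_apply', ip_cv μ hsym, Function.iterate_succ_apply]
    exact h1 _

/-- the operator on the Euclidean space -/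
noncomputable def op (ν : G → ℝ) : EuclideanSpace ℂ G →ₗ[ℂ] EuclideanSpace ℂ G where
  toFun x := WithLp.toLp 2 (cv ν (WithLp.ofLp x))
  map_add' x y := by
    rw [WithLp.ofLp_add, cv_add, WithLp.toLp_add]
  map_smul' c x := by
    rw [WithLp.ofLp_smul, cv_smul, WithLp.toLp_smul]
    rfl

theorem inner_op (ν : G → ℝ) (x y : EuclideanSpace ℂ G) :
    inner ℂ x (op ν y) = ip (WithLp.ofLp x) (cv ν (WithLp.ofLp y)) := by
  rw [PiLp.inner_apply, ip]
  refine Finset.sum_congr rfl fun g _ => ?_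
  rw [RCLike.inner_apply, mul_comm]
  rfl

theorem trace_op (ν : G → ℝ) : LinearMap.trace ℂ (EuclideanSpace ℂ G) (op ν) =
    (Fintype.card G : ℂ) * (ν 1 : ℂ) := by
  classical
  rw [LinearMap.trace_eq_sum_inner (op ν) (EuclideanSpace.basisFun G ℂ)]
  have h : ∀ g : G, inner ℂ ((EuclideanSpace.basisFun G ℂ) g)
      ((op ν) ((EuclideanSpace.basisFun G ℂ) g)) = (ν 1 : ℂ) := by
    intro g
    have e1 : WithLp.ofLp ((EuclideanSpace.basisFun G ℂ) g) = Pi.single g (1 : ℂ) := by
      simp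
    rw [inner_op, e1, ip, Finset.sum_eq_single g]
    · rw [Pi.single_eq_same, map_one, one_mul]
      show ∑ h, (ν h : ℂ) * (Pi.single g (1 : ℂ) : G → ℂ) (g * h) = _
      rw [Finset.sum_eq_single 1]
      · rw [mul_one, Pi.single_eq_same, mul_one]
      · intro h _ hh
        rw [Pi.single_eq_of_ne, mul_zero]
        intro h2
        exact hh (mul_eq_left.1 h2)
      · intro h
        exact absurd (Finset.mem_univ _) h
    · intro h _ hh
      rw [Pi.single_eq_of_ne hh, map_zero, zero_mul]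
    · intro h
      exact absurd (Finset.mem_univ _) h
  rw [Finset.sum_congr rfl fun g _ => h g]
  simp

theorem iter_E {μ : G → ℝ} {lam : ℝ} {E : Submodule ℂ (G → ℂ)}
    (hE : ∀ f ∈ E, cv μ f = (lam : ℂ) • f) (l : ℕ) :
    ∀ f ∈ E, (cv μ)^[l] f = ((lam : ℂ) ^ l) • f := by
  induction l with
  | zero => intro f _; simp
  | succ l ih =>
    intro f hf
    rw [Function.iterate_succ_apply', ih f hf, cv_smul, hE f hf, smul_smul, pow_succ]

end TraceAux

open TraceAux

theorem trace_bound {G : Type} [Group G] [Fintype G] (μ : G → ℝ)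
    (hsym : ∀ g, μ g⁻¹ = μ g) (hpos : ∀ f : G → ℂ, 0 ≤ (ip f (cv μ f)).re)
    {lam : ℝ} (hlam : 0 ≤ lam) (E : Submodule ℂ (G → ℂ))
    (hE : ∀ f ∈ E, cv μ f = (lam : ℂ) • f) (l : ℕ) :
    (Module.finrank ℂ E : ℝ) * lam ^ l ≤ Fintype.card G * cpow μ l 1 := by
  classical
  set e : (G → ℂ) ≃ₗ[ℂ] EuclideanSpace ℂ G := (WithLp.linearEquiv 2 ℂ (G → ℂ)).symm with he
  set E' : Submodule ℂ (EuclideanSpace ℂ G) := E.map e.toLinearMap with hE'
  have hfin : Module.finrank ℂ E' = Module.finrank ℂ E := LinearEquiv.finrank_map_eq e E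
  set b0 := stdOrthonormalBasis ℂ E' with hb0
  have horth : Orthonormal ℂ (fun i => ((b0 i : E') : EuclideanSpace ℂ G)) :=
    b0.orthonormal.comp_linearIsometry E'.subtypeₗᵢ
  obtain ⟨u, b, hvu, hb⟩ := horth.toSubtypeRange.exists_orthonormalBasis_extension
  have htr := trace_op (cpow μ l)
  rw [LinearMap.trace_eq_sum_inner (op (cpow μ l)) b] at htr
  have hre : ∀ x : EuclideanSpace ℂ G, 0 ≤ (inner ℂ x (op (cpow μ l) x)).re := by
    intro x
    rw [inner_op, cv_cpow]
    exact pos_pow μ hsym hpos l _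
  have hinj : Function.Injective (fun i => ((b0 i : E') : EuclideanSpace ℂ G)) :=
    horth.linearIndependent.injective
  have h1 : ∑ x ∈ u, (inner ℂ x (op (cpow μ l) x)).re = Fintype.card G * cpow μ l 1 := by
    have h2 := congrArg Complex.re htr
    rw [hb, Complex.re_sum] at h2
    rw [← Finset.sum_coe_sort u (fun x => (inner ℂ x (op (cpow μ l) x)).re), h2]
    simp
  rw [← h1]
  have h2 : (Finset.univ.image fun i => ((b0 i : E') : EuclideanSpace ℂ G)) ⊆ u := by
    intro x hx
    obtain ⟨i, _, rfl⟩ := Finset.mem_image.1 hx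
    exact hvu (Set.mem_range_self i)
  refine le_trans ?_ (Finset.sum_le_sum_of_subset_of_nonneg h2 fun x _ _ => hre x)
  rw [Finset.sum_image fun i _ j _ h => hinj h]
  have h3 : ∀ i, (inner ℂ ((b0 i : E') : EuclideanSpace ℂ G)
      (op (cpow μ l) ((b0 i : E') : EuclideanSpace ℂ G))).re = lam ^ l := by
    intro i
    have hmem : WithLp.ofLp ((b0 i : E') : EuclideanSpace ℂ G) ∈ E := by
      obtain ⟨f, hf, hfe⟩ := Submodule.mem_map.1 (b0 i).2
      rw [← hfe]
      exact hf
    have h5 : op (cpow μ l) ((b0 i : E') : EuclideanSpace ℂ G) =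
        ((lam : ℂ) ^ l) • ((b0 i : E') : EuclideanSpace ℂ G) := by
      show WithLp.toLp 2 (cv (cpow μ l) (WithLp.ofLp ((b0 i : E') : EuclideanSpace ℂ G))) = _
      rw [cv_cpow, iter_E hE l _ hmem, WithLp.toLp_smul]
    rw [h5, inner_smul_right, inner_self_eq_norm_sq_to_K, horth.1 i, ← Complex.ofReal_pow]
    rw [RCLike.ofReal_one, one_pow, mul_one, Complex.ofReal_re]
  rw [Finset.sum_congr rfl fun i _ => h3 i]
  simp [hfin]

end Pool.Agent.MPfe8e9b
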