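import Pool.Agent.Lib.MP_fe8e9b_al.Avg
import Pool.Agent.Lib.MP_fe8e9b_al.Dim
import Pool.Agent.Lib.MP_fe8e9b_al.Trace
import Mathlib.Analysis.InnerProductSpace.PiL2
import Mathlib.Analysis.InnerProductSpace.Spectrum

/-!
# MP_fe8e9b_al: the spectral bound from dimension and trace
-/

set_option autoImplicit false

open scoped BigOperators MatrixGroups

namespace Pool.Agent.MPfe8e9b

namespace CoreAux

section spec

theorem rayleigh {E : Type} [NormedAddCommGroup E] [InnerProductSpace ℂ E]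
    [FiniteDimensional ℂ E] (T : E →ₗ[ℂ] E) (hT : T.IsSymmetric) (c : ℝ)
    (hc : ∀ (lam : ℝ) (v : E), v ≠ 0 → T v = (lam : ℂ) • v → lam ≤ c) (x : E) :
    (inner ℂ x (T x)).re ≤ c * ‖x‖ ^ 2 := by
  set b := hT.eigenvectorBasis rfl with hb
  have h1 : ∀ i, T (b i) = ((hT.eigenvalues rfl i : ℝ) : ℂ) • b i := fun i =>
    hT.apply_eigenvectorBasis rfl i
  have h2 : ∀ i, inner ℂ (b i) (T x) = ((hT.eigenvalues rfl i : ℝ) : ℂ) * inner ℂ (b i) x := by
    intro i
    rw [← hT (b i) x, h1, inner_smul_left, Complex.conj_ofReal]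
  have h3 : inner ℂ x (T x) = ∑ i, (((hT.eigenvalues rfl i * ‖inner ℂ (b i) x‖ ^ 2 : ℝ)) : ℂ) := by
    rw [← b.sum_inner_mul_inner x (T x)]
    refine Finset.sum_congr rfl fun i _ => ?_
    rw [h2 i]
    have h4 : inner ℂ x (b i) * inner ℂ (b i) x = ((‖inner ℂ (b i) x‖ ^ 2 : ℝ) : ℂ) := by
      rw [← inner_conj_symm x (b i), ← Complex.normSq_eq_conj_mul_self,
        Complex.normSq_eq_norm_sq]
    rw [Complex.ofReal_mul, ← h4]
    ring
  have h5 : ‖x‖ ^ 2 = ∑ i, ‖inner ℂ (b i) x‖ ^ 2 := by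
    rw [← b.sum_sq_norm_inner_right x]
  rw [h3, ← Complex.ofReal_sum, Complex.ofReal_re, h5, Finset.mul_sum]
  refine Finset.sum_le_sum fun i _ => ?_
  refine mul_le_mul_of_nonneg_right (hc _ (b i) ?_ (h1 i)) (by positivity)
  exact b.orthonormal.ne_zero i

theorem spec {X : Type} [Fintype X] (W : Submodule ℂ (X → ℂ)) (T : (X → ℂ) →ₗ[ℂ] (X → ℂ))
    (hself : ∀ f f', ip (T f) f' = ip f (T f')) (hW : ∀ f ∈ W, T f ∈ W) (c : ℝ)
    (hc : ∀ (lam : ℝ) (f : X → ℂ), f ∈ W → f ≠ 0 → T f = (lam : ℂ) • f → lam ≤ c)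
    (f : X → ℂ) (hf : f ∈ W) : (ip f (T f)).re ≤ c * sq f := by
  classical
  let e : EuclideanSpace ℂ X ≃ₗ[ℂ] (X → ℂ) := WithLp.linearEquiv 2 ℂ (X → ℂ)
  have hin : ∀ x y : EuclideanSpace ℂ X, inner ℂ x y = ip (e x) (e y) := by
    intro x y
    rw [PiLp.inner_apply]
    unfold ip
    refine Finset.sum_congr rfl fun i _ => ?_
    rw [RCLike.inner_apply, mul_comm]
    rfl
  let W' : Submodule ℂ (EuclideanSpace ℂ X) := W.comap e.toLinearMap
  let T₀ : EuclideanSpace ℂ X →ₗ[ℂ] EuclideanSpace ℂ X :=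
    e.symm.toLinearMap ∘ₗ T ∘ₗ e.toLinearMap
  have hT₀ : ∀ x, e (T₀ x) = T (e x) := fun x => e.apply_symm_apply _
  have hW' : ∀ x ∈ W', T₀ x ∈ W' := by
    intro x hx
    show e (T₀ x) ∈ W
    rw [hT₀]
    exact hW _ hx
  let T' : W' →ₗ[ℂ] W' := T₀.restrict hW'
  have hT' : LinearMap.IsSymmetric (𝕜 := ℂ) (E := W') T' := by
    intro x y
    show inner ℂ (T₀ x.1) y.1 = inner ℂ x.1 (T₀ y.1)
    rw [hin, hin, hT₀, hT₀, hself]
  have key := rayleigh (E := W') T' hT' c (by
    intro lam v hv hTv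
    refine hc lam (e v.1) v.2 ?_ ?_
    · intro h
      apply hv
      apply Subtype.ext
      exact e.map_eq_zero_iff.mp h
    · have h1 : T₀ v.1 = (lam : ℂ) • v.1 := congrArg Subtype.val hTv
      rw [← hT₀, h1, map_smul]) ⟨e.symm f, by
        show e (e.symm f) ∈ W
        rw [e.apply_symm_apply]
        exact hf⟩
  have h1 : inner ℂ (e.symm f) (T₀ (e.symm f)) = ip f (T f) := by
    rw [hin, hT₀, e.apply_symm_apply]
  have h2 : ‖e.symm f‖ ^ 2 = sq f := by
    have h3 := hin (e.symm f) (e.symm f)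
    rw [e.apply_symm_apply, ip_self, inner_self_eq_norm_sq_to_K] at h3
    apply Complex.ofReal_injective
    rw [← h3]
    norm_cast
  rw [← h1, ← h2]
  exact key

end spec

section cvfacts

variable {G : Type} [Group G] [Fintype G] (μ : G → ℝ)

/-- The operator as a linear map. -/
noncomputable def cvL : (G → ℂ) →ₗ[ℂ] (G → ℂ) where
  toFun f := cv μ f
  map_add' f f' := by
    funext g
    simp only [cv, Pi.add_apply, mul_add, Finset.sum_add_distrib]
  map_smul' a f := by
    funext g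
    simp only [cv, Pi.smul_apply, smul_eq_mul, Finset.mul_sum, RingHom.id_apply]
    exact Finset.sum_congr rfl fun h _ => by ring

theorem cvL_apply (f : G → ℂ) : cvL μ f = cv μ f := rfl

theorem cv_eq_sum (f : G → ℂ) : cv μ f = ∑ h, (μ h : ℂ) • rt h f := by
  funext g
  simp [cv, rt_apply]

theorem cv_self (hsym : ∀ g, μ g⁻¹ = μ g) (f f' : G → ℂ) :
    ip (cv μ f) f' = ip f (cv μ f') := by
  rw [cv_eq_sum, cv_eq_sum, ip_sum_left, ip_sum_right]
  refine Fintype.sum_equiv (Equiv.inv G) _ _ fun h => ?_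
  rw [ip_smul_left, ip_smul_right, Complex.conj_ofReal, ip_rt_left]
  show _ = (μ h⁻¹ : ℂ) * _
  rw [hsym]
  rfl

theorem sum_cv (f : G → ℂ) (hf : ∑ g, f g = 0) : ∑ g, cv μ f g = 0 := by
  simp only [cv]
  rw [Finset.sum_comm]
  refine Finset.sum_eq_zero fun h _ => ?_
  rw [← Finset.mul_sum]
  have := sum_rt h f
  simp only [rt_apply] at this
  rw [this, hf, mul_zero]

theorem cv_left (a : G) (f : G → ℂ) :
    cv μ (fun g => f (a * g)) = fun g => cv μ f (a * g) := by
  funext g
  simp only [cv, mul_assoc]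

theorem sum_left (a : G) (f : G → ℂ) : ∑ g, f (a * g) = ∑ g, f g :=
  Fintype.sum_equiv (Equiv.mulLeft a) _ _ fun _ => rfl

end cvfacts

section push

variable {G G' : Type} [Group G] [Fintype G] [Group G'] [Fintype G'] (π : G →* G')

open Classical in
/-- Push forward of a weight. -/
noncomputable def push (μ : G → ℝ) : G' → ℝ := fun x => ∑ g, if π g = x then μ g else 0

theorem cv_push (μ : G → ℝ) (f : G' → ℂ) :
    cv μ (fun g => f (π g)) = fun g => cv (push π μ) f (π g) := by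
  classical
  funext g
  simp only [cv, push, map_mul, Complex.ofReal_sum, Finset.sum_mul]
  rw [Finset.sum_comm]
  refine Finset.sum_congr rfl fun h _ => ?_
  rw [Finset.sum_eq_single (π h)]
  · rw [if_pos rfl]
  · intro x _ hx
    rw [if_neg (Ne.symm hx)]
    simp
  · intro h'
    exact absurd (Finset.mem_univ _) h'

theorem conv_push (μ ν : G → ℝ) :
    conv (push π μ) (push π ν) = push π (conv μ ν) := by
  classical
  funext x
  have h1 : conv (push π μ) (push π ν) x =
      ∑ h, ∑ k, if π h * π k = x then μ h * ν k else 0 := by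
    simp only [conv, push, Finset.sum_mul]
    rw [Finset.sum_comm]
    refine Finset.sum_congr rfl fun h _ => ?_
    rw [Finset.sum_eq_single (π h)]
    · rw [if_pos rfl, Finset.mul_sum]
      refine Finset.sum_congr rfl fun k _ => ?_
      by_cases hk : π h * π k = x
      · rw [if_pos hk, if_pos (by rw [← hk, inv_mul_cancel_left])]
      · rw [if_neg hk, if_neg (by
          intro h2
          apply hk
          rw [h2, mul_inv_cancel_left]), mul_zero]
    · intro y _ hy
      rw [if_neg (Ne.symm hy), zero_mul]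
    · intro h'
      exact absurd (Finset.mem_univ _) h'
  rw [h1]
  simp only [push, conv]
  have h2 : ∀ g : G, (if π g = x then ∑ h, μ h * ν (h⁻¹ * g) else 0) =
      ∑ h, if π g = x then μ h * ν (h⁻¹ * g) else 0 := by
    intro g
    split_ifs <;> simp
  rw [Finset.sum_congr rfl fun g _ => h2 g]
  conv_rhs => rw [Finset.sum_comm]
  refine Finset.sum_congr rfl fun h _ => ?_
  refine Fintype.sum_equiv (Equiv.mulLeft h) _ _ fun k => ?_
  show _ = if π (h * k) = x then μ h * ν (h⁻¹ * (h * k)) else 0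
  rw [map_mul, inv_mul_cancel_left]

theorem cpow_push (μ : G → ℝ) (l : ℕ) : cpow (push π μ) l = push π (cpow μ l) := by
  classical
  induction l with
  | zero =>
    funext x
    simp only [cpow, push]
    rw [Finset.sum_eq_single (1 : G)]
    · rw [map_one, if_pos rfl]
      by_cases hx : x = 1
      · rw [if_pos hx, if_pos hx.symm]
      · rw [if_neg hx, if_neg (Ne.symm hx)]
    · intro g _ hg
      rw [if_neg hg]
      simp
    · intro h'
      exact absurd (Finset.mem_univ _) h'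
  | succ l ih =>
    show conv (cpow (push π μ) l) (push π μ) = push π (conv (cpow μ l) μ)
    rw [ih, conv_push]

theorem push_symm (μ : G → ℝ) (hsym : ∀ g, μ g⁻¹ = μ g) (x : G') :
    push π μ x⁻¹ = push π μ x := by
  classical
  simp only [push]
  refine Fintype.sum_equiv (Equiv.inv G) _ _ fun g => ?_
  show _ = if π g⁻¹ = x then μ g⁻¹ else 0
  rw [hsym, map_inv]
  by_cases h : π g = x⁻¹
  · rw [if_pos h, if_pos (by rw [h, inv_inv])]
  · rw [if_neg h, if_neg (by
      intro h2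
      apply h
      rw [← h2, inv_inv])]

theorem ip_comp (hπ : Function.Surjective π) : ∃ N : ℕ, 0 < N ∧ ∀ f f' : G' → ℂ,
    ip (fun g => f (π g)) (fun g => f' (π g)) = N * ip f f' := by
  classical
  refine ⟨(Finset.univ.filter fun g : G => π g = 1).card, ?_, ?_⟩
  · refine Finset.card_pos.mpr ⟨1, ?_⟩
    simp
  · intro f f'
    unfold ip
    have h1 : ∀ x : G', (Finset.univ.filter fun g : G => π g = x).card =
        (Finset.univ.filter fun g : G => π g = 1).card := by
      intro x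
      obtain ⟨a, rfl⟩ := hπ x
      refine Finset.card_bij (fun g _ => a⁻¹ * g) ?_ ?_ ?_
      · intro g hg
        simp only [Finset.mem_filter, Finset.mem_univ, true_and] at hg ⊢
        rw [map_mul, hg, map_inv, inv_mul_cancel]
      · intro g _ g' _ h
        exact mul_left_cancel h
      · intro g hg
        simp only [Finset.mem_filter, Finset.mem_univ, true_and] at hg
        refine ⟨a * g, ?_, by rw [inv_mul_cancel_left]⟩
        simp only [Finset.mem_filter, Finset.mem_univ, true_and]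
        rw [map_mul, hg, mul_one]
    rw [← Finset.sum_fiberwise (s := (Finset.univ : Finset G)) (g := fun g => π g),
      Finset.mul_sum]
    refine Finset.sum_congr rfl fun x _ => ?_
    rw [← h1 x]
    rw [Finset.sum_congr rfl (g := fun _ => (starRingEnd ℂ) (f x) * f' x)]
    · rw [Finset.sum_const, nsmul_eq_mul]
    · intro g hg
      simp only [Finset.mem_filter, Finset.mem_univ, true_and] at hg
      show (starRingEnd ℂ) (f (π g)) * f' (π g) = _
      rw [hg]

theorem push_pos (hπ : Function.Surjective π) (μ : G → ℝ)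
    (hpos : ∀ f : G → ℂ, 0 ≤ (ip f (cv μ f)).re) (f : G' → ℂ) :
    0 ≤ (ip f (cv (push π μ) f)).re := by
  obtain ⟨N, hN, h⟩ := ip_comp π hπ
  have h1 := hpos (fun g => f (π g))
  rw [cv_push, h, ← nsmul_eq_mul] at h1
  have h2 : (N • ip f (cv (push π μ) f)).re = N * (ip f (cv (push π μ) f)).re := by
    rw [nsmul_eq_mul]
    simp
  rw [h2] at h1
  have hN' : (0 : ℝ) < N := by exact_mod_cast hN
  exact nonneg_of_mul_nonneg_right h1 hN'

end push

section eig

variable {ι : Type} [Fintype ι] [DecidableEq ι] (F : ι → Type) [∀ i, Field (F i)]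
  [∀ i, Fintype (F i)] [∀ i, DecidableEq (F i)]

/-- Eigenfunctions of sum zero which depend only on the coordinates in `J`. -/
noncomputable def EJ (μ : (∀ i, SL(2, F i)) → ℝ) (lam : ℝ) (J : Finset ι) :
    Submodule ℂ ((∀ i, SL(2, F i)) → ℂ) where
  carrier := {f | ∑ g, f g = 0 ∧ cv μ f = (lam : ℂ) • f ∧
    ∀ g g' : (∀ i, SL(2, F i)), (∀ i ∈ J, g i = g' i) → f g = f g'}
  add_mem' := by
    rintro f f' ⟨h1, h2, h3⟩ ⟨h1', h2', h3'⟩
    refine ⟨?_, ?_, ?_⟩
    · simp only [Pi.add_apply, Finset.sum_add_distrib, h1, h1', add_zero]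
    · have := (cvL μ).map_add f f'
      simp only [cvL_apply] at this
      rw [this, h2, h2', smul_add]
    · intro g g' h
      show f g + f' g = f g' + f' g'
      rw [h3 g g' h, h3' g g' h]
  zero_mem' := by
    refine ⟨by simp, ?_, fun _ _ _ => rfl⟩
    have := (cvL μ).map_zero
    simp only [cvL_apply] at this
    rw [this, smul_zero]
  smul_mem' := by
    rintro a f ⟨h1, h2, h3⟩
    refine ⟨?_, ?_, ?_⟩
    · simp only [Pi.smul_apply, smul_eq_mul, ← Finset.mul_sum, h1, mul_zero]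
    · have := (cvL μ).map_smul a f
      simp only [cvL_apply] at this
      rw [this, h2, smul_comm]
    · intro g g' h
      show a * f g = a * f g'
      rw [h3 g g' h]

theorem mem_EJ (μ : (∀ i, SL(2, F i)) → ℝ) (lam : ℝ) (J : Finset ι)
    (f : (∀ i, SL(2, F i)) → ℂ) : f ∈ EJ F μ lam J ↔ ∑ g, f g = 0 ∧ cv μ f = (lam : ℂ) • f ∧
    ∀ g g' : (∀ i, SL(2, F i)), (∀ i ∈ J, g i = g' i) → f g = f g' := Iff.rfl

/-- Extension by one. -/
def ext (J : Finset ι) : (∀ i : {i // i ∈ J}, SL(2, F i)) →* (∀ i, SL(2, F i)) where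
  toFun x := fun i => if h : i ∈ J then x ⟨i, h⟩ else 1
  map_one' := by
    funext i
    by_cases h : i ∈ J <;> simp [h]
  map_mul' x y := by
    funext i
    by_cases h : i ∈ J <;> simp [h]

theorem ext_mulSingle (J : Finset ι) (i : {i // i ∈ J}) (a : SL(2, F i)) :
    ext F J (Pi.mulSingle i a) = Pi.mulSingle i.1 a := by
  funext j
  show (if h : j ∈ J then (Pi.mulSingle i a : ∀ i : {i // i ∈ J}, SL(2, F i)) ⟨j, h⟩
    else (1 : SL(2, F j))) = (Pi.mulSingle i.1 a : ∀ i, SL(2, F i)) j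
  by_cases h : j ∈ J
  · rw [dif_pos h]
    by_cases hij : j = i.1
    · subst hij
      show (Pi.mulSingle i a : ∀ i : {i // i ∈ J}, SL(2, F i)) i = _
      rw [Pi.mulSingle_eq_same, Pi.mulSingle_eq_same]
    · rw [Pi.mulSingle_eq_of_ne hij, Pi.mulSingle_eq_of_ne]
      intro h2
      exact hij (congrArg Subtype.val h2)
  · rw [dif_neg h]
    rw [Pi.mulSingle_eq_of_ne]
    rintro rfl
    exact h i.2

/-- The restriction. -/
def res (J : Finset ι) : (∀ i, SL(2, F i)) →* (∀ i : {i // i ∈ J}, SL(2, F i)) where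
  toFun g := fun i => g i.1
  map_one' := rfl
  map_mul' _ _ := rfl

theorem res_ext (J : Finset ι) (x : ∀ i : {i // i ∈ J}, SL(2, F i)) :
    res F J (ext F J x) = x := by
  funext i
  show (if h : i.1 ∈ J then x ⟨i.1, h⟩ else 1) = x i
  rw [dif_pos i.2]

/-- Left translations on the space of eigenfunctions. -/
noncomputable def rho (μ : (∀ i, SL(2, F i)) → ℝ) (lam : ℝ) (J : Finset ι) :
    (∀ i : {i // i ∈ J}, SL(2, F i)) →* (EJ F μ lam J →ₗ[ℂ] EJ F μ lam J) where
  toFun x :=
    { toFun := fun f => ⟨fun g => f.1 ((ext F J x)⁻¹ * g), by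
        obtain ⟨h1, h2, h3⟩ := f.2
        refine ⟨?_, ?_, ?_⟩
        · rw [sum_left]
          exact h1
        · rw [cv_left, h2]
          rfl
        · intro g g' h
          refine h3 _ _ fun i hi => ?_
          show (ext F J x)⁻¹ i * g i = (ext F J x)⁻¹ i * g' i
          rw [h i hi]⟩
      map_add' := fun f f' => rfl
      map_smul' := fun a f => rfl }
  map_one' := by
    apply LinearMap.ext
    intro f
    apply Subtype.ext
    funext g
    show f.1 ((ext F J 1)⁻¹ * g) = f.1 g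
    rw [map_one, inv_one, one_mul]
  map_mul' x y := by
    apply LinearMap.ext
    intro f
    apply Subtype.ext
    funext g
    show f.1 ((ext F J (x * y))⁻¹ * g) = f.1 ((ext F J y)⁻¹ * ((ext F J x)⁻¹ * g))
    rw [map_mul, mul_inv_rev, mul_assoc]

theorem rho_apply (μ : (∀ i, SL(2, F i)) → ℝ) (lam : ℝ) (J : Finset ι)
    (x : ∀ i : {i // i ∈ J}, SL(2, F i)) (f : EJ F μ lam J) (g : ∀ i, SL(2, F i)) :
    (rho F μ lam J x f).1 g = f.1 ((ext F J x)⁻¹ * g) := rfl

/-- Functions on the restricted group. -/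
theorem finrank_le (μ : (∀ i, SL(2, F i)) → ℝ) (lam : ℝ) (J : Finset ι) :
    ∃ E : Submodule ℂ ((∀ i : {i // i ∈ J}, SL(2, F i)) → ℂ),
      (∀ f ∈ E, cv (push (res F J) μ) f = (lam : ℂ) • f) ∧
      Module.finrank ℂ (EJ F μ lam J) ≤ Module.finrank ℂ E := by
  let L : ((∀ i : {i // i ∈ J}, SL(2, F i)) → ℂ) →ₗ[ℂ] ((∀ i, SL(2, F i)) → ℂ) :=
    LinearMap.funLeft ℂ ℂ (res F J)
  have hL : ∀ f g, L f g = f (res F J g) := fun _ _ => rfl
  refine ⟨(EJ F μ lam J).comap L, ?_, ?_⟩
  · intro f hf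
    obtain ⟨-, h2, -⟩ := hf
    funext x
    have h3 : cv μ (fun g => f (res F J g)) = fun g => cv (push (res F J) μ) f (res F J g) :=
      cv_push (res F J) μ f
    have h4 := congrFun h3 (ext F J x)
    have h5 := congrFun h2 (ext F J x)
    simp only [res_ext] at h4
    rw [← h4]
    have h6 : (L f) = fun g => f (res F J g) := rfl
    rw [← h6, h5]
    show (lam : ℂ) * f (res F J (ext F J x)) = (lam : ℂ) * f x
    rw [res_ext]
  · have h1 : EJ F μ lam J = ((EJ F μ lam J).comap L).map L := by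
      apply le_antisymm
      · intro f hf
        have hf' := hf
        obtain ⟨-, -, h3⟩ := hf
        have h4 : L (fun x => f (ext F J x)) = f := by
          funext g
          rw [hL]
          refine h3 _ _ fun i hi => ?_
          show (if h : i ∈ J then (res F J g) ⟨i, h⟩ else 1) = g i
          rw [dif_pos hi]
          rfl
        refine ⟨fun x => f (ext F J x), ?_, h4⟩
        show L (fun x => f (ext F J x)) ∈ EJ F μ lam J
        rw [h4]
        exact hf'
      · exact Submodule.map_comap_le _ _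
    conv_lhs => rw [h1]
    exact Submodule.finrank_map_le _ _

/-- The eigenvalue bound. -/
theorem eig_le (μ : (∀ i, SL(2, F i)) → ℝ) (hsym : ∀ g, μ g⁻¹ = μ g)
    (hpos : ∀ f : (∀ i, SL(2, F i)) → ℂ, 0 ≤ (ip f (cv μ f)).re) (c : ℝ) (hc : 0 < c)
    (hJ : ∀ J : Finset ι, J.Nonempty → ∃ l : ℕ,
      (∏ i ∈ J, (Fintype.card SL(2, F i) : ℝ)) * push (res F J) (cpow μ l) 1
        < c ^ l * ∏ i ∈ J, (((Fintype.card (F i) : ℝ) - 1) / 2))
    (lam : ℝ) (f : (∀ i, SL(2, F i)) → ℂ) (hf : ∑ g, f g = 0) (hf0 : f ≠ 0)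
    (hT : cv μ f = (lam : ℂ) • f) : lam ≤ c := by
  classical
  by_contra hcl
  push Not at hcl
  have hlam0 : 0 ≤ lam := (hc.trans hcl).le
  obtain ⟨J, hJ0, hmin⟩ := WellFounded.has_min (wellFounded_lt : WellFounded
    ((· < ·) : Finset ι → Finset ι → Prop)) {J | EJ F μ lam J ≠ ⊥} ⟨Finset.univ, by
      intro h
      apply hf0
      have : f ∈ EJ F μ lam Finset.univ := by
        refine ⟨hf, hT, fun g g' h2 => ?_⟩
        have : g = g' := funext fun i => h2 i (Finset.mem_univ i)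
        rw [this]
      rw [h] at this
      exact (Submodule.mem_bot ℂ).mp this⟩
  have hmin' : ∀ J' : Finset ι, J' < J → EJ F μ lam J' = ⊥ := by
    intro J' h
    by_contra h2
    exact hmin J' h2 h
  have hJne : J.Nonempty := by
    rw [Finset.nonempty_iff_ne_empty]
    rintro rfl
    apply hJ0
    rw [eq_bot_iff]
    intro f' hf'
    obtain ⟨h1, -, h3⟩ := hf'
    have h4 : ∀ g, f' g = f' 1 := fun g => h3 g 1 (by simp)
    have h5 : (Fintype.card (∀ i, SL(2, F i)) : ℂ) * f' 1 = 0 := by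
      rw [← h1, Finset.sum_congr rfl fun g _ => h4 g, Finset.sum_const, nsmul_eq_mul]
      rfl
    have h6 : f' 1 = 0 := by
      rcases mul_eq_zero.mp h5 with h6 | h6
      · exfalso
        exact (Fintype.card_ne_zero (α := ∀ i, SL(2, F i))) (by exact_mod_cast h6)
      · exact h6
    rw [Submodule.mem_bot]
    funext g
    rw [h4 g, h6]
    rfl
  obtain ⟨l, hl⟩ := hJ J hJne
  have : Nontrivial (EJ F μ lam J) := Submodule.nontrivial_iff_ne_bot.mpr hJ0
  have hdim := dim_bound (fun i : {i // i ∈ J} => F i) (rho F μ lam J) (by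
    intro i v hv
    have hmem : v.1 ∈ EJ F μ lam (J.erase i.1) := by
      obtain ⟨h1, h2, h3⟩ := v.2
      refine ⟨h1, h2, ?_⟩
      intro g g' h
      -- move the coordinate `i` by a left multiplication
      have h4 : ∀ a : SL(2, F i.1), ∀ x : (∀ i, SL(2, F i)),
          v.1 ((Pi.mulSingle i.1 a)⁻¹ * x) = v.1 x := by
        intro a x
        have h5 := congrFun (congrArg Subtype.val (hv a)) x
        rw [rho_apply, ext_mulSingle] at h5
        exact h5
      rw [← h4 (g i.1 * (g' i.1)⁻¹) g]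
      refine h3 _ _ fun j hj => ?_
      by_cases hij : j = i.1
      · subst hij
        show (Pi.mulSingle i.1 (g i.1 * (g' i.1)⁻¹) : ∀ i, SL(2, F i))⁻¹ i.1 * g i.1 = g' i.1
        rw [Pi.inv_apply, Pi.mulSingle_eq_same, mul_inv_rev, inv_inv, inv_mul_cancel_right]
      · show (Pi.mulSingle i.1 (g i.1 * (g' i.1)⁻¹) : ∀ i, SL(2, F i))⁻¹ j * g j = g' j
        rw [Pi.inv_apply, Pi.mulSingle_eq_of_ne hij, inv_one, one_mul]
        exact h j (Finset.mem_erase.mpr ⟨hij, hj⟩)
    rw [hmin' _ (Finset.erase_ssubset i.2)] at hmem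
    apply Subtype.ext
    exact (Submodule.mem_bot ℂ).mp hmem)
  obtain ⟨E, hE, hfin⟩ := finrank_le F μ lam J
  have hsurj : Function.Surjective (res F J) := fun x => ⟨ext F J x, res_ext F J x⟩
  have htr := trace_bound (push (res F J) μ) (push_symm _ μ hsym) (push_pos _ hsurj μ hpos)
    hlam0 E hE l
  rw [cpow_push] at htr
  have hcard : (Fintype.card (∀ i : {i // i ∈ J}, SL(2, F i)) : ℝ) =
      ∏ i ∈ J, (Fintype.card SL(2, F i) : ℝ) := by
    rw [Fintype.card_pi, Nat.cast_prod]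
    exact Finset.prod_coe_sort J (fun i => (Fintype.card SL(2, F i) : ℝ))
  rw [hcard] at htr
  have hprod : ∏ i : {i // i ∈ J}, (((Fintype.card (F i) : ℝ) - 1) / 2) =
      ∏ i ∈ J, (((Fintype.card (F i) : ℝ) - 1) / 2) :=
    Finset.prod_coe_sort J (fun i => (((Fintype.card (F i) : ℝ) - 1) / 2))
  rw [hprod] at hdim
  have hpp : 0 ≤ ∏ i ∈ J, (((Fintype.card (F i) : ℝ) - 1) / 2) := by
    refine Finset.prod_nonneg fun i _ => ?_
    have : 1 ≤ Fintype.card (F i) := Fintype.card_pos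
    have : (1 : ℝ) ≤ Fintype.card (F i) := by exact_mod_cast this
    linarith
  have h1 : c ^ l ≤ lam ^ l := pow_le_pow_left₀ hc.le hcl.le l
  have h2 : (∏ i ∈ J, (((Fintype.card (F i) : ℝ) - 1) / 2)) ≤ (Module.finrank ℂ E : ℝ) :=
    hdim.trans (by exact_mod_cast hfin)
  have h3 : c ^ l * ∏ i ∈ J, (((Fintype.card (F i) : ℝ) - 1) / 2) ≤
      (Module.finrank ℂ E : ℝ) * lam ^ l := by
    rw [mul_comm]
    exact mul_le_mul h2 h1 (by positivity) (Nat.cast_nonneg _)
  linarith

end eig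

end CoreAux

open Classical in
theorem core {ι : Type} [Fintype ι] [DecidableEq ι] (F : ι → Type) [∀ i, Field (F i)]
    [∀ i, Fintype (F i)] [∀ i, DecidableEq (F i)] (μ : (∀ i, SL(2, F i)) → ℝ)
    (h0 : ∀ g, 0 ≤ μ g) (hsym : ∀ g, μ g⁻¹ = μ g)
    (hpos : ∀ f : (∀ i, SL(2, F i)) → ℂ, 0 ≤ (ip f (cv μ f)).re) (c : ℝ) (hc : 0 < c)
    (hJ : ∀ J : Finset ι, J.Nonempty → ∃ l : ℕ,
      (∏ i ∈ J, (Fintype.card SL(2, F i) : ℝ)) *
        (∑ g ∈ Finset.univ.filter (fun g : (∀ i, SL(2, F i)) => ∀ i ∈ J, g i = 1), cpow μ l g)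
        < c ^ l * ∏ i ∈ J, (((Fintype.card (F i) : ℝ) - 1) / 2)) :
    ∀ f : (∀ i, SL(2, F i)) → ℂ, ∑ g, f g = 0 → (ip f (cv μ f)).re ≤ c * sq f := by
  intro f hf
  let W : Submodule ℂ ((∀ i, SL(2, F i)) → ℂ) :=
    { carrier := {f | ∑ g, f g = 0}
      add_mem' := by
        intro a b ha hb
        show ∑ g, (a g + b g) = 0
        rw [Finset.sum_add_distrib, ha, hb, add_zero]
      zero_mem' := by simp
      smul_mem' := by
        intro a b hb
        show ∑ g, a * b g = 0
        rw [← Finset.mul_sum, hb, mul_zero] }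
  refine CoreAux.spec W (CoreAux.cvL μ) (CoreAux.cv_self μ hsym) (CoreAux.sum_cv μ) c ?_ f hf
  intro lam f' hf' hf0 hT
  refine CoreAux.eig_le F μ hsym hpos c hc ?_ lam f' hf' hf0 hT
  intro J hJne
  obtain ⟨l, hl⟩ := hJ J hJne
  refine ⟨l, ?_⟩
  have h1 : CoreAux.push (CoreAux.res F J) (cpow μ l) 1 =
      ∑ g ∈ Finset.univ.filter (fun g : (∀ i, SL(2, F i)) => ∀ i ∈ J, g i = 1), cpow μ l g := by
    unfold CoreAux.push
    rw [Finset.sum_filter]
    refine Finset.sum_congr rfl fun g _ => ?_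
    have h2 : (CoreAux.res F J g = 1) ↔ ∀ i ∈ J, g i = 1 := by
      constructor
      · intro h i hi
        exact congrFun h ⟨i, hi⟩
      · intro h
        funext i
        exact h i.1 i.2
    by_cases h3 : ∀ i ∈ J, g i = 1
    · rw [if_pos h3, if_pos (h2.mpr h3)]
    · rw [if_neg h3, if_neg (fun h4 => h3 (h2.mp h4))]
  rw [h1]
  exact hl

end Pool.Agent.MPfe8e9b
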