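import Pool.Agent.Lib.MP_fe8e9b_al.Defs
import Mathlib.Algebra.Polynomial.FieldDivision
import Mathlib.Algebra.Polynomial.BigOperators
import Mathlib.Data.Multiset.Powerset

/-!
# MP_fe8e9b_al: the number of factorisations of a polynomial
-/

open scoped BigOperators MatrixGroups
open Polynomial UniqueFactorizationMonoid

namespace Pool.Agent.MPfe8e9b

namespace DivAux

theorem card_factors_le {F : Type} [Field F] [DecidableEq F] (N : F[X]) (hN : N ≠ 0) :
    Multiset.card (normalizedFactors N) ≤ N.natDegree := by
  have h1 := leadingCoeff_mul_prod_normalizedFactors N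
  have h2 : N.natDegree = (normalizedFactors N).prod.natDegree := by
    conv_lhs => rw [← h1]
    rw [natDegree_C_mul (leadingCoeff_ne_zero.2 hN)]
  rw [h2, natDegree_multiset_prod _ (zero_notMem_normalizedFactors N)]
  rw [← Multiset.card_map natDegree (normalizedFactors N)]
  have h3 : ∀ x ∈ (normalizedFactors N).map natDegree, 1 ≤ x := by
    intro x hx
    obtain ⟨f, hf, rfl⟩ := Multiset.mem_map.1 hx
    exact (irreducible_of_normalized_factor f hf).natDegree_pos
  have h4 := Multiset.card_nsmul_le_sum h3
  simpa using h4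

end DivAux

open DivAux in
theorem div_count (F : Type) [Field F] [Fintype F] [DecidableEq F] (N : F[X]) (hN : N ≠ 0)
    (T : Finset (F[X] × F[X])) (hT : ∀ x ∈ T, x.1 * x.2 = N) :
    T.card ≤ Fintype.card F * 2 ^ N.natDegree := by
  classical
  have h1 : T.card ≤ ((Finset.univ : Finset F) ×ˢ (normalizedFactors N).powerset.toFinset).card := by
    refine Finset.card_le_card_of_injOn
      (fun x => (x.1.leadingCoeff, normalizedFactors x.1)) ?_ ?_
    · intro x hx
      have h2 := hT x hx
      have h3 : x.1 ≠ 0 := fun h => hN (by rw [← h2, h, zero_mul])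
      refine Finset.mem_coe.2 (Finset.mem_product.2 ⟨Finset.mem_univ _, ?_⟩)
      rw [Multiset.mem_toFinset, Multiset.mem_powerset]
      exact (dvd_iff_normalizedFactors_le_normalizedFactors h3 hN).1 ⟨x.2, h2.symm⟩
    · intro x hx y hy he
      have h2 := hT x hx
      have h3 := hT y hy
      obtain ⟨e1, e2⟩ := Prod.mk.inj he
      have h4 : x.1 = y.1 := by
        rw [← leadingCoeff_mul_prod_normalizedFactors x.1, e1, e2,
          leadingCoeff_mul_prod_normalizedFactors y.1]
      have h5 : x.1 ≠ 0 := fun h => hN (by rw [← h2, h, zero_mul])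
      have h6 : x.1 * x.2 = x.1 * y.2 := by rw [h2, h4, h3]
      exact Prod.ext h4 (mul_left_cancel₀ h5 h6)
  refine h1.trans ?_
  rw [Finset.card_product, Finset.card_univ]
  refine Nat.mul_le_mul_left _ ((Multiset.toFinset_card_le _).trans ?_)
  rw [Multiset.card_powerset]
  exact Nat.pow_le_pow_right (by norm_num) (card_factors_le N hN)

end Pool.Agent.MPfe8e9b
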