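import Mathlib.Algebra.Polynomial.FieldDivision
import Mathlib.FieldTheory.Finiteness
import Mathlib.FieldTheory.Minpoly.Field
import Mathlib.RingTheory.Adjoin.PowerBasis
import Mathlib.RingTheory.Coprime.Lemmas
import Mathlib.RingTheory.PrincipalIdealDomain
import Mathlib.Tactic
import Mathlib.Topology.Algebra.InfiniteSum.Constructions
import Pool.Agent.Lib.MP_fe8e9b_al.Defs
import Pool.Agent.Lib.MP_fe8e9b_al.Avg
import Pool.Agent.Lib.MP_fe8e9b_al.Core
import Pool.Agent.Lib.MP_fe8e9b_al.Walk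
import Pool.Agent.Lib.MP_fe8e9b_al.Count
import Pool.Agent.Lib.MP_fe8e9b_al.Div
import Pool.Agent.Lib.MP_fe8e9b_al.SlCard

set_option autoImplicit false

open scoped BigOperators MatrixGroups

namespace Pool.Agent.MPfe8e9b

open Polynomial

namespace FFx

/-! ### Expectations along the walk `k v₁ k₁ ... vₗ kₗ` -/

section general

variable {K V G : Type*} [Fintype K] [Fintype V] [Group G]

/-- average of `φ (g v k)` -/
noncomputable def rstep (a : K → G) (b : V → G) (φ : G → ℝ) : G → ℝ :=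
  fun g => ((Fintype.card V : ℝ) * Fintype.card K)⁻¹ * ∑ v, ∑ k, φ (g * b v * a k)

/-- average of `φ (k v₁ k₁ ... vₗ kₗ)` -/
noncomputable def ex (a : K → G) (b : V → G) : ℕ → (G → ℝ) → ℝ
  | 0 => fun φ => (Fintype.card K : ℝ)⁻¹ * ∑ k, φ (a k)
  | l + 1 => fun φ => ex a b l (rstep a b φ)

theorem ex_hom {G' : Type*} [Group G'] (ev : G →* G') (a : K → G) (b : V → G) (l : ℕ)
    (φ : G' → ℝ) :
    ex a b l (fun g => φ (ev g)) = ex (fun k => ev (a k)) (fun v => ev (b v)) l φ := by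
  induction l generalizing φ with
  | zero => rfl
  | succ l ih =>
    show ex a b l (rstep a b fun g => φ (ev g)) = ex _ _ l (rstep _ _ φ)
    rw [← ih]
    congr 1
    funext g
    simp only [rstep, map_mul]

end general

section finite

variable {K V G : Type*} [Group K] [Fintype K] [Group V] [Fintype V] [Group G] [Fintype G]

open Classical in
/-- the law of `k v k'` -/
noncomputable def wt (a : K →* G) (b : V →* G) : G → ℝ := fun g =>
  ((Fintype.card K : ℝ) ^ 2 * Fintype.card V)⁻¹ *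
    ∑ k, ∑ v, ∑ k', if a k * b v * a k' = g then (1 : ℝ) else 0

omit [Fintype G] in
theorem wt_nonneg (a : K →* G) (b : V →* G) (g : G) : 0 ≤ wt a b g := by
  unfold wt
  refine mul_nonneg (by positivity) (Finset.sum_nonneg fun k _ => Finset.sum_nonneg fun v _ =>
    Finset.sum_nonneg fun k' _ => ?_)
  split_ifs <;> norm_num

omit [Fintype G] in
theorem wt_symm (a : K →* G) (b : V →* G) (g : G) : wt a b g⁻¹ = wt a b g := by
  classical
  unfold wt
  congr 1
  rw [Finset.sum_comm]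
  have h1 : ∀ (k : K) (v : V) (k' : K), (a k * b v * a k' = g⁻¹) ↔
      (a k'⁻¹ * b v⁻¹ * a k⁻¹ = g) := by
    intro k v k'
    rw [eq_inv_iff_mul_eq_one, map_inv, map_inv, map_inv]
    constructor
    · intro h
      rw [← mul_inv_rev, ← mul_inv_rev, inv_eq_iff_eq_inv, eq_inv_iff_mul_eq_one, ← mul_assoc, h]
    · intro h
      rw [← h]
      group
  calc ∑ v, ∑ k, ∑ k', (if a k * b v * a k' = g⁻¹ then (1 : ℝ) else 0)
      = ∑ v, ∑ k, ∑ k', (if a k'⁻¹ * b v⁻¹ * a k⁻¹ = g then (1 : ℝ) else 0) := by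
        refine Finset.sum_congr rfl fun v _ => Finset.sum_congr rfl fun k _ =>
          Finset.sum_congr rfl fun k' _ => ?_
        simp only [h1]
    _ = ∑ v, ∑ k, ∑ k', (if a k' * b v⁻¹ * a k = g then (1 : ℝ) else 0) := by
        refine Finset.sum_congr rfl fun v _ => ?_
        rw [← Equiv.sum_comp (Equiv.inv K)
          (fun k => ∑ k', (if a k' * b v⁻¹ * a k = g then (1 : ℝ) else 0))]
        refine Finset.sum_congr rfl fun k _ => ?_
        rw [← Equiv.sum_comp (Equiv.inv K)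
          (fun k' => (if a k' * b v⁻¹ * a ((Equiv.inv K) k) = g then (1 : ℝ) else 0))]
        rfl
    _ = ∑ v, ∑ k, ∑ k', (if a k' * b v * a k = g then (1 : ℝ) else 0) := by
        rw [← Equiv.sum_comp (Equiv.inv V)
          (fun v => ∑ k, ∑ k', (if a k' * b v * a k = g then (1 : ℝ) else 0))]
        rfl
    _ = ∑ v, ∑ k', ∑ k, (if a k' * b v * a k = g then (1 : ℝ) else 0) := by
        refine Finset.sum_congr rfl fun v _ => Finset.sum_comm
    _ = ∑ k', ∑ v, ∑ k, (if a k' * b v * a k = g then (1 : ℝ) else 0) := Finset.sum_comm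

theorem sum_wt_smul {E : Type*} [AddCommGroup E] [Module ℝ E] (a : K →* G) (b : V →* G)
    (φ : G → E) : ∑ g, wt a b g • φ g =
      ((Fintype.card K : ℝ) ^ 2 * Fintype.card V)⁻¹ • ∑ k, ∑ v, ∑ k', φ (a k * b v * a k') := by
  classical
  unfold wt
  simp only [mul_smul]
  rw [← Finset.smul_sum]
  congr 1
  simp only [Finset.sum_smul, ite_smul, one_smul, zero_smul]
  rw [Finset.sum_comm]
  refine Finset.sum_congr rfl fun k _ => ?_
  rw [Finset.sum_comm]
  refine Finset.sum_congr rfl fun v _ => ?_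
  rw [Finset.sum_comm]
  refine Finset.sum_congr rfl fun k' _ => ?_
  rw [Finset.sum_ite_eq]
  simp

theorem cv_wt (a : K →* G) (b : V →* G) (f : G → ℂ) :
    cv (wt a b) f = avh a (avh b (avh a f)) := by
  funext g
  have h1 : cv (wt a b) f g = ∑ h, wt a b h • f (g * h) := by
    unfold cv
    refine Finset.sum_congr rfl fun h _ => ?_
    rw [Complex.real_smul]
  rw [h1, sum_wt_smul a b fun h => f (g * h)]
  unfold avh
  rw [Complex.real_smul]
  push_cast
  simp only [Finset.mul_sum]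
  refine Finset.sum_congr rfl fun k _ => Finset.sum_congr rfl fun v _ =>
    Finset.sum_congr rfl fun k' _ => ?_
  rw [mul_inv, pow_two, mul_inv, mul_assoc g, mul_assoc g]
  ring

theorem cpow_succ_sum (μ : G → ℝ) (l : ℕ) (φ : G → ℝ) :
    ∑ x, cpow μ (l + 1) x * φ x = ∑ h, cpow μ l h * ∑ y, μ y * φ (h * y) := by
  have h0 : ∀ x, cpow μ (l + 1) x = ∑ h, cpow μ l h * μ (h⁻¹ * x) := fun x => rfl
  simp only [h0, Finset.sum_mul]
  rw [Finset.sum_comm]
  refine Finset.sum_congr rfl fun h _ => ?_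
  rw [Finset.mul_sum, ← Equiv.sum_comp (Equiv.mulLeft h)]
  refine Finset.sum_congr rfl fun y _ => ?_
  rw [Equiv.coe_mulLeft, inv_mul_cancel_left, mul_assoc]

/-- the law of the convolution power -/
theorem cpow_ex (a : K →* G) (b : V →* G) (l : ℕ) (φ : G → ℝ) :
    ∑ x, cpow (wt a b) (l + 1) x * φ x = ex a b (l + 1) φ := by
  classical
  have hK : (Fintype.card K : ℝ) ≠ 0 := Nat.cast_ne_zero.mpr Fintype.card_ne_zero
  have hV : (Fintype.card V : ℝ) ≠ 0 := Nat.cast_ne_zero.mpr Fintype.card_ne_zero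
  have hS : ∀ (φ : G → ℝ) (h : G), ∑ y, wt a b y * φ (h * y) =
      ((Fintype.card K : ℝ) ^ 2 * Fintype.card V)⁻¹ *
        ∑ k, ∑ v, ∑ k', φ (h * (a k * b v * a k')) := by
    intro φ h
    have := sum_wt_smul a b fun y => φ (h * y)
    simpa only [smul_eq_mul] using this
  induction l generalizing φ with
  | zero =>
    rw [cpow_succ_sum]
    have h1 : ∀ h : G, cpow (wt a b) 0 h = if h = 1 then 1 else 0 := fun h => rfl
    simp only [h1, ite_mul, one_mul, zero_mul]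
    rw [Finset.sum_ite_eq' Finset.univ (1 : G), if_pos (Finset.mem_univ _), hS]
    show _ = (Fintype.card K : ℝ)⁻¹ * ∑ k, rstep a b φ (a k)
    unfold rstep
    rw [← Finset.mul_sum, ← mul_assoc]
    congr 1
    · field_simp
    · refine Finset.sum_congr rfl fun k _ => Finset.sum_congr rfl fun v _ =>
        Finset.sum_congr rfl fun k' _ => ?_
      rw [one_mul]
  | succ l ih =>
    rw [cpow_succ_sum, ih fun h => ∑ y, wt a b y * φ (h * y)]
    show ex a b l (rstep a b _) = ex a b l (rstep a b (rstep a b φ))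
    congr 1
    funext g
    unfold rstep
    congr 1
    refine Finset.sum_congr rfl fun v _ => ?_
    simp only [hS]
    rw [← Finset.mul_sum, ← Finset.mul_sum]
    have h2 : ∑ k, ∑ k₁, ∑ v', ∑ k', φ (g * b v * a k * (a k₁ * b v' * a k')) =
        Fintype.card K * ∑ k, ∑ v', ∑ k', φ (g * b v * a k * b v' * a k') := by
      rw [Finset.sum_comm]
      have h3 : ∀ k₁, ∑ k, ∑ v', ∑ k', φ (g * b v * a k * (a k₁ * b v' * a k')) =
          ∑ k, ∑ v', ∑ k', φ (g * b v * a k * b v' * a k') := by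
        intro k₁
        rw [← Equiv.sum_comp (Equiv.mulRight k₁)
          (fun k => ∑ v', ∑ k', φ (g * b v * a k * b v' * a k'))]
        refine Finset.sum_congr rfl fun k _ => Finset.sum_congr rfl fun v' _ =>
          Finset.sum_congr rfl fun k' _ => ?_
        rw [Equiv.coe_mulRight, map_mul]
        simp only [mul_assoc]
      simp only [h3]
      rw [Finset.sum_const, Finset.card_univ, nsmul_eq_mul]
    rw [h2, ← mul_assoc]
    congr 1
    field_simp

end finite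

/-! ### The walk in `SL(2, F[X])` -/

section poly

variable (F : Type) [Field F] [Fintype F] [DecidableEq F]

/-- constant matrices -/
noncomputable def a0 : SL(2, F) → SL(2, F[X]) := fun k =>
  Matrix.SpecialLinearGroup.map (C : F →+* F[X]) k

/-- the matrices `e12 (b + c X)` -/
noncomputable def b0 : Multiplicative (F × F) → SL(2, F[X]) := fun u =>
  e12 (C (Multiplicative.toAdd u).1 + C (Multiplicative.toAdd u).2 * X)

omit [Fintype F] [DecidableEq F] in
theorem a0_apply (k : SL(2, F)) (i j : Fin 2) : (a0 F k).1 i j = C (k.1 i j) := rfl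

omit [Fintype F] [DecidableEq F] in
theorem a0_inj : Function.Injective (a0 F) := by
  intro k k' h
  apply Subtype.ext
  ext i j
  have h1 : (a0 F k).1 i j = (a0 F k').1 i j := by rw [h]
  rw [a0_apply, a0_apply] at h1
  exact C_injective h1

omit [Fintype F] [DecidableEq F] in
theorem natDegree_le_dg (γ : SL(2, F[X])) (i j : Fin 2) : (γ.1 i j).natDegree ≤ dg γ :=
  Finset.le_sup (f := fun ij : Fin 2 × Fin 2 => (γ.1 ij.1 ij.2).natDegree)
    (Finset.mem_univ (i, j))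

omit [Fintype F] [DecidableEq F] in
theorem dg_a0 (k : SL(2, F)) : dg (a0 F k) = 0 := by
  apply Nat.eq_zero_of_le_zero
  refine Finset.sup_le fun ij _ => ?_
  rw [a0_apply, natDegree_C]

omit [Fintype F] [DecidableEq F] in
theorem exists_a0 (γ : SL(2, F[X])) (h : dg γ = 0) : ∃ k, a0 F k = γ := by
  refine ⟨Matrix.SpecialLinearGroup.map constantCoeff γ, ?_⟩
  apply Subtype.ext
  ext1 i j
  show C (constantCoeff (γ.1 i j)) = γ.1 i j
  have h1 := natDegree_le_dg F γ i j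
  rw [h] at h1
  rw [constantCoeff_apply]
  exact (eq_C_of_natDegree_eq_zero (Nat.eq_zero_of_le_zero h1)).symm

theorem pw_zero_a0 (k : SL(2, F)) : pw F 0 (a0 F k) = ((Fintype.card SL(2, F) : ℝ))⁻¹ := by
  show (if dg (a0 F k) = 0 then _ else _) = _
  rw [if_pos (dg_a0 F k)]

theorem pw_succ_eq (l : ℕ) (γ : SL(2, F[X])) : pw F (l + 1) γ =
    ((Fintype.card (Multiplicative (F × F)) : ℝ) * (Fintype.card SL(2, F) : ℝ))⁻¹ *
      ∑ v : Multiplicative (F × F), ∑ k : SL(2, F), pw F l (γ * (a0 F k)⁻¹ * (b0 F v)⁻¹) := by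
  show ((Fintype.card SL(2, F) : ℝ) * (Fintype.card F : ℝ) ^ 2)⁻¹ *
      ∑ k : SL(2, F), ∑ bc : F × F,
        pw F l (γ * (Matrix.SpecialLinearGroup.map (C : F →+* F[X]) k)⁻¹ *
          (e12 (C bc.1 + C bc.2 * X))⁻¹) = _
  have h1 : (Fintype.card (Multiplicative (F × F)) : ℝ) = (Fintype.card F : ℝ) ^ 2 := by
    rw [Fintype.card_multiplicative, Fintype.card_prod]
    push_cast
    ring
  rw [h1, mul_comm ((Fintype.card F : ℝ) ^ 2)]
  congr 1
  rw [Finset.sum_comm]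
  exact Fintype.sum_equiv Multiplicative.ofAdd _ _ fun bc => rfl

theorem support_finite (l : ℕ) : (Function.support (pw F l)).Finite := by
  induction l with
  | zero =>
    refine (Set.finite_range (a0 F)).subset ?_
    intro γ hγ
    by_cases h : dg γ = 0
    · exact exists_a0 F γ h
    · exfalso
      apply hγ
      show (if dg γ = 0 then _ else _) = _
      rw [if_neg h]
  | succ l ih =>
    have h1 : (⋃ v : Multiplicative (F × F), ⋃ k : SL(2, F),
        (fun γ => γ * b0 F v * a0 F k) '' Function.support (pw F l)).Finite :=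
      Set.finite_iUnion fun v => Set.finite_iUnion fun k => ih.image _
    refine h1.subset ?_
    intro γ hγ
    rw [Function.mem_support, pw_succ_eq] at hγ
    obtain ⟨v, -, hv⟩ := Finset.exists_ne_zero_of_sum_ne_zero (right_ne_zero_of_mul hγ)
    obtain ⟨k, -, hk⟩ := Finset.exists_ne_zero_of_sum_ne_zero hv
    rw [Set.mem_iUnion]
    refine ⟨v, ?_⟩
    rw [Set.mem_iUnion]
    refine ⟨k, _, hk, ?_⟩
    simp

theorem summable_pw (l : ℕ) (ψ : SL(2, F[X]) → ℝ) : Summable fun γ => pw F l γ * ψ γ := by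
  refine summable_of_hasFiniteSupport ((support_finite F l).subset ?_)
  intro γ hγ h0
  apply hγ
  show pw F l γ * ψ γ = 0
  rw [h0, zero_mul]

theorem ex_pw (l : ℕ) (φ : SL(2, F[X]) → ℝ) :
    ex (a0 F) (b0 F) l φ = ∑' γ, pw F l γ * φ γ := by
  classical
  induction l generalizing φ with
  | zero =>
    rw [tsum_eq_sum (s := Finset.univ.map ⟨a0 F, a0_inj F⟩)]
    · rw [Finset.sum_map]
      show (Fintype.card SL(2, F) : ℝ)⁻¹ * ∑ k, φ (a0 F k) = _
      rw [Finset.mul_sum]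
      refine Finset.sum_congr rfl fun k _ => ?_
      show _ = pw F 0 (a0 F k) * φ (a0 F k)
      rw [pw_zero_a0]
    · intro γ hγ
      have : dg γ ≠ 0 := by
        intro h
        obtain ⟨k, hk⟩ := exists_a0 F γ h
        apply hγ
        rw [Finset.mem_map]
        exact ⟨k, Finset.mem_univ _, hk⟩
      show (if dg γ = 0 then _ else _) * _ = _
      rw [if_neg this, zero_mul]
  | succ l ih =>
    show ex (a0 F) (b0 F) l (rstep (a0 F) (b0 F) φ) = _
    rw [ih]
    obtain ⟨c, hc⟩ : ∃ c : ℝ, c = ((Fintype.card (Multiplicative (F × F)) : ℝ) *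
      (Fintype.card SL(2, F) : ℝ))⁻¹ := ⟨_, rfl⟩
    have h1 : ∀ γ, pw F l γ * rstep (a0 F) (b0 F) φ γ =
        ∑ v, ∑ k, pw F l γ * (c * φ (γ * b0 F v * a0 F k)) := by
      intro γ
      unfold rstep
      rw [← hc]
      simp only [Finset.mul_sum]
    have h2 : ∀ γ, pw F (l + 1) γ * φ γ =
        ∑ v, ∑ k, pw F l (γ * (a0 F k)⁻¹ * (b0 F v)⁻¹) * (c * φ γ) := by
      intro γ
      rw [pw_succ_eq, ← hc]
      simp only [Finset.mul_sum, Finset.sum_mul]
      refine Finset.sum_congr rfl fun v _ => Finset.sum_congr rfl fun k _ => ?_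
      ring
    have hs : ∀ v k, Summable fun γ => pw F l γ * (c * φ (γ * b0 F v * a0 F k)) :=
      fun v k => summable_pw F l _
    have he : ∀ v k, (fun γ => pw F l γ * (c * φ (γ * b0 F v * a0 F k))) =
        fun γ => pw F l ((Equiv.mulRight (b0 F v * a0 F k)) γ * (a0 F k)⁻¹ * (b0 F v)⁻¹) *
          (c * φ ((Equiv.mulRight (b0 F v * a0 F k)) γ)) := by
      intro v k
      funext γ
      rw [Equiv.coe_mulRight]
      have : γ * (b0 F v * a0 F k) * (a0 F k)⁻¹ * (b0 F v)⁻¹ = γ := by group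
      rw [this, mul_assoc γ (b0 F v) (a0 F k)]
    have hs' : ∀ v k, Summable fun γ => pw F l (γ * (a0 F k)⁻¹ * (b0 F v)⁻¹) * (c * φ γ) := by
      intro v k
      have := hs v k
      rw [he v k] at this
      exact (Equiv.mulRight (b0 F v * a0 F k)).summable_iff.mp this
    simp only [h1, h2]
    rw [Summable.tsum_finsetSum (fun v _ => summable_sum fun k _ => hs v k),
      Summable.tsum_finsetSum (fun v _ => summable_sum fun k _ => hs' v k)]
    refine Finset.sum_congr rfl fun v _ => ?_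
    rw [Summable.tsum_finsetSum (fun k _ => hs v k), Summable.tsum_finsetSum (fun k _ => hs' v k)]
    refine Finset.sum_congr rfl fun k _ => ?_
    rw [he v k]
    exact (Equiv.mulRight (b0 F v * a0 F k)).tsum_eq
      fun γ => pw F l (γ * (a0 F k)⁻¹ * (b0 F v)⁻¹) * (c * φ γ)

end poly

/-! ### Bounds -/

theorem layer_num {Q N : ℝ} (hQ : 1 ≤ Q) {j r : ℕ} (hr : r ≤ 2 * j)
    (hN : N ≤ Q ^ (r + 1) * (1 + Q ^ (r + 1) / Q ^ j) * Q * 4 ^ r + 2 * Q ^ (r + 1)) :
    N * (Q ^ (j + r))⁻¹ ≤ 4 * 16 ^ j * Q ^ 3 := by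
  have hQ0 : 0 < Q := by linarith
  rw [mul_inv_le_iff₀ (by positivity)]
  have h1 : Q ^ (r + 1) / Q ^ j ≤ Q ^ (j + 1) := by
    rw [div_le_iff₀ (by positivity), ← pow_add]
    exact pow_le_pow_right₀ hQ (by omega)
  have h2 : 1 + Q ^ (r + 1) / Q ^ j ≤ 2 * Q ^ (j + 1) := by
    have := one_le_pow₀ hQ (n := j + 1)
    linarith
  have h3 : Q ^ (r + 1) * (1 + Q ^ (r + 1) / Q ^ j) * Q * 4 ^ r ≤
      Q ^ (r + 1) * (2 * Q ^ (j + 1)) * Q * 4 ^ r := by
    gcongr
  have h4 : Q ^ (r + 1) * (2 * Q ^ (j + 1)) * Q * 4 ^ r = 2 * 4 ^ r * Q ^ 3 * Q ^ (j + r) := by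
    ring
  have h5 : (2 : ℝ) * Q ^ (r + 1) ≤ 2 * 4 ^ r * Q ^ 3 * Q ^ (j + r) := by
    have e1 : Q ^ (r + 1) ≤ Q ^ 3 * Q ^ (j + r) := by
      rw [← pow_add]
      exact pow_le_pow_right₀ hQ (by omega)
    have e2 : (1 : ℝ) ≤ 4 ^ r := one_le_pow₀ (by norm_num)
    calc (2 : ℝ) * Q ^ (r + 1) ≤ 2 * (Q ^ 3 * Q ^ (j + r)) := by linarith
      _ ≤ 2 * (4 ^ r * (Q ^ 3 * Q ^ (j + r))) := by
          have : 0 < Q ^ 3 * Q ^ (j + r) := by positivity
          nlinarith
      _ = _ := by ring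
  have h6 : (4 : ℝ) ^ r ≤ 16 ^ j := by
    calc (4 : ℝ) ^ r ≤ 4 ^ (2 * j) := pow_le_pow_right₀ (by norm_num) hr
      _ = 16 ^ j := by rw [pow_mul]; norm_num
  have h7 : 4 * (4 : ℝ) ^ r * Q ^ 3 * Q ^ (j + r) ≤ 4 * 16 ^ j * Q ^ 3 * Q ^ (j + r) := by
    gcongr
  calc N ≤ _ := hN
    _ ≤ 2 * 4 ^ r * Q ^ 3 * Q ^ (j + r) + 2 * 4 ^ r * Q ^ 3 * Q ^ (j + r) := by
        rw [← h4]
        rw [← h4] at h5
        exact add_le_add h3 h5
    _ = 4 * (4 : ℝ) ^ r * Q ^ 3 * Q ^ (j + r) := by ring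
    _ ≤ _ := h7

theorem card_one_le (F : Type) [Field F] [Fintype F] : (1 : ℝ) ≤ (Fintype.card F : ℝ) := by
  exact_mod_cast Fintype.card_pos

theorem count_bound (F : Type) [Field F] [Fintype F] [DecidableEq F] (I : F[X]) (hI : I.Monic)
    (hj : 1 ≤ I.natDegree) (T : Finset SL(2, F[X]))
    (hT : ∀ γ ∈ T, dg γ ≤ 3 * I.natDegree ∧
      ∀ a b, I ∣ γ.1 a b - (1 : Matrix (Fin 2) (Fin 2) F[X]) a b) :
    ∑ γ ∈ T, ((Fintype.card F : ℝ) ^ dg γ)⁻¹ ≤
      (3 * I.natDegree + 1) * (4 * 16 ^ I.natDegree * (Fintype.card F : ℝ) ^ 3) := by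
  classical
  obtain ⟨Q, hQd⟩ : ∃ Q : ℝ, Q = (Fintype.card F : ℝ) := ⟨_, rfl⟩
  have hQ : 1 ≤ Q := hQd ▸ card_one_le F
  have hmap : ∀ γ ∈ T, dg γ ∈ Finset.range (3 * I.natDegree + 1) := fun γ hγ =>
    Finset.mem_range.mpr (Nat.lt_succ_of_le (hT γ hγ).1)
  rw [← Finset.sum_fiberwise_of_maps_to hmap, ← hQd]
  have hfib : ∀ m ∈ Finset.range (3 * I.natDegree + 1),
      ∑ γ ∈ T.filter (fun γ => dg γ = m), (Q ^ dg γ)⁻¹ ≤ 4 * 16 ^ I.natDegree * Q ^ 3 := by
    intro m hm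
    rw [Finset.mem_range] at hm
    have h1 : ∑ γ ∈ T.filter (fun γ => dg γ = m), (Q ^ dg γ)⁻¹ =
        ((T.filter (fun γ => dg γ = m)).card : ℝ) * (Q ^ m)⁻¹ := by
      rw [Finset.sum_congr rfl (g := fun _ => (Q ^ m)⁻¹), Finset.sum_const, nsmul_eq_mul]
      intro γ hγ
      rw [(Finset.mem_filter.mp hγ).2]
    rw [h1]
    obtain ⟨hc1, hc2⟩ := mat_count F (fun N hN T hT => div_count F N hN T hT) I hI hj m
      (T.filter (fun γ => dg γ = m)) (fun γ hγ => by
        rw [Finset.mem_filter] at hγ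
        exact ⟨hγ.2.le, (hT γ hγ.1).2⟩)
    rcases lt_or_ge m I.natDegree with hlt | hge
    · have hc := hc1 hlt
      have hc' : ((T.filter (fun γ => dg γ = m)).card : ℝ) ≤ 1 := by exact_mod_cast hc
      have e1 : (Q ^ m)⁻¹ ≤ 1 := inv_le_one_of_one_le₀ (one_le_pow₀ hQ)
      have e2 : (0 : ℝ) ≤ (Q ^ m)⁻¹ := by positivity
      have e3 : (1 : ℝ) ≤ 16 ^ I.natDegree := one_le_pow₀ (by norm_num)
      have e4 : (1 : ℝ) ≤ Q ^ 3 := one_le_pow₀ hQ
      have e5 : (1 : ℝ) ≤ 4 * 16 ^ I.natDegree * Q ^ 3 := by nlinarith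
      calc ((T.filter (fun γ => dg γ = m)).card : ℝ) * (Q ^ m)⁻¹ ≤ 1 * 1 :=
            mul_le_mul hc' e1 e2 zero_le_one
        _ = 1 := one_mul 1
        _ ≤ _ := e5
    · obtain ⟨r, rfl⟩ := Nat.exists_eq_add_of_le hge
      rw [Nat.add_sub_cancel_left, ← hQd] at hc2
      exact layer_num hQ (by omega) hc2
  calc _ ≤ ∑ _m ∈ Finset.range (3 * I.natDegree + 1), 4 * 16 ^ I.natDegree * Q ^ 3 :=
        Finset.sum_le_sum hfib
    _ = _ := by
        rw [Finset.sum_const, Finset.card_range, nsmul_eq_mul]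
        push_cast
        ring

theorem mass_bound (F : Type) [Field F] [Fintype F] [DecidableEq F] (I : F[X]) (hI : I.Monic)
    (hj : 1 ≤ I.natDegree) (T : Finset SL(2, F[X]))
    (hT : ∀ γ ∈ T, ∀ a b, I ∣ γ.1 a b - (1 : Matrix (Fin 2) (Fin 2) F[X]) a b) :
    ∑ γ ∈ T, pw F (3 * I.natDegree) γ ≤
      4 ^ (3 * I.natDegree) * ((Fintype.card F : ℝ) ^ (3 * I.natDegree))⁻¹ *
        ((Fintype.card SL(2, F) : ℝ))⁻¹ *
      ((3 * I.natDegree + 1) * (4 * 16 ^ I.natDegree * (Fintype.card F : ℝ) ^ 3)) := by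
  classical
  have hQ : (1 : ℝ) ≤ (Fintype.card F : ℝ) := card_one_le F
  have hQ0 : (0 : ℝ) < (Fintype.card F : ℝ) := by linarith
  have h1 : ∑ γ ∈ T, pw F (3 * I.natDegree) γ =
      ∑ γ ∈ T.filter (fun γ => dg γ ≤ 3 * I.natDegree), pw F (3 * I.natDegree) γ := by
    symm
    apply Finset.sum_subset (Finset.filter_subset _ _)
    intro γ hγ hγ'
    rw [Finset.mem_filter, not_and] at hγ'
    exact (walk_bound F _ γ).2.2 (not_le.mp (hγ' hγ))
  rw [h1]
  have h2 : ∀ γ ∈ T.filter (fun γ => dg γ ≤ 3 * I.natDegree), pw F (3 * I.natDegree) γ ≤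
      4 ^ (3 * I.natDegree) * ((Fintype.card F : ℝ) ^ (3 * I.natDegree))⁻¹ *
        ((Fintype.card SL(2, F) : ℝ))⁻¹ * ((Fintype.card F : ℝ) ^ dg γ)⁻¹ := by
    intro γ _
    have := (walk_bound F (3 * I.natDegree) γ).2.1
    rw [pow_add, mul_inv] at this
    calc _ ≤ _ := this
      _ = _ := by ring
  refine (Finset.sum_le_sum h2).trans ?_
  rw [← Finset.mul_sum]
  refine mul_le_mul_of_nonneg_left ?_ (by positivity)
  apply count_bound F I hI hj
  intro γ hγ
  rw [Finset.mem_filter] at hγ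
  exact ⟨hγ.2, hT γ hγ.1⟩

/-- the final numerical inequality -/
theorem final_num {Q S : ℝ} {j : ℕ} (hQ : 2 ^ 23 ≤ Q) (hj : 1 ≤ j) (hS : Q ^ 3 / 2 ≤ S) :
    Q ^ (3 * j) * (4 ^ (3 * j) * (Q ^ (3 * j))⁻¹ * S⁻¹ *
      ((3 * j + 1) * (4 * 16 ^ j * Q ^ 3))) < (1 / 4) ^ (3 * j) * ((Q - 1) / 2) ^ j := by
  have hQ0 : 0 < Q := lt_of_lt_of_le (by norm_num) hQ
  have hS0 : 0 < S := lt_of_lt_of_le (by positivity) hS
  have h1 : Q ^ (3 * j) * (4 ^ (3 * j) * (Q ^ (3 * j))⁻¹ * S⁻¹ *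
      ((3 * j + 1) * (4 * 16 ^ j * Q ^ 3))) =
      4 * (3 * j + 1) * 1024 ^ j * (Q ^ 3 * S⁻¹) := by
    have e1 : Q ^ (3 * j) * (Q ^ (3 * j))⁻¹ = 1 := mul_inv_cancel₀ (by positivity)
    have e2 : (4 : ℝ) ^ (3 * j) * 16 ^ j = 1024 ^ j := by
      rw [pow_mul, ← mul_pow]; norm_num
    calc _ = (Q ^ (3 * j) * (Q ^ (3 * j))⁻¹) * ((4 : ℝ) ^ (3 * j) * 16 ^ j) *
          (4 * (3 * j + 1) * (Q ^ 3 * S⁻¹)) := by ring
      _ = _ := by rw [e1, e2]; ring
  have h2 : Q ^ 3 * S⁻¹ ≤ 2 := by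
    rw [mul_inv_le_iff₀ hS0]
    linarith
  have h3 : (8 : ℝ) * (3 * j + 1) ≤ 32 ^ j := by
    have : ∀ n : ℕ, (8 : ℝ) * (3 * ((n + 1 : ℕ) : ℝ) + 1) ≤ 32 ^ (n + 1) := by
      intro n
      induction n with
      | zero => norm_num
      | succ n ih =>
        rw [pow_succ]
        push_cast at ih ⊢
        nlinarith [(Nat.cast_nonneg n : (0 : ℝ) ≤ n)]
    obtain ⟨n, rfl⟩ : ∃ n, j = n + 1 := ⟨j - 1, by omega⟩
    exact this n
  have h4 : (1 / 4 : ℝ) ^ (3 * j) * ((Q - 1) / 2) ^ j = ((Q - 1) / 128) ^ j := by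
    rw [pow_mul, ← mul_pow]
    congr 1
    norm_num
    ring
  rw [h1, h4]
  calc 4 * (3 * (j : ℝ) + 1) * 1024 ^ j * (Q ^ 3 * S⁻¹)
      ≤ 4 * (3 * (j : ℝ) + 1) * 1024 ^ j * 2 := by
        apply mul_le_mul_of_nonneg_left h2 (by positivity)
    _ = (8 * (3 * (j : ℝ) + 1)) * 1024 ^ j := by ring
    _ ≤ 32 ^ j * 1024 ^ j := mul_le_mul_of_nonneg_right h3 (by positivity)
    _ = 32768 ^ j := by rw [← mul_pow]; norm_num
    _ < ((Q - 1) / 128) ^ j := by
        apply pow_lt_pow_left₀ _ (by norm_num) (by omega)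
        rw [lt_div_iff₀ (by norm_num)]
        linarith

section final

variable (F : Type) [Field F] [Fintype F] [DecidableEq F] {ι : Type} [Fintype ι] [DecidableEq ι]
  (E : ι → Type) [∀ i, Field (E i)] [∀ i, Fintype (E i)] [∀ i, DecidableEq (E i)]
  [∀ i, Algebra F (E i)] (θ : ∀ i, E i)

/-- evaluation at `θ` -/
noncomputable def ev : SL(2, F[X]) →* (∀ i, SL(2, E i)) :=
  MonoidHom.pi fun i =>
    Matrix.SpecialLinearGroup.map ((aeval (θ i) : F[X] →ₐ[F] E i) : F[X] →+* E i)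

omit [Fintype F] [DecidableEq F] [Fintype ι] [DecidableEq ι] [∀ i, Fintype (E i)]
  [∀ i, DecidableEq (E i)] in
theorem ev_apply (γ : SL(2, F[X])) (i : ι) (x y : Fin 2) :
    (ev F E θ γ i).1 x y = aeval (θ i) (γ.1 x y) := rfl

omit [Fintype F] [DecidableEq F] [Fintype ι] [DecidableEq ι] [∀ i, Fintype (E i)]
  [∀ i, DecidableEq (E i)] in
theorem ev_a0 (k : SL(2, F)) : ev F E θ (a0 F k) = kHomE F E k := by
  funext i
  apply Subtype.ext
  ext x y
  show aeval (θ i) (C (k.1 x y)) = algebraMap F (E i) (k.1 x y)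
  exact aeval_C _ _

omit [Fintype F] [DecidableEq F] [Fintype ι] [DecidableEq ι] [∀ i, Fintype (E i)]
  [∀ i, DecidableEq (E i)] in
theorem ev_b0 (u : Multiplicative (F × F)) : ev F E θ (b0 F u) = vHomE F E θ u := by
  funext i
  apply Subtype.ext
  ext x y
  show aeval (θ i) ((b0 F u).1 x y) = (vHomE F E θ u i).1 x y
  have h1 : (b0 F u).1 = !![1, C (Multiplicative.toAdd u).1 + C (Multiplicative.toAdd u).2 * X;
    0, 1] := rfl
  have h2 : (vHomE F E θ u i).1 = !![1, algebraMap F (E i) (Multiplicative.toAdd u).1 +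
    algebraMap F (E i) (Multiplicative.toAdd u).2 * θ i; 0, 1] := rfl
  rw [h1, h2]
  fin_cases x <;> fin_cases y <;> simp

omit [Fintype F] [DecidableEq F] [Fintype ι] [DecidableEq ι] [∀ i, DecidableEq (E i)] in
theorem integral_theta (i : ι) : IsIntegral F (θ i) := by
  have : Module.Finite F (E i) := Module.Finite.of_finite
  exact Algebra.IsIntegral.isIntegral (θ i)

omit [Fintype F] [DecidableEq F] [Fintype ι] [DecidableEq ι] [∀ i, DecidableEq (E i)] in
theorem dvd_of_ev (hinj : Function.Injective (fun i => minpoly F (θ i))) (J : Finset ι)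
    (γ : SL(2, F[X])) (h : ∀ i ∈ J, ev F E θ γ i = 1) (x y : Fin 2) :
    ∏ i ∈ J, minpoly F (θ i) ∣ γ.1 x y - (1 : Matrix (Fin 2) (Fin 2) F[X]) x y := by
  apply Finset.prod_dvd_of_coprime
  · intro i _ i' _ hne
    show IsCoprime (minpoly F (θ i)) (minpoly F (θ i'))
    have h1 := minpoly.irreducible (integral_theta F E θ i)
    have h2 := minpoly.irreducible (integral_theta F E θ i')
    rcases h1.isCoprime_or_dvd (minpoly F (θ i')) with h3 | h3
    · exact h3
    · exfalso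
      have h4 := h1.associated_of_dvd h2 h3
      exact hne (hinj (eq_of_monic_of_associated (minpoly.monic (integral_theta F E θ i))
        (minpoly.monic (integral_theta F E θ i')) h4))
  · intro i hi
    apply minpoly.dvd
    rw [map_sub, ← ev_apply F E θ, h i hi]
    show (1 : Matrix (Fin 2) (Fin 2) (E i)) x y - _ = 0
    rw [Matrix.one_apply, Matrix.one_apply]
    split_ifs <;> simp

omit [DecidableEq F] [Fintype ι] [DecidableEq ι] [∀ i, DecidableEq (E i)] in
theorem card_E (hθ : ∀ i, Algebra.adjoin F {θ i} = ⊤) (i : ι) :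
    Fintype.card (E i) = Fintype.card F ^ (minpoly F (θ i)).natDegree := by
  rw [Module.card_eq_pow_finrank (K := F) (V := E i)]
  congr 1
  have h1 := (PowerBasis.ofAdjoinEqTop (integral_theta F E θ i) (hθ i)).finrank
  rw [h1, PowerBasis.ofAdjoinEqTop_dim]

open Classical in
theorem mass_eq (l : ℕ) (J : Finset ι) : ∃ T : Finset SL(2, F[X]),
    (∀ γ ∈ T, ∀ i ∈ J, ev F E θ γ i = 1) ∧
    ∑ g ∈ Finset.univ.filter (fun g : (∀ i, SL(2, E i)) => ∀ i ∈ J, g i = 1),
      cpow (wt (kHomE F E) (vHomE F E θ)) (l + 1) g = ∑ γ ∈ T, pw F (l + 1) γ := by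
  refine ⟨(support_finite F (l + 1)).toFinset.filter (fun γ => ∀ i ∈ J, ev F E θ γ i = 1),
    fun γ hγ => (Finset.mem_filter.mp hγ).2, ?_⟩
  have h1 := cpow_ex (kHomE F E) (vHomE F E θ) l
    (fun g => if ∀ i ∈ J, g i = 1 then (1 : ℝ) else 0)
  have h2 := ex_hom (ev F E θ) (a0 F) (b0 F) (l + 1)
    (fun g => if ∀ i ∈ J, g i = 1 then (1 : ℝ) else 0)
  simp only [ev_a0, ev_b0] at h2
  have h3 : ex (⇑(kHomE F E)) (⇑(vHomE F E θ)) (l + 1)
      (fun g => if ∀ i ∈ J, g i = 1 then (1 : ℝ) else 0) =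
      ∑' γ, pw F (l + 1) γ * (if ∀ i ∈ J, ev F E θ γ i = 1 then (1 : ℝ) else 0) := by
    rw [← ex_pw]
    exact h2.symm
  rw [h3] at h1
  rw [Finset.sum_filter, Finset.sum_filter]
  rw [tsum_eq_sum (s := (support_finite F (l + 1)).toFinset)] at h1
  · simp only [mul_ite, mul_one, mul_zero] at h1
    exact h1
  · intro γ hγ
    rw [Set.Finite.mem_toFinset, Function.mem_support, not_not] at hγ
    rw [hγ, zero_mul]

end final

end FFx

/-- FF. The angle in the function field case. -/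
theorem angle_ffE : ∃ q₀ : ℕ, ∀ (F : Type) [Field F] [Fintype F] [DecidableEq F],
    q₀ ≤ Fintype.card F → ∀ (ι : Type) [Fintype ι] [DecidableEq ι] (E : ι → Type)
      [∀ i, Field (E i)] [∀ i, Fintype (E i)] [∀ i, DecidableEq (E i)] [∀ i, Algebra F (E i)]
      (θ : ∀ i, E i), (∀ i, Algebra.adjoin F {θ i} = ⊤) →
      Function.Injective (fun i => minpoly F (θ i)) →
      Angle (vHomE F E θ) (kHomE F E) (1 / 4) := by
  refine ⟨2 ^ 23, ?_⟩
  intro F _ _ _ hq ι _ _ E _ _ _ _ θ hθ hinj f hf hinv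
  have hip : ∀ f : (∀ i, SL(2, E i)) → ℂ,
      (ip f (cv (FFx.wt (kHomE F E) (vHomE F E θ)) f)).re =
        sq (avh (vHomE F E θ) (avh (kHomE F E) f)) := by
    intro f
    rw [FFx.cv_wt, ← ip_avh, ip_self_avh_re]
  have hcore := core E (FFx.wt (kHomE F E) (vHomE F E θ)) (FFx.wt_nonneg _ _) (FFx.wt_symm _ _)
    (fun f => by rw [hip]; exact sq_nonneg' _) (1 / 4) (by norm_num) ?_ f hf
  · rw [hip, avh_of_inv _ hinv] at hcore
    exact hcore
  · intro J hJ
    obtain ⟨I, hI⟩ : ∃ I, I = ∏ i ∈ J, minpoly F (θ i) := ⟨_, rfl⟩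
    have hmon : ∀ i ∈ J, (minpoly F (θ i)).Monic := fun i _ =>
      minpoly.monic (FFx.integral_theta F E θ i)
    have hIm : I.Monic := by
      rw [hI]
      exact monic_prod_of_monic _ _ hmon
    have hIdeg : I.natDegree = ∑ i ∈ J, (minpoly F (θ i)).natDegree := by
      rw [hI]
      exact natDegree_prod_of_monic _ _ hmon
    have hdpos : ∀ i, 1 ≤ (minpoly F (θ i)).natDegree := fun i =>
      minpoly.natDegree_pos (FFx.integral_theta F E θ i)
    have hj : 1 ≤ I.natDegree := by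
      obtain ⟨i, hi⟩ := hJ
      rw [hIdeg]
      exact (hdpos i).trans (Finset.single_le_sum (f := fun i => (minpoly F (θ i)).natDegree)
        (fun _ _ => Nat.zero_le _) hi)
    obtain ⟨l, hl⟩ : ∃ l, 3 * I.natDegree = l + 1 := ⟨3 * I.natDegree - 1, by omega⟩
    refine ⟨3 * I.natDegree, ?_⟩
    obtain ⟨T, hT, h1⟩ := FFx.mass_eq F E θ l J
    rw [← hl] at h1
    have hmass := FFx.mass_bound F I hIm hj T (fun γ hγ x y => by
        rw [hI]
        exact FFx.dvd_of_ev F E θ hinj J γ (hT γ hγ) x y)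
    rw [← h1] at hmass
    obtain ⟨Q, hQd⟩ : ∃ Q : ℝ, Q = (Fintype.card F : ℝ) := ⟨_, rfl⟩
    have hQ : (2 : ℝ) ^ 23 ≤ Q := by rw [hQd]; exact_mod_cast hq
    have hQ1 : (1 : ℝ) ≤ Q := le_trans (by norm_num) hQ
    have hS : Q ^ 3 / 2 ≤ (Fintype.card SL(2, F) : ℝ) := by
      have h1 : (Fintype.card SL(2, F) : ℝ) + Q = Q ^ 3 := by
        rw [hQd]
        exact_mod_cast card_sl2 F
      have h2 : (2 : ℝ) ≤ Q ^ 2 := by
        have : (2 : ℝ) ≤ Q := le_trans (by norm_num) hQ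
        nlinarith
      have h3 : Q * 2 ≤ Q * Q ^ 2 := mul_le_mul_of_nonneg_left h2 (by linarith)
      have h4 : Q ^ 3 = Q * Q ^ 2 := by ring
      linarith
    have hfin := FFx.final_num hQ hj hS
    have hprod : (∏ i ∈ J, (Fintype.card SL(2, E i) : ℝ)) ≤ Q ^ (3 * I.natDegree) := by
      calc (∏ i ∈ J, (Fintype.card SL(2, E i) : ℝ))
          ≤ ∏ i ∈ J, Q ^ (3 * (minpoly F (θ i)).natDegree) := by
            refine Finset.prod_le_prod (fun i _ => Nat.cast_nonneg _) fun i _ => ?_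
            have h1 : (Fintype.card SL(2, E i) : ℝ) + (Fintype.card (E i) : ℝ) =
                (Fintype.card (E i) : ℝ) ^ 3 := by exact_mod_cast card_sl2 (E i)
            have h2 : (Fintype.card (E i) : ℝ) = Q ^ (minpoly F (θ i)).natDegree := by
              rw [hQd]
              exact_mod_cast FFx.card_E F E θ hθ i
            have h3 : Q ^ (3 * (minpoly F (θ i)).natDegree) = (Fintype.card (E i) : ℝ) ^ 3 := by
              rw [h2, ← pow_mul, mul_comm]
            rw [h3, ← h1]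
            have : (0 : ℝ) ≤ (Fintype.card (E i) : ℝ) := Nat.cast_nonneg _
            linarith
        _ = Q ^ (3 * I.natDegree) := by
            rw [Finset.prod_pow_eq_pow_sum, ← Finset.mul_sum, hIdeg]
    have hlow : ((Q - 1) / 2) ^ I.natDegree ≤
        ∏ i ∈ J, (((Fintype.card (E i) : ℝ) - 1) / 2) := by
      rw [hIdeg, ← Finset.prod_pow_eq_pow_sum]
      refine Finset.prod_le_prod (fun i _ => pow_nonneg (by linarith) _) fun i _ => ?_
      have h2 : (Fintype.card (E i) : ℝ) = Q ^ (minpoly F (θ i)).natDegree := by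
        rw [hQd]
        exact_mod_cast FFx.card_E F E θ hθ i
      rw [h2]
      obtain ⟨n, hn⟩ : ∃ n, (minpoly F (θ i)).natDegree = n + 1 :=
        ⟨(minpoly F (θ i)).natDegree - 1, by have := hdpos i; omega⟩
      rw [hn]
      have h3 : ∀ n : ℕ, ((Q - 1) / 2) ^ (n + 1) ≤ (Q ^ (n + 1) - 1) / 2 := by
        intro n
        induction n with
        | zero => simp
        | succ n ih =>
          have e1 : (0 : ℝ) ≤ (Q - 1) / 2 := by linarith
          have e2 : (1 : ℝ) ≤ Q ^ (n + 1) := one_le_pow₀ hQ1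
          calc ((Q - 1) / 2) ^ (n + 1 + 1) = ((Q - 1) / 2) ^ (n + 1) * ((Q - 1) / 2) := pow_succ _ _
            _ ≤ (Q ^ (n + 1) - 1) / 2 * ((Q - 1) / 2) := mul_le_mul_of_nonneg_right ih e1
            _ ≤ (Q ^ (n + 1 + 1) - 1) / 2 := by
                rw [pow_succ Q (n + 1)]
                nlinarith
      exact h3 n
    have hmass' : ∑ g ∈ Finset.univ.filter (fun g : (∀ i, SL(2, E i)) => ∀ i ∈ J, g i = 1),
        cpow (FFx.wt (kHomE F E) (vHomE F E θ)) (3 * I.natDegree) g ≤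
        4 ^ (3 * I.natDegree) * (Q ^ (3 * I.natDegree))⁻¹ * ((Fintype.card SL(2, F) : ℝ))⁻¹ *
        ((3 * I.natDegree + 1) * (4 * 16 ^ I.natDegree * Q ^ 3)) := by
      rw [hQd]
      convert hmass using 2
    have hmnn : 0 ≤ 4 ^ (3 * I.natDegree) * (Q ^ (3 * I.natDegree))⁻¹ *
        ((Fintype.card SL(2, F) : ℝ))⁻¹ *
        ((3 * I.natDegree + 1) * (4 * 16 ^ I.natDegree * Q ^ 3)) := by positivity
    have hchain : (∏ i ∈ J, (Fintype.card SL(2, E i) : ℝ)) *
        (∑ g ∈ Finset.univ.filter (fun g : (∀ i, SL(2, E i)) => ∀ i ∈ J, g i = 1),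
          cpow (FFx.wt (kHomE F E) (vHomE F E θ)) (3 * I.natDegree) g) <
        (1 / 4) ^ (3 * I.natDegree) * ∏ i ∈ J, (((Fintype.card (E i) : ℝ) - 1) / 2) := by
      calc _ ≤ (∏ i ∈ J, (Fintype.card SL(2, E i) : ℝ)) * _ :=
            mul_le_mul_of_nonneg_left hmass' (Finset.prod_nonneg fun i _ => Nat.cast_nonneg _)
        _ ≤ Q ^ (3 * I.natDegree) * _ := mul_le_mul_of_nonneg_right hprod hmnn
        _ < _ := hfin
        _ ≤ _ := mul_le_mul_of_nonneg_left hlow (by positivity)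
    convert hchain using 3

end Pool.Agent.MPfe8e9b
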