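import Mathlib
import Pool.Agent.Lib.MP_fe8e9b_al.Defs

/-!
# MP_fe8e9b_al: special case `E i = F` of the function field angle
-/

open scoped BigOperators MatrixGroups Pointwise

namespace Pool.Agent.MPfe8e9b

open Polynomial

/-- FFS. Special case. -/
theorem angle_ff
    (h : ∃ q₀ : ℕ, ∀ (F : Type) [Field F] [Fintype F] [DecidableEq F],
    q₀ ≤ Fintype.card F → ∀ (ι : Type) [Fintype ι] [DecidableEq ι] (E : ι → Type)
      [∀ i, Field (E i)] [∀ i, Fintype (E i)] [∀ i, DecidableEq (E i)] [∀ i, Algebra F (E i)]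
      (θ : ∀ i, E i), (∀ i, Algebra.adjoin F {θ i} = ⊤) →
      Function.Injective (fun i => minpoly F (θ i)) →
      Angle (vHomE F E θ) (kHomE F E) (1 / 4)) :
    ∃ q₀ : ℕ, ∀ (F : Type) [Field F] [Fintype F] [DecidableEq F],
    q₀ ≤ Fintype.card F → Angle (vHom F) (constHom F SL(2, F)) (1 / 4) := by
  obtain ⟨q₀, h⟩ := h
  refine ⟨q₀, ?_⟩
  intro F _ _ _ hq
  have h1 := h F hq F (fun _ => F) (fun a => a) (fun a => by
    rw [eq_top_iff]
    intro x _
    exact Subalgebra.algebraMap_mem _ x) (by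
    intro a b hab
    simp only at hab
    rw [minpoly.eq_X_sub_C', minpoly.eq_X_sub_C'] at hab
    simpa using hab)
  have e1 : vHomE F (fun _ : F => F) (fun a => a) = vHom F := by
    ext u a
    rfl
  have e2 : kHomE F (fun _ : F => F) = constHom F SL(2, F) := by
    ext k a
    rfl
  rwa [e1, e2] at h1

end Pool.Agent.MPfe8e9b
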