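import Mathlib
import Pool.Agent.Lib.MP_fe8e9b_al.Conj
import Pool.Agent.Lib.MP_fe8e9b_al.AnglePi
import Pool.Agent.Lib.MP_fe8e9b_al.FF
import Pool.Agent.Lib.MP_fe8e9b_al.FFS

/-!
# MP_fe8e9b_al: from `SL(2, F i)` to functions `F i → SL(2, F i)`, all finite fields
-/

open scoped BigOperators MatrixGroups Pointwise

namespace Pool.Agent.MPfe8e9b

/-- SQDIFF. -/
theorem sq_diff_field (F : Type*) [Field F] [Fintype F] (h : 7 ≤ Fintype.card F) (c : F) :
    ∃ s t : F, s ≠ 0 ∧ t ≠ 0 ∧ c = s ^ 2 - t ^ 2 := by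
  classical
  by_cases h2 : (2 : F) = 0
  · have hchar : ringChar F = 2 := by
      have h3 : ringChar F ∣ 2 := ringChar.dvd (by exact_mod_cast h2)
      rcases (Nat.dvd_prime Nat.prime_two).mp h3 with h4 | h4
      · exact absurd h4 (CharP.ringChar_ne_one)
      · exact h4
    obtain ⟨x, hx⟩ := FiniteField.isSquare_of_char_two hchar c
    have h3 : ∃ t : F, t ∉ ({0, -x} : Finset F) := by
      by_contra hcon
      push Not at hcon
      have h4 : (Finset.univ : Finset F) ⊆ {0, -x} := fun a _ => hcon a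
      have h5 := Finset.card_le_card h4
      have h6 : ({0, -x} : Finset F).card ≤ 2 := Finset.card_le_two
      rw [Finset.card_univ] at h5
      omega
    obtain ⟨t, ht⟩ := h3
    simp only [Finset.mem_insert, Finset.mem_singleton, not_or] at ht
    refine ⟨x + t, t, ?_, ht.1, ?_⟩
    · intro h4
      exact ht.2 (eq_neg_of_add_eq_zero_right h4)
    · rw [hx]
      linear_combination (-x * t) * h2
  · by_cases hc : c = 0
    · exact ⟨1, 1, one_ne_zero, one_ne_zero, by rw [hc]; ring⟩
    · have h3 : ∃ u : F, u ∉ ({0} ∪ (Polynomial.nthRoots 2 c).toFinset ∪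
          (Polynomial.nthRoots 2 (-c)).toFinset : Finset F) := by
        by_contra hcon
        push Not at hcon
        have h4 : (Finset.univ : Finset F) ⊆ ({0} ∪ (Polynomial.nthRoots 2 c).toFinset ∪
          (Polynomial.nthRoots 2 (-c)).toFinset : Finset F) := fun a _ => hcon a
        have h5 := Finset.card_le_card h4
        have h6 : (Polynomial.nthRoots 2 c).toFinset.card ≤ 2 :=
          (Multiset.toFinset_card_le _).trans (Polynomial.card_nthRoots 2 c)
        have h7 : (Polynomial.nthRoots 2 (-c)).toFinset.card ≤ 2 :=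
          (Multiset.toFinset_card_le _).trans (Polynomial.card_nthRoots 2 (-c))
        have h8 := Finset.card_union_le ({0} ∪ (Polynomial.nthRoots 2 c).toFinset)
          (Polynomial.nthRoots 2 (-c)).toFinset
        have h9 := Finset.card_union_le {0} (Polynomial.nthRoots 2 c).toFinset
        rw [Finset.card_singleton] at h9
        rw [Finset.card_univ] at h5
        omega
      obtain ⟨u, hu⟩ := h3
      simp only [Finset.mem_union, Finset.mem_singleton, Multiset.mem_toFinset,
        Polynomial.mem_nthRoots (n := 2) two_pos, not_or] at hu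
      obtain ⟨⟨hu0, huc⟩, huc'⟩ := hu
      refine ⟨(u + c / u) / 2, (c / u - u) / 2, ?_, ?_, ?_⟩
      · intro h
        apply huc'
        have h' : u + c / u = 0 := by
          rcases div_eq_zero_iff.mp h with h | h
          · exact h
          · exact absurd h h2
        field_simp at h'
        linear_combination h'
      · intro h
        apply huc
        have h' : c / u - u = 0 := by
          rcases div_eq_zero_iff.mp h with h | h
          · exact h
          · exact absurd h h2
        field_simp at h'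
        linear_combination -h'
      · field_simp
        ring

open Base in
/-- BASEF. -/
theorem expd_baseF : ∃ q₀ : ℕ, ∀ (k : ℕ) (κ : ℝ), 0 < κ → ∃ (k' : ℕ) (κ' : ℝ), 0 < κ' ∧
    ∀ (ι : Type) [Fintype ι] [DecidableEq ι] (F : ι → Type) [∀ i, Field (F i)]
      [∀ i, Fintype (F i)] [∀ i, DecidableEq (F i)], (∀ i, q₀ ≤ Fintype.card (F i)) →
      Expd (∀ i, SL(2, F i)) k κ → Expd (∀ i, (F i → SL(2, F i))) k' κ' := by
  obtain ⟨q₁, hq₁⟩ := angle_ff angle_ffE
  refine ⟨max q₁ 7, ?_⟩
  intro k κ hκ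
  have hs : Real.sqrt (1 / 4) < 1 := by
    rw [Real.sqrt_lt' one_pos]
    norm_num
  refine ⟨k + 1, (1 - Real.sqrt (1 / 4)) * min κ 1 / (9 * ((3 : ℕ) + 1) ^ 2), ?_, ?_⟩
  · have h1 : 0 < 1 - Real.sqrt (1 / 4) := by linarith
    have h2 : 0 < min κ 1 := lt_min hκ one_pos
    positivity
  intro ι _ _ F _ _ _ hq hexp
  have hq1 : ∀ i, q₁ ≤ Fintype.card (F i) := fun i => (le_max_left _ _).trans (hq i)
  have hq7 : ∀ i, 7 ≤ Fintype.card (F i) := fun i => (le_max_right _ _).trans (hq i)
  set ψ := piHom (fun i => vHom (F i)) with hψ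
  set φ := piHom (fun i => constHom (F i) SL(2, F i)) with hφ
  have hang : Angle ψ φ (1 / 4) :=
    angle_pi _ _ (by norm_num) fun i => hq₁ (F i) (hq1 i)
  let ξ : ∀ i, (F i → SL(2, F i)) := fun i a => e12 a
  refine expd_conj φ ψ (by norm_num) (by norm_num) hang hκ hexp ξ 3 ?_
  intro u
  choose s t hs0 ht0 hst using fun i => sq_diff_field (F i) (hq7 i)
    (Multiplicative.toAdd (u i)).2
  let D₁ : ∀ i, SL(2, F i) := fun i => dmat (s i) (hs0 i)
  let D₂ : ∀ i, SL(2, F i) := fun i => dmat (t i) (ht0 i)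
  let B : ∀ i, SL(2, F i) := fun i => e12 (Multiplicative.toAdd (u i)).1
  refine ⟨[φ B, φ D₁ * ξ * (φ D₁)⁻¹, φ D₂ * ξ⁻¹ * (φ D₂)⁻¹], by simp, ?_, ?_⟩
  · simp only [List.prod_cons, List.prod_nil, mul_one]
    funext i a
    show e12 (Multiplicative.toAdd (u i)).1 *
          ((dmat (s i) (hs0 i) * e12 a * (dmat (s i) (hs0 i))⁻¹) *
           (dmat (t i) (ht0 i) * (e12 a)⁻¹ * (dmat (t i) (ht0 i))⁻¹)) =
      e12 ((Multiplicative.toAdd (u i)).1 + (Multiplicative.toAdd (u i)).2 * a)
    rw [← e12_neg, dmat_conj, dmat_conj, ← e12_add, ← e12_add, hst i]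
    congr 1
    ring
  · intro x hx
    simp only [List.mem_cons, List.not_mem_nil, or_false] at hx
    rcases hx with hx | hx | hx
    · exact ⟨B, Or.inl hx⟩
    · exact ⟨D₁, Or.inr (Or.inl hx)⟩
    · exact ⟨D₂, Or.inr (Or.inr hx)⟩

end Pool.Agent.MPfe8e9b
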