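import Mathlib

/-!
# Numerical inequality for the number field case
-/

open scoped BigOperators

namespace Pool.Agent.MPfe8e9b

namespace NumH33

theorem sum_bound (n : ℕ) (a b : ℝ) (ha : 0 < a) (hb : 0 < b) :
    ∑ j ∈ Finset.range (n + 1), ((2 * n).choose j : ℝ) * a ^ j * b ^ (n - j) ≤
      (b * (a / b + 1) ^ 2) ^ n := by
  have h1 : ∀ j ∈ Finset.range (n + 1), ((2 * n).choose j : ℝ) * a ^ j * b ^ (n - j) =
      b ^ n * ((a / b) ^ j * 1 ^ (2 * n - j) * ((2 * n).choose j : ℝ)) := by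
    intro j hj
    rw [Finset.mem_range] at hj
    have h2 : b ^ n = b ^ (n - j) * b ^ j := by
      rw [← pow_add]
      congr 1
      omega
    rw [h2, div_pow, one_pow]
    field_simp
  rw [Finset.sum_congr rfl h1, ← Finset.mul_sum, mul_pow, ← pow_mul]
  apply mul_le_mul_of_nonneg_left _ (by positivity)
  rw [add_pow (a / b) 1 (2 * n)]
  apply Finset.sum_le_sum_of_subset_of_nonneg
  · intro i hi
    rw [Finset.mem_range] at hi ⊢
    omega
  · intro i _ _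
    positivity

theorem lhs_bound (C : ℝ) (hC : 1 ≤ C) (N : ℝ) (hN : 1 ≤ N) (n : ℕ) :
    N ^ 3 * ((36 : ℝ) ^ n)⁻¹ * ∑ j ∈ Finset.range (n + 1),
      ((2 * n).choose j : ℝ) * 6 ^ j *
        ((2 * 5 ^ (n - j) / N ^ 2 + 1) * (2 * 5 ^ (n - j) / N + 1) *
          (C * ((25 : ℝ) ^ (n - j)) ^ ((1 : ℝ) / 100))) ≤
      C * ((25 : ℝ) ^ n) ^ ((1 : ℝ) / 100) *
        (4 * (961 / 900 : ℝ) ^ n + 5 * (N ^ 3 * (121 / 180 : ℝ) ^ n)) := by
  set E : ℝ := ((25 : ℝ) ^ n) ^ ((1 : ℝ) / 100) with hE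
  have hE0 : 0 < E := by positivity
  have hN0 : 0 < N := by linarith
  have hterm : ∀ j ∈ Finset.range (n + 1), ((2 * n).choose j : ℝ) * 6 ^ j *
        ((2 * 5 ^ (n - j) / N ^ 2 + 1) * (2 * 5 ^ (n - j) / N + 1) *
          (C * ((25 : ℝ) ^ (n - j)) ^ ((1 : ℝ) / 100))) ≤
        C * E * (4 / N ^ 3 * (((2 * n).choose j : ℝ) * 6 ^ j * 25 ^ (n - j)) +
          5 * (((2 * n).choose j : ℝ) * 6 ^ j * 5 ^ (n - j))) := by
    intro j hj
    have h1 : ((25 : ℝ) ^ (n - j)) ^ ((1 : ℝ) / 100) ≤ E := by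
      rw [hE]
      apply Real.rpow_le_rpow (by positivity) _ (by norm_num)
      exact pow_le_pow_right₀ (by norm_num) (Nat.sub_le _ _)
    set x : ℝ := 5 ^ (n - j) with hx
    have hx1 : 1 ≤ x := one_le_pow₀ (by norm_num)
    have hx2 : (25 : ℝ) ^ (n - j) = x ^ 2 := by
      rw [hx, ← pow_mul, mul_comm (n - j) 2, pow_mul]
      norm_num
    have h2 : (2 * x / N ^ 2 + 1) * (2 * x / N + 1) ≤ 4 / N ^ 3 * x ^ 2 + 5 * x := by
      have e1 : (2 * x / N ^ 2 + 1) * (2 * x / N + 1) =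
          4 / N ^ 3 * x ^ 2 + (2 * x / N ^ 2 + 2 * x / N + 1) := by
        field_simp
        ring
      have e2 : 2 * x / N ^ 2 ≤ 2 * x := div_le_self (by linarith) (one_le_pow₀ hN)
      have e3 : 2 * x / N ≤ 2 * x := div_le_self (by linarith) hN
      rw [e1]
      linarith
    have h3 : 0 ≤ (2 * x / N ^ 2 + 1) * (2 * x / N + 1) := by positivity
    calc ((2 * n).choose j : ℝ) * 6 ^ j * ((2 * x / N ^ 2 + 1) * (2 * x / N + 1) *
          (C * ((25 : ℝ) ^ (n - j)) ^ ((1 : ℝ) / 100)))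
        ≤ ((2 * n).choose j : ℝ) * 6 ^ j * ((4 / N ^ 3 * x ^ 2 + 5 * x) * (C * E)) := by
          gcongr
      _ = C * E * (4 / N ^ 3 * (((2 * n).choose j : ℝ) * 6 ^ j * x ^ 2) +
          5 * (((2 * n).choose j : ℝ) * 6 ^ j * x)) := by ring
      _ = _ := by rw [← hx2]
  have hsum := Finset.sum_le_sum hterm
  rw [← Finset.mul_sum, Finset.sum_add_distrib, ← Finset.mul_sum, ← Finset.mul_sum] at hsum
  have hs1 := sum_bound n 6 25 (by norm_num) (by norm_num)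
  have hs2 := sum_bound n 6 5 (by norm_num) (by norm_num)
  have e1 : (25 * ((6 : ℝ) / 25 + 1) ^ 2) = 961 / 25 := by norm_num
  have e2 : (5 * ((6 : ℝ) / 5 + 1) ^ 2) = 121 / 5 := by norm_num
  rw [e1] at hs1
  rw [e2] at hs2
  have h36 : 0 < ((36 : ℝ) ^ n)⁻¹ := by positivity
  calc N ^ 3 * ((36 : ℝ) ^ n)⁻¹ * ∑ j ∈ Finset.range (n + 1),
      ((2 * n).choose j : ℝ) * 6 ^ j *
        ((2 * 5 ^ (n - j) / N ^ 2 + 1) * (2 * 5 ^ (n - j) / N + 1) *
          (C * ((25 : ℝ) ^ (n - j)) ^ ((1 : ℝ) / 100)))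
      ≤ N ^ 3 * ((36 : ℝ) ^ n)⁻¹ * (C * E * (4 / N ^ 3 * (961 / 25) ^ n + 5 * (121 / 5) ^ n)) := by
        gcongr
        refine hsum.trans ?_
        gcongr
    _ = C * E * (4 * ((961 / 25) ^ n * ((36 : ℝ) ^ n)⁻¹) +
          5 * (N ^ 3 * ((121 / 5) ^ n * ((36 : ℝ) ^ n)⁻¹))) := by
        field_simp
    _ = C * E * (4 * (961 / 900 : ℝ) ^ n + 5 * (N ^ 3 * (121 / 180 : ℝ) ^ n)) := by
        rw [← inv_pow, ← mul_pow, ← mul_pow]
        norm_num

theorem log25 : (25 : ℝ) ≤ Real.exp (7 / 2) := by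
  have h1 : Real.log 2 < 0.6931471808 := Real.log_two_lt_d9
  have h2 : (25 : ℝ) ≤ 2 ^ 5 := by norm_num
  have h3 : Real.exp (Real.log 2) = 2 := Real.exp_log (by norm_num)
  calc (25 : ℝ) ≤ 2 ^ 5 := h2
    _ = Real.exp (Real.log 2) ^ 5 := by rw [h3]
    _ = Real.exp (5 * Real.log 2) := by
        rw [← Real.exp_nat_mul]
        norm_num
    _ ≤ Real.exp (7 / 2) := by
        apply Real.exp_le_exp.mpr
        linarith

theorem e1_bound (n : ℕ) : ((25 : ℝ) ^ n) ^ ((1 : ℝ) / 100) * (961 / 900 : ℝ) ^ n ≤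
    Real.exp (103 / 1000 * n) := by
  have h1 : ((25 : ℝ) ^ n) ^ ((1 : ℝ) / 100) ≤ Real.exp (35 / 1000 * n) := by
    have h2 : (25 : ℝ) ^ n ≤ Real.exp (7 / 2 * n) := by
      calc (25 : ℝ) ^ n ≤ Real.exp (7 / 2) ^ n := pow_le_pow_left₀ (by norm_num) log25 n
        _ = Real.exp (7 / 2 * n) := by
          rw [← Real.exp_nat_mul]
          congr 1
          ring
    calc ((25 : ℝ) ^ n) ^ ((1 : ℝ) / 100) ≤ (Real.exp (7 / 2 * n)) ^ ((1 : ℝ) / 100) :=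
          Real.rpow_le_rpow (by positivity) h2 (by norm_num)
      _ = Real.exp (35 / 1000 * n) := by
          rw [← Real.exp_mul]
          congr 1
          ring
  have h3 : (961 / 900 : ℝ) ^ n ≤ Real.exp (68 / 1000 * n) := by
    have h4 : (961 / 900 : ℝ) ≤ Real.exp (68 / 1000) := by
      have := Real.add_one_le_exp (68 / 1000 : ℝ)
      refine le_trans ?_ this
      norm_num
    calc (961 / 900 : ℝ) ^ n ≤ Real.exp (68 / 1000) ^ n := pow_le_pow_left₀ (by norm_num) h4 n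
      _ = Real.exp (68 / 1000 * n) := by
        rw [← Real.exp_nat_mul]
        congr 1
        ring
  calc ((25 : ℝ) ^ n) ^ ((1 : ℝ) / 100) * (961 / 900 : ℝ) ^ n
      ≤ Real.exp (35 / 1000 * n) * Real.exp (68 / 1000 * n) := by gcongr
    _ = Real.exp (103 / 1000 * n) := by
        rw [← Real.exp_add]
        congr 1
        ring

theorem e2_bound (n : ℕ) : (121 / 180 : ℝ) ^ n ≤ Real.exp (-(3 / 8) * n) := by
  have h1 : Real.exp (3 / 8) ≤ 180 / 121 := by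
    have h2 : Real.exp (3 / 8) ^ 8 ≤ (180 / 121 : ℝ) ^ 8 := by
      rw [← Real.exp_nat_mul]
      have h3 : ((8 : ℕ) : ℝ) * (3 / 8) = ((3 : ℕ) : ℝ) * 1 := by norm_num
      rw [h3, Real.exp_nat_mul]
      have h4 := Real.exp_one_lt_d9
      have h5 : Real.exp 1 ≤ 2.72 := by linarith
      calc Real.exp 1 ^ 3 ≤ (2.72 : ℝ) ^ 3 := pow_le_pow_left₀ (Real.exp_pos _).le h5 3
        _ ≤ (180 / 121 : ℝ) ^ 8 := by norm_num
    exact (pow_le_pow_iff_left₀ (Real.exp_pos _).le (by norm_num) (by norm_num)).mp h2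
  have h2 : (121 / 180 : ℝ) ≤ Real.exp (-(3 / 8)) := by
    rw [Real.exp_neg, le_inv_comm₀ (by norm_num) (Real.exp_pos _)]
    refine h1.trans ?_
    norm_num
  calc (121 / 180 : ℝ) ^ n ≤ Real.exp (-(3 / 8)) ^ n := pow_le_pow_left₀ (by norm_num) h2 n
    _ = Real.exp (-(3 / 8) * n) := by
      rw [← Real.exp_nat_mul]
      congr 1
      ring

theorem e3_bound (l : ℕ) : Real.exp (-(1 / 49) * l) ≤ (49 / 50 : ℝ) ^ l := by
  have h1 : Real.exp (-(1 / 49)) ≤ 49 / 50 := by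
    rw [Real.exp_neg, inv_le_comm₀ (Real.exp_pos _) (by norm_num)]
    have := Real.add_one_le_exp (1 / 49 : ℝ)
    refine le_trans ?_ this
    norm_num
  calc Real.exp (-(1 / 49) * l) = Real.exp (-(1 / 49)) ^ l := by
        rw [← Real.exp_nat_mul]
        congr 1
        ring
    _ ≤ (49 / 50 : ℝ) ^ l := pow_le_pow_left₀ (Real.exp_pos _).le h1 l

end NumH33

open NumH33

theorem nf_num (C : ℝ) (hC : 1 ≤ C) : ∃ p₀ : ℕ, ∀ N : ℕ, p₀ ≤ N → ∃ l : ℕ,
    (N : ℝ) ^ 3 * ((36 : ℝ) ^ (2 * l))⁻¹ * ∑ j ∈ Finset.range (2 * l + 1),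
      ((4 * l).choose j : ℝ) * 6 ^ j *
        ((2 * 5 ^ (2 * l - j) / (N : ℝ) ^ 2 + 1) * (2 * 5 ^ (2 * l - j) / (N : ℝ) + 1) *
          (C * ((25 : ℝ) ^ (2 * l - j)) ^ ((1 : ℝ) / 100))) <
      (49 / 50 : ℝ) ^ l * (N : ℝ) ^ ((19 : ℝ) / 20) := by
  set L₀ : ℝ := (Real.log (9 * C) + 1) / 0.044 with hL₀
  have hlogC : 0 ≤ Real.log (9 * C) := Real.log_nonneg (by linarith)
  have hL₀0 : 0 ≤ L₀ := by positivity
  refine ⟨⌈Real.exp L₀⌉₊, fun N hN => ?_⟩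
  have hN1 : Real.exp L₀ ≤ N := (Nat.le_ceil _).trans (by exact_mod_cast hN)
  have hN2 : (1 : ℝ) ≤ N := (Real.one_le_exp hL₀0).trans hN1
  have hN0 : (0 : ℝ) < N := by linarith
  set L : ℝ := Real.log N with hL
  have hLL : L₀ ≤ L := (Real.le_log_iff_exp_le hN0).mpr hN1
  have hexpL : Real.exp L = N := Real.exp_log hN0
  set l : ℕ := ⌈4 * L⌉₊ with hl
  have hl1 : 4 * L ≤ l := Nat.le_ceil _
  have hl2 : (l : ℝ) ≤ 4 * L + 1 := (Nat.ceil_lt_add_one (by linarith)).le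
  refine ⟨l, ?_⟩
  have h1 := lhs_bound C hC N hN2 (2 * l)
  have e4 : 2 * (2 * l) = 4 * l := by ring
  rw [e4] at h1
  refine lt_of_le_of_lt h1 ?_
  set n : ℕ := 2 * l with hn
  have hnl : (n : ℝ) = 2 * l := by
    rw [hn]
    push_cast
    ring
  have h2 : (N : ℝ) ^ 3 * (121 / 180 : ℝ) ^ n ≤ 1 := by
    calc (N : ℝ) ^ 3 * (121 / 180 : ℝ) ^ n ≤ Real.exp L ^ 3 * Real.exp (-(3 / 8) * n) := by
          rw [hexpL]
          gcongr
          exact e2_bound n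
      _ = Real.exp (3 * L + -(3 / 8) * n) := by
          rw [← Real.exp_nat_mul, ← Real.exp_add]
          norm_num
      _ ≤ 1 := by
          rw [Real.exp_le_one_iff, hnl]
          linarith
  have h3 : (1 : ℝ) ≤ (961 / 900 : ℝ) ^ n := one_le_pow₀ (by norm_num)
  have h4 : C * ((25 : ℝ) ^ n) ^ ((1 : ℝ) / 100) *
        (4 * (961 / 900 : ℝ) ^ n + 5 * (N ^ 3 * (121 / 180 : ℝ) ^ n)) ≤
      9 * C * Real.exp (103 / 1000 * n) := by
    calc C * ((25 : ℝ) ^ n) ^ ((1 : ℝ) / 100) *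
        (4 * (961 / 900 : ℝ) ^ n + 5 * (N ^ 3 * (121 / 180 : ℝ) ^ n))
        ≤ C * ((25 : ℝ) ^ n) ^ ((1 : ℝ) / 100) * (9 * (961 / 900 : ℝ) ^ n) := by
          gcongr
          linarith
      _ = 9 * C * (((25 : ℝ) ^ n) ^ ((1 : ℝ) / 100) * (961 / 900 : ℝ) ^ n) := by ring
      _ ≤ 9 * C * Real.exp (103 / 1000 * n) := by
          gcongr
          exact e1_bound n
  refine lt_of_le_of_lt h4 ?_
  have h5 : Real.exp (Real.log (9 * C)) = 9 * C := Real.exp_log (by linarith)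
  have h6 : (N : ℝ) ^ ((19 : ℝ) / 20) = Real.exp (L * (19 / 20)) := by
    rw [Real.exp_mul, hexpL]
  rw [← h5, ← Real.exp_add, h6]
  have h7 : Real.log (9 * C) + 1 ≤ 0.044 * L := by
    have : L₀ * 0.044 = Real.log (9 * C) + 1 := by
      rw [hL₀]
      field_simp
    nlinarith
  calc Real.exp (Real.log (9 * C) + 103 / 1000 * n)
      < Real.exp (-(1 / 49) * l + L * (19 / 20)) := by
        apply Real.exp_lt_exp.mpr
        rw [hnl]
        have hLn : 0 ≤ L := hL₀0.trans hLL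
        norm_num at h7 ⊢
        linarith
    _ = Real.exp (-(1 / 49) * l) * Real.exp (L * (19 / 20)) := Real.exp_add _ _
    _ ≤ (49 / 50 : ℝ) ^ l * Real.exp (L * (19 / 20)) := by
        gcongr
        exact e3_bound l

end Pool.Agent.MPfe8e9b
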