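import Mathlib.Algebra.Quaternion
import Mathlib.Analysis.SpecialFunctions.Pow.Real
import Mathlib.RingTheory.Coprime.Lemmas
import Mathlib.RingTheory.Int.Basic
import Mathlib.Data.Int.Interval
import Mathlib.Tactic.LinearCombination

/-!
# Quaternions of norm `25^m` congruent to `5^m` modulo `N`
-/

set_option autoImplicit false

open scoped BigOperators

namespace Pool.Agent.MPfe8e9b

namespace QCount

theorem comp (N m : ℕ) (β : Quaternion ℤ)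
    (h : ∃ δ : Quaternion ℤ, β = 5 ^ m + (N : Quaternion ℤ) * δ) :
    ∃ a b c d : ℤ, β.re = 5 ^ m + N * a ∧ β.imI = N * b ∧ β.imJ = N * c ∧ β.imK = N * d := by
  obtain ⟨δ, rfl⟩ := h
  obtain ⟨k, hk⟩ : ∃ k : ℤ, k = 5 ^ m := ⟨_, rfl⟩
  have h5 : (5 : Quaternion ℤ) ^ m = (k : Quaternion ℤ) := by
    rw [hk]
    push_cast
    rfl
  rw [h5, ← hk]
  refine ⟨δ.re, δ.imI, δ.imJ, δ.imK, ?_, ?_, ?_, ?_⟩ <;>
    simp

end QCount

theorem quat_count (ε C : ℝ) (hε : 0 < ε) (hC : 1 ≤ C)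
    (h2 : ∀ n : ℕ, 1 ≤ n → ∀ T : Finset (ℤ × ℤ), (∀ x ∈ T, x.1 ^ 2 + x.2 ^ 2 = (n : ℤ)) →
      (T.card : ℝ) ≤ C * (n : ℝ) ^ ε)
    (N m : ℕ) (hN : N.Coprime 10) (T : Finset (Quaternion ℤ))
    (hT : ∀ β ∈ T, Quaternion.normSq β = 25 ^ m ∧ ∃ δ : Quaternion ℤ, β = 5 ^ m + (N : Quaternion ℤ) * δ) :
    (T.card : ℝ) ≤ (2 * 5 ^ m / (N : ℝ) ^ 2 + 1) * (2 * 5 ^ m / (N : ℝ) + 1) *
      (C * ((25 : ℝ) ^ m) ^ ε) := by
  classical
  have hN0 : 0 < N := by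
    rcases Nat.eq_zero_or_pos N with h | h
    · subst h
      norm_num at hN
    · exact h
  have hNZ : (0 : ℤ) < N := by exact_mod_cast hN0
  have hNZ2 : (0 : ℤ) < (N : ℤ) ^ 2 := by positivity
  have h5pos : (0 : ℤ) < 5 ^ m := by positivity
  have h25 : (25 : ℤ) ^ m = (5 ^ m) ^ 2 := by
    rw [← pow_mul, mul_comm, pow_mul]
    norm_num
  -- norms
  have hnorm : ∀ β ∈ T, β.re ^ 2 + β.imI ^ 2 + β.imJ ^ 2 + β.imK ^ 2 = ((5 : ℤ) ^ m) ^ 2 := by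
    intro β hβ
    have h := (hT β hβ).1
    rw [Quaternion.normSq_def'] at h
    rw [← h25]
    exact h
  -- `N ^ 2` divides `5 ^ m - a`
  have hdvd : ∀ β ∈ T, (N : ℤ) ^ 2 ∣ 5 ^ m - β.re := by
    intro β hβ
    obtain ⟨a, b, c, d, ha, hb, hc, hd⟩ := QCount.comp N m β (hT β hβ).2
    have h1 := hnorm β hβ
    have h3 : (N : ℤ) ^ 2 ∣ (5 ^ m + β.re) * (5 ^ m - β.re) := by
      refine ⟨b ^ 2 + c ^ 2 + d ^ 2, ?_⟩
      rw [hb, hc, hd] at h1
      linear_combination (-1 : ℤ) * h1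
    have h4 : IsCoprime ((N : ℤ) ^ 2) (5 ^ m + β.re) := by
      apply IsCoprime.pow_left
      have h5 : IsCoprime (N : ℤ) 10 := by
        have := Nat.isCoprime_iff_coprime.2 hN
        exact_mod_cast this
      have h6 : IsCoprime (N : ℤ) (2 * 5 ^ m) := by
        apply IsCoprime.mul_right
        · exact h5.of_isCoprime_of_dvd_right (by norm_num)
        · exact (h5.of_isCoprime_of_dvd_right (by norm_num)).pow_right
      have h7 : 5 ^ m + β.re = 2 * 5 ^ m + (N : ℤ) * a := by rw [ha]; ring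
      rw [h7]
      exact IsCoprime.add_mul_left_right h6 a
    exact h4.dvd_of_dvd_mul_left h3
  set φ : Quaternion ℤ → ℤ × ℤ := fun β => ((5 ^ m - β.re) / (N : ℤ) ^ 2, β.imI / (N : ℤ)) with hφ
  set U : Finset (ℤ × ℤ) := Finset.Icc (0 : ℤ) (2 * 5 ^ m / (N : ℤ) ^ 2) ×ˢ
    Finset.Icc (-(5 ^ m / (N : ℤ))) (5 ^ m / (N : ℤ)) with hU
  have himg : T.image φ ⊆ U := by
    intro y hy
    obtain ⟨β, hβ, rfl⟩ := Finset.mem_image.1 hy
    have h1 := hnorm β hβ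
    have h3 : |β.re| ≤ 5 ^ m := by
      apply abs_le_of_sq_le_sq _ h5pos.le
      nlinarith [sq_nonneg β.imI, sq_nonneg β.imJ, sq_nonneg β.imK]
    have h4 : |β.imI| ≤ 5 ^ m := by
      apply abs_le_of_sq_le_sq _ h5pos.le
      nlinarith [sq_nonneg β.re, sq_nonneg β.imJ, sq_nonneg β.imK]
    rw [abs_le] at h3 h4
    obtain ⟨a, b, c, d, ha, hb, hc, hd⟩ := QCount.comp N m β (hT β hβ).2
    rw [hU, Finset.mem_product, Finset.mem_Icc, Finset.mem_Icc]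
    simp only [hφ]
    refine ⟨⟨Int.ediv_nonneg (by linarith) hNZ2.le, Int.ediv_le_ediv hNZ2 (by linarith)⟩, ?_, ?_⟩
    · rw [hb, Int.mul_ediv_cancel_left _ hNZ.ne', neg_le, Int.le_ediv_iff_mul_le hNZ]
      rw [hb] at h4
      linarith
    · exact Int.ediv_le_ediv hNZ h4.2
  have hfib : ∀ y ∈ T.image φ, ((T.filter (fun β => φ β = y)).card : ℝ) ≤
      C * ((25 : ℝ) ^ m) ^ ε := by
    intro y hy
    obtain ⟨β0, hβ0, hy0⟩ := Finset.mem_image.1 hy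
    have h1le : (1 : ℝ) ≤ ((25 : ℝ) ^ m) ^ ε :=
      Real.one_le_rpow (one_le_pow₀ (by norm_num)) hε.le
    obtain ⟨a0, b0, c0, d0, ha0, hb0, hc0, hd0⟩ := QCount.comp N m β0 (hT β0 hβ0).2
    -- the fibre
    have hsame : ∀ β ∈ T.filter (fun β => φ β = y), β.re = β0.re ∧ β.imI = β0.imI := by
      intro β hβ
      obtain ⟨hβT, hβy⟩ := Finset.mem_filter.1 hβ
      rw [← hy0] at hβy
      simp only [hφ, Prod.mk.injEq] at hβy
      obtain ⟨e1, e2⟩ := hβy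
      constructor
      · have e3 : 5 ^ m - β.re = 5 ^ m - β0.re := by
          rw [← Int.ediv_mul_cancel (hdvd β hβT), ← Int.ediv_mul_cancel (hdvd β0 hβ0), e1]
        linarith
      · obtain ⟨a, b, c, d, ha, hb, hc, hd⟩ := QCount.comp N m β (hT β hβT).2
        rw [← Int.ediv_mul_cancel (⟨b, hb⟩ : (N : ℤ) ∣ β.imI),
          ← Int.ediv_mul_cancel (⟨b0, hb0⟩ : (N : ℤ) ∣ β0.imI), e2]
    set S := (T.filter (fun β => φ β = y)).image
      (fun β => (β.imJ / (N : ℤ), β.imK / (N : ℤ))) with hS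
    have hcard : S.card = (T.filter (fun β => φ β = y)).card := by
      apply Finset.card_image_of_injOn
      intro β hβ γ hγ hβγ
      have hβ' := Finset.mem_coe.1 hβ
      have hγ' := Finset.mem_coe.1 hγ
      simp only [Prod.mk.injEq] at hβγ
      obtain ⟨a, b, c, d, ha, hb, hc, hd⟩ := QCount.comp N m β (hT β (Finset.mem_filter.1 hβ').1).2
      obtain ⟨a', b', c', d', ha', hb', hc', hd'⟩ :=
        QCount.comp N m γ (hT γ (Finset.mem_filter.1 hγ').1).2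
      apply Quaternion.ext
      · rw [(hsame β hβ').1, (hsame γ hγ').1]
      · rw [(hsame β hβ').2, (hsame γ hγ').2]
      · rw [← Int.ediv_mul_cancel (⟨c, hc⟩ : (N : ℤ) ∣ β.imJ),
          ← Int.ediv_mul_cancel (⟨c', hc'⟩ : (N : ℤ) ∣ γ.imJ), hβγ.1]
      · rw [← Int.ediv_mul_cancel (⟨d, hd⟩ : (N : ℤ) ∣ β.imK),
          ← Int.ediv_mul_cancel (⟨d', hd'⟩ : (N : ℤ) ∣ γ.imK), hβγ.2]
    have hSsq : ∀ z ∈ S, z.1 ^ 2 + z.2 ^ 2 = c0 ^ 2 + d0 ^ 2 := by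
      intro z hz
      obtain ⟨β, hβ, rfl⟩ := Finset.mem_image.1 hz
      obtain ⟨hβT, _⟩ := Finset.mem_filter.1 hβ
      obtain ⟨a, b, c, d, ha, hb, hc, hd⟩ := QCount.comp N m β (hT β hβT).2
      dsimp only
      rw [hc, hd, Int.mul_ediv_cancel_left _ hNZ.ne', Int.mul_ediv_cancel_left _ hNZ.ne']
      have e1 := hnorm β hβT
      have e2 := hnorm β0 hβ0
      rw [(hsame β hβ).1, (hsame β hβ).2, hc, hd] at e1
      rw [hc0, hd0] at e2
      have e3 : (N : ℤ) ^ 2 * (c ^ 2 + d ^ 2) = (N : ℤ) ^ 2 * (c0 ^ 2 + d0 ^ 2) := by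
        linear_combination e1 - e2
      exact mul_left_cancel₀ hNZ2.ne' e3
    rw [← hcard]
    obtain ⟨n', hn'⟩ : ∃ n' : ℕ, (n' : ℤ) = c0 ^ 2 + d0 ^ 2 :=
      ⟨(c0 ^ 2 + d0 ^ 2).toNat, Int.toNat_of_nonneg (by positivity)⟩
    rcases Nat.eq_zero_or_pos n' with h0 | hpos
    · have hS0 : S ⊆ {((0 : ℤ), (0 : ℤ))} := by
        intro z hz
        have e1 := hSsq z hz
        rw [← hn', h0] at e1
        push_cast at e1
        have e2 : z.1 = 0 := by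
          have : z.1 ^ 2 = 0 := by nlinarith [sq_nonneg z.1, sq_nonneg z.2]
          exact pow_eq_zero_iff (two_ne_zero) |>.1 this
        have e3 : z.2 = 0 := by
          have : z.2 ^ 2 = 0 := by nlinarith [sq_nonneg z.1, sq_nonneg z.2]
          exact pow_eq_zero_iff (two_ne_zero) |>.1 this
        rw [Finset.mem_singleton]
        exact Prod.ext e2 e3
      have hle : (S.card : ℝ) ≤ 1 := by
        have := Finset.card_le_card hS0
        rw [Finset.card_singleton] at this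
        exact_mod_cast this
      have : (1 : ℝ) * 1 ≤ C * ((25 : ℝ) ^ m) ^ ε := mul_le_mul hC h1le (by norm_num) (by linarith)
      linarith
    · have hb := h2 n' hpos S (fun z hz => by rw [hSsq z hz, hn'])
      have hn25 : (n' : ℝ) ≤ (25 : ℝ) ^ m := by
        have e2 := hnorm β0 hβ0
        rw [hc0, hd0, ← h25] at e2
        have e4 : (1 : ℤ) ≤ (N : ℤ) ^ 2 := hNZ2
        have e5 : (n' : ℤ) ≤ (25 : ℤ) ^ m := by
          rw [hn', ← e2]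
          have e6 : (0 : ℤ) ≤ c0 ^ 2 + d0 ^ 2 := by positivity
          nlinarith [mul_le_mul_of_nonneg_right e4 e6, sq_nonneg β0.re, sq_nonneg β0.imI]
        exact_mod_cast e5
      refine hb.trans (mul_le_mul_of_nonneg_left ?_ (by linarith))
      exact Real.rpow_le_rpow (Nat.cast_nonneg _) hn25 hε.le
  have hUcard : (U.card : ℝ) ≤ (2 * 5 ^ m / (N : ℝ) ^ 2 + 1) * (2 * 5 ^ m / (N : ℝ) + 1) := by
    rw [hU, Finset.card_product, Int.card_Icc, Int.card_Icc, Nat.cast_mul]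
    have hx : (0 : ℤ) ≤ 2 * 5 ^ m / (N : ℤ) ^ 2 := Int.ediv_nonneg (by positivity) hNZ2.le
    have hy : (0 : ℤ) ≤ 5 ^ m / (N : ℤ) := Int.ediv_nonneg (by positivity) hNZ.le
    have c1 : (((2 * 5 ^ m / (N : ℤ) ^ 2 + 1 - 0).toNat : ℕ) : ℝ) ≤ 2 * 5 ^ m / (N : ℝ) ^ 2 + 1 := by
      have e1 : (((2 * 5 ^ m / (N : ℤ) ^ 2 + 1 - 0).toNat : ℕ) : ℤ) = 2 * 5 ^ m / (N : ℤ) ^ 2 + 1 := by
        rw [Int.toNat_of_nonneg (by linarith)]
        ring
      have e2 : (((2 * 5 ^ m / (N : ℤ) ^ 2 + 1 - 0).toNat : ℕ) : ℝ) =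
          ((2 * 5 ^ m / (N : ℤ) ^ 2 : ℤ) : ℝ) + 1 := by exact_mod_cast e1
      rw [e2]
      have e3 : ((2 * 5 ^ m / (N : ℤ) ^ 2 : ℤ) : ℝ) ≤ ((2 * 5 ^ m : ℤ) : ℝ) / (((N : ℤ) ^ 2 : ℤ) : ℝ) := by
        rw [le_div_iff₀ (by exact_mod_cast hNZ2)]
        rw [← Int.cast_mul]
        exact Int.cast_le.2 (Int.ediv_mul_le _ hNZ2.ne')
      push_cast at e3
      linarith
    have c2 : (((5 ^ m / (N : ℤ) + 1 - -(5 ^ m / (N : ℤ))).toNat : ℕ) : ℝ) ≤ 2 * 5 ^ m / (N : ℝ) + 1 := by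
      have e1 : (((5 ^ m / (N : ℤ) + 1 - -(5 ^ m / (N : ℤ))).toNat : ℕ) : ℤ) =
          2 * (5 ^ m / (N : ℤ)) + 1 := by
        rw [Int.toNat_of_nonneg (by linarith)]
        ring
      have e2 : (((5 ^ m / (N : ℤ) + 1 - -(5 ^ m / (N : ℤ))).toNat : ℕ) : ℝ) =
          2 * ((5 ^ m / (N : ℤ) : ℤ) : ℝ) + 1 := by exact_mod_cast e1
      rw [e2]
      have e3 : ((5 ^ m / (N : ℤ) : ℤ) : ℝ) ≤ ((5 ^ m : ℤ) : ℝ) / (((N : ℤ) : ℤ) : ℝ) := by
        rw [le_div_iff₀ (by exact_mod_cast hNZ)]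
        rw [← Int.cast_mul]
        exact Int.cast_le.2 (Int.ediv_mul_le _ hNZ.ne')
      push_cast at e3
      have e4 : 2 * (5 : ℝ) ^ m / (N : ℝ) = 2 * (5 ^ m / (N : ℝ)) := by ring
      rw [e4]
      linarith
    exact mul_le_mul c1 c2 (Nat.cast_nonneg _) (by positivity)
  have hCpos : 0 ≤ C * ((25 : ℝ) ^ m) ^ ε := by positivity
  rw [Finset.card_eq_sum_card_image φ T, Nat.cast_sum]
  calc ∑ y ∈ T.image φ, ((T.filter (fun β => φ β = y)).card : ℝ)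
      ≤ ∑ _y ∈ T.image φ, C * ((25 : ℝ) ^ m) ^ ε := Finset.sum_le_sum hfib
    _ = ((T.image φ).card : ℝ) * (C * ((25 : ℝ) ^ m) ^ ε) := by
        rw [Finset.sum_const, nsmul_eq_mul]
    _ ≤ (U.card : ℝ) * (C * ((25 : ℝ) ^ m) ^ ε) := by
        apply mul_le_mul_of_nonneg_right _ hCpos
        exact_mod_cast Finset.card_le_card himg
    _ ≤ _ := mul_le_mul_of_nonneg_right hUcard hCpos

end Pool.Agent.MPfe8e9b
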