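import Mathlib.Algebra.Quaternion
import Mathlib.FieldTheory.Finite.Basic
import Mathlib.LinearAlgebra.Matrix.Determinant.Basic
import Mathlib.Tactic.LinearCombination
import Mathlib.Tactic.FinCases

/-!
# MP_fe8e9b_al: integral quaternions to matrices mod p
-/

namespace Pool.Agent.MPfe8e9b

namespace QHomAux

/-- The matrix of an integral quaternion. -/
def mat {R : Type*} [CommRing R] (x y : R) (α : Quaternion ℤ) : Matrix (Fin 2) (Fin 2) R :=
  !![(α.re : R) + α.imJ * x - α.imK * y, -(α.imI : R) + α.imJ * y + α.imK * x;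
     (α.imI : R) + α.imJ * y + α.imK * x, (α.re : R) - α.imJ * x + α.imK * y]

theorem mat_one {R : Type*} [CommRing R] (x y : R) : mat x y 1 = 1 := by
  have h1 : (1 : Quaternion ℤ).re = 1 := rfl
  have h2 : (1 : Quaternion ℤ).imI = 0 := rfl
  have h3 : (1 : Quaternion ℤ).imJ = 0 := rfl
  have h4 : (1 : Quaternion ℤ).imK = 0 := rfl
  ext i j
  fin_cases i <;> fin_cases j <;> simp [mat, h1, h2, h3, h4]

theorem mat_zero {R : Type*} [CommRing R] (x y : R) : mat x y 0 = 0 := by
  have h1 : (0 : Quaternion ℤ).re = 0 := rfl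
  have h2 : (0 : Quaternion ℤ).imI = 0 := rfl
  have h3 : (0 : Quaternion ℤ).imJ = 0 := rfl
  have h4 : (0 : Quaternion ℤ).imK = 0 := rfl
  ext i j
  fin_cases i <;> fin_cases j <;> simp [mat, h1, h2, h3, h4]

theorem mat_add {R : Type*} [CommRing R] (x y : R) (α β : Quaternion ℤ) :
    mat x y (α + β) = mat x y α + mat x y β := by
  ext i j
  fin_cases i <;> fin_cases j <;> simp [mat] <;> ring

theorem mat_mul {R : Type*} [CommRing R] (x y : R) (h : x ^ 2 + y ^ 2 = -1)
    (α β : Quaternion ℤ) :
    mat x y (α * β) = mat x y α * mat x y β := by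
  ext i j
  fin_cases i <;> fin_cases j <;>
    simp [mat, Matrix.mul_apply, Fin.sum_univ_two]
  · linear_combination (-(α.imJ : R) * β.imJ - α.imK * β.imK) * h
  · linear_combination (-(α.imJ : R) * β.imK + α.imK * β.imJ) * h
  · linear_combination ((α.imJ : R) * β.imK - α.imK * β.imJ) * h
  · linear_combination (-(α.imJ : R) * β.imJ - α.imK * β.imK) * h

/-- The ring homomorphism. -/
def hom {R : Type*} [CommRing R] (x y : R) (h : x ^ 2 + y ^ 2 = -1) :
    Quaternion ℤ →+* Matrix (Fin 2) (Fin 2) R where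
  toFun := mat x y
  map_one' := mat_one x y
  map_mul' := mat_mul x y h
  map_zero' := mat_zero x y
  map_add' := mat_add x y

end QHomAux

theorem quat_hom (p : ℕ) [Fact p.Prime] (hp : p ≠ 2) :
    ∃ φ : Quaternion ℤ →+* Matrix (Fin 2) (Fin 2) (ZMod p),
      (∀ α, (φ α).det = ((Quaternion.normSq α : ℤ) : ZMod p)) ∧
      (∀ α, φ α = 0 → ∃ β : Quaternion ℤ, α = (p : Quaternion ℤ) * β) := by
  obtain ⟨x, y, h⟩ := ZMod.sq_add_sq p (-1)
  have h2 : (2 : ZMod p) ≠ 0 := by
    have : ((2 : ℕ) : ZMod p) ≠ 0 := by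
      rw [Ne, ZMod.natCast_eq_zero_iff]
      intro hd
      exact hp ((Nat.prime_dvd_prime_iff_eq (Fact.out) Nat.prime_two).1 hd)
    simpa using this
  refine ⟨QHomAux.hom x y h, ?_, ?_⟩
  · intro α
    show (QHomAux.mat x y α).det = _
    rw [Matrix.det_fin_two, Quaternion.normSq_def']
    simp only [QHomAux.mat, Matrix.of_apply, Matrix.cons_val', Matrix.cons_val_zero,
      Matrix.cons_val_one, Matrix.cons_val_fin_one]
    push_cast
    linear_combination (-(α.imJ : ZMod p) ^ 2 - (α.imK : ZMod p) ^ 2) * h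
  · intro α hα
    have hm : QHomAux.mat x y α = 0 := hα
    have e00 := congrFun (congrFun hm 0) 0
    have e01 := congrFun (congrFun hm 0) 1
    have e10 := congrFun (congrFun hm 1) 0
    have e11 := congrFun (congrFun hm 1) 1
    simp only [QHomAux.mat, Matrix.of_apply, Matrix.cons_val', Matrix.cons_val_zero,
      Matrix.cons_val_one, Matrix.cons_val_fin_one, Matrix.zero_apply] at e00 e01 e10 e11
    have ha : (α.re : ZMod p) = 0 := by
      have : (2 : ZMod p) * α.re = 0 := by linear_combination e00 + e11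
      rcases mul_eq_zero.1 this with h' | h'
      · exact absurd h' h2
      · exact h'
    have hb : (α.imI : ZMod p) = 0 := by
      have : (2 : ZMod p) * α.imI = 0 := by linear_combination e10 - e01
      rcases mul_eq_zero.1 this with h' | h'
      · exact absurd h' h2
      · exact h'
    have h1 : (α.imJ : ZMod p) * x - α.imK * y = 0 := by linear_combination e00 - ha
    have h3 : (α.imJ : ZMod p) * y + α.imK * x = 0 := by linear_combination e10 - hb
    have hc : (α.imJ : ZMod p) = 0 := by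
      linear_combination (-x) * h1 - y * h3 + (α.imJ : ZMod p) * h
    have hd : (α.imK : ZMod p) = 0 := by
      linear_combination (y) * h1 - x * h3 + (α.imK : ZMod p) * h
    rw [ZMod.intCast_zmod_eq_zero_iff_dvd] at ha hb hc hd
    obtain ⟨a, ha⟩ := ha
    obtain ⟨b, hb⟩ := hb
    obtain ⟨c, hc⟩ := hc
    obtain ⟨d, hd⟩ := hd
    obtain ⟨β, h4, h5, h6, h7⟩ : ∃ β : Quaternion ℤ, β.re = a ∧ β.imI = b ∧ β.imJ = c ∧
        β.imK = d := ⟨⟨a, b, c, d⟩, rfl, rfl, rfl, rfl⟩
    refine ⟨β, ?_⟩
    apply Quaternion.ext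
    · rw [ha, Quaternion.re_mul, Quaternion.re_natCast, Quaternion.imI_natCast,
        Quaternion.imJ_natCast, Quaternion.imK_natCast, h4]
      ring
    · rw [hb, Quaternion.imI_mul, Quaternion.re_natCast, Quaternion.imI_natCast,
        Quaternion.imJ_natCast, Quaternion.imK_natCast, h5]
      ring
    · rw [hc, Quaternion.imJ_mul, Quaternion.re_natCast, Quaternion.imI_natCast,
        Quaternion.imJ_natCast, Quaternion.imK_natCast, h6]
      ring
    · rw [hd, Quaternion.imK_mul, Quaternion.re_natCast, Quaternion.imI_natCast,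
        Quaternion.imJ_natCast, Quaternion.imK_natCast, h7]
      ring

end Pool.Agent.MPfe8e9b
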