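import Pool.Agent.Lib.MP_fe8e9b_al.Defs
import Mathlib.Data.Nat.Choose.Basic
import Mathlib.SetTheory.Cardinal.Finite
import Mathlib.Data.Fin.Tuple.Basic
import Mathlib.Tactic.FinCases
import Mathlib.Tactic.NoncommRing
import Mathlib.Data.Fintype.Sigma

/-!
# MP_fe8e9b_al: words in the six quaternions of norm five
-/

set_option autoImplicit false

open scoped BigOperators MatrixGroups Quaternion

namespace Pool.Agent.MPfe8e9b

namespace QWordAux

/-- The number of words whose product, multiplied on the left by the letter `i`, is `α`. -/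
noncomputable def wi (t : ℕ) (i : Fin 6) (α : Quaternion ℤ) : ℕ :=
  Nat.card {w : Fin t → Fin 6 // letter i * (List.ofFn fun k => letter (w k)).prod = α}

theorem wd_succ (t : ℕ) (α : Quaternion ℤ) : wd (t + 1) α = ∑ i, wi t i α := by
  classical
  unfold wd wi
  have e : {w : Fin (t + 1) → Fin 6 // (List.ofFn fun k => letter (w k)).prod = α} ≃
      Σ i : Fin 6, {w : Fin t → Fin 6 //
        letter i * (List.ofFn fun k => letter (w k)).prod = α} :=
    { toFun := fun w => ⟨w.1 0, ⟨fun k => w.1 k.succ, by
        have := w.2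
        rw [List.ofFn_succ, List.prod_cons] at this
        exact this⟩⟩
      invFun := fun p => ⟨Fin.cons p.1 p.2.1, by
        rw [List.ofFn_succ, List.prod_cons]
        exact p.2.2⟩
      left_inv := by
        intro w
        apply Subtype.ext
        funext k
        refine Fin.cases ?_ (fun k => ?_) k <;> rfl
      right_inv := by
        rintro ⟨i, w, hw⟩
        rfl }
  rw [Nat.card_congr e, Nat.card_sigma]

theorem norm_letter (i : Fin 6) : star (letter i) * letter i = 5 := by
  rw [Quaternion.star_mul_self]
  fin_cases i <;> simp [letter] <;> rfl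

theorem norm_letter' (i : Fin 6) : letter i * star (letter i) = 5 := by
  rw [Quaternion.self_mul_star]
  fin_cases i <;> simp [letter] <;> rfl

theorem norm_diff (i k : Fin 6) (h : i ≠ k) :
    (letter i - letter k) * (star (letter i) - star (letter k)) = 8 ∨
    (letter i - letter k) * (star (letter i) - star (letter k)) = 16 := by
  rw [← star_sub, Quaternion.self_mul_star]
  have h2 : Quaternion.normSq (letter i - letter k) = 8 ∨
      Quaternion.normSq (letter i - letter k) = 16 := by
    fin_cases i <;> fin_cases k <;>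
      first
      | exact absurd rfl h
      | exact Or.inl rfl
      | exact Or.inr rfl
  rcases h2 with h2 | h2
  · left
    rw [h2]
    rfl
  · right
    rw [h2]
    rfl

theorem comm5 (x : Quaternion ℤ) : (5 : Quaternion ℤ) * x = x * 5 := by
  have := Nat.cast_commute 5 x
  exact_mod_cast this.eq

theorem comm5pow (j : ℕ) (x : Quaternion ℤ) : (5 : Quaternion ℤ) ^ j * x = x * 5 ^ j :=
  ((show Commute (5 : Quaternion ℤ) x from comm5 x).pow_left j).eq

theorem five_re : (5 : Quaternion ℤ).re = 5 := rfl

theorem five_ne : (5 : Quaternion ℤ) ≠ 0 := by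
  intro h
  have h2 : (5 : Quaternion ℤ).re = (0 : Quaternion ℤ).re := by rw [h]
  rw [five_re] at h2
  exact absurd h2 (by decide)

theorem letter_ne (i : Fin 6) : letter i ≠ 0 := by
  intro h
  have := norm_letter i
  rw [h, mul_zero] at this
  exact five_ne this.symm

/-- If `α` is not divisible by five then at most one `star (letter i) * α` is. -/
theorem unique (α : Quaternion ℤ) (hα : ¬ (5 : Quaternion ℤ) ∣ α) (i k : Fin 6)
    (hi : (5 : Quaternion ℤ) ∣ star (letter i) * α)
    (hk : (5 : Quaternion ℤ) ∣ star (letter k) * α) : i = k := by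
  by_contra h
  apply hα
  obtain ⟨a, ha⟩ := hi
  obtain ⟨b, hb⟩ := hk
  have h1 : (letter i - letter k) * (star (letter i) - star (letter k)) * α =
      5 * ((letter i - letter k) * (a - b)) := by
    rw [mul_assoc, sub_mul (star (letter i)), ha, hb, ← mul_sub, ← mul_assoc, ← comm5, mul_assoc]
  rcases norm_diff i k h with h2 | h2
  · rw [h2] at h1
    refine ⟨2 * ((letter i - letter k) * (a - b)) - 3 * α, ?_⟩
    have h3 : α = 2 * (8 * α) - 5 * (3 * α) := by noncomm_ring
    have h4 : 5 * (2 * ((letter i - letter k) * (a - b)) - 3 * α) =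
        2 * (5 * ((letter i - letter k) * (a - b))) - 5 * (3 * α) := by noncomm_ring
    rw [h4, ← h1, ← h3]
  · rw [h2] at h1
    refine ⟨(letter i - letter k) * (a - b) - 3 * α, ?_⟩
    have h3 : α = 16 * α - 5 * (3 * α) := by noncomm_ring
    have h4 : 5 * ((letter i - letter k) * (a - b) - 3 * α) =
        5 * ((letter i - letter k) * (a - b)) - 5 * (3 * α) := by noncomm_ring
    rw [h4, ← h1, ← h3]

theorem wi_eq (t : ℕ) (i : Fin 6) (α β : Quaternion ℤ) (h : letter i * β = α) :
    wi t i α = wd t β := by
  unfold wi wd
  refine Nat.card_congr (Equiv.subtypeEquivRight fun w => ?_)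
  rw [← h]
  exact mul_right_inj' (letter_ne i)

theorem wi_zero (t : ℕ) (i : Fin 6) (α : Quaternion ℤ) (h : ¬ ∃ β, letter i * β = α) :
    wi t i α = 0 := by
  unfold wi
  have : IsEmpty {w : Fin t → Fin 6 // letter i * (List.ofFn fun k => letter (w k)).prod = α} :=
    ⟨fun w => h ⟨_, w.2⟩⟩
  exact Nat.card_of_isEmpty

end QWordAux

open QWordAux in
theorem word_bound (t j : ℕ) (α : Quaternion ℤ) (h1 : (5 ^ j : Quaternion ℤ) ∣ α)
    (h2 : ¬ (5 ^ (j + 1) : Quaternion ℤ) ∣ α) : wd t α ≤ t.choose j * 6 ^ j := by
  classical
  induction t generalizing j α with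
  | zero =>
    unfold wd
    by_cases hα : (1 : Quaternion ℤ) = α
    · subst hα
      cases j with
      | zero =>
        have : Nat.card {w : Fin 0 → Fin 6 // (List.ofFn fun k => letter (w k)).prod = 1} ≤
            Nat.card (Fin 0 → Fin 6) := Nat.card_le_card_of_injective _ Subtype.val_injective
        refine this.trans ?_
        simp
      | succ j =>
        exfalso
        have h3 : (5 : Quaternion ℤ) ∣ 1 := by
          refine (Dvd.intro (5 ^ j) ?_).trans h1
          rw [← pow_succ']
        obtain ⟨c, hc⟩ := h3
        have h4 := congrArg (fun q : Quaternion ℤ => q.re) hc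
        have h5 : (5 * c : Quaternion ℤ).re = 5 * c.re := by
          rw [Quaternion.re_mul]
          have e1 : (5 : Quaternion ℤ).imI = 0 := rfl
          have e2 : (5 : Quaternion ℤ).imJ = 0 := rfl
          have e3 : (5 : Quaternion ℤ).imK = 0 := rfl
          rw [five_re, e1, e2, e3]
          ring
        simp only [h5] at h4
        have h6 : (1 : Quaternion ℤ).re = 1 := rfl
        rw [h6] at h4
        omega
    · have : IsEmpty {w : Fin 0 → Fin 6 // (List.ofFn fun k => letter (w k)).prod = α} := by
        refine ⟨fun w => hα ?_⟩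
        have := w.2
        simpa using this
      rw [Nat.card_of_isEmpty]
      exact Nat.zero_le _
  | succ t ih =>
    rw [wd_succ]
    cases j with
    | zero =>
      have h5 : ¬ (5 : Quaternion ℤ) ∣ α := by simpa using h2
      have key : ∀ i, wi t i α ≤ if (5 : Quaternion ℤ) ∣ star (letter i) * α then 1 else 0 := by
        intro i
        by_cases hβ : ∃ β, letter i * β = α
        · obtain ⟨β, hβ⟩ := hβ
          rw [if_pos ⟨β, by rw [← hβ, ← mul_assoc, norm_letter]⟩, wi_eq t i α β hβ]
          have := ih 0 β (by simp) (by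
            intro h6
            apply h5
            simp only [zero_add, pow_one] at h6
            obtain ⟨γ, hγ⟩ := h6
            exact ⟨letter i * γ, by rw [← hβ, hγ, ← mul_assoc, ← comm5, mul_assoc]⟩)
          simpa using this
        · rw [wi_zero t i α hβ]
          exact Nat.zero_le _
      refine (Finset.sum_le_sum fun i _ => key i).trans ?_
      rw [← Finset.card_filter]
      simp only [Nat.choose_zero_right, pow_zero, mul_one]
      rw [Finset.card_le_one]
      intro i hi k hk
      simp only [Finset.mem_filter, Finset.mem_univ, true_and] at hi hk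
      exact unique α h5 i k hi hk
    | succ j =>
      obtain ⟨α₀, hα₀⟩ := h1
      have h5 : ¬ (5 : Quaternion ℤ) ∣ α₀ := by
        rintro ⟨γ, hγ⟩
        apply h2
        exact ⟨γ, by rw [hα₀, hγ, ← mul_assoc, ← pow_succ]⟩
      have key : ∀ i, wi t i α ≤ t.choose j * 6 ^ j +
          if (5 : Quaternion ℤ) ∣ star (letter i) * α₀ then t.choose (j + 1) * 6 ^ (j + 1)
            else 0 := by
        intro i
        have hβ : letter i * (5 ^ j * (star (letter i) * α₀)) = α := by
          rw [← mul_assoc, ← comm5pow, mul_assoc, ← mul_assoc (letter i), norm_letter', hα₀,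
            ← mul_assoc, ← pow_succ]
        rw [wi_eq t i α _ hβ]
        by_cases hd : (5 : Quaternion ℤ) ∣ star (letter i) * α₀
        · rw [if_pos hd]
          obtain ⟨β₀, hβ₀⟩ := hd
          refine (ih (j + 1) _ ⟨β₀, by rw [hβ₀, ← mul_assoc, ← pow_succ]⟩ ?_).trans
            (Nat.le_add_left _ _)
          rintro ⟨γ, hγ⟩
          apply h5
          rw [hβ₀, ← mul_assoc, ← pow_succ, pow_succ (5 : Quaternion ℤ) (j + 1), mul_assoc] at hγ
          have h6 : β₀ = 5 * γ := mul_left_cancel₀ (pow_ne_zero _ five_ne) hγ
          have h7 : (5 : Quaternion ℤ) * α₀ = 5 * (letter i * β₀) := by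
            rw [← norm_letter' i, mul_assoc, hβ₀, norm_letter', ← mul_assoc, ← mul_assoc, comm5]
          have h8 := mul_left_cancel₀ five_ne h7
          exact ⟨letter i * γ, by rw [h8, h6, ← mul_assoc, ← comm5, mul_assoc]⟩
        · rw [if_neg hd, add_zero]
          refine ih j _ ⟨_, rfl⟩ ?_
          rintro ⟨γ, hγ⟩
          apply hd
          rw [pow_succ, mul_assoc] at hγ
          exact ⟨γ, mul_left_cancel₀ (pow_ne_zero _ five_ne) hγ⟩
      refine (Finset.sum_le_sum fun i _ => key i).trans ?_
      rw [Finset.sum_add_distrib, Finset.sum_const, Finset.card_univ, Fintype.card_fin,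
        ← Finset.sum_filter, Finset.sum_const]
      have hc : (Finset.univ.filter fun i : Fin 6 =>
          (5 : Quaternion ℤ) ∣ star (letter i) * α₀).card ≤ 1 := by
        rw [Finset.card_le_one]
        intro i hi k hk
        simp only [Finset.mem_filter, Finset.mem_univ, true_and] at hi hk
        exact unique α₀ h5 i k hi hk
      rw [smul_eq_mul, smul_eq_mul, Nat.choose_succ_succ]
      calc 6 * (t.choose j * 6 ^ j) + (Finset.univ.filter fun i : Fin 6 =>
            (5 : Quaternion ℤ) ∣ star (letter i) * α₀).card * (t.choose (j + 1) * 6 ^ (j + 1))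
          ≤ 6 * (t.choose j * 6 ^ j) + 1 * (t.choose (j + 1) * 6 ^ (j + 1)) :=
            Nat.add_le_add_left (Nat.mul_le_mul_right _ hc) _
        _ = (t.choose j + t.choose (j + 1)) * 6 ^ (j + 1) := by ring

end Pool.Agent.MPfe8e9b
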