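import Mathlib.NumberTheory.ArithmeticFunction.Misc
import Mathlib.Analysis.SpecialFunctions.Pow.NNReal
import Mathlib.Data.Int.Lemmas
import Mathlib.RingTheory.Coprime.Lemmas
import Mathlib.RingTheory.Int.Basic
import Mathlib.Tactic.LinearCombination

/-!
# The number of representations of an integer as a sum of two squares is `O(n^ε)`
-/

set_option autoImplicit false

open scoped BigOperators

namespace Pool.Agent.MPfe8e9b

namespace TwoSq

/-- Divisor bound. -/
theorem divisor_bound (ε : ℝ) (hε : 0 < ε) : ∃ C : ℝ, 0 < C ∧ ∀ n : ℕ, 1 ≤ n →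
    (n.divisors.card : ℝ) ≤ C * (n : ℝ) ^ ε := by
  set K : ℝ := max 1 (1 / (ε * Real.log 2)) with hK
  have hK1 : 1 ≤ K := le_max_left _ _
  have hlog2 : 0 < Real.log 2 := Real.log_pos (by norm_num)
  have hεl : 0 < ε * Real.log 2 := mul_pos hε hlog2
  obtain ⟨B, hB⟩ := exists_nat_ge ((2 : ℝ) ^ (1 / ε))
  refine ⟨K ^ B, by positivity, fun n hn => ?_⟩
  have hn0 : n ≠ 0 := by omega
  have h1 : ∀ p ∈ n.primeFactors, ((n.factorization p + 1 : ℕ) : ℝ) ≤
      (if p < B then K else 1) * ((p : ℝ) ^ n.factorization p) ^ ε := by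
    intro p hp
    have hpp : p.Prime := Nat.prime_of_mem_primeFactors hp
    have hp2 : (2 : ℝ) ≤ p := by exact_mod_cast hpp.two_le
    generalize n.factorization p = e
    have hrw : ((p : ℝ) ^ e) ^ ε = ((p : ℝ) ^ ε) ^ e := by
      rw [← Real.rpow_natCast, ← Real.rpow_natCast, ← Real.rpow_mul (by positivity),
        ← Real.rpow_mul (by positivity), mul_comm]
    split_ifs with hpB
    · have h2 : (1 : ℝ) + ε * Real.log 2 * e ≤ ((p : ℝ) ^ e) ^ ε := by
        calc (1 : ℝ) + ε * Real.log 2 * e ≤ Real.exp (ε * Real.log 2 * e) := by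
              linarith [Real.add_one_le_exp (ε * Real.log 2 * e)]
          _ = ((2 : ℝ) ^ e) ^ ε := by
              rw [← Real.rpow_natCast, ← Real.rpow_mul (by norm_num),
                Real.rpow_def_of_pos (by norm_num)]
              congr 1
              ring
          _ ≤ ((p : ℝ) ^ e) ^ ε := by
              apply Real.rpow_le_rpow (by positivity) _ hε.le
              exact pow_le_pow_left₀ (by norm_num) hp2 e
      have h3 : 1 / (ε * Real.log 2) ≤ K := le_max_right _ _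
      have h4 : 1 ≤ K * (ε * Real.log 2) := by
        rw [div_le_iff₀ hεl] at h3
        exact h3
      calc ((e + 1 : ℕ) : ℝ) = 1 + 1 * e := by push_cast; ring
        _ ≤ K + K * (ε * Real.log 2) * e := by
            have he : (0 : ℝ) ≤ e := Nat.cast_nonneg e
            have := mul_le_mul_of_nonneg_right h4 he
            linarith
        _ = K * (1 + ε * Real.log 2 * e) := by ring
        _ ≤ K * ((p : ℝ) ^ e) ^ ε := mul_le_mul_of_nonneg_left h2 (by linarith)
    · rw [one_mul, hrw]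
      have hpε : (2 : ℝ) ≤ (p : ℝ) ^ ε := by
        have h5 : (2 : ℝ) ^ (1 / ε) ≤ p := hB.trans (by exact_mod_cast not_lt.1 hpB)
        calc (2 : ℝ) = ((2 : ℝ) ^ (1 / ε)) ^ ε := by
              rw [← Real.rpow_mul (by norm_num), one_div, inv_mul_cancel₀ hε.ne', Real.rpow_one]
          _ ≤ _ := Real.rpow_le_rpow (by positivity) h5 hε.le
      calc ((e + 1 : ℕ) : ℝ) ≤ (2 : ℝ) ^ e := by
            have : e + 1 ≤ 2 ^ e := Nat.lt_two_pow_self
            exact_mod_cast this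
        _ ≤ ((p : ℝ) ^ ε) ^ e := pow_le_pow_left₀ (by norm_num) hpε e
  rw [Nat.card_divisors hn0, Nat.cast_prod]
  refine (Finset.prod_le_prod (fun p _ => Nat.cast_nonneg _) h1).trans ?_
  rw [Finset.prod_mul_distrib]
  have h6 : ∏ p ∈ n.primeFactors, ((p : ℝ) ^ n.factorization p) ^ ε = (n : ℝ) ^ ε := by
    rw [Real.finsetProd_rpow _ _ (fun p _ => by positivity)]
    congr 1
    have h7 := Nat.prod_factorization_pow_eq_self hn0
    conv_rhs => rw [← h7]
    rw [Nat.prod_factorization_eq_prod_primeFactors]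
    push_cast
    rfl
  rw [h6]
  apply mul_le_mul_of_nonneg_right _ (by positivity)
  rw [Finset.prod_ite, Finset.prod_const, Finset.prod_const_one, mul_one]
  apply pow_le_pow_right₀ hK1
  calc (n.primeFactors.filter (fun p => p < B)).card ≤ (Finset.range B).card := by
        apply Finset.card_le_card
        intro p hp
        exact Finset.mem_range.2 (Finset.mem_filter.1 hp).2
    _ = B := Finset.card_range B

/-- The key divisibility for two primitive representations with the same common divisor with a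
third one. -/
theorem dvd_two_mul (n x y x' y' x0 y0 d e : ℤ) (hn : n = d * e) (hn0 : n ≠ 0)
    (h : x ^ 2 + y ^ 2 = n) (h' : x' ^ 2 + y' ^ 2 = n) (h0 : x0 ^ 2 + y0 ^ 2 = n)
    (hc : IsCoprime x y) (hc0 : IsCoprime x0 y0)
    (hA : d ∣ x * y0 - x0 * y) (hA' : d ∣ x' * y0 - x0 * y')
    (hAe : IsCoprime e ((x * y0 - x0 * y) / d)) (hAe' : IsCoprime e ((x' * y0 - x0 * y') / d)) :
    n ∣ 2 * (x * y' - x' * y) := by
  have hd : d ≠ 0 := by
    rintro rfl
    exact hn0 (by rw [hn, zero_mul])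
  -- `e` divides `B` and `B'`
  have key : ∀ X Y : ℤ, X ^ 2 + Y ^ 2 = n → d ∣ X * y0 - x0 * Y →
      IsCoprime e ((X * y0 - x0 * Y) / d) → e ∣ X * y0 + x0 * Y := by
    intro X Y hXY hdA hcA
    obtain ⟨A1, hA1⟩ := hdA
    rw [hA1, Int.mul_ediv_cancel_left _ hd] at hcA
    have h1 : n ∣ (X * y0 - x0 * Y) * (X * y0 + x0 * Y) := by
      refine ⟨X ^ 2 - x0 ^ 2, ?_⟩
      have : (X * y0 - x0 * Y) * (X * y0 + x0 * Y) = X ^ 2 * (x0 ^ 2 + y0 ^ 2)
        - x0 ^ 2 * (X ^ 2 + Y ^ 2) := by ring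
      rw [this, h0, hXY]
      ring
    rw [hA1, hn, mul_assoc] at h1
    have h2 : e ∣ A1 * (X * y0 + x0 * Y) := (mul_dvd_mul_iff_left hd).1 h1
    exact hcA.dvd_of_dvd_mul_left h2
  have hB := key x y h hA hAe
  have hB' := key x' y' h' hA' hAe'
  obtain ⟨u, v, huv⟩ := hc0
  have hdc : d ∣ x * y' - x' * y := by
    have h1 : x * y' - x' * y = u * (x' * (x * y0 - x0 * y) - x * (x' * y0 - x0 * y')) +
        v * (y' * (x * y0 - x0 * y) - y * (x' * y0 - x0 * y')) := by
      linear_combination (-(x * y' - x' * y)) * huv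
    rw [h1]
    exact dvd_add (Dvd.dvd.mul_left (dvd_sub (Dvd.dvd.mul_left hA _) (Dvd.dvd.mul_left hA' _)) _)
      (Dvd.dvd.mul_left (dvd_sub (Dvd.dvd.mul_left hA _) (Dvd.dvd.mul_left hA' _)) _)
  have hec : e ∣ x * y' - x' * y := by
    have h1 : x * y' - x' * y = u * (x * (x' * y0 + x0 * y') - x' * (x * y0 + x0 * y)) +
        v * (y' * (x * y0 + x0 * y) - y * (x' * y0 + x0 * y')) := by
      linear_combination (-(x * y' - x' * y)) * huv
    rw [h1]
    exact dvd_add (Dvd.dvd.mul_left (dvd_sub (Dvd.dvd.mul_left hB' _) (Dvd.dvd.mul_left hB _)) _)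
      (Dvd.dvd.mul_left (dvd_sub (Dvd.dvd.mul_left hB _) (Dvd.dvd.mul_left hB' _)) _)
  -- the gcd of `d` and `e` divides `2`
  have hg : (Int.gcd d e : ℤ) ∣ 2 := by
    have hgd : (Int.gcd d e : ℤ) ∣ d := Int.gcd_dvd_left _ _
    have hge : (Int.gcd d e : ℤ) ∣ e := Int.gcd_dvd_right _ _
    have hgA := hgd.trans hA
    have hgB := hge.trans hB
    have hgn : (Int.gcd d e : ℤ) ∣ n := hgd.trans ⟨e, hn⟩
    have h1 : (Int.gcd d e : ℤ) ∣ 2 * x * y0 := by
      have : 2 * x * y0 = (x * y0 - x0 * y) + (x * y0 + x0 * y) := by ring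
      rw [this]
      exact dvd_add hgA hgB
    obtain ⟨a, b, hab⟩ := (hc.pow (m := 2) (n := 2))
    obtain ⟨a0, b0, hab0⟩ := (IsCoprime.pow (m := 2) (n := 2) ⟨u, v, huv⟩)
    have h2 : (Int.gcd d e : ℤ) ∣ 2 * y0 := by
      have : 2 * y0 = (a * x - b * x) * (2 * x * y0) + (2 * b * y0) * n := by
        rw [← h]
        linear_combination (-(2 * y0)) * hab
      rw [this]
      exact dvd_add (Dvd.dvd.mul_left h1 _) (Dvd.dvd.mul_left hgn _)
    have : (2 : ℤ) = (b0 * y0 - a0 * y0) * (2 * y0) + 2 * a0 * n := by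
      rw [← h0]
      linear_combination (-2) * hab0
    rw [this]
    exact dvd_add (Dvd.dvd.mul_left h2 _) (Dvd.dvd.mul_left hgn _)
  obtain ⟨c1, hc1⟩ := hdc
  obtain ⟨c2, hc2⟩ := hec
  -- `d e = gcd * lcm`
  have hbez := Int.gcd_eq_gcd_ab d e
  have h3 : n ∣ (Int.gcd d e : ℤ) * (x * y' - x' * y) := by
    refine ⟨Int.gcdA d e * c2 + Int.gcdB d e * c1, ?_⟩
    rw [hbez, hn]
    have e1 : (d * Int.gcdA d e + e * Int.gcdB d e) * (x * y' - x' * y) =
      d * Int.gcdA d e * (x * y' - x' * y) + e * Int.gcdB d e * (x * y' - x' * y) := by ring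
    rw [e1]
    conv_lhs => lhs; rw [hc2]
    conv_lhs => rhs; rw [hc1]
    ring
  exact h3.trans (mul_dvd_mul_right hg _)

/-- Number of primitive representations. -/
theorem prim_count (n : ℕ) (hn : 1 ≤ n) (T : Finset (ℤ × ℤ))
    (hT : ∀ x ∈ T, x.1 ^ 2 + x.2 ^ 2 = (n : ℤ)) (hc : ∀ x ∈ T, IsCoprime x.1 x.2) :
    T.card ≤ 15 * n.divisors.card := by
  classical
  rcases T.eq_empty_or_nonempty with rfl | ⟨⟨x0, y0⟩, h0⟩
  · simp
  have hn0 : n ≠ 0 := by omega
  have hnZ : (n : ℤ) ≠ 0 := by exact_mod_cast hn0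
  have hnpos : (0 : ℤ) < n := by exact_mod_cast hn
  set φ : ℤ × ℤ → ℕ := fun x => Int.gcd (n : ℤ) (x.1 * y0 - x0 * x.2) with hφ
  have himg : T.image φ ⊆ n.divisors := by
    intro d hd
    obtain ⟨x, _, rfl⟩ := Finset.mem_image.1 hd
    rw [Nat.mem_divisors]
    refine ⟨?_, hn0⟩
    have := Int.gcd_dvd_left (n : ℤ) (x.1 * y0 - x0 * x.2)
    exact_mod_cast this
  have hfib : ∀ d ∈ T.image φ, (T.filter (fun x => φ x = d)).card ≤ 15 := by
    intro d hd
    obtain ⟨⟨x', y'⟩, hx', hd'⟩ := Finset.mem_image.1 hd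
    have hdn : (d : ℤ) ∣ n := by
      have := (Nat.mem_divisors.1 (himg hd)).1
      exact_mod_cast this
    obtain ⟨e, he⟩ := hdn
    have hgen : ∀ x ∈ T, φ x = d → (d : ℤ) ∣ x.1 * y0 - x0 * x.2 ∧
        IsCoprime e ((x.1 * y0 - x0 * x.2) / d) := by
      intro x _ hx
      have h1 : (d : ℤ) ∣ x.1 * y0 - x0 * x.2 := by
        rw [← hx]
        exact Int.gcd_dvd_right _ _
      refine ⟨h1, ?_⟩
      have hdpos : 0 < Int.gcd (n : ℤ) (x.1 * y0 - x0 * x.2) :=
        Int.gcd_pos_of_ne_zero_left _ hnZ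
      have h2 := Int.isCoprime_iff_gcd_eq_one.2
        (Int.gcd_div_gcd_div_gcd (i := (n : ℤ)) (j := x.1 * y0 - x0 * x.2) hdpos)
      have h3 : (Int.gcd (n : ℤ) (x.1 * y0 - x0 * x.2)) = d := hx
      rw [h3] at h2
      have hd0 : (d : ℤ) ≠ 0 := by
        rw [h3] at hdpos
        exact_mod_cast hdpos.ne'
      rwa [he, Int.mul_ediv_cancel_left _ hd0] at h2
    have hdiv : ∀ x ∈ T.filter (fun x => φ x = d), (n : ℤ) ∣ 2 * (x.1 * y' - x' * x.2) := by
      intro x hx
      obtain ⟨hxT, hxd⟩ := Finset.mem_filter.1 hx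
      obtain ⟨h1, h2⟩ := hgen x hxT hxd
      obtain ⟨h3, h4⟩ := hgen (x', y') hx' hd'
      exact dvd_two_mul n x.1 x.2 x' y' x0 y0 d e he hnZ (hT x hxT) (hT _ hx') (hT _ h0)
        (hc x hxT) (hc _ h0) h1 h3 h2 h4
    set ψ : ℤ × ℤ → ℤ × ℤ := fun x =>
      (2 * (x.1 * y' - x' * x.2) / n, Int.sign (x.1 * x' + x.2 * y')) with hψ
    have hid : ∀ x ∈ T, (x.1 * y' - x' * x.2) ^ 2 + (x.1 * x' + x.2 * y') ^ 2 = (n : ℤ) ^ 2 := by
      intro x hx
      have h1 := hT x hx
      have h2 := hT _ hx'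
      dsimp only at h2
      calc (x.1 * y' - x' * x.2) ^ 2 + (x.1 * x' + x.2 * y') ^ 2
          = (x.1 ^ 2 + x.2 ^ 2) * (x' ^ 2 + y' ^ 2) := by ring
        _ = (n : ℤ) ^ 2 := by rw [h1, h2]; ring
    have hmaps : ∀ x ∈ T.filter (fun x => φ x = d),
        ψ x ∈ Finset.Icc (-2 : ℤ) 2 ×ˢ Finset.Icc (-1 : ℤ) 1 := by
      intro x hx
      obtain ⟨hxT, hxd⟩ := Finset.mem_filter.1 hx
      rw [Finset.mem_product, Finset.mem_Icc, Finset.mem_Icc]
      have h1 := hid x hxT
      have h2 : |x.1 * y' - x' * x.2| ≤ (n : ℤ) := by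
        apply abs_le_of_sq_le_sq _ hnpos.le
        nlinarith [sq_nonneg (x.1 * x' + x.2 * y')]
      rw [abs_le] at h2
      refine ⟨⟨?_, ?_⟩, ⟨?_, ?_⟩⟩
      · simp only [hψ]
        rw [Int.le_ediv_iff_mul_le hnpos]
        linarith
      · simp only [hψ]
        apply Int.ediv_le_of_le_mul hnpos
        linarith
      · simp only [hψ]
        rcases Int.sign_trichotomy (x.1 * x' + x.2 * y') with h | h | h <;> rw [h] <;> norm_num
      · simp only [hψ]
        rcases Int.sign_trichotomy (x.1 * x' + x.2 * y') with h | h | h <;> rw [h] <;> norm_num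
    have hinj : Set.InjOn ψ (T.filter (fun x => φ x = d)) := by
      intro x hx z hz hxz
      have hxT := (Finset.mem_filter.1 (Finset.mem_coe.1 hx)).1
      have hzT := (Finset.mem_filter.1 (Finset.mem_coe.1 hz)).1
      have hxd := hdiv x (Finset.mem_coe.1 hx)
      have hzd := hdiv z (Finset.mem_coe.1 hz)
      simp only [hψ, Prod.mk.injEq] at hxz
      obtain ⟨e1, e2⟩ := hxz
      have e3 : 2 * (x.1 * y' - x' * x.2) = 2 * (z.1 * y' - x' * z.2) := by
        rw [← Int.ediv_mul_cancel hxd, ← Int.ediv_mul_cancel hzd, e1]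
      have e4 : x.1 * y' - x' * x.2 = z.1 * y' - x' * z.2 := by linarith
      have e5 : (x.1 * x' + x.2 * y') ^ 2 = (z.1 * x' + z.2 * y') ^ 2 := by
        have a1 := hid x hxT
        have a2 := hid z hzT
        rw [e4] at a1
        linarith
      have e6 : x.1 * x' + x.2 * y' = z.1 * x' + z.2 * y' := by
        have a3 : (x.1 * x' + x.2 * y').natAbs = (z.1 * x' + z.2 * y').natAbs := by
          rw [Int.natAbs_eq_iff_sq_eq]
          exact e5
        rw [← Int.sign_mul_natAbs (x.1 * x' + x.2 * y'),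
          ← Int.sign_mul_natAbs (z.1 * x' + z.2 * y'), e2, a3]
      have h2 := hT _ hx'
      dsimp only at h2
      have e7 : (n : ℤ) * x.1 = n * z.1 := by
        rw [← h2]
        linear_combination x' * e6 + y' * e4
      have e8 : (n : ℤ) * x.2 = n * z.2 := by
        rw [← h2]
        linear_combination y' * e6 - x' * e4
      exact Prod.ext (mul_left_cancel₀ hnZ e7) (mul_left_cancel₀ hnZ e8)
    calc (T.filter (fun x => φ x = d)).card
        ≤ (Finset.Icc (-2 : ℤ) 2 ×ˢ Finset.Icc (-1 : ℤ) 1).card :=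
          Finset.card_le_card_of_injOn ψ hmaps hinj
      _ = 15 := by decide
  calc T.card ≤ 15 * (T.image φ).card := Finset.card_le_mul_card_image T 15 hfib
    _ ≤ 15 * n.divisors.card := Nat.mul_le_mul_left _ (Finset.card_le_card himg)

/-- Number of all representations. -/
theorem all_count (n : ℕ) (hn : 1 ≤ n) (T : Finset (ℤ × ℤ))
    (hT : ∀ x ∈ T, x.1 ^ 2 + x.2 ^ 2 = (n : ℤ)) :
    T.card ≤ 15 * n.divisors.card * n.divisors.card := by
  classical
  have hn0 : n ≠ 0 := by omega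
  set φ : ℤ × ℤ → ℕ := fun x => Int.gcd x.1 x.2 with hφ
  have hsq : ∀ x ∈ T, ((φ x : ℤ)) ^ 2 ∣ n := by
    intro x hx
    rw [← hT x hx]
    exact dvd_add (pow_dvd_pow_of_dvd (Int.gcd_dvd_left _ _) 2)
      (pow_dvd_pow_of_dvd (Int.gcd_dvd_right _ _) 2)
  have himg : T.image φ ⊆ n.divisors := by
    intro g hg
    obtain ⟨x, hx, rfl⟩ := Finset.mem_image.1 hg
    rw [Nat.mem_divisors]
    refine ⟨?_, hn0⟩
    have := (Dvd.intro_left (φ x : ℤ) (by ring : (φ x : ℤ) * (φ x : ℤ) = (φ x : ℤ) ^ 2)).trans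
      (hsq x hx)
    exact_mod_cast this
  have hfib : ∀ g ∈ T.image φ, (T.filter (fun x => φ x = g)).card ≤ 15 * n.divisors.card := by
    intro g hg
    obtain ⟨x1, hx1, hg1⟩ := Finset.mem_image.1 hg
    have hgn : g ^ 2 ∣ n := by
      have := hsq x1 hx1
      rw [hg1] at this
      exact_mod_cast this
    have hg0 : g ≠ 0 := by
      rintro rfl
      simp only [ne_eq, OfNat.ofNat_ne_zero, not_false_eq_true, zero_pow, zero_dvd_iff] at hgn
      exact hn0 hgn
    have hgZ : (g : ℤ) ≠ 0 := by exact_mod_cast hg0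
    obtain ⟨n', hn'⟩ := hgn
    have hn'0 : 1 ≤ n' := by
      rcases Nat.eq_zero_or_pos n' with h | h
      · exfalso
        rw [h, mul_zero] at hn'
        exact hn0 hn'
      · exact h
    set S := (T.filter (fun x => φ x = g)).image (fun x => (x.1 / (g : ℤ), x.2 / (g : ℤ))) with hS
    have hdv : ∀ x ∈ T.filter (fun x => φ x = g), (g : ℤ) ∣ x.1 ∧ (g : ℤ) ∣ x.2 := by
      intro x hx
      have h1 := (Finset.mem_filter.1 hx).2
      rw [← h1]
      exact ⟨Int.gcd_dvd_left _ _, Int.gcd_dvd_right _ _⟩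
    have hcard : S.card = (T.filter (fun x => φ x = g)).card := by
      apply Finset.card_image_of_injOn
      intro x hx z hz hxz
      simp only [Prod.mk.injEq] at hxz
      obtain ⟨a1, a2⟩ := hdv x (Finset.mem_coe.1 hx)
      obtain ⟨b1, b2⟩ := hdv z (Finset.mem_coe.1 hz)
      apply Prod.ext
      · rw [← Int.ediv_mul_cancel a1, ← Int.ediv_mul_cancel b1, hxz.1]
      · rw [← Int.ediv_mul_cancel a2, ← Int.ediv_mul_cancel b2, hxz.2]
    have h2 : S.card ≤ 15 * n'.divisors.card := by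
      apply prim_count n' hn'0
      · intro z hz
        obtain ⟨x, hx, rfl⟩ := Finset.mem_image.1 hz
        obtain ⟨⟨a, ha⟩, ⟨b, hb⟩⟩ := hdv x hx
        have h3 := hT x (Finset.mem_filter.1 hx).1
        dsimp only
        rw [ha, hb, Int.mul_ediv_cancel_left _ hgZ, Int.mul_ediv_cancel_left _ hgZ]
        rw [ha, hb, hn'] at h3
        push_cast at h3
        have h4 : (g : ℤ) ^ 2 * (a ^ 2 + b ^ 2) = (g : ℤ) ^ 2 * n' := by linarith
        exact mul_left_cancel₀ (pow_ne_zero 2 hgZ) h4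
      · intro z hz
        obtain ⟨x, hx, rfl⟩ := Finset.mem_image.1 hz
        have h3 : Int.gcd x.1 x.2 = g := (Finset.mem_filter.1 hx).2
        have h4 : 0 < Int.gcd x.1 x.2 := by rw [h3]; omega
        have h5 := Int.isCoprime_iff_gcd_eq_one.2
          (Int.gcd_div_gcd_div_gcd (i := x.1) (j := x.2) h4)
        rw [h3] at h5
        exact h5
    rw [← hcard]
    refine h2.trans (Nat.mul_le_mul_left _ (Finset.card_le_card ?_))
    exact Nat.divisors_subset_of_dvd hn0 ⟨g ^ 2, by rw [hn', mul_comm]⟩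
  calc T.card ≤ (15 * n.divisors.card) * (T.image φ).card :=
        Finset.card_le_mul_card_image T _ hfib
    _ ≤ 15 * n.divisors.card * n.divisors.card :=
        Nat.mul_le_mul_left _ (Finset.card_le_card himg)

end TwoSq

theorem two_sq_bound (ε : ℝ) (hε : 0 < ε) : ∃ C : ℝ, 0 < C ∧ ∀ n : ℕ, 1 ≤ n →
    ∀ T : Finset (ℤ × ℤ), (∀ x ∈ T, x.1 ^ 2 + x.2 ^ 2 = (n : ℤ)) → (T.card : ℝ) ≤ C * (n : ℝ) ^ ε := by
  obtain ⟨C, hC, h⟩ := TwoSq.divisor_bound (ε / 2) (by positivity)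
  refine ⟨15 * C ^ 2, by positivity, fun n hn T hT => ?_⟩
  have h1 : (T.card : ℝ) ≤ 15 * n.divisors.card * n.divisors.card := by
    exact_mod_cast TwoSq.all_count n hn T hT
  have h2 := h n hn
  have h3 : (n : ℝ) ^ ε = (n : ℝ) ^ (ε / 2) * (n : ℝ) ^ (ε / 2) := by
    rw [← Real.rpow_add (by exact_mod_cast hn)]
    congr 1
    ring
  rw [h3]
  have h4 : (0 : ℝ) ≤ n.divisors.card := Nat.cast_nonneg _
  have h5 : (n.divisors.card : ℝ) * n.divisors.card ≤
      (C * (n : ℝ) ^ (ε / 2)) * (C * (n : ℝ) ^ (ε / 2)) := mul_le_mul h2 h2 h4 (h4.trans h2)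
  calc (T.card : ℝ) ≤ 15 * (n.divisors.card * n.divisors.card) := by linarith
    _ ≤ 15 * ((C * (n : ℝ) ^ (ε / 2)) * (C * (n : ℝ) ^ (ε / 2))) := by linarith
    _ = _ := by ring

end Pool.Agent.MPfe8e9b
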