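import Mathlib
import Pool.Agent.Lib.MP_fe8e9b_al.Avg
import Pool.Agent.Lib.MP_fe8e9b_al.SlCard
import Pool.Agent.Lib.MP_fe8e9b_al.TwoSq
import Pool.Agent.Lib.MP_fe8e9b_al.QCount
import Pool.Agent.Lib.MP_fe8e9b_al.QHom
import Pool.Agent.Lib.MP_fe8e9b_al.QWord
import Pool.Agent.Lib.MP_fe8e9b_al.Num
import Pool.Agent.Lib.MP_fe8e9b_al.Core

/-!
# MP_fe8e9b_al: products of `SL(2, 𝔽_p)` over different large primes
-/

open scoped BigOperators MatrixGroups Pointwise

set_option linter.unusedSectionVars false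

namespace Pool.Agent.MPfe8e9b

namespace NF

/-! ### Laws of letters -/

section general

variable {G : Type*} [Group G] [Fintype G]

theorem cv_conv (μ ν : G → ℝ) (f : G → ℂ) : cv (conv μ ν) f = cv μ (cv ν f) := by
  funext g
  simp only [cv, conv]
  push_cast
  simp only [Finset.sum_mul, Finset.mul_sum]
  rw [Finset.sum_comm]
  refine Finset.sum_congr rfl fun k _ => ?_
  refine Fintype.sum_equiv (Equiv.mulLeft k⁻¹) _ _ fun h => ?_
  simp [mul_assoc]

theorem sum_conv_mul (μ ν : G → ℝ) (F : G → ℝ) :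
    ∑ g, conv μ ν g * F g = ∑ h, μ h * ∑ k, ν k * F (h * k) := by
  simp only [conv, Finset.sum_mul, Finset.mul_sum]
  rw [Finset.sum_comm]
  refine Finset.sum_congr rfl fun k _ => ?_
  refine Fintype.sum_equiv (Equiv.mulLeft k⁻¹) _ _ fun h => ?_
  simp [mul_assoc]

open Classical in
/-- The law of a uniform letter. -/
noncomputable def nu {I : Type*} [Fintype I] (x : I → G) : G → ℝ :=
  fun g => ((Fintype.card I : ℝ))⁻¹ * ∑ i, if g = x i then 1 else 0

theorem nu_nonneg {I : Type*} [Fintype I] (x : I → G) (g : G) : 0 ≤ nu x g := by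
  unfold nu
  refine mul_nonneg (by positivity) (Finset.sum_nonneg fun i _ => ?_)
  split_ifs <;> norm_num

theorem sum_nu_mul {I : Type*} [Fintype I] (x : I → G) (F : G → ℝ) :
    ∑ g, nu x g * F g = ((Fintype.card I : ℝ))⁻¹ * ∑ i, F (x i) := by
  classical
  unfold nu
  simp only [mul_assoc]
  rw [← Finset.mul_sum]
  congr 1
  simp only [Finset.sum_mul]
  rw [Finset.sum_comm]
  refine Finset.sum_congr rfl fun i _ => ?_
  simp

theorem cv_nu {I : Type*} [Fintype I] (x : I → G) (f : G → ℂ) :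
    cv (nu x) f = ((Fintype.card I : ℂ))⁻¹ • ∑ i, rt (x i) f := by
  classical
  funext g
  simp only [cv, nu, Pi.smul_apply, Finset.sum_apply, rt_apply, smul_eq_mul]
  push_cast
  simp only [mul_assoc]
  rw [← Finset.mul_sum]
  congr 1
  simp only [Finset.sum_mul]
  rw [Finset.sum_comm]
  refine Finset.sum_congr rfl fun i _ => ?_
  rw [Finset.sum_eq_single (x i)]
  · rw [if_pos rfl, Complex.ofReal_one, one_mul]
  · intro b _ hb
    rw [if_neg hb, Complex.ofReal_zero, zero_mul]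
  · intro h
    exact absurd (Finset.mem_univ _) h

theorem nu_symm {I : Type*} [Fintype I] (x : I → G) (σ : I ≃ I) (hσ : ∀ i, x (σ i) = (x i)⁻¹)
    (g : G) : nu x g⁻¹ = nu x g := by
  classical
  unfold nu
  congr 1
  refine Fintype.sum_equiv σ _ _ fun i => ?_
  rw [hσ i]
  by_cases h : g⁻¹ = x i
  · rw [if_pos h, if_pos (by rw [← h, inv_inv])]
  · rw [if_neg h, if_neg (fun h' => h (by rw [h', inv_inv]))]

theorem conv_symm (ν : G → ℝ) (hν : ∀ g, ν g⁻¹ = ν g) (g : G) :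
    conv ν ν g⁻¹ = conv ν ν g := by
  unfold conv
  refine Fintype.sum_equiv (Equiv.mulLeft g) _ _ fun h => ?_
  simp only [Equiv.coe_mulLeft]
  rw [← hν (h⁻¹ * g⁻¹), ← hν ((g * h)⁻¹ * g)]
  simp [mul_comm]

theorem ip_cv (ν : G → ℝ) (hν : ∀ g, ν g⁻¹ = ν g) (f f' : G → ℂ) :
    ip f (cv ν f') = ip (cv ν f) f' := by
  have h1 : ∀ F : G → ℂ, cv ν F = ∑ h, (ν h : ℂ) • rt h F := by
    intro F
    funext g
    simp [cv, rt_apply]
  rw [h1, h1, ip_sum_right, ip_sum_left]
  refine Fintype.sum_equiv (Equiv.inv G) _ _ fun h => ?_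
  rw [ip_smul_right, ip_smul_left, ip_rt_right]
  simp [hν h]

theorem gap_of_core {I : Type*} [Fintype I] [Nonempty I] (x : I → G) (σ : I ≃ I)
    (hσ : ∀ i, x (σ i) = (x i)⁻¹) {c : ℝ} (hc : 0 ≤ c)
    (H : ∀ f : G → ℂ, ∑ g, f g = 0 → (ip f (cv (conv (nu x) (nu x)) f)).re ≤ c * sq f)
    (f : G → ℂ) (hf : ∑ g, f g = 0) :
    2 * Fintype.card I * (1 - Real.sqrt c) * sq f ≤ ∑ i, sq (rt (x i) f - f) := by
  have hcard : (0 : ℝ) < Fintype.card I := by exact_mod_cast Fintype.card_pos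
  have h1 : sq (cv (nu x) f) ≤ c * sq f := by
    have := H f hf
    rwa [cv_conv, ip_cv _ (nu_symm x σ hσ), ip_self_re] at this
  have h2 : ∑ i, sq (rt (x i) f - f) = 2 * Fintype.card I * sq f -
      2 * Fintype.card I * (ip (cv (nu x) f) f).re := by
    have h3 : ∀ i, sq (rt (x i) f - f) = 2 * sq f - 2 * (ip (rt (x i) f) f).re := by
      intro i
      rw [sq_sub, sq_rt]
      ring
    simp only [h3]
    rw [Finset.sum_sub_distrib, Finset.sum_const, Finset.card_univ, nsmul_eq_mul,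
      ← Finset.mul_sum, cv_nu, ip_smul_left, ip_sum_left]
    have h4 : (starRingEnd ℂ) ((Fintype.card I : ℂ))⁻¹ = (((Fintype.card I : ℝ))⁻¹ : ℝ) := by
      rw [map_inv₀, Complex.conj_natCast]
      push_cast
      rfl
    rw [h4, Complex.re_ofReal_mul, Complex.re_sum]
    field_simp
  have h5 : (ip (cv (nu x) f) f).re ≤ Real.sqrt c * sq f := by
    refine (ip_re_le _ _).trans ?_
    have h6 : Real.sqrt (sq (cv (nu x) f)) ≤ Real.sqrt c * Real.sqrt (sq f) := by
      rw [← Real.sqrt_mul hc]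
      exact Real.sqrt_le_sqrt h1
    calc Real.sqrt (sq (cv (nu x) f)) * Real.sqrt (sq f)
        ≤ Real.sqrt c * Real.sqrt (sq f) * Real.sqrt (sq f) := by gcongr
      _ = Real.sqrt c * sq f := by
          rw [mul_assoc, Real.mul_self_sqrt (sq_nonneg' f)]
  rw [h2]
  have h7 : 2 * (Fintype.card I : ℝ) * (ip (cv (nu x) f) f).re ≤
      2 * (Fintype.card I : ℝ) * (Real.sqrt c * sq f) := by gcongr
  linarith

end general

/-! ### Words -/

open Classical in
/-- Sum over the words of length `t` of a function of the product. -/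
noncomputable def wsum (t : ℕ) (Φ : Quaternion ℤ → ℝ) : ℝ :=
  ∑ w : Fin t → Fin 6, Φ ((List.ofFn fun i => letter (w i)).prod)

theorem wsum_zero (Φ : Quaternion ℤ → ℝ) : wsum 0 Φ = Φ 1 := by
  simp [wsum]

theorem wsum_succ (t : ℕ) (Φ : Quaternion ℤ → ℝ) :
    wsum (t + 1) Φ = wsum t (fun α => ∑ a, Φ (α * letter a)) := by
  unfold wsum
  rw [← (Fin.snocEquiv (fun _ : Fin (t + 1) => Fin 6)).sum_comp, Fintype.sum_prod_type,
    Finset.sum_comm]
  refine Finset.sum_congr rfl fun w _ => Finset.sum_congr rfl fun a _ => ?_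
  congr 1
  rw [List.ofFn_succ', List.concat_eq_append, List.prod_append]
  simp [Fin.snocEquiv]

theorem wsum_mul (t : ℕ) (c : ℝ) (Φ : Quaternion ℤ → ℝ) :
    wsum t (fun α => c * Φ α) = c * wsum t Φ := by
  unfold wsum
  rw [Finset.mul_sum]

section words

variable {G : Type*} [Group G] [Fintype G]

theorem cpow_words (x : Fin 6 × Fin 6 → G) (R : ℕ → G → Quaternion ℤ → Prop) (hR0 : R 0 1 1)
    (hRs : ∀ n g α a b, R n g α → R (n + 1) (g * x (a, b)) (α * letter a * letter b)) (l : ℕ) :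
    ∀ (F : G → ℝ) (H : Quaternion ℤ → ℝ), (∀ g α, R (2 * l) g α → F g = H α) →
      ∑ g, cpow (conv (nu x) (nu x)) l g * F g = ((36 : ℝ) ^ (2 * l))⁻¹ * wsum (4 * l) H := by
  classical
  induction l with
  | zero =>
    intro F H hFH
    simp only [cpow, mul_zero, pow_zero, inv_one, one_mul, wsum_zero]
    rw [← hFH 1 1 hR0, Finset.sum_eq_single 1]
    · rw [if_pos rfl, one_mul]
    · intro b _ hb
      rw [if_neg hb, zero_mul]
    · intro h
      exact absurd (Finset.mem_univ _) h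
  | succ l ih =>
    intro F H hFH
    have h36 : (Fintype.card (Fin 6 × Fin 6) : ℝ) = 36 := by
      rw [Fintype.card_prod, Fintype.card_fin]
      norm_num
    have h1 : ∑ g, cpow (conv (nu x) (nu x)) (l + 1) g * F g =
        ∑ h, cpow (conv (nu x) (nu x)) l h *
          (((36 : ℝ) ^ 2)⁻¹ * ∑ ab, ∑ cd, F (h * x ab * x cd)) := by
      rw [show cpow (conv (nu x) (nu x)) (l + 1) =
        conv (cpow (conv (nu x) (nu x)) l) (conv (nu x) (nu x)) from rfl, sum_conv_mul]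
      refine Finset.sum_congr rfl fun h _ => ?_
      rw [sum_conv_mul (nu x) (nu x) (fun k => F (h * k)), sum_nu_mul]
      simp only [sum_nu_mul x (fun k => F (h * (_ * k)))]
      rw [← Finset.mul_sum, h36]
      simp only [← mul_assoc]
      ring
    have h2 := ih (fun h => ((36 : ℝ) ^ 2)⁻¹ * ∑ ab, ∑ cd, F (h * x ab * x cd))
      (fun α => ((36 : ℝ) ^ 2)⁻¹ * ∑ a, ∑ b, ∑ c, ∑ d,
        H (α * letter a * letter b * letter c * letter d)) (by
        intro g α hgα
        rw [Fintype.sum_prod_type]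
        congr 1
        refine Finset.sum_congr rfl fun a _ => Finset.sum_congr rfl fun b _ => ?_
        rw [Fintype.sum_prod_type]
        refine Finset.sum_congr rfl fun c _ => Finset.sum_congr rfl fun d _ => ?_
        exact hFH _ _ (hRs _ _ _ c d (hRs _ _ _ a b hgα)))
    rw [h1, h2, wsum_mul, show 4 * (l + 1) = 4 * l + 1 + 1 + 1 + 1 by ring, wsum_succ, wsum_succ,
      wsum_succ, wsum_succ, ← mul_assoc]
    congr 1
    rw [show 2 * (l + 1) = 2 * l + 2 by ring, pow_add, mul_inv]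

end words

/-! ### Quaternions -/

open Quaternion in
/-- The conjugate letter. -/
def cj : Fin 6 → Fin 6 := ![1, 0, 3, 2, 5, 4]

theorem cj_cj (a : Fin 6) : cj (cj a) = a := by
  fin_cases a <;> rfl

theorem letter_mul_cj (a : Fin 6) : letter a * letter (cj a) = 5 := by
  fin_cases a <;>
  · apply Quaternion.ext
    · rw [Quaternion.re_mul]; decide
    · rw [Quaternion.imI_mul]; decide
    · rw [Quaternion.imJ_mul]; decide
    · rw [Quaternion.imK_mul]; decide

theorem letter_norm (a : Fin 6) : Quaternion.normSq (letter a) = 5 := by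
  rw [Quaternion.normSq_def']
  fin_cases a <;> decide

theorem norm_five_pow (n : ℕ) : Quaternion.normSq ((5 : Quaternion ℤ) ^ n) = 25 ^ n := by
  have h : Quaternion.normSq (5 : Quaternion ℤ) = 25 := by
    rw [← letter_mul_cj 0, map_mul, letter_norm, letter_norm]
    norm_num
  rw [map_pow, h]

theorem five_pow_coe (n : ℕ) : (5 : Quaternion ℤ) ^ n = (((5 : ℤ) ^ n : ℤ) : Quaternion ℤ) := by
  push_cast
  rfl

/-- Componentwise criterion for the congruence. -/
theorem cong_iff (N : ℕ) (c : ℤ) (α : Quaternion ℤ) :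
    (∃ δ : Quaternion ℤ, α = (c : Quaternion ℤ) + (N : Quaternion ℤ) * δ) ↔
      (N : ℤ) ∣ α.re - c ∧ (N : ℤ) ∣ α.imI ∧ (N : ℤ) ∣ α.imJ ∧ (N : ℤ) ∣ α.imK := by
  have hN : ∀ δ : Quaternion ℤ, (N : Quaternion ℤ) * δ = (N : ℤ) • δ := by
    intro δ
    rw [zsmul_eq_mul]
    norm_cast
  constructor
  · rintro ⟨δ, rfl⟩
    rw [hN]
    refine ⟨⟨δ.re, ?_⟩, ⟨δ.imI, ?_⟩, ⟨δ.imJ, ?_⟩, ⟨δ.imK, ?_⟩⟩ <;> simp
  · rintro ⟨⟨a, ha⟩, ⟨b, hb⟩, ⟨c', hc⟩, ⟨d, hd⟩⟩
    obtain ⟨δ, h1, h2, h3, h4⟩ : ∃ δ : Quaternion ℤ, δ.re = a ∧ δ.imI = b ∧ δ.imJ = c' ∧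
        δ.imK = d := ⟨⟨a, b, c', d⟩, rfl, rfl, rfl, rfl⟩
    refine ⟨δ, ?_⟩
    rw [hN]
    apply Quaternion.ext
    · simp [h1]
      linarith
    · simp [h2, hb]
    · simp [h3, hc]
    · simp [h4, hd]

theorem five_pow_mul (j : ℕ) (β : Quaternion ℤ) :
    ((5 : Quaternion ℤ) ^ j * β).re = 5 ^ j * β.re ∧
    ((5 : Quaternion ℤ) ^ j * β).imI = 5 ^ j * β.imI ∧
    ((5 : Quaternion ℤ) ^ j * β).imJ = 5 ^ j * β.imJ ∧
    ((5 : Quaternion ℤ) ^ j * β).imK = 5 ^ j * β.imK := by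
  have h : (5 : Quaternion ℤ) ^ j * β = (5 ^ j : ℤ) • β := by
    rw [five_pow_coe, zsmul_eq_mul]
  rw [h]
  refine ⟨?_, ?_, ?_, ?_⟩
  · rw [Quaternion.re_smul, smul_eq_mul]
  · rw [Quaternion.imI_smul, smul_eq_mul]
  · rw [Quaternion.imJ_smul, smul_eq_mul]
  · rw [Quaternion.imK_smul, smul_eq_mul]

/-- The power of five dividing a quaternion exactly. -/
def Ex (j : ℕ) (α : Quaternion ℤ) : Prop :=
  (5 ^ j : Quaternion ℤ) ∣ α ∧ ¬ (5 ^ (j + 1) : Quaternion ℤ) ∣ α

theorem exists_ex {n : ℕ} {α : Quaternion ℤ} (hα : Quaternion.normSq α = 25 ^ n) :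
    ∃ j ≤ n, Ex j α := by
  classical
  have hn : ¬ (5 ^ (n + 1) : Quaternion ℤ) ∣ α := by
    rintro ⟨β, rfl⟩
    rw [map_mul, norm_five_pow, pow_succ, mul_assoc] at hα
    have h1 : (25 : ℤ) ^ n ≠ 0 := by positivity
    have h2 : 25 * Quaternion.normSq β = 1 := by
      have : (25 : ℤ) ^ n * (25 * Quaternion.normSq β) = 25 ^ n * 1 := by rw [hα, mul_one]
      exact mul_left_cancel₀ h1 this
    omega
  have hex : ∃ j, ¬ (5 ^ (j + 1) : Quaternion ℤ) ∣ α := ⟨n, hn⟩
  refine ⟨Nat.find hex, Nat.find_min' hex hn, ?_, Nat.find_spec hex⟩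
  rcases Nat.eq_zero_or_pos (Nat.find hex) with h | h
  · rw [h, pow_zero]
    exact one_dvd _
  · have h1 := Nat.find_min hex (m := Nat.find hex - 1) (by omega)
    rw [not_not, Nat.sub_add_cancel h] at h1
    exact h1

theorem ex_quot {n j : ℕ} {β : Quaternion ℤ}
    (hα : Quaternion.normSq ((5 : Quaternion ℤ) ^ j * β) = 25 ^ n) (hj : j ≤ n) :
    Quaternion.normSq β = 25 ^ (n - j) := by
  rw [map_mul, norm_five_pow] at hα
  have h1 : (25 : ℤ) ^ j ≠ 0 := by positivity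
  apply mul_left_cancel₀ h1
  rw [hα, ← pow_add]
  congr 1
  omega

theorem cong_quot {n j N : ℕ} (hN : N.Coprime 10) (hj : j ≤ n) {β : Quaternion ℤ}
    (hc : ∃ δ : Quaternion ℤ, (5 : Quaternion ℤ) ^ j * β = 5 ^ n + (N : Quaternion ℤ) * δ) :
    ∃ δ : Quaternion ℤ, β = 5 ^ (n - j) + (N : Quaternion ℤ) * δ := by
  rw [five_pow_coe n] at hc
  rw [five_pow_coe (n - j)]
  rw [cong_iff] at hc ⊢
  obtain ⟨h1, h2, h3, h4⟩ := five_pow_mul j β
  rw [h1, h2, h3, h4] at hc
  have h5 : IsCoprime (N : ℤ) ((5 : ℤ) ^ j) := by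
    apply IsCoprime.pow_right
    have h6 : N.Coprime 5 := Nat.Coprime.coprime_dvd_right (by norm_num) hN
    exact_mod_cast Nat.isCoprime_iff_coprime.mpr h6
  refine ⟨?_, h5.dvd_of_dvd_mul_left hc.2.1, h5.dvd_of_dvd_mul_left hc.2.2.1,
    h5.dvd_of_dvd_mul_left hc.2.2.2⟩
  apply h5.dvd_of_dvd_mul_left
  have h7 : (5 : ℤ) ^ j * (β.re - 5 ^ (n - j)) = 5 ^ j * β.re - 5 ^ n := by
    rw [mul_sub, ← pow_add]
    congr 2
    omega
  rw [h7]
  exact hc.1

theorem norm_word (t : ℕ) (w : Fin t → Fin 6) :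
    Quaternion.normSq ((List.ofFn fun i => letter (w i)).prod) = 5 ^ t := by
  rw [map_list_prod, List.map_ofFn]
  have : (⇑(Quaternion.normSq (R := ℤ)) ∘ fun i => letter (w i)) = fun _ => (5 : ℤ) := by
    funext i
    exact letter_norm (w i)
  rw [this]
  simp

open Classical in
theorem word_count (l N : ℕ) (hN : N.Coprime 10) (ε C : ℝ) (hε : 0 < ε) (hC : 1 ≤ C)
    (h2 : ∀ n : ℕ, 1 ≤ n → ∀ T : Finset (ℤ × ℤ), (∀ x ∈ T, x.1 ^ 2 + x.2 ^ 2 = (n : ℤ)) →
      (T.card : ℝ) ≤ C * (n : ℝ) ^ ε) :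
    wsum (4 * l) (fun α => if ∃ δ : Quaternion ℤ, α = 5 ^ (2 * l) + (N : Quaternion ℤ) * δ
      then 1 else 0) ≤ ∑ j ∈ Finset.range (2 * l + 1),
      ((4 * l).choose j : ℝ) * 6 ^ j *
        ((2 * 5 ^ (2 * l - j) / (N : ℝ) ^ 2 + 1) * (2 * 5 ^ (2 * l - j) / (N : ℝ) + 1) *
          (C * ((25 : ℝ) ^ (2 * l - j)) ^ ε)) := by
  set P : Quaternion ℤ → Prop := fun α =>
    ∃ δ : Quaternion ℤ, α = 5 ^ (2 * l) + (N : Quaternion ℤ) * δ with hP
  set π : (Fin (4 * l) → Fin 6) → Quaternion ℤ :=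
    fun w => (List.ofFn fun i => letter (w i)).prod with hπ
  set A : Finset (Fin (4 * l) → Fin 6) := Finset.univ.filter (fun w => P (π w)) with hA
  set T : Finset (Quaternion ℤ) := A.image π with hT
  have hT1 : ∀ α ∈ T, Quaternion.normSq α = 25 ^ (2 * l) ∧ P α := by
    intro α hα
    rw [hT, Finset.mem_image] at hα
    obtain ⟨w, hw, rfl⟩ := hα
    rw [hA, Finset.mem_filter] at hw
    refine ⟨?_, hw.2⟩
    rw [hπ]
    simp only
    rw [norm_word, show 4 * l = 2 * (2 * l) by ring, pow_mul]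
    norm_num
  have h1 : wsum (4 * l) (fun α => if P α then 1 else 0) = A.card := by
    unfold wsum
    rw [hA, Finset.card_filter]
    push_cast
    rfl
  have h3 : (A.card : ℝ) ≤ ∑ α ∈ T, (wd (4 * l) α : ℝ) := by
    rw [Finset.card_eq_sum_card_image π A]
    push_cast
    apply Finset.sum_le_sum
    intro α _
    have h4 : (A.filter (fun w => π w = α)).card ≤ wd (4 * l) α := by
      unfold wd
      rw [Nat.card_eq_fintype_card, Fintype.card_subtype]
      apply Finset.card_le_card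
      intro w hw
      rw [Finset.mem_filter] at hw ⊢
      exact ⟨Finset.mem_univ _, hw.2⟩
    exact_mod_cast h4
  have h5 : ∑ α ∈ T, (wd (4 * l) α : ℝ) ≤ ∑ j ∈ Finset.range (2 * l + 1),
      ((T.filter (Ex j)).card : ℝ) * (((4 * l).choose j : ℝ) * 6 ^ j) := by
    calc ∑ α ∈ T, (wd (4 * l) α : ℝ)
        ≤ ∑ α ∈ T, ∑ j ∈ Finset.range (2 * l + 1),
          (if Ex j α then ((4 * l).choose j : ℝ) * 6 ^ j else 0) := by
          apply Finset.sum_le_sum
          intro α hα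
          obtain ⟨j, hj, hex⟩ := exists_ex (hT1 α hα).1
          have h6 : (wd (4 * l) α : ℝ) ≤ ((4 * l).choose j : ℝ) * 6 ^ j := by
            exact_mod_cast word_bound (4 * l) j α hex.1 hex.2
          refine h6.trans ?_
          have h7 := Finset.single_le_sum (s := Finset.range (2 * l + 1))
            (f := fun j => if Ex j α then ((4 * l).choose j : ℝ) * 6 ^ j else 0)
            (fun i _ => by
              split_ifs <;> positivity) (Finset.mem_range.mpr (Nat.lt_succ_of_le hj))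
          simp only [if_pos hex] at h7
          exact h7
      _ = ∑ j ∈ Finset.range (2 * l + 1),
          ((T.filter (Ex j)).card : ℝ) * (((4 * l).choose j : ℝ) * 6 ^ j) := by
          rw [Finset.sum_comm]
          refine Finset.sum_congr rfl fun j _ => ?_
          rw [← Finset.sum_filter, Finset.sum_const, nsmul_eq_mul]
  rw [h1]
  refine (h3.trans h5).trans ?_
  apply Finset.sum_le_sum
  intro j hj
  rw [Finset.mem_range] at hj
  have hj' : j ≤ 2 * l := by omega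
  -- divide by `5 ^ j`
  have hq : ∀ α ∈ T.filter (Ex j), ∃ β : Quaternion ℤ, α = 5 ^ j * β := by
    intro α hα
    rw [Finset.mem_filter] at hα
    exact hα.2.1
  choose! q hq using hq
  have hinj : Set.InjOn q (T.filter (Ex j)) := by
    intro α hα β hβ h
    rw [hq α hα, hq β hβ, h]
  have h8 : (((T.filter (Ex j)).image q).card : ℝ) ≤
      (2 * 5 ^ (2 * l - j) / (N : ℝ) ^ 2 + 1) * (2 * 5 ^ (2 * l - j) / (N : ℝ) + 1) *
        (C * ((25 : ℝ) ^ (2 * l - j)) ^ ε) := by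
    apply quat_count ε C hε hC h2 N (2 * l - j) hN
    intro β hβ
    rw [Finset.mem_image] at hβ
    obtain ⟨α, hα, rfl⟩ := hβ
    have h9 := hq α hα
    have h10 := hT1 α (Finset.mem_filter.mp hα).1
    rw [h9] at h10
    exact ⟨ex_quot h10.1 hj', cong_quot hN hj' h10.2⟩
  rw [Finset.card_image_of_injOn hinj] at h8
  calc ((T.filter (Ex j)).card : ℝ) * (((4 * l).choose j : ℝ) * 6 ^ j)
      ≤ ((2 * 5 ^ (2 * l - j) / (N : ℝ) ^ 2 + 1) * (2 * 5 ^ (2 * l - j) / (N : ℝ) + 1) *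
        (C * ((25 : ℝ) ^ (2 * l - j)) ^ ε)) * (((4 * l).choose j : ℝ) * 6 ^ j) := by gcongr
    _ = _ := by ring

/-! ### The letters in the product -/

theorem det_one {q : ℕ} [Fact q.Prime] (h5 : (5 : ZMod q) ≠ 0)
    (φ : Quaternion ℤ →+* Matrix (Fin 2) (Fin 2) (ZMod q))
    (hdet : ∀ α, (φ α).det = ((Quaternion.normSq α : ℤ) : ZMod q)) (a b : Fin 6) :
    ((5 : ZMod q)⁻¹ • φ (letter a * letter b)).det = 1 := by
  rw [Matrix.det_smul, hdet, map_mul, letter_norm, letter_norm, Fintype.card_fin]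
  push_cast
  field_simp
  norm_num

/-- The involution of the pairs of letters. -/
def sg : Fin 6 × Fin 6 ≃ Fin 6 × Fin 6 where
  toFun ab := (cj ab.2, cj ab.1)
  invFun ab := (cj ab.2, cj ab.1)
  left_inv ab := by simp [cj_cj]
  right_inv ab := by simp [cj_cj]

theorem rpow_bound {q : ℕ} (hq : 2 ^ 40 ≤ q) :
    (q : ℝ) ^ ((19 : ℝ) / 20) ≤ ((q : ℝ) - 1) / 2 := by
  have hq' : (2 : ℝ) ^ 40 ≤ q := by exact_mod_cast hq
  have hq0 : (0 : ℝ) < q := lt_of_lt_of_le (by positivity) hq'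
  have h1 : (4 : ℝ) ≤ (q : ℝ) ^ ((1 : ℝ) / 20) := by
    have h2 : ((2 : ℝ) ^ 40) ^ ((1 : ℝ) / 20) = 4 := by
      rw [← Real.rpow_natCast, ← Real.rpow_mul (by norm_num)]
      norm_num
    rw [← h2]
    exact Real.rpow_le_rpow (by positivity) hq' (by norm_num)
  have h3 : (q : ℝ) ^ ((19 : ℝ) / 20) * (q : ℝ) ^ ((1 : ℝ) / 20) = q := by
    rw [← Real.rpow_add hq0]
    norm_num
  have h4 : 0 ≤ (q : ℝ) ^ ((19 : ℝ) / 20) := by positivity
  have h5 : (q : ℝ) ^ ((19 : ℝ) / 20) * 4 ≤ q := by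
    calc (q : ℝ) ^ ((19 : ℝ) / 20) * 4 ≤ (q : ℝ) ^ ((19 : ℝ) / 20) * (q : ℝ) ^ ((1 : ℝ) / 20) := by
          gcongr
      _ = q := h3
  have h6 : (2 : ℝ) ≤ q := le_trans (by norm_num) hq'
  linarith

theorem nf_gap (p₁ : ℕ) (C : ℝ) (hC : 1 ≤ C)
    (h2 : ∀ n : ℕ, 1 ≤ n → ∀ T : Finset (ℤ × ℤ), (∀ x ∈ T, x.1 ^ 2 + x.2 ^ 2 = (n : ℤ)) →
      (T.card : ℝ) ≤ C * (n : ℝ) ^ ((1 : ℝ) / 100))
    (hnum : ∀ N : ℕ, p₁ ≤ N → ∃ l : ℕ,
    (N : ℝ) ^ 3 * ((36 : ℝ) ^ (2 * l))⁻¹ * ∑ j ∈ Finset.range (2 * l + 1),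
      ((4 * l).choose j : ℝ) * 6 ^ j *
        ((2 * 5 ^ (2 * l - j) / (N : ℝ) ^ 2 + 1) * (2 * 5 ^ (2 * l - j) / (N : ℝ) + 1) *
          (C * ((25 : ℝ) ^ (2 * l - j)) ^ ((1 : ℝ) / 100))) <
      (49 / 50 : ℝ) ^ l * (N : ℝ) ^ ((19 : ℝ) / 20))
    (ι : Type) [Fintype ι] [DecidableEq ι]
    (p : ι → ℕ) [∀ i, Fact (p i).Prime] (hinj : Function.Injective p)
    (hp : ∀ i, max (2 ^ 40) p₁ ≤ p i) :
    ∃ x : Fin 6 × Fin 6 → (∀ i, SL(2, ZMod (p i))),
      ∀ f : (∀ i, SL(2, ZMod (p i))) → ℂ, ∑ g, f g = 0 →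
        72 * (1 - Real.sqrt (49 / 50)) * sq f ≤ ∑ ab, sq (rt (x ab) f - f) := by
  classical
  have hp40 : ∀ i, 2 ^ 40 ≤ p i := fun i => (le_max_left _ _).trans (hp i)
  have h5 : ∀ i, (5 : ZMod (p i)) ≠ 0 := by
    intro i h
    have h' : ((5 : ℕ) : ZMod (p i)) = 0 := by exact_mod_cast h
    rw [ZMod.natCast_eq_zero_iff] at h'
    have := Nat.le_of_dvd (by norm_num) h'
    have := hp40 i
    omega
  have hcop : ∀ i, (p i).Coprime 10 := by
    intro i
    rw [Nat.Prime.coprime_iff_not_dvd Fact.out]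
    intro h
    have := Nat.le_of_dvd (by norm_num) h
    have := hp40 i
    omega
  have hφ : ∀ i, ∃ φ : Quaternion ℤ →+* Matrix (Fin 2) (Fin 2) (ZMod (p i)),
      (∀ α, (φ α).det = ((Quaternion.normSq α : ℤ) : ZMod (p i))) ∧
      (∀ α, φ α = 0 → ∃ β : Quaternion ℤ, α = (p i : Quaternion ℤ) * β) := by
    intro i
    refine quat_hom (p i) ?_
    have := hp40 i
    omega
  choose φ hdet hker using hφ
  set x : Fin 6 × Fin 6 → (∀ i, SL(2, ZMod (p i))) := fun ab i =>
    ⟨(5 : ZMod (p i))⁻¹ • φ i (letter ab.1 * letter ab.2),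
      det_one (h5 i) (φ i) (hdet i) ab.1 ab.2⟩ with hx
  have hxval : ∀ ab i, (x ab i).1 = (5 : ZMod (p i))⁻¹ • φ i (letter ab.1 * letter ab.2) :=
    fun _ _ => rfl
  have hσ : ∀ ab, x (sg ab) = (x ab)⁻¹ := by
    intro ab
    apply eq_inv_of_mul_eq_one_right
    funext i
    apply Subtype.ext
    have h1 : letter ab.1 * letter ab.2 * (letter (cj ab.2) * letter (cj ab.1)) =
        (25 : Quaternion ℤ) := by
      have h2 : letter ab.1 * letter ab.2 * (letter (cj ab.2) * letter (cj ab.1)) =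
          letter ab.1 * (letter ab.2 * letter (cj ab.2)) * letter (cj ab.1) := by noncomm_ring
      have h3 : letter ab.1 * (5 : Quaternion ℤ) = 5 * letter ab.1 := by noncomm_ring
      rw [h2, letter_mul_cj, h3, mul_assoc, letter_mul_cj]
      norm_num
    show (x ab i).1 * (x (sg ab) i).1 = 1
    rw [hxval, hxval, Matrix.smul_mul, Matrix.mul_smul, ← map_mul]
    show (5 : ZMod (p i))⁻¹ • (5 : ZMod (p i))⁻¹ •
      φ i (letter ab.1 * letter ab.2 * (letter (cj ab.2) * letter (cj ab.1))) = 1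
    rw [h1, map_ofNat, smul_smul]
    have h4 : (OfNat.ofNat 25 : Matrix (Fin 2) (Fin 2) (ZMod (p i))) =
        (25 : ZMod (p i)) • (1 : Matrix (Fin 2) (Fin 2) (ZMod (p i))) := by
      rw [← Algebra.algebraMap_eq_smul_one, map_ofNat]
    rw [h4, smul_smul]
    have h6 : (5 : ZMod (p i))⁻¹ * (5 : ZMod (p i))⁻¹ * 25 = 1 := by
      have := h5 i
      field_simp
      norm_num
    rw [h6, one_smul]
  refine ⟨x, ?_⟩
  -- the relation
  set R : ℕ → (∀ i, SL(2, ZMod (p i))) → Quaternion ℤ → Prop := fun n g α =>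
    ∀ i, (g i).1 = ((5 : ZMod (p i)) ^ n)⁻¹ • φ i α with hR
  have hR0 : R 0 1 1 := by
    intro i
    rw [pow_zero, inv_one, one_smul, map_one]
    rfl
  have hRs : ∀ n g α a b, R n g α → R (n + 1) (g * x (a, b)) (α * letter a * letter b) := by
    intro n g α a b h i
    show (g i).1 * (x (a, b) i).1 = _
    rw [h i, hxval, Matrix.smul_mul, Matrix.mul_smul, ← map_mul, smul_smul, pow_succ, mul_inv,
      mul_assoc α]
  have hchar : ∀ (J : Finset ι) (n : ℕ) (g : ∀ i, SL(2, ZMod (p i))) (α : Quaternion ℤ),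
      R n g α → ((∀ i ∈ J, g i = 1) ↔
        ∃ δ : Quaternion ℤ, α = 5 ^ n + ((∏ i ∈ J, p i : ℕ) : Quaternion ℤ) * δ) := by
    intro J n g α h
    have h1 : ∀ i, g i = 1 ↔ ∃ β : Quaternion ℤ, α = 5 ^ n + (p i : Quaternion ℤ) * β := by
      intro i
      have h5n : (5 : ZMod (p i)) ^ n ≠ 0 := pow_ne_zero _ (h5 i)
      have h2 : g i = 1 ↔ φ i (α - 5 ^ n) = 0 := by
        rw [map_sub, map_pow, map_ofNat, sub_eq_zero]
        have h4 : (OfNat.ofNat 5 : Matrix (Fin 2) (Fin 2) (ZMod (p i))) ^ n =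
            ((5 : ZMod (p i)) ^ n) • (1 : Matrix (Fin 2) (Fin 2) (ZMod (p i))) := by
          rw [← Algebra.algebraMap_eq_smul_one, map_pow, map_ofNat]
        rw [h4]
        constructor
        · intro hg
          have h3 := h i
          rw [hg] at h3
          have h3' : (1 : Matrix (Fin 2) (Fin 2) (ZMod (p i))) =
            ((5 : ZMod (p i)) ^ n)⁻¹ • φ i α := h3
          rw [h3', smul_smul, mul_inv_cancel₀ h5n, one_smul]
        · intro hg
          apply Subtype.ext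
          rw [h i, hg, smul_smul, inv_mul_cancel₀ h5n, one_smul]
          rfl
      rw [h2]
      constructor
      · intro h3
        obtain ⟨β, hβ⟩ := hker i _ h3
        exact ⟨β, by rw [← hβ]; abel⟩
      · rintro ⟨β, hβ⟩
        rw [hβ, add_sub_cancel_left, map_mul, map_natCast]
        have h6 : ((p i : ℕ) : Matrix (Fin 2) (Fin 2) (ZMod (p i))) = 0 := by
          have h7 : ((p i : ℕ) : Matrix (Fin 2) (Fin 2) (ZMod (p i))) =
              algebraMap (ZMod (p i)) _ ((p i : ℕ) : ZMod (p i)) := by rw [map_natCast]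
          rw [h7, ZMod.natCast_self, map_zero]
        rw [h6, zero_mul]
    simp only [h1]
    rw [five_pow_coe n]
    simp only [cong_iff]
    have hpair : ((J : Finset ι) : Set ι).Pairwise
        (Function.onFun IsCoprime fun i => (p i : ℤ)) := by
      intro i _ j _ hij
      show IsCoprime (p i : ℤ) (p j : ℤ)
      exact Nat.isCoprime_iff_coprime.mpr
        ((Nat.coprime_primes Fact.out Fact.out).mpr fun h => hij (hinj h))
    have hprod : ((∏ i ∈ J, p i : ℕ) : ℤ) = ∏ i ∈ J, (p i : ℤ) := by push_cast; rfl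
    constructor
    · intro h3
      rw [hprod]
      exact ⟨Finset.prod_dvd_of_coprime hpair fun i hi => (h3 i hi).1,
        Finset.prod_dvd_of_coprime hpair fun i hi => (h3 i hi).2.1,
        Finset.prod_dvd_of_coprime hpair fun i hi => (h3 i hi).2.2.1,
        Finset.prod_dvd_of_coprime hpair fun i hi => (h3 i hi).2.2.2⟩
    · intro h3 i hi
      have hd : (p i : ℤ) ∣ ((∏ i ∈ J, p i : ℕ) : ℤ) := by
        rw [hprod]
        exact Finset.dvd_prod_of_mem _ hi
      exact ⟨hd.trans h3.1, hd.trans h3.2.1, hd.trans h3.2.2.1, hd.trans h3.2.2.2⟩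
  -- the spectral bound
  have hcore : ∀ f : (∀ i, SL(2, ZMod (p i))) → ℂ, ∑ g, f g = 0 →
      (ip f (cv (conv (nu x) (nu x)) f)).re ≤ (49 / 50) * sq f := by
    refine core (fun i => ZMod (p i)) (conv (nu x) (nu x)) ?_ ?_ ?_ (49 / 50) (by norm_num) ?_
    · intro g
      unfold conv
      exact Finset.sum_nonneg fun h _ => mul_nonneg (nu_nonneg x _) (nu_nonneg x _)
    · exact conv_symm _ (nu_symm x sg hσ)
    · intro f
      rw [cv_conv, ip_cv _ (nu_symm x sg hσ), ip_self_re]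
      exact sq_nonneg' _
    · intro J hJ
      set N : ℕ := ∏ i ∈ J, p i with hN
      obtain ⟨i₀, hi₀⟩ := hJ
      have hN0 : 0 < N := Finset.prod_pos fun i _ => (Fact.out : (p i).Prime).pos
      have hpN : p₁ ≤ N := by
        refine ((le_max_right _ _).trans (hp i₀)).trans ?_
        exact Nat.le_of_dvd hN0 (Finset.dvd_prod_of_mem p hi₀)
      have hNcop : N.Coprime 10 := Nat.Coprime.prod_left fun i _ => hcop i
      obtain ⟨l, hl⟩ := hnum N hpN
      refine ⟨l, ?_⟩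
      have hmass : (∑ g ∈ Finset.univ.filter
          (fun g : (∀ i, SL(2, ZMod (p i))) => ∀ i ∈ J, g i = 1), cpow (conv (nu x) (nu x)) l g) ≤
          ((36 : ℝ) ^ (2 * l))⁻¹ * ∑ j ∈ Finset.range (2 * l + 1),
          ((4 * l).choose j : ℝ) * 6 ^ j *
            ((2 * 5 ^ (2 * l - j) / (N : ℝ) ^ 2 + 1) * (2 * 5 ^ (2 * l - j) / (N : ℝ) + 1) *
              (C * ((25 : ℝ) ^ (2 * l - j)) ^ ((1 : ℝ) / 100))) := by
        have h1 : (∑ g ∈ Finset.univ.filter
            (fun g : (∀ i, SL(2, ZMod (p i))) => ∀ i ∈ J, g i = 1),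
              cpow (conv (nu x) (nu x)) l g) =
            ∑ g, cpow (conv (nu x) (nu x)) l g * (if ∀ i ∈ J, g i = 1 then 1 else 0) := by
          rw [Finset.sum_filter]
          refine Finset.sum_congr rfl fun g _ => ?_
          split_ifs <;> simp
        rw [h1, cpow_words x R hR0 hRs l _
          (fun α => if ∃ δ : Quaternion ℤ, α = 5 ^ (2 * l) + (N : Quaternion ℤ) * δ
            then 1 else 0) (by
          intro g α hgα
          have h2 := hchar J (2 * l) g α hgα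
          by_cases h3 : ∀ i ∈ J, g i = 1
          · rw [if_pos h3, if_pos (h2.mp h3)]
          · rw [if_neg h3, if_neg (fun h4 => h3 (h2.mpr h4))])]
        refine mul_le_mul_of_nonneg_left ?_ (by positivity)
        exact word_count l N hNcop _ C (by norm_num) hC h2
      have hcard : (∏ i ∈ J, (Fintype.card SL(2, ZMod (p i)) : ℝ)) ≤ (N : ℝ) ^ 3 := by
        rw [hN]
        push_cast
        rw [← Finset.prod_pow]
        refine Finset.prod_le_prod (fun i _ => by positivity) fun i _ => ?_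
        have h1 := card_sl2 (ZMod (p i))
        rw [ZMod.card] at h1
        have h3 : Fintype.card SL(2, ZMod (p i)) ≤ p i ^ 3 := by omega
        exact_mod_cast h3
      have hpr : (N : ℝ) ^ ((19 : ℝ) / 20) ≤
          ∏ i ∈ J, (((Fintype.card (ZMod (p i)) : ℝ) - 1) / 2) := by
        rw [hN]
        push_cast
        rw [← Real.finsetProd_rpow _ _ (fun i _ => by positivity)]
        refine Finset.prod_le_prod (fun i _ => by positivity) fun i _ => ?_
        rw [ZMod.card]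
        exact rpow_bound (hp40 i)
      refine lt_of_le_of_lt ?_ (lt_of_lt_of_le hl ?_)
      · rw [mul_assoc]
        refine mul_le_mul hcard hmass ?_ (by positivity)
        refine Finset.sum_nonneg fun g _ => ?_
        have hnn : ∀ (m : ℕ) (g : ∀ i, SL(2, ZMod (p i))),
            0 ≤ cpow (conv (nu x) (nu x)) m g := by
          intro m
          induction m with
          | zero =>
            intro g
            simp only [cpow]
            split_ifs <;> norm_num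
          | succ m ih =>
            intro g
            simp only [cpow, conv]
            exact Finset.sum_nonneg fun h _ => mul_nonneg (ih _)
              (Finset.sum_nonneg fun h' _ => mul_nonneg (nu_nonneg x _) (nu_nonneg x _))
        exact hnn l g
      · exact mul_le_mul_of_nonneg_left hpr (by positivity)
  intro f hf
  have h := gap_of_core x sg hσ (by norm_num) hcore f hf
  rw [Fintype.card_prod, Fintype.card_fin] at h
  push_cast at h
  linarith

end NF

/-- Products of `SL(2, 𝔽_p)` over different large primes have a spectral gap. -/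
theorem expd_nf : ∃ (k : ℕ) (κ : ℝ) (p₀ : ℕ), 0 < κ ∧ ∀ (ι : Type) [Fintype ι] [DecidableEq ι]
    (p : ι → ℕ) [∀ i, Fact (p i).Prime], Function.Injective p → (∀ i, p₀ ≤ p i) →
    Expd (∀ i, SL(2, ZMod (p i))) k κ := by
  obtain ⟨C₀, _, hC₀⟩ := two_sq_bound (1 / 100) (by norm_num)
  have hC : 1 ≤ max C₀ 1 := le_max_right _ _
  have h2 : ∀ n : ℕ, 1 ≤ n → ∀ T : Finset (ℤ × ℤ), (∀ x ∈ T, x.1 ^ 2 + x.2 ^ 2 = (n : ℤ)) →
      (T.card : ℝ) ≤ max C₀ 1 * (n : ℝ) ^ ((1 : ℝ) / 100) := by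
    intro n hn T hT
    refine (hC₀ n hn T hT).trans ?_
    have : 0 ≤ (n : ℝ) ^ ((1 : ℝ) / 100) := by positivity
    exact mul_le_mul_of_nonneg_right (le_max_left _ _) this
  obtain ⟨p₁, hp₁⟩ := nf_num (max C₀ 1) hC
  refine ⟨6 * 6, 72 * (1 - Real.sqrt (49 / 50)), max (2 ^ 40) p₁, ?_, ?_⟩
  · have : Real.sqrt (49 / 50) < 1 := by
      rw [Real.sqrt_lt' (by norm_num)]
      norm_num
    linarith
  · intro ι _ _ p _ hinj hp
    obtain ⟨x, hx⟩ := NF.nf_gap p₁ (max C₀ 1) hC h2 hp₁ ι p hinj hp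
    refine ⟨fun k => x (finProdFinEquiv.symm k), ?_⟩
    intro f hf
    refine (hx f hf).trans (le_of_eq ?_)
    exact (Equiv.sum_comp finProdFinEquiv.symm fun ab => sq (rt (x ab) f - f)).symm

end Pool.Agent.MPfe8e9b
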