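import Mathlib

/-!
# MP_fe8e9b_al: primitive elements of finite fields
-/

namespace Pool.Agent.MPfe8e9b

/-- PRIM. -/
theorem prim_elem (F E : Type) [Field F] [Fintype F] [Field E] [Fintype E] [Algebra F E] :
    ∃ θ : E, Algebra.adjoin F {θ} = ⊤ ∧
      Fintype.card E = Fintype.card F ^ (minpoly F θ).natDegree := by
  have : Module.Finite F E := Module.Finite.of_finite
  obtain ⟨θ, hθ⟩ := Field.exists_primitive_element F E
  refine ⟨θ, ?_, ?_⟩
  · have h1 := IntermediateField.adjoin_simple_toSubalgebra_of_isAlgebraic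
      (Algebra.IsAlgebraic.isAlgebraic (R := F) θ)
    rw [← h1, hθ]
    rfl
  · rw [(Field.primitive_element_iff_minpoly_natDegree_eq F θ).mp hθ]
    exact Module.card_eq_pow_finrank
end Pool.Agent.MPfe8e9b
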