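import Mathlib
import Pool.Agent.Lib.MP_fe8e9b_al.BaseF
import Pool.Agent.Lib.MP_fe8e9b_al.Prim
import Pool.Agent.Lib.MP_fe8e9b_al.NF

/-!
# MP_fe8e9b_al: distinct finite fields of large characteristic
-/

open scoped BigOperators MatrixGroups Pointwise

namespace Pool.Agent.MPfe8e9b

open Base in
theorem expd_bigchar_aux : ∃ (k : ℕ) (κ : ℝ) (p₀ : ℕ), 0 < κ ∧ ∀ (P : Type) [Fintype P]
    [DecidableEq P] (p : P → ℕ) [∀ a, Fact (p a).Prime] (I : P → Type) [∀ a, Fintype (I a)]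
    [∀ a, DecidableEq (I a)] (F : ∀ a, I a → Type) [∀ a i, Field (F a i)]
    [∀ a i, Fintype (F a i)] [∀ a i, DecidableEq (F a i)] [∀ a i, Algebra (ZMod (p a)) (F a i)],
    Function.Injective p → (∀ a, p₀ ≤ p a) →
    (∀ a, Function.Injective (fun i => Fintype.card (F a i))) →
    Expd (∀ a, ∀ i, SL(2, F a i)) k κ := by
  obtain ⟨q₁, hq₁⟩ := angle_ffE
  obtain ⟨k, κ, p₁, hκ, hexp⟩ := expd_nf
  have hs : Real.sqrt (1 / 4) < 1 := by
    rw [Real.sqrt_lt' one_pos]
    norm_num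
  refine ⟨k + 1, (1 - Real.sqrt (1 / 4)) * min κ 1 / (9 * ((3 : ℕ) + 1) ^ 2),
    max (max p₁ q₁) 7, ?_, ?_⟩
  · have h1 : 0 < 1 - Real.sqrt (1 / 4) := by linarith
    have h2 : 0 < min κ 1 := lt_min hκ one_pos
    positivity
  intro P _ _ p _ I _ _ F _ _ _ _ hp hp₀ hinj
  have hp1 : ∀ a, p₁ ≤ p a := fun a => ((le_max_left _ _).trans (le_max_left _ _)).trans (hp₀ a)
  have hq1 : ∀ a, q₁ ≤ Fintype.card (ZMod (p a)) := fun a => by
    rw [ZMod.card]
    exact ((le_max_right _ _).trans (le_max_left _ _)).trans (hp₀ a)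
  have hp7 : ∀ a, 7 ≤ Fintype.card (ZMod (p a)) := fun a => by
    rw [ZMod.card]
    exact (le_max_right _ _).trans (hp₀ a)
  choose θ hθ1 hθ2 using fun (a : P) (i : I a) => prim_elem (ZMod (p a)) (F a i)
  have hmin : ∀ a, Function.Injective (fun i => minpoly (ZMod (p a)) (θ a i)) := by
    intro a i j hij
    apply hinj a
    show Fintype.card (F a i) = Fintype.card (F a j)
    have hij' : minpoly (ZMod (p a)) (θ a i) = minpoly (ZMod (p a)) (θ a j) := hij
    rw [hθ2 a i, hθ2 a j, hij']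
  set ψ := piHom (fun a => vHomE (ZMod (p a)) (F a) (θ a)) with hψ
  set φ := piHom (fun a => kHomE (ZMod (p a)) (F a)) with hφ
  have hang : Angle ψ φ (1 / 4) :=
    angle_pi _ _ (by norm_num) fun a => hq₁ (ZMod (p a)) (hq1 a) (I a) (F a) (θ a) (hθ1 a) (hmin a)
  let ξ : ∀ a, ∀ i, SL(2, F a i) := fun a i => e12 (θ a i)
  refine expd_conj φ ψ (by norm_num) (by norm_num) hang hκ (hexp P p hp hp1) ξ 3 ?_
  intro u
  choose s t hs0 ht0 hst using fun a => sq_diff_field (ZMod (p a)) (hp7 a)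
    (Multiplicative.toAdd (u a)).2
  let D₁ : ∀ a, SL(2, ZMod (p a)) := fun a => dmat (s a) (hs0 a)
  let D₂ : ∀ a, SL(2, ZMod (p a)) := fun a => dmat (t a) (ht0 a)
  let B : ∀ a, SL(2, ZMod (p a)) := fun a => e12 (Multiplicative.toAdd (u a)).1
  have hmapD : ∀ (a : P) (i : I a) (x : ZMod (p a)) (hx : x ≠ 0),
      Matrix.SpecialLinearGroup.map (algebraMap (ZMod (p a)) (F a i)) (dmat x hx) =
        dmat (algebraMap (ZMod (p a)) (F a i) x) (by simpa using hx) := by
    intro a i x hx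
    ext b c
    fin_cases b <;> fin_cases c <;> simp [dmat]
  have hmapE : ∀ (a : P) (i : I a) (x : ZMod (p a)),
      Matrix.SpecialLinearGroup.map (algebraMap (ZMod (p a)) (F a i)) (e12 x) =
        e12 (algebraMap (ZMod (p a)) (F a i) x) := by
    intro a i x
    ext b c
    fin_cases b <;> fin_cases c <;> simp [e12]
  refine ⟨[φ B, φ D₁ * ξ * (φ D₁)⁻¹, φ D₂ * ξ⁻¹ * (φ D₂)⁻¹], by simp, ?_, ?_⟩
  · simp only [List.prod_cons, List.prod_nil, mul_one]
    funext a i
    show Matrix.SpecialLinearGroup.map (algebraMap (ZMod (p a)) (F a i))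
          (e12 (Multiplicative.toAdd (u a)).1) *
          ((Matrix.SpecialLinearGroup.map (algebraMap (ZMod (p a)) (F a i))
            (dmat (s a) (hs0 a)) * e12 (θ a i) *
            (Matrix.SpecialLinearGroup.map (algebraMap (ZMod (p a)) (F a i))
            (dmat (s a) (hs0 a)))⁻¹) *
           (Matrix.SpecialLinearGroup.map (algebraMap (ZMod (p a)) (F a i))
            (dmat (t a) (ht0 a)) * (e12 (θ a i))⁻¹ *
            (Matrix.SpecialLinearGroup.map (algebraMap (ZMod (p a)) (F a i))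
            (dmat (t a) (ht0 a)))⁻¹)) =
      e12 (algebraMap (ZMod (p a)) (F a i) (Multiplicative.toAdd (u a)).1 +
        algebraMap (ZMod (p a)) (F a i) (Multiplicative.toAdd (u a)).2 * θ a i)
    rw [hmapE, hmapD, hmapD, ← e12_neg, dmat_conj, dmat_conj, ← e12_add, ← e12_add, hst a]
    congr 1
    rw [map_sub, map_pow, map_pow]
    ring
  · intro x hx
    simp only [List.mem_cons, List.not_mem_nil, or_false] at hx
    rcases hx with hx | hx | hx
    · exact ⟨B, Or.inl hx⟩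
    · exact ⟨D₁, Or.inr (Or.inl hx)⟩
    · exact ⟨D₂, Or.inr (Or.inr hx)⟩

/-- BIGCHAR. -/
theorem expd_bigchar : ∃ (k : ℕ) (κ : ℝ) (p₀ : ℕ), 0 < κ ∧ ∀ (ι : Type) [Fintype ι]
    [DecidableEq ι] (F : ι → Type) [∀ i, Field (F i)] [∀ i, Fintype (F i)]
    [∀ i, DecidableEq (F i)], Function.Injective (fun i => Fintype.card (F i)) →
    (∀ i, p₀ ≤ ringChar (F i)) → Expd (∀ i, SL(2, F i)) k κ := by
  obtain ⟨k, κ, p₀, hκ, h⟩ := expd_bigchar_aux
  refine ⟨k, κ, p₀, hκ, ?_⟩
  intro ι _ _ F _ _ _ hinj hp₀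
  let P : Type := {q // q ∈ Finset.univ.image (fun i => ringChar (F i))}
  let _ : Fintype P :=
    inferInstanceAs (Fintype {q // q ∈ Finset.univ.image (fun i => ringChar (F i))})
  let _ : DecidableEq P :=
    inferInstanceAs (DecidableEq {q // q ∈ Finset.univ.image (fun i => ringChar (F i))})
  have hmem : ∀ i, ringChar (F i) ∈ Finset.univ.image (fun i => ringChar (F i)) := fun i =>
    Finset.mem_image_of_mem _ (Finset.mem_univ i)
  have hex : ∀ a : P, ∃ i, ringChar (F i) = a.1 := fun a => by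
    obtain ⟨i, -, hi⟩ := Finset.mem_image.mp a.2
    exact ⟨i, hi⟩
  have hfact : ∀ a : P, Fact (a.1.Prime) := fun a => by
    obtain ⟨i, hi⟩ := hex a
    rw [← hi]
    exact ⟨CharP.char_is_prime (F i) (ringChar (F i))⟩
  have hC : ∀ (a : P) (i : {i // ringChar (F i) = a.1}), CharP (F i.1) a.1 := fun a i => by
    have h2 := ringChar.charP (F i.1)
    rwa [i.2] at h2
  let alg : ∀ (a : P) (i : {i // ringChar (F i) = a.1}), Algebra (ZMod a.1) (F i.1) :=
    fun a i => ZMod.algebra (F i.1) a.1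
  have h1 := h P (fun a => a.1) (fun a => {i // ringChar (F i) = a.1}) (fun a i => F i.1)
    Subtype.val_injective (fun a => by
      obtain ⟨i, hi⟩ := hex a
      rw [← hi]
      exact hp₀ i) (fun a i j hij => Subtype.ext (hinj hij))
  let π : (∀ a : P, ∀ i : {i // ringChar (F i) = a.1}, SL(2, F i.1)) →* (∀ i, SL(2, F i)) :=
    { toFun := fun z i => z ⟨ringChar (F i), hmem i⟩ ⟨i, rfl⟩
      map_one' := rfl
      map_mul' := fun _ _ => rfl }
  exact expd_surj π (fun z => ⟨fun a i => z i.1, rfl⟩) h1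

end Pool.Agent.MPfe8e9b
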