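import Pool.Agent.Lib.MP_fe8e9b_al.Defs
import Mathlib.Algebra.Group.AddChar
import Mathlib.Data.Matrix.Basis
import Mathlib.Data.Matrix.Composition
import Mathlib.LinearAlgebra.Matrix.Determinant.Basic

/-!
# MP_fe8e9b_al: definitions for round 3 (unbounded rank)
-/

open scoped BigOperators

namespace Pool.Agent.MPfe8e9b

/-- The map `χ ↦ (w ↦ χ (r w))` on the additive characters of a ring. -/
def lmul {R : Type*} [Ring R] (r : R) : AddChar R ℂ →+ AddChar R ℂ where
  toFun χ := χ.compAddMonoidHom (AddMonoidHom.mulLeft r)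
  map_zero' := by
    ext w
    simp
  map_add' χ ψ := by
    ext w
    simp

theorem lmul_apply {R : Type*} [Ring R] (r : R) (χ : AddChar R ℂ) (w : R) :
    lmul r χ w = χ (r * w) := rfl

/-- Two root subgroups `p12`, `p21` and an abelian group `q1 q2` with the relations of
`EL₂(R) ⋉ R²`. -/
structure EL2 {R G : Type*} [Ring R] [Group G] (p12 p21 q1 q2 : Multiplicative R →* G) :
    Prop where
  qq : ∀ u v, q1 u * q2 v = q2 v * q1 u
  p12q1 : ∀ r u, p12 r * q1 u = q1 u * p12 r
  p12q2 : ∀ r v : R, p12 (Multiplicative.ofAdd r) * q2 (Multiplicative.ofAdd v) =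
    q1 (Multiplicative.ofAdd (r * v)) * q2 (Multiplicative.ofAdd v) * p12 (Multiplicative.ofAdd r)
  p21q2 : ∀ r v, p21 r * q2 v = q2 v * p21 r
  p21q1 : ∀ r u : R, p21 (Multiplicative.ofAdd r) * q1 (Multiplicative.ofAdd u) =
    q2 (Multiplicative.ofAdd (r * u)) * q1 (Multiplicative.ofAdd u) * p21 (Multiplicative.ofAdd r)

/-- The partial sums of `1, x 0, …, x (k - 1)`. -/
def bt {R : Type*} [Ring R] {k : ℕ} (x : Fin k → R) (c : Finset (Fin (k + 1))) : R :=
  ∑ i ∈ c, (Fin.cons 1 x : Fin (k + 1) → R) i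

/-- Elementary `3 × 3` matrices over a (noncommutative) ring. -/
def el {A : Type*} [Ring A] (a b : Fin 3) (r : A) : Matrix (Fin 3) (Fin 3) A :=
  1 + Matrix.single a b r

/-- The products of elementary matrices with prescribed positions. -/
def ELs {A : Type*} [Ring A] : List (Fin 3 × Fin 3) → Set (Matrix (Fin 3) (Fin 3) A)
  | [] => {1}
  | ρ :: l => {x | ∃ r : A, ∃ y ∈ ELs l, x = el ρ.1 ρ.2 r * y}

/-- The diagonal matrix with the entries `a, 1, 1`. -/
def dg3 {A : Type*} [Ring A] (a : A) : Matrix (Fin 3) (Fin 3) A := Matrix.diagonal ![a, 1, 1]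

/-- A stable range condition. -/
def SR (A : Type*) [Ring A] : Prop :=
  ∀ a b c : A, (∃ x y z : A, x * a + y * b + z * c = 1) → ∃ t u : A, IsUnit (a + t * b + u * c)

/-- Upper unitriangular matrices. -/
def UT {m : ℕ} {F : Type*} [Zero F] [One F] (U : Matrix (Fin m) (Fin m) F) : Prop :=
  (∀ i, U i i = 1) ∧ ∀ i j, j < i → U i j = 0

end Pool.Agent.MPfe8e9b
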