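import Mathlib

/-!
# Diagonal matrices of determinant one are commutators
-/

namespace Pool.Agent.MPfe8e9b

namespace DiagComm

/-- Partial products. -/
noncomputable def part {F : Type} [Field F] {m : ℕ} (h : Fin m → F) (i : Fin m) : F := by
  classical exact ∏ j ∈ Finset.univ.filter (fun j => j ≤ i), h j

theorem part_zero {F : Type} [Field F] {m : ℕ} (h : Fin (m + 1) → F) : part h 0 = h 0 := by
  classical
  unfold part
  rw [Finset.prod_eq_single 0]
  · intro b hb hb0
    exact absurd (Fin.le_zero_iff.1 (Finset.mem_filter.1 hb).2) hb0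
  · intro h0
    exact absurd (by simp) h0

theorem part_last {F : Type} [Field F] {m : ℕ} (h : Fin (m + 1) → F) :
    part h (Fin.last m) = ∏ i, h i := by
  classical
  unfold part
  rw [Finset.filter_true_of_mem fun x _ => Fin.le_last x]

theorem part_succ {F : Type} [Field F] {m : ℕ} (h : Fin (m + 1) → F) (j : Fin m) :
    part h j.succ = h j.succ * part h j.castSucc := by
  classical
  unfold part
  have h1 : (Finset.univ.filter fun x : Fin (m + 1) => x ≤ j.succ) =
      insert j.succ (Finset.univ.filter fun x : Fin (m + 1) => x ≤ j.castSucc) := by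
    ext x
    simp only [Finset.mem_filter, Finset.mem_univ, true_and, Finset.mem_insert]
    rw [Fin.le_iff_val_le_val, Fin.le_iff_val_le_val, Fin.ext_iff, Fin.val_succ,
      Fin.val_castSucc]
    omega
  rw [h1, Finset.prod_insert]
  simp only [Finset.mem_filter, Finset.mem_univ, true_and]
  rw [Fin.le_iff_val_le_val, Fin.val_succ, Fin.val_castSucc]
  omega

end DiagComm

open Matrix DiagComm in
theorem diag_comm (F : Type) [Field F] (m : ℕ) (h : Fin m → F) (hh : ∏ i, h i = 1) :
    ∃ a b : (Matrix (Fin m) (Fin m) F)ˣ, Matrix.diagonal h =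
      ((a * b * a⁻¹ * b⁻¹ : (Matrix (Fin m) (Fin m) F)ˣ) : Matrix (Fin m) (Fin m) F) := by
  classical
  have hne : ∀ i, h i ≠ 0 := fun i hi => by
    rw [Finset.prod_eq_zero (Finset.mem_univ i) hi] at hh
    exact zero_ne_one hh
  cases m with
  | zero => exact ⟨1, 1, by ext i; exact i.elim0⟩
  | succ m =>
    have hk : ∀ i, part h i ≠ 0 := fun i => by
      unfold part
      exact Finset.prod_ne_zero_iff.2 fun j _ => hne j
    obtain ⟨σ, hσ⟩ : ∃ σ : Equiv.Perm (Fin (m + 1)), ∀ i, part h i = h i * part h (σ i) := by
      refine ⟨(finRotate (m + 1))⁻¹, fun i => ?_⟩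
      obtain ⟨j, rfl⟩ := (finRotate (m + 1)).surjective i
      have e1 : (finRotate (m + 1))⁻¹ ((finRotate (m + 1)) j) = j :=
        (finRotate (m + 1)).symm_apply_apply j
      rw [e1, finRotate_apply]
      refine Fin.lastCases ?_ (fun j => ?_) j
      · rw [Fin.last_add_one, part_zero, part_last, hh, mul_one]
      · rw [Fin.coeSucc_eq_succ, part_succ]
    let K : (Matrix (Fin (m + 1)) (Fin (m + 1)) F)ˣ :=
      ⟨diagonal (part h), diagonal (fun i => (part h i)⁻¹), by
        rw [diagonal_mul_diagonal, ← diagonal_one]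
        congr 1
        funext i
        exact mul_inv_cancel₀ (hk i), by
        rw [diagonal_mul_diagonal, ← diagonal_one]
        congr 1
        funext i
        exact inv_mul_cancel₀ (hk i)⟩
    let P : (Matrix (Fin (m + 1)) (Fin (m + 1)) F)ˣ :=
      ⟨Matrix.of fun i j => if σ i = j then 1 else 0, Matrix.of fun i j => if i = σ j then 1 else 0,
        by
        ext i j
        simp [Matrix.mul_apply, Matrix.one_apply], by
        ext i j
        rw [Matrix.mul_apply, Finset.sum_eq_single (σ⁻¹ i)]
        · by_cases hij : i = j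
          · subst hij; simp
          · simp [hij]
        · intro b _ hb
          have : i ≠ σ b := fun h' => hb (by rw [h']; simp)
          simp [this]
        · intro hb; exact absurd (Finset.mem_univ _) hb⟩
    refine ⟨K, P, ?_⟩
    have key : (K : Matrix (Fin (m + 1)) (Fin (m + 1)) F) * P = diagonal h * (P * K) := by
      ext i j
      change (diagonal (part h) * Matrix.of fun i j => if σ i = j then (1 : F) else 0) i j =
        (diagonal h * ((Matrix.of fun i j => if σ i = j then (1 : F) else 0) *
          diagonal (part h))) i j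
      rw [diagonal_mul, diagonal_mul, mul_diagonal]
      simp only [Matrix.of_apply]
      by_cases hij : σ i = j
      · subst hij
        simp [hσ i]
      · simp [hij]
    have h2 : Matrix.diagonal h = (K : Matrix (Fin (m + 1)) (Fin (m + 1)) F) * P *
        ((K⁻¹ : (Matrix (Fin (m + 1)) (Fin (m + 1)) F)ˣ) : Matrix (Fin (m + 1)) (Fin (m + 1)) F) *
        ((P⁻¹ : (Matrix (Fin (m + 1)) (Fin (m + 1)) F)ˣ) : Matrix (Fin (m + 1)) (Fin (m + 1)) F) := by
      rw [key]
      simp only [mul_assoc]
      rw [← mul_assoc (K : Matrix (Fin (m + 1)) (Fin (m + 1)) F), Units.mul_inv, one_mul,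
        Units.mul_inv, mul_one]
    rw [h2]
    simp only [Units.val_mul]

end Pool.Agent.MPfe8e9b
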