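import Mathlib
import Pool.Agent.Lib.MP_fe8e9b_al.Defs3

/-!
# MP_fe8e9b_al: elementary `3 × 3` matrices over a ring
-/

set_option autoImplicit false

open scoped BigOperators

namespace Pool.Agent.MPfe8e9b

namespace El3

section

variable {A : Type*} [Ring A]

theorem s_same (a b c : Fin 3) (r s : A) :
    (Matrix.single a b r : Matrix (Fin 3) (Fin 3) A) * Matrix.single b c s =
      Matrix.single a c (r * s) := by
  rw [Matrix.single_mul_single_same]

theorem s_ne (a b c d : Fin 3) (h : b ≠ c) (r s : A) :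
    (Matrix.single a b r : Matrix (Fin 3) (Fin 3) A) * Matrix.single c d s = 0 :=
  Matrix.single_mul_single_of_ne (c := r) a b c h s

theorem el_zero (a b : Fin 3) : (el a b 0 : Matrix (Fin 3) (Fin 3) A) = 1 := by
  simp [el]

theorem el_mul (a b : Fin 3) (h : a ≠ b) (r s : A) : el a b r * el a b s = el a b (r + s) := by
  simp only [el, add_mul, mul_add, one_mul, mul_one, s_ne a b a b h.symm, add_zero,
    Matrix.single_add]
  abel

theorem el_neg (a b : Fin 3) (h : a ≠ b) (r : A) : el a b r * el a b (-r) = 1 := by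
  rw [el_mul a b h, add_neg_cancel, el_zero]

theorem neg_el (a b : Fin 3) (h : a ≠ b) (r : A) : el a b (-r) * el a b r = 1 := by
  rw [el_mul a b h, neg_add_cancel, el_zero]

/-- Elementary matrices which commute. -/
theorem el_comm (a b c d : Fin 3) (h1 : b ≠ c) (h2 : d ≠ a) (r s : A) :
    el a b r * el c d s = el c d s * el a b r := by
  simp only [el, add_mul, mul_add, one_mul, mul_one, s_ne a b c d h1, s_ne c d a b h2]
  abel

/-- Steinberg relation. -/
theorem el_st (a b c : Fin 3) (h1 : a ≠ b) (h2 : b ≠ c) (h3 : a ≠ c) (r s : A) :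
    el a b r * el b c s = el a c (r * s) * el b c s * el a b r := by
  simp only [el, add_mul, mul_add, one_mul, mul_one, s_same, s_ne a c b c h2.symm,
    s_ne a c a b h3.symm, s_ne b c a b h3.symm, add_zero]
  abel

/-- Steinberg relation, second form. -/
theorem el_comm_form (a b c : Fin 3) (h1 : a ≠ b) (h2 : b ≠ c) (h3 : a ≠ c) (r s : A) :
    el a c (r * s) = el a b r * el b c s * el a b (-r) * el b c (-s) := by
  rw [el_st a b c h1 h2 h3, mul_assoc (el a c (r * s) * el b c s), el_neg a b h1, mul_one,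
    mul_assoc, el_neg b c h2, mul_one]

theorem exists_third (a b : Fin 3) (h : a ≠ b) : ∃ c, a ≠ c ∧ c ≠ b := by
  revert a b
  decide

theorem ELs_append (l l' : List (Fin 3 × Fin 3)) {x y : Matrix (Fin 3) (Fin 3) A}
    (hx : x ∈ ELs l) (hy : y ∈ ELs l') : x * y ∈ ELs (l ++ l') := by
  induction l generalizing x with
  | nil =>
    have hx' : x = 1 := hx
    rw [hx', one_mul]
    exact hy
  | cons ρ l ih =>
    obtain ⟨r, z, hz, rfl⟩ := hx
    exact ⟨r, z * y, ih hz, mul_assoc _ _ _⟩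

theorem one_mem_ELs (l : List (Fin 3 × Fin 3)) : (1 : Matrix (Fin 3) (Fin 3) A) ∈ ELs l := by
  induction l with
  | nil => rfl
  | cons ρ l ih => exact ⟨0, 1, ih, by rw [el_zero, one_mul]⟩

theorem el_mem_ELs (a b : Fin 3) (r : A) : el a b r ∈ ELs (A := A) [(a, b)] :=
  ⟨r, 1, rfl, (mul_one _).symm⟩

theorem dg3_mul (a b : A) : dg3 (a * b) = dg3 a * dg3 b := by
  rw [dg3, dg3, dg3, Matrix.diagonal_mul_diagonal]
  congr 1
  funext i
  fin_cases i <;> simp

theorem dg3_one : dg3 (1 : A) = 1 := by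
  rw [dg3, ← Matrix.diagonal_one]
  congr 1
  funext i
  fin_cases i <;> simp

/-- Products of elementary matrices have inverses which are such products. -/
theorem ELs_inv (l : List (Fin 3 × Fin 3)) (hl : ∀ ρ ∈ l, ρ.1 ≠ ρ.2)
    {x : Matrix (Fin 3) (Fin 3) A} (hx : x ∈ ELs l) :
    ∃ y ∈ ELs l.reverse, x * y = 1 ∧ y * x = 1 := by
  induction l generalizing x with
  | nil =>
    have hx' : x = 1 := hx
    exact ⟨1, rfl, by rw [hx', one_mul], by rw [hx', one_mul]⟩
  | cons ρ l ih =>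
    obtain ⟨r, z, hz, rfl⟩ := hx
    obtain ⟨y, hy, h1, h2⟩ := ih (fun ρ hρ => hl ρ (List.mem_cons_of_mem _ hρ)) hz
    have hρ := hl ρ (List.mem_cons_self ..)
    refine ⟨y * el ρ.1 ρ.2 (-r), ?_, ?_, ?_⟩
    · rw [List.reverse_cons]
      exact ELs_append _ _ hy (el_mem_ELs _ _ _)
    · rw [← mul_assoc, mul_assoc (el ρ.1 ρ.2 r) z y, h1, mul_one, el_neg _ _ hρ]
    · rw [← mul_assoc, mul_assoc y _ (el ρ.1 ρ.2 r), neg_el _ _ hρ, mul_one, h2]

end

section det

variable (m : ℕ) (F : Type*) [Field F]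

/-- The determinant of the matrix obtained by removing the block structure. -/
noncomputable def cdet : Matrix (Fin 3) (Fin 3) (Matrix (Fin m) (Fin m) F) →* F :=
  (Matrix.detMonoidHom (n := Fin 3 × Fin m) (R := F)).comp
    ((Matrix.compRingEquiv (Fin 3) (Fin m) F : Matrix (Fin 3) (Fin 3) (Matrix (Fin m) (Fin m) F) ≃+*
      Matrix (Fin 3 × Fin m) (Fin 3 × Fin m) F) :
      Matrix (Fin 3) (Fin 3) (Matrix (Fin m) (Fin m) F) →*
      Matrix (Fin 3 × Fin m) (Fin 3 × Fin m) F)

theorem cdet_apply (g : Matrix (Fin 3) (Fin 3) (Matrix (Fin m) (Fin m) F)) :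
    cdet m F g = (Matrix.comp (Fin 3) (Fin 3) (Fin m) (Fin m) F g).det := rfl

theorem cdet_el (a b : Fin 3) (h : a ≠ b) (r : Matrix (Fin m) (Fin m) F) :
    cdet m F (el a b r) = 1 := by
  obtain ⟨c, h1, h2⟩ := exists_third a b h
  have h3 := el_comm_form a c b h1 h2 h r 1
  rw [mul_one] at h3
  have h4 := congrArg (cdet m F) (el_neg a c h1 r)
  have h5 := congrArg (cdet m F) (el_neg c b h2 (1 : Matrix (Fin m) (Fin m) F))
  rw [map_mul, map_one] at h4 h5
  rw [h3, map_mul, map_mul, map_mul]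
  linear_combination (cdet m F (el c b 1) * cdet m F (el c b (-1))) * h4 + h5

theorem cdet_ELs (l : List (Fin 3 × Fin 3)) (hl : ∀ ρ ∈ l, ρ.1 ≠ ρ.2)
    {x : Matrix (Fin 3) (Fin 3) (Matrix (Fin m) (Fin m) F)} (hx : x ∈ ELs l) :
    cdet m F x = 1 := by
  induction l generalizing x with
  | nil =>
    have hx' : x = 1 := hx
    rw [hx', map_one]
  | cons ρ l ih =>
    obtain ⟨r, z, hz, rfl⟩ := hx
    rw [map_mul, cdet_el m F _ _ (hl ρ (List.mem_cons_self ..)), one_mul,
      ih (fun ρ hρ => hl ρ (List.mem_cons_of_mem _ hρ)) hz]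

end det

end El3

end Pool.Agent.MPfe8e9b
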