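import Mathlib
import Pool.Agent.Lib.MP_fe8e9b_al.Defs3
import Pool.Agent.Lib.MP_fe8e9b_al.El3

/-!
# MP_fe8e9b_al: Gauss elimination in `3 × 3` matrices over a ring with stable range one
-/

set_option autoImplicit false

open scoped BigOperators

namespace Pool.Agent.MPfe8e9b

namespace Elim3

open El3

variable {A : Type} [Ring A]

/-- Entries after a row operation. -/
theorem el_mul_apply (a b : Fin 3) (r : A) (g : Matrix (Fin 3) (Fin 3) A) (i j : Fin 3) :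
    (el a b r * g) i j = g i j + if i = a then r * g b j else 0 := by
  rw [el, add_mul, one_mul, Matrix.add_apply]
  congr 1
  by_cases h : i = a
  · subst h
    rw [if_pos rfl, Matrix.single_mul_apply_same]
  · rw [if_neg h, Matrix.single_mul_apply_of_ne _ _ _ _ _ h]

/-- Entries after a column operation. -/
theorem mul_el_apply (a b : Fin 3) (r : A) (g : Matrix (Fin 3) (Fin 3) A) (i j : Fin 3) :
    (g * el a b r) i j = g i j + if j = b then g i a * r else 0 := by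
  rw [el, mul_add, mul_one, Matrix.add_apply]
  congr 1
  by_cases h : j = b
  · subst h
    rw [if_pos rfl, Matrix.mul_single_apply_same]
  · rw [if_neg h, Matrix.mul_single_apply_of_ne _ _ _ _ _ h]

/-- Two-sided invertibility. -/
def Inv2 (g : Matrix (Fin 3) (Fin 3) A) : Prop := ∃ h, h * g = 1 ∧ g * h = 1

theorem Inv2.el_mul {g : Matrix (Fin 3) (Fin 3) A} (hg : Inv2 g) (a b : Fin 3) (hab : a ≠ b)
    (r : A) : Inv2 (el a b r * g) := by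
  obtain ⟨h, h1, h2⟩ := hg
  refine ⟨h * el a b (-r), ?_, ?_⟩
  · rw [← mul_assoc, mul_assoc h, neg_el a b hab, mul_one, h1]
  · rw [← mul_assoc, mul_assoc _ g h, h2, mul_one, el_neg a b hab]

theorem Inv2.mul_el {g : Matrix (Fin 3) (Fin 3) A} (hg : Inv2 g) (a b : Fin 3) (hab : a ≠ b)
    (r : A) : Inv2 (g * el a b r) := by
  obtain ⟨h, h1, h2⟩ := hg
  refine ⟨el a b (-r) * h, ?_, ?_⟩
  · rw [← mul_assoc, mul_assoc _ h g, h1, mul_one, neg_el a b hab]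
  · rw [← mul_assoc, mul_assoc g, el_neg a b hab, mul_one, h2]

/-- First step: reduce to a matrix with last row and column trivial. -/
theorem step1 (hA : SR A) (g : Matrix (Fin 3) (Fin 3) A) (hg : Inv2 g) :
    ∃ t₁ t₂ t₃ t₄ t₅ s₁ s₂ : A, ∀ i : Fin 3,
      (el 1 2 t₅ * (el 0 2 t₄ * (el 2 0 t₃ * (el 0 2 t₂ * (el 0 1 t₁ * g)))) *
        el 2 0 s₁ * el 2 1 s₂) i 2 = (if i = 2 then 1 else 0) ∧
      (el 1 2 t₅ * (el 0 2 t₄ * (el 2 0 t₃ * (el 0 2 t₂ * (el 0 1 t₁ * g)))) *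
        el 2 0 s₁ * el 2 1 s₂) 2 i = (if i = 2 then 1 else 0) := by
  obtain ⟨h, h1, h2⟩ := hg
  have h3 := congrFun (congrFun h1 2) 2
  rw [Matrix.mul_apply, Fin.sum_univ_three, Matrix.one_apply_eq] at h3
  obtain ⟨t, u, w, hw⟩ := hA (g 0 2) (g 1 2) (g 2 2) ⟨_, _, _, h3⟩
  set g1 := el 0 2 u * (el 0 1 t * g) with hg1
  have e02 : g1 0 2 = w := by
    rw [hg1, el_mul_apply, el_mul_apply, el_mul_apply, hw]
    simp [add_assoc]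
  set g2 := el 2 0 ((1 - g1 2 2) * ((w⁻¹ : Aˣ) : A)) * g1 with hg2
  have e22 : g2 2 2 = 1 := by
    rw [hg2, el_mul_apply, e02]
    simp [mul_assoc]
  set g3 := el 0 2 (-(g2 0 2)) * g2 with hg3
  have e3 : g3 0 2 = 0 ∧ g3 2 2 = 1 := by
    refine ⟨?_, ?_⟩
    · rw [hg3, el_mul_apply, e22]
      simp
    · rw [hg3, el_mul_apply, e22]
      simp
  set g4 := el 1 2 (-(g3 1 2)) * g3 with hg4
  have e4 : g4 0 2 = 0 ∧ g4 1 2 = 0 ∧ g4 2 2 = 1 := by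
    refine ⟨?_, ?_, ?_⟩
    · rw [hg4, el_mul_apply, e3.1]
      simp
    · rw [hg4, el_mul_apply, e3.2]
      simp
    · rw [hg4, el_mul_apply, e3.2]
      simp
  set g5 := g4 * el 2 0 (-(g4 2 0)) with hg5
  have e5 : g5 0 2 = 0 ∧ g5 1 2 = 0 ∧ g5 2 2 = 1 ∧ g5 2 0 = 0 := by
    refine ⟨?_, ?_, ?_, ?_⟩
    · rw [hg5, mul_el_apply, e4.1]
      simp
    · rw [hg5, mul_el_apply, e4.2.1]
      simp
    · rw [hg5, mul_el_apply, e4.2.2]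
      simp
    · rw [hg5, mul_el_apply, e4.2.2]
      simp
  set g6 := g5 * el 2 1 (-(g5 2 1)) with hg6
  have e6 : g6 0 2 = 0 ∧ g6 1 2 = 0 ∧ g6 2 2 = 1 ∧ g6 2 0 = 0 ∧ g6 2 1 = 0 := by
    refine ⟨?_, ?_, ?_, ?_, ?_⟩
    · rw [hg6, mul_el_apply, e5.1]
      simp
    · rw [hg6, mul_el_apply, e5.2.1]
      simp
    · rw [hg6, mul_el_apply, e5.2.2.1]
      simp
    · rw [hg6, mul_el_apply, e5.2.2.2]
      simp
    · rw [hg6, mul_el_apply, e5.2.2.1]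
      simp
  refine ⟨t, u, (1 - g1 2 2) * ((w⁻¹ : Aˣ) : A), -(g2 0 2), -(g3 1 2), -(g4 2 0), -(g5 2 1), ?_⟩
  intro i
  show g6 i 2 = _ ∧ g6 2 i = _
  fin_cases i
  · exact ⟨e6.1, e6.2.2.2.1⟩
  · exact ⟨e6.2.1, e6.2.2.2.2⟩
  · exact ⟨e6.2.2.1, e6.2.2.1⟩

/-- Second step. -/
theorem step2 (hA : SR A) (g : Matrix (Fin 3) (Fin 3) A) (hg : Inv2 g)
    (h0 : ∀ i : Fin 3, g i 2 = (if i = 2 then 1 else 0) ∧ g 2 i = (if i = 2 then 1 else 0)) :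
    ∃ t₁ t₂ t₃ s₁ : A, ∃ D : A,
      el 0 1 t₃ * (el 1 0 t₂ * (el 0 1 t₁ * g)) * el 1 0 s₁ = dg3 D := by
  obtain ⟨h, h1, h2⟩ := hg
  have a02 : g 0 2 = 0 := (h0 0).1
  have a12 : g 1 2 = 0 := (h0 1).1
  have a22 : g 2 2 = 1 := (h0 2).1
  have a20 : g 2 0 = 0 := (h0 0).2
  have a21 : g 2 1 = 0 := (h0 1).2
  have h3 := congrFun (congrFun h1 1) 1
  rw [Matrix.mul_apply, Fin.sum_univ_three, Matrix.one_apply_eq, a21, mul_zero] at h3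
  obtain ⟨t, u, w, hw⟩ := hA (g 0 1) (g 1 1) 0 ⟨h 1 0, h 1 1, 0, by rw [mul_zero]; exact h3⟩
  rw [mul_zero, add_zero] at hw
  set g1 := el 0 1 t * g with hg1
  have e1 : g1 0 1 = w ∧ g1 0 2 = 0 ∧ g1 1 2 = 0 ∧ g1 2 2 = 1 ∧ g1 2 0 = 0 ∧ g1 2 1 = 0 := by
    refine ⟨?_, ?_, ?_, ?_, ?_, ?_⟩ <;> rw [hg1, el_mul_apply] <;> simp [a02, a12, a22, a20, a21, hw]
  obtain ⟨b01, b02, b12, b22, b20, b21⟩ := e1
  set g2 := el 1 0 ((1 - g1 1 1) * ((w⁻¹ : Aˣ) : A)) * g1 with hg2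
  have e2 : g2 1 1 = 1 ∧ g2 0 2 = 0 ∧ g2 1 2 = 0 ∧ g2 2 2 = 1 ∧ g2 2 0 = 0 ∧ g2 2 1 = 0 := by
    refine ⟨?_, ?_, ?_, ?_, ?_, ?_⟩ <;> rw [hg2, el_mul_apply] <;>
      simp [b01, b02, b12, b22, b20, b21, mul_assoc]
  obtain ⟨c11, c02, c12, c22, c20, c21⟩ := e2
  set g3 := el 0 1 (-(g2 0 1)) * g2 with hg3
  have e3 : g3 1 1 = 1 ∧ g3 0 2 = 0 ∧ g3 1 2 = 0 ∧ g3 2 2 = 1 ∧ g3 2 0 = 0 ∧ g3 2 1 = 0 ∧
      g3 0 1 = 0 := by
    refine ⟨?_, ?_, ?_, ?_, ?_, ?_, ?_⟩ <;> rw [hg3, el_mul_apply] <;>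
      simp [c11, c02, c12, c22, c20, c21]
  obtain ⟨d11, d02, d12, d22, d20, d21, d01⟩ := e3
  refine ⟨t, (1 - g1 1 1) * ((w⁻¹ : Aˣ) : A), -(g2 0 1), -(g3 1 0), g3 0 0, ?_⟩
  show g3 * el 1 0 (-(g3 1 0)) = _
  ext i j
  rw [mul_el_apply]
  fin_cases i <;> fin_cases j <;>
    simp [dg3, d11, d02, d12, d22, d20, d21, d01, Matrix.diagonal]

end Elim3

open El3 Elim3 in
theorem elim3 : ∃ l l' : List (Fin 3 × Fin 3), (∀ ρ ∈ l, ρ.1 ≠ ρ.2) ∧ (∀ ρ ∈ l', ρ.1 ≠ ρ.2) ∧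
    ∀ (A : Type) [Ring A], SR A → ∀ g h : Matrix (Fin 3) (Fin 3) A, h * g = 1 → g * h = 1 →
    ∃ D : Aˣ, ∃ x ∈ ELs l, ∃ y ∈ ELs l', g = x * dg3 (D : A) * y := by
  refine ⟨[(0, 1), (0, 2), (2, 0), (0, 2), (1, 2), (0, 1), (1, 0), (0, 1)],
    [(1, 0), (2, 1), (2, 0)], by decide, by decide, ?_⟩
  intro A _ hA g h h1 h2
  obtain ⟨t₁, t₂, t₃, t₄, t₅, s₁, s₂, hst⟩ := step1 hA g ⟨h, h1, h2⟩
  set g' := el 1 2 t₅ * (el 0 2 t₄ * (el 2 0 t₃ * (el 0 2 t₂ * (el 0 1 t₁ * g)))) *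
        el 2 0 s₁ * el 2 1 s₂ with hg'
  have hi : Inv2 g' := by
    refine Inv2.mul_el (Inv2.mul_el (Inv2.el_mul (Inv2.el_mul (Inv2.el_mul (Inv2.el_mul
      (Inv2.el_mul ⟨h, h1, h2⟩ _ _ ?_ _) _ _ ?_ _) _ _ ?_ _) _ _ ?_ _) _ _ ?_ _) _ _ ?_ _)
      _ _ ?_ _ <;> decide
  obtain ⟨u₁, u₂, u₃, v₁, D, hD⟩ := step2 hA g' hi hst
  have hiD : Inv2 (dg3 D : Matrix (Fin 3) (Fin 3) A) := by
    rw [← hD]
    refine Inv2.mul_el (Inv2.el_mul (Inv2.el_mul (Inv2.el_mul hi _ _ ?_ _) _ _ ?_ _) _ _ ?_ _)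
      _ _ ?_ _ <;> decide
  obtain ⟨q, hq1, hq2⟩ := hiD
  have hD1 : q 0 0 * D = 1 := by
    have := congrFun (congrFun hq1 0) 0
    rw [dg3, Matrix.mul_diagonal] at this
    simpa using this
  have hD2 : D * q 0 0 = 1 := by
    have := congrFun (congrFun hq2 0) 0
    rw [dg3, Matrix.diagonal_mul] at this
    simpa using this
  let D' : Aˣ := ⟨D, q 0 0, hD2, hD1⟩
  have n01 : (0 : Fin 3) ≠ 1 := by decide
  have n02 : (0 : Fin 3) ≠ 2 := by decide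
  have n12 : (1 : Fin 3) ≠ 2 := by decide
  refine ⟨D', el 0 1 (-t₁) * (el 0 2 (-t₂) * (el 2 0 (-t₃) * (el 0 2 (-t₄) * (el 1 2 (-t₅) *
    (el 0 1 (-u₁) * (el 1 0 (-u₂) * (el 0 1 (-u₃) * 1))))))), ?_,
    el 1 0 (-v₁) * (el 2 1 (-s₂) * (el 2 0 (-s₁) * 1)), ?_, ?_⟩
  · exact ⟨_, _, ⟨_, _, ⟨_, _, ⟨_, _, ⟨_, _, ⟨_, _, ⟨_, _, ⟨_, _, rfl, rfl⟩, rfl⟩, rfl⟩, rfl⟩,
      rfl⟩, rfl⟩, rfl⟩, rfl⟩
  · exact ⟨_, _, ⟨_, _, ⟨_, _, rfl, rfl⟩, rfl⟩, rfl⟩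
  · have hL : ∀ (a b : Fin 3) (hab : a ≠ b) (r : A) (x y : Matrix (Fin 3) (Fin 3) A),
        el a b r * x = y → x = el a b (-r) * y := by
      intro a b hab r x y hxy
      rw [← hxy, ← mul_assoc, neg_el a b hab, one_mul]
    have hR : ∀ (a b : Fin 3) (hab : a ≠ b) (r : A) (x y : Matrix (Fin 3) (Fin 3) A),
        x * el a b r = y → x = y * el a b (-r) := by
      intro a b hab r x y hxy
      rw [← hxy, mul_assoc, el_neg a b hab, mul_one]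
    have k1 := hR 1 0 n01.symm _ _ _ hD
    have k2 := hL 0 1 n01 _ _ _ k1
    have k3 := hL 1 0 n01.symm _ _ _ k2
    have k4 := hL 0 1 n01 _ _ _ k3
    have k5 := hR 2 1 n12.symm _ _ _ (hg'.symm.trans k4)
    have k6 := hR 2 0 n02.symm _ _ _ k5
    have k7 := hL 1 2 n12 _ _ _ k6
    have k8 := hL 0 2 n02 _ _ _ k7
    have k9 := hL 2 0 n02.symm _ _ _ k8
    have k10 := hL 0 2 n02 _ _ _ k9
    have k11 := hL 0 1 n01 _ _ _ k10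
    rw [k11]
    show _ = _ * dg3 D * _
    simp only [mul_assoc, mul_one]

end Pool.Agent.MPfe8e9b
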