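import Pool.Agent.Lib.MP_fe8e9b_al.Defs3
import Mathlib

/-!
# MP_fe8e9b_al round 3, module LHUL: invertible = lower * diagonal * upper * lower
-/

open scoped BigOperators
open Matrix

namespace Pool.Agent.MPfe8e9b

namespace Lhul

variable {F : Type} [Field F] {m : ℕ}

/-- Bordered matrices. -/
def bl (a : F) (r c : Fin m → F) (B : Matrix (Fin m) (Fin m) F) :
    Matrix (Fin (m + 1)) (Fin (m + 1)) F :=
  Matrix.of (Fin.cons (Fin.cons a r) fun i => Fin.cons (c i) (B i))

@[simp] lemma bl_zz (a : F) (r c : Fin m → F) (B : Matrix (Fin m) (Fin m) F) :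
    bl a r c B 0 0 = a := rfl
@[simp] lemma bl_zs (a : F) (r c : Fin m → F) (B : Matrix (Fin m) (Fin m) F) (j : Fin m) :
    bl a r c B 0 j.succ = r j := rfl
@[simp] lemma bl_sz (a : F) (r c : Fin m → F) (B : Matrix (Fin m) (Fin m) F) (i : Fin m) :
    bl a r c B i.succ 0 = c i := rfl
@[simp] lemma bl_ss (a : F) (r c : Fin m → F) (B : Matrix (Fin m) (Fin m) F) (i j : Fin m) :
    bl a r c B i.succ j.succ = B i j := rfl

lemma bl_eta (D : Matrix (Fin (m + 1)) (Fin (m + 1)) F) :
    D = bl (D 0 0) (fun j => D 0 j.succ) (fun i => D i.succ 0)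
      (Matrix.of fun i j => D i.succ j.succ) := by
  ext i j
  refine Fin.cases ?_ (fun i => ?_) i <;> refine Fin.cases ?_ (fun j => ?_) j <;> simp

lemma bl_mul (a a' : F) (r c r' c' : Fin m → F) (B B' : Matrix (Fin m) (Fin m) F) :
    bl a r c B * bl a' r' c' B' =
      bl (a * a' + r ⬝ᵥ c') (a • r' + r ᵥ* B') (a' • c + B *ᵥ c')
        (Matrix.vecMulVec c r' + B * B') := by
  ext i j
  refine Fin.cases ?_ (fun i => ?_) i <;> refine Fin.cases ?_ (fun j => ?_) j <;>
    simp [Matrix.mul_apply, Fin.sum_univ_succ, dotProduct, Matrix.vecMul, Matrix.mulVec,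
      Matrix.vecMulVec_apply, mul_comm]

lemma bl_diag (a : F) (h : Fin m → F) :
    Matrix.diagonal (Fin.cons a h : Fin (m + 1) → F) = bl a 0 0 (Matrix.diagonal h) := by
  ext i j
  refine Fin.cases ?_ (fun i => ?_) i <;> refine Fin.cases ?_ (fun j => ?_) j
  · simp
  · simp [Matrix.diagonal_apply, (Fin.succ_ne_zero j).symm]
  · simp [Matrix.diagonal_apply, Fin.succ_ne_zero i]
  · simp [Matrix.diagonal_apply, Fin.succ_inj]

lemma ut_bl {r : Fin m → F} {B : Matrix (Fin m) (Fin m) F} (h : UT B) : UT (bl 1 r 0 B) := by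
  constructor
  · intro i
    refine Fin.cases ?_ (fun i => ?_) i
    · rfl
    · simpa using h.1 i
  · intro i j
    refine Fin.cases ?_ (fun i => ?_) i <;> refine Fin.cases ?_ (fun j => ?_) j
    · intro h0; exact absurd h0 (lt_irrefl _)
    · intro h0; exact absurd h0 (by simp)
    · intro _; rfl
    · intro h0; simpa using h.2 i j (Fin.succ_lt_succ_iff.1 h0)

lemma lt_bl {c : Fin m → F} {B : Matrix (Fin m) (Fin m) F} (h : UT B.transpose) :
    UT (bl 1 0 c B).transpose := by
  have : (bl 1 0 c B).transpose = bl 1 c 0 B.transpose := by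
    ext i j
    refine Fin.cases ?_ (fun i => ?_) i <;> refine Fin.cases ?_ (fun j => ?_) j <;> simp
  rw [this]
  exact ut_bl h

lemma det_lt {B : Matrix (Fin m) (Fin m) F} (h : UT B.transpose) : B.det = 1 := by
  rw [← Matrix.det_transpose, Matrix.det_of_isUpperTriangular]
  · exact Finset.prod_eq_one fun i _ => h.1 i
  · intro i j hij
    exact h.2 i j hij

end Lhul

open Lhul in
theorem lhul (F : Type) [Field F] (m : ℕ) (D : Matrix (Fin m) (Fin m) F) (hD : D.det ≠ 0) :
    ∃ (L L' U : Matrix (Fin m) (Fin m) F) (h : Fin m → F), UT L.transpose ∧ UT L'.transpose ∧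
      UT U ∧ D = L * Matrix.diagonal h * U * L' := by
  induction m with
  | zero =>
    refine ⟨D, D, D, 0, ⟨fun i => i.elim0, fun i => i.elim0⟩, ⟨fun i => i.elim0, fun i => i.elim0⟩,
      ⟨fun i => i.elim0, fun i => i.elim0⟩, ?_⟩
    ext i
    exact i.elim0
  | succ m ih =>
    set d := D 0 0 with hd
    set r : Fin m → F := fun j => D 0 j.succ with hr
    set c : Fin m → F := fun i => D i.succ 0 with hc
    set B : Matrix (Fin m) (Fin m) F := Matrix.of fun i j => D i.succ j.succ with hB
    have hDbl : D = bl d r c B := bl_eta D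
    -- make the corner entry nonzero
    obtain ⟨w, hw⟩ : ∃ w : Fin m → F, d + r ⬝ᵥ w ≠ 0 := by
      by_cases h0 : d = 0
      · obtain ⟨j, hj⟩ : ∃ j, r j ≠ 0 := by
          by_contra hcon
          push Not at hcon
          apply hD
          apply Matrix.det_eq_zero_of_row_eq_zero 0
          intro j
          refine Fin.cases ?_ (fun j => ?_) j
          · exact h0
          · exact hcon j
        refine ⟨Pi.single j 1, ?_⟩
        rw [h0, zero_add, dotProduct_single, mul_one]
        exact hj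
      · exact ⟨0, by simpa using h0⟩
    set a := d + r ⬝ᵥ w with ha
    set c₁ := c + B *ᵥ w with hc₁
    set S : Matrix (Fin m) (Fin m) F := B - Matrix.vecMulVec (a⁻¹ • c₁) r with hS
    have hSdet : S.det ≠ 0 := by
      intro h0
      obtain ⟨x, hx, hSx⟩ := Matrix.exists_mulVec_eq_zero_iff.2 h0
      apply hD
      apply Matrix.exists_mulVec_eq_zero_iff.1
      set t := - (a⁻¹ * (r ⬝ᵥ x)) with ht
      refine ⟨Fin.cons t (x + t • w), ?_, ?_⟩
      · intro h1
        have h2 : t = 0 := by simpa using congrFun h1 0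
        apply hx
        funext j
        have h3 := congrFun h1 j.succ
        simpa [h2] using h3
      · funext i
        rw [hDbl]
        refine Fin.cases ?_ (fun i => ?_) i
        · have h4 : (bl d r c B *ᵥ (Fin.cons t (x + t • w) : Fin (m + 1) → F)) 0 =
              d * t + r ⬝ᵥ (x + t • w) := by
            simp [Matrix.mulVec, dotProduct, Fin.sum_univ_succ]
          rw [h4, dotProduct_add, dotProduct_smul]
          have h5 : d * t + (r ⬝ᵥ x + t • (r ⬝ᵥ w)) = t * a + r ⬝ᵥ x := by
            rw [ha, smul_eq_mul]; ring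
          rw [h5, ht]
          simp only [Pi.zero_apply]
          field_simp
          ring
        · have h4 : (bl d r c B *ᵥ (Fin.cons t (x + t • w) : Fin (m + 1) → F)) i.succ =
              c i * t + (B *ᵥ (x + t • w)) i := by
            simp [Matrix.mulVec, dotProduct, Fin.sum_univ_succ]
          rw [h4, Matrix.mulVec_add, Matrix.mulVec_smul]
          have h6 := congrFun hSx i
          rw [hS, Matrix.sub_mulVec, Matrix.vecMulVec_mulVec] at h6
          simp only [Pi.sub_apply, Pi.zero_apply, Pi.add_apply, Pi.smul_apply, smul_eq_mul,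
            MulOpposite.smul_eq_mul_unop, MulOpposite.unop_op] at h6 ⊢
          have h7 : c₁ i = c i + (B *ᵥ w) i := rfl
          rw [h7] at h6
          rw [ht]
          linear_combination h6
    obtain ⟨L, L', U, h, hL, hL', hU, hSeq⟩ := ih S hSdet
    have hdet' : L'.det = 1 := det_lt hL'
    set σ : Fin m → F := (a⁻¹ • r) ᵥ* L'⁻¹ with hσ
    have hσL : σ ᵥ* L' = a⁻¹ • r := by
      rw [hσ, Matrix.vecMul_vecMul, Matrix.nonsing_inv_mul _ (by rw [hdet']; exact isUnit_one),
        Matrix.vecMul_one]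
    refine ⟨bl 1 0 (a⁻¹ • c₁) L, bl 1 0 (-(L' *ᵥ w)) L', bl 1 σ 0 U, Fin.cons a h, lt_bl hL,
      lt_bl hL', ut_bl hU, ?_⟩
    have hwL : bl 1 0 (-(L' *ᵥ w)) L' = bl 1 0 0 L' * bl 1 0 (-w) 1 := by
      rw [bl_mul]
      simp [Matrix.mulVec_neg]
    have hv : bl 1 0 w 1 * bl 1 0 (-w) 1 = (1 : Matrix (Fin (m + 1)) (Fin (m + 1)) F) := by
      rw [bl_mul]
      ext i j
      refine Fin.cases ?_ (fun i => ?_) i <;> refine Fin.cases ?_ (fun j => ?_) j <;>
        simp [Matrix.one_apply, Fin.succ_inj, (Fin.succ_ne_zero _).symm]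
    have hmain : bl d r c B * bl 1 0 w 1 =
        bl 1 0 (a⁻¹ • c₁) L * Matrix.diagonal (Fin.cons a h) * bl 1 σ 0 U * bl 1 0 0 L' := by
      rw [bl_diag, bl_mul, bl_mul, bl_mul, bl_mul]
      have e1 : a • (a⁻¹ • c₁) = c₁ := by
        rw [smul_smul, mul_inv_cancel₀ hw, one_smul]
      have e2 : a • (σ ᵥ* L') = r := by
        rw [hσL, smul_smul, mul_inv_cancel₀ hw, one_smul]
      have e3 : (Matrix.vecMulVec c₁ σ + L * Matrix.diagonal h * U) * L' = B := by
        rw [Matrix.add_mul, ← hSeq, hS]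
        have : Matrix.vecMulVec c₁ σ * L' = Matrix.vecMulVec c₁ (σ ᵥ* L') := by
          ext i j
          simp [Matrix.mul_apply, Matrix.vecMulVec_apply, Matrix.vecMul, dotProduct,
            Finset.mul_sum, mul_assoc]
        rw [this, hσL]
        ext i j
        simp [Matrix.vecMulVec_apply]
      simp only [zero_dotProduct, dotProduct_zero, add_zero, mul_one, one_mul, smul_zero,
        Matrix.zero_vecMul, Matrix.mulVec_zero, zero_add, one_smul, Matrix.vecMulVec_zero,
        Matrix.mul_one, Matrix.vecMul_one, Matrix.mul_zero]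
      rw [e1, Matrix.smul_vecMul, e2, e3]
    calc D = bl d r c B * (bl 1 0 w 1 * bl 1 0 (-w) 1) := by rw [hv, Matrix.mul_one, ← hDbl]
      _ = bl 1 0 (a⁻¹ • c₁) L * Matrix.diagonal (Fin.cons a h) * bl 1 σ 0 U * bl 1 0 0 L' *
          bl 1 0 (-w) 1 := by rw [← Matrix.mul_assoc, hmain]
      _ = _ := by rw [hwL, Matrix.mul_assoc, Matrix.mul_assoc]

end Pool.Agent.MPfe8e9b
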