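import Mathlib
import Pool.Agent.Lib.MP_fe8e9b_al.Defs3

/-!
# Stable range of matrix rings over a field
-/

namespace Pool.Agent.MPfe8e9b

namespace SrMat

theorem sr_end (F V : Type*) [Field F] [AddCommGroup V] [Module F V] [FiniteDimensional F V] :
    SR (Module.End F V) := by
  rintro a b c ⟨x, y, z, hxyz⟩
  obtain ⟨Z, hZ⟩ := Submodule.exists_isCompl (LinearMap.range a)
  have hfin : Module.finrank F (LinearMap.ker a) = Module.finrank F Z := by
    have h1 := LinearMap.finrank_range_add_finrank_ker a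
    have h2 := Submodule.finrank_add_eq_of_isCompl hZ
    omega
  let e : LinearMap.ker a ≃ₗ[F] Z := LinearEquiv.ofFinrankEq _ _ hfin
  let d : V →ₗ[F] V × V := LinearMap.prod b c
  let dN : LinearMap.ker a →ₗ[F] V × V := d.comp (LinearMap.ker a).subtype
  have hd : LinearMap.ker dN = ⊥ := by
    rw [LinearMap.ker_eq_bot']
    intro v hv
    have h1 : b v = 0 := congrArg Prod.fst hv
    have h2 : c v = 0 := congrArg Prod.snd hv
    have h3 : a v = 0 := v.2
    have h4 := LinearMap.congr_fun hxyz (v : V)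
    simp only [LinearMap.add_apply, Module.End.mul_apply, h1, h2, h3, map_zero, add_zero,
      Module.End.one_apply] at h4
    exact Subtype.ext h4.symm
  obtain ⟨g, hg⟩ := LinearMap.exists_leftInverse_of_injective dN hd
  let t' : V × V →ₗ[F] V := Z.subtype.comp (e.toLinearMap.comp g)
  refine ⟨t'.comp (LinearMap.inl F V V), t'.comp (LinearMap.inr F V V), ?_⟩
  have key : ∀ v, (a + t'.comp (LinearMap.inl F V V) * b + t'.comp (LinearMap.inr F V V) * c) v =
      a v + t' (b v, c v) := by
    intro v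
    simp only [LinearMap.add_apply, Module.End.mul_apply, LinearMap.comp_apply,
      LinearMap.inl_apply, LinearMap.inr_apply]
    rw [add_assoc, ← map_add]
    simp
  rw [LinearMap.isUnit_iff_ker_eq_bot, LinearMap.ker_eq_bot']
  intro v hv
  rw [key] at hv
  have h1 : a v ∈ LinearMap.range a := ⟨v, rfl⟩
  have h2 : t' (b v, c v) ∈ Z := Subtype.property _
  have h3 : a v = 0 := by
    have h4 : a v ∈ Z := by
      have : a v = - t' (b v, c v) := eq_neg_of_add_eq_zero_left hv
      rw [this]
      exact Z.neg_mem h2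
    exact (Submodule.disjoint_def.1 hZ.disjoint) _ h1 h4
  rw [h3, zero_add] at hv
  have h5 : g (b v, c v) = ⟨v, h3⟩ := LinearMap.congr_fun hg ⟨v, h3⟩
  have h6 : e (g (b v, c v)) = 0 := Subtype.ext hv
  rw [h5, LinearEquiv.map_eq_zero_iff] at h6
  exact congrArg Subtype.val h6

theorem sr_equiv {A B : Type*} [Ring A] [Ring B] (f : A ≃+* B) (h : SR B) : SR A := by
  rintro a b c ⟨x, y, z, hxyz⟩
  obtain ⟨t, u, htu⟩ := h (f a) (f b) (f c) ⟨f x, f y, f z, by
    rw [← map_mul, ← map_mul, ← map_mul, ← map_add, ← map_add, hxyz, map_one]⟩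
  refine ⟨f.symm t, f.symm u, ?_⟩
  have : a + f.symm t * b + f.symm u * c = f.symm (f a + t * f b + u * f c) := by
    simp
  rw [this]
  exact htu.map f.symm

end SrMat

theorem sr_matrix (F : Type) [Field F] (m : ℕ) : SR (Matrix (Fin m) (Fin m) F) :=
  SrMat.sr_equiv (Matrix.toLinAlgEquiv' (R := F) (n := Fin m)).toRingEquiv
    (SrMat.sr_end F (Fin m → F))

end Pool.Agent.MPfe8e9b
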