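import Mathlib
import Pool.Agent.Lib.MP_fe8e9b_al.Defs3

/-!
# MP_fe8e9b_al: unitriangular matrices
-/

set_option autoImplicit false

open scoped BigOperators

namespace Pool.Agent.MPfe8e9b

namespace UniDec

variable {F : Type} [Field F] {m : ℕ}

/-- Matrices supported strictly above the diagonal by at least `d`. -/
def Up (d : ℕ) (M : Matrix (Fin m) (Fin m) F) : Prop := ∀ i j : Fin m, j.1 < i.1 + d → M i j = 0

theorem Up.mul {d e : ℕ} {M N : Matrix (Fin m) (Fin m) F} (hM : Up d M) (hN : Up e N) :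
    Up (d + e) (M * N) := by
  intro i j hij
  rw [Matrix.mul_apply]
  refine Finset.sum_eq_zero fun k _ => ?_
  by_cases h : k.1 < i.1 + d
  · rw [hM i k h, zero_mul]
  · rw [hN k j (by omega), mul_zero]

theorem ut_iff (U : Matrix (Fin m) (Fin m) F) : UT U ↔ Up 1 (U - 1) := by
  constructor
  · intro h i j hij
    rw [Matrix.sub_apply]
    rcases Nat.lt_succ_iff_lt_or_eq.mp hij with h1 | h1
    · rw [h.2 i j h1, Matrix.one_apply_ne (by intro h2; rw [h2] at h1; exact lt_irrefl _ h1),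
        sub_zero]
    · have h2 : i = j := (Fin.ext h1).symm
      rw [h2, h.1 j, Matrix.one_apply_eq, sub_self]
  · intro h
    refine ⟨fun i => ?_, fun i j hij => ?_⟩
    · have := h i i (Nat.lt_succ_self _)
      rwa [Matrix.sub_apply, Matrix.one_apply_eq, sub_eq_zero] at this
    · have := h i j (lt_trans hij (Nat.lt_succ_self _))
      rwa [Matrix.sub_apply, Matrix.one_apply_ne (by
        intro h2; rw [h2] at hij; exact lt_irrefl _ hij), sub_zero] at this

theorem UT.det {U : Matrix (Fin m) (Fin m) F} (h : UT U) : U.det = 1 := by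
  rw [Matrix.det_of_isUpperTriangular (fun i j hij => h.2 i j hij)]
  exact Finset.prod_eq_one fun i _ => h.1 i


theorem Up.add {d : ℕ} {M N : Matrix (Fin m) (Fin m) F} (hM : Up d M) (hN : Up d N) :
    Up d (M + N) := fun i j hij => by rw [Matrix.add_apply, hM i j hij, hN i j hij, add_zero]

theorem Up.sub {d : ℕ} {M N : Matrix (Fin m) (Fin m) F} (hM : Up d M) (hN : Up d N) :
    Up d (M - N) := fun i j hij => by rw [Matrix.sub_apply, hM i j hij, hN i j hij, sub_zero]

theorem Up.mono {d e : ℕ} (h : e ≤ d) {M : Matrix (Fin m) (Fin m) F} (hM : Up d M) : Up e M :=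
  fun i j hij => hM i j (by omega)

theorem Up.zero_one : Up 0 (1 : Matrix (Fin m) (Fin m) F) := by
  intro i j hij
  exact Matrix.one_apply_ne (by intro h; rw [h] at hij; omega)

theorem Up.pow {M : Matrix (Fin m) (Fin m) F} (hM : Up 1 M) (n : ℕ) : Up n (M ^ n) := by
  induction n with
  | zero => rw [pow_zero]; exact Up.zero_one
  | succ n ih => rw [pow_succ]; exact ih.mul hM

/-- The shift. -/
def Sh (F : Type) [Field F] (m : ℕ) : Matrix (Fin m) (Fin m) F :=
  fun i j => if j.1 = i.1 + 1 then 1 else 0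

theorem Sh_up : Up 1 (Sh F m) := by
  intro i j hij
  show (if j.1 = i.1 + 1 then (1 : F) else 0) = 0
  rw [if_neg (by omega)]

theorem Sh_pow (n : ℕ) (i j : Fin m) : (Sh F m ^ n) i j = if j.1 = i.1 + n then 1 else 0 := by
  induction n generalizing j with
  | zero =>
    rw [pow_zero, Matrix.one_apply]
    simp only [add_zero]
    by_cases h : i = j
    · rw [if_pos h, if_pos (by rw [h])]
    · rw [if_neg h, if_neg (by intro h'; exact h (Fin.ext h'.symm))]
  | succ n ih =>
    rw [pow_succ, Matrix.mul_apply]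
    simp only [ih]
    by_cases h : j.1 = i.1 + (n + 1)
    · rw [if_pos h]
      have hk : i.1 + n < m := by have := j.2; omega
      rw [Finset.sum_eq_single (⟨i.1 + n, hk⟩ : Fin m)]
      · rw [if_pos rfl, one_mul]
        show (if j.1 = i.1 + n + 1 then (1 : F) else 0) = 1
        rw [if_pos (by omega)]
      · intro k _ hk'
        rw [if_neg (by intro h'; exact hk' (Fin.ext h')), zero_mul]
      · intro h'
        exact absurd (Finset.mem_univ _) h'
    · rw [if_neg h]
      refine Finset.sum_eq_zero fun k _ => ?_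
      by_cases hk : k.1 = i.1 + n
      · rw [if_pos hk, one_mul]
        show (if j.1 = k.1 + 1 then (1 : F) else 0) = 0
        rw [if_neg (by omega)]
      · rw [if_neg hk, zero_mul]

theorem pow_sub_Sh {N : Matrix (Fin m) (Fin m) F} (hN : Up 2 (N - Sh F m)) (n : ℕ) :
    Up (n + 1) (N ^ n - Sh F m ^ n) := by
  have hN1 : Up 1 N := by
    have h1 : N = (N - Sh F m) + Sh F m := by abel
    rw [h1]
    exact (hN.mono (by norm_num)).add Sh_up
  induction n with
  | zero =>
    rw [pow_zero, pow_zero, sub_self]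
    intro i j _
    rfl
  | succ n ih =>
    have h1 : N ^ (n + 1) - Sh F m ^ (n + 1) =
        N * (N ^ n - Sh F m ^ n) + (N - Sh F m) * Sh F m ^ n := by
      rw [pow_succ', pow_succ']
      noncomm_ring
    rw [h1]
    exact ((hN1.mul ih).mono (by omega)).add ((hN.mul (Sh_up.pow n)).mono (by omega))

/-- A regular unipotent matrix is conjugate to the Jordan block. -/
theorem conj_jordan {N : Matrix (Fin m) (Fin m) F} (hN : Up 2 (N - Sh F m)) :
    ∃ g : Matrix (Fin m) (Fin m) F, UT g ∧ N * g = g * Sh F m := by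
  have hN1 : Up 1 N := by
    have h1 : N = (N - Sh F m) + Sh F m := by abel
    rw [h1]
    exact (hN.mono (by norm_num)).add Sh_up
  rcases Nat.eq_zero_or_pos m with rfl | hm
  · exact ⟨0, ⟨fun i => i.elim0, fun i => i.elim0⟩, by ext i; exact i.elim0⟩
  let last : Fin m := ⟨m - 1, by omega⟩
  let g : Matrix (Fin m) (Fin m) F := fun i j => (N ^ (m - 1 - j.1)) i last
  refine ⟨g, ⟨fun i => ?_, fun i j hij => ?_⟩, ?_⟩
  · show (N ^ (m - 1 - i.1)) i last = 1
    have h1 := pow_sub_Sh hN (m - 1 - i.1) i last (by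
      show m - 1 < i.1 + (m - 1 - i.1 + 1)
      have := i.2
      omega)
    rw [Matrix.sub_apply, Sh_pow, if_pos (by
      show m - 1 = i.1 + (m - 1 - i.1)
      have := i.2
      omega), sub_eq_zero] at h1
    exact h1
  · show (N ^ (m - 1 - j.1)) i last = 0
    refine hN1.pow _ i last ?_
    show m - 1 < i.1 + (m - 1 - j.1)
    have h1 : j.1 < i.1 := hij
    have := j.2
    omega
  · ext i j
    have h1 : (N * g) i j = (N ^ (m - j.1)) i last := by
      have h2 : m - j.1 = m - 1 - j.1 + 1 := by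
        have := j.2
        omega
      rw [h2, pow_succ', Matrix.mul_apply, Matrix.mul_apply]
    rw [h1, Matrix.mul_apply]
    by_cases hj : j.1 = 0
    · rw [hj, Finset.sum_eq_zero]
      · refine hN1.pow _ i last ?_
        show m - 1 < i.1 + (m - 0)
        omega
      · intro k _
        show _ * (if j.1 = k.1 + 1 then (1 : F) else 0) = 0
        rw [if_neg (by omega), mul_zero]
    · have hj' : j.1 - 1 < m := by have := j.2; omega
      rw [Finset.sum_eq_single (⟨j.1 - 1, hj'⟩ : Fin m)]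
      · show _ = (N ^ (m - 1 - (j.1 - 1))) i last * (if j.1 = j.1 - 1 + 1 then (1 : F) else 0)
        rw [if_pos (by omega), mul_one]
        have h2 : m - 1 - (j.1 - 1) = m - j.1 := by omega
        rw [h2]
      · intro k _ hk
        show _ * (if j.1 = k.1 + 1 then (1 : F) else 0) = 0
        rw [if_neg (by intro h'; exact hk (Fin.ext (by show k.1 = j.1 - 1; omega))), mul_zero]
      · intro h'
        exact absurd (Finset.mem_univ _) h'

/-- A matrix on the first superdiagonal. -/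
def zz (U : Matrix (Fin m) (Fin m) F) (r : ℕ) : Matrix (Fin m) (Fin m) F :=
  fun i j => if j.1 = i.1 + 1 ∧ i.1 % 2 = r then U i j else 0

/-- Projection on the even or odd coordinates. -/
def pp (F : Type) [Field F] (m r : ℕ) : Matrix (Fin m) (Fin m) F :=
  Matrix.diagonal fun i => if i.1 % 2 = r then 1 else 0

theorem zz_up (U : Matrix (Fin m) (Fin m) F) (r : ℕ) : Up 1 (zz U r) := by
  intro i j hij
  show (if j.1 = i.1 + 1 ∧ i.1 % 2 = r then U i j else 0) = 0
  rw [if_neg (by omega)]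

theorem pp_mul_zz (U : Matrix (Fin m) (Fin m) F) (r : ℕ) : pp F m r * zz U r = zz U r := by
  ext i j
  rw [pp, Matrix.diagonal_mul]
  show (if i.1 % 2 = r then (1 : F) else 0) * (if j.1 = i.1 + 1 ∧ i.1 % 2 = r then U i j else 0) =
    (if j.1 = i.1 + 1 ∧ i.1 % 2 = r then U i j else 0)
  by_cases h : i.1 % 2 = r
  · rw [if_pos h, one_mul]
  · rw [if_neg h, zero_mul, if_neg (fun h' => h h'.2)]

theorem zz_mul_pp (U : Matrix (Fin m) (Fin m) F) (r : ℕ) : zz U r * pp F m r = 0 := by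
  ext i j
  rw [pp, Matrix.mul_diagonal]
  show (if j.1 = i.1 + 1 ∧ i.1 % 2 = r then U i j else 0) * (if j.1 % 2 = r then (1 : F) else 0) =
    0
  by_cases h : j.1 = i.1 + 1 ∧ i.1 % 2 = r
  · have h' : ¬ j.1 % 2 = r := by
      obtain ⟨h1, h2⟩ := h
      rw [h1]
      omega
    rw [if_neg h', mul_zero]
  · rw [if_neg h, zero_mul]

theorem zz_sq (U : Matrix (Fin m) (Fin m) F) (r : ℕ) : zz U r * zz U r = 0 := by
  conv_lhs => rw [← pp_mul_zz U r, mul_assoc, ← mul_assoc (zz U r), zz_mul_pp, zero_mul, mul_zero]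

theorem zz_add (U : Matrix (Fin m) (Fin m) F) (hU : UT U) :
    Up 2 (U - 1 - zz U 0 - zz U 1) := by
  intro i j hij
  rw [Matrix.sub_apply, Matrix.sub_apply, Matrix.sub_apply]
  show U i j - (1 : Matrix (Fin m) (Fin m) F) i j -
    (if j.1 = i.1 + 1 ∧ i.1 % 2 = 0 then U i j else 0) -
    (if j.1 = i.1 + 1 ∧ i.1 % 2 = 1 then U i j else 0) = 0
  by_cases h : j.1 = i.1 + 1
  · have h1 : i ≠ j := by
      intro h'
      rw [h'] at h
      omega
    rw [Matrix.one_apply_ne h1]
    rcases Nat.mod_two_eq_zero_or_one i.1 with h2 | h2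
    · rw [if_pos ⟨h, h2⟩, if_neg (by omega)]
      ring
    · rw [if_neg (by omega), if_pos ⟨h, h2⟩]
      ring
  · rw [if_neg (fun h' => h h'.1), if_neg (fun h' => h h'.1), sub_zero, sub_zero]
    have h1 := (ut_iff U).mp hU i j (by omega)
    rwa [Matrix.sub_apply] at h1

end UniDec

open UniDec in
theorem ut_dec (F : Type) [Field F] (m : ℕ) (U : Matrix (Fin m) (Fin m) F) (hU : UT U) :
    ∃ (z₁ p₁ z₂ p₂ : Matrix (Fin m) (Fin m) F) (a b : (Matrix (Fin m) (Fin m) F)ˣ),
      z₁ * z₁ = 0 ∧ p₁ * z₁ = z₁ ∧ z₁ * p₁ = 0 ∧ z₂ * z₂ = 0 ∧ p₂ * z₂ = z₂ ∧ z₂ * p₂ = 0 ∧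
      U = (1 + z₁) * (1 + z₂) * ((a * b * a⁻¹ * b⁻¹ : (Matrix (Fin m) (Fin m) F)ˣ) :
        Matrix (Fin m) (Fin m) F) := by
  set z₁ := zz U 0 with hz₁
  set z₂ := zz U 1 with hz₂
  have s1 : z₁ * z₁ = 0 := zz_sq U 0
  have s2 : z₂ * z₂ = 0 := zz_sq U 1
  have u1 : Up 1 z₁ := zz_up U 0
  have u2 : Up 1 z₂ := zz_up U 1
  have uN : Up 1 (U - 1) := (ut_iff U).mp hU
  set U0 := (1 - z₂) * (1 - z₁) * U with hU0
  have e1 : U = (1 + z₁) * (1 + z₂) * U0 := by
    have h1 : (1 + z₂) * (1 - z₂) = 1 := by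
      have : (1 + z₂) * (1 - z₂) = 1 - z₂ * z₂ := by noncomm_ring
      rw [this, s2, sub_zero]
    have h2 : (1 + z₁) * (1 - z₁) = 1 := by
      have : (1 + z₁) * (1 - z₁) = 1 - z₁ * z₁ := by noncomm_ring
      rw [this, s1, sub_zero]
    calc U = ((1 + z₁) * (1 - z₁)) * U := by rw [h2, one_mul]
      _ = (1 + z₁) * (((1 + z₂) * (1 - z₂)) * ((1 - z₁) * U)) := by rw [h1, one_mul, mul_assoc]
      _ = (1 + z₁) * (1 + z₂) * U0 := by rw [hU0]; simp only [mul_assoc]
  have e2 : Up 2 (U0 - 1) := by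
    have h1 : U0 - 1 = (U - 1 - z₁ - z₂) + z₂ * z₁ - z₁ * (U - 1) - z₂ * (U - 1) +
        z₂ * z₁ * (U - 1) := by
      rw [hU0]
      noncomm_ring
    rw [h1]
    refine Up.add (Up.sub (Up.sub (Up.add (zz_add U hU) ?_) ?_) ?_) ?_
    · exact u2.mul u1
    · exact u1.mul uN
    · exact u2.mul uN
    · exact ((u2.mul u1).mul uN).mono (by norm_num)
  -- the regular unipotent matrix
  set J : Matrix (Fin m) (Fin m) F := 1 + Sh F m with hJ
  have e3 : Up 2 ((J * U0 - 1) - Sh F m) := by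
    have h1 : (J * U0 - 1) - Sh F m = (U0 - 1) + Sh F m * (U0 - 1) := by
      rw [hJ]
      noncomm_ring
    rw [h1]
    exact e2.add ((Sh_up.mul e2).mono (by norm_num))
  obtain ⟨g, hg, hgN⟩ := conj_jordan e3
  have e4 : J * U0 * g = g * J := by
    have h1 : J * U0 * g = (J * U0 - 1) * g + g := by noncomm_ring
    rw [h1, hgN, hJ]
    noncomm_ring
  have hJdet : J.det = 1 := UT.det ((ut_iff J).mpr (by
    rw [hJ, add_sub_cancel_left]
    exact Sh_up))
  have hgdet : g.det = 1 := UT.det hg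
  let Ju : (Matrix (Fin m) (Fin m) F)ˣ := Matrix.nonsingInvUnit J (by rw [hJdet]; exact isUnit_one)
  let gu : (Matrix (Fin m) (Fin m) F)ˣ := Matrix.nonsingInvUnit g (by rw [hgdet]; exact isUnit_one)
  have hJu : (Ju : Matrix (Fin m) (Fin m) F) = J := rfl
  have hgu : (gu : Matrix (Fin m) (Fin m) F) = g := rfl
  refine ⟨z₁, pp F m 0, z₂, pp F m 1, Ju⁻¹, gu, s1, pp_mul_zz U 0, zz_mul_pp U 0, s2,
    pp_mul_zz U 1, zz_mul_pp U 1, ?_⟩
  rw [e1]
  congr 1
  rw [inv_inv, Units.val_mul, Units.val_mul, Units.val_mul, hJu, hgu, mul_assoc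
    (((Ju⁻¹ : (Matrix (Fin m) (Fin m) F)ˣ) : Matrix (Fin m) (Fin m) F)) g J, ← e4, ← hJu, ← hgu,
    mul_assoc (Ju : Matrix (Fin m) (Fin m) F) U0, Units.inv_mul_cancel_left,
    Units.mul_inv_cancel_right]

end Pool.Agent.MPfe8e9b
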