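import Mathlib
import Pool.Agent.Lib.MP_fe8e9b_al.Defs3
import Pool.Agent.Lib.MP_fe8e9b_al.El3

/-!
# MP_fe8e9b_al: Whitehead lemma, commutators of units, square-zero unipotents
-/

set_option autoImplicit false

open scoped BigOperators

namespace Pool.Agent.MPfe8e9b

namespace White

open El3

variable {A : Type*} [Ring A]

theorem mul_diag_eq (a b c a' b' c' : A) :
    (Matrix.diagonal ![a, b, c] : Matrix (Fin 3) (Fin 3) A) * Matrix.diagonal ![a', b', c'] =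
      Matrix.diagonal ![a * a', b * b', c * c'] := by
  rw [Matrix.diagonal_mul_diagonal]
  congr 1
  funext i
  fin_cases i <;> simp

theorem w01 (u : Aˣ) : (Matrix.diagonal ![(u : A), ((u⁻¹ : Aˣ) : A), 1] :
      Matrix (Fin 3) (Fin 3) A) =
    el 0 1 (u : A) * (el 1 0 (-((u⁻¹ : Aˣ) : A)) * (el 0 1 (u : A) *
      (el 0 1 (-1) * (el 1 0 1 * (el 0 1 (-1) * 1))))) := by
  ext i j
  fin_cases i <;> fin_cases j <;>
    simp [el, Matrix.mul_apply, Fin.sum_univ_three, Matrix.single, Matrix.one_apply,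
      Matrix.diagonal]

theorem w02 (u : Aˣ) : (Matrix.diagonal ![(u : A), 1, ((u⁻¹ : Aˣ) : A)] :
      Matrix (Fin 3) (Fin 3) A) =
    el 0 2 (u : A) * (el 2 0 (-((u⁻¹ : Aˣ) : A)) * (el 0 2 (u : A) *
      (el 0 2 (-1) * (el 2 0 1 * (el 0 2 (-1) * 1))))) := by
  ext i j
  fin_cases i <;> fin_cases j <;>
    simp [el, Matrix.mul_apply, Fin.sum_univ_three, Matrix.single, Matrix.one_apply,
      Matrix.diagonal]

end White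

open El3 White in
theorem wh_comm : ∃ l : List (Fin 3 × Fin 3), (∀ ρ ∈ l, ρ.1 ≠ ρ.2) ∧
    ∀ (A : Type) [Ring A] (a b : Aˣ), dg3 ((a * b * a⁻¹ * b⁻¹ : Aˣ) : A) ∈ ELs l := by
  let l1 : List (Fin 3 × Fin 3) := [(0, 1), (1, 0), (0, 1), (0, 1), (1, 0), (0, 1)]
  let l2 : List (Fin 3 × Fin 3) := [(0, 2), (2, 0), (0, 2), (0, 2), (2, 0), (0, 2)]
  refine ⟨l1 ++ (l2 ++ (l1 ++ l2)), by decide, ?_⟩
  intro A _ a b
  have h1 : ∀ u : Aˣ, (Matrix.diagonal ![(u : A), ((u⁻¹ : Aˣ) : A), 1] :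
      Matrix (Fin 3) (Fin 3) A) ∈ ELs l1 := fun u =>
    ⟨_, _, ⟨_, _, ⟨_, _, ⟨_, _, ⟨_, _, ⟨_, _, rfl, rfl⟩, rfl⟩, rfl⟩, rfl⟩, rfl⟩, w01 u⟩
  have h2 : ∀ u : Aˣ, (Matrix.diagonal ![(u : A), 1, ((u⁻¹ : Aˣ) : A)] :
      Matrix (Fin 3) (Fin 3) A) ∈ ELs l2 := fun u =>
    ⟨_, _, ⟨_, _, ⟨_, _, ⟨_, _, ⟨_, _, ⟨_, _, rfl, rfl⟩, rfl⟩, rfl⟩, rfl⟩, rfl⟩, w02 u⟩
  have h3 : dg3 ((a * b * a⁻¹ * b⁻¹ : Aˣ) : A) =
      (Matrix.diagonal ![(a : A), ((a⁻¹ : Aˣ) : A), 1] : Matrix (Fin 3) (Fin 3) A) *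
      (Matrix.diagonal ![(b : A), 1, ((b⁻¹ : Aˣ) : A)] *
      (Matrix.diagonal ![((a⁻¹ : Aˣ) : A), (((a⁻¹)⁻¹ : Aˣ) : A), 1] *
      Matrix.diagonal ![((b⁻¹ : Aˣ) : A), 1, (((b⁻¹)⁻¹ : Aˣ) : A)])) := by
    rw [mul_diag_eq, mul_diag_eq, mul_diag_eq, dg3]
    congr 1
    funext i
    fin_cases i <;> simp [mul_assoc]
  rw [h3]
  exact ELs_append _ _ (h1 a) (ELs_append _ _ (h2 b) (ELs_append _ _ (h1 a⁻¹) (h2 b⁻¹)))

theorem wh_sq : ∃ l : List (Fin 3 × Fin 3), (∀ ρ ∈ l, ρ.1 ≠ ρ.2) ∧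
    ∀ (A : Type) [Ring A] (z p : A), z * z = 0 → p * z = z → z * p = 0 →
      dg3 (1 + z) ∈ ELs l := by
  refine ⟨[(0, 2), (2, 0), (0, 2), (2, 0)], by decide, ?_⟩
  intro A _ z p hzz hpz hzp
  refine ⟨p, _, ⟨z, _, ⟨-p, _, ⟨-z, _, rfl, rfl⟩, rfl⟩, rfl⟩, ?_⟩
  ext i j
  fin_cases i <;> fin_cases j <;>
    simp [dg3, el, Matrix.mul_apply, Fin.sum_univ_three, Matrix.single, Matrix.one_apply,
      Matrix.diagonal, hpz, hzp, mul_add, hzz]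

end Pool.Agent.MPfe8e9b
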