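import Mathlib
import Pool.Agent.Lib.MP_fe8e9b_al.Defs3
import Pool.Agent.Lib.MP_fe8e9b_al.El3
import Pool.Agent.Lib.MP_fe8e9b_al.Elim3
import Pool.Agent.Lib.MP_fe8e9b_al.White3
import Pool.Agent.Lib.MP_fe8e9b_al.UniDec
import Pool.Agent.Lib.MP_fe8e9b_al.SrMat
import Pool.Agent.Lib.MP_fe8e9b_al.DiagComm
import Pool.Agent.Lib.MP_fe8e9b_al.Lhul

/-!
# MP_fe8e9b_al: bounded generation of `SL_{3m}(F)` by block elementary matrices
-/

set_option autoImplicit false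

open scoped BigOperators MatrixGroups Pointwise

namespace Pool.Agent.MPfe8e9b

namespace BoundGen

open El3

/-- `dg3 D` lies in a fixed product of elementary matrices, for all fields. -/
def Kills (P : ∀ (F : Type) [Field F] (m : ℕ), Matrix (Fin m) (Fin m) F → Prop) : Prop :=
  ∃ l : List (Fin 3 × Fin 3), (∀ ρ ∈ l, ρ.1 ≠ ρ.2) ∧ ∀ (F : Type) [Field F] (m : ℕ)
    (D : Matrix (Fin m) (Fin m) F), P F m D → dg3 D ∈ ELs l

theorem append_ne {l l' : List (Fin 3 × Fin 3)} (hl : ∀ ρ ∈ l, ρ.1 ≠ ρ.2)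
    (hl' : ∀ ρ ∈ l', ρ.1 ≠ ρ.2) : ∀ ρ ∈ l ++ l', ρ.1 ≠ ρ.2 := by
  intro ρ hρ
  rcases List.mem_append.mp hρ with h | h
  · exact hl ρ h
  · exact hl' ρ h

theorem kills_ut : Kills (fun F _ m D => @UT m F _ _ D) := by
  obtain ⟨l₁, hl₁, h₁⟩ := wh_sq
  obtain ⟨l₂, hl₂, h₂⟩ := wh_comm
  refine ⟨l₁ ++ (l₁ ++ l₂), append_ne hl₁ (append_ne hl₁ hl₂), ?_⟩
  intro F _ m D hD
  obtain ⟨z₁, p₁, z₂, p₂, a, b, a1, a2, a3, b1, b2, b3, hU⟩ := ut_dec F m D hD
  rw [hU, mul_assoc, dg3_mul, dg3_mul]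
  exact ELs_append _ _ (h₁ _ z₁ p₁ a1 a2 a3) (ELs_append _ _ (h₁ _ z₂ p₂ b1 b2 b3)
    (h₂ _ a b))

theorem kills_lt : Kills (fun F _ m D => @UT m F _ _ D.transpose) := by
  obtain ⟨l₁, hl₁, h₁⟩ := wh_sq
  obtain ⟨l₂, hl₂, h₂⟩ := wh_comm
  refine ⟨l₂ ++ (l₁ ++ l₁), append_ne hl₂ (append_ne hl₁ hl₁), ?_⟩
  intro F _ m D hD
  obtain ⟨z₁, p₁, z₂, p₂, a, b, a1, a2, a3, b1, b2, b3, hU⟩ := ut_dec F m D.transpose hD
  -- transpose of units
  let tr : (Matrix (Fin m) (Fin m) F)ˣ → (Matrix (Fin m) (Fin m) F)ˣ := fun u =>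
    ⟨(u : Matrix (Fin m) (Fin m) F).transpose,
      ((u⁻¹ : (Matrix (Fin m) (Fin m) F)ˣ) : Matrix (Fin m) (Fin m) F).transpose,
      by rw [← Matrix.transpose_mul, Units.inv_mul, Matrix.transpose_one],
      by rw [← Matrix.transpose_mul, Units.mul_inv, Matrix.transpose_one]⟩
  have hD' : D = (((tr b)⁻¹ * (tr a)⁻¹ * ((tr b)⁻¹)⁻¹ * ((tr a)⁻¹)⁻¹ :
      (Matrix (Fin m) (Fin m) F)ˣ) : Matrix (Fin m) (Fin m) F) *
      ((1 + z₂.transpose) * (1 + z₁.transpose)) := by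
    have h1 := congrArg Matrix.transpose hU
    rw [Matrix.transpose_transpose, Matrix.transpose_mul, Matrix.transpose_mul,
      Matrix.transpose_add, Matrix.transpose_add, Matrix.transpose_one] at h1
    rw [h1]
    congr 1
    rw [Units.val_mul, Units.val_mul, Units.val_mul, Matrix.transpose_mul, Matrix.transpose_mul,
      Matrix.transpose_mul, inv_inv, inv_inv, Units.val_mul, Units.val_mul, Units.val_mul,
      mul_assoc, mul_assoc]
    rfl
  have hz : ∀ z p : Matrix (Fin m) (Fin m) F, z * z = 0 → p * z = z → z * p = 0 →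
      dg3 (1 + z.transpose) ∈ ELs l₁ := by
    intro z p c1 c2 c3
    refine h₁ _ z.transpose (1 - p.transpose) ?_ ?_ ?_
    · rw [← Matrix.transpose_mul, c1, Matrix.transpose_zero]
    · rw [sub_mul, one_mul, ← Matrix.transpose_mul, c3, Matrix.transpose_zero, sub_zero]
    · rw [mul_sub, mul_one, ← Matrix.transpose_mul, c2, sub_self]
  rw [hD', dg3_mul, dg3_mul]
  exact ELs_append _ _ (h₂ _ _ _) (ELs_append _ _ (hz z₂ p₂ b1 b2 b3) (hz z₁ p₁ a1 a2 a3))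

theorem ut_det {m : ℕ} {F : Type} [Field F] {U : Matrix (Fin m) (Fin m) F} (h : UT U) :
    U.det = 1 := UniDec.UT.det h

theorem kills_det : Kills (fun F _ m D => @Matrix.det (Fin m) _ _ F _ D = 1) := by
  obtain ⟨l₁, hl₁, h₁⟩ := kills_ut
  obtain ⟨l₂, hl₂, h₂⟩ := kills_lt
  obtain ⟨l₃, hl₃, h₃⟩ := wh_comm
  refine ⟨l₂ ++ (l₃ ++ (l₁ ++ l₂)), append_ne hl₂ (append_ne hl₃ (append_ne hl₁ hl₂)), ?_⟩
  intro F _ m D hD
  have hD' : D.det = 1 := hD
  obtain ⟨L, L', U, h, hL, hL', hU, rfl⟩ := lhul F m D (by rw [hD']; exact one_ne_zero)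
  have h4 : ∏ i, h i = 1 := by
    rw [Matrix.det_mul, Matrix.det_mul, Matrix.det_mul, ← Matrix.det_transpose L,
      ← Matrix.det_transpose L', ut_det hL, ut_det hL', ut_det hU, Matrix.det_diagonal] at hD'
    simpa using hD'
  obtain ⟨a, b, hab⟩ := diag_comm F m h h4
  rw [mul_assoc, mul_assoc, dg3_mul, dg3_mul, dg3_mul, hab]
  exact ELs_append _ _ (h₂ F m L hL) (ELs_append _ _ (h₃ _ a b)
    (ELs_append _ _ (h₁ F m U hU) (h₂ F m L' hL')))

/-- The determinant of `dg3 D`. -/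
theorem cdet_dg3 {m : ℕ} {F : Type} [Field F] (D : Matrix (Fin m) (Fin m) F) :
    cdet m F (dg3 D) = D.det := by
  rw [cdet_apply]
  have h1 : Matrix.comp (Fin 3) (Fin 3) (Fin m) (Fin m) F (dg3 D) =
      (Matrix.blockDiagonal ![D, 1, 1]).submatrix Prod.swap Prod.swap := by
    ext ⟨i, k⟩ ⟨j, l⟩
    rw [Matrix.comp_apply, dg3, Matrix.submatrix_apply, Prod.swap_prod_mk, Prod.swap_prod_mk,
      Matrix.blockDiagonal_apply]
    by_cases h : i = j
    · subst h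
      rw [if_pos rfl, Matrix.diagonal_apply_eq]
    · rw [if_neg h, Matrix.diagonal_apply_ne _ h]
      rfl
  rw [h1]
  have h2 := Matrix.det_submatrix_equiv_self (Equiv.prodComm (Fin 3) (Fin m))
    (Matrix.blockDiagonal ![D, 1, 1])
  have h3 : (Matrix.blockDiagonal ![D, 1, 1]).submatrix (Equiv.prodComm (Fin 3) (Fin m))
      (Equiv.prodComm (Fin 3) (Fin m)) =
      (Matrix.blockDiagonal ![D, 1, 1]).submatrix Prod.swap Prod.swap := rfl
  rw [← h3, h2, Matrix.det_blockDiagonal, Fin.prod_univ_three]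
  simp

end BoundGen

open El3 BoundGen in
theorem bound_gen : ∃ l : List (Fin 3 × Fin 3), (∀ ρ ∈ l, ρ.1 ≠ ρ.2) ∧ ∀ (F : Type) [Field F]
    (m : ℕ) (g : Matrix (Fin 3) (Fin 3) (Matrix (Fin m) (Fin m) F)),
    (Matrix.comp (Fin 3) (Fin 3) (Fin m) (Fin m) F g).det = 1 → g ∈ ELs l := by
  obtain ⟨l, l', hl, hl', helim⟩ := elim3
  obtain ⟨l₀, hl₀, hdet⟩ := kills_det
  refine ⟨l ++ (l₀ ++ l'), append_ne hl (append_ne hl₀ hl'), ?_⟩
  intro F _ m g hg
  let φ := Matrix.compRingEquiv (Fin 3) (Fin m) F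
  have hg1 : (φ g).det = 1 := hg
  have hu : IsUnit (φ g).det := by rw [hg1]; exact isUnit_one
  have h1 : φ.symm ((φ g)⁻¹) * g = 1 := by
    apply φ.injective
    rw [map_mul, RingEquiv.apply_symm_apply, map_one]
    exact Matrix.nonsing_inv_mul _ hu
  have h2 : g * φ.symm ((φ g)⁻¹) = 1 := by
    apply φ.injective
    rw [map_mul, RingEquiv.apply_symm_apply, map_one]
    exact Matrix.mul_nonsing_inv _ hu
  obtain ⟨D, x, hx, y, hy, rfl⟩ := helim _ (sr_matrix F m) g _ h1 h2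
  have h3 : (D : Matrix (Fin m) (Fin m) F).det = 1 := by
    have h4 : cdet m F (x * dg3 (D : Matrix (Fin m) (Fin m) F) * y) = 1 := hg
    rw [map_mul, map_mul, cdet_ELs m F l hl hx, cdet_ELs m F l' hl' hy, cdet_dg3] at h4
    simpa using h4
  rw [mul_assoc]
  exact ELs_append _ _ hx (ELs_append _ _ (hdet F m _ h3) hy)

end Pool.Agent.MPfe8e9b
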