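import Mathlib
import Pool.Agent.Lib.MP_fe8e9b_al.Defs3

/-!
# MP_fe8e9b_al, round 3: four quadrants (module BURGER)
-/

open scoped BigOperators MatrixGroups Pointwise

namespace Pool.Agent.MPfe8e9b

namespace Burger

/-- The energy of a function under the two moves. -/
noncomputable def En {V : Type*} [AddCommGroup V] [Fintype V] (F : V × V → ℝ) : ℝ :=
  ∑ p : V × V, ((F (p.1, p.2 + p.1) - F p) ^ 2 + (F (p.1 + p.2, p.2) - F p) ^ 2)

/-- The equivalence `(u, w) ↦ (u, w + u)`. -/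
def tau (V : Type*) [AddCommGroup V] : V × V ≃ V × V where
  toFun p := (p.1, p.2 + p.1)
  invFun p := (p.1, p.2 - p.1)
  left_inv p := by simp
  right_inv p := by simp

/-- The equivalence `(u, w) ↦ (u + w, w)`. -/
def sig (V : Type*) [AddCommGroup V] : V × V ≃ V × V where
  toFun p := (p.1 + p.2, p.2)
  invFun p := (p.1 - p.2, p.2)
  left_inv p := by simp
  right_inv p := by simp

/-- The equivalence `(u, w) ↦ (-w, u)`. -/
def rot (V : Type*) [AddCommGroup V] : V × V ≃ V × V where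
  toFun p := (-p.2, p.1)
  invFun p := (p.2, -p.1)
  left_inv p := by simp
  right_inv p := by simp

section

variable {V : Type*} [AddCommGroup V] [Fintype V]

theorem En_eq (F : V × V → ℝ) :
    En F = ∑ p, (F (tau V p) - F p) ^ 2 + ∑ p, (F (sig V p) - F p) ^ 2 := by
  rw [← Finset.sum_add_distrib]
  rfl

theorem En_rot (F : V × V → ℝ) : En (fun p => F (rot V p)) = En F := by
  rw [En_eq, En_eq, add_comm]
  congr 1
  · -- sig for F ∘ rot is tau⁻¹ for F
    rw [← ((tau V).trans (rot V).symm).sum_comp]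
    refine Finset.sum_congr rfl fun p _ => ?_
    have h1 : rot V (sig V ((rot V).symm (tau V p))) = p := by
      simp [rot, sig, tau]
    simp only [Equiv.trans_apply, Equiv.apply_symm_apply, h1]
    ring
  · rw [← ((sig V).trans (rot V).symm).sum_comp]
    refine Finset.sum_congr rfl fun p _ => ?_
    have h1 : rot V (tau V ((rot V).symm (sig V p))) = p := by
      simp [rot, sig, tau]
    simp only [Equiv.trans_apply, Equiv.apply_symm_apply, h1]
    ring

open Classical in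
theorem quad1 (ev : V → ℂ) (hadd : ∀ u v, ev (u + v) = ev u * ev v) (F : V × V → ℝ) :
    ∑ p ∈ Finset.univ.filter (fun p : V × V => 0 < (ev p.1).re ∧ 0 < (ev p.2).re ∧
        0 < (ev p.1).im ∧ 0 ≤ (ev p.2).im), F p ^ 2 ≤
      3 * ∑ p ∈ Finset.univ.filter (fun p : V × V => (ev p.1).re ≤ 0 ∨ (ev p.2).re ≤ 0),
        F p ^ 2 + 6 * En F := by
  set Q := Finset.univ.filter (fun p : V × V => 0 < (ev p.1).re ∧ 0 < (ev p.2).re ∧
        0 < (ev p.1).im ∧ 0 ≤ (ev p.2).im) with hQ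
  set Z := Finset.univ.filter (fun p : V × V => (ev p.1).re ≤ 0 ∨ (ev p.2).re ≤ 0) with hZ
  have hsum : ∑ p ∈ Q, F (tau V p) ^ 2 + ∑ p ∈ Q, F (sig V p) ^ 2 ≤
      ∑ p ∈ Q, F p ^ 2 + ∑ p ∈ Z, F p ^ 2 := by
    have hQZ : Disjoint Q Z := by
      rw [Finset.disjoint_left]
      intro p hp hp'
      simp only [hQ, hZ, Finset.mem_filter, Finset.mem_univ, true_and] at hp hp'
      rcases hp' with h | h <;> linarith [hp.1, hp.2.1]
    have hTS : Disjoint (Q.map (tau V).toEmbedding) (Q.map (sig V).toEmbedding) := by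
      rw [Finset.disjoint_left]
      intro p hp hp'
      rw [Finset.mem_map] at hp hp'
      obtain ⟨x, hx, hxp⟩ := hp
      obtain ⟨y, hy, hyp⟩ := hp'
      simp only [hQ, Finset.mem_filter, Finset.mem_univ, true_and] at hx hy
      have h1 : p.1 = x.1 ∧ p.2 = x.2 + x.1 := by
        rw [← hxp]; exact ⟨rfl, rfl⟩
      have h2 : p.1 = y.1 + y.2 ∧ p.2 = y.2 := by
        rw [← hyp]; exact ⟨rfl, rfl⟩
      have h3 : ev p.2 = ev x.2 * ev p.1 := by rw [h1.2, hadd, h1.1]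
      have h4 : ev p.1 = ev y.1 * ev p.2 := by rw [h2.1, hadd, h2.2]
      have h5 : 0 < (ev p.1).re := by rw [h1.1]; exact hx.1
      have h6 : 0 < (ev p.1).im := by rw [h1.1]; exact hx.2.2.1
      -- Im (ev p.2 * conj (ev p.1))
      have h7 : 0 ≤ (ev p.2).im * (ev p.1).re - (ev p.2).re * (ev p.1).im := by
        rw [h3]
        simp only [Complex.mul_im, Complex.mul_re]
        nlinarith [hx.2.2.2, sq_nonneg (ev p.1).re, sq_nonneg (ev p.1).im,
          mul_nonneg hx.2.2.2 (sq_nonneg (ev p.1).re), mul_nonneg hx.2.2.2 (sq_nonneg (ev p.1).im)]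
      have h8 : (ev p.2).im * (ev p.1).re - (ev p.2).re * (ev p.1).im < 0 := by
        have h9 : 0 < (ev p.2).re := by rw [h2.2]; exact hy.2.1
        have h10 : 0 < (ev y.1).im := hy.2.2.1
        have h11 : 0 < (ev p.2).re ^ 2 := by positivity
        rw [h4]
        simp only [Complex.mul_im, Complex.mul_re]
        nlinarith [mul_pos h10 h11, mul_nonneg h10.le (sq_nonneg (ev p.2).im)]
      linarith
    have hsub : (Q.map (tau V).toEmbedding).disjUnion (Q.map (sig V).toEmbedding) hTS ⊆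
        Q.disjUnion Z hQZ := by
      intro p hp
      rw [Finset.mem_disjUnion] at hp ⊢
      rcases hp with hp | hp
      · rw [Finset.mem_map] at hp
        obtain ⟨x, hx, hxp⟩ := hp
        simp only [hQ, Finset.mem_filter, Finset.mem_univ, true_and] at hx
        have h1 : p.1 = x.1 ∧ p.2 = x.2 + x.1 := by
          rw [← hxp]; exact ⟨rfl, rfl⟩
        simp only [hQ, hZ, Finset.mem_filter, Finset.mem_univ, true_and, h1.1, h1.2, hadd]
        by_cases h2 : (ev x.2 * ev x.1).re ≤ 0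
        · right; right; exact h2
        · left
          refine ⟨hx.1, not_le.mp h2, hx.2.2.1, ?_⟩
          rw [Complex.mul_im]
          have := mul_pos hx.2.1 hx.2.2.1
          have := mul_nonneg hx.2.2.2 hx.1.le
          linarith
      · rw [Finset.mem_map] at hp
        obtain ⟨x, hx, hxp⟩ := hp
        simp only [hQ, Finset.mem_filter, Finset.mem_univ, true_and] at hx
        have h1 : p.1 = x.1 + x.2 ∧ p.2 = x.2 := by
          rw [← hxp]; exact ⟨rfl, rfl⟩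
        simp only [hQ, hZ, Finset.mem_filter, Finset.mem_univ, true_and, h1.1, h1.2, hadd]
        by_cases h2 : (ev x.1 * ev x.2).re ≤ 0
        · right; left; exact h2
        · left
          refine ⟨not_le.mp h2, hx.2.1, ?_, hx.2.2.2⟩
          rw [Complex.mul_im]
          have := mul_pos hx.2.2.1 hx.2.1
          have := mul_nonneg hx.1.le hx.2.2.2
          linarith
    have h1 := Finset.sum_le_sum_of_subset_of_nonneg hsub
      (f := fun p => F p ^ 2) fun p _ _ => sq_nonneg _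
    rw [Finset.sum_disjUnion, Finset.sum_disjUnion, Finset.sum_map, Finset.sum_map] at h1
    exact h1
  have hen : ∑ p ∈ Q, (F (tau V p) - F p) ^ 2 + ∑ p ∈ Q, (F (sig V p) - F p) ^ 2 ≤ En F := by
    rw [En_eq]
    exact add_le_add
      (Finset.sum_le_sum_of_subset_of_nonneg (Finset.subset_univ _) fun p _ _ => sq_nonneg _)
      (Finset.sum_le_sum_of_subset_of_nonneg (Finset.subset_univ _) fun p _ _ => sq_nonneg _)
  have h1 : ∀ T : V × V ≃ V × V, ∑ p ∈ Q, F p ^ 2 ≤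
      3 / 2 * ∑ p ∈ Q, F (T p) ^ 2 + 3 * ∑ p ∈ Q, (F (T p) - F p) ^ 2 := by
    intro T
    rw [Finset.mul_sum, Finset.mul_sum, ← Finset.sum_add_distrib]
    refine Finset.sum_le_sum fun p _ => ?_
    nlinarith [sq_nonneg (F (T p) + 2 * (F (T p) - F p) - 4 * F (T p) + 2 * F p + 0),
      sq_nonneg (3 * F (T p) - 2 * F p)]
  have h2 := h1 (tau V)
  have h3 := h1 (sig V)
  linarith

open Classical in
theorem quad2 (ev : V → ℂ) (hadd : ∀ u v, ev (u + v) = ev u * ev v) (hn : ∀ u, ‖ev u‖ = 1)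
    (F : V × V → ℝ) :
    ∑ p ∈ Finset.univ.filter (fun p : V × V => 0 < (ev p.1).re ∧ 0 < (ev p.2).re ∧
        (ev p.1).im ≤ 0 ∧ 0 < (ev p.2).im), F p ^ 2 ≤
      3 * ∑ p ∈ Finset.univ.filter (fun p : V × V => (ev p.1).re ≤ 0 ∨ (ev p.2).re ≤ 0),
        F p ^ 2 + 6 * En F := by
  have h0 : ev 0 = 1 := by
    have h1 : ev 0 = ev 0 * ev 0 := by rw [← hadd, add_zero]
    have h2 : ev 0 ≠ 0 := by
      intro h
      have := hn 0
      rw [h, norm_zero] at this
      exact zero_ne_one this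
    exact (mul_left_cancel₀ h2 (by rw [mul_one]; exact h1)).symm
  have hneg : ∀ u, ev (-u) = (starRingEnd ℂ) (ev u) := by
    intro u
    have h1 : ev (-u) * ev u = 1 := by rw [← hadd, neg_add_cancel, h0]
    have h2 : (starRingEnd ℂ) (ev u) * ev u = 1 := by
      rw [← Complex.normSq_eq_conj_mul_self, Complex.normSq_eq_norm_sq, hn]
      simp
    have h3 : ev u ≠ 0 := right_ne_zero_of_mul_eq_one h1
    exact mul_right_cancel₀ h3 (h1.trans h2.symm)
  have h1 := quad1 ev hadd (fun p => F (rot V p))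
  rw [En_rot] at h1
  have h2 : ∀ (P P' : V × V → Prop) [DecidablePred P] [DecidablePred P'],
      (∀ p, P p ↔ P' (rot V p)) →
      ∑ p ∈ Finset.univ.filter P, F (rot V p) ^ 2 = ∑ p ∈ Finset.univ.filter P', F p ^ 2 := by
    intro P P' _ _ h
    rw [Finset.sum_filter, Finset.sum_filter,
      ← (rot V).sum_comp (fun p => if P' p then F p ^ 2 else 0)]
    refine Finset.sum_congr rfl fun p _ => ?_
    simp only [h]
  have h3 := h2 (fun p : V × V => 0 < (ev p.1).re ∧ 0 < (ev p.2).re ∧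
        0 < (ev p.1).im ∧ 0 ≤ (ev p.2).im) (fun p : V × V => 0 < (ev p.1).re ∧ 0 < (ev p.2).re ∧
        (ev p.1).im ≤ 0 ∧ 0 < (ev p.2).im) (by
    intro p
    simp only [rot, Equiv.coe_fn_mk, hneg, Complex.conj_re, Complex.conj_im, Left.neg_nonpos_iff]
    tauto)
  have h4 := h2 (fun p : V × V => (ev p.1).re ≤ 0 ∨ (ev p.2).re ≤ 0)
    (fun p : V × V => (ev p.1).re ≤ 0 ∨ (ev p.2).re ≤ 0) (by
    intro p
    simp only [rot, Equiv.coe_fn_mk, hneg, Complex.conj_re]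
    exact or_comm)
  convert h1 using 1
  · rw [← h3]
  · rw [← h4]

end

end Burger

open Burger in
open Classical in
theorem burger : ∃ K : ℝ, 0 < K ∧ ∀ (V : Type) [AddCommGroup V] [Fintype V] (ev : V → ℂ),
    (∀ u v, ev (u + v) = ev u * ev v) → (∀ u, ‖ev u‖ = 1) → ∀ F : V × V → ℝ,
    ∑ p ∈ Finset.univ.filter (fun p : V × V => ¬ (ev p.1 = 1 ∧ ev p.2 = 1)), F p ^ 2 ≤
      K * (∑ p : V × V, ((F (p.1, p.2 + p.1) - F p) ^ 2 + (F (p.1 + p.2, p.2) - F p) ^ 2) +
        ∑ p : V × V, (‖ev p.1 - 1‖ ^ 2 + ‖ev p.2 - 1‖ ^ 2) * F p ^ 2) := by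
  refine ⟨25, by norm_num, ?_⟩
  intro V _ _ ev hadd hn F
  have hE : ∑ p : V × V, ((F (p.1, p.2 + p.1) - F p) ^ 2 + (F (p.1 + p.2, p.2) - F p) ^ 2) =
      En F := rfl
  rw [hE]
  set Z := ∑ p : V × V, (‖ev p.1 - 1‖ ^ 2 + ‖ev p.2 - 1‖ ^ 2) * F p ^ 2 with hZ
  set far := ∑ p ∈ Finset.univ.filter (fun p : V × V => (ev p.1).re ≤ 0 ∨ (ev p.2).re ≤ 0),
        F p ^ 2 with hfar
  have hE0 : 0 ≤ En F := Finset.sum_nonneg fun p _ => by positivity
  have hZ0 : 0 ≤ Z := Finset.sum_nonneg fun p _ => by positivity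
  have hnsq : ∀ u, (ev u).re ^ 2 + (ev u).im ^ 2 = 1 := by
    intro u
    have h1 := Complex.sq_norm (ev u)
    rw [hn u, Complex.normSq_apply] at h1
    nlinarith [h1]
  have hdist : ∀ u, ‖ev u - 1‖ ^ 2 = 2 - 2 * (ev u).re := by
    intro u
    rw [Complex.sq_norm, Complex.normSq_apply]
    simp only [Complex.sub_re, Complex.sub_im, Complex.one_re, Complex.one_im, sub_zero]
    nlinarith [hnsq u]
  -- the far part
  have h1 : far ≤ 1 / 2 * Z := by
    rw [hfar, hZ, Finset.mul_sum]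
    refine (Finset.sum_le_sum (g := fun p => 1 / 2 * ((‖ev p.1 - 1‖ ^ 2 + ‖ev p.2 - 1‖ ^ 2) *
      F p ^ 2)) fun p hp => ?_).trans
      (Finset.sum_le_sum_of_subset_of_nonneg (Finset.subset_univ _) fun p _ _ => by positivity)
    rw [Finset.mem_filter] at hp
    have h2 : 2 ≤ ‖ev p.1 - 1‖ ^ 2 + ‖ev p.2 - 1‖ ^ 2 := by
      rcases hp.2 with h | h
      · have h3 := hdist p.1
        have h4 : 0 ≤ ‖ev p.2 - 1‖ ^ 2 := by positivity
        linarith
      · have h3 := hdist p.2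
        have h4 : 0 ≤ ‖ev p.1 - 1‖ ^ 2 := by positivity
        linarith
    nlinarith [mul_le_mul_of_nonneg_right h2 (sq_nonneg (F p))]
  -- the conjugate character
  have haddc : ∀ u v, (starRingEnd ℂ) (ev (u + v)) =
      (starRingEnd ℂ) (ev u) * (starRingEnd ℂ) (ev v) := fun u v => by rw [hadd, map_mul]
  have hnc : ∀ u, ‖(starRingEnd ℂ) (ev u)‖ = 1 := fun u => by rw [Complex.norm_conj, hn]
  have q1 := quad1 ev hadd F
  have q2 := quad2 ev hadd hn F
  have q3 := quad1 (fun u => (starRingEnd ℂ) (ev u)) haddc F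
  have q4 := quad2 (fun u => (starRingEnd ℂ) (ev u)) haddc hnc F
  simp only [Complex.conj_re, Complex.conj_im] at q3 q4
  rw [← hfar] at q1 q2 q3 q4
  -- the union bound
  have h5 : ∑ p ∈ Finset.univ.filter (fun p : V × V => ¬ (ev p.1 = 1 ∧ ev p.2 = 1)), F p ^ 2 ≤
      far + (∑ p ∈ Finset.univ.filter (fun p : V × V => 0 < (ev p.1).re ∧ 0 < (ev p.2).re ∧
        0 < (ev p.1).im ∧ 0 ≤ (ev p.2).im), F p ^ 2 +
      ∑ p ∈ Finset.univ.filter (fun p : V × V => 0 < (ev p.1).re ∧ 0 < (ev p.2).re ∧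
        (ev p.1).im ≤ 0 ∧ 0 < (ev p.2).im), F p ^ 2 +
      ∑ p ∈ Finset.univ.filter (fun p : V × V => 0 < (ev p.1).re ∧ 0 < (ev p.2).re ∧
        0 < -(ev p.1).im ∧ 0 ≤ -(ev p.2).im), F p ^ 2 +
      ∑ p ∈ Finset.univ.filter (fun p : V × V => 0 < (ev p.1).re ∧ 0 < (ev p.2).re ∧
        -(ev p.1).im ≤ 0 ∧ 0 < -(ev p.2).im), F p ^ 2) := by
    rw [hfar]
    simp only [Finset.sum_filter, ← Finset.sum_add_distrib]
    refine Finset.sum_le_sum fun p _ => ?_
    have hF := sq_nonneg (F p)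
    have hpos : ∀ (P : Prop) [Decidable P], 0 ≤ (if P then F p ^ 2 else 0) := by
      intro P _
      split_ifs
      · exact hF
      · exact le_rfl
    by_cases c0 : ¬ (ev p.1 = 1 ∧ ev p.2 = 1)
    swap
    · rw [if_neg c0]
      have := hpos ((ev p.1).re ≤ 0 ∨ (ev p.2).re ≤ 0)
      have := hpos (0 < (ev p.1).re ∧ 0 < (ev p.2).re ∧ 0 < (ev p.1).im ∧ 0 ≤ (ev p.2).im)
      have := hpos (0 < (ev p.1).re ∧ 0 < (ev p.2).re ∧ (ev p.1).im ≤ 0 ∧ 0 < (ev p.2).im)
      have := hpos (0 < (ev p.1).re ∧ 0 < (ev p.2).re ∧ 0 < -(ev p.1).im ∧ 0 ≤ -(ev p.2).im)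
      have := hpos (0 < (ev p.1).re ∧ 0 < (ev p.2).re ∧ -(ev p.1).im ≤ 0 ∧ 0 < -(ev p.2).im)
      linarith
    rw [if_pos c0]
    by_cases c1 : (ev p.1).re ≤ 0 ∨ (ev p.2).re ≤ 0
    · rw [if_pos c1]
      have := hpos (0 < (ev p.1).re ∧ 0 < (ev p.2).re ∧ 0 < (ev p.1).im ∧ 0 ≤ (ev p.2).im)
      have := hpos (0 < (ev p.1).re ∧ 0 < (ev p.2).re ∧ (ev p.1).im ≤ 0 ∧ 0 < (ev p.2).im)
      have := hpos (0 < (ev p.1).re ∧ 0 < (ev p.2).re ∧ 0 < -(ev p.1).im ∧ 0 ≤ -(ev p.2).im)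
      have := hpos (0 < (ev p.1).re ∧ 0 < (ev p.2).re ∧ -(ev p.1).im ≤ 0 ∧ 0 < -(ev p.2).im)
      linarith
    rw [if_neg c1]
    push Not at c1
    have hx := c1.1
    have hy := c1.2
    have hone : ∀ u, 0 < (ev u).re → (ev u).im = 0 → ev u = 1 := by
      intro u h1 h2
      have h3 := hnsq u
      rw [h2] at h3
      have h4 : (ev u).re = 1 := by nlinarith
      apply Complex.ext
      · rw [h4, Complex.one_re]
      · rw [h2, Complex.one_im]
    rcases lt_trichotomy (ev p.1).im 0 with a | a | a <;>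
      rcases lt_trichotomy (ev p.2).im 0 with b | b | b
    · rw [if_neg (by intro h; linarith [h.2.2.1]), if_neg (by intro h; linarith [h.2.2.2]),
        if_pos ⟨hx, hy, by linarith, by linarith⟩]
      have := hpos (0 < (ev p.1).re ∧ 0 < (ev p.2).re ∧ -(ev p.1).im ≤ 0 ∧ 0 < -(ev p.2).im)
      linarith
    · rw [if_neg (by intro h; linarith [h.2.2.1]), if_neg (by intro h; linarith [h.2.2.2]),
        if_pos ⟨hx, hy, by linarith, by linarith⟩]
      have := hpos (0 < (ev p.1).re ∧ 0 < (ev p.2).re ∧ -(ev p.1).im ≤ 0 ∧ 0 < -(ev p.2).im)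
      linarith
    · rw [if_neg (by intro h; linarith [h.2.2.1]), if_pos ⟨hx, hy, a.le, b⟩]
      have := hpos (0 < (ev p.1).re ∧ 0 < (ev p.2).re ∧ 0 < -(ev p.1).im ∧ 0 ≤ -(ev p.2).im)
      have := hpos (0 < (ev p.1).re ∧ 0 < (ev p.2).re ∧ -(ev p.1).im ≤ 0 ∧ 0 < -(ev p.2).im)
      linarith
    · rw [if_neg (by intro h; linarith [h.2.2.1]), if_neg (by intro h; linarith [h.2.2.2]),
        if_neg (by intro h; linarith [h.2.2.1]), if_pos ⟨hx, hy, by linarith, by linarith⟩]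
      linarith
    · exact absurd ⟨hone _ hx a, hone _ hy b⟩ c0
    · rw [if_neg (by intro h; linarith [h.2.2.1]), if_pos ⟨hx, hy, a.le, b⟩]
      have := hpos (0 < (ev p.1).re ∧ 0 < (ev p.2).re ∧ 0 < -(ev p.1).im ∧ 0 ≤ -(ev p.2).im)
      have := hpos (0 < (ev p.1).re ∧ 0 < (ev p.2).re ∧ -(ev p.1).im ≤ 0 ∧ 0 < -(ev p.2).im)
      linarith
    · rw [if_neg (by intro h; linarith [h.2.2.2]), if_neg (by intro h; linarith [h.2.2.1]),
        if_neg (by intro h; linarith [h.2.2.1]), if_pos ⟨hx, hy, by linarith, by linarith⟩]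
      linarith
    · rw [if_pos ⟨hx, hy, a, b.ge⟩]
      have := hpos (0 < (ev p.1).re ∧ 0 < (ev p.2).re ∧ (ev p.1).im ≤ 0 ∧ 0 < (ev p.2).im)
      have := hpos (0 < (ev p.1).re ∧ 0 < (ev p.2).re ∧ 0 < -(ev p.1).im ∧ 0 ≤ -(ev p.2).im)
      have := hpos (0 < (ev p.1).re ∧ 0 < (ev p.2).re ∧ -(ev p.1).im ≤ 0 ∧ 0 < -(ev p.2).im)
      linarith
    · rw [if_pos ⟨hx, hy, a, b.le⟩]
      have := hpos (0 < (ev p.1).re ∧ 0 < (ev p.2).re ∧ (ev p.1).im ≤ 0 ∧ 0 < (ev p.2).im)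
      have := hpos (0 < (ev p.1).re ∧ 0 < (ev p.2).re ∧ 0 < -(ev p.1).im ∧ 0 ≤ -(ev p.2).im)
      have := hpos (0 < (ev p.1).re ∧ 0 < (ev p.2).re ∧ -(ev p.1).im ≤ 0 ∧ 0 < -(ev p.2).im)
      linarith
  linarith

end Pool.Agent.MPfe8e9b
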