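import Mathlib
import Pool.Agent.Lib.MP_fe8e9b_al.Defs3
import Pool.Agent.Lib.MP_fe8e9b_al.Avg

/-!
# MP_fe8e9b_al, round 3: decomposition into the characters of `R × R` (module CHARD)
-/

open scoped BigOperators MatrixGroups Pointwise

namespace Pool.Agent.MPfe8e9b

namespace CharDec

/-- The `χ`-isotypic part of a function, for the right translations by the image of `φ`. -/
noncomputable def pr {R G : Type*} [AddCommGroup R] [Fintype R] [Group G]
    (φ : Multiplicative R →* G) (χ : AddChar R ℂ) (f : G → ℂ) : G → ℂ := fun g =>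
  ((Fintype.card R : ℂ))⁻¹ * ∑ u : R, (starRingEnd ℂ) (χ u) * f (g * φ (Multiplicative.ofAdd u))

section One

variable {R G : Type*} [AddCommGroup R] [Fintype R] [Group G] (φ : Multiplicative R →* G)

theorem pr_eq_sum (χ : AddChar R ℂ) (f : G → ℂ) :
    pr φ χ f = ((Fintype.card R : ℂ))⁻¹ •
      ∑ u : R, (starRingEnd ℂ) (χ u) • rt (φ (Multiplicative.ofAdd u)) f := by
  funext g
  simp [pr, rt_apply]

theorem pr_sub (χ : AddChar R ℂ) (f f' : G → ℂ) : pr φ χ (f - f') = pr φ χ f - pr φ χ f' := by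
  funext g
  simp only [pr, Pi.sub_apply, mul_sub, Finset.sum_sub_distrib]

theorem pr_smul (χ : AddChar R ℂ) (c : ℂ) (f : G → ℂ) : pr φ χ (c • f) = c • pr φ χ f := by
  funext g
  simp only [pr, Pi.smul_apply, smul_eq_mul, Finset.mul_sum]
  exact Finset.sum_congr rfl fun x _ => by ring

theorem pr_zero (f : G → ℂ) : pr φ 0 f = avh φ f := by
  funext g
  simp only [pr, avh, AddChar.zero_apply, map_one, one_mul, Fintype.card_multiplicative]
  congr 1
  exact Fintype.sum_equiv Multiplicative.ofAdd _ _ fun _ => rfl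

theorem norm_char (χ : AddChar R ℂ) (a : R) : ‖χ a‖ = 1 := AddChar.norm_apply χ a

theorem conj_mul_char (χ : AddChar R ℂ) (a : R) : (starRingEnd ℂ) (χ a) * χ a = 1 := by
  rw [← Complex.normSq_eq_conj_mul_self, Complex.normSq_eq_norm_sq, norm_char]
  simp

theorem conj_char_neg (χ : AddChar R ℂ) (a : R) : (starRingEnd ℂ) (χ (-a)) = χ a := by
  have h1 : χ (-a) * χ a = 1 := by
    rw [← AddChar.map_add_eq_mul, neg_add_cancel, AddChar.map_zero_eq_one]
  have h2 := conj_mul_char χ (-a)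
  have h3 : χ (-a) ≠ 0 := left_ne_zero_of_mul_eq_one h1
  apply mul_right_cancel₀ h3
  rw [h2, mul_comm, h1]

theorem pr_rt (χ : AddChar R ℂ) (a : R) (f : G → ℂ) :
    pr φ χ (rt (φ (Multiplicative.ofAdd a)) f) = χ a • pr φ χ f := by
  funext g
  simp only [pr, rt_apply, Pi.smul_apply, smul_eq_mul]
  rw [mul_left_comm (χ a)]
  congr 1
  rw [Finset.mul_sum]
  refine Fintype.sum_equiv (Equiv.addRight a) _ _ fun u => ?_
  simp only [Equiv.coe_addRight]
  rw [mul_assoc g, ← map_mul, ← ofAdd_add, AddChar.map_add_eq_mul, map_mul]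
  rw [show χ a * ((starRingEnd ℂ) (χ u) * (starRingEnd ℂ) (χ a) *
      f (g * φ (Multiplicative.ofAdd (u + a)))) =
      ((starRingEnd ℂ) (χ a) * χ a) * ((starRingEnd ℂ) (χ u) *
        f (g * φ (Multiplicative.ofAdd (u + a)))) by ring, conj_mul_char, one_mul]

/-- The function `pr φ χ f` is an eigenfunction. -/
theorem rt_pr (χ : AddChar R ℂ) (a : R) (f : G → ℂ) :
    rt (φ (Multiplicative.ofAdd a)) (pr φ χ f) = χ a • pr φ χ f := by
  rw [← pr_rt]
  funext g
  simp only [pr, rt_apply]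
  congr 1
  refine Finset.sum_congr rfl fun u _ => ?_
  rw [mul_assoc g, mul_assoc g, ← map_mul φ, ← map_mul φ, ← ofAdd_add, ← ofAdd_add, add_comm]

theorem pr_idem (χ : AddChar R ℂ) (f : G → ℂ) : pr φ χ (pr φ χ f) = pr φ χ f := by
  rw [pr_eq_sum φ χ (pr φ χ f)]
  simp only [rt_pr, smul_smul, conj_mul_char, one_smul, Finset.sum_const, Finset.card_univ]
  rw [← Nat.cast_smul_eq_nsmul ℂ, smul_smul, inv_mul_cancel₀, one_smul]
  exact_mod_cast Fintype.card_ne_zero

variable [Fintype G]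

theorem ip_pr (χ : AddChar R ℂ) (f f' : G → ℂ) : ip (pr φ χ f) f' = ip f (pr φ χ f') := by
  rw [pr_eq_sum, pr_eq_sum, ip_smul_left, ip_smul_right, ip_sum_left, ip_sum_right]
  have hc : (starRingEnd ℂ) ((Fintype.card R : ℂ))⁻¹ = ((Fintype.card R : ℂ))⁻¹ := by
    rw [map_inv₀, Complex.conj_natCast]
  rw [hc]
  congr 1
  refine Fintype.sum_equiv (Equiv.neg R) _ _ fun u => ?_
  simp only [Equiv.neg_apply]
  rw [ip_smul_left, ip_smul_right, ip_rt_left, conj_char_neg, Complex.conj_conj, ofAdd_neg,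
    map_inv]

open Classical in
omit [Fintype G] in
theorem sum_pr [Fintype (AddChar R ℂ)] (f : G → ℂ) : ∑ χ : AddChar R ℂ, pr φ χ f = f := by
  funext g
  rw [Finset.sum_apply]
  simp only [pr]
  rw [← Finset.mul_sum, Finset.sum_comm]
  have h : ∀ u : R, ∑ χ : AddChar R ℂ,
      (starRingEnd ℂ) (χ u) * f (g * φ (Multiplicative.ofAdd u)) =
      if u = 0 then (Fintype.card R : ℂ) * f g else 0 := by
    intro u
    have h1 : ∑ χ : AddChar R ℂ, (starRingEnd ℂ) (χ u) =
        if u = 0 then (Fintype.card R : ℂ) else 0 := by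
      have h2 : ∑ χ : AddChar R ℂ, χ u = if u = 0 then (Fintype.card R : ℂ) else 0 := by
        rw [← AddChar.sum_apply_eq_ite u]
        exact Finset.sum_congr (by ext; simp) fun _ _ => rfl
      rw [← map_sum, h2]
      split_ifs with h3
      · exact Complex.conj_natCast _
      · exact map_zero _
    rw [← Finset.sum_mul, h1]
    split_ifs with h3
    · subst h3
      simp
    · exact zero_mul _
  rw [Finset.sum_congr rfl fun u _ => h u]
  simp only [Finset.sum_ite_eq', Finset.mem_univ, if_true]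
  rw [← mul_assoc, inv_mul_cancel₀, one_mul]
  exact_mod_cast Fintype.card_ne_zero

theorem sum_sq_pr [Fintype (AddChar R ℂ)] (f : G → ℂ) :
    ∑ χ : AddChar R ℂ, sq (pr φ χ f) = sq f := by
  have h1 : ∀ χ : AddChar R ℂ, sq (pr φ χ f) = (ip f (pr φ χ f)).re := by
    intro χ
    rw [← ip_self_re, ip_pr, pr_idem]
  simp only [h1]
  rw [← Complex.re_sum, ← ip_sum_right, sum_pr, ip_self_re]

end One

section Two

variable {R G : Type*} [Ring R] [Fintype R] [Group G]
  {p12 p21 q1 q2 : Multiplicative R →* G}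

omit [Fintype R] in
theorem symm (h : EL2 p12 p21 q1 q2) : EL2 p21 p12 q2 q1 where
  qq u v := (h.qq v u).symm
  p12q1 r u := h.p21q2 r u
  p12q2 r v := h.p21q1 r v
  p21q2 r v := h.p12q1 r v
  p21q1 r u := h.p12q2 r u

theorem pr_comm (hc : ∀ u v, q1 u * q2 v = q2 v * q1 u) (χ ψ : AddChar R ℂ) (f : G → ℂ) :
    pr q1 χ (pr q2 ψ f) = pr q2 ψ (pr q1 χ f) := by
  funext g
  simp only [pr, Finset.mul_sum]
  rw [Finset.sum_comm]
  refine Finset.sum_congr rfl fun v _ => Finset.sum_congr rfl fun u _ => ?_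
  rw [mul_assoc g, mul_assoc g, hc]
  ring

/-- The key identity. -/
theorem pr_p12 (h : EL2 p12 p21 q1 q2) (χ ψ : AddChar R ℂ) (r : R) (f : G → ℂ) :
    pr q1 χ (pr q2 ψ (rt (p12 (Multiplicative.ofAdd r)) f)) =
      rt (p12 (Multiplicative.ofAdd r)) (pr q1 χ (pr q2 (ψ + lmul r χ) f)) := by
  rw [pr_comm h.qq, pr_comm h.qq]
  funext g
  simp only [pr, rt_apply, Finset.mul_sum]
  refine Finset.sum_congr rfl fun v _ => ?_
  refine Fintype.sum_equiv (Equiv.subRight (r * v)) _ _ fun u => ?_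
  simp only [Equiv.subRight_apply]
  have e1 : q2 (Multiplicative.ofAdd v) * q1 (Multiplicative.ofAdd u) *
      p12 (Multiplicative.ofAdd r) = p12 (Multiplicative.ofAdd r) *
      q2 (Multiplicative.ofAdd v) * q1 (Multiplicative.ofAdd (u - r * v)) := by
    have e2 := h.p12q2 r v
    have e3 : q1 (Multiplicative.ofAdd u) = q1 (Multiplicative.ofAdd (u - r * v)) *
        q1 (Multiplicative.ofAdd (r * v)) := by
      rw [← map_mul, ← ofAdd_add]
      congr 2
      abel
    calc q2 (Multiplicative.ofAdd v) * q1 (Multiplicative.ofAdd u) *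
          p12 (Multiplicative.ofAdd r)
        = q1 (Multiplicative.ofAdd u) * q2 (Multiplicative.ofAdd v) *
          p12 (Multiplicative.ofAdd r) := by rw [h.qq]
      _ = q1 (Multiplicative.ofAdd (u - r * v)) * (q1 (Multiplicative.ofAdd (r * v)) *
          q2 (Multiplicative.ofAdd v) * p12 (Multiplicative.ofAdd r)) := by
            rw [e3]
            simp only [mul_assoc]
      _ = q1 (Multiplicative.ofAdd (u - r * v)) * p12 (Multiplicative.ofAdd r) *
          q2 (Multiplicative.ofAdd v) := by rw [← e2, mul_assoc]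
      _ = p12 (Multiplicative.ofAdd r) * (q1 (Multiplicative.ofAdd (u - r * v)) *
          q2 (Multiplicative.ofAdd v)) := by rw [← h.p12q1, mul_assoc]
      _ = _ := by rw [h.qq, mul_assoc]
  have e4 : (ψ + lmul r χ) v = ψ v * χ (r * v) := by
    rw [AddChar.add_apply, lmul_apply]
  have e5 : χ u = χ (r * v) * χ (u - r * v) := by
    rw [← AddChar.map_add_eq_mul]
    congr 1
    abel
  have e6 : g * q2 (Multiplicative.ofAdd v) * q1 (Multiplicative.ofAdd u) *
      p12 (Multiplicative.ofAdd r) = g * p12 (Multiplicative.ofAdd r) *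
      q2 (Multiplicative.ofAdd v) * q1 (Multiplicative.ofAdd (u - r * v)) := by
    simp only [mul_assoc] at e1 ⊢
    rw [e1]
  rw [e4, e5, map_mul (starRingEnd ℂ), map_mul (starRingEnd ℂ), e6]
  ring

variable [Fintype G] [Fintype (AddChar R ℂ)]

theorem sum_sq_pr2 (q1 q2 : Multiplicative R →* G) (f : G → ℂ) :
    ∑ p : AddChar R ℂ × AddChar R ℂ, sq (pr q1 p.1 (pr q2 p.2 f)) = sq f := by
  rw [Fintype.sum_prod_type_right]
  simp only [sum_sq_pr]

/-- Reverse triangle inequality for the square roots of `sq`. -/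
theorem sqrt_sub_sq_le {X : Type*} [Fintype X] (a b : X → ℂ) :
    (Real.sqrt (sq a) - Real.sqrt (sq b)) ^ 2 ≤ sq (a - b) := by
  rw [sub_sq, Real.sq_sqrt (sq_nonneg' a), Real.sq_sqrt (sq_nonneg' b), sq_sub]
  have := ip_re_le a b
  linarith

theorem move (h : EL2 p12 p21 q1 q2) (r : R) (f : G → ℂ) :
    ∑ p : AddChar R ℂ × AddChar R ℂ,
      (Real.sqrt (sq (pr q1 p.1 (pr q2 (p.2 + lmul r p.1) f))) -
        Real.sqrt (sq (pr q1 p.1 (pr q2 p.2 f)))) ^ 2 ≤
      sq (rt (p12 (Multiplicative.ofAdd r)) f - f) := by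
  rw [← sum_sq_pr2 q1 q2]
  refine Finset.sum_le_sum fun p _ => ?_
  rw [pr_sub, pr_sub, pr_p12 h, ← sq_rt (p12 (Multiplicative.ofAdd r))
    (pr q1 p.1 (pr q2 (p.2 + lmul r p.1) f))]
  exact sqrt_sub_sq_le _ _

theorem one_move (hc : ∀ u v, q1 u * q2 v = q2 v * q1 u) (f : G → ℂ) :
    ∑ p : AddChar R ℂ × AddChar R ℂ, ‖p.1 1 - 1‖ ^ 2 *
      Real.sqrt (sq (pr q1 p.1 (pr q2 p.2 f))) ^ 2 ≤
        sq (rt (q1 (Multiplicative.ofAdd 1)) f - f) := by
  rw [← sum_sq_pr2 q1 q2]
  refine Finset.sum_le_sum fun p _ => ?_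
  rw [Real.sq_sqrt (sq_nonneg' _), pr_comm hc, pr_comm hc, pr_sub, pr_rt, pr_sub, pr_smul,
    ← sq_smul, sub_smul, one_smul]

end Two

end CharDec

open CharDec in
open Classical in
theorem char_dec {R G : Type} [Ring R] [Fintype R] [Group G] [Fintype G]
    [Fintype (AddChar R ℂ)] (p12 p21 q1 q2 : Multiplicative R →* G) (h : EL2 p12 p21 q1 q2)
    (f : G → ℂ) :
    ∃ F : AddChar R ℂ × AddChar R ℂ → ℝ,
      sq (f - avh q1 f) ≤ ∑ p ∈ Finset.univ.filter (fun p => p ≠ 0), F p ^ 2 ∧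
      (∀ r : R, ∑ p : AddChar R ℂ × AddChar R ℂ, (F (p.1, p.2 + lmul r p.1) - F p) ^ 2 ≤
        sq (rt (p12 (Multiplicative.ofAdd r)) f - f)) ∧
      (∀ r : R, ∑ p : AddChar R ℂ × AddChar R ℂ, (F (p.1 + lmul r p.2, p.2) - F p) ^ 2 ≤
        sq (rt (p21 (Multiplicative.ofAdd r)) f - f)) ∧
      ∑ p : AddChar R ℂ × AddChar R ℂ, ‖p.1 1 - 1‖ ^ 2 * F p ^ 2 ≤
        sq (rt (q1 (Multiplicative.ofAdd 1)) f - f) ∧
      ∑ p : AddChar R ℂ × AddChar R ℂ, ‖p.2 1 - 1‖ ^ 2 * F p ^ 2 ≤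
        sq (rt (q2 (Multiplicative.ofAdd 1)) f - f) := by
  refine ⟨fun p => Real.sqrt (sq (pr q1 p.1 (pr q2 p.2 f))), ?_, fun r => move h r f, ?_,
    one_move h.qq f, ?_⟩
  · have h1 : ∑ p ∈ Finset.univ.filter (fun p : AddChar R ℂ × AddChar R ℂ => p ≠ 0),
        Real.sqrt (sq (pr q1 p.1 (pr q2 p.2 f))) ^ 2 = sq f - sq (avh q1 (avh q2 f)) := by
      have h2 : ∑ p : AddChar R ℂ × AddChar R ℂ,
          Real.sqrt (sq (pr q1 p.1 (pr q2 p.2 f))) ^ 2 = sq f := by
        rw [← sum_sq_pr2 q1 q2 f]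
        exact Finset.sum_congr rfl fun p _ => Real.sq_sqrt (sq_nonneg' _)
      rw [← h2, ← Finset.sum_filter_add_sum_filter_not Finset.univ
        (fun p : AddChar R ℂ × AddChar R ℂ => p ≠ 0)]
      have h3 : Finset.univ.filter (fun p : AddChar R ℂ × AddChar R ℂ => ¬ p ≠ 0) = {0} := by
        ext p
        simp
      rw [h3, Finset.sum_singleton, Real.sq_sqrt (sq_nonneg' _)]
      simp only [Prod.fst_zero, Prod.snd_zero, pr_zero]
      ring
    rw [h1, sq_sub_avh]
    have h4 : avh q1 (avh q2 f) = avh q2 (avh q1 f) := by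
      rw [← pr_zero, ← pr_zero, ← pr_zero, ← pr_zero, pr_comm h.qq]
    have h5 := sq_avh_le q2 (avh q1 f)
    rw [h4]
    linarith
  · intro r
    have h1 := move (symm h) r f
    rw [← (Equiv.prodComm (AddChar R ℂ) (AddChar R ℂ)).sum_comp] at h1
    simp only [Equiv.prodComm_apply, Prod.fst_swap, Prod.snd_swap] at h1
    simp only [← pr_comm h.qq] at h1
    exact h1
  · have h1 := one_move (fun u v => (h.qq v u).symm) f
    rw [← (Equiv.prodComm (AddChar R ℂ) (AddChar R ℂ)).sum_comp] at h1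
    simp only [Equiv.prodComm_apply, Prod.fst_swap, Prod.snd_swap] at h1
    simp only [← pr_comm h.qq] at h1
    exact h1

end Pool.Agent.MPfe8e9b
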