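import Mathlib
import Pool.Agent.Lib.MP_fe8e9b_al.Defs
import Pool.Agent.Lib.MP_fe8e9b_al.Avg

/-!
# MP_fe8e9b_al: the average of the commutators of a perfect group
-/

open scoped BigOperators MatrixGroups Pointwise InnerProductSpace

namespace Pool.Agent.MPfe8e9b

namespace Comm

section Irr

variable {S : Type*} [Group S] [Fintype S] {V : Type*} [AddCommGroup V] [Module ℂ V]
  [FiniteDimensional ℂ V]

/-- Invariant subspaces are trivial. -/
def Irr (ρ : S →* Module.End ℂ V) : Prop :=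
  ∀ W : Submodule ℂ V, (∀ s, ∀ v ∈ W, ρ s v ∈ W) → W = ⊥ ∨ W = ⊤

omit [Fintype S] in
lemma schur [Nontrivial V] {ρ : S →* Module.End ℂ V} (h : Irr ρ) (X : Module.End ℂ V)
    (hX : ∀ s, X * ρ s = ρ s * X) :
    X = (LinearMap.trace ℂ V X / (Module.finrank ℂ V : ℂ)) • (1 : Module.End ℂ V) := by
  obtain ⟨μ, hμ⟩ := Module.End.exists_eigenvalue X
  have h1 : Module.End.eigenspace X μ = ⊤ := by
    rcases h (Module.End.eigenspace X μ) (by
      intro s v hv
      rw [Module.End.mem_eigenspace_iff] at hv ⊢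
      have h2 := LinearMap.congr_fun (hX s) v
      rw [Module.End.mul_apply, Module.End.mul_apply, hv, map_smul] at h2
      exact h2) with h2 | h2
    · exact absurd h2 hμ
    · exact h2
  have h2 : X = μ • (1 : Module.End ℂ V) := by
    ext v
    have h3 : v ∈ Module.End.eigenspace X μ := by
      rw [h1]
      trivial
    rw [Module.End.mem_eigenspace_iff] at h3
    rw [h3]
    rfl
  have h3 : LinearMap.trace ℂ V X = μ * Module.finrank ℂ V := by
    conv_lhs => rw [h2]
    rw [map_smul, LinearMap.trace_one, smul_eq_mul]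
  have h4 : (Module.finrank ℂ V : ℂ) ≠ 0 := by
    exact_mod_cast (Module.finrank_pos (R := ℂ) (M := V)).ne'
  rw [h3, mul_div_cancel_right₀ _ h4]
  exact h2

lemma sum_conj [Nontrivial V] {ρ : S →* Module.End ℂ V} (h : Irr ρ) (X : Module.End ℂ V) :
    ∑ s, ρ s * X * ρ s⁻¹ =
      ((Fintype.card S : ℂ) * LinearMap.trace ℂ V X / (Module.finrank ℂ V : ℂ)) •
        (1 : Module.End ℂ V) := by
  have h1 : ∀ u, (∑ s, ρ s * X * ρ s⁻¹) * ρ u = ρ u * ∑ s, ρ s * X * ρ s⁻¹ := by
    intro u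
    rw [Finset.sum_mul, Finset.mul_sum]
    refine Fintype.sum_equiv (Equiv.mulLeft u⁻¹) _ _ fun s => ?_
    simp only [Equiv.coe_mulLeft]
    rw [← mul_assoc, ← mul_assoc, ← map_mul, mul_assoc, ← map_mul, mul_inv_cancel_left,
      mul_inv_rev, inv_inv]
  rw [schur h _ h1]
  congr 2
  rw [map_sum]
  have h2 : ∀ s, LinearMap.trace ℂ V (ρ s * X * ρ s⁻¹) = LinearMap.trace ℂ V X := by
    intro s
    rw [mul_assoc, LinearMap.trace_mul_comm, mul_assoc, ← map_mul, inv_mul_cancel, map_one,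
      mul_one]
  simp_rw [h2]
  rw [Finset.sum_const, Finset.card_univ, nsmul_eq_mul]

omit [FiniteDimensional ℂ V] in
lemma trace_eq (f : Module.End ℂ V) {n : ℕ} (b : Module.Basis (Fin n) ℂ V) :
    LinearMap.trace ℂ V f = ∑ i, b.coord i (f (b i)) := by
  rw [LinearMap.trace_eq_matrix_trace ℂ b, Matrix.trace]
  refine Finset.sum_congr rfl fun i _ => ?_
  rw [Matrix.diag_apply, LinearMap.toMatrix_apply]
  rfl

lemma sum_trace [Nontrivial V] {ρ : S →* Module.End ℂ V} (h : Irr ρ) :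
    ∑ t, LinearMap.trace ℂ V (ρ t) • ρ t⁻¹ =
      ((Fintype.card S : ℂ) / (Module.finrank ℂ V : ℂ)) • (1 : Module.End ℂ V) := by
  set b := Module.finBasis ℂ V with hb
  ext v
  have h1 : ∀ i, ∑ t, b.coord i (ρ t⁻¹ (b i)) • ρ t v =
      ((Fintype.card S : ℂ) / (Module.finrank ℂ V : ℂ)) • (b.coord i v • b i) := by
    intro i
    have h2 := LinearMap.congr_fun (sum_conj h ((b.coord i).smulRight v)) (b i)
    rw [LinearMap.sum_apply, LinearMap.trace_smulRight, LinearMap.smul_apply,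
      Module.End.one_apply] at h2
    rw [smul_smul, div_mul_eq_mul_div, ← h2]
    refine Finset.sum_congr rfl fun t _ => ?_
    rw [Module.End.mul_apply, Module.End.mul_apply, LinearMap.smulRight_apply, map_smul]
  have h3 : (∑ t, LinearMap.trace ℂ V (ρ t) • ρ t⁻¹) v =
      ∑ i, ∑ t, b.coord i (ρ t⁻¹ (b i)) • ρ t v := by
    rw [LinearMap.sum_apply, Finset.sum_comm]
    refine Fintype.sum_equiv (Equiv.inv S) _ _ fun t => ?_
    rw [LinearMap.smul_apply, trace_eq _ b, Finset.sum_smul]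
    simp
  rw [h3, Finset.sum_congr rfl fun i _ => h1 i, ← Finset.smul_sum, LinearMap.smul_apply,
    Module.End.one_apply]
  congr 1
  exact b.sum_repr v

lemma sum_comm_eq [Nontrivial V] {ρ : S →* Module.End ℂ V} (h : Irr ρ) :
    ∑ s, ∑ t, ρ (s * t * s⁻¹ * t⁻¹) =
      (((Fintype.card S : ℂ) / (Module.finrank ℂ V : ℂ)) ^ 2) • (1 : Module.End ℂ V) := by
  rw [Finset.sum_comm]
  have h1 : ∀ t, ∑ s, ρ (s * t * s⁻¹ * t⁻¹) =
      ((Fintype.card S : ℂ) / (Module.finrank ℂ V : ℂ)) • (LinearMap.trace ℂ V (ρ t) • ρ t⁻¹) := by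
    intro t
    have h2 := sum_conj h (ρ t)
    have h3 : ∑ s, ρ (s * t * s⁻¹ * t⁻¹) = (∑ s, ρ s * ρ t * ρ s⁻¹) * ρ t⁻¹ := by
      rw [Finset.sum_mul]
      simp_rw [← map_mul]
    rw [h3, h2, smul_mul_assoc, one_mul, smul_smul]
    congr 1
    ring
  rw [Finset.sum_congr rfl fun t _ => h1 t, ← Finset.smul_sum, sum_trace h, smul_smul]
  congr 1
  ring

omit [Fintype S] in
lemma two_le [Nontrivial V] (hS : commutator S = ⊤) {ρ : S →* Module.End ℂ V}
    (h0 : ∀ v : V, (∀ s, ρ s v = v) → v = 0) : 2 ≤ Module.finrank ℂ V := by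
  by_contra hlt
  have h1 : Module.finrank ℂ V = 1 := by
    have := Module.finrank_pos (R := ℂ) (M := V)
    omega
  obtain ⟨v0, hv0⟩ := exists_ne (0 : V)
  have h2 : ∀ X : Module.End ℂ V, ∃ c : ℂ, X = c • (1 : Module.End ℂ V) := by
    intro X
    obtain ⟨c, hc⟩ := (finrank_eq_one_iff_of_nonzero' v0 hv0).mp h1 (X v0)
    refine ⟨c, ?_⟩
    ext w
    obtain ⟨d, rfl⟩ := (finrank_eq_one_iff_of_nonzero' v0 hv0).mp h1 w
    rw [map_smul, ← hc, LinearMap.smul_apply, Module.End.one_apply, smul_comm]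
  have h3 : commutator S ≤ ρ.ker := by
    rw [commutator_def, Subgroup.commutator_le]
    intro g₁ _ g₂ _
    rw [MonoidHom.mem_ker, commutatorElement_def]
    obtain ⟨c, hc⟩ := h2 (ρ g₁)
    have h5 : ρ g₁ * ρ g₂ = ρ g₂ * ρ g₁ := by
      rw [hc, smul_mul_assoc, mul_smul_comm, one_mul, mul_one]
    rw [map_mul, map_mul, map_mul, h5, ← map_mul, ← map_mul, ← map_mul]
    simp
  obtain ⟨v, hv⟩ := exists_ne (0 : V)
  apply hv
  apply h0
  intro s
  have h4 : s ∈ ρ.ker := by
    apply h3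
    rw [hS]
    trivial
  rw [MonoidHom.mem_ker] at h4
  rw [h4]
  rfl

end Irr

section Unitary

variable {S : Type*} [Group S] [Fintype S] {V : Type*} [NormedAddCommGroup V]
  [InnerProductSpace ℂ V] [FiniteDimensional ℂ V]

/-- The estimate in an invariant subspace without invariant vectors. -/
lemma bound_sub (hS : commutator S = ⊤) (ρ : S →* Module.End ℂ V)
    (hρ : ∀ s x y, ⟪ρ s x, ρ s y⟫_ℂ = ⟪x, y⟫_ℂ) (n : ℕ) :
    ∀ W : Submodule ℂ V, Module.finrank ℂ W = n → (∀ s, ∀ v ∈ W, ρ s v ∈ W) →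
      (∀ v ∈ W, (∀ s, ρ s v = v) → v = 0) → ∀ v ∈ W,
      (⟪v, ∑ s, ∑ t, ρ (s * t * s⁻¹ * t⁻¹) v⟫_ℂ).re ≤
        (1 / 4) * (Fintype.card S : ℝ) ^ 2 * ‖v‖ ^ 2 := by
  induction n using Nat.strong_induction_on with
  | _ n ih =>
    intro W hn hW h0 v hv
    by_cases hred : ∃ W₁ : Submodule ℂ V, W₁ < W ∧ W₁ ≠ ⊥ ∧ ∀ s, ∀ v ∈ W₁, ρ s v ∈ W₁
    · obtain ⟨W₁, hlt, hne, hW₁⟩ := hred
      set W₂ : Submodule ℂ V := W₁ᗮ ⊓ W with hW₂
      have hinv₂ : ∀ s, ∀ v ∈ W₂, ρ s v ∈ W₂ := by
        intro s x hx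
        refine ⟨(Submodule.mem_orthogonal W₁ _).mpr ?_, hW s x hx.2⟩
        intro y hy
        have h1 : y = ρ s (ρ s⁻¹ y) := by
          rw [← Module.End.mul_apply, ← map_mul, mul_inv_cancel, map_one, Module.End.one_apply]
        rw [h1, hρ]
        exact (Submodule.mem_orthogonal W₁ x).mp hx.1 _ (hW₁ s⁻¹ y hy)
      have hlt₂ : W₂ < W := by
        refine lt_of_le_of_ne inf_le_right ?_
        intro h1
        obtain ⟨y, hy, hy0⟩ := (Submodule.ne_bot_iff W₁).mp hne
        have h2 : y ∈ W₂ := by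
          rw [h1]
          exact hlt.le hy
        exact hy0 (inner_self_eq_zero.mp ((Submodule.mem_orthogonal W₁ y).mp h2.1 y hy))
      set v₁ : V := W₁.starProjection v with hv₁
      have hv₁W : v₁ ∈ W₁ := Submodule.starProjection_apply_mem W₁ v
      have hv₂W : v - v₁ ∈ W₂ := by
        refine ⟨Submodule.sub_starProjection_mem_orthogonal v, ?_⟩
        exact W.sub_mem hv (hlt.le hv₁W)
      have i₁ := ih (Module.finrank ℂ W₁) (by
        rw [← hn]
        exact Submodule.finrank_lt_finrank_of_lt hlt) W₁ rfl hW₁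
        (fun x hx => h0 x (hlt.le hx)) v₁ hv₁W
      have i₂ := ih (Module.finrank ℂ W₂) (by
        rw [← hn]
        exact Submodule.finrank_lt_finrank_of_lt hlt₂) W₂ rfl hinv₂
        (fun x hx => h0 x hx.2) (v - v₁) hv₂W
      set v₂ : V := v - v₁ with hv₂
      set L : Module.End ℂ V := ∑ s, ∑ t, ρ (s * t * s⁻¹ * t⁻¹) with hL
      have hLv : ∀ x, ∑ s, ∑ t, ρ (s * t * s⁻¹ * t⁻¹) x = L x := by
        intro x
        rw [hL, LinearMap.sum_apply]
        refine Finset.sum_congr rfl fun s _ => ?_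
        rw [LinearMap.sum_apply]
      rw [hLv] at i₁ i₂ ⊢
      have hL₁ : L v₁ ∈ W₁ := by
        rw [← hLv]
        exact W₁.sum_mem fun s _ => W₁.sum_mem fun t _ => hW₁ _ _ hv₁W
      have hL₂ : L v₂ ∈ W₁ᗮ := by
        rw [← hLv]
        exact W₁ᗮ.sum_mem fun s _ => W₁ᗮ.sum_mem fun t _ => (hinv₂ _ _ hv₂W).1
      have hc₁ : ⟪v₁, L v₂⟫_ℂ = 0 := (Submodule.mem_orthogonal W₁ _).mp hL₂ _ hv₁W
      have hc₂ : ⟪v₂, L v₁⟫_ℂ = 0 := (Submodule.mem_orthogonal' W₁ _).mp hv₂W.1 _ hL₁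
      have hc₃ : ⟪v₁, v₂⟫_ℂ = 0 := (Submodule.mem_orthogonal W₁ _).mp hv₂W.1 _ hv₁W
      have hv12 : v = v₁ + v₂ := by rw [hv₂]; abel
      have hn2 : ‖v‖ ^ 2 = ‖v₁‖ ^ 2 + ‖v₂‖ ^ 2 := by
        rw [hv12, pow_two, pow_two, pow_two]
        exact norm_add_sq_eq_norm_sq_add_norm_sq_of_inner_eq_zero _ _ hc₃
      rw [hn2, hv12, map_add, inner_add_left, inner_add_right, inner_add_right, hc₁, hc₂, add_zero,
        zero_add, Complex.add_re]
      linarith
    · by_cases hbot : W = ⊥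
      · rw [hbot, Submodule.mem_bot] at hv
        rw [hv]
        simp
      have hnt : Nontrivial W := by
        rw [Submodule.nontrivial_iff_ne_bot]
        exact hbot
      set ρ' : S →* Module.End ℂ W :=
        { toFun := fun s => (ρ s).restrict (hW s)
          map_one' := by
            ext x
            simp [LinearMap.restrict_apply]
          map_mul' := by
            intro s t
            ext x
            simp [LinearMap.restrict_apply] } with hρ'
      have happ : ∀ s (x : W), ((ρ' s x : W) : V) = ρ s x := fun s x => rfl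
      have hirr : Irr ρ' := by
        intro U hU
        by_contra hcon
        push Not at hcon
        apply hred
        have hinj := Submodule.map_injective_of_injective W.injective_subtype
        refine ⟨U.map W.subtype, ?_, ?_, ?_⟩
        · refine lt_of_le_of_ne (Submodule.map_subtype_le W U) fun h1 => hcon.2 (hinj ?_)
          rw [h1, Submodule.map_subtype_top]
        · intro h1
          apply hcon.1
          apply hinj
          rw [h1, Submodule.map_bot]
        · rintro s _ ⟨x, hx, rfl⟩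
          exact ⟨ρ' s x, hU s x hx, rfl⟩
      have h2 : 2 ≤ Module.finrank ℂ W := by
        apply two_le hS (ρ := ρ')
        intro x hx
        apply Subtype.ext
        apply h0 x x.2
        intro s
        rw [← happ, hx s]
      have h3 := LinearMap.congr_fun (sum_comm_eq hirr) ⟨v, hv⟩
      have h4 : ∑ s, ∑ t, ρ (s * t * s⁻¹ * t⁻¹) v =
          (((Fintype.card S : ℂ) / (Module.finrank ℂ W : ℂ)) ^ 2) • v := by
        have h5 := congrArg Subtype.val h3
        rw [LinearMap.sum_apply] at h5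
        simp_rw [LinearMap.sum_apply] at h5
        rw [Submodule.coe_sum] at h5
        simp_rw [Submodule.coe_sum, happ] at h5
        rw [h5]
        rfl
      have h6 : (2 : ℝ) ≤ Module.finrank ℂ W := by exact_mod_cast h2
      have h7 : ⟪v, ∑ s, ∑ t, ρ (s * t * s⁻¹ * t⁻¹) v⟫_ℂ =
          ((((Fintype.card S : ℝ) / (Module.finrank ℂ W : ℝ)) ^ 2 * ‖v‖ ^ 2 : ℝ) : ℂ) := by
        rw [h4, inner_smul_right, inner_self_eq_norm_sq_to_K]
        push_cast
        rfl
      rw [h7, Complex.ofReal_re, div_pow]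
      have h8 : (Fintype.card S : ℝ) ^ 2 / (Module.finrank ℂ W : ℝ) ^ 2 ≤
          (1 / 4) * (Fintype.card S : ℝ) ^ 2 := by
        rw [div_le_iff₀ (by positivity)]
        have h9 : (4 : ℝ) ≤ (Module.finrank ℂ W : ℝ) ^ 2 := by nlinarith
        nlinarith [mul_nonneg (sq_nonneg (Fintype.card S : ℝ)) (sub_nonneg.mpr h9)]
      gcongr

end Unitary

section Regular

variable {S : Type} [Group S] [Fintype S]

/-- The right regular representation. -/
noncomputable def reg : S →* Module.End ℂ (EuclideanSpace ℂ S) where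
  toFun s := (WithLp.linearEquiv 2 ℂ (S → ℂ)).symm.toLinearMap ∘ₗ
    (LinearMap.funLeft ℂ ℂ (fun g => g * s)) ∘ₗ (WithLp.linearEquiv 2 ℂ (S → ℂ)).toLinearMap
  map_one' := by
    ext x g
    simp [LinearMap.funLeft]
  map_mul' s t := by
    ext x g
    simp [LinearMap.funLeft, mul_assoc]

lemma reg_apply (s : S) (x : EuclideanSpace ℂ S) (g : S) : reg s x g = x (g * s) := rfl

lemma inner_eq_ip (x y : EuclideanSpace ℂ S) : ⟪x, y⟫_ℂ = ip (fun g => x g) (fun g => y g) := by
  rw [PiLp.inner_apply]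
  unfold ip
  refine Finset.sum_congr rfl fun g _ => ?_
  rw [RCLike.inner_apply, mul_comm]

lemma norm_sq_eq (x : EuclideanSpace ℂ S) : ‖x‖ ^ 2 = sq (fun g => x g) := by
  rw [EuclideanSpace.norm_sq_eq]
  rfl

end Regular

end Comm

/-- COMM. The average of the commutators of a perfect group. -/
theorem comm_bound {S : Type} [Group S] [Fintype S] (hS : commutator S = ⊤) (f : S → ℂ)
    (hf : ∑ g, f g = 0) :
    (∑ s : S, ∑ t : S, ip f (rt (s * t * s⁻¹ * t⁻¹) f)).re ≤ (1 / 4) * (Fintype.card S : ℝ) ^ 2 * sq f := by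
  set W : Submodule ℂ (EuclideanSpace ℂ S) :=
    { carrier := {x | ∑ g, x g = 0}
      add_mem' := by
        intro x y hx hy
        simp only [Set.mem_setOf_eq] at hx hy ⊢
        simp [Finset.sum_add_distrib, hx, hy]
      zero_mem' := by simp
      smul_mem' := by
        intro c x hx
        simp only [Set.mem_setOf_eq] at hx ⊢
        simp [← Finset.mul_sum, hx] } with hW
  have hmem : ∀ x : EuclideanSpace ℂ S, x ∈ W ↔ ∑ g, x g = 0 := fun x => Iff.rfl
  have h1 := Comm.bound_sub hS (Comm.reg (S := S)) (by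
    intro s x y
    rw [Comm.inner_eq_ip, Comm.inner_eq_ip]
    exact ip_rt_rt s _ _) (Module.finrank ℂ W) W rfl (by
    intro s x hx
    rw [hmem] at hx ⊢
    rw [← hx]
    exact sum_rt s _) (by
    intro x hx h
    rw [hmem] at hx
    have h2 : ∀ g, x g = x 1 := by
      intro g
      have h3 := congrArg (fun y : EuclideanSpace ℂ S => y 1) (h g)
      simp only [Comm.reg_apply, one_mul] at h3
      exact h3
    rw [Finset.sum_congr rfl fun g _ => h2 g, Finset.sum_const, Finset.card_univ,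
      nsmul_eq_mul] at hx
    have h3 := (mul_eq_zero.mp hx).resolve_left card_ne_zero'
    ext g
    rw [h2 g, h3]
    rfl) (WithLp.toLp 2 f) (by
    rw [hmem]
    exact hf)
  rw [Comm.norm_sq_eq, inner_sum] at h1
  simp_rw [inner_sum, Comm.inner_eq_ip] at h1
  exact h1

end Pool.Agent.MPfe8e9b
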