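import Pool.Agent.Lib.MP_fe8e9b_al.Count
import Mathlib.Algebra.Order.Floor.Semiring
import Mathlib.Algebra.Order.Archimedean.Real.Basic

/-!
# MP_fe8e9b_al: counting matrices congruent to `1`, general divisor bound
-/

open scoped BigOperators MatrixGroups
open Polynomial

namespace Pool.Agent.MPfe8e9b

open CountAux in
/-- COUNTG. -/
theorem mat_count_gen (F : Type) [Field F] [Fintype F] [DecidableEq F] (I : F[X]) (hI : I.Monic)
    (hj : 1 ≤ I.natDegree) (m : ℕ) (D : ℝ) (hD : 1 ≤ D)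
    (hdiv : ∀ N : F[X], N ≠ 0 → N.natDegree ≤ 2 * (m - I.natDegree) →
      ∀ T : Finset (F[X] × F[X]), (∀ x ∈ T, x.1 * x.2 = N) → (T.card : ℝ) ≤ D)
    (T : Finset SL(2, F[X]))
    (hT : ∀ γ ∈ T, dg γ ≤ m ∧ ∀ a b, I ∣ γ.1 a b - (1 : Matrix (Fin 2) (Fin 2) F[X]) a b) :
    (m < I.natDegree → T.card ≤ 1) ∧
    ((T.card : ℝ) ≤ (Fintype.card F : ℝ) ^ (m - I.natDegree + 1) *
        (1 + (Fintype.card F : ℝ) ^ (m - I.natDegree + 1) /
          (Fintype.card F : ℝ) ^ I.natDegree) * D +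
        2 * (Fintype.card F : ℝ) ^ (m - I.natDegree + 1)) := by
  classical
  have hq : 1 ≤ Fintype.card F := Fintype.card_pos
  have hq' : (1:ℝ) ≤ Fintype.card F := by exact_mod_cast hq
  have hI0 : I ≠ 0 := hI.ne_zero
  have hdg : ∀ γ ∈ T, ∀ a b, (γ.1 a b).natDegree ≤ m := by
    intro γ hγ a b
    refine le_trans ?_ (hT γ hγ).1
    exact Finset.le_sup (f := fun ij : Fin 2 × Fin 2 => (γ.1 ij.1 ij.2).natDegree)
      (Finset.mem_univ (a, b))
  have hdg1 : ∀ γ ∈ T, ∀ a b,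
      (γ.1 a b - (1 : Matrix (Fin 2) (Fin 2) F[X]) a b).natDegree ≤ m := by
    intro γ hγ a b
    refine (natDegree_sub_le _ _).trans (max_le (hdg γ hγ a b) ?_)
    rw [Matrix.one_apply]
    split_ifs <;> simp
  have part1 : m < I.natDegree → T.card ≤ 1 := by
    intro hm
    rw [Finset.card_le_one]
    have : ∀ γ ∈ T, γ = 1 := by
      intro γ hγ
      apply Subtype.ext
      ext1 a b
      have h1 := (hT γ hγ).2 a b
      have h2 := hdg1 γ hγ a b
      have h3 : γ.1 a b - (1 : Matrix (Fin 2) (Fin 2) F[X]) a b = 0 := by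
        refine eq_zero_of_dvd_of_natDegree_lt h1 (h2.trans_lt hm)
      rw [sub_eq_zero] at h3
      exact h3
    intro a ha b hb
    rw [this a ha, this b hb]
  refine ⟨part1, ?_⟩
  rcases lt_or_ge m I.natDegree with hm | hm
  · have h1 := part1 hm
    have h2 : (T.card : ℝ) ≤ 1 := by exact_mod_cast h1
    have h3 : (1:ℝ) ≤ (Fintype.card F : ℝ) ^ (m - I.natDegree + 1) := one_le_pow₀ hq'
    have h4 : 0 ≤ (Fintype.card F : ℝ) ^ (m - I.natDegree + 1) *
        (1 + (Fintype.card F : ℝ) ^ (m - I.natDegree + 1) /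
          (Fintype.card F : ℝ) ^ I.natDegree) * D := by positivity
    linarith
  obtain ⟨D', hD'⟩ : ∃ D' : ℕ, D' = ⌊D⌋₊ := ⟨_, rfl⟩
  have hD'le : (D' : ℝ) ≤ D := by
    rw [hD']
    exact Nat.floor_le (by linarith)
  have hdiv' : ∀ N : F[X], N ≠ 0 → N.natDegree ≤ 2 * (m - I.natDegree) →
      ∀ T : Finset (F[X] × F[X]), (∀ x ∈ T, x.1 * x.2 = N) → T.card ≤ D' := by
    intro N hN hNd T hT
    rw [hD']
    exact Nat.le_floor (hdiv N hN hNd T hT)
  -- the quotients
  obtain ⟨r, hr⟩ : ∃ r, r = m - I.natDegree := ⟨_, rfl⟩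
  rw [← hr]
  let qo : SL(2, F[X]) → Fin 2 → Fin 2 → F[X] := fun γ a b =>
    (γ.1 a b - (1 : Matrix (Fin 2) (Fin 2) F[X]) a b) /ₘ I
  have hqo : ∀ γ ∈ T, ∀ a b,
      I * qo γ a b = γ.1 a b - (1 : Matrix (Fin 2) (Fin 2) F[X]) a b := by
    intro γ hγ a b
    exact mul_div hI ((hT γ hγ).2 a b)
  have hqd : ∀ γ ∈ T, ∀ a b, (qo γ a b).degree < ((r + 1 : ℕ) : WithBot ℕ) := by
    intro γ hγ a b
    rw [hr]
    refine deg_quot hI ?_ hm
    rw [hqo γ hγ a b]
    exact hdg1 γ hγ a b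
  have hqinj : ∀ γ ∈ T, ∀ γ' ∈ T, (∀ a b, qo γ a b = qo γ' a b) → γ = γ' := by
    intro γ hγ γ' hγ' h
    apply Subtype.ext
    ext1 a b
    have h1 := hqo γ hγ a b
    have h2 := hqo γ' hγ' a b
    rw [h a b, h2] at h1
    exact (sub_left_inj.1 h1).symm
  let hh : SL(2, F[X]) → F[X] := fun γ => qo γ 0 1 * qo γ 1 0 - qo γ 0 0 * qo γ 1 1
  have hdet : ∀ γ ∈ T, I * hh γ = qo γ 0 0 + qo γ 1 1 := by
    intro γ hγ
    have h1 := γ.2
    rw [Matrix.det_fin_two] at h1
    have e1 := hqo γ hγ 0 0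
    have e2 := hqo γ hγ 0 1
    have e3 := hqo γ hγ 1 0
    have e4 := hqo γ hγ 1 1
    simp only [Matrix.one_apply_eq, Fin.isValue, ne_eq, zero_ne_one, not_false_eq_true,
      Matrix.one_apply_ne, one_ne_zero, sub_zero] at e1 e2 e3 e4
    have f1 : γ.1 0 0 = 1 + I * qo γ 0 0 := by rw [e1]; ring
    have f4 : γ.1 1 1 = 1 + I * qo γ 1 1 := by rw [e4]; ring
    rw [f1, f4, ← e2, ← e3] at h1
    have h2 : I * (qo γ 0 0 + qo γ 1 1 - I * hh γ) = 0 := by
      simp only [hh]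
      linear_combination h1
    rcases mul_eq_zero.1 h2 with h3 | h3
    · exact absurd h3 hI0
    · exact (sub_eq_zero.1 h3).symm
  have hhd : ∀ γ ∈ T, (hh γ).degree < ((r + 1 - I.natDegree : ℕ) : WithBot ℕ) := by
    intro γ hγ
    have h1 := hdet γ hγ
    have h2 : (I * hh γ).degree < ((r + 1 : ℕ) : WithBot ℕ) := by
      rw [h1]
      exact (degree_add_le _ _).trans_lt (max_lt (hqd γ hγ 0 0) (hqd γ hγ 1 1))
    by_cases h0 : hh γ = 0
    · rw [h0, degree_zero]
      exact WithBot.bot_lt_coe _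
    · have h3 : I * hh γ ≠ 0 := mul_ne_zero hI0 h0
      rw [degree_eq_natDegree h3, hI.natDegree_mul' h0] at h2
      have h4 : I.natDegree + (hh γ).natDegree < r + 1 := by exact_mod_cast h2
      rw [degree_eq_natDegree h0]
      exact_mod_cast (by omega : (hh γ).natDegree < r + 1 - I.natDegree)
  have h11 : ∀ γ ∈ T, qo γ 1 1 = I * hh γ - qo γ 0 0 := by
    intro γ hγ
    rw [hdet γ hγ]; ring
  let NN : F[X] × F[X] → F[X] := fun x => x.2 + x.1 * (I * x.2 - x.1)
  have hNN : ∀ γ ∈ T, qo γ 0 1 * qo γ 1 0 = NN (qo γ 0 0, hh γ) := by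
    intro γ hγ
    simp only [NN]
    rw [← h11 γ hγ]
    simp only [hh]
    ring
  have hNd : ∀ γ ∈ T, (NN (qo γ 0 0, hh γ)).natDegree ≤ 2 * r := by
    intro γ hγ
    rw [← hNN γ hγ]
    refine natDegree_mul_le.trans ?_
    have e1 := natDeg_le (hqd γ hγ 0 1)
    have e2 := natDeg_le (hqd γ hγ 1 0)
    omega
  -- the classification
  let cl : SL(2, F[X]) → F[X] × F[X] := fun γ => (qo γ 0 0, hh γ)
  have hfib : ∀ x : F[X] × F[X], NN x ≠ 0 →
      (T.filter fun γ => cl γ = x).card ≤ D' := by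
    intro x hx
    rcases (T.filter fun γ => cl γ = x).eq_empty_or_nonempty with he | ⟨γ₀, hγ₀⟩
    · rw [he, Finset.card_empty]
      exact Nat.zero_le _
    · have hd : (NN x).natDegree ≤ 2 * r := by
        obtain ⟨h1, h2⟩ := Finset.mem_filter.1 hγ₀
        rw [← h2]
        exact hNd γ₀ h1
      have hinj : Set.InjOn (fun γ => (qo γ 0 1, qo γ 1 0))
          (T.filter fun γ => cl γ = x : Finset SL(2, F[X])) := by
        intro γ hγ γ' hγ' he
        obtain ⟨h1, h2⟩ := Finset.mem_filter.1 (Finset.mem_coe.1 hγ)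
        obtain ⟨h3, h4⟩ := Finset.mem_filter.1 (Finset.mem_coe.1 hγ')
        obtain ⟨e1, e2⟩ := Prod.mk.inj he
        rw [← h4] at h2
        obtain ⟨e3, e4⟩ := Prod.mk.inj h2
        refine hqinj γ h1 γ' h3 fun a b => ?_
        have e5 : qo γ 1 1 = qo γ' 1 1 := by rw [h11 γ h1, h11 γ' h3, e3, e4]
        fin_cases a <;> fin_cases b
        · exact e3
        · exact e1
        · exact e2
        · exact e5
      rw [← Finset.card_image_of_injOn hinj]
      refine hdiv' (NN x) hx (by rw [← hr]; exact hd) _ ?_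
      intro y hy
      obtain ⟨γ, hγ, rfl⟩ := Finset.mem_image.1 hy
      obtain ⟨h1, h2⟩ := Finset.mem_filter.1 hγ
      rw [← h2]
      exact hNN γ h1
  have hzero : ∀ γ ∈ T, NN (cl γ) = 0 → cl γ = (0, 0) := by
    intro γ hγ h
    have e0 : hh γ = -(qo γ 0 0 * qo γ 1 1) := by
      have : hh γ + qo γ 0 0 * (I * hh γ - qo γ 0 0) = 0 := h
      rw [← h11 γ hγ] at this
      linear_combination this
    have e1 : qo γ 0 0 + qo γ 1 1 = -(I * (qo γ 0 0 * qo γ 1 1)) := by
      rw [← hdet γ hγ, e0]; ring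
    have e2 : qo γ 0 0 = 0 := by
      by_contra h0
      by_cases h1 : qo γ 1 1 = 0
      · rw [h1] at e1
        apply h0
        simpa using e1
      · have h2 : (I * (qo γ 0 0 * qo γ 1 1)).natDegree =
            I.natDegree + ((qo γ 0 0).natDegree + (qo γ 1 1).natDegree) := by
          rw [hI.natDegree_mul' (mul_ne_zero h0 h1), natDegree_mul h0 h1]
        have h3 := natDegree_add_le (qo γ 0 0) (qo γ 1 1)
        rw [e1, natDegree_neg, h2] at h3
        have : max (qo γ 0 0).natDegree (qo γ 1 1).natDegree ≤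
          (qo γ 0 0).natDegree + (qo γ 1 1).natDegree := max_le (by omega) (by omega)
        omega
    have e3 : hh γ = 0 := by rw [e0, e2, zero_mul, neg_zero]
    exact Prod.ext e2 e3
  have hfib0 : (T.filter fun γ => cl γ = (0, 0)).card ≤ 2 * Fintype.card F ^ (r + 1) := by
    have hprod : ∀ γ ∈ T.filter (fun γ => cl γ = (0, 0)), qo γ 0 1 = 0 ∨ qo γ 1 0 = 0 := by
      intro γ hγ
      obtain ⟨h1, h2⟩ := Finset.mem_filter.1 hγ
      have h3 : NN (cl γ) = 0 := by
        rw [h2]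
        simp [NN]
      have h4 := hNN γ h1
      rw [show (qo γ 0 0, hh γ) = cl γ from rfl, h3] at h4
      exact mul_eq_zero.1 h4
    have hone : ∀ (a b a' b' : Fin 2), (∀ c d : Fin 2, (c, d) = (0, 0) ∨ (c, d) = (1, 1) ∨
        (c, d) = (a, b) ∨ (c, d) = (a', b')) →
        ((T.filter fun γ => cl γ = (0, 0)).filter fun γ => qo γ a b = 0).card ≤
          Fintype.card F ^ (r + 1) := by
      intro a b a' b' hab
      have hinj : Set.InjOn (fun γ => qo γ a' b')
          (((T.filter fun γ => cl γ = (0, 0)).filter fun γ => qo γ a b = 0 :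
            Finset SL(2, F[X]))) := by
        intro γ hγ γ' hγ' he
        obtain ⟨h1, h2⟩ := Finset.mem_filter.1 (Finset.mem_coe.1 hγ)
        obtain ⟨h3, h4⟩ := Finset.mem_filter.1 (Finset.mem_coe.1 hγ')
        obtain ⟨h5, h6⟩ := Finset.mem_filter.1 h1
        obtain ⟨h7, h8⟩ := Finset.mem_filter.1 h3
        obtain ⟨e3, e4⟩ := Prod.mk.inj h6
        obtain ⟨e3', e4'⟩ := Prod.mk.inj h8
        refine hqinj γ h5 γ' h7 fun c d => ?_
        rcases hab c d with h9 | h9 | h9 | h9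
        · obtain ⟨rfl, rfl⟩ := Prod.mk.inj h9
          rw [e3, e3']
        · obtain ⟨rfl, rfl⟩ := Prod.mk.inj h9
          rw [h11 γ h5, h11 γ' h7, e3, e3', e4, e4']
        · obtain ⟨rfl, rfl⟩ := Prod.mk.inj h9
          rw [h2, h4]
        · obtain ⟨rfl, rfl⟩ := Prod.mk.inj h9
          exact he
      rw [← Finset.card_image_of_injOn hinj]
      refine deg_count _ _ ?_
      intro p hp
      obtain ⟨γ, hγ, rfl⟩ := Finset.mem_image.1 hp
      exact hqd γ (Finset.mem_filter.1 (Finset.mem_filter.1 hγ).1).1 a' b'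
    have h1 := hone 0 1 1 0 (by decide)
    have h2 := hone 1 0 0 1 (by decide)
    have h3 : T.filter (fun γ => cl γ = (0, 0)) ⊆
        ((T.filter fun γ => cl γ = (0, 0)).filter fun γ => qo γ 0 1 = 0) ∪
          ((T.filter fun γ => cl γ = (0, 0)).filter fun γ => qo γ 1 0 = 0) := by
      intro γ hγ
      rcases hprod γ hγ with h | h
      · exact Finset.mem_union_left _ (Finset.mem_filter.2 ⟨hγ, h⟩)
      · exact Finset.mem_union_right _ (Finset.mem_filter.2 ⟨hγ, h⟩)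
    have h4 := (Finset.card_le_card h3).trans (Finset.card_union_le _ _)
    omega
  -- the number of classes
  have hcl : (T.image cl).card ≤
      Fintype.card F ^ (r + 1) * Fintype.card F ^ (r + 1 - I.natDegree) := by
    have h1 : T.image cl ⊆ (T.image fun γ => qo γ 0 0) ×ˢ (T.image hh) := by
      intro x hx
      obtain ⟨γ, hγ, rfl⟩ := Finset.mem_image.1 hx
      exact Finset.mem_product.2 ⟨Finset.mem_image_of_mem _ hγ, Finset.mem_image_of_mem _ hγ⟩
    refine (Finset.card_le_card h1).trans ?_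
    rw [Finset.card_product]
    refine Nat.mul_le_mul (deg_count _ _ ?_) (deg_count _ _ ?_)
    · intro p hp
      obtain ⟨γ, hγ, rfl⟩ := Finset.mem_image.1 hp
      exact hqd γ hγ 0 0
    · intro p hp
      obtain ⟨γ, hγ, rfl⟩ := Finset.mem_image.1 hp
      exact hhd γ hγ
  have htot : T.card ≤ (T.image cl).card * D' +
      2 * Fintype.card F ^ (r + 1) := by
    rw [Finset.card_eq_sum_card_image cl T]
    have h1 : ∀ x ∈ T.image cl, (T.filter fun γ => cl γ = x).card ≤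
        D' + if x = (0, 0) then 2 * Fintype.card F ^ (r + 1) else 0 := by
      intro x hx
      split_ifs with h0
      · rw [h0]
        exact hfib0.trans (Nat.le_add_left _ _)
      · rw [add_zero]
        refine hfib x fun hx0 => h0 ?_
        obtain ⟨γ, hγ, rfl⟩ := Finset.mem_image.1 hx
        exact hzero γ hγ hx0
    refine (Finset.sum_le_sum h1).trans ?_
    rw [Finset.sum_add_distrib, Finset.sum_const, smul_eq_mul, Finset.sum_ite_eq']
    split_ifs <;> omega
  -- real arithmetic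
  obtain ⟨q, hqq⟩ : ∃ q : ℕ, q = Fintype.card F := ⟨_, rfl⟩
  rw [← hqq] at hcl htot hq' ⊢
  have hnat : T.card ≤ q ^ (r + 1) * q ^ (r + 1 - I.natDegree) * D' +
      2 * q ^ (r + 1) := by
    refine htot.trans (Nat.add_le_add_right (Nat.mul_le_mul_right _ hcl) _)
  have hreal : (T.card : ℝ) ≤ (q:ℝ) ^ (r + 1) * (q:ℝ) ^ (r + 1 - I.natDegree) * D' +
      2 * (q:ℝ) ^ (r + 1) := by exact_mod_cast hnat
  have hpw : (q:ℝ) ^ (r + 1 - I.natDegree) ≤ 1 + (q:ℝ) ^ (r + 1) / (q:ℝ) ^ I.natDegree := by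
    have hq0 : (0:ℝ) < q := by linarith
    rcases le_or_gt I.natDegree (r + 1) with h | h
    · rw [pow_sub₀ _ hq0.ne' h, ← div_eq_mul_inv]
      linarith
    · rw [Nat.sub_eq_zero_of_le h.le, pow_zero]
      have : 0 ≤ (q:ℝ) ^ (r + 1) / (q:ℝ) ^ I.natDegree := by positivity
      linarith
  refine hreal.trans ?_
  have hD'0 : (0:ℝ) ≤ D' := Nat.cast_nonneg _
  have h1 : (q:ℝ) ^ (r + 1) * (q:ℝ) ^ (r + 1 - I.natDegree) * D' ≤
      (q:ℝ) ^ (r + 1) * (1 + (q:ℝ) ^ (r + 1) / (q:ℝ) ^ I.natDegree) * D := by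
    gcongr
  linarith

end Pool.Agent.MPfe8e9b
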