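import Mathlib.Algebra.BigOperators.Group.Finset.Basic

/-!
# MP_fe8e9b_al: number of words
-/

open scoped BigOperators

namespace Pool.Agent.MPfe8e9b

open Classical in
/-- The number of words of length `l` in the elements of `T` with product `γ`. -/
noncomputable def wn {Γ : Type*} [Group Γ] (T : Finset Γ) : ℕ → Γ → ℕ
  | 0 => fun γ => if γ = 1 then 1 else 0
  | l + 1 => fun γ => ∑ δ ∈ T, wn T l (γ * δ⁻¹)

end Pool.Agent.MPfe8e9b
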