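import Mathlib.LinearAlgebra.Matrix.Transvection
import Mathlib.LinearAlgebra.Matrix.SpecialLinearGroup
import Mathlib.Tactic

/-!
# MP_fe8e9b_al: bounded generation of `SL_n` over fields by transvections
-/

namespace Pool.Agent.MPfe8e9b

namespace Elem

open Matrix TransvectionStruct Sum

variable {F : Type} [Field F]

/-- `M` is a product of at most `k` transvections. -/
def TB {n : Type} [DecidableEq n] [Fintype n] (k : ℕ) (M : Matrix n n F) : Prop :=
  ∃ l : List (TransvectionStruct n F), l.length ≤ k ∧ M = (l.map toMatrix).prod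

variable {n : Type} [DecidableEq n] [Fintype n]

lemma TB.one (k : ℕ) : TB k (1 : Matrix n n F) := ⟨[], by simp, by simp⟩

lemma TB.mul {a b : ℕ} {M N : Matrix n n F} (hM : TB a M) (hN : TB b N) : TB (a + b) (M * N) := by
  obtain ⟨l, hl, rfl⟩ := hM
  obtain ⟨l', hl', rfl⟩ := hN
  refine ⟨l ++ l', ?_, by simp⟩
  rw [List.length_append]
  omega

lemma TB.mono {a b : ℕ} (h : a ≤ b) {M : Matrix n n F} (hM : TB a M) : TB b M := by
  obtain ⟨l, hl, rfl⟩ := hM
  exact ⟨l, hl.trans h, rfl⟩

lemma TB.of_mul_left {a : ℕ} {M : Matrix n n F} (L : List (TransvectionStruct n F))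
    (h : TB a ((L.map toMatrix).prod * M)) : TB (L.length + a) M := by
  have h1 : TB L.length (L.reverse.map (toMatrix ∘ TransvectionStruct.inv)).prod :=
    ⟨L.reverse.map TransvectionStruct.inv, by simp, by rw [List.map_map]⟩
  have h2 := h1.mul h
  rwa [← Matrix.mul_assoc, reverse_inv_prod_mul_prod, Matrix.one_mul] at h2

lemma TB.of_mul_right {a : ℕ} {M : Matrix n n F} (L : List (TransvectionStruct n F))
    (h : TB a (M * (L.map toMatrix).prod)) : TB (a + L.length) M := by
  have h1 : TB L.length (L.reverse.map (toMatrix ∘ TransvectionStruct.inv)).prod :=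
    ⟨L.reverse.map TransvectionStruct.inv, by simp, by rw [List.map_map]⟩
  have h2 := h.mul h1
  rwa [Matrix.mul_assoc, prod_mul_reverse_inv_prod, Matrix.mul_one] at h2

lemma TB.reindex {m : Type} [DecidableEq m] [Fintype m] (e : n ≃ m) {a : ℕ} {M : Matrix n n F}
    (h : TB a M) : TB a (reindexAlgEquiv F F e M) := by
  obtain ⟨l, hl, rfl⟩ := h
  refine ⟨l.map (reindexEquiv e), by simpa using hl, ?_⟩
  rw [List.map_map, toMatrix_reindexEquiv_prod]

/-- If the last coefficient is `1`. -/
lemma step_one {r L : ℕ}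
    (IH : ∀ A : Matrix (Fin r) (Fin r) F, A.det = 1 → TB L A)
    (M : Matrix (Fin r ⊕ Unit) (Fin r ⊕ Unit) F) (hdet : M.det = 1)
    (h1 : M (inr Unit.unit) (inr Unit.unit) = 1) : TB (2 * r + L) M := by
  have hM : M (inr Unit.unit) (inr Unit.unit) ≠ 0 := by rw [h1]; exact one_ne_zero
  let K : List (TransvectionStruct (Fin r ⊕ Unit) F) :=
    List.ofFn fun i : Fin r =>
      ⟨inl i, inr Unit.unit, by simp, -M (inl i) (inr Unit.unit) / M (inr Unit.unit) (inr Unit.unit)⟩
  let K' : List (TransvectionStruct (Fin r ⊕ Unit) F) :=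
    List.ofFn fun i : Fin r =>
      ⟨inr Unit.unit, inl i, by simp, -M (inr Unit.unit) (inl i) / M (inr Unit.unit) (inr Unit.unit)⟩
  have hA : K.map toMatrix = Pivot.listTransvecCol M := by
    simp [K, Pivot.listTransvecCol, Function.comp_def]
  have hB : K'.map toMatrix = Pivot.listTransvecRow M := by
    simp [K', Pivot.listTransvecRow, Function.comp_def]
  have hK : K.length = r := by simp [K]
  have hK' : K'.length = r := by simp [K']
  have hblock := Pivot.isTwoBlockDiagonal_listTransvecCol_mul_mul_listTransvecRow M hM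
  have hlast : (((K.map toMatrix).prod * M) * (K'.map toMatrix).prod)
      (inr Unit.unit) (inr Unit.unit) = 1 := by
    rw [hA, hB]
    have e1 : Pivot.listTransvecRow M = Pivot.listTransvecRow ((Pivot.listTransvecCol M).prod * M) := by
      simp [Pivot.listTransvecRow, Pivot.listTransvecCol_mul_last_row]
    rw [e1, Pivot.mul_listTransvecRow_last_col, Pivot.listTransvecCol_mul_last_row, h1]
  rw [← hA, ← hB] at hblock
  set D := ((K.map toMatrix).prod * M) * (K'.map toMatrix).prod with hD
  have hDdet : D.det = 1 := by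
    rw [hD, Matrix.det_mul, Matrix.det_mul, det_toMatrix_prod, det_toMatrix_prod, hdet]
    simp
  have h22 : D.toBlocks₂₂ = 1 := by
    ext i j
    have hi : i = Unit.unit := rfl
    have hj : j = Unit.unit := rfl
    rw [hi, hj]
    simpa [toBlocks₂₂] using hlast
  have hDeq : D = fromBlocks D.toBlocks₁₁ 0 0 1 := by
    conv_lhs => rw [← fromBlocks_toBlocks D]
    rw [hblock.1, hblock.2, h22]
  have hA1 : D.toBlocks₁₁.det = 1 := by
    have h2 := hDdet
    rw [hDeq, det_fromBlocks_zero₁₂, det_one, mul_one] at h2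
    exact h2
  have hD' : TB L D := by
    obtain ⟨l, hl, hprod⟩ := IH _ hA1
    refine ⟨l.map (sumInl Unit), by simpa using hl, ?_⟩
    rw [List.map_map]
    have h3 := sumInl_toMatrix_prod_mul Unit (1 : Matrix (Fin r) (Fin r) F) l (1 : Matrix Unit Unit F)
    rw [fromBlocks_one, Matrix.mul_one, Matrix.mul_one, ← hprod] at h3
    rw [h3]
    exact hDeq
  have h4 := TB.of_mul_left K (hD'.of_mul_right K')
  rw [hK, hK'] at h4
  exact h4.mono (by omega)

/-- If some coefficient of the last column, other than the last, is nonzero. -/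
lemma step_two {r L : ℕ}
    (IH : ∀ A : Matrix (Fin r) (Fin r) F, A.det = 1 → TB L A)
    (M : Matrix (Fin r ⊕ Unit) (Fin r ⊕ Unit) F) (hdet : M.det = 1) (i : Fin r)
    (hi : M (inl i) (inr Unit.unit) ≠ 0) : TB (2 * r + L + 1) M := by
  let t : TransvectionStruct (Fin r ⊕ Unit) F :=
    ⟨inr Unit.unit, inl i, by simp,
      (1 - M (inr Unit.unit) (inr Unit.unit)) / M (inl i) (inr Unit.unit)⟩
  have h1 : ((([t] : List (TransvectionStruct (Fin r ⊕ Unit) F)).map toMatrix).prod * M)
      (inr Unit.unit) (inr Unit.unit) = 1 := by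
    simp only [List.map_cons, List.map_nil, List.prod_cons, List.prod_nil, Matrix.mul_one, t,
      toMatrix_mk, transvection_mul_apply_same]
    field_simp
    ring
  have h2 : ((([t] : List (TransvectionStruct (Fin r ⊕ Unit) F)).map toMatrix).prod * M).det = 1 := by
    rw [Matrix.det_mul, det_toMatrix_prod, hdet, mul_one]
  exact ((step_one IH _ h2 h1).of_mul_left [t]).mono (by simp only [List.length_singleton]; omega)

lemma step_three {r L : ℕ} (hr : 0 < r)
    (IH : ∀ A : Matrix (Fin r) (Fin r) F, A.det = 1 → TB L A)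
    (M : Matrix (Fin r ⊕ Unit) (Fin r ⊕ Unit) F) (hdet : M.det = 1) : TB (2 * r + L + 2) M := by
  by_cases h : ∃ i : Fin r, M (inl i) (inr Unit.unit) ≠ 0
  · obtain ⟨i, hi⟩ := h
    exact (step_two IH M hdet i hi).mono (by omega)
  · push Not at h
    have hlast : M (inr Unit.unit) (inr Unit.unit) ≠ 0 := by
      intro h0
      have : M.det = 0 := by
        apply Matrix.det_eq_zero_of_column_eq_zero (inr Unit.unit)
        rintro (i | i)
        · exact h i
        · exact h0
      rw [hdet] at this
      exact one_ne_zero this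
    let i : Fin r := ⟨0, hr⟩
    let t : TransvectionStruct (Fin r ⊕ Unit) F := ⟨inl i, inr Unit.unit, by simp, 1⟩
    have h1 : ((([t] : List (TransvectionStruct (Fin r ⊕ Unit) F)).map toMatrix).prod * M)
        (inl i) (inr Unit.unit) ≠ 0 := by
      simp only [List.map_cons, List.map_nil, List.prod_cons, List.prod_nil, Matrix.mul_one, t,
        toMatrix_mk, transvection_mul_apply_same, h i, one_mul, zero_add]
      exact hlast
    have h2 : ((([t] : List (TransvectionStruct (Fin r ⊕ Unit) F)).map toMatrix).prod * M).det = 1 := by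
      rw [Matrix.det_mul, det_toMatrix_prod, hdet, mul_one]
    exact ((step_two IH _ h2 i h1).of_mul_left [t]).mono (by simp only [List.length_singleton]; omega)

lemma main : ∀ n : ℕ, ∃ L : ℕ, ∀ (F : Type) [Field F] (M : Matrix (Fin n) (Fin n) F),
    M.det = 1 → TB L M
  | 0 => ⟨0, fun F _ M _ => by rw [Subsingleton.elim M 1]; exact TB.one 0⟩
  | 1 => ⟨0, fun F _ M hM => by
      have : M = 1 := by
        ext i j
        rw [Subsingleton.elim i 0, Subsingleton.elim j 0]
        simpa using hM
      rw [this]; exact TB.one 0⟩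
  | r + 2 => by
      obtain ⟨L, hL⟩ := main (r + 1)
      refine ⟨2 * (r + 1) + L + 2, fun F _ M hM => ?_⟩
      let e : Fin (r + 2) ≃ Fin (r + 1) ⊕ Unit := Fintype.equivOfCardEq (by simp)
      have h1 : (reindexAlgEquiv F F e M).det = 1 := by
        rw [det_reindexAlgEquiv, hM]
      have h2 := (step_three (Nat.succ_pos r) (hL F) _ h1).reindex e.symm
      have h3 : reindexAlgEquiv F F e.symm (reindexAlgEquiv F F e M) = M := by
        ext i j
        simp
      rwa [h3] at h2

end Elem

theorem transvec_bound (n : ℕ) : ∃ L : ℕ, ∀ (F : Type) [Field F]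
    (M : Matrix.SpecialLinearGroup (Fin n) F),
    ∃ l : List (Matrix.TransvectionStruct (Fin n) F), l.length ≤ L ∧
      M.1 = (l.map Matrix.TransvectionStruct.toMatrix).prod := by
  obtain ⟨L, hL⟩ := Elem.main n
  exact ⟨L, fun F _ M => hL F M.1 M.2⟩

end Pool.Agent.MPfe8e9b
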