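import Mathlib
import Pool.Agent.Lib.MP_fe8e9b_al.Defs

/-!
# MP_fe8e9b_al: multiplicities in `d`-generated products
-/

open scoped BigOperators MatrixGroups Pointwise

namespace Pool.Agent.MPfe8e9b

/-- MULT. -/
theorem mult_bound {ι : Type*} [Fintype ι] (G : ι → Type*) [∀ i, Group (G i)]
    [∀ i, Fintype (G i)] (d : ℕ)
    (hd : ∃ S : Finset (∀ i, G i), S.card ≤ d ∧ Subgroup.closure (S : Set (∀ i, G i)) = ⊤)
    (S : Type*) [Group S] [Fintype S] [Nontrivial S] (J : Finset ι)
    (hJ : ∀ i ∈ J, Nonempty (G i ≃* S)) : J.card ≤ (Fintype.card S) ^ d := by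
  classical
  obtain ⟨T, hT, hgen⟩ := hd
  have he : ∀ i : J, Nonempty (G i.1 ≃* S) := fun i => hJ i.1 i.2
  let E : ∀ i : J, G i.1 ≃* S := fun i => (he i).some
  have hcard : 1 ≤ Fintype.card S := Fintype.card_pos
  let F : J → (T → S) := fun i t => E i (t.1 i.1)
  have hF : Function.Injective F := by
    intro i i' hii'
    by_contra hne
    have hne' : i.1 ≠ i'.1 := fun h => hne (Subtype.ext h)
    -- the subgroup of equal coordinates
    let K : Subgroup (∀ i, G i) :=
      { carrier := {g | E i (g i.1) = E i' (g i'.1)}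
        one_mem' := by simp
        mul_mem' := by
          intro a b ha hb
          simp only [Set.mem_ofPred_eq, Pi.mul_apply, map_mul] at ha hb ⊢
          rw [ha, hb]
        inv_mem' := by
          intro a ha
          simp only [Set.mem_ofPred_eq, Pi.inv_apply, map_inv] at ha ⊢
          rw [ha] }
    have hK : K = ⊤ := by
      rw [eq_top_iff, ← hgen, Subgroup.closure_le]
      intro t ht
      exact congrFun hii' ⟨t, ht⟩
    obtain ⟨x, hx⟩ := exists_ne (1 : S)
    have h1 : Pi.mulSingle i.1 ((E i).symm x) ∈ K := by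
      rw [hK]
      exact Subgroup.mem_top _
    have h2 : E i ((Pi.mulSingle i.1 ((E i).symm x) : ∀ i, G i) i.1) =
        E i' ((Pi.mulSingle i.1 ((E i).symm x) : ∀ i, G i) i'.1) := h1
    rw [Pi.mulSingle_eq_same, Pi.mulSingle_eq_of_ne (Ne.symm hne'), MulEquiv.apply_symm_apply,
      map_one] at h2
    exact hx h2
  have h3 := Fintype.card_le_of_injective F hF
  rw [Fintype.card_coe, Fintype.card_fun, Fintype.card_coe] at h3
  exact h3.trans (Nat.pow_le_pow_right hcard hT)

end Pool.Agent.MPfe8e9b
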