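import Mathlib
import Pool.Agent.Lib.MP_fe8e9b_al.Two

/-!
# MP_fe8e9b_al: from `SL(2)` to `SL(n)` over products of fields
-/

open scoped BigOperators MatrixGroups Pointwise

namespace Pool.Agent.MPfe8e9b

namespace SLn

/-! ### The norm and the displacement -/

section disp

variable {G : Type*} [Group G] [Fintype G]

/-- The `L²` norm. -/
noncomputable def nrm (f : G → ℂ) : ℝ := Real.sqrt (sq f)

omit [Group G] in
theorem nrm_nonneg (f : G → ℂ) : 0 ≤ nrm f := Real.sqrt_nonneg _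

omit [Group G] in
theorem nrm_sq (f : G → ℂ) : nrm f ^ 2 = sq f := Real.sq_sqrt (sq_nonneg' f)

omit [Group G] in
theorem nrm_add_le (f f' : G → ℂ) : nrm (f + f') ≤ nrm f + nrm f' := by
  have h0 := nrm_nonneg f
  have h1 := nrm_nonneg f'
  rw [nrm, Real.sqrt_le_left (by linarith), sq_add]
  have h2 := ip_re_le f f'
  have h3 := nrm_sq f
  have h4 := nrm_sq f'
  change (ip f f').re ≤ nrm f * nrm f' at h2
  nlinarith

omit [Group G] in
theorem nrm_neg (f : G → ℂ) : nrm (-f) = nrm f := by rw [nrm, nrm, sq_neg]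

theorem nrm_rt (s : G) (f : G → ℂ) : nrm (rt s f) = nrm f := by rw [nrm, nrm, sq_rt]

/-- The displacement of `f` by `g`. -/
noncomputable def dsp (f : G → ℂ) (g : G) : ℝ := nrm (rt g f - f)

theorem dsp_nonneg (f : G → ℂ) (g : G) : 0 ≤ dsp f g := nrm_nonneg _

theorem dsp_one (f : G → ℂ) : dsp f 1 = 0 := by
  rw [dsp, rt_one, sub_self, nrm, sq_zero, Real.sqrt_zero]

theorem dsp_mul (f : G → ℂ) (g h : G) : dsp f (g * h) ≤ dsp f g + dsp f h := by
  have h1 : rt (g * h) f - f = (rt g f - f) + rt g (rt h f - f) := by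
    rw [rt_sub, rt_mul]
    abel
  rw [dsp, h1]
  refine (nrm_add_le _ _).trans ?_
  rw [nrm_rt]
  exact le_rfl

theorem dsp_image {H : Type*} [Group H] [Fintype H] (φ : H →* G) {k : ℕ} (s : Fin k → H)
    {κ : ℝ} (hκ : 0 < κ) (hs : Gap s κ) (f : G → ℂ) {E : ℝ}
    (hE : ∑ i, sq (rt (φ (s i)) f - f) ≤ E) (h : H) :
    dsp f (φ h) ≤ 2 * Real.sqrt (E / κ) := by
  have h1 := (gap_sub φ s hs f).trans hE
  have h2 : nrm (f - avh φ f) ≤ Real.sqrt (E / κ) := by
    refine Real.sqrt_le_sqrt ?_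
    rw [le_div_iff₀ hκ]
    linarith
  have h3 : rt (φ h) f - f = rt (φ h) (f - avh φ f) + -(f - avh φ f) := by
    rw [rt_sub, rt_avh_self]
    abel
  rw [dsp, h3]
  refine (nrm_add_le _ _).trans ?_
  rw [nrm_rt, nrm_neg]
  linarith

/-- If all displacements are at most `B` then `f` is small. -/
theorem sq_le_of_dsp (f : G → ℂ) (hf : ∑ g, f g = 0) {B : ℝ}
    (hB : ∀ g, dsp f g ≤ B) : sq f ≤ B ^ 2 := by
  have h2 : ∑ g : G, rt g f = 0 := by
    funext x
    simp only [Finset.sum_apply, rt_apply, Pi.zero_apply]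
    rw [← hf]
    exact Fintype.sum_equiv (Equiv.mulLeft x) _ _ fun _ => rfl
  have h3 : ∑ g : G, sq (rt g f - f) = 2 * Fintype.card G * sq f := by
    simp only [sq_sub, sq_rt]
    rw [Finset.sum_sub_distrib, ← Finset.mul_sum]
    have h4 : ∑ g : G, (ip (rt g f) f).re = 0 := by
      rw [← Complex.re_sum, ← ip_sum_left, h2, ip_zero_left, Complex.zero_re]
    rw [h4]
    simp
    ring
  have h4 : ∑ g : G, sq (rt g f - f) ≤ ∑ _g : G, B ^ 2 := by
    refine Finset.sum_le_sum fun g _ => ?_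
    rw [← nrm_sq]
    exact pow_le_pow_left₀ (nrm_nonneg _) (hB g) 2
  rw [h3, Finset.sum_const, Finset.card_univ, nsmul_eq_mul] at h4
  have h5 : (0 : ℝ) < Fintype.card G := by exact_mod_cast Fintype.card_pos
  have h6 : (Fintype.card G : ℝ) * (2 * sq f) ≤ Fintype.card G * B ^ 2 := by linarith
  have h7 := le_of_mul_le_mul_left h6 h5
  have h8 := sq_nonneg' f
  linarith

end disp

/-! ### Root embeddings -/

theorem exists_eqv {n : ℕ} (hn : 2 ≤ n) (p : Fin n × Fin n) :
    ∃ e : Fin 2 ⊕ Fin (n - 2) ≃ Fin n,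
      p.1 ≠ p.2 → e (Sum.inl 0) = p.1 ∧ e (Sum.inl 1) = p.2 := by
  obtain ⟨a, b⟩ := p
  set e₀ : Fin 2 ⊕ Fin (n - 2) ≃ Fin n := finSumFinEquiv.trans (finCongr (by omega)) with he₀
  by_cases hab : a = b
  · exact ⟨e₀, fun h => absurd hab h⟩
  set x := e₀ (Sum.inl 0) with hx
  set y := e₀ (Sum.inl 1) with hy
  have hxy : x ≠ y := by
    intro h
    have := e₀.injective h
    simp at this
  refine ⟨e₀.trans ((Equiv.swap x a).trans (Equiv.swap (Equiv.swap x a y) b)), fun _ => ?_⟩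
  have h1 : a ≠ Equiv.swap x a y := by
    intro h
    apply hxy
    apply (Equiv.swap x a).injective
    rw [Equiv.swap_apply_left, ← h]
  constructor
  · show Equiv.swap (Equiv.swap x a y) b (Equiv.swap x a x) = a
    rw [Equiv.swap_apply_left, Equiv.swap_apply_of_ne_of_ne h1 hab]
  · show Equiv.swap (Equiv.swap x a y) b (Equiv.swap x a y) = b
    rw [Equiv.swap_apply_left]

/-- The chosen identification. -/
noncomputable def eqv {n : ℕ} (hn : 2 ≤ n) (p : Fin n × Fin n) :
    Fin 2 ⊕ Fin (n - 2) ≃ Fin n := (exists_eqv hn p).choose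

theorem eqv_spec {n : ℕ} (hn : 2 ≤ n) (p : Fin n × Fin n) (hp : p.1 ≠ p.2) :
    eqv hn p (Sum.inl 0) = p.1 ∧ eqv hn p (Sum.inl 1) = p.2 :=
  (exists_eqv hn p).choose_spec hp

/-- The embedding of `SL(2)` as a block. -/
noncomputable def emb {n m : ℕ} (e : Fin 2 ⊕ Fin m ≃ Fin n) (F : Type*) [CommRing F] :
    SL(2, F) →* Matrix.SpecialLinearGroup (Fin n) F where
  toFun M := ⟨Matrix.reindex e e (Matrix.fromBlocks M.1 0 0 1), by
    rw [Matrix.det_reindex_self, Matrix.det_fromBlocks_zero₂₁, Matrix.det_one, mul_one]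
    exact M.2⟩
  map_one' := by
    apply Subtype.ext
    show Matrix.reindex e e (Matrix.fromBlocks (1 : SL(2, F)).1 0 0 1) = 1
    rw [Matrix.SpecialLinearGroup.coe_one, Matrix.fromBlocks_one, Matrix.reindex_apply,
      Matrix.submatrix_one_equiv]
  map_mul' M N := by
    apply Subtype.ext
    show Matrix.reindex e e (Matrix.fromBlocks (M * N).1 0 0 1) =
      Matrix.reindex e e (Matrix.fromBlocks M.1 0 0 1) *
        Matrix.reindex e e (Matrix.fromBlocks N.1 0 0 1)
    rw [Matrix.reindex_apply, Matrix.reindex_apply, Matrix.reindex_apply,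
      Matrix.submatrix_mul_equiv, Matrix.fromBlocks_multiply]
    simp [Matrix.SpecialLinearGroup.coe_mul]

theorem emb_val {n m : ℕ} (e : Fin 2 ⊕ Fin m ≃ Fin n) (F : Type*) [CommRing F] (M : SL(2, F)) :
    (emb e F M).1 = Matrix.reindex e e (Matrix.fromBlocks M.1 0 0 1) := rfl

/-- Transvections are images of elementary matrices. -/
theorem toMatrix_eq {n : ℕ} (hn : 2 ≤ n) {F : Type*} [CommRing F]
    (t : Matrix.TransvectionStruct (Fin n) F) :
    t.toMatrix = (emb (eqv hn (t.i, t.j)) F (e12 t.c)).1 := by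
  obtain ⟨h0, h1⟩ := eqv_spec hn (t.i, t.j) t.hij
  have h2 : t.toMatrix = Matrix.reindex (eqv hn (t.i, t.j)) (eqv hn (t.i, t.j))
      (Matrix.fromBlocks (Matrix.TransvectionStruct.toMatrix
        (⟨0, 1, by decide, t.c⟩ : Matrix.TransvectionStruct (Fin 2) F)) 0 0
        (1 : Matrix (Fin (n - 2)) (Fin (n - 2)) F)) := by
    rw [← Matrix.TransvectionStruct.toMatrix_sumInl]
    have h3 := Matrix.TransvectionStruct.toMatrix_reindexEquiv (eqv hn (t.i, t.j))
      (Matrix.TransvectionStruct.sumInl (Fin (n - 2))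
        (⟨0, 1, by decide, t.c⟩ : Matrix.TransvectionStruct (Fin 2) F))
    rw [Matrix.coe_reindexAlgEquiv] at h3
    rw [← h3]
    simp only [Matrix.TransvectionStruct.toMatrix, Matrix.TransvectionStruct.reindexEquiv,
      Matrix.TransvectionStruct.sumInl, h0, h1]
  rw [h2, emb_val]
  congr 2
  ext a b
  fin_cases a <;> fin_cases b <;> simp [Matrix.TransvectionStruct.toMatrix, Matrix.transvection,
    e12]

/-! ### Generation -/

section gen

variable {n : ℕ} (hn : 2 ≤ n) {ι : Type} [Fintype ι] [DecidableEq ι] {F : ι → Type}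
  [∀ i, Field (F i)] [∀ i, Fintype (F i)] [∀ i, DecidableEq (F i)]

/-- The root embedding of the product. -/
noncomputable def root (F : ι → Type) [∀ i, Field (F i)] (p : Fin n × Fin n) :
    (∀ i, SL(2, F i)) →* (∀ i, Matrix.SpecialLinearGroup (Fin n) (F i)) :=
  piHom fun i => emb (eqv hn p) (F i)

theorem dsp_step (f : (∀ i, Matrix.SpecialLinearGroup (Fin n) (F i)) → ℂ) {b : ℝ}
    (hb : ∀ (p : Fin n × Fin n) (h : ∀ i, SL(2, F i)), dsp f (root hn F p h) ≤ b) :
    ∀ (P : Finset (Fin n × Fin n)) (p : ι → Fin n × Fin n) (c : ∀ i, F i),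
      (∀ i, p i ∈ P ∨ c i = 0) →
      dsp f (fun i => emb (eqv hn (p i)) (F i) (e12 (c i))) ≤ P.card * b := by
  intro P
  induction P using Finset.induction_on with
  | empty =>
    intro p c hc
    have h1 : (fun i => emb (eqv hn (p i)) (F i) (e12 (c i))) = 1 := by
      funext i
      rcases hc i with h | h
      · exact absurd h (Finset.notMem_empty _)
      · rw [h, e12_zero, map_one]
        rfl
    rw [h1, dsp_one]
    simp
  | insert q P hq ih =>
    intro p c hc
    have h1 : (fun i => emb (eqv hn (p i)) (F i) (e12 (c i))) =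
        root hn F q (fun i => e12 (if p i = q then c i else 0)) *
          fun i => emb (eqv hn (p i)) (F i) (e12 (if p i = q then 0 else c i)) := by
      funext i
      rw [Pi.mul_apply]
      show _ = emb (eqv hn q) (F i) (e12 (if p i = q then c i else 0)) * _
      by_cases h : p i = q
      · rw [if_pos h, if_pos h, h, e12_zero, map_one, mul_one]
      · rw [if_neg h, if_neg h, e12_zero, map_one, one_mul]
    rw [h1, Finset.card_insert_of_notMem hq]
    refine (dsp_mul _ _ _).trans ?_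
    have h2 := hb q (fun i => e12 (if p i = q then c i else 0))
    have h3 := ih p (fun i => if p i = q then 0 else c i) (by
      intro i
      by_cases h : p i = q
      · right
        rw [if_pos h]
      · rw [if_neg h]
        rcases hc i with h' | h'
        · rw [Finset.mem_insert] at h'
          exact Or.inl (h'.resolve_left h)
        · exact Or.inr h')
    push_cast
    linarith

theorem dsp_prod (f : (∀ i, Matrix.SpecialLinearGroup (Fin n) (F i)) → ℂ) {b : ℝ}
    (hb : ∀ (p : Fin n × Fin n) (h : ∀ i, SL(2, F i)), dsp f (root hn F p h) ≤ b) :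
    ∀ (m : ℕ) (g : ∀ i, Matrix.SpecialLinearGroup (Fin n) (F i)),
      (∀ i, ∃ l : List (Matrix.TransvectionStruct (Fin n) (F i)), l.length ≤ m ∧
        (g i).1 = (l.map Matrix.TransvectionStruct.toMatrix).prod) →
      dsp f g ≤ m * ((n : ℝ) ^ 2 * b) := by
  intro m
  induction m with
  | zero =>
    intro g hg
    have h1 : g = 1 := by
      funext i
      obtain ⟨l, hl, h⟩ := hg i
      have hl' : l = [] := List.length_eq_zero_iff.mp (Nat.le_zero.mp hl)
      apply Subtype.ext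
      rw [h, hl']
      rfl
    rw [h1, dsp_one]
    simp
  | succ m ih =>
    intro g hg
    have key : ∀ i, ∃ (p : Fin n × Fin n) (c : F i)
        (l : List (Matrix.TransvectionStruct (Fin n) (F i))), l.length ≤ m ∧
        (g i).1 = (emb (eqv hn p) (F i) (e12 c)).1 *
          (l.map Matrix.TransvectionStruct.toMatrix).prod := by
      intro i
      obtain ⟨l, hl, h⟩ := hg i
      rcases l with _ | ⟨t, l⟩
      · refine ⟨(⟨0, by omega⟩, ⟨0, by omega⟩), 0, [], Nat.zero_le _, ?_⟩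
        rw [h, e12_zero, map_one]
        simp
      · refine ⟨(t.i, t.j), t.c, l, by simpa using hl, ?_⟩
        rw [h, List.map_cons, List.prod_cons, toMatrix_eq hn]
    choose p c l hl hgl using key
    have h1 : g = (fun i => emb (eqv hn (p i)) (F i) (e12 (c i))) *
        ((fun i => emb (eqv hn (p i)) (F i) (e12 (c i)))⁻¹ * g) := by
      rw [mul_inv_cancel_left]
    rw [h1]
    refine (dsp_mul _ _ _).trans ?_
    have h2 := dsp_step hn f hb Finset.univ p c (fun i => Or.inl (Finset.mem_univ _))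
    have h3 := ih ((fun i => emb (eqv hn (p i)) (F i) (e12 (c i)))⁻¹ * g) (by
      intro i
      refine ⟨l i, hl i, ?_⟩
      rw [Pi.mul_apply, Pi.inv_apply]
      obtain ⟨r, hr⟩ : ∃ r : Matrix.SpecialLinearGroup (Fin n) (F i),
          r.1 = ((l i).map Matrix.TransvectionStruct.toMatrix).prod :=
        ⟨⟨_, Matrix.TransvectionStruct.det_toMatrix_prod (l i)⟩, rfl⟩
      have h4 : g i = emb (eqv hn (p i)) (F i) (e12 (c i)) * r :=
        Subtype.ext (by rw [hgl i, ← hr]; rfl)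
      rw [h4, inv_mul_cancel_left]
      exact hr)
    have h4 : ((Finset.univ : Finset (Fin n × Fin n)).card : ℝ) = (n : ℝ) ^ 2 := by
      rw [Finset.card_univ, Fintype.card_prod, Fintype.card_fin]
      push_cast
      ring
    rw [h4] at h2
    push_cast
    linarith

end gen

end SLn

open SLn in
theorem expd_SLn
    (htr : ∀ n : ℕ, ∃ L : ℕ, ∀ (F : Type) [Field F] (M : Matrix.SpecialLinearGroup (Fin n) F),
      ∃ l : List (Matrix.TransvectionStruct (Fin n) F), l.length ≤ L ∧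
        M.1 = (l.map Matrix.TransvectionStruct.toMatrix).prod)
    (n k : ℕ) (hn : 2 ≤ n) (κ : ℝ) (hκ : 0 < κ) :
    ∃ (k' : ℕ) (κ' : ℝ), 0 < κ' ∧ ∀ (ι : Type) [Fintype ι] [DecidableEq ι] (F : ι → Type)
      [∀ i, Field (F i)] [∀ i, Fintype (F i)] [∀ i, DecidableEq (F i)],
      Expd (∀ i, SL(2, F i)) k κ → Expd (∀ i, Matrix.SpecialLinearGroup (Fin n) (F i)) k' κ' := by
  obtain ⟨L, hL⟩ := htr n
  refine ⟨Fintype.card ((Fin n × Fin n) × Fin k), κ / (4 * (L : ℝ) ^ 2 * (n : ℝ) ^ 4 + 1),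
    by positivity, ?_⟩
  intro ι _ _ F _ _ _ hexp
  obtain ⟨s, hs⟩ := hexp
  refine ⟨fun j => root hn F ((Fintype.equivFin ((Fin n × Fin n) × Fin k)).symm j).1
    (s ((Fintype.equivFin ((Fin n × Fin n) × Fin k)).symm j).2), ?_⟩
  intro f hf
  set E : ℝ := ∑ x : (Fin n × Fin n) × Fin k, sq (rt (root hn F x.1 (s x.2)) f - f) with hE
  have hE1 : ∑ j, sq (rt (root hn F ((Fintype.equivFin ((Fin n × Fin n) × Fin k)).symm j).1
      (s ((Fintype.equivFin ((Fin n × Fin n) × Fin k)).symm j).2)) f - f) = E :=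
    Fintype.sum_equiv (Fintype.equivFin ((Fin n × Fin n) × Fin k)).symm _ _ fun _ => rfl
  rw [hE1]
  have hE0 : 0 ≤ E := Finset.sum_nonneg fun x _ => sq_nonneg' _
  have hEp : ∀ p : Fin n × Fin n, ∑ i, sq (rt (root hn F p (s i)) f - f) ≤ E := by
    intro p
    rw [hE, Fintype.sum_prod_type]
    exact Finset.single_le_sum (f := fun p => ∑ i, sq (rt (root hn F p (s i)) f - f))
      (fun p _ => Finset.sum_nonneg fun x _ => sq_nonneg' _) (Finset.mem_univ p)
  have hb : ∀ (p : Fin n × Fin n) (h : ∀ i, SL(2, F i)),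
      dsp f (root hn F p h) ≤ 2 * Real.sqrt (E / κ) := fun p h =>
    dsp_image (root hn F p) s hκ hs f (hEp p) h
  have hall : ∀ g, dsp f g ≤ L * ((n : ℝ) ^ 2 * (2 * Real.sqrt (E / κ))) := fun g =>
    dsp_prod hn f hb L g fun i => hL (F i) (g i)
  have h1 := sq_le_of_dsp f hf hall
  have h2 : (L * ((n : ℝ) ^ 2 * (2 * Real.sqrt (E / κ)))) ^ 2 =
      4 * (L : ℝ) ^ 2 * (n : ℝ) ^ 4 * (E / κ) := by
    have h3 := Real.sq_sqrt (div_nonneg hE0 hκ.le)
    calc (L * ((n : ℝ) ^ 2 * (2 * Real.sqrt (E / κ)))) ^ 2 =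
        4 * (L : ℝ) ^ 2 * (n : ℝ) ^ 4 * Real.sqrt (E / κ) ^ 2 := by ring
      _ = _ := by rw [h3]
  rw [h2] at h1
  have h4 : (0 : ℝ) < 4 * (L : ℝ) ^ 2 * (n : ℝ) ^ 4 + 1 := by positivity
  rw [div_mul_eq_mul_div, div_le_iff₀ h4]
  have h5 : κ * (4 * (L : ℝ) ^ 2 * (n : ℝ) ^ 4 * (E / κ)) = 4 * (L : ℝ) ^ 2 * (n : ℝ) ^ 4 * E := by
    field_simp
  have h6 := mul_le_mul_of_nonneg_left h1 hκ.le
  rw [h5] at h6
  linarith

end Pool.Agent.MPfe8e9b
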