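import Mathlib
import Pool.Agent.Lib.MP_fe8e9b_al.Avg

/-!
# MP_fe8e9b_al: a spectral gap gives generation and vertex expansion
-/

open scoped BigOperators MatrixGroups Pointwise

namespace Pool.Agent.MPfe8e9b

section

variable {G : Type*} [Group G] [Fintype G] [DecidableEq G]

/-- The indicator function of a set. -/
noncomputable def indc (A : Finset G) : G → ℂ := fun x => if x ∈ A then 1 else 0

/-- A gap forces generation. -/
theorem gap_closure {k : ℕ} (s : Fin k → G) {κ : ℝ} (hκ : 0 < κ) (hs : Gap s κ) :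
    Subgroup.closure ((Finset.univ.image s : Finset G) : Set G) = ⊤ := by
  classical
  set H := Subgroup.closure ((Finset.univ.image s : Finset G) : Set G) with hH
  let A : Finset G := Finset.univ.filter (fun g => g ∈ H)
  have hmem : ∀ g, g ∈ A ↔ g ∈ H := fun g => by simp [A]
  set a : ℂ := (A.card : ℂ) / Fintype.card G with ha
  let f : G → ℂ := fun g => indc A g - a
  have hG : (Fintype.card G : ℂ) ≠ 0 := card_ne_zero'
  have hsum : ∑ g, f g = 0 := by
    simp only [f, indc, Finset.sum_sub_distrib, Finset.sum_const, Finset.card_univ, nsmul_eq_mul,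
      Finset.sum_ite_mem, Finset.univ_inter, mul_one]
    rw [ha]
    field_simp
    ring
  have hinv : ∀ i, rt (s i) f - f = 0 := by
    intro i
    funext g
    have h1 : s i ∈ H := Subgroup.subset_closure (by simp)
    have h2 : g * s i ∈ A ↔ g ∈ A := by
      rw [hmem, hmem]
      exact Subgroup.mul_mem_cancel_right H h1
    simp [rt_apply, f, indc, h2]
  have h3 := hs f hsum
  simp only [hinv, sq_zero, Finset.sum_const_zero] at h3
  have h4 : sq f = 0 := by
    have := sq_nonneg' f
    nlinarith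
  rw [sq_eq_zero] at h4
  have h5 := congrFun h4 1
  have h6 : (1 : G) ∈ A := (hmem 1).mpr H.one_mem
  simp only [f, indc, h6, if_true, Pi.zero_apply, ha] at h5
  have h7 : (A.card : ℂ) = Fintype.card G := by
    field_simp at h5
    linear_combination -h5
  have h8 : A.card = Fintype.card G := by exact_mod_cast h7
  have h9 : A = Finset.univ := Finset.card_eq_iff_eq_univ A |>.mp h8
  rw [Subgroup.eq_top_iff']
  intro x
  rw [← hmem, h9]
  exact Finset.mem_univ x

/-- A gap gives vertex expansion. -/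
theorem gap_vertex {k : ℕ} (s : Fin k → G) {κ : ℝ} (hκ : 0 < κ) (hs : Gap s κ) (A : Finset G)
    (hA : 2 * A.card ≤ Fintype.card G) :
    κ * A.card ≤ 4 * k * (((Finset.univ.image s * A) \ A).card : ℝ) := by
  classical
  have hG : (Fintype.card G : ℂ) ≠ 0 := card_ne_zero'
  have hGr : (0 : ℝ) < Fintype.card G := by exact_mod_cast Fintype.card_pos
  set a : ℝ := (A.card : ℝ) / Fintype.card G with ha
  let χ : G → ℝ := fun x => if x ∈ A then 1 else 0
  have hχ : ∀ x, χ x * χ x = χ x := fun x => by
    by_cases h : x ∈ A <;> simp [χ, h]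
  have hχs : ∑ x, χ x = A.card := by
    simp [χ]
  let f : G → ℂ := fun g => ((χ g⁻¹ - a : ℝ) : ℂ)
  have hinvs : ∀ F : G → ℝ, ∑ g, F g⁻¹ = ∑ g, F g := fun F =>
    Fintype.sum_equiv (Equiv.inv G) _ _ fun _ => rfl
  have hsum : ∑ g, f g = 0 := by
    simp only [f]
    rw [← Complex.ofReal_sum]
    norm_cast
    rw [hinvs (fun x => χ x - a), Finset.sum_sub_distrib, hχs]
    simp only [Finset.sum_const, Finset.card_univ, nsmul_eq_mul, ha]
    field_simp
    ring
  have h1 : sq f = A.card - (A.card : ℝ) ^ 2 / Fintype.card G := by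
    simp only [sq, f, Complex.norm_real, Real.norm_eq_abs, sq_abs]
    rw [hinvs (fun x => (χ x - a) ^ 2)]
    have : ∀ x, (χ x - a) ^ 2 = χ x - 2 * a * χ x + a ^ 2 := fun x => by
      have := hχ x
      linear_combination this
    simp only [this, Finset.sum_add_distrib, Finset.sum_sub_distrib, ← Finset.mul_sum, hχs]
    simp only [Finset.sum_const, Finset.card_univ, nsmul_eq_mul, ha]
    field_simp
    ring
  have h2 : (A.card : ℝ) / 2 ≤ sq f := by
    rw [h1]
    have h3 : (2 * (A.card : ℝ)) ≤ Fintype.card G := by exact_mod_cast hA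
    have h4 : (A.card : ℝ) ^ 2 / Fintype.card G ≤ A.card / 2 := by
      rw [div_le_div_iff₀ hGr two_pos]
      have : (0 : ℝ) ≤ A.card := Nat.cast_nonneg _
      nlinarith
    linarith
  have h5 : ∀ i, sq (rt (s i) f - f) ≤ 2 * (((Finset.univ.image s * A) \ A).card : ℝ) := by
    intro i
    have h6 : sq (rt (s i) f - f) = ∑ x, (χ ((s i)⁻¹ * x) - χ x) ^ 2 := by
      rw [← hinvs (fun x => (χ ((s i)⁻¹ * x) - χ x) ^ 2)]
      simp only [sq]
      refine Finset.sum_congr rfl fun g _ => ?_
      simp only [Pi.sub_apply, rt_apply, f, mul_inv_rev]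
      rw [← Complex.ofReal_sub, Complex.norm_real, Real.norm_eq_abs, sq_abs]
      congr 1
      ring
    have h7 : ∑ x, χ ((s i)⁻¹ * x) = A.card := by
      rw [← hχs]
      exact Fintype.sum_equiv (Equiv.mulLeft (s i)⁻¹) _ _ fun _ => rfl
    have h8 : ∑ x, (χ ((s i)⁻¹ * x) - χ x) ^ 2 =
        2 * ∑ x, χ ((s i)⁻¹ * x) * (1 - χ x) := by
      have h9 : ∀ x, (χ ((s i)⁻¹ * x) - χ x) ^ 2 =
          2 * (χ ((s i)⁻¹ * x) * (1 - χ x)) - χ ((s i)⁻¹ * x) + χ x := fun x => by
        have e1 := hχ x
        have e2 := hχ ((s i)⁻¹ * x)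
        linear_combination e1 + e2
      simp only [h9, Finset.sum_add_distrib, Finset.sum_sub_distrib, ← Finset.mul_sum, h7, hχs]
      ring
    rw [h6, h8]
    refine mul_le_mul_of_nonneg_left ?_ two_pos.le
    have h10 : (((Finset.univ.image s * A) \ A).card : ℝ) =
        ∑ x, if x ∈ (Finset.univ.image s * A) \ A then (1 : ℝ) else 0 := by
      rw [Finset.sum_ite_mem, Finset.univ_inter, Finset.sum_const, nsmul_eq_mul, mul_one]
    rw [h10]
    refine Finset.sum_le_sum fun x _ => ?_
    by_cases h11 : (s i)⁻¹ * x ∈ A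
    · by_cases h12 : x ∈ A
      · simp [χ, h11, h12]
      · have h13 : x ∈ Finset.univ.image s * A := by
          rw [Finset.mem_mul]
          exact ⟨s i, by simp, (s i)⁻¹ * x, h11, by simp⟩
        simp [χ, h11, h12, h13]
    · simp only [χ, h11, if_false, zero_mul]
      split_ifs <;> norm_num
  have h14 := hs f hsum
  have h15 : ∑ i, sq (rt (s i) f - f) ≤
      k * (2 * (((Finset.univ.image s * A) \ A).card : ℝ)) := by
    refine (Finset.sum_le_sum fun i _ => h5 i).trans (le_of_eq ?_)
    simp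
  nlinarith

end

/-- VERT. From the spectral gap to vertex expansion. -/
theorem expd_vertex {G : Type*} [Group G] [Fintype G] [DecidableEq G] {k : ℕ} {κ : ℝ}
    (hκ : 0 < κ) (h : Expd G k κ) :
    ∃ S : Finset G, S.card ≤ k ∧ Subgroup.closure (S : Set G) = ⊤ ∧
      ∀ A : Finset G, 2 * A.card ≤ Fintype.card G →
        (1 + κ / (4 * (k + 1))) * (A.card : ℝ) ≤ ((A ∪ S * A).card : ℝ) := by
  obtain ⟨s, hs⟩ := h
  refine ⟨Finset.univ.image s, ?_, gap_closure s hκ hs, ?_⟩
  · exact Finset.card_image_le.trans (by simp)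
  · intro A hA
    have h1 := gap_vertex s hκ hs A hA
    have h2 : ((A ∪ Finset.univ.image s * A).card : ℝ) =
        A.card + (((Finset.univ.image s * A) \ A).card : ℝ) := by
      rw [← Finset.union_sdiff_self_eq_union, Finset.card_union_of_disjoint Finset.disjoint_sdiff]
      push_cast
      rfl
    rw [h2, add_mul, one_mul]
    have h3 : κ / (4 * (k + 1)) * (A.card : ℝ) ≤
        (((Finset.univ.image s * A) \ A).card : ℝ) := by
      rw [div_mul_eq_mul_div, div_le_iff₀ (by positivity)]
      have h4 : (0 : ℝ) ≤ (((Finset.univ.image s * A) \ A).card : ℝ) := Nat.cast_nonneg _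
      nlinarith
    linarith

end Pool.Agent.MPfe8e9b
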