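import Mathlib
import Pool.Agent.Lib.MP_fe8e9b_al.Two
import Pool.Agent.Lib.MP_fe8e9b_al.SLn
import Pool.Agent.Lib.MP_fe8e9b_al.Elem
import Pool.Agent.Lib.MP_fe8e9b_al.Mult
import Pool.Agent.Lib.MP_fe8e9b_al.Vert

/-!
# MP_fe8e9b_al: final assembly
-/

open scoped BigOperators MatrixGroups Pointwise

namespace Pool.Agent.MPfe8e9b

/-! ### Special linear groups -/

theorem card_sl_le (m q : ℕ) [Fact q.Prime] :
    Nat.card (Matrix.SpecialLinearGroup (Fin m) (ZMod q)) ≤ q ^ (m ^ 2) := by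
  have h1 : Nat.card (Matrix.SpecialLinearGroup (Fin m) (ZMod q)) ≤
      Nat.card (Matrix (Fin m) (Fin m) (ZMod q)) :=
    Nat.card_le_card_of_injective (fun A => A.1) Subtype.val_injective
  refine h1.trans (le_of_eq ?_)
  rw [show Matrix (Fin m) (Fin m) (ZMod q) = (Fin m → Fin m → ZMod q) from rfl]
  rw [Nat.card_fun, Nat.card_fun, Nat.card_zmod, Nat.card_fin, ← pow_mul, pow_two]

theorem card_psl_le (m q : ℕ) [Fact q.Prime] :
    Nat.card (Matrix.ProjectiveSpecialLinearGroup (Fin m) (ZMod q)) ≤ q ^ (m ^ 2) :=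
  (Nat.card_le_card_of_surjective (QuotientGroup.mk (s := Subgroup.center
    (Matrix.SpecialLinearGroup (Fin m) (ZMod q)))) QuotientGroup.mk_surjective).trans
    (card_sl_le m q)

theorem psl_nontrivial (m q : ℕ) [Fact q.Prime] (hm : 2 ≤ m) :
    Nontrivial (Matrix.ProjectiveSpecialLinearGroup (Fin m) (ZMod q)) := by
  set i : Fin m := ⟨0, by omega⟩
  set j : Fin m := ⟨1, by omega⟩
  have hij : i ≠ j := by
    intro h
    have := congrArg Fin.val h
    simp [i, j] at this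
  let t : Matrix.TransvectionStruct (Fin m) (ZMod q) := ⟨i, j, hij, 1⟩
  let A : Matrix.SpecialLinearGroup (Fin m) (ZMod q) := ⟨t.toMatrix, by simp⟩
  refine ⟨⟨QuotientGroup.mk A, 1, ?_⟩⟩
  intro h
  have h1 : A ∈ Subgroup.center (Matrix.SpecialLinearGroup (Fin m) (ZMod q)) :=
    (QuotientGroup.eq_one_iff A).mp h
  obtain ⟨r, -, hr⟩ := Matrix.SpecialLinearGroup.mem_center_iff.mp h1
  have h2 := congrFun (congrFun hr i) j
  have h3 : (A : Matrix (Fin m) (Fin m) (ZMod q)) i j = 1 := by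
    show t.toMatrix i j = 1
    simp [t, Matrix.TransvectionStruct.toMatrix, Matrix.transvection, hij]
  rw [h3] at h2
  simp [hij] at h2

/-! ### Products over subsets of the index set -/

/-- Some `k`-tuple has gap `κ`, without a given `Fintype` instance. -/
def FExpd (G : Type) [Group G] (k : ℕ) (κ : ℝ) : Prop :=
  ∃ inst : Fintype G, @Expd G _ inst k κ

theorem FExpd.expd {G : Type} [Group G] [inst : Fintype G] {k : ℕ} {κ : ℝ} (h : FExpd G k κ) :
    Expd G k κ := by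
  obtain ⟨i, hi⟩ := h
  rwa [Subsingleton.elim inst i]

theorem Expd.fexpd {G : Type} [Group G] [inst : Fintype G] {k : ℕ} {κ : ℝ} (h : Expd G k κ) :
    FExpd G k κ := ⟨inst, h⟩

theorem FExpd.surj {G G' : Type} [Group G] [Group G'] (φ : G →* G')
    (hφ : Function.Surjective φ) {k : ℕ} {κ : ℝ} (h : FExpd G k κ) : FExpd G' k κ := by
  obtain ⟨i, hi⟩ := h
  have : Finite G' := Finite.of_surjective φ hφ
  exact ⟨Fintype.ofFinite G', @expd_surj G G' _ i _ (Fintype.ofFinite G') φ hφ _ _ hi⟩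

open Classical in
/-- Gluing two families. -/
noncomputable def glue {ι : Type} (H : ι → Type) [∀ i, Group (H i)] (P Q : ι → Prop) :
    ((∀ i : {i // P i}, H i.1) × (∀ i : {i // Q i}, H i.1)) →* (∀ i : {i // P i ∨ Q i}, H i.1) where
  toFun z := fun i => if h : P i.1 then z.1 ⟨i.1, h⟩ else z.2 ⟨i.1, i.2.resolve_left h⟩
  map_one' := by
    funext i
    by_cases h : P i.1 <;> simp [h]
  map_mul' a b := by
    funext i
    by_cases h : P i.1 <;> simp [h]

theorem glue_surj {ι : Type} (H : ι → Type) [∀ i, Group (H i)] (P Q : ι → Prop) :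
    Function.Surjective (glue H P Q) := by
  intro z
  refine ⟨(fun i => z ⟨i.1, Or.inl i.2⟩, fun i => z ⟨i.1, Or.inr i.2⟩), ?_⟩
  funext i
  by_cases h : P i.1 <;> simp [glue, h]

theorem FExpd.union {ι : Type} (H : ι → Type) [∀ i, Group (H i)] (P Q : ι → Prop)
    {k₁ k₂ : ℕ} {κ : ℝ} (hκ : 0 ≤ κ) (h₁ : FExpd (∀ i : {i // P i}, H i.1) k₁ κ)
    (h₂ : FExpd (∀ i : {i // Q i}, H i.1) k₂ κ) :
    FExpd (∀ i : {i // P i ∨ Q i}, H i.1) (k₁ + k₂) κ := by
  obtain ⟨i₁, h₁⟩ := h₁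
  obtain ⟨i₂, h₂⟩ := h₂
  exact FExpd.surj (glue H P Q) (glue_surj H P Q) (expd_prod hκ h₁ h₂).fexpd

theorem FExpd.mono {G : Type} [Group G] {k k' : ℕ} {κ κ' : ℝ} (hk : k ≤ k')
    (hκ : κ' ≤ κ) (h : FExpd G k κ) : FExpd G k' κ' := by
  obtain ⟨i, h⟩ := h
  exact ⟨i, expd_mono hk hκ h⟩

/-- Restriction to a smaller set of indices. -/
def restr {ι : Type} (H : ι → Type) [∀ i, Group (H i)] (P Q : ι → Prop) (hPQ : ∀ i, P i → Q i) :
    (∀ i : {i // Q i}, H i.1) →* (∀ i : {i // P i}, H i.1) where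
  toFun z := fun i => z ⟨i.1, hPQ _ i.2⟩
  map_one' := rfl
  map_mul' _ _ := rfl

theorem restr_surj {ι : Type} (H : ι → Type) [∀ i, Group (H i)] (P Q : ι → Prop)
    (hPQ : ∀ i, P i → Q i) : Function.Surjective (restr H P Q hPQ) := by
  classical
  intro z
  refine ⟨fun i => if h : P i.1 then z ⟨i.1, h⟩ else 1, ?_⟩
  funext i
  simp [restr, i.2]

/-- The map from `SL` to `PSL` on a product, with varying but equal sizes. -/
noncomputable def slToPsl {ι : Type} (n p : ι → ℕ) (m : ℕ) (hn : ∀ i, n i = m) :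
    (∀ i, Matrix.SpecialLinearGroup (Fin m) (ZMod (p i))) →*
      (∀ i, Matrix.ProjectiveSpecialLinearGroup (Fin (n i)) (ZMod (p i))) :=
  piHom fun i => by
    have h := hn i
    rw [h]
    exact QuotientGroup.mk' _

theorem piHom_surj {ι : Type} {H G : ι → Type} [∀ i, Group (H i)] [∀ i, Group (G i)]
    (φ : ∀ i, H i →* G i) (h : ∀ i, Function.Surjective (φ i)) :
    Function.Surjective (piHom φ) := by
  intro z
  choose f hf using fun i => h i (z i)
  exact ⟨f, funext hf⟩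

theorem exists_sl_psl (m : ℕ) (a q : ℕ) (h : a = m) :
    ∃ φ : Matrix.SpecialLinearGroup (Fin m) (ZMod q) →*
      Matrix.ProjectiveSpecialLinearGroup (Fin a) (ZMod q), Function.Surjective φ := by
  subst h
  exact ⟨QuotientGroup.mk' _, QuotientGroup.mk'_surjective _⟩

/-! ### Multiplicities -/

theorem psl_mult {ι : Type} [Fintype ι] (n p : ι → ℕ) (d : ℕ) (hp : ∀ i, (p i).Prime)
    (hd : ∃ S : Finset (∀ i, Matrix.ProjectiveSpecialLinearGroup (Fin (n i)) (ZMod (p i))),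
      S.card ≤ d ∧ Subgroup.closure (S : Set (∀ i,
        Matrix.ProjectiveSpecialLinearGroup (Fin (n i)) (ZMod (p i)))) = ⊤)
    (m q : ℕ) (hm : 2 ≤ m) (J : Finset ι) (hJ : ∀ i ∈ J, n i = m ∧ p i = q) :
    J.card ≤ q ^ (m ^ 2 * d) := by
  classical
  rcases J.eq_empty_or_nonempty with rfl | ⟨i₀, hi₀⟩
  · simp
  have hq : q.Prime := (hJ i₀ hi₀).2 ▸ hp i₀
  have : Fact q.Prime := ⟨hq⟩
  have : ∀ i, Fact (p i).Prime := fun i => ⟨hp i⟩
  let : ∀ i, Fintype (Matrix.ProjectiveSpecialLinearGroup (Fin (n i)) (ZMod (p i))) :=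
    fun i => Fintype.ofFinite _
  let : Fintype (Matrix.ProjectiveSpecialLinearGroup (Fin m) (ZMod q)) := Fintype.ofFinite _
  have := psl_nontrivial m q hm
  have h := mult_bound (fun i => Matrix.ProjectiveSpecialLinearGroup (Fin (n i)) (ZMod (p i))) d hd
    (Matrix.ProjectiveSpecialLinearGroup (Fin m) (ZMod q)) J (by
      intro i hi
      obtain ⟨h1, h2⟩ := hJ i hi
      show Nonempty (Matrix.ProjectiveSpecialLinearGroup (Fin (n i)) (ZMod (p i)) ≃*
        Matrix.ProjectiveSpecialLinearGroup (Fin m) (ZMod q))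
      rw [h1, h2]
      exact ⟨MulEquiv.refl _⟩)
  refine h.trans ?_
  rw [pow_mul]
  apply Nat.pow_le_pow_left
  rw [← Nat.card_eq_fintype_card]
  exact card_psl_le m q

/-! ### The small primes -/

theorem small_part (d r p₀ : ℕ) : ∃ B : ℕ, ∀ (ι : Type) [Fintype ι] (n p : ι → ℕ),
    (∀ i, 2 ≤ n i ∧ n i ≤ r ∧ (p i).Prime) →
    (∃ S : Finset (∀ i, Matrix.ProjectiveSpecialLinearGroup (Fin (n i)) (ZMod (p i))),
      S.card ≤ d ∧ Subgroup.closure (S : Set (∀ i,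
        Matrix.ProjectiveSpecialLinearGroup (Fin (n i)) (ZMod (p i)))) = ⊤) →
    FExpd (∀ i : {i // p i < p₀},
      Matrix.ProjectiveSpecialLinearGroup (Fin (n i.1)) (ZMod (p i.1))) B 2 := by
  classical
  refine ⟨(p₀ ^ (r ^ 2)) ^ (p₀ ^ (r ^ 2 * d) * ((r + 1) * p₀)), ?_⟩
  intro ι _ n p hnp hd
  have : ∀ i, Fact (p i).Prime := fun i => ⟨(hnp i).2.2⟩
  -- the number of small indices
  have h1 : (Finset.univ.filter (fun i => p i < p₀)).card ≤
      p₀ ^ (r ^ 2 * d) * ((r + 1) * p₀) := by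
    have := Finset.card_le_mul_card_image_of_maps_to
      (s := Finset.univ.filter (fun i => p i < p₀)) (f := fun i => (n i, p i))
      (t := Finset.range (r + 1) ×ˢ Finset.range p₀) (by
        intro i hi
        have hi' : p i < p₀ := (Finset.mem_filter.mp hi).2
        simp only [Finset.mem_product, Finset.mem_range]
        exact ⟨Nat.lt_succ_of_le (hnp i).2.1, hi'⟩) (p₀ ^ (r ^ 2 * d)) (by
        rintro ⟨m, q⟩ hb
        simp only [Finset.mem_product, Finset.mem_range] at hb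
        by_cases hm : 2 ≤ m
        · refine (psl_mult n p d (fun i => (hnp i).2.2) hd m q hm _ ?_).trans ?_
          · intro i hi
            have := (Finset.mem_filter.mp hi).2
            exact ⟨congrArg Prod.fst this, congrArg Prod.snd this⟩
          · calc q ^ (m ^ 2 * d) ≤ p₀ ^ (m ^ 2 * d) := Nat.pow_le_pow_left hb.2.le _
              _ ≤ p₀ ^ (r ^ 2 * d) := by
                refine Nat.pow_le_pow_right (by omega) (Nat.mul_le_mul_right _ ?_)
                exact Nat.pow_le_pow_left (by omega) 2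
        · rw [Finset.card_eq_zero.mpr]
          · exact Nat.zero_le _
          · rw [Finset.filter_eq_empty_iff]
            intro i _ hi
            have : n i = m := congrArg Prod.fst hi
            have := (hnp i).1
            omega)
    simpa using this
  -- the order of the group
  let inst : Fintype (∀ i : {i // p i < p₀},
      Matrix.ProjectiveSpecialLinearGroup (Fin (n i.1)) (ZMod (p i.1))) := Fintype.ofFinite _
  refine ⟨inst, ?_⟩
  apply expd_card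
  rw [← Nat.card_eq_fintype_card, Nat.card_pi]
  calc ∏ i : {i // p i < p₀}, Nat.card
        (Matrix.ProjectiveSpecialLinearGroup (Fin (n i.1)) (ZMod (p i.1)))
      ≤ ∏ _i : {i // p i < p₀}, p₀ ^ (r ^ 2) := by
        refine Finset.prod_le_prod' fun i _ => ?_
        refine (card_psl_le _ _).trans ?_
        calc p i.1 ^ (n i.1 ^ 2) ≤ p₀ ^ (n i.1 ^ 2) := Nat.pow_le_pow_left i.2.le _
          _ ≤ p₀ ^ (r ^ 2) := by
            have := i.2
            exact Nat.pow_le_pow_right (by omega) (Nat.pow_le_pow_left (hnp i.1).2.1 2)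
    _ = (p₀ ^ (r ^ 2)) ^ (Finset.univ.filter (fun i => p i < p₀)).card := by
        rw [Finset.prod_const, Finset.card_univ, Fintype.card_subtype]
    _ ≤ _ := by
        rcases Nat.eq_zero_or_pos p₀ with h0 | h0
        · subst h0
          simp
        · exact Nat.pow_le_pow_right (pow_pos h0 _) h1

/-! ### The large primes -/

theorem large_part (hfam : ∃ p₀ : ℕ, ∀ e : ℕ, ∃ (k : ℕ) (κ : ℝ), 0 < κ ∧ ∀ (ι : Type) [Fintype ι]
      [DecidableEq ι] (p : ι → ℕ) [∀ i, Fact (p i).Prime],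
      (∀ q : ℕ, (Finset.univ.filter (fun i => p i = q)).card ≤ q ^ e) → (∀ i, p₀ ≤ p i) →
      Expd (∀ i, SL(2, ZMod (p i))) k κ) :
    ∃ p₀ : ℕ, ∀ (d m : ℕ), 2 ≤ m → ∃ (k : ℕ) (κ : ℝ), 0 < κ ∧ ∀ (ι : Type) [Fintype ι]
      (n p : ι → ℕ), (∀ i, (p i).Prime) →
    (∃ S : Finset (∀ i, Matrix.ProjectiveSpecialLinearGroup (Fin (n i)) (ZMod (p i))),
      S.card ≤ d ∧ Subgroup.closure (S : Set (∀ i,
        Matrix.ProjectiveSpecialLinearGroup (Fin (n i)) (ZMod (p i)))) = ⊤) →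
    FExpd (∀ i : {i // p₀ ≤ p i ∧ n i = m},
      Matrix.ProjectiveSpecialLinearGroup (Fin (n i.1)) (ZMod (p i.1))) k κ := by
  classical
  obtain ⟨p₀, h⟩ := hfam
  refine ⟨p₀, fun d m hm => ?_⟩
  obtain ⟨k, κ, hκ, hk⟩ := h (m ^ 2 * d)
  obtain ⟨k', κ', hκ', hk'⟩ := expd_SLn transvec_bound m k hm κ hκ
  refine ⟨k', κ', hκ', ?_⟩
  intro ι _ n p hp hd
  have : ∀ i, Fact (p i).Prime := fun i => ⟨hp i⟩
  have h1 : Expd (∀ i : {i // p₀ ≤ p i ∧ n i = m}, SL(2, ZMod (p i.1))) k κ := by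
    refine hk _ (fun i : {i // p₀ ≤ p i ∧ n i = m} => p i.1) ?_ (fun i => i.2.1)
    intro q
    have h2 := psl_mult n p d hp hd m q hm
      (Finset.univ.filter (fun i => (p₀ ≤ p i ∧ n i = m) ∧ p i = q)) (by
        intro i hi
        have := (Finset.mem_filter.mp hi).2
        exact ⟨this.1.2, this.2⟩)
    refine le_trans (Finset.card_le_card_of_injOn (fun i => i.1) ?_ ?_) h2
    · intro i hi
      have hi' : p i.1 = q := by simpa using hi
      simpa using ⟨i.2, hi'⟩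
    · intro i _ j _ hij
      exact Subtype.ext hij
  have h3 := hk' _ (fun i : {i // p₀ ≤ p i ∧ n i = m} => ZMod (p i.1)) h1
  choose φ hφ using fun i : {i // p₀ ≤ p i ∧ n i = m} => exists_sl_psl m (n i.1) (p i.1) i.2.2
  exact FExpd.surj (piHom φ) (piHom_surj φ hφ) h3.fexpd

/-! ### Assembly -/

theorem main_aux
    (hfam : ∃ p₀ : ℕ, ∀ e : ℕ, ∃ (k : ℕ) (κ : ℝ), 0 < κ ∧ ∀ (ι : Type) [Fintype ι]
      [DecidableEq ι] (p : ι → ℕ) [∀ i, Fact (p i).Prime],
      (∀ q : ℕ, (Finset.univ.filter (fun i => p i = q)).card ≤ q ^ e) → (∀ i, p₀ ≤ p i) →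
      Expd (∀ i, SL(2, ZMod (p i))) k κ)
    (d r : ℕ) :
    ∃ (k : ℕ) (κ : ℝ), 0 < κ ∧ ∀ (ι : Type) [Fintype ι] (n p : ι → ℕ),
      (∀ i, 2 ≤ n i ∧ n i ≤ r ∧ (p i).Prime) →
      (∃ S : Finset (∀ i, Matrix.ProjectiveSpecialLinearGroup (Fin (n i)) (ZMod (p i))),
      S.card ≤ d ∧ Subgroup.closure (S : Set (∀ i,
        Matrix.ProjectiveSpecialLinearGroup (Fin (n i)) (ZMod (p i)))) = ⊤) →
      FExpd (∀ i, Matrix.ProjectiveSpecialLinearGroup (Fin (n i)) (ZMod (p i))) k κ := by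
  classical
  obtain ⟨p₀, hlarge⟩ := large_part hfam
  have key : ∀ M : ℕ, ∃ (k : ℕ) (κ : ℝ), 0 < κ ∧ ∀ (ι : Type) [Fintype ι] (n p : ι → ℕ),
      (∀ i, 2 ≤ n i ∧ n i ≤ r ∧ (p i).Prime) →
      (∃ S : Finset (∀ i, Matrix.ProjectiveSpecialLinearGroup (Fin (n i)) (ZMod (p i))),
      S.card ≤ d ∧ Subgroup.closure (S : Set (∀ i,
        Matrix.ProjectiveSpecialLinearGroup (Fin (n i)) (ZMod (p i)))) = ⊤) →
      FExpd (∀ i : {i // p i < p₀ ∨ n i ≤ M + 1},
        Matrix.ProjectiveSpecialLinearGroup (Fin (n i.1)) (ZMod (p i.1))) k κ := by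
    intro M
    induction M with
    | zero =>
      obtain ⟨B, hB⟩ := small_part d r p₀
      refine ⟨B, 2, by norm_num, ?_⟩
      intro ι _ n p hnp hd
      exact FExpd.surj (restr (fun i => Matrix.ProjectiveSpecialLinearGroup (Fin (n i))
        (ZMod (p i))) (fun i => p i < p₀ ∨ n i ≤ 0 + 1) (fun i => p i < p₀) (by
          intro i hi
          have := (hnp i).1
          rcases hi with hi | hi
          · exact hi
          · omega)) (restr_surj _ _ _ _) (hB ι n p hnp hd)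
    | succ M ih =>
      obtain ⟨k₁, κ₁, hκ₁, h₁⟩ := ih
      obtain ⟨k₂, κ₂, hκ₂, h₂⟩ := hlarge d (M + 2) (by omega)
      refine ⟨k₁ + k₂, min κ₁ κ₂, lt_min hκ₁ hκ₂, ?_⟩
      intro ι _ n p hnp hd
      have h3 := FExpd.union (fun i => Matrix.ProjectiveSpecialLinearGroup (Fin (n i))
        (ZMod (p i))) (fun i => p i < p₀ ∨ n i ≤ M + 1) (fun i => p₀ ≤ p i ∧ n i = M + 2)
        (lt_min hκ₁ hκ₂).le ((h₁ ι n p hnp hd).mono le_rfl (min_le_left _ _))
        ((h₂ ι n p (fun i => (hnp i).2.2) hd).mono le_rfl (min_le_right _ _))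
      exact FExpd.surj (restr (fun i => Matrix.ProjectiveSpecialLinearGroup (Fin (n i))
        (ZMod (p i))) (fun i => p i < p₀ ∨ n i ≤ M + 1 + 1)
        (fun i => (p i < p₀ ∨ n i ≤ M + 1) ∨ (p₀ ≤ p i ∧ n i = M + 2)) (by
          intro i hi
          omega)) (restr_surj _ _ _ _) h3
  obtain ⟨k, κ, hκ, h⟩ := key r
  refine ⟨k, κ, hκ, ?_⟩
  intro ι _ n p hnp hd
  have hall : ∀ i, p i < p₀ ∨ n i ≤ r + 1 := fun i => Or.inr ((hnp i).2.1.trans (Nat.le_succ r))
  let ψ : (∀ i : {i // p i < p₀ ∨ n i ≤ r + 1},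
        Matrix.ProjectiveSpecialLinearGroup (Fin (n i.1)) (ZMod (p i.1))) →*
      (∀ i, Matrix.ProjectiveSpecialLinearGroup (Fin (n i)) (ZMod (p i))) :=
    { toFun := fun z i => z ⟨i, hall i⟩
      map_one' := rfl
      map_mul' := fun _ _ => rfl }
  exact FExpd.surj ψ (fun z => ⟨fun i => z i.1, rfl⟩) (h ι n p hnp hd)

/-- FINAL. -/
theorem main
    (hfam : ∃ p₀ : ℕ, ∀ e : ℕ, ∃ (k : ℕ) (κ : ℝ), 0 < κ ∧ ∀ (ι : Type) [Fintype ι]
      [DecidableEq ι] (p : ι → ℕ) [∀ i, Fact (p i).Prime],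
      (∀ q : ℕ, (Finset.univ.filter (fun i => p i = q)).card ≤ q ^ e) → (∀ i, p₀ ≤ p i) →
      Expd (∀ i, SL(2, ZMod (p i))) k κ)
    (d r : ℕ) :
    ∃ (k : ℕ) (ε : ℝ), 0 < ε ∧ ∀ (G : Type) [Group G] [Fintype G] [DecidableEq G]
      (ι : Type) [Fintype ι] (n p : ι → ℕ),
      (∀ i, 2 ≤ n i ∧ n i ≤ r ∧ (p i).Prime) →
      Nonempty (G ≃* (∀ i, Matrix.ProjectiveSpecialLinearGroup (Fin (n i)) (ZMod (p i)))) →
      (∃ S : Finset G, S.card ≤ d ∧ Subgroup.closure (S : Set G) = ⊤) →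
      ∃ S : Finset G, S.card ≤ k ∧ Subgroup.closure (S : Set G) = ⊤ ∧
        ∀ A : Finset G, 2 * A.card ≤ Fintype.card G →
          (1 + ε) * (A.card : ℝ) ≤ ((A ∪ S * A).card : ℝ) := by
  classical
  obtain ⟨k, κ, hκ, h⟩ := main_aux hfam d r
  refine ⟨k, κ / (4 * (k + 1)), by positivity, ?_⟩
  rintro G _ _ _ ι _ n p hnp ⟨φ⟩ ⟨S, hS, hS'⟩
  have hd : ∃ S : Finset (∀ i, Matrix.ProjectiveSpecialLinearGroup (Fin (n i)) (ZMod (p i))),
      S.card ≤ d ∧ Subgroup.closure (S : Set (∀ i,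
        Matrix.ProjectiveSpecialLinearGroup (Fin (n i)) (ZMod (p i)))) = ⊤ := by
    refine ⟨S.image φ, Finset.card_image_le.trans hS, ?_⟩
    rw [Finset.coe_image]
    have : (φ : G → _) = (φ.toMonoidHom : G → _) := rfl
    rw [this, ← MonoidHom.map_closure, hS']
    exact Subgroup.map_top_of_surjective _ φ.surjective
  have h1 := FExpd.surj φ.symm.toMonoidHom φ.symm.surjective (h ι n p hnp hd)
  exact expd_vertex hκ h1.expd

end Pool.Agent.MPfe8e9b
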