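import Mathlib
import Pool.Agent.Lib.MP_fe8e9b_al.Div
import Pool.Agent.Lib.MP_fe8e9b_al.Count

/-!
# MP_fe8e9b_al: divisor bound in `F[X]`
-/

open scoped BigOperators MatrixGroups
open Polynomial UniqueFactorizationMonoid

namespace Pool.Agent.MPfe8e9b

namespace DivEps

theorem natDegree_eq {F : Type} [Field F] [DecidableEq F] (N : F[X]) (hN : N ≠ 0) :
    N.natDegree = ∑ p ∈ (normalizedFactors N).toFinset,
      (normalizedFactors N).count p * p.natDegree := by
  have h1 := leadingCoeff_mul_prod_normalizedFactors N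
  have h2 : N.natDegree = (normalizedFactors N).prod.natDegree := by
    conv_lhs => rw [← h1]
    rw [natDegree_C_mul (leadingCoeff_ne_zero.2 hN)]
  rw [h2, natDegree_multiset_prod _ (zero_notMem_normalizedFactors N),
    Finset.sum_multiset_map_count]
  simp

theorem two_pow (e : ℕ) : (e : ℝ) + 1 ≤ 2 ^ e := by
  have h : e + 1 ≤ 2 ^ e := Nat.lt_two_pow_self
  exact_mod_cast h

end DivEps

open DivEps CountAux in
/-- DIVEPS. -/
theorem div_count_eps (F : Type) [Field F] [Fintype F] [DecidableEq F] (ε : ℝ) (hε : 0 < ε) :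
    ∃ C : ℝ, 1 ≤ C ∧ ∀ N : F[X], N ≠ 0 → ∀ T : Finset (F[X] × F[X]),
      (∀ x ∈ T, x.1 * x.2 = N) →
      (T.card : ℝ) ≤ C * (Fintype.card F : ℝ) ^ (ε * (N.natDegree : ℝ)) := by
  classical
  set q : ℝ := (Fintype.card F : ℝ) with hq
  have hq1 : 1 < q := by
    rw [hq]
    exact_mod_cast Fintype.one_lt_card
  have hq0 : 0 < q := by linarith
  set b : ℝ := q ^ ε with hb
  have hb1 : 1 < b := Real.one_lt_rpow hq1 hε
  -- a degree from which the bound is trivial
  obtain ⟨D₀, hD₀⟩ : ∃ D₀ : ℕ, 2 < b ^ D₀ := pow_unbounded_of_one_lt 2 hb1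
  set C₁ : ℝ := max 1 (b - 1)⁻¹ with hC₁
  have hC₁1 : 1 ≤ C₁ := le_max_left _ _
  have hC₁b : 1 ≤ C₁ * (b - 1) := by
    have h1 : (b - 1)⁻¹ * (b - 1) = 1 := inv_mul_cancel₀ (by linarith)
    have h2 : (b - 1)⁻¹ * (b - 1) ≤ C₁ * (b - 1) :=
      mul_le_mul_of_nonneg_right (le_max_right _ _) (by linarith)
    linarith
  have hsmall : ∀ e : ℕ, (e : ℝ) + 1 ≤ C₁ * b ^ e := by
    intro e
    have h1 : 1 + (e : ℝ) * (b - 1) ≤ b ^ e := by
      have := one_add_mul_le_pow (a := b - 1) (by linarith) e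
      simpa using this
    have h2 : C₁ * (1 + (e : ℝ) * (b - 1)) ≤ C₁ * b ^ e :=
      mul_le_mul_of_nonneg_left h1 (by linarith)
    have h3 : (e : ℝ) * 1 ≤ e * (C₁ * (b - 1)) :=
      mul_le_mul_of_nonneg_left hC₁b (Nat.cast_nonneg e)
    nlinarith
  refine ⟨q * C₁ ^ (Fintype.card F ^ D₀), ?_, ?_⟩
  · have h1 : (1 : ℝ) ≤ C₁ ^ (Fintype.card F ^ D₀) := one_le_pow₀ hC₁1
    nlinarith
  intro N hN T hT
  set s := normalizedFactors N with hs
  -- the map to the sub-multisets
  have h1 : T.card ≤ ((Finset.univ : Finset F) ×ˢ Finset.Iic s).card := by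
    refine Finset.card_le_card_of_injOn
      (fun x => (x.1.leadingCoeff, normalizedFactors x.1)) ?_ ?_
    · intro x hx
      have h2 := hT x hx
      have h3 : x.1 ≠ 0 := fun h => hN (by rw [← h2, h, zero_mul])
      refine Finset.mem_coe.2 (Finset.mem_product.2 ⟨Finset.mem_univ _, ?_⟩)
      rw [Finset.mem_Iic]
      exact (dvd_iff_normalizedFactors_le_normalizedFactors h3 hN).1 ⟨x.2, h2.symm⟩
    · intro x hx y hy he
      have h2 := hT x hx
      have h3 := hT y hy
      obtain ⟨e1, e2⟩ := Prod.mk.inj he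
      have h4 : x.1 = y.1 := by
        rw [← leadingCoeff_mul_prod_normalizedFactors x.1, e1, e2,
          leadingCoeff_mul_prod_normalizedFactors y.1]
      have h5 : x.1 ≠ 0 := fun h => hN (by rw [← h2, h, zero_mul])
      have h6 : x.1 * x.2 = x.1 * y.2 := by rw [h2, h4, h3]
      exact Prod.ext h4 (mul_left_cancel₀ h5 h6)
  rw [Finset.card_product, Finset.card_univ, Multiset.card_Iic] at h1
  have h2 : (T.card : ℝ) ≤ q * ∏ p ∈ s.toFinset, ((s.count p : ℝ) + 1) := by
    rw [hq]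
    exact_mod_cast h1
  -- the bound for one factor
  have h3 : ∀ p ∈ s.toFinset, ((s.count p : ℝ) + 1) ≤
      (if p.natDegree < D₀ then C₁ else 1) * b ^ (s.count p * p.natDegree) := by
    intro p hp
    have hp' : p ∈ s := Multiset.mem_toFinset.mp hp
    have hdeg : 1 ≤ p.natDegree := (irreducible_of_normalized_factor p hp').natDegree_pos
    split_ifs with hlt
    · refine (hsmall _).trans (mul_le_mul_of_nonneg_left ?_ (by linarith))
      refine pow_le_pow_right₀ hb1.le ?_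
      exact Nat.le_mul_of_pos_right _ hdeg
    · rw [one_mul]
      refine (two_pow _).trans ?_
      rw [mul_comm, pow_mul]
      refine pow_le_pow_left₀ (by norm_num) ?_ _
      refine hD₀.le.trans (pow_le_pow_right₀ hb1.le (not_lt.mp hlt))
  have h4 : ∏ p ∈ s.toFinset, ((s.count p : ℝ) + 1) ≤
      ∏ p ∈ s.toFinset, ((if p.natDegree < D₀ then C₁ else 1) *
        b ^ (s.count p * p.natDegree)) :=
    Finset.prod_le_prod (fun p _ => by positivity) h3
  rw [Finset.prod_mul_distrib, Finset.prod_pow_eq_pow_sum, ← natDegree_eq N hN,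
    Finset.prod_ite, Finset.prod_const, Finset.prod_const_one, mul_one] at h4
  have h5 : (s.toFinset.filter (fun p => p.natDegree < D₀)).card ≤ Fintype.card F ^ D₀ := by
    refine deg_count _ D₀ ?_
    intro p hp
    obtain ⟨hp1, hp2⟩ := Finset.mem_filter.mp hp
    have hp' : p ∈ s := Multiset.mem_toFinset.mp hp1
    have hp0 : p ≠ 0 := (irreducible_of_normalized_factor p hp').ne_zero
    rw [degree_eq_natDegree hp0]
    exact_mod_cast hp2
  have h6 : C₁ ^ (s.toFinset.filter (fun p => p.natDegree < D₀)).card ≤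
      C₁ ^ (Fintype.card F ^ D₀) := pow_le_pow_right₀ hC₁1 h5
  have h7 : b ^ N.natDegree = q ^ (ε * (N.natDegree : ℝ)) := by
    rw [hb, ← Real.rpow_natCast, ← Real.rpow_mul hq0.le]
  rw [← h7]
  have hb0 : 0 ≤ b ^ N.natDegree := by positivity
  calc (T.card : ℝ) ≤ q * ∏ p ∈ s.toFinset, ((s.count p : ℝ) + 1) := h2
    _ ≤ q * (C₁ ^ (s.toFinset.filter (fun p => p.natDegree < D₀)).card * b ^ N.natDegree) :=
        mul_le_mul_of_nonneg_left h4 hq0.le
    _ ≤ q * (C₁ ^ (Fintype.card F ^ D₀) * b ^ N.natDegree) :=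
        mul_le_mul_of_nonneg_left (mul_le_mul_of_nonneg_right h6 hb0) hq0.le
    _ = q * C₁ ^ (Fintype.card F ^ D₀) * b ^ N.natDegree := by ring

end Pool.Agent.MPfe8e9b
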