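import Mathlib
import Pool.Agent.Lib.MP_fe8e9b_al.Defs

/-!
# MP_fe8e9b_al: spheres in `SL(2, F[X])`
-/

open scoped BigOperators MatrixGroups Pointwise

namespace Pool.Agent.MPfe8e9b

open Polynomial

theorem natDegree_le_dg {F : Type} [Field F] (γ : SL(2, F[X])) (i j : Fin 2) :
    (γ.1 i j).natDegree ≤ dg γ :=
  Finset.le_sup (f := fun ij : Fin 2 × Fin 2 => (γ.1 ij.1 ij.2).natDegree)
    (Finset.mem_univ (i, j))

theorem dg_le_of {F : Type} [Field F] {γ : SL(2, F[X])} {n : ℕ}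
    (h : ∀ i j, (γ.1 i j).natDegree ≤ n) : dg γ ≤ n :=
  Finset.sup_le fun ij _ => h ij.1 ij.2

theorem dg_one (F : Type) [Field F] : dg (1 : SL(2, F[X])) = 0 := by
  refine Nat.le_zero.mp (dg_le_of fun i j => ?_)
  fin_cases i <;> fin_cases j <;> simp

/-- SPH. -/
theorem sph_exists (F : Type) [Field F] [Fintype F] [DecidableEq F] (R : ℕ) :
    ∃ T : Finset SL(2, F[X]), ∀ γ, γ ∈ T ↔ dg γ = R := by
  classical
  have hfin : Set.Finite {γ : SL(2, F[X]) | dg γ = R} := by
    rw [← Set.finite_coe_iff]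
    let f : {γ : SL(2, F[X]) | dg γ = R} → (Fin 2 → Fin 2 → Fin (R + 1) → F) :=
      fun γ i j n => (γ.1.1 i j).coeff n
    refine Finite.of_injective f ?_
    intro γ γ' h
    apply Subtype.ext
    apply Subtype.ext
    ext i j n
    by_cases hn : n < R + 1
    · exact congrFun (congrFun (congrFun h i) j) ⟨n, hn⟩
    · have h1 : dg γ.1 = R := γ.2
      have h2 : dg γ'.1 = R := γ'.2
      rw [coeff_eq_zero_of_natDegree_lt, coeff_eq_zero_of_natDegree_lt]
      · have := natDegree_le_dg γ'.1 i j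
        omega
      · have := natDegree_le_dg γ.1 i j
        omega
  exact ⟨hfin.toFinset, fun γ => by simp⟩

theorem dg_inv_le {F : Type} [Field F] (γ : SL(2, F[X])) : dg γ⁻¹ ≤ dg γ := by
  refine dg_le_of fun i j => ?_
  rw [Matrix.SpecialLinearGroup.SL2_inv_expl]
  fin_cases i <;> fin_cases j
  · exact natDegree_le_dg γ 1 1
  · show (-γ.1 0 1).natDegree ≤ _
    rw [natDegree_neg]
    exact natDegree_le_dg γ 0 1
  · show (-γ.1 1 0).natDegree ≤ _
    rw [natDegree_neg]
    exact natDegree_le_dg γ 1 0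
  · exact natDegree_le_dg γ 0 0

theorem dg_inv {F : Type} [Field F] (γ : SL(2, F[X])) : dg γ⁻¹ = dg γ := by
  refine le_antisymm (dg_inv_le γ) ?_
  have := dg_inv_le γ⁻¹
  rwa [inv_inv] at this

theorem dg_mul_le {F : Type} [Field F] (γ η : SL(2, F[X])) : dg (γ * η) ≤ dg γ + dg η := by
  refine dg_le_of fun i j => ?_
  rw [Matrix.SpecialLinearGroup.coe_mul, Matrix.mul_apply, Fin.sum_univ_two]
  refine (natDegree_add_le _ _).trans (max_le ?_ ?_)
  · exact natDegree_mul_le.trans (Nat.add_le_add (natDegree_le_dg γ i 0) (natDegree_le_dg η 0 j))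
  · exact natDegree_mul_le.trans (Nat.add_le_add (natDegree_le_dg γ i 1) (natDegree_le_dg η 1 j))

end Pool.Agent.MPfe8e9b
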