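import Mathlib
import Pool.Agent.Lib.MP_fe8e9b_al.Sph

/-!
# MP_fe8e9b_al: lower bound for the size of spheres
-/

open scoped BigOperators MatrixGroups Pointwise

namespace Pool.Agent.MPfe8e9b

open Polynomial

namespace SphCard

section

variable (F : Type) [Field F] [Fintype F] [DecidableEq F]

open Classical in
/-- Polynomials of degree less than `n`. -/
noncomputable def low (n : ℕ) : Finset F[X] :=
  Finset.univ.image (fun a : Fin n → F => ((degreeLTEquiv F n).symm a : F[X]))

open Classical in
/-- Monic polynomials of degree `n`. -/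
noncomputable def mon (n : ℕ) : Finset F[X] :=
  (low F n).image (fun p => X ^ n + p)

variable {F}

theorem mem_low {n : ℕ} {p : F[X]} : p ∈ low F n ↔ p.degree < n := by
  classical
  constructor
  · intro h
    obtain ⟨a, -, rfl⟩ := Finset.mem_image.mp h
    exact mem_degreeLT.mp ((degreeLTEquiv F n).symm a).2
  · intro h
    refine Finset.mem_image.mpr ⟨degreeLTEquiv F n ⟨p, mem_degreeLT.mpr h⟩,
      Finset.mem_univ _, ?_⟩
    rw [LinearEquiv.symm_apply_apply]

theorem card_low (n : ℕ) : (low F n).card = Fintype.card F ^ n := by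
  classical
  rw [low, Finset.card_image_of_injective, Finset.card_univ, Fintype.card_fun, Fintype.card_fin]
  intro a b hab
  exact (degreeLTEquiv F n).symm.injective (Subtype.ext hab)

theorem mem_mon {n : ℕ} {p : F[X]} : p ∈ mon F n ↔ p.Monic ∧ p.natDegree = n := by
  classical
  constructor
  · intro h
    obtain ⟨a, ha, rfl⟩ := Finset.mem_image.mp h
    have h1 : a.degree < n := mem_low.mp ha
    exact ⟨monic_X_pow_add h1, by
      have h2 : a.degree < (X ^ n : F[X]).degree := by rwa [degree_X_pow]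
      rw [natDegree_add_eq_left_of_degree_lt h2, natDegree_X_pow]⟩
  · rintro ⟨h1, h2⟩
    refine Finset.mem_image.mpr ⟨p - X ^ n, ?_, by ring⟩
    rw [mem_low]
    have h3 : p.degree = n := by rw [degree_eq_natDegree h1.ne_zero, h2]
    have h4 : (p - X ^ n).degree < p.degree := by
      refine degree_sub_lt_left ?_ h1.ne_zero ?_
      · rw [h3, degree_X_pow]
      · rw [h1.leadingCoeff, leadingCoeff_X_pow]
    rwa [h3] at h4

theorem card_mon (n : ℕ) : (mon F n).card = Fintype.card F ^ n := by
  classical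
  rw [mon, Finset.card_image_of_injective _ (add_right_injective _), card_low]

variable (F)

open Classical in
/-- Coprime pairs. -/
noncomputable def cp (n : ℕ) : Finset (F[X] × F[X]) :=
  (mon F n ×ˢ low F n).filter (fun x => IsCoprime x.1 x.2)

variable {F}

theorem card_cp_le (n : ℕ) : (cp F n).card ≤ Fintype.card F ^ (2 * n) := by
  classical
  refine (Finset.card_filter_le _ _).trans ?_
  rw [Finset.card_product, card_mon, card_low, ← pow_add, two_mul]

omit [Fintype F] in
/-- Division by the monic greatest common divisor. -/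
theorem exists_gcd (a c : F[X]) (ha : a ≠ 0) : ∃ g a' c' : F[X], g.Monic ∧ a = g * a' ∧
    c = g * c' ∧ IsCoprime a' c' := by
  classical
  set g := EuclideanDomain.gcd a c with hg
  have hg0 : g ≠ 0 := by
    intro h
    exact ha (EuclideanDomain.gcd_eq_zero_iff.mp h).1
  obtain ⟨a₁, ha₁⟩ := EuclideanDomain.gcd_dvd_left a c
  obtain ⟨c₁, hc₁⟩ := EuclideanDomain.gcd_dvd_right a c
  have hbez := EuclideanDomain.gcd_eq_gcd_ab a c
  rw [← hg] at ha₁ hc₁ hbez
  have hu : g.leadingCoeff ≠ 0 := leadingCoeff_ne_zero.mpr hg0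
  have hCC : (C g.leadingCoeff⁻¹ : F[X]) * C g.leadingCoeff = 1 := by
    rw [← C_mul, inv_mul_cancel₀ hu, C_1]
  refine ⟨g * C g.leadingCoeff⁻¹, C g.leadingCoeff * a₁, C g.leadingCoeff * c₁,
    monic_mul_leadingCoeff_inv hg0, ?_, ?_, ?_⟩
  · calc a = g * a₁ := ha₁
      _ = g * (C g.leadingCoeff⁻¹ * C g.leadingCoeff) * a₁ := by rw [hCC, mul_one]
      _ = _ := by ring
  · calc c = g * c₁ := hc₁
      _ = g * (C g.leadingCoeff⁻¹ * C g.leadingCoeff) * c₁ := by rw [hCC, mul_one]
      _ = _ := by ring
  · refine ⟨C g.leadingCoeff⁻¹ * EuclideanDomain.gcdA a c,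
      C g.leadingCoeff⁻¹ * EuclideanDomain.gcdB a c, ?_⟩
    have h1 : g * (a₁ * EuclideanDomain.gcdA a c + c₁ * EuclideanDomain.gcdB a c) = g * 1 := by
      rw [mul_one]
      conv_rhs => rw [hbez]
      linear_combination (-EuclideanDomain.gcdA a c) * ha₁ - (EuclideanDomain.gcdB a c) * hc₁
    have h2 := mul_left_cancel₀ hg0 h1
    linear_combination h2 + (a₁ * EuclideanDomain.gcdA a c +
      c₁ * EuclideanDomain.gcdB a c) * hCC

/-- All pairs are multiples of coprime pairs. -/
theorem cover (n : ℕ) : Fintype.card F ^ (2 * n) ≤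
    ∑ k ∈ Finset.range (n + 1), Fintype.card F ^ k * (cp F (n - k)).card := by
  classical
  have h1 : mon F n ×ˢ low F n ⊆ (Finset.range (n + 1)).biUnion (fun k =>
      (mon F k ×ˢ cp F (n - k)).image (fun x => (x.1 * x.2.1, x.1 * x.2.2))) := by
    rintro ⟨a, c⟩ h
    obtain ⟨ha, hc⟩ := Finset.mem_product.mp h
    obtain ⟨ham, had⟩ := mem_mon.mp ha
    have hcd := mem_low.mp hc
    simp only at ham had hcd
    obtain ⟨g, a', c', hg, hga, hgc, hco⟩ := exists_gcd a c ham.ne_zero
    have ha'm : a'.Monic := by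
      rw [hga] at ham
      exact hg.of_mul_monic_left ham
    have hdeg : g.natDegree + a'.natDegree = n := by
      rw [← hg.natDegree_mul ha'm, ← hga, had]
    have ha'd : a'.natDegree = n - g.natDegree := by omega
    have hc'd : c'.degree < ((n - g.natDegree : ℕ) : WithBot ℕ) := by
      by_cases hc0 : c' = 0
      · rw [hc0, degree_zero]
        exact WithBot.bot_lt_coe _
      · have h2 : c ≠ 0 := by
          rw [hgc]
          exact mul_ne_zero hg.ne_zero hc0
        rw [degree_eq_natDegree h2] at hcd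
        have h3 : c.natDegree < n := by exact_mod_cast hcd
        rw [hgc, natDegree_mul hg.ne_zero hc0] at h3
        rw [degree_eq_natDegree hc0]
        exact_mod_cast (by omega : c'.natDegree < n - g.natDegree)
    refine Finset.mem_biUnion.mpr ⟨g.natDegree, Finset.mem_range.mpr (by omega), ?_⟩
    refine Finset.mem_image.mpr ⟨(g, (a', c')), ?_, ?_⟩
    · refine Finset.mem_product.mpr ⟨mem_mon.mpr ⟨hg, rfl⟩, ?_⟩
      refine Finset.mem_filter.mpr ⟨Finset.mem_product.mpr ⟨mem_mon.mpr ⟨ha'm, ha'd⟩,
        mem_low.mpr hc'd⟩, hco⟩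
    · simp only
      rw [← hga, ← hgc]
  have h2 := (Finset.card_le_card h1).trans Finset.card_biUnion_le
  rw [Finset.card_product, card_mon, card_low, ← pow_add, ← two_mul] at h2
  refine h2.trans (Finset.sum_le_sum fun k _ => ?_)
  refine Finset.card_image_le.trans ?_
  rw [Finset.card_product, card_mon]

/-- Coprime pairs are columns of matrices. -/
theorem cp_le (n : ℕ) (T : Finset SL(2, F[X])) (hT : ∀ γ, γ ∈ T ↔ dg γ = n) :
    (cp F n).card ≤ T.card := by
  classical
  have h1 : cp F n ⊆ T.image (fun γ => (γ.1 0 0, γ.1 1 0)) := by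
    rintro ⟨a, c⟩ h
    obtain ⟨h2, hco⟩ := Finset.mem_filter.mp h
    obtain ⟨ha, hc⟩ := Finset.mem_product.mp h2
    obtain ⟨ham, had⟩ := mem_mon.mp ha
    have hcd := mem_low.mp hc
    simp only at ham had hcd hco
    obtain ⟨x, y, hxy⟩ := hco
    set t := (-y) / a with ht
    set b := (-y) % a with hb
    have htb : a * t + b = -y := EuclideanDomain.div_add_mod _ _
    have hbd : b.natDegree ≤ n := by
      rw [← had]
      exact natDegree_le_natDegree (degree_mod_lt _ ham.ne_zero).le
    have hcn : c.natDegree ≤ n := by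
      by_cases hc0 : c = 0
      · rw [hc0, natDegree_zero]
        exact Nat.zero_le _
      · rw [degree_eq_natDegree hc0] at hcd
        have : c.natDegree < n := by exact_mod_cast hcd
        omega
    have hdet : a * (x - t * c) - b * c = 1 := by
      linear_combination hxy - c * htb
    have hdd : (x - t * c).natDegree ≤ n := by
      by_cases hd0 : x - t * c = 0
      · rw [hd0, natDegree_zero]
        exact Nat.zero_le _
      · have h3 : a * (x - t * c) = 1 + b * c := by linear_combination hdet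
        have h4 : (a * (x - t * c)).natDegree = n + (x - t * c).natDegree := by
          rw [natDegree_mul ham.ne_zero hd0, had]
        have h5 : (1 + b * c).natDegree ≤ n + n := by
          refine (natDegree_add_le _ _).trans (max_le ?_ ?_)
          · rw [natDegree_one]
            exact Nat.zero_le _
          · exact natDegree_mul_le.trans (Nat.add_le_add hbd hcn)
        rw [← h3, h4] at h5
        omega
    let γ : SL(2, F[X]) := ⟨!![a, b; c, x - t * c], by
      rw [Matrix.det_fin_two_of]
      exact hdet⟩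
    have hγ : dg γ = n := by
      refine le_antisymm (dg_le_of fun i j => ?_) ?_
      · fin_cases i <;> fin_cases j
        · exact had.le
        · exact hbd
        · exact hcn
        · exact hdd
      · rw [← had]
        exact natDegree_le_dg γ 0 0
    exact Finset.mem_image.mpr ⟨γ, (hT γ).mpr hγ, rfl⟩
  exact (Finset.card_le_card h1).trans Finset.card_image_le

end

end SphCard

open SphCard

/-- SPHCARD. -/
theorem sph_card (F : Type) [Field F] [Fintype F] [DecidableEq F] (R₀ : ℕ) :
    ∃ R : ℕ, R₀ ≤ R ∧ ∀ T : Finset SL(2, F[X]), (∀ γ, γ ∈ T ↔ dg γ = R) →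
      Fintype.card F ^ (2 * R) ≤ (2 * R + 2) * T.card := by
  classical
  set q := Fintype.card F with hq
  have hq2 : 2 ≤ q := Fintype.one_lt_card
  have hqpos : 0 < q := by omega
  obtain ⟨n, hn⟩ : ∃ n, n = 2 * R₀ + 6 := ⟨_, rfl⟩
  have hcov := cover (F := F) n
  rw [← hq] at hcov
  -- pigeonhole
  obtain ⟨k, hk, hkq⟩ : ∃ k ∈ Finset.range (n + 1),
      q ^ (2 * n) ≤ (n + 1) * (q ^ k * (cp F (n - k)).card) := by
    by_contra hcon
    push Not at hcon
    have h1 : ∑ k ∈ Finset.range (n + 1), (n + 1) * (q ^ k * (cp F (n - k)).card) <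
        ∑ _k ∈ Finset.range (n + 1), q ^ (2 * n) :=
      Finset.sum_lt_sum_of_nonempty ⟨0, Finset.mem_range.mpr (Nat.succ_pos n)⟩ hcon
    rw [← Finset.mul_sum, Finset.sum_const, Finset.card_range, smul_eq_mul] at h1
    exact absurd (Nat.mul_le_mul_left (n + 1) hcov) (not_le.mpr h1)
  have hkn : k ≤ n := Nat.lt_succ_iff.mp (Finset.mem_range.mp hk)
  have hN := card_cp_le (F := F) (n - k)
  rw [← hq] at hN
  have h1 : q ^ k ≤ n + 1 := by
    have h2 : q ^ (2 * n) ≤ (n + 1) * (q ^ k * q ^ (2 * (n - k))) :=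
      hkq.trans (Nat.mul_le_mul_left _ (Nat.mul_le_mul_left _ hN))
    have h3 : q ^ k * q ^ (2 * n) = q ^ k * (q ^ k * (q ^ k * q ^ (2 * (n - k)))) := by
      rw [← pow_add, ← pow_add, ← pow_add, ← pow_add]
      congr 1
      omega
    have h4 : q ^ (2 * n) = q ^ k * (q ^ k * q ^ (2 * (n - k))) := by
      rw [← pow_add, ← pow_add]
      congr 1
      omega
    have h5 : q ^ k * (q ^ k * q ^ (2 * (n - k))) ≤ (n + 1) * (q ^ k * q ^ (2 * (n - k))) := by
      rw [← h4]
      exact h2
    exact Nat.le_of_mul_le_mul_right h5 (by positivity)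
  have h2 : 2 ^ k ≤ n + 1 := (Nat.pow_le_pow_left hq2 k).trans h1
  have h3 : 2 * k ≤ n + 1 := by
    by_contra hcon
    push Not at hcon
    obtain ⟨k', rfl⟩ : ∃ k', k = k' + 1 := ⟨k - 1, by omega⟩
    have h4 : k' < 2 ^ k' := Nat.lt_two_pow_self
    rw [pow_succ] at h2
    omega
  refine ⟨n - k, by omega, ?_⟩
  intro T hT
  have h4 := cp_le (n - k) T hT
  have h5 : q ^ (2 * (n - k)) * q ^ k ≤ (n + 1) * (cp F (n - k)).card * q ^ k := by
    calc q ^ (2 * (n - k)) * q ^ k ≤ q ^ (2 * n) := by
          rw [← pow_add]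
          exact Nat.pow_le_pow_right hqpos (by omega)
      _ ≤ (n + 1) * (q ^ k * (cp F (n - k)).card) := hkq
      _ = (n + 1) * (cp F (n - k)).card * q ^ k := by ring
  have h6 : q ^ (2 * (n - k)) ≤ (n + 1) * (cp F (n - k)).card :=
    Nat.le_of_mul_le_mul_right h5 (by positivity)
  calc q ^ (2 * (n - k)) ≤ (n + 1) * (cp F (n - k)).card := h6
    _ ≤ (2 * (n - k) + 2) * T.card := Nat.mul_le_mul (by omega) h4

end Pool.Agent.MPfe8e9b
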