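import Mathlib
import Pool.Agent.Lib.MP_fe8e9b_al.Ball
import Pool.Agent.Lib.MP_fe8e9b_al.Sph

/-!
# MP_fe8e9b_al: one step of the sphere walk
-/

open scoped BigOperators MatrixGroups Pointwise

namespace Pool.Agent.MPfe8e9b

open Polynomial

namespace Step

theorem col_eq {F : Type} [Field F] (s s' : Fin 2) (hs : s ≠ s') (η η' : SL(2, F[X]))
    (h : ∀ a, η.1 a s = η'.1 a s) : ∃ α : F[X], ∀ a, η'.1 a s' - η.1 a s' = α * η.1 a s := by
  have hd := Walk.det_eq η
  have hd' := Walk.det_eq η'
  fin_cases s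
  · have : s' = 1 := by
      fin_cases s'
      · exact absurd rfl hs
      · rfl
    subst this
    simp only [Fin.zero_eta, Fin.isValue] at h ⊢
    have h0 := h 0
    have h1 := h 1
    rw [← h0, ← h1] at hd'
    refine ⟨η'.1 0 1 * η.1 1 1 - η'.1 1 1 * η.1 0 1, fun a => ?_⟩
    fin_cases a
    · simp only [Fin.zero_eta, Fin.isValue]
      linear_combination (-η'.1 0 1) * hd + (η.1 0 1) * hd'
    · simp only [Fin.mk_one, Fin.isValue]
      linear_combination (-η'.1 1 1) * hd + (η.1 1 1) * hd'
  · have : s' = 0 := by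
      fin_cases s'
      · rfl
      · exact absurd rfl hs
    subst this
    simp only [Fin.mk_one, Fin.isValue] at h ⊢
    have h0 := h 0
    have h1 := h 1
    rw [← h0, ← h1] at hd'
    refine ⟨-(η'.1 0 0 * η.1 1 0 - η'.1 1 0 * η.1 0 0), fun a => ?_⟩
    fin_cases a
    · simp only [Fin.zero_eta, Fin.isValue]
      linear_combination (-η'.1 0 0) * hd + (η.1 0 0) * hd'
    · simp only [Fin.mk_one, Fin.isValue]
      linear_combination (-η'.1 1 0) * hd + (η.1 1 0) * hd'

theorem col_bound (F : Type) [Field F] [Fintype F] [DecidableEq F] (γ : SL(2, F[X]))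
    (R m' : ℕ) (s s' : Fin 2) (hs : s ≠ s') (T : Finset SL(2, F[X]))
    (hT : ∀ η ∈ T, dg η = R ∧ dg (γ * η) = m')
    (hc : ∀ η ∈ T, ∃ a, η.1 a s ≠ 0 ∧ (η.1 a s).natDegree = R) :
    T.card * Fintype.card F ^ dg γ ≤ Fintype.card F ^ (R + m' + 3) := by
  classical
  rcases T.eq_empty_or_nonempty with rfl | ⟨η₀, hη₀⟩
  · simp
  let col : SL(2, F[X]) → (Fin 2 → F[X]) := fun η a => η.1 a s
  have h1 := ball_dim F γ η₀ R m' (hT η₀ hη₀).1.le (hT η₀ hη₀).2.le (T.image col) (by
    intro v hv
    obtain ⟨η, hη, rfl⟩ := Finset.mem_image.mp hv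
    refine ⟨fun i => (natDegree_le_dg η i s).trans (hT η hη).1.le, fun i => ?_⟩
    have h2 : (γ.1.mulVec (col η)) i = (γ * η).1 i s := by
      rw [Matrix.SpecialLinearGroup.coe_mul, Matrix.mul_apply]
      rfl
    rw [h2]
    exact (natDegree_le_dg _ i s).trans (hT η hη).2.le)
  have h2 : T.card ≤ Fintype.card F * (T.image col).card := by
    refine Finset.card_le_mul_card_image T (Fintype.card F) ?_
    intro v hv
    obtain ⟨η₁, hη₁, rfl⟩ := Finset.mem_image.mp hv
    obtain ⟨a, ha0, haR⟩ := hc η₁ hη₁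
    rw [← Finset.card_univ]
    refine Finset.card_le_card_of_injOn (fun η => (η.1 a s').coeff R)
      (fun _ _ => Finset.mem_coe.mpr (Finset.mem_univ _)) ?_
    intro η hη η' hη' hcoef
    have hηT := (Finset.mem_filter.mp hη).1
    have hηT' := (Finset.mem_filter.mp hη').1
    have e1 : ∀ b, η.1 b s = η₁.1 b s := fun b => congrFun (Finset.mem_filter.mp hη).2 b
    have e2 : ∀ b, η'.1 b s = η₁.1 b s := fun b => congrFun (Finset.mem_filter.mp hη').2 b
    obtain ⟨α, hα⟩ := col_eq s s' hs η η' (fun b => (e1 b).trans (e2 b).symm)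
    have hα0 : α = 0 := by
      by_contra hne
      have h3 := hα a
      rw [e1 a] at h3
      have h4 : (α * η₁.1 a s).coeff (α.natDegree + R) = 0 ∨ α.natDegree = 0 := by
        rcases Nat.eq_zero_or_pos α.natDegree with h5 | h5
        · exact Or.inr h5
        · left
          rw [← h3, coeff_sub, coeff_eq_zero_of_natDegree_lt, coeff_eq_zero_of_natDegree_lt,
            sub_zero]
          · have := natDegree_le_dg η a s'
            have := (hT η hηT).1
            omega
          · have := natDegree_le_dg η' a s'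
            have := (hT η' hηT').1
            omega
      have h6 : (α * η₁.1 a s).coeff (α.natDegree + R) ≠ 0 := by
        rw [← haR, coeff_mul_degree_add_degree]
        exact mul_ne_zero (leadingCoeff_ne_zero.mpr hne) (leadingCoeff_ne_zero.mpr ha0)
      rcases h4 with h4 | h4
      · exact h6 h4
      · apply h6
        rw [h4, zero_add, ← h3, coeff_sub]
        have h7 : (η.1 a s').coeff R = (η'.1 a s').coeff R := hcoef
        rw [h7, sub_self]
    apply Subtype.ext
    ext1 b c
    have h8 : c = s ∨ c = s' := by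
      have : ∀ x y z : Fin 2, x ≠ y → z = x ∨ z = y := by decide
      exact this s s' c hs
    rcases h8 with rfl | rfl
    · rw [e1, e2]
    · have h9 := hα b
      rw [hα0, zero_mul] at h9
      exact (sub_eq_zero.mp h9).symm
  calc T.card * Fintype.card F ^ dg γ
      ≤ (Fintype.card F * (T.image col).card) * Fintype.card F ^ dg γ :=
        Nat.mul_le_mul_right _ h2
    _ = Fintype.card F * ((T.image col).card * Fintype.card F ^ dg γ) := by ring
    _ ≤ Fintype.card F * Fintype.card F ^ (R + m' + 2) := Nat.mul_le_mul_left _ h1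
    _ = Fintype.card F ^ (R + m' + 3) := by ring

end Step

open Step

/-- STEP. -/
theorem sphere_step (F : Type) [Field F] [Fintype F] [DecidableEq F] (γ : SL(2, F[X]))
    (R m' : ℕ) (T : Finset SL(2, F[X])) (hT : ∀ η ∈ T, dg η = R ∧ dg (γ * η) = m') :
    T.card * Fintype.card F ^ dg γ ≤ 2 * Fintype.card F ^ (R + m' + 3) := by
  classical
  let Ts : Fin 2 → Finset SL(2, F[X]) := fun s =>
    T.filter (fun η => ∃ a, η.1 a s ≠ 0 ∧ (η.1 a s).natDegree = R)
  have hsub : T ⊆ Ts 0 ∪ Ts 1 := by
    intro η hη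
    obtain ⟨i, j, hij⟩ := Walk.exists_coeff η
    have h1 : η.1 i j ≠ 0 := by
      intro h
      rw [h, coeff_zero] at hij
      exact hij rfl
    have h2 : (η.1 i j).natDegree = R := by
      refine le_antisymm ((natDegree_le_dg η i j).trans (hT η hη).1.le) ?_
      rw [← (hT η hη).1]
      exact le_natDegree_of_ne_zero hij
    have h3 : j = 0 ∨ j = 1 := by
      fin_cases j
      · exact Or.inl rfl
      · exact Or.inr rfl
    rcases h3 with rfl | rfl
    · exact Finset.mem_union_left _ (Finset.mem_filter.mpr ⟨hη, i, h1, h2⟩)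
    · exact Finset.mem_union_right _ (Finset.mem_filter.mpr ⟨hη, i, h1, h2⟩)
  have h0 := col_bound F γ R m' 0 1 (by decide) (Ts 0)
    (fun η hη => hT η (Finset.mem_filter.mp hη).1) (fun η hη => (Finset.mem_filter.mp hη).2)
  have h1 := col_bound F γ R m' 1 0 (by decide) (Ts 1)
    (fun η hη => hT η (Finset.mem_filter.mp hη).1) (fun η hη => (Finset.mem_filter.mp hη).2)
  calc T.card * Fintype.card F ^ dg γ
      ≤ ((Ts 0).card + (Ts 1).card) * Fintype.card F ^ dg γ :=
        Nat.mul_le_mul_right _ ((Finset.card_le_card hsub).trans (Finset.card_union_le _ _))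
    _ = (Ts 0).card * Fintype.card F ^ dg γ + (Ts 1).card * Fintype.card F ^ dg γ := by ring
    _ ≤ Fintype.card F ^ (R + m' + 3) + Fintype.card F ^ (R + m' + 3) := Nat.add_le_add h0 h1
    _ = 2 * Fintype.card F ^ (R + m' + 3) := by ring

end Pool.Agent.MPfe8e9b
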