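import Mathlib
import Pool.Agent.Lib.MP_fe8e9b_al.Step
import Pool.Agent.Lib.MP_fe8e9b_al.Defs2

/-!
# MP_fe8e9b_al: words in the sphere of radius `R`
-/

open scoped BigOperators MatrixGroups Pointwise

namespace Pool.Agent.MPfe8e9b

open Polynomial

/-- SPHWALK. -/
theorem sph_walk (F : Type) [Field F] [Fintype F] [DecidableEq F] (R : ℕ)
    (T : Finset SL(2, F[X])) (hT : ∀ γ, γ ∈ T ↔ dg γ = R) (l : ℕ) (γ : SL(2, F[X])) :
    wn T l γ * Fintype.card F ^ dg γ ≤
      (2 * Fintype.card F ^ 3 * (2 * R + 1)) ^ l * Fintype.card F ^ (l * R) ∧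
      (l * R < dg γ → wn T l γ = 0) := by
  classical
  induction l generalizing γ with
  | zero =>
    by_cases h : γ = 1
    · subst h
      simp [wn, dg_one]
    · simp [wn, h]
  | succ l ih =>
    constructor
    · set q := Fintype.card F with hq
      have hqpos : 0 < q := Fintype.card_pos
      set A := 2 * q ^ 3 * (2 * R + 1) with hA
      have hwn : wn T (l + 1) γ = ∑ δ ∈ T, wn T l (γ * δ⁻¹) := rfl
      -- group by the degree
      have hmaps : ∀ δ ∈ T, dg (γ * δ⁻¹) ∈ Finset.Icc (dg γ - R) (dg γ + R) := by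
        intro δ hδ
        have hδR : dg δ = R := (hT δ).mp hδ
        rw [Finset.mem_Icc]
        constructor
        · have h1 := dg_mul_le (γ * δ⁻¹) δ
          rw [inv_mul_cancel_right] at h1
          omega
        · have h1 := dg_mul_le γ δ⁻¹
          rw [dg_inv] at h1
          omega
      rw [hwn, ← Finset.sum_fiberwise_of_maps_to hmaps, Finset.sum_mul]
      have hterm : ∀ m' ∈ Finset.Icc (dg γ - R) (dg γ + R),
          (∑ δ ∈ T with dg (γ * δ⁻¹) = m', wn T l (γ * δ⁻¹)) * q ^ dg γ ≤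
            2 * q ^ 3 * (A ^ l * q ^ ((l + 1) * R)) := by
        intro m' _
        set Tm := T.filter (fun δ => dg (γ * δ⁻¹) = m') with hTm
        have hcard : Tm.card * q ^ dg γ ≤ 2 * q ^ (R + m' + 3) := by
          have h1 := sphere_step F γ R m' (Tm.image (fun δ => δ⁻¹)) (by
            intro η hη
            obtain ⟨δ, hδ, rfl⟩ := Finset.mem_image.mp hη
            have h2 := Finset.mem_filter.mp hδ
            exact ⟨by rw [dg_inv]; exact (hT δ).mp h2.1, h2.2⟩)
          rwa [Finset.card_image_of_injective _ inv_injective] at h1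
        have hone : ∀ δ ∈ Tm, wn T l (γ * δ⁻¹) * q ^ m' ≤ A ^ l * q ^ (l * R) := by
          intro δ hδ
          have h2 := (Finset.mem_filter.mp hδ).2
          have h3 := (ih (γ * δ⁻¹)).1
          rwa [h2] at h3
        have hsum : (∑ δ ∈ Tm, wn T l (γ * δ⁻¹)) * q ^ m' ≤ Tm.card * (A ^ l * q ^ (l * R)) := by
          rw [Finset.sum_mul]
          refine (Finset.sum_le_sum hone).trans ?_
          rw [Finset.sum_const, smul_eq_mul]
        have hpos : 0 < q ^ m' := pow_pos hqpos _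
        refine Nat.le_of_mul_le_mul_right ?_ hpos
        calc (∑ δ ∈ Tm, wn T l (γ * δ⁻¹)) * q ^ dg γ * q ^ m'
            = ((∑ δ ∈ Tm, wn T l (γ * δ⁻¹)) * q ^ m') * q ^ dg γ := by ring
          _ ≤ (Tm.card * (A ^ l * q ^ (l * R))) * q ^ dg γ := Nat.mul_le_mul_right _ hsum
          _ = (Tm.card * q ^ dg γ) * (A ^ l * q ^ (l * R)) := by ring
          _ ≤ (2 * q ^ (R + m' + 3)) * (A ^ l * q ^ (l * R)) := Nat.mul_le_mul_right _ hcard
          _ = 2 * q ^ 3 * (A ^ l * q ^ ((l + 1) * R)) * q ^ m' := by ring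
      refine (Finset.sum_le_sum hterm).trans ?_
      rw [Finset.sum_const, smul_eq_mul, Nat.card_Icc]
      have h1 : dg γ + R + 1 - (dg γ - R) ≤ 2 * R + 1 := by omega
      calc (dg γ + R + 1 - (dg γ - R)) * (2 * q ^ 3 * (A ^ l * q ^ ((l + 1) * R)))
          ≤ (2 * R + 1) * (2 * q ^ 3 * (A ^ l * q ^ ((l + 1) * R))) := Nat.mul_le_mul_right _ h1
        _ = A ^ (l + 1) * q ^ ((l + 1) * R) := by
            rw [hA]
            ring
    · intro h
      have hwn : wn T (l + 1) γ = ∑ δ ∈ T, wn T l (γ * δ⁻¹) := rfl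
      rw [hwn]
      refine Finset.sum_eq_zero fun δ hδ => ?_
      apply (ih (γ * δ⁻¹)).2
      have hδR : dg δ = R := (hT δ).mp hδ
      have h1 := dg_mul_le (γ * δ⁻¹) δ
      rw [inv_mul_cancel_right] at h1
      have h2 : (l + 1) * R = l * R + R := by ring
      omega

end Pool.Agent.MPfe8e9b
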