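import Pool.Agent.Lib.MP_fe8e9b_al.Defs
import Pool.Agent.Lib.MP_fe8e9b_al.Defs2
import Pool.Agent.Lib.MP_fe8e9b_al.FF
import Pool.Agent.Lib.MP_fe8e9b_al.Sph
import Pool.Agent.Lib.MP_fe8e9b_al.SphCard
import Pool.Agent.Lib.MP_fe8e9b_al.SphWalk
import Pool.Agent.Lib.MP_fe8e9b_al.DivEps
import Pool.Agent.Lib.MP_fe8e9b_al.CountG

/-!
# MP_fe8e9b_al, module FFSMALL: the gap over a fixed constant field
-/

set_option autoImplicit false

open scoped BigOperators MatrixGroups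

namespace Pool.Agent.MPfe8e9b

open Polynomial

namespace FFSm

/-! ### words -/

/-- total value of `φ` over the words of length `n` -/
noncomputable def wx {Γ G : Type*} [Group G] (T : Finset Γ) (a : Γ → G) : ℕ → (G → ℝ) → ℝ
  | 0 => fun φ => φ 1
  | n + 1 => fun φ => wx T a n (fun g => ∑ δ ∈ T, φ (g * a δ))

theorem wx_hom {Γ G : Type*} [Group Γ] [Group G] (T : Finset Γ) (ev : Γ →* G) (n : ℕ)
    (φ : G → ℝ) : wx T (fun δ => δ) n (fun g => φ (ev g)) = wx T ev n φ := by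
  induction n generalizing φ with
  | zero =>
    show φ (ev 1) = φ 1
    rw [map_one]
  | succ n ih =>
    show wx T (fun δ => δ) n (fun g => ∑ δ ∈ T, φ (ev (g * δ))) =
      wx T ev n (fun g => ∑ δ ∈ T, φ (g * ev δ))
    rw [← ih]
    simp only [map_mul]

theorem wx_smul {Γ G : Type*} [Group G] (T : Finset Γ) (a : Γ → G) (n : ℕ) (c : ℝ)
    (φ : G → ℝ) : wx T a n (fun g => c * φ g) = c * wx T a n φ := by
  induction n generalizing φ with
  | zero => rfl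
  | succ n ih =>
    show wx T a n (fun g => ∑ δ ∈ T, c * φ (g * a δ)) = c * wx T a n (fun g => ∑ δ ∈ T, φ (g * a δ))
    rw [← ih]
    simp only [Finset.mul_sum]

theorem wx_wn {Γ : Type*} [Group Γ] (T : Finset Γ) (n : ℕ) : ∃ W : Finset Γ,
    (∀ γ, wn T n γ ≠ 0 → γ ∈ W) ∧
    ∀ φ : Γ → ℝ, wx T (fun δ => δ) n φ = ∑ γ ∈ W, (wn T n γ : ℝ) * φ γ := by
  classical
  induction n with
  | zero =>
    refine ⟨{1}, fun γ hγ => ?_, fun φ => ?_⟩
    · rw [Finset.mem_singleton]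
      by_contra h
      exact hγ (if_neg h)
    · rw [Finset.sum_singleton]
      have : wn T 0 (1 : Γ) = 1 := if_pos rfl
      rw [this, Nat.cast_one, one_mul]
      rfl
  | succ n ih =>
    obtain ⟨W, hW, hφ⟩ := ih
    refine ⟨(T.biUnion fun δ => W.image fun γ => γ * δ), fun γ hγ => ?_, fun φ => ?_⟩
    · have h1 : ∑ δ ∈ T, wn T n (γ * δ⁻¹) ≠ 0 := hγ
      obtain ⟨δ, hδ, h2⟩ := Finset.exists_ne_zero_of_sum_ne_zero h1
      rw [Finset.mem_biUnion]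
      refine ⟨δ, hδ, ?_⟩
      rw [Finset.mem_image]
      exact ⟨γ * δ⁻¹, hW _ h2, inv_mul_cancel_right γ δ⟩
    · set V := T.biUnion fun δ => W.image fun γ => γ * δ with hV
      have h1 : wx T (fun δ => δ) (n + 1) φ =
          wx T (fun δ => δ) n (fun g => ∑ δ ∈ T, φ (g * δ)) := rfl
      rw [h1, hφ]
      have h2 : ∀ γ, ((wn T (n + 1) γ : ℕ) : ℝ) * φ γ =
          ∑ δ ∈ T, (wn T n (γ * δ⁻¹) : ℝ) * φ γ := by
        intro γ
        have : wn T (n + 1) γ = ∑ δ ∈ T, wn T n (γ * δ⁻¹) := rfl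
        rw [this, Nat.cast_sum, Finset.sum_mul]
      simp only [h2, Finset.mul_sum]
      rw [Finset.sum_comm, Finset.sum_comm (s := V)]
      refine Finset.sum_congr rfl fun δ hδ => ?_
      have h3 : ∑ γ ∈ W.image (fun γ => γ * δ), (wn T n (γ * δ⁻¹) : ℝ) * φ γ =
          ∑ γ ∈ W, (wn T n γ : ℝ) * φ (γ * δ) := by
        rw [Finset.sum_image (fun a _ b _ h => mul_right_cancel h)]
        refine Finset.sum_congr rfl fun γ _ => ?_
        rw [mul_inv_cancel_right]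
      rw [← h3]
      apply Finset.sum_subset
      · intro γ hγ
        rw [hV, Finset.mem_biUnion]
        exact ⟨δ, hδ, hγ⟩
      · intro γ _ hγ
        have h4 : wn T n (γ * δ⁻¹) = 0 := by
          by_contra h
          apply hγ
          rw [Finset.mem_image]
          exact ⟨γ * δ⁻¹, hW _ h, inv_mul_cancel_right γ δ⟩
        rw [h4, Nat.cast_zero, zero_mul]

/-! ### the measure -/

section nu

variable {Γ G : Type} [Group Γ] [Group G] [Fintype G] (T : Finset Γ) (ev : Γ →* G)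

open Classical in
/-- the uniform measure on the image of `T` -/
noncomputable def nu : G → ℝ := fun g => (T.card : ℝ)⁻¹ * ∑ δ ∈ T, if ev δ = g then 1 else 0

omit [Fintype G] in
theorem nu_nonneg (g : G) : 0 ≤ nu T ev g := by
  unfold nu
  refine mul_nonneg (by positivity) (Finset.sum_nonneg fun δ _ => ?_)
  split_ifs <;> norm_num

omit [Fintype G] in
theorem nu_symm (hT : ∀ δ ∈ T, δ⁻¹ ∈ T) (g : G) : nu T ev g⁻¹ = nu T ev g := by
  classical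
  unfold nu
  congr 1
  apply Finset.sum_bij' (fun δ _ => δ⁻¹) (fun δ _ => δ⁻¹) hT hT
  · intro δ _
    exact inv_inv δ
  · intro δ _
    exact inv_inv δ
  · intro δ _
    rw [map_inv, eq_inv_iff_mul_eq_one, inv_eq_iff_mul_eq_one]

theorem sum_nu (φ : G → ℝ) : ∑ g, nu T ev g * φ g = (T.card : ℝ)⁻¹ * ∑ δ ∈ T, φ (ev δ) := by
  classical
  unfold nu
  simp only [mul_assoc, Finset.sum_mul, ite_mul, one_mul, zero_mul]
  rw [← Finset.mul_sum, Finset.sum_comm]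
  congr 1
  refine Finset.sum_congr rfl fun δ _ => ?_
  rw [Finset.sum_ite_eq]
  simp

theorem cv_nu (f : G → ℂ) :
    cv (nu T ev) f = ((T.card : ℂ))⁻¹ • ∑ δ ∈ T, rt (ev δ) f := by
  classical
  rw [CoreAux.cv_eq_sum]
  unfold nu
  have h1 : ∀ h : G, (((T.card : ℝ)⁻¹ * ∑ δ ∈ T, (if ev δ = h then (1 : ℝ) else 0) : ℝ) : ℂ) •
      rt h f = ((T.card : ℂ))⁻¹ • ∑ δ ∈ T, (if ev δ = h then rt h f else 0) := by
    intro h
    push_cast
    rw [mul_smul, Finset.sum_smul]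
    congr 1
    refine Finset.sum_congr rfl fun δ _ => ?_
    split_ifs
    · simp
    · simp
  simp only [h1]
  rw [← Finset.smul_sum, Finset.sum_comm]
  congr 1
  refine Finset.sum_congr rfl fun δ _ => ?_
  rw [Finset.sum_ite_eq]
  simp

theorem cv_conv (μ ν : G → ℝ) (f : G → ℂ) : cv (conv μ ν) f = cv μ (cv ν f) := by
  funext g
  unfold cv conv
  have h1 : ∀ x, ((∑ h, μ h * ν (h⁻¹ * x) : ℝ) : ℂ) * f (g * x) =
      ∑ h, (μ h : ℂ) * ((ν (h⁻¹ * x) : ℂ) * f (g * x)) := by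
    intro x
    push_cast
    rw [Finset.sum_mul]
    refine Finset.sum_congr rfl fun h _ => ?_
    ring
  simp only [h1]
  rw [Finset.sum_comm]
  refine Finset.sum_congr rfl fun h _ => ?_
  rw [← Finset.mul_sum, ← Equiv.sum_comp (Equiv.mulLeft h)]
  congr 1
  refine Finset.sum_congr rfl fun y _ => ?_
  rw [Equiv.coe_mulLeft, inv_mul_cancel_left, mul_assoc]

theorem conv_symm (ν : G → ℝ) (hν : ∀ g, ν g⁻¹ = ν g) (g : G) :
    conv ν ν g⁻¹ = conv ν ν g := by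
  unfold conv
  rw [← Equiv.sum_comp (Equiv.mulLeft g⁻¹)]
  refine Finset.sum_congr rfl fun k _ => ?_
  rw [Equiv.coe_mulLeft, mul_comm (ν (g⁻¹ * k))]
  congr 1
  · rw [← hν]
    congr 1
    group
  · rw [← hν]
    congr 1
    group

theorem conv_nonneg (ν : G → ℝ) (hν : ∀ g, 0 ≤ ν g) (g : G) : 0 ≤ conv ν ν g :=
  Finset.sum_nonneg fun _ _ => mul_nonneg (hν _) (hν _)

theorem ip_conv (ν : G → ℝ) (hν : ∀ g, ν g⁻¹ = ν g) (f : G → ℂ) :
    (ip f (cv (conv ν ν) f)).re = sq (cv ν f) := by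
  rw [cv_conv, ← CoreAux.cv_self ν hν, ip_self_re]

theorem cpow_nu (l : ℕ) (ψ : G → ℝ) :
    ∑ x, cpow (conv (nu T ev) (nu T ev)) l x * ψ x =
      ((T.card : ℝ) ^ (2 * l))⁻¹ * wx T ev (2 * l) ψ := by
  classical
  have hS : ∀ (φ : G → ℝ) (h : G), ∑ y, conv (nu T ev) (nu T ev) y * φ (h * y) =
      ((T.card : ℝ) ^ 2)⁻¹ * ∑ δ ∈ T, ∑ δ' ∈ T, φ (h * ev δ * ev δ') := by
    intro φ h
    have h1 : ∀ y, conv (nu T ev) (nu T ev) y * φ (h * y) =
        ∑ k, nu T ev k * (nu T ev (k⁻¹ * y) * φ (h * y)) := by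
      intro y
      unfold conv
      rw [Finset.sum_mul]
      refine Finset.sum_congr rfl fun k _ => ?_
      ring
    simp only [h1]
    rw [Finset.sum_comm]
    have h2 : ∀ k, ∑ y, nu T ev k * (nu T ev (k⁻¹ * y) * φ (h * y)) =
        nu T ev k * ((T.card : ℝ)⁻¹ * ∑ δ' ∈ T, φ (h * k * ev δ')) := by
      intro k
      rw [← Finset.mul_sum]
      congr 1
      rw [← sum_nu T ev (fun y => φ (h * k * y)), ← Equiv.sum_comp (Equiv.mulLeft k)]
      refine Finset.sum_congr rfl fun y _ => ?_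
      rw [Equiv.coe_mulLeft, inv_mul_cancel_left, mul_assoc]
    simp only [h2]
    rw [sum_nu T ev (fun k => (T.card : ℝ)⁻¹ * ∑ δ' ∈ T, φ (h * k * ev δ')), ← Finset.mul_sum,
      ← mul_assoc, ← mul_inv, ← pow_two]
  induction l generalizing ψ with
  | zero =>
    have h1 : ∀ h : G, cpow (conv (nu T ev) (nu T ev)) 0 h = if h = 1 then 1 else 0 :=
      fun h => rfl
    simp only [h1, ite_mul, one_mul, zero_mul]
    rw [Finset.sum_ite_eq' Finset.univ (1 : G), if_pos (Finset.mem_univ _), Nat.mul_zero,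
      pow_zero, inv_one, one_mul]
    rfl
  | succ l ih =>
    rw [FFx.cpow_succ_sum]
    simp only [hS]
    rw [ih, wx_smul, ← mul_assoc, ← mul_inv, ← pow_add, Nat.mul_succ]
    rfl

/-- from the estimate for the convolution square to the gap -/
theorem gap_of (hT : ∀ δ ∈ T, δ⁻¹ ∈ T) (hne : T.Nonempty)
    (h : ∀ f : G → ℂ, ∑ g, f g = 0 →
      (ip f (cv (conv (nu T ev) (nu T ev)) f)).re ≤ 1 / 2 * sq f) :
    Expd G T.card (1 / 2) := by
  refine ⟨fun i => ev (T.equivFin.symm i).1, fun f hf => ?_⟩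
  have h1 : sq (cv (nu T ev) f) ≤ 1 / 2 * sq f := by
    rw [← ip_conv _ (nu_symm T ev hT)]
    exact h f hf
  have hc : (1 : ℝ) ≤ T.card := by exact_mod_cast hne.card_pos
  have h2 : (ip f (cv (nu T ev) f)).re ≤ 17 / 24 * sq f := by
    have h3 : (ip f (cv (nu T ev) f)).re ≤ 3 / 8 * sq f + 2 / 3 * sq (cv (nu T ev) f) := by
      unfold ip sq
      rw [Complex.re_sum, Finset.mul_sum, Finset.mul_sum, ← Finset.sum_add_distrib]
      refine Finset.sum_le_sum fun x _ => ?_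
      have h4 := Complex.re_le_norm ((starRingEnd ℂ) (f x) * cv (nu T ev) f x)
      rw [norm_mul, Complex.norm_conj] at h4
      nlinarith [sq_nonneg (3 * ‖f x‖ - 4 * ‖cv (nu T ev) f x‖)]
    linarith
  have h5 : ∑ i : Fin T.card, sq (rt (ev (T.equivFin.symm i).1) f - f) =
      ∑ δ ∈ T, sq (rt (ev δ) f - f) := by
    rw [← Finset.sum_coe_sort T (fun δ => sq (rt (ev δ) f - f))]
    exact Equiv.sum_comp T.equivFin.symm (fun δ : T => sq (rt (ev δ.1) f - f))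
  rw [h5]
  have h6 : ∑ δ ∈ T, sq (rt (ev δ) f - f) =
      2 * T.card * sq f - 2 * T.card * (ip f (cv (nu T ev) f)).re := by
    rw [cv_nu, ip_smul_right, ip_sum_right]
    have h7 : ∀ δ ∈ T, sq (rt (ev δ) f - f) = 2 * sq f - 2 * (ip f (rt (ev δ) f)).re := by
      intro δ _
      rw [sq_sub, sq_rt, ip_re_comm]
      ring
    rw [Finset.sum_congr rfl h7, Finset.sum_sub_distrib, Finset.sum_const, ← Finset.mul_sum,
      nsmul_eq_mul]
    have h8 : (((T.card : ℂ))⁻¹ * ∑ k ∈ T, ip f (rt (ev k) f)).re =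
        (T.card : ℝ)⁻¹ * ∑ k ∈ T, (ip f (rt (ev k) f)).re := by
      have : ((T.card : ℂ))⁻¹ = (((T.card : ℝ)⁻¹ : ℝ) : ℂ) := by push_cast; rfl
      rw [this, Complex.re_ofReal_mul, Complex.re_sum]
    rw [h8]
    field_simp
  rw [h6]
  have := sq_nonneg' f
  nlinarith

end nu

/-! ### the mass of the matrices congruent to one -/

section mass

variable (F : Type) [Field F] [Fintype F]

/-- the statement of `sph_walk` -/
def WalkStmt (R : ℕ) (T : Finset SL(2, F[X])) : Prop := ∀ (l : ℕ) (γ : SL(2, F[X])),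
    wn T l γ * Fintype.card F ^ dg γ ≤
      (2 * Fintype.card F ^ 3 * (2 * R + 1)) ^ l * Fintype.card F ^ (l * R) ∧
      (l * R < dg γ → wn T l γ = 0)

/-- the constant `M` -/
def cM (Q : ℝ) (R : ℕ) : ℝ := 2 * Q ^ 3 * (2 * R + 1) * (2 * R + 2)

theorem mass_le {R : ℕ} {T : Finset SL(2, F[X])} (hw : WalkStmt F R T)
    (hc : Fintype.card F ^ (2 * R) ≤ (2 * R + 2) * T.card) (l : ℕ) (W : Finset SL(2, F[X])) :
    ((T.card : ℝ) ^ (2 * l))⁻¹ * ∑ γ ∈ W, (wn T (2 * l) γ : ℝ) ≤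
      cM (Fintype.card F) R ^ (2 * l) * ((Fintype.card F : ℝ) ^ (2 * l * R))⁻¹ *
        ∑ γ ∈ W.filter (fun γ => dg γ ≤ 2 * l * R), ((Fintype.card F : ℝ) ^ dg γ)⁻¹ := by
  obtain ⟨Q, hQd⟩ : ∃ Q : ℝ, Q = (Fintype.card F : ℝ) := ⟨_, rfl⟩
  have hQ1 : 1 ≤ Q := hQd ▸ FFx.card_one_le F
  have hQ0 : 0 < Q := by linarith
  have hc' : Q ^ (2 * R) ≤ (2 * R + 2) * T.card := by
    rw [hQd]
    exact_mod_cast hc
  have hTpos : 0 < (T.card : ℝ) := by
    have h1 : 0 < (2 * (R : ℝ) + 2) * T.card := lt_of_lt_of_le (by positivity) hc'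
    exact pos_of_mul_pos_right h1 (by positivity)
  have h1 : ∑ γ ∈ W, (wn T (2 * l) γ : ℝ) =
      ∑ γ ∈ W.filter (fun γ => dg γ ≤ 2 * l * R), (wn T (2 * l) γ : ℝ) := by
    symm
    apply Finset.sum_subset (Finset.filter_subset _ _)
    intro γ hγ hγ'
    rw [Finset.mem_filter, not_and] at hγ'
    rw [(hw (2 * l) γ).2 (not_le.1 (hγ' hγ)), Nat.cast_zero]
  rw [h1, ← hQd, Finset.mul_sum, Finset.mul_sum]
  refine Finset.sum_le_sum fun γ _ => ?_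
  have h2 : (wn T (2 * l) γ : ℝ) * Q ^ dg γ ≤
      (2 * Q ^ 3 * (2 * R + 1)) ^ (2 * l) * Q ^ (2 * l * R) := by
    rw [hQd]
    exact_mod_cast (hw (2 * l) γ).1
  have h3 : ((T.card : ℝ) ^ (2 * l))⁻¹ ≤ (2 * R + 2) ^ (2 * l) * (Q ^ (2 * l * R) *
      Q ^ (2 * l * R))⁻¹ := by
    rw [inv_le_iff_one_le_mul₀ (by positivity), ← div_eq_mul_inv, div_mul_eq_mul_div,
      one_le_div (by positivity)]
    calc Q ^ (2 * l * R) * Q ^ (2 * l * R) = (Q ^ (2 * R)) ^ (2 * l) := by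
          rw [← pow_add, ← pow_mul]
          congr 1
          ring
      _ ≤ ((2 * R + 2) * T.card) ^ (2 * l) := pow_le_pow_left₀ (by positivity) hc' _
      _ = (2 * R + 2) ^ (2 * l) * (T.card : ℝ) ^ (2 * l) := mul_pow _ _ _
  have h4 : (wn T (2 * l) γ : ℝ) ≤
      (2 * Q ^ 3 * (2 * R + 1)) ^ (2 * l) * Q ^ (2 * l * R) * (Q ^ dg γ)⁻¹ := by
    rw [← div_eq_mul_inv, le_div_iff₀ (by positivity)]
    exact h2
  calc ((T.card : ℝ) ^ (2 * l))⁻¹ * (wn T (2 * l) γ : ℝ)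
      ≤ ((2 * R + 2) ^ (2 * l) * (Q ^ (2 * l * R) * Q ^ (2 * l * R))⁻¹) *
        ((2 * Q ^ 3 * (2 * R + 1)) ^ (2 * l) * Q ^ (2 * l * R) * (Q ^ dg γ)⁻¹) :=
        mul_le_mul h3 h4 (Nat.cast_nonneg _) (by positivity)
    _ = cM Q R ^ (2 * l) * (Q ^ (2 * l * R))⁻¹ * (Q ^ dg γ)⁻¹ := by
        unfold cM
        rw [mul_pow _ (2 * (R : ℝ) + 2)]
        have : Q ^ (2 * l * R) ≠ 0 := by positivity
        field_simp

/-- the statement of `mat_count_gen` -/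
def MatStmt : Prop := ∀ (I : F[X]) (_ : I.Monic)
    (_ : 1 ≤ I.natDegree) (m : ℕ) (D : ℝ) (_ : 1 ≤ D)
    (_ : ∀ N : F[X], N ≠ 0 → N.natDegree ≤ 2 * (m - I.natDegree) →
      ∀ T : Finset (F[X] × F[X]), (∀ x ∈ T, x.1 * x.2 = N) → (T.card : ℝ) ≤ D)
    (T : Finset SL(2, F[X]))
    (_ : ∀ γ ∈ T, dg γ ≤ m ∧ ∀ a b, I ∣ γ.1 a b - (1 : Matrix (Fin 2) (Fin 2) F[X]) a b),
    (m < I.natDegree → T.card ≤ 1) ∧
    ((T.card : ℝ) ≤ (Fintype.card F : ℝ) ^ (m - I.natDegree + 1) *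
        (1 + (Fintype.card F : ℝ) ^ (m - I.natDegree + 1) /
          (Fintype.card F : ℝ) ^ I.natDegree) * D +
        2 * (Fintype.card F : ℝ) ^ (m - I.natDegree + 1))

/-- the statement of `div_count_eps` with `ε = 1 / 100` -/
def DivStmt (C : ℝ) : Prop := ∀ N : F[X], N ≠ 0 → ∀ T : Finset (F[X] × F[X]),
      (∀ x ∈ T, x.1 * x.2 = N) →
      (T.card : ℝ) ≤ C * (Fintype.card F : ℝ) ^ ((1 / 100 : ℝ) * (N.natDegree : ℝ))

theorem layer {Q N D : ℝ} (hQ : 1 ≤ Q) (hD : 1 ≤ D) {j R r : ℕ} (hj : 1 ≤ j)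
    (hr : r ≤ 2 * j + 2 * R)
    (hN : N ≤ Q ^ (r + 1) * (1 + Q ^ (r + 1) / Q ^ j) * D + 2 * Q ^ (r + 1)) :
    N * (Q ^ (j + r))⁻¹ ≤ 4 * Q ^ (2 * R + 2) * D := by
  have hQ0 : 0 < Q := by linarith
  rw [mul_inv_le_iff₀ (by positivity)]
  have h1 : Q ^ (r + 1) / Q ^ j ≤ Q ^ (j + 2 * R + 1) := by
    rw [div_le_iff₀ (by positivity), ← pow_add]
    exact pow_le_pow_right₀ hQ (by omega)
  have h2 : 1 + Q ^ (r + 1) / Q ^ j ≤ 2 * Q ^ (j + 2 * R + 1) := by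
    have := one_le_pow₀ hQ (n := j + 2 * R + 1)
    linarith
  have h3 : Q ^ (r + 1) * (1 + Q ^ (r + 1) / Q ^ j) * D ≤
      Q ^ (r + 1) * (2 * Q ^ (j + 2 * R + 1)) * D := by
    gcongr
  have h4 : Q ^ (r + 1) * (2 * Q ^ (j + 2 * R + 1)) * D = 2 * Q ^ (2 * R + 2) * D * Q ^ (j + r) := by
    ring
  have h5 : 2 * Q ^ (r + 1) ≤ 2 * Q ^ (2 * R + 2) * D * Q ^ (j + r) := by
    have e1 : Q ^ (r + 1) ≤ Q ^ (j + r) := pow_le_pow_right₀ hQ (by omega)
    have e2 : (1 : ℝ) ≤ Q ^ (2 * R + 2) := one_le_pow₀ hQ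
    have e3 : 1 ≤ Q ^ (2 * R + 2) * D := one_le_mul_of_one_le_of_one_le e2 hD
    have e4 : 0 < Q ^ (j + r) := by positivity
    calc 2 * Q ^ (r + 1) ≤ 2 * Q ^ (j + r) := by linarith
      _ = 2 * (1 * Q ^ (j + r)) := by ring
      _ ≤ 2 * (Q ^ (2 * R + 2) * D * Q ^ (j + r)) := by gcongr
      _ = _ := by ring
  calc N ≤ _ := hN
    _ ≤ 2 * Q ^ (2 * R + 2) * D * Q ^ (j + r) + 2 * Q ^ (2 * R + 2) * D * Q ^ (j + r) := by
        rw [h4] at h3
        exact add_le_add h3 h5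
    _ = _ := by ring

theorem count_le {C : ℝ} (hC : 1 ≤ C) (hdiv : DivStmt F C) (hmat : MatStmt F) (I : F[X])
    (hI : I.Monic) (hj : 1 ≤ I.natDegree) (R B : ℕ) (hB : B ≤ 3 * I.natDegree + 2 * R)
    (T : Finset SL(2, F[X])) (hT : ∀ γ ∈ T, dg γ ≤ B ∧
      ∀ a b, I ∣ γ.1 a b - (1 : Matrix (Fin 2) (Fin 2) F[X]) a b) :
    ∑ γ ∈ T, ((Fintype.card F : ℝ) ^ dg γ)⁻¹ ≤
      (3 * I.natDegree + 2 * R + 1) * (4 * (Fintype.card F : ℝ) ^ (2 * R + 2) *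
        (C * (Fintype.card F : ℝ) ^ (((I.natDegree : ℝ) + R) / 25))) := by
  classical
  obtain ⟨Q, hQd⟩ : ∃ Q : ℝ, Q = (Fintype.card F : ℝ) := ⟨_, rfl⟩
  have hQ : 1 ≤ Q := hQd ▸ FFx.card_one_le F
  obtain ⟨D, hDd⟩ : ∃ D : ℝ, D = C * Q ^ (((I.natDegree : ℝ) + R) / 25) := ⟨_, rfl⟩
  have hD : 1 ≤ D := by
    rw [hDd]
    exact one_le_mul_of_one_le_of_one_le hC (Real.one_le_rpow hQ (by positivity))
  have hmap : ∀ γ ∈ T, dg γ ∈ Finset.range (B + 1) := fun γ hγ =>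
    Finset.mem_range.mpr (Nat.lt_succ_of_le (hT γ hγ).1)
  rw [← Finset.sum_fiberwise_of_maps_to hmap, ← hQd, ← hDd]
  have hfib : ∀ m ∈ Finset.range (B + 1),
      ∑ γ ∈ T.filter (fun γ => dg γ = m), (Q ^ dg γ)⁻¹ ≤ 4 * Q ^ (2 * R + 2) * D := by
    intro m hm
    rw [Finset.mem_range] at hm
    have h1 : ∑ γ ∈ T.filter (fun γ => dg γ = m), (Q ^ dg γ)⁻¹ =
        ((T.filter (fun γ => dg γ = m)).card : ℝ) * (Q ^ m)⁻¹ := by
      rw [Finset.sum_congr rfl (g := fun _ => (Q ^ m)⁻¹), Finset.sum_const, nsmul_eq_mul]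
      intro γ hγ
      rw [(Finset.mem_filter.mp hγ).2]
    rw [h1]
    obtain ⟨hc1, hc2⟩ := hmat I hI hj m D hD (fun N hN hdeg T hT => by
        refine (hdiv N hN T hT).trans ?_
        rw [← hQd, hDd]
        refine mul_le_mul_of_nonneg_left ?_ (by linarith)
        apply Real.rpow_le_rpow_of_exponent_le hQ
        have h2 : (N.natDegree : ℝ) ≤ 4 * ((I.natDegree : ℝ) + R) := by
          have : N.natDegree ≤ 4 * (I.natDegree + R) := by omega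
          exact_mod_cast this
        linarith)
      (T.filter (fun γ => dg γ = m)) (fun γ hγ => by
        rw [Finset.mem_filter] at hγ
        exact ⟨hγ.2.le, (hT γ hγ.1).2⟩)
    rcases lt_or_ge m I.natDegree with hlt | hge
    · have hc := hc1 hlt
      have hc' : ((T.filter (fun γ => dg γ = m)).card : ℝ) ≤ 1 := by exact_mod_cast hc
      have e1 : (Q ^ m)⁻¹ ≤ 1 := inv_le_one_of_one_le₀ (one_le_pow₀ hQ)
      have e2 : (0 : ℝ) ≤ (Q ^ m)⁻¹ := by positivity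
      have e4 : (1 : ℝ) ≤ Q ^ (2 * R + 2) := one_le_pow₀ hQ
      have e5 : (1 : ℝ) ≤ 4 * Q ^ (2 * R + 2) * D := by nlinarith
      calc ((T.filter (fun γ => dg γ = m)).card : ℝ) * (Q ^ m)⁻¹ ≤ 1 * 1 :=
            mul_le_mul hc' e1 e2 zero_le_one
        _ = 1 := one_mul 1
        _ ≤ _ := e5
    · obtain ⟨r, rfl⟩ := Nat.exists_eq_add_of_le hge
      rw [Nat.add_sub_cancel_left, ← hQd] at hc2
      exact layer hQ hD hj (by omega) hc2
  calc _ ≤ ∑ _m ∈ Finset.range (B + 1), 4 * Q ^ (2 * R + 2) * D :=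
        Finset.sum_le_sum hfib
    _ = ((B : ℝ) + 1) * (4 * Q ^ (2 * R + 2) * D) := by
        rw [Finset.sum_const, Finset.card_range, nsmul_eq_mul]
        push_cast
        ring
    _ ≤ _ := by
        apply mul_le_mul_of_nonneg_right _ (by positivity)
        have : (B : ℝ) ≤ 3 * I.natDegree + 2 * R := by exact_mod_cast hB
        linarith

end mass

/-! ### numerical estimates -/

theorem exists_R {Q : ℝ} (hQ : 2 ≤ Q) : ∃ R₀ : ℕ, 1 ≤ R₀ ∧ ∀ R : ℕ, R₀ ≤ R →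
    (2 * cM Q R ^ 2) ^ 15 ≤ Q ^ R := by
  have hQ0 : 0 < Q := by linarith
  have h1 := tendsto_pow_const_div_const_pow_of_one_lt 60 (show (1 : ℝ) < Q by linarith)
  have hK : (0 : ℝ) < ((1152 * Q ^ 6) ^ 15)⁻¹ := by positivity
  obtain ⟨N, hN⟩ := Filter.eventually_atTop.1 ((tendsto_order.1 h1).2 _ hK)
  refine ⟨max N 1, le_max_right _ _, fun R hR => ?_⟩
  have hR1 : 1 ≤ R := (le_max_right N 1).trans hR
  have hR' : (1 : ℝ) ≤ R := by exact_mod_cast hR1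
  have h2 := hN R ((le_max_left N 1).trans hR)
  rw [div_lt_iff₀ (by positivity), ← div_eq_inv_mul, lt_div_iff₀ (by positivity)] at h2
  refine le_trans ?_ h2.le
  have h3 : cM Q R ≤ 24 * Q ^ 3 * (R : ℝ) ^ 2 := by
    unfold cM
    have e1 : (2 * (R : ℝ) + 1) * (2 * R + 2) ≤ 12 * (R : ℝ) ^ 2 := by nlinarith
    calc 2 * Q ^ 3 * (2 * (R : ℝ) + 1) * (2 * R + 2) =
          2 * Q ^ 3 * ((2 * (R : ℝ) + 1) * (2 * R + 2)) := by ring
      _ ≤ 2 * Q ^ 3 * (12 * (R : ℝ) ^ 2) := by gcongr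
      _ = _ := by ring
  have h4 : 0 ≤ cM Q R := by
    unfold cM
    positivity
  calc (2 * cM Q R ^ 2) ^ 15 ≤ (2 * (24 * Q ^ 3 * (R : ℝ) ^ 2) ^ 2) ^ 15 := by gcongr
    _ = _ := by ring

theorem exists_d {Q : ℝ} (hQ : 2 ≤ Q) (K b : ℝ) : ∃ d₀ : ℕ, ∀ j : ℕ, d₀ ≤ j →
    K * (3 * j + b) < Q ^ ((j : ℝ) / 2) := by
  have hs : (1 : ℝ) < Real.sqrt 2 := by
    rw [Real.lt_sqrt (by norm_num)]
    norm_num
  have h1 := tendsto_pow_const_div_const_pow_of_one_lt 1 hs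
  have h0 := tendsto_pow_const_div_const_pow_of_one_lt 0 hs
  have h2 : Filter.Tendsto (fun n : ℕ => 3 * K * ((n : ℝ) ^ 1 / Real.sqrt 2 ^ n) +
      K * b * ((n : ℝ) ^ 0 / Real.sqrt 2 ^ n)) Filter.atTop (nhds (3 * K * 0 + K * b * 0)) :=
    (h1.const_mul _).add (h0.const_mul _)
  rw [mul_zero, mul_zero, add_zero] at h2
  obtain ⟨N, hN⟩ := Filter.eventually_atTop.1 ((tendsto_order.1 h2).2 1 one_pos)
  refine ⟨N, fun j hj => ?_⟩
  have h3 := hN j hj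
  have hpos : 0 < Real.sqrt 2 ^ j := by positivity
  have h4 : K * (3 * j + b) < Real.sqrt 2 ^ j := by
    have e : 3 * K * ((j : ℝ) ^ 1 / Real.sqrt 2 ^ j) + K * b * ((j : ℝ) ^ 0 / Real.sqrt 2 ^ j) =
        (K * (3 * j + b)) / Real.sqrt 2 ^ j := by
      field_simp
    rw [e, div_lt_one hpos] at h3
    exact h3
  refine h4.trans_le ?_
  have h5 : Real.sqrt 2 ^ j = (2 : ℝ) ^ ((j : ℝ) / 2) := by
    rw [Real.sqrt_eq_rpow, ← Real.rpow_natCast, ← Real.rpow_mul (by norm_num)]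
    congr 1
    ring
  rw [h5]
  exact Real.rpow_le_rpow (by norm_num) hQ (by positivity)

theorem final_num {Q C : ℝ} (hQ : 2 ≤ Q) (hC : 1 ≤ C) {R : ℕ}
    (hR : (2 * cM Q R ^ 2) ^ 15 ≤ Q ^ R) {j l n : ℕ} (hl1 : 3 * j ≤ 2 * l * R) (hl0 : 1 ≤ l)
    (hl2 : 2 * (l - 1) * R ≤ 3 * j) (hn : 20 * n ≤ j)
    (hK : 4 * C * (2 * cM Q R ^ 2) * Q ^ (2 * R + 2) * Q ^ ((R : ℝ) / 25) *
      (3 * j + (2 * R + 1)) < Q ^ ((j : ℝ) / 2)) {S : ℝ}
    (hS : S ≤ (3 * j + 2 * R + 1) * (4 * Q ^ (2 * R + 2) * (C * Q ^ (((j : ℝ) + R) / 25)))) :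
    Q ^ (3 * j) * (cM Q R ^ (2 * l) * (Q ^ (2 * l * R))⁻¹ * S) <
      (1 / 2) ^ l * (Q ^ j / 4 ^ n) := by
  have hQ0 : 0 < Q := by linarith
  have hQ1 : 1 ≤ Q := by linarith
  obtain ⟨M, hM⟩ : ∃ M, M = cM Q R := ⟨_, rfl⟩
  have hM0 : 0 < M := by
    rw [hM]
    unfold cM
    positivity
  rw [← hM] at hR hK ⊢
  obtain ⟨S', hS'⟩ : ∃ S', S' = (3 * (j : ℝ) + 2 * R + 1) *
    (4 * Q ^ (2 * R + 2) * (C * Q ^ (((j : ℝ) + R) / 25))) := ⟨_, rfl⟩
  rw [← hS'] at hS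
  have hS'0 : 0 < S' := by
    rw [hS']
    positivity
  have h1 : Q ^ (3 * j) * (M ^ (2 * l) * (Q ^ (2 * l * R))⁻¹ * S) ≤ M ^ (2 * l) * S' := by
    have e1 : Q ^ (3 * j) * (Q ^ (2 * l * R))⁻¹ ≤ 1 := by
      rw [mul_inv_le_iff₀ (by positivity), one_mul]
      exact pow_le_pow_right₀ hQ1 hl1
    calc Q ^ (3 * j) * (M ^ (2 * l) * (Q ^ (2 * l * R))⁻¹ * S)
        ≤ Q ^ (3 * j) * (M ^ (2 * l) * (Q ^ (2 * l * R))⁻¹ * S') := by gcongr
      _ = (Q ^ (3 * j) * (Q ^ (2 * l * R))⁻¹) * (M ^ (2 * l) * S') := by ring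
      _ ≤ 1 * (M ^ (2 * l) * S') := by gcongr
      _ = _ := one_mul _
  refine h1.trans_lt ?_
  -- the main inequality
  obtain ⟨W, hW⟩ : ∃ W, W = 2 * M ^ 2 := ⟨_, rfl⟩
  have hW0 : 0 < W := by rw [hW]; positivity
  rw [← hW] at hR hK
  have hWl : W ^ (l - 1) ≤ Q ^ ((j : ℝ) / 10) := by
    have e1 : (W ^ (l - 1)) ^ 30 ≤ (Q ^ ((j : ℝ) / 10)) ^ 30 := by
      have e2 : (Q ^ ((j : ℝ) / 10)) ^ 30 = Q ^ (3 * j) := by
        rw [← Real.rpow_natCast, ← Real.rpow_mul hQ0.le, ← Real.rpow_natCast]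
        congr 1
        push_cast
        ring
      rw [e2]
      calc (W ^ (l - 1)) ^ 30 = (W ^ 15) ^ (2 * (l - 1)) := by
            rw [← pow_mul, ← pow_mul]
            congr 1
            ring
        _ ≤ (Q ^ R) ^ (2 * (l - 1)) := pow_le_pow_left₀ (by positivity) hR _
        _ = Q ^ (2 * (l - 1) * R) := by
            rw [← pow_mul]
            congr 1
            ring
        _ ≤ Q ^ (3 * j) := pow_le_pow_right₀ hQ1 hl2
    exact le_of_pow_le_pow_left₀ (by norm_num) (by positivity) e1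
  have hWW : W ^ l ≤ W * Q ^ ((j : ℝ) / 10) := by
    obtain ⟨m, rfl⟩ : ∃ m, l = m + 1 := ⟨l - 1, by omega⟩
    rw [pow_succ, mul_comm]
    rw [Nat.add_sub_cancel] at hWl
    gcongr
  have h4n : (4 : ℝ) ^ n ≤ Q ^ ((j : ℝ) / 10) := by
    have e1 : (4 : ℝ) ^ n ≤ Q ^ (2 * n) := by
      rw [pow_mul]
      exact pow_le_pow_left₀ (by norm_num) (by nlinarith) _
    refine e1.trans ?_
    rw [← Real.rpow_natCast]
    apply Real.rpow_le_rpow_of_exponent_le hQ1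
    have : (20 * (n : ℝ)) ≤ j := by exact_mod_cast hn
    push_cast
    linarith
  have h2 : W ^ l * S' * 4 ^ n < Q ^ j := by
    have e0 : S' = (3 * (j : ℝ) + (2 * R + 1)) * (4 * C * Q ^ (2 * R + 2) * Q ^ ((R : ℝ) / 25)) *
        Q ^ ((j : ℝ) / 25) := by
      rw [hS', add_div, Real.rpow_add hQ0]
      ring
    calc W ^ l * S' * 4 ^ n ≤ (W * Q ^ ((j : ℝ) / 10)) * S' * Q ^ ((j : ℝ) / 10) := by gcongr
      _ = (4 * C * W * Q ^ (2 * R + 2) * Q ^ ((R : ℝ) / 25) * (3 * j + (2 * R + 1))) *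
          (Q ^ ((j : ℝ) / 10) * Q ^ ((j : ℝ) / 10) * Q ^ ((j : ℝ) / 25)) := by
          rw [e0]
          ring
      _ < Q ^ ((j : ℝ) / 2) * (Q ^ ((j : ℝ) / 10) * Q ^ ((j : ℝ) / 10) * Q ^ ((j : ℝ) / 25)) := by
          gcongr
      _ = Q ^ ((j : ℝ) / 2 + ((j : ℝ) / 10 + (j : ℝ) / 10 + (j : ℝ) / 25)) := by
          rw [Real.rpow_add hQ0, Real.rpow_add hQ0, Real.rpow_add hQ0]
      _ ≤ Q ^ (j : ℝ) := by
          apply Real.rpow_le_rpow_of_exponent_le hQ1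
          have : (0 : ℝ) ≤ j := Nat.cast_nonneg j
          linarith
      _ = Q ^ j := Real.rpow_natCast _ _
  have h3 : W ^ l = 2 ^ l * M ^ (2 * l) := by
    rw [hW, mul_pow, ← pow_mul]
  rw [h3] at h2
  rw [one_div, inv_pow, ← div_eq_inv_mul, div_div, lt_div_iff₀ (by positivity)]
  calc M ^ (2 * l) * S' * (4 ^ n * 2 ^ l) = 2 ^ l * M ^ (2 * l) * S' * 4 ^ n := by ring
    _ < Q ^ j := h2

/-! ### the main estimate -/

section main

variable (F : Type) [Field F] [Fintype F]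

theorem hJ {C : ℝ} (hC : 1 ≤ C) (hdiv : DivStmt F C) (hmat : MatStmt F) {R : ℕ} (hR1 : 1 ≤ R)
    (hR : (2 * cM (Fintype.card F) R ^ 2) ^ 15 ≤ (Fintype.card F : ℝ) ^ R)
    {T : Finset SL(2, F[X])} (hw : WalkStmt F R T)
    (hc : Fintype.card F ^ (2 * R) ≤ (2 * R + 2) * T.card) {d₀ : ℕ} (hd20 : 20 ≤ d₀)
    (hd : ∀ j : ℕ, d₀ ≤ j → 4 * C * (2 * cM (Fintype.card F) R ^ 2) *
      (Fintype.card F : ℝ) ^ (2 * R + 2) * (Fintype.card F : ℝ) ^ ((R : ℝ) / 25) *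
      (3 * j + (2 * R + 1)) < (Fintype.card F : ℝ) ^ ((j : ℝ) / 2))
    {ι : Type} [Fintype ι] [DecidableEq ι] (E : ι → Type)
    [∀ i, Field (E i)] [∀ i, Fintype (E i)] [∀ i, DecidableEq (E i)] [∀ i, Algebra F (E i)]
    (θ : ∀ i, E i) (hθ : ∀ i, Algebra.adjoin F {θ i} = ⊤)
    (hinj : Function.Injective (fun i => minpoly F (θ i)))
    (hdeg : ∀ i, d₀ ≤ (minpoly F (θ i)).natDegree) (J : Finset ι) (hJ : J.Nonempty) :
    ∃ l : ℕ, (∏ i ∈ J, (Fintype.card SL(2, E i) : ℝ)) *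
        (∑ g, cpow (conv (nu T (FFx.ev F E θ)) (nu T (FFx.ev F E θ))) l g *
          (open Classical in if ∀ i ∈ J, g i = 1 then (1 : ℝ) else 0))
        < (1 / 2) ^ l * ∏ i ∈ J, (((Fintype.card (E i) : ℝ) - 1) / 2) := by
  classical
  obtain ⟨I, hI⟩ : ∃ I, I = ∏ i ∈ J, minpoly F (θ i) := ⟨_, rfl⟩
  have hmon : ∀ i ∈ J, (minpoly F (θ i)).Monic := fun i _ =>
    minpoly.monic (FFx.integral_theta F E θ i)
  have hIm : I.Monic := by
    rw [hI]
    exact monic_prod_of_monic _ _ hmon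
  have hIdeg : I.natDegree = ∑ i ∈ J, (minpoly F (θ i)).natDegree := by
    rw [hI]
    exact natDegree_prod_of_monic _ _ hmon
  obtain ⟨j, hjdef⟩ : ∃ j, j = I.natDegree := ⟨_, rfl⟩
  have hjcard : J.card * d₀ ≤ j := by
    rw [hjdef, hIdeg, ← smul_eq_mul]
    exact Finset.card_nsmul_le_sum _ _ _ fun i _ => hdeg i
  have hJc : 1 ≤ J.card := hJ.card_pos
  have hj0 : d₀ ≤ j := by nlinarith
  have hj1 : 1 ≤ j := by omega
  have hn : 20 * J.card ≤ j := by nlinarith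
  obtain ⟨Q, hQd⟩ : ∃ Q : ℝ, Q = (Fintype.card F : ℝ) := ⟨_, rfl⟩
  have hQ : (2 : ℝ) ≤ Q := by
    rw [hQd]
    exact_mod_cast (Fintype.one_lt_card : 1 < Fintype.card F)
  have hQ0 : 0 < Q := by linarith
  -- the number of steps
  obtain ⟨l, hl1, hl0, hl2⟩ : ∃ l : ℕ, 3 * j ≤ 2 * l * R ∧ 1 ≤ l ∧ 2 * (l - 1) * R ≤ 3 * j := by
    refine ⟨3 * j / (2 * R) + 1, ?_, Nat.le_add_left 1 _, ?_⟩
    · have h1 := Nat.lt_div_mul_add (a := 3 * j) (b := 2 * R) (by omega)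
      nlinarith
    · rw [Nat.add_sub_cancel]
      have h1 := Nat.div_mul_le_self (3 * j) (2 * R)
      nlinarith
  refine ⟨l, ?_⟩
  obtain ⟨W, hW, hWφ⟩ := wx_wn T (2 * l)
  have hmass0 : ∑ g, cpow (conv (nu T (FFx.ev F E θ)) (nu T (FFx.ev F E θ))) l g *
      (if ∀ i ∈ J, g i = 1 then (1 : ℝ) else 0) =
      ((T.card : ℝ) ^ (2 * l))⁻¹ * ∑ γ ∈ W.filter (fun γ => ∀ i ∈ J, FFx.ev F E θ γ i = 1),
        (wn T (2 * l) γ : ℝ) := by
    rw [cpow_nu, ← wx_hom, hWφ, Finset.sum_filter]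
    congr 1
    refine Finset.sum_congr rfl fun γ _ => ?_
    rw [mul_ite, mul_one, mul_zero]
  have hB : 2 * l * R ≤ 3 * j + 2 * R := by
    obtain ⟨m, rfl⟩ : ∃ m, l = m + 1 := ⟨l - 1, by omega⟩
    rw [Nat.add_sub_cancel] at hl2
    nlinarith
  have hmass := mass_le F hw hc l (W.filter (fun γ => ∀ i ∈ J, FFx.ev F E θ γ i = 1))
  have hcount := count_le F hC hdiv hmat I hIm (by omega) R (2 * l * R) (by omega)
    ((W.filter (fun γ => ∀ i ∈ J, FFx.ev F E θ γ i = 1)).filter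
      (fun γ => dg γ ≤ 2 * l * R)) (fun γ hγ => by
      rw [Finset.mem_filter, Finset.mem_filter] at hγ
      refine ⟨hγ.2, fun x y => ?_⟩
      rw [hI]
      exact FFx.dvd_of_ev F E θ hinj J γ hγ.1.2 x y)
  rw [hmass0]
  have hprod : (∏ i ∈ J, (Fintype.card SL(2, E i) : ℝ)) ≤ Q ^ (3 * j) := by
    calc (∏ i ∈ J, (Fintype.card SL(2, E i) : ℝ))
        ≤ ∏ i ∈ J, Q ^ (3 * (minpoly F (θ i)).natDegree) := by
          refine Finset.prod_le_prod (fun i _ => Nat.cast_nonneg _) fun i _ => ?_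
          have h1 : (Fintype.card SL(2, E i) : ℝ) + (Fintype.card (E i) : ℝ) =
              (Fintype.card (E i) : ℝ) ^ 3 := by exact_mod_cast card_sl2 (E i)
          have h2 : (Fintype.card (E i) : ℝ) = Q ^ (minpoly F (θ i)).natDegree := by
            rw [hQd]
            exact_mod_cast FFx.card_E F E θ hθ i
          have h3 : Q ^ (3 * (minpoly F (θ i)).natDegree) = (Fintype.card (E i) : ℝ) ^ 3 := by
            rw [h2, ← pow_mul, mul_comm]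
          rw [h3, ← h1]
          have : (0 : ℝ) ≤ (Fintype.card (E i) : ℝ) := Nat.cast_nonneg _
          linarith
      _ = Q ^ (3 * j) := by
          rw [Finset.prod_pow_eq_pow_sum, ← Finset.mul_sum, hjdef, hIdeg]
  have hlow : Q ^ j / 4 ^ J.card ≤ ∏ i ∈ J, (((Fintype.card (E i) : ℝ) - 1) / 2) := by
    have h0 : Q ^ j / 4 ^ J.card = ∏ i ∈ J, (Q ^ (minpoly F (θ i)).natDegree / 4) := by
      rw [Finset.prod_div_distrib, Finset.prod_pow_eq_pow_sum, Finset.prod_const, hjdef, hIdeg]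
    rw [h0]
    refine Finset.prod_le_prod (fun i _ => by positivity) fun i _ => ?_
    have h2 : (Fintype.card (E i) : ℝ) = Q ^ (minpoly F (θ i)).natDegree := by
      rw [hQd]
      exact_mod_cast FFx.card_E F E θ hθ i
    rw [h2]
    have h3 : (2 : ℝ) ≤ Q ^ (minpoly F (θ i)).natDegree := by
      have := hdeg i
      calc (2 : ℝ) ≤ Q := hQ
        _ = Q ^ 1 := (pow_one Q).symm
        _ ≤ _ := pow_le_pow_right₀ (by linarith) (by omega)
    linarith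
  rw [← hQd, ← hjdef] at hcount
  rw [← hQd] at hmass hR
  have hKj := hd j hj0
  rw [← hQd] at hKj
  have hfin := final_num hQ hC hR hl1 hl0 hl2 hn hKj hcount
  have hM0 : 0 ≤ cM Q R := by
    unfold cM
    positivity
  calc (∏ i ∈ J, (Fintype.card SL(2, E i) : ℝ)) * (((T.card : ℝ) ^ (2 * l))⁻¹ *
        ∑ γ ∈ W.filter (fun γ => ∀ i ∈ J, FFx.ev F E θ γ i = 1), (wn T (2 * l) γ : ℝ))
      ≤ Q ^ (3 * j) * (cM Q R ^ (2 * l) * (Q ^ (2 * l * R))⁻¹ *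
        ∑ γ ∈ (W.filter (fun γ => ∀ i ∈ J, FFx.ev F E θ γ i = 1)).filter
          (fun γ => dg γ ≤ 2 * l * R), (Q ^ dg γ)⁻¹) := by
        apply mul_le_mul hprod hmass _ (by positivity)
        exact mul_nonneg (by positivity) (Finset.sum_nonneg fun _ _ => Nat.cast_nonneg _)
    _ < _ := hfin
    _ ≤ _ := mul_le_mul_of_nonneg_left hlow (by positivity)

end main

end FFSm

/-- FFSMALL. The gap over a fixed constant field. -/
theorem gap_small (F : Type) [Field F] [Fintype F] [DecidableEq F] :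
    ∃ (k : ℕ) (κ : ℝ) (d₀ : ℕ), 0 < κ ∧ ∀ (ι : Type) [Fintype ι] [DecidableEq ι] (E : ι → Type)
      [∀ i, Field (E i)] [∀ i, Fintype (E i)] [∀ i, DecidableEq (E i)] [∀ i, Algebra F (E i)]
      (θ : ∀ i, E i), (∀ i, Algebra.adjoin F {θ i} = ⊤) →
      Function.Injective (fun i => minpoly F (θ i)) →
      (∀ i, d₀ ≤ (minpoly F (θ i)).natDegree) → Expd (∀ i, SL(2, E i)) k κ := by
  have hQ : (2 : ℝ) ≤ (Fintype.card F : ℝ) := by
    exact_mod_cast (Fintype.one_lt_card : 1 < Fintype.card F)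
  obtain ⟨R₀, hR₀, hRn⟩ := FFSm.exists_R hQ
  obtain ⟨R, hR, hcard⟩ := sph_card F R₀
  obtain ⟨T, hT⟩ := sph_exists F R
  obtain ⟨C, hC, hdiv⟩ := div_count_eps F (1 / 100) (by norm_num)
  have hTc := hcard T hT
  have hTinv : ∀ δ ∈ T, δ⁻¹ ∈ T := by
    intro δ hδ
    rw [hT] at hδ ⊢
    rw [dg_inv, hδ]
  have hTne : T.Nonempty := by
    rw [← Finset.card_pos]
    by_contra h
    have h0 : T.card = 0 := by omega
    rw [h0, mul_zero] at hTc
    have : 0 < Fintype.card F ^ (2 * R) := pow_pos Fintype.card_pos _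
    omega
  have hw : FFSm.WalkStmt F R T := fun l γ => sph_walk F R T hT l γ
  have hmat : FFSm.MatStmt F := fun I hI hj m D hD hdiv T hT =>
    mat_count_gen F I hI hj m D hD hdiv T hT
  obtain ⟨d₁, hd₁⟩ := FFSm.exists_d hQ (4 * C * (2 * FFSm.cM (Fintype.card F) R ^ 2) *
      (Fintype.card F : ℝ) ^ (2 * R + 2) * (Fintype.card F : ℝ) ^ ((R : ℝ) / 25)) (2 * R + 1)
  refine ⟨T.card, 1 / 2, max d₁ 20, by norm_num, ?_⟩
  intro ι _ _ E _ _ _ _ θ hθ hinj hdeg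
  refine FFSm.gap_of T (FFx.ev F E θ) hTinv hTne fun f hf => ?_
  have hcore := core E (conv (FFSm.nu T (FFx.ev F E θ)) (FFSm.nu T (FFx.ev F E θ)))
    (FFSm.conv_nonneg _ (FFSm.nu_nonneg T _)) (FFSm.conv_symm _ (FFSm.nu_symm T _ hTinv))
    (fun f => by
      rw [FFSm.ip_conv _ (FFSm.nu_symm T _ hTinv)]
      exact sq_nonneg' _) (1 / 2) (by norm_num) (fun J hJ => by
      obtain ⟨l, hl⟩ := FFSm.hJ F hC hdiv hmat (hR₀.trans hR) (hRn R hR) hw hTc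
        (le_max_right d₁ 20) (fun j hj => hd₁ j ((le_max_left d₁ 20).trans hj)) E θ hθ hinj
        hdeg J hJ
      refine ⟨l, ?_⟩
      simp only [mul_ite, mul_one, mul_zero] at hl
      rw [← Finset.sum_filter] at hl
      convert hl using 3) f hf
  exact hcore

end Pool.Agent.MPfe8e9b
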