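import Mathlib
import Pool.Agent.Lib.MP_fe8e9b_al.Two
import Pool.Agent.Lib.MP_fe8e9b_al.Prim
import Pool.Agent.Lib.MP_fe8e9b_al.FFSmall

/-!
# MP_fe8e9b_al, module SMALLCHAR: products of SL(2, F_i), the fields of a fixed characteristic and
distinct cardinalities
-/

set_option autoImplicit false

open scoped BigOperators MatrixGroups Pointwise

namespace Pool.Agent.MPfe8e9b

/-- SMALLCHAR. -/
theorem expd_smallchar (p : ℕ) (hp : p.Prime) : ∃ (k : ℕ) (κ : ℝ) (q₀ : ℕ), 0 < κ ∧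
    ∀ (ι : Type) [Fintype ι] [DecidableEq ι] (F : ι → Type) [∀ i, Field (F i)]
    [∀ i, Fintype (F i)] [∀ i, DecidableEq (F i)],
    Function.Injective (fun i => Fintype.card (F i)) → (∀ i, ringChar (F i) = p) →
    (∀ i, q₀ ≤ Fintype.card (F i)) → Expd (∀ i, SL(2, F i)) k κ := by
  have : Fact p.Prime := ⟨hp⟩
  obtain ⟨k, κ, d₀, hκ, h⟩ := gap_small (ZMod p)
  refine ⟨k, κ, p ^ d₀, hκ, ?_⟩
  intro ι _ _ F _ _ _ hinj hchar hq
  have hC : ∀ i, CharP (F i) p := fun i => (hchar i) ▸ ringChar.charP (F i)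
  let alg : ∀ i, Algebra (ZMod p) (F i) := fun i => ZMod.algebra (F i) p
  choose θ hθ1 hθ2 using fun i => prim_elem (ZMod p) (F i)
  refine h ι F θ hθ1 ?_ ?_
  · intro i j hij
    apply hinj
    show Fintype.card (F i) = Fintype.card (F j)
    have hij' : minpoly (ZMod p) (θ i) = minpoly (ZMod p) (θ j) := hij
    rw [hθ2 i, hθ2 j, hij']
  · intro i
    have h1 := hq i
    rw [hθ2 i, ZMod.card] at h1
    exact (Nat.pow_le_pow_iff_right hp.one_lt).mp h1

end Pool.Agent.MPfe8e9b
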