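import Mathlib
import Pool.Agent.Lib.MP_fe8e9b_al.Final
import Pool.Agent.Lib.MP_fe8e9b_al.BigChar
import Pool.Agent.Lib.MP_fe8e9b_al.SmallChar

/-!
# MP_fe8e9b_al, module DISTINCT: products of SL(2, F_i), fields of distinct cardinalities
-/

set_option autoImplicit false

open scoped BigOperators MatrixGroups Pointwise

namespace Pool.Agent.MPfe8e9b

/-- DISTINCT. -/
theorem expd_distinct : ∃ (k : ℕ) (κ : ℝ) (q₀ : ℕ), 0 < κ ∧
    ∀ (ι : Type) [Fintype ι] [DecidableEq ι] (F : ι → Type) [∀ i, Field (F i)]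
    [∀ i, Fintype (F i)] [∀ i, DecidableEq (F i)],
    Function.Injective (fun i => Fintype.card (F i)) → (∀ i, q₀ ≤ Fintype.card (F i)) →
    Expd (∀ i, SL(2, F i)) k κ := by
  classical
  obtain ⟨k₀, κ₀, p₀, hκ₀, h₀⟩ := expd_bigchar
  have key : ∀ N : ℕ, ∃ (k : ℕ) (κ : ℝ) (q₀ : ℕ), 0 < κ ∧
      ∀ (ι : Type) [Fintype ι] (F : ι → Type) [∀ i, Field (F i)]
      [∀ i, Fintype (F i)] [∀ i, DecidableEq (F i)],
      Function.Injective (fun i => Fintype.card (F i)) → (∀ i, q₀ ≤ Fintype.card (F i)) →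
      FExpd (∀ i : {i // p₀ ≤ ringChar (F i) ∨ ringChar (F i) < N}, SL(2, F i.1)) k κ := by
    intro N
    induction N with
    | zero =>
      refine ⟨k₀, κ₀, 0, hκ₀, ?_⟩
      intro ι _ F _ _ _ hinj _
      refine (h₀ {i // p₀ ≤ ringChar (F i) ∨ ringChar (F i) < 0} (fun i => F i.1)
        (fun i j hij => Subtype.ext (hinj hij)) (fun i => ?_)).fexpd
      rcases i.2 with h | h
      · exact h
      · exact absurd h (Nat.not_lt_zero _)
    | succ N ih =>
      obtain ⟨k₁, κ₁, q₁, hκ₁, h₁⟩ := ih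
      by_cases hN : N.Prime
      · obtain ⟨k₂, κ₂, q₂, hκ₂, h₂⟩ := expd_smallchar N hN
        refine ⟨k₁ + k₂, min κ₁ κ₂, max q₁ q₂, lt_min hκ₁ hκ₂, ?_⟩
        intro ι _ F _ _ _ hinj hq
        have h3 := h₁ ι F hinj (fun i => (le_max_left _ _).trans (hq i))
        have h4 : FExpd (∀ i : {i // ringChar (F i) = N}, SL(2, F i.1)) k₂ κ₂ :=
          (h₂ {i // ringChar (F i) = N} (fun i => F i.1)
            (fun i j hij => Subtype.ext (hinj hij)) (fun i => i.2)
            (fun i => (le_max_right _ _).trans (hq i.1))).fexpd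
        have h5 := FExpd.union (fun i => SL(2, F i)) (fun i => p₀ ≤ ringChar (F i) ∨
          ringChar (F i) < N) (fun i => ringChar (F i) = N) (lt_min hκ₁ hκ₂).le
          (h3.mono le_rfl (min_le_left _ _)) (h4.mono le_rfl (min_le_right _ _))
        exact FExpd.surj (restr (fun i => SL(2, F i)) (fun i => p₀ ≤ ringChar (F i) ∨
          ringChar (F i) < N + 1) (fun i => (p₀ ≤ ringChar (F i) ∨
          ringChar (F i) < N) ∨ ringChar (F i) = N) (by
            intro i hi
            omega)) (restr_surj _ _ _ _) h5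
      · refine ⟨k₁, κ₁, q₁, hκ₁, ?_⟩
        intro ι _ F _ _ _ hinj hq
        exact FExpd.surj (restr (fun i => SL(2, F i)) (fun i => p₀ ≤ ringChar (F i) ∨
          ringChar (F i) < N + 1) (fun i => p₀ ≤ ringChar (F i) ∨ ringChar (F i) < N) (by
            intro i hi
            rcases hi with hi | hi
            · exact Or.inl hi
            · right
              rcases Nat.lt_succ_iff_lt_or_eq.mp hi with h | h
              · exact h
              · exfalso
                apply hN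
                rw [← h]
                exact CharP.char_is_prime (F i) (ringChar (F i)))) (restr_surj _ _ _ _)
            (h₁ ι F hinj hq)
  obtain ⟨k, κ, q₀, hκ, h⟩ := key p₀
  refine ⟨k, κ, q₀, hκ, ?_⟩
  intro ι _ _ F _ _ _ hinj hq
  have hall : ∀ i, p₀ ≤ ringChar (F i) ∨ ringChar (F i) < p₀ := fun i => le_or_gt _ _
  let ψ : (∀ i : {i // p₀ ≤ ringChar (F i) ∨ ringChar (F i) < p₀}, SL(2, F i.1)) →*
      (∀ i, SL(2, F i)) :=
    { toFun := fun z i => z ⟨i, hall i⟩
      map_one' := rfl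
      map_mul' := fun _ _ => rfl }
  exact (FExpd.surj ψ (fun z => ⟨fun i => z i.1, rfl⟩) (h ι F hinj hq)).expd

end Pool.Agent.MPfe8e9b
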