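import Mathlib

set_option autoImplicit false

namespace Pool.Agent.MPfe8e9b

namespace HardyAux

variable {k : ℕ} {V : Type} [AddCommGroup V]

/-- partial sums of the endomorphisms -/
def rr (y : Fin (k + 1) → (V →+ V)) (c : Finset (Fin (k + 1))) (u : V) : V := ∑ i ∈ c, y i u

/-- toggle an element of a set -/
def tog (i : Fin (k + 1)) (c : Finset (Fin (k + 1))) : Finset (Fin (k + 1)) :=
  if i ∈ c then c.erase i else insert i c

theorem tog_tog (i : Fin (k + 1)) (c : Finset (Fin (k + 1))) : tog i (tog i c) = c := by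
  unfold tog
  by_cases h : i ∈ c
  · rw [if_pos h, if_neg (Finset.notMem_erase i c), Finset.insert_erase h]
  · rw [if_neg h, if_pos (Finset.mem_insert_self i c), Finset.erase_insert h]

theorem rr_tog (y : Fin (k + 1) → (V →+ V)) (i : Fin (k + 1)) (c : Finset (Fin (k + 1)))
    (u : V) : rr y (tog i c) u = rr y c u + y i u ∨ rr y (tog i c) u = rr y c u - y i u := by
  unfold tog rr
  by_cases h : i ∈ c
  · right
    rw [if_pos h, ← Finset.add_sum_erase c (fun j => y j u) h]
    abel
  · left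
    rw [if_neg h, Finset.sum_insert h]
    abel

theorem half (S : Finset (Finset (Fin (k + 1)))) (P : Finset (Fin (k + 1)) → Prop)
    [DecidablePred P] (i : Fin (k + 1)) (hS : ∀ c ∈ S, tog i c ∈ S)
    (hP : ∀ c ∈ S, P c → ¬ P (tog i c)) : 2 * (S.filter P).card ≤ S.card := by
  have h1 : (S.filter P).card ≤ (S.filter fun c => ¬ P c).card := by
    apply Finset.card_le_card_of_injOn (tog i)
    · intro c hc
      rw [Finset.mem_coe, Finset.mem_filter] at hc ⊢
      exact ⟨hS c hc.1, hP c hc.1 hc.2⟩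
    · intro c _ c' _ hcc'
      rw [← tog_tog i c, ← tog_tog i c', hcc']
  have h2 := Finset.card_filter_add_card_filter_not (s := S) P
  omega

/-- the hypotheses on the filtration -/
structure Hyp (y : Fin (k + 1) → (V →+ V)) (T : ℕ → AddSubgroup V) : Prop where
  y0 : ∀ n u, y 0 u ∈ T n ↔ u ∈ T n
  anti : Antitone T
  down : ∀ n i u, u ∈ T (n + 1) → y i u ∈ T n
  up : ∀ n u, (∀ i, y i u ∈ T n) → u ∈ T (n + 1)

theorem rr_mem {y : Fin (k + 1) → (V →+ V)} {T : ℕ → AddSubgroup V} (H : Hyp y T) (n : ℕ)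
    (u : V) (hu : u ∈ T (n + 1)) (c : Finset (Fin (k + 1))) : rr y c u ∈ T n :=
  sum_mem fun i _ => H.down n i u hu

theorem diff_mem {y : Fin (k + 1) → (V →+ V)} {T : ℕ → AddSubgroup V} {n : ℕ} {u w : V}
    {i : Fin (k + 1)} {c : Finset (Fin (k + 1))} (h1 : w + rr y c u ∈ T n)
    (h2 : w + rr y (tog i c) u ∈ T n) : y i u ∈ T n := by
  rcases rr_tog y i c u with h | h
  · have h3 := (T n).sub_mem h2 h1
    rw [h] at h3
    have h4 : w + (rr y c u + y i u) - (w + rr y c u) = y i u := by abel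
    rwa [h4] at h3
  · have h3 := (T n).sub_mem h1 h2
    rw [h] at h3
    have h4 : w + rr y c u - (w + (rr y c u - y i u)) = y i u := by abel
    rwa [h4] at h3

open Classical in
theorem factA {y : Fin (k + 1) → (V →+ V)} {T : ℕ → AddSubgroup V} (H : Hyp y T) (n : ℕ)
    (u w : V) (hu : u ∉ T (n + 1)) :
    2 * (Finset.univ.filter fun c => w + rr y c u ∈ T n).card ≤
      (Finset.univ : Finset (Finset (Fin (k + 1)))).card := by
  have h1 : ∃ i, y i u ∉ T n := by
    by_contra hcon
    push Not at hcon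
    exact hu (H.up n u hcon)
  obtain ⟨i, hi⟩ := h1
  exact half _ _ i (fun c _ => Finset.mem_univ _) fun c _ hc hc' => hi (diff_mem hc hc')

open Classical in
theorem factB {y : Fin (k + 1) → (V →+ V)} {T : ℕ → AddSubgroup V} (H : Hyp y T) (n : ℕ)
    (u w : V) (hu : u ∈ T n) (hu' : u ∉ T (n + 1)) :
    2 * ((Finset.univ.filter fun c => w + rr y c u ∈ T n).filter
      fun c => w + rr y c u ∈ T (n + 1)).card ≤
      (Finset.univ.filter fun c => w + rr y c u ∈ T n).card := by
  refine half _ _ 0 (fun c hc => ?_) fun c _ hc hc' => hu' ((H.y0 _ _).mp (diff_mem hc hc'))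
  rw [Finset.mem_filter] at hc ⊢
  refine ⟨Finset.mem_univ _, ?_⟩
  have h0 := (H.y0 n u).mpr hu
  rcases rr_tog y 0 c u with h | h
  · rw [h, ← add_assoc]
    exact (T n).add_mem hc.2 h0
  · rw [h, add_sub_assoc']
    exact (T n).sub_mem hc.2 h0

/-- level functions -/
structure Lev (v : V → ℕ) (T : ℕ → AddSubgroup V) (N : ℕ) : Prop where
  le : ∀ u, v u ≤ N + 1
  mem : ∀ n u, n < v u → u ∈ T n
  lt : ∀ n u, u ∈ T n → n ≤ N → n < v u

theorem exists_lev (T : ℕ → AddSubgroup V) (hT : Antitone T) (N : ℕ) :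
    ∃ v : V → ℕ, Lev v T N := by
  classical
  have hex : ∀ u : V, ∃ n, u ∉ T n ∨ n = N + 1 := fun u => ⟨N + 1, Or.inr rfl⟩
  refine ⟨fun u => Nat.find (hex u), fun u => Nat.find_min' _ (Or.inr rfl), fun n u h => ?_,
    fun n u h hn => ?_⟩
  · rw [Nat.lt_find_iff] at h
    have := h n le_rfl
    push Not at this
    exact this.1
  · rw [Nat.lt_find_iff]
    intro m hm
    push Not
    exact ⟨hT hm h, by omega⟩

/-- the superharmonic function -/
noncomputable def hh (a b : ℕ) : ℝ := (11 / 10 : ℝ) ^ min a b * if a = b then 1 else 26 / 25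

theorem hh_comm (a b : ℕ) : hh a b = hh b a := by
  unfold hh
  rw [min_comm]
  simp only [eq_comm]

theorem hh_pos (a b : ℕ) : 0 < hh a b := by
  unfold hh
  split_ifs <;> positivity

theorem hh_le (a b n : ℕ) (h : min a b ≤ n) : hh a b ≤ (11 / 10 : ℝ) ^ n * (26 / 25) := by
  unfold hh
  apply mul_le_mul (pow_le_pow_right₀ (by norm_num) h) _ (by split_ifs <;> norm_num)
    (by positivity)
  split_ifs <;> norm_num

theorem hh_self (n : ℕ) : hh n n = (11 / 10 : ℝ) ^ n := by
  unfold hh
  rw [min_self, if_pos rfl, mul_one]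

theorem hh_lt (a b : ℕ) (h : a < b) : hh a b = (11 / 10 : ℝ) ^ a * (26 / 25) := by
  unfold hh
  rw [min_eq_left h.le, if_neg h.ne]

theorem le_hh (a b : ℕ) : (11 / 10 : ℝ) ^ min a b ≤ hh a b := by
  unfold hh
  have h1 : (0 : ℝ) < (11 / 10 : ℝ) ^ min a b := by positivity
  split_ifs
  · rw [mul_one]
  · nlinarith

open Classical in
theorem sumB1 {y : Fin (k + 1) → (V →+ V)} {T : ℕ → AddSubgroup V} (H : Hyp y T) {v : V → ℕ}
    {N : ℕ} (L : Lev v T N) (u w : V) (n : ℕ) (hn : v u = n + 1) (hN : n + 1 ≤ N) :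
    ∑ c : Finset (Fin (k + 1)), hh (v u) (v (w + rr y c u)) ≤
      (Fintype.card (Finset (Fin (k + 1))) : ℝ) * ((11 / 10 : ℝ) ^ n * (273 / 250)) := by
  have hu : u ∉ T (n + 1) := by
    intro h
    have := L.lt _ _ h hN
    omega
  have hA := factA H n u w hu
  have hle : ∀ c : Finset (Fin (k + 1)), hh (v u) (v (w + rr y c u)) ≤
      if w + rr y c u ∈ T n then (11 / 10 : ℝ) ^ n * (26 / 25) * (11 / 10) else
        (11 / 10 : ℝ) ^ n * (26 / 25) := by
    intro c
    split_ifs with hc
    · have := hh_le (v u) (v (w + rr y c u)) (n + 1) (by rw [hn]; exact min_le_left _ _)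
      rw [pow_succ] at this
      linarith
    · apply hh_le
      have : ¬ n < v (w + rr y c u) := fun h => hc (L.mem _ _ h)
      exact le_trans (min_le_right _ _) (by omega)
  refine le_trans (Finset.sum_le_sum fun c _ => hle c) ?_
  rw [Finset.sum_ite, Finset.sum_const, Finset.sum_const, nsmul_eq_mul, nsmul_eq_mul]
  have h2 := Finset.card_filter_add_card_filter_not
    (s := (Finset.univ : Finset (Finset (Fin (k + 1))))) (fun c => w + rr y c u ∈ T n)
  rw [Finset.card_univ] at hA h2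
  have hA' : 2 * ((Finset.univ.filter fun c => w + rr y c u ∈ T n).card : ℝ) ≤
      (Fintype.card (Finset (Fin (k + 1))) : ℝ) := by exact_mod_cast hA
  have h2' : ((Finset.univ.filter fun c => w + rr y c u ∈ T n).card : ℝ) +
      ((Finset.univ.filter fun c => ¬ w + rr y c u ∈ T n).card : ℝ) =
      (Fintype.card (Finset (Fin (k + 1))) : ℝ) := by exact_mod_cast h2
  have hp : (0 : ℝ) < (11 / 10 : ℝ) ^ n := by positivity
  set a := ((Finset.univ.filter fun c => w + rr y c u ∈ T n).card : ℝ)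
  set b := ((Finset.univ.filter fun c => ¬ w + rr y c u ∈ T n).card : ℝ)
  set M := (Fintype.card (Finset (Fin (k + 1))) : ℝ)
  have h3 : b = M - a := by linarith
  rw [h3]
  nlinarith

open Classical in
theorem sumB2 {y : Fin (k + 1) → (V →+ V)} {T : ℕ → AddSubgroup V} (H : Hyp y T) {v : V → ℕ}
    {N : ℕ} (L : Lev v T N) (u w : V) (n : ℕ) (hn : v w = n) (hu : n < v u) :
    ∑ c : Finset (Fin (k + 1)), hh (v u) (v (w + rr y c u)) ≤
      (Fintype.card (Finset (Fin (k + 1))) : ℝ) * ((11 / 10 : ℝ) ^ n * (1081 / 1000)) := by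
  have hnN : n ≤ N := by
    have := L.le u
    omega
  have hw : w ∉ T n := by
    intro h
    have := L.lt _ _ h hnN
    omega
  have hp : (0 : ℝ) < (11 / 10 : ℝ) ^ n := by positivity
  by_cases hu1 : u ∈ T (n + 1)
  · have hle : ∀ c : Finset (Fin (k + 1)), hh (v u) (v (w + rr y c u)) ≤
        (11 / 10 : ℝ) ^ n * (26 / 25) := by
      intro c
      apply hh_le
      have h1 : w + rr y c u ∉ T n := by
        intro h
        apply hw
        have := (T n).sub_mem h (rr_mem H n u hu1 c)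
        rwa [add_sub_cancel_right] at this
      have : ¬ n < v (w + rr y c u) := fun h => h1 (L.mem _ _ h)
      exact le_trans (min_le_right _ _) (by omega)
    refine le_trans (Finset.sum_le_sum fun c _ => hle c) ?_
    rw [Finset.sum_const, nsmul_eq_mul, Finset.card_univ]
    apply mul_le_mul_of_nonneg_left _ (Nat.cast_nonneg _)
    nlinarith
  · have huT : u ∈ T n := L.mem _ _ hu
    have hvu : v u = n + 1 := by
      have : ¬ n + 1 < v u := fun h => hu1 (L.mem _ _ h)
      omega
    have hA := factA H n u w hu1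
    have hB := factB H n u w huT hu1
    have hle : ∀ c : Finset (Fin (k + 1)), hh (v u) (v (w + rr y c u)) ≤
        if w + rr y c u ∈ T n then
          (if w + rr y c u ∈ T (n + 1) then (11 / 10 : ℝ) ^ n * (11 / 10) * (26 / 25) else
            (11 / 10 : ℝ) ^ n * (11 / 10)) else (11 / 10 : ℝ) ^ n * (26 / 25) := by
      intro c
      split_ifs with hc hc'
      · have := hh_le (v u) (v (w + rr y c u)) (n + 1) (by rw [hvu]; exact min_le_left _ _)
        rwa [pow_succ] at this
      · have h1 : ¬ n + 1 < v (w + rr y c u) := fun h => hc' (L.mem _ _ h)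
        have h2 := L.lt _ _ hc hnN
        have h3 : v (w + rr y c u) = n + 1 := by omega
        rw [hvu, h3, hh_self, pow_succ]
      · apply hh_le
        have : ¬ n < v (w + rr y c u) := fun h => hc (L.mem _ _ h)
        exact le_trans (min_le_right _ _) (by omega)
    refine le_trans (Finset.sum_le_sum fun c _ => hle c) ?_
    rw [Finset.sum_ite, Finset.sum_ite, Finset.sum_const, Finset.sum_const, Finset.sum_const,
      nsmul_eq_mul, nsmul_eq_mul, nsmul_eq_mul]
    have h2 := Finset.card_filter_add_card_filter_not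
      (s := (Finset.univ : Finset (Finset (Fin (k + 1))))) (fun c => w + rr y c u ∈ T n)
    have h3 := Finset.card_filter_add_card_filter_not
      (s := (Finset.univ.filter fun c : Finset (Fin (k + 1)) => w + rr y c u ∈ T n))
      (fun c => w + rr y c u ∈ T (n + 1))
    rw [Finset.card_univ] at hA h2
    have hA' : 2 * ((Finset.univ.filter fun c => w + rr y c u ∈ T n).card : ℝ) ≤
        (Fintype.card (Finset (Fin (k + 1))) : ℝ) := by exact_mod_cast hA
    have hB' : 2 * (((Finset.univ.filter fun c => w + rr y c u ∈ T n).filter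
      fun c => w + rr y c u ∈ T (n + 1)).card : ℝ) ≤
      ((Finset.univ.filter fun c => w + rr y c u ∈ T n).card : ℝ) := by exact_mod_cast hB
    have h2' : ((Finset.univ.filter fun c => w + rr y c u ∈ T n).card : ℝ) +
        ((Finset.univ.filter fun c => ¬ w + rr y c u ∈ T n).card : ℝ) =
        (Fintype.card (Finset (Fin (k + 1))) : ℝ) := by exact_mod_cast h2
    have h3' : (((Finset.univ.filter fun c => w + rr y c u ∈ T n).filter
        fun c => w + rr y c u ∈ T (n + 1)).card : ℝ) +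
        (((Finset.univ.filter fun c => w + rr y c u ∈ T n).filter
        fun c => ¬ w + rr y c u ∈ T (n + 1)).card : ℝ) =
        ((Finset.univ.filter fun c => w + rr y c u ∈ T n).card : ℝ) := by exact_mod_cast h3
    set I := ((Finset.univ.filter fun c => w + rr y c u ∈ T n).card : ℝ)
    set I' := ((Finset.univ.filter fun c => ¬ w + rr y c u ∈ T n).card : ℝ)
    set J := (((Finset.univ.filter fun c => w + rr y c u ∈ T n).filter
        fun c => w + rr y c u ∈ T (n + 1)).card : ℝ)
    set J' := (((Finset.univ.filter fun c => w + rr y c u ∈ T n).filter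
        fun c => ¬ w + rr y c u ∈ T (n + 1)).card : ℝ)
    set M := (Fintype.card (Finset (Fin (k + 1))) : ℝ)
    have h4 : I' = M - I := by linarith
    have h5 : J' = I - J := by linarith
    rw [h4, h5]
    have h6 : J * ((11 / 10 : ℝ) * (26 / 25)) + (I - J) * (11 / 10) + (M - I) * (26 / 25) ≤
        M * (1081 / 1000) := by linarith
    calc J * ((11 / 10 : ℝ) ^ n * (11 / 10) * (26 / 25)) + (I - J) * ((11 / 10 : ℝ) ^ n *
        (11 / 10)) + (M - I) * ((11 / 10 : ℝ) ^ n * (26 / 25)) =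
        (11 / 10 : ℝ) ^ n * (J * ((11 / 10 : ℝ) * (26 / 25)) + (I - J) * (11 / 10) +
          (M - I) * (26 / 25)) := by ring
      _ ≤ (11 / 10 : ℝ) ^ n * (M * (1081 / 1000)) := mul_le_mul_of_nonneg_left h6 hp.le
      _ = M * ((11 / 10 : ℝ) ^ n * (1081 / 1000)) := by ring

/-- claim 1: a move increases the function at most by a constant factor -/
theorem claim1 {y : Fin (k + 1) → (V →+ V)} {T : ℕ → AddSubgroup V} (H : Hyp y T) {v : V → ℕ}
    {N : ℕ} (L : Lev v T N) (u w : V) (c : Finset (Fin (k + 1))) :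
    hh (v u) (v (w + rr y c u)) ≤ 1144 / 1000 * hh (v u) (v w) := by
  have h1 : min (v u) (v (w + rr y c u)) ≤ min (v u) (v w) + 1 := by
    rcases le_or_gt (v u) (v w) with h | h
    · rw [min_eq_left h]
      exact le_trans (min_le_left _ _) (by omega)
    · rw [min_eq_right h.le]
      by_contra hcon
      push Not at hcon
      rw [lt_min_iff] at hcon
      have hNw : v w ≤ N := by
        have := L.le u
        omega
      have h2 : u ∈ T (v w + 1) := L.mem _ _ (by omega)
      have h3 : w + rr y c u ∈ T (v w + 1) := L.mem _ _ (by omega)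
      have h4 : w + rr y c u ∈ T (v w) := H.anti (Nat.le_succ _) h3
      have h5 := (T (v w)).sub_mem h4 (rr_mem H _ u h2 c)
      rw [add_sub_cancel_right] at h5
      have := L.lt _ _ h5 hNw
      omega
  have h2 := hh_le _ _ _ h1
  have h3 := le_hh (v u) (v w)
  rw [pow_succ] at h2
  nlinarith

/-- claim 2: superharmonicity away from the bottom -/
theorem claim2 {y : Fin (k + 1) → (V →+ V)} {T : ℕ → AddSubgroup V} (H : Hyp y T) {v : V → ℕ}
    {N : ℕ} (L : Lev v T N) (hN : T N = ⊥) (u w : V) (hp : ¬ (u = 0 ∧ w = 0)) (hu : u ∈ T 0)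
    (hw : w ∈ T 0) :
    ∑ c : Finset (Fin (k + 1)), hh (v u) (v (w + rr y c u)) +
      ∑ c : Finset (Fin (k + 1)), hh (v (u + rr y c w)) (v w) ≤
      (Fintype.card (Finset (Fin (k + 1))) : ℝ) * (399 / 200 * hh (v u) (v w)) := by
  have hsym : ∑ c : Finset (Fin (k + 1)), hh (v (u + rr y c w)) (v w) =
      ∑ c : Finset (Fin (k + 1)), hh (v w) (v (u + rr y c w)) :=
    Finset.sum_congr rfl fun c _ => hh_comm _ _
  rw [hsym]
  have hvu : 0 < v u := L.lt _ _ hu (Nat.zero_le _)
  have hvw : 0 < v w := L.lt _ _ hw (Nat.zero_le _)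
  have hm : min (v u) (v w) ≤ N := by
    by_contra hcon
    push Not at hcon
    rw [lt_min_iff] at hcon
    have h1 := L.mem _ _ hcon.1
    have h2 := L.mem _ _ hcon.2
    rw [hN, AddSubgroup.mem_bot] at h1 h2
    exact hp ⟨h1, h2⟩
  have hM : (0 : ℝ) ≤ (Fintype.card (Finset (Fin (k + 1))) : ℝ) := Nat.cast_nonneg _
  rcases lt_trichotomy (v u) (v w) with h | h | h
  · obtain ⟨n, hn⟩ : ∃ n, v u = n + 1 := ⟨v u - 1, by omega⟩
    rw [min_eq_left h.le] at hm
    have h1 := sumB1 H L u w n hn (by omega)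
    have h2 := sumB2 H L w u (n + 1) hn (by omega)
    rw [hh_lt _ _ h, hn]
    rw [hn] at h1
    rw [pow_succ] at h2 ⊢
    have hp : (0 : ℝ) < (11 / 10 : ℝ) ^ n := by positivity
    have hMp := mul_nonneg hM hp.le
    nlinarith
  · obtain ⟨n, hn⟩ : ∃ n, v u = n + 1 := ⟨v u - 1, by omega⟩
    have hn' : v w = n + 1 := by omega
    rw [← h, min_self] at hm
    have h1 := sumB1 H L u w n hn (by omega)
    have h2 := sumB1 H L w u n hn' (by omega)
    rw [← h, hh_self, hn]
    rw [hn] at h1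
    rw [hn'] at h2
    rw [pow_succ]
    have hp : (0 : ℝ) < (11 / 10 : ℝ) ^ n := by positivity
    have hMp := mul_nonneg hM hp.le
    nlinarith
  · obtain ⟨n, hn⟩ : ∃ n, v w = n + 1 := ⟨v w - 1, by omega⟩
    rw [min_eq_right h.le] at hm
    have h1 := sumB1 H L w u n hn (by omega)
    have h2 := sumB2 H L u w (n + 1) hn (by omega)
    rw [hh_comm (v u) (v w), hh_lt _ _ h, hn]
    rw [hn] at h1
    rw [pow_succ] at h2 ⊢
    have hp : (0 : ℝ) < (11 / 10 : ℝ) ^ n := by positivity
    have hMp := mul_nonneg hM hp.le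
    nlinarith

/-- ground state representation for one move -/
theorem ground {A : Type} [Fintype A] (s : A ≃ A) (h : A → ℝ) (hpos : ∀ p, 0 < h p)
    (F : A → ℝ) :
    ∑ p, F p ^ 2 * (2 - h (s p) / h p - h (s.symm p) / h p) ≤ ∑ p, (F (s p) - F p) ^ 2 := by
  have h1 : ∑ p, F p ^ 2 * (h (s.symm p) / h p) = ∑ p, F (s p) ^ 2 * (h p / h (s p)) := by
    rw [← Equiv.sum_comp s]
    exact Finset.sum_congr rfl fun p _ => by rw [Equiv.symm_apply_apply]
  have h2 : ∑ p, F p ^ 2 = ∑ p, F (s p) ^ 2 := (Equiv.sum_comp s fun p => F p ^ 2).symm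
  have h3 : ∑ p, F p ^ 2 * (2 - h (s p) / h p - h (s.symm p) / h p) =
      ∑ p, (F (s p) ^ 2 + F p ^ 2 - F p ^ 2 * (h (s p) / h p) -
        F (s p) ^ 2 * (h p / h (s p))) := by
    rw [Finset.sum_sub_distrib, Finset.sum_sub_distrib, Finset.sum_add_distrib, ← h1, ← h2,
      ← Finset.sum_add_distrib, ← Finset.sum_sub_distrib, ← Finset.sum_sub_distrib]
    exact Finset.sum_congr rfl fun p _ => by ring
  rw [h3]
  apply Finset.sum_le_sum
  intro p _
  have hp := hpos p
  have hsp := hpos (s p)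
  have h4 : (F p ^ 2 * (h (s p) / h p) + F (s p) ^ 2 * (h p / h (s p))) - 2 * F p * F (s p) =
      (F p * h (s p) - F (s p) * h p) ^ 2 / (h p * h (s p)) := by
    field_simp
    ring
  have h5 : 0 ≤ (F p * h (s p) - F (s p) * h p) ^ 2 / (h p * h (s p)) := by positivity
  nlinarith

/-- lower moves -/
def tauE (r : V → V) : V × V ≃ V × V where
  toFun p := (p.1, p.2 + r p.1)
  invFun p := (p.1, p.2 - r p.1)
  left_inv p := by simp
  right_inv p := by simp

/-- upper moves -/
def sigE (r : V → V) : V × V ≃ V × V where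
  toFun p := (p.1 + r p.2, p.2)
  invFun p := (p.1 - r p.2, p.2)
  left_inv p := by simp
  right_inv p := by simp

end HardyAux

open HardyAux in
open Classical in
theorem hardy (k : ℕ) : ∃ K : ℝ, 0 < K ∧ ∀ (V : Type) [AddCommGroup V] [Fintype V]
    (x : Fin (k + 1) → (V →+ V)) (T : ℕ → AddSubgroup V), (∀ u, x 0 u = u) → Antitone T →
    (∀ n i u, u ∈ T (n + 1) → x i u ∈ T n) → (∀ n u, (∀ i, x i u ∈ T n) → u ∈ T (n + 1)) →
    (∃ N, T N = ⊥) → ∀ F : V × V → ℝ,
    ∑ p ∈ Finset.univ.filter (fun p : V × V => p ≠ 0 ∧ p.1 ∈ T 0 ∧ p.2 ∈ T 0), F p ^ 2 ≤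
      K * (∑ c : Finset (Fin (k + 1)), ∑ p : V × V,
          ((F (p.1, p.2 + ∑ i ∈ c, x i p.1) - F p) ^ 2 +
            (F (p.1 + ∑ i ∈ c, x i p.2, p.2) - F p) ^ 2) +
        ∑ p ∈ Finset.univ.filter (fun p : V × V => ¬ (p.1 ∈ T 0 ∧ p.2 ∈ T 0)), F p ^ 2) := by
  refine ⟨100, by norm_num, ?_⟩
  intro V _ _ x T hx0 hT hdown hup ⟨N, hN⟩ F
  obtain ⟨v, L⟩ := exists_lev T hT N
  set h : V × V → ℝ := fun p => hh (v p.1) (v p.2) with hh'
  have hpos : ∀ p, 0 < h p := fun p => hh_pos _ _
  have H : Hyp x T := ⟨fun n u => by rw [hx0], hT, hdown, hup⟩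
  have H' : Hyp (fun i => -x i) T := by
    refine ⟨fun n u => ?_, hT, fun n i u hu => ?_, fun n u hu => hup n u fun i => ?_⟩
    · rw [AddMonoidHom.neg_apply, hx0, neg_mem_iff]
    · rw [AddMonoidHom.neg_apply, neg_mem_iff]
      exact hdown n i u hu
    · have := hu i
      rwa [AddMonoidHom.neg_apply, neg_mem_iff] at this
  have hneg : ∀ (c : Finset (Fin (k + 1))) (u w : V),
      w - rr x c u = w + rr (fun i => -x i) c u := by
    intro c u w
    unfold rr
    simp only [AddMonoidHom.neg_apply, Finset.sum_neg_distrib]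
    abel
  set M : ℝ := (Fintype.card (Finset (Fin (k + 1))) : ℝ) with hM
  have hM1 : 1 ≤ M := by
    rw [hM]
    exact_mod_cast Fintype.card_pos
  -- the sum over all moves
  set G : V × V → ℝ := fun p => ∑ c : Finset (Fin (k + 1)),
    ((2 - h (tauE (rr x c) p) / h p - h ((tauE (rr x c)).symm p) / h p) +
      (2 - h (sigE (rr x c) p) / h p - h ((sigE (rr x c)).symm p) / h p)) with hG
  have hE : ∑ p, F p ^ 2 * G p ≤ ∑ c : Finset (Fin (k + 1)), ∑ p : V × V,
          ((F (p.1, p.2 + ∑ i ∈ c, x i p.1) - F p) ^ 2 +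
            (F (p.1 + ∑ i ∈ c, x i p.2, p.2) - F p) ^ 2) := by
    have h1 : ∑ p, F p ^ 2 * G p = ∑ c : Finset (Fin (k + 1)),
        (∑ p, F p ^ 2 * (2 - h (tauE (rr x c) p) / h p - h ((tauE (rr x c)).symm p) / h p) +
        ∑ p, F p ^ 2 * (2 - h (sigE (rr x c) p) / h p - h ((sigE (rr x c)).symm p) / h p)) := by
      simp only [hG, Finset.mul_sum]
      rw [Finset.sum_comm]
      apply Finset.sum_congr rfl
      intro c _
      rw [← Finset.sum_add_distrib]
      exact Finset.sum_congr rfl fun p _ => by ring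
    rw [h1]
    apply Finset.sum_le_sum
    intro c _
    rw [Finset.sum_add_distrib]
    exact add_le_add (ground (tauE (rr x c)) h hpos F) (ground (sigE (rr x c)) h hpos F)
  -- rewriting the function
  have hGeq : ∀ p : V × V, G p = 4 * M -
      (∑ c : Finset (Fin (k + 1)), hh (v p.1) (v (p.2 + rr x c p.1)) +
        ∑ c : Finset (Fin (k + 1)), hh (v (p.1 + rr x c p.2)) (v p.2)) / h p -
      (∑ c : Finset (Fin (k + 1)), hh (v p.1) (v (p.2 + rr (fun i => -x i) c p.1)) +
        ∑ c : Finset (Fin (k + 1)), hh (v (p.1 + rr (fun i => -x i) c p.2)) (v p.2)) / h p := by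
    intro p
    have h1 : G p = ∑ c : Finset (Fin (k + 1)), (4 -
        (hh (v p.1) (v (p.2 + rr x c p.1)) + hh (v (p.1 + rr x c p.2)) (v p.2)) / h p -
        (hh (v p.1) (v (p.2 + rr (fun i => -x i) c p.1)) +
          hh (v (p.1 + rr (fun i => -x i) c p.2)) (v p.2)) / h p) := by
      simp only [hG]
      apply Finset.sum_congr rfl
      intro c _
      rw [← hneg, ← hneg]
      show (2 - hh (v p.1) (v (p.2 + rr x c p.1)) / h p - hh (v p.1) (v (p.2 - rr x c p.1)) / h p) +
        (2 - hh (v (p.1 + rr x c p.2)) (v p.2) / h p - hh (v (p.1 - rr x c p.2)) (v p.2) / h p) = _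
      ring
    rw [h1, Finset.sum_sub_distrib, Finset.sum_sub_distrib, ← Finset.sum_div, ← Finset.sum_div,
      Finset.sum_add_distrib, Finset.sum_add_distrib, Finset.sum_const, nsmul_eq_mul,
      Finset.card_univ]
    ring
  have hGA : ∀ p : V × V, p ≠ 0 → p.1 ∈ T 0 → p.2 ∈ T 0 → M / 100 ≤ G p := by
    intro p hp0 hp1 hp2
    have hp0' : ¬ (p.1 = 0 ∧ p.2 = 0) := fun hh => hp0 (Prod.ext hh.1 hh.2)
    have h1 := claim2 H L hN p.1 p.2 hp0' hp1 hp2
    have h2 := claim2 H' L hN p.1 p.2 hp0' hp1 hp2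
    have hp := hpos p
    rw [hGeq]
    have h3 := (div_le_iff₀ hp).mpr (show _ ≤ (M * (399 / 200)) * h p by
      refine le_trans h1 (le_of_eq ?_)
      ring)
    have h4 := (div_le_iff₀ hp).mpr (show _ ≤ (M * (399 / 200)) * h p by
      refine le_trans h2 (le_of_eq ?_)
      ring)
    linarith
  have hGB : ∀ p : V × V, -(576 / 1000 * M) ≤ G p := by
    intro p
    have hp := hpos p
    have key : ∀ y : Fin (k + 1) → (V →+ V), Hyp y T →
        (∑ c : Finset (Fin (k + 1)), hh (v p.1) (v (p.2 + rr y c p.1)) +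
        ∑ c : Finset (Fin (k + 1)), hh (v (p.1 + rr y c p.2)) (v p.2)) / h p ≤
          2 * (1144 / 1000) * M := by
      intro y Hy
      rw [div_le_iff₀ hp]
      have h1 : ∑ c : Finset (Fin (k + 1)), hh (v p.1) (v (p.2 + rr y c p.1)) ≤
          ∑ _c : Finset (Fin (k + 1)), 1144 / 1000 * h p :=
        Finset.sum_le_sum fun c _ => claim1 Hy L p.1 p.2 c
      have h2 : ∑ c : Finset (Fin (k + 1)), hh (v (p.1 + rr y c p.2)) (v p.2) ≤
          ∑ _c : Finset (Fin (k + 1)), 1144 / 1000 * h p := by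
        apply Finset.sum_le_sum
        intro c _
        rw [hh_comm]
        refine le_trans (claim1 Hy L p.2 p.1 c) (le_of_eq ?_)
        rw [hh_comm]
      rw [Finset.sum_const, nsmul_eq_mul, Finset.card_univ] at h1 h2
      have h3 : (Fintype.card (Finset (Fin (k + 1))) : ℝ) * (1144 / 1000 * h p) +
        (Fintype.card (Finset (Fin (k + 1))) : ℝ) * (1144 / 1000 * h p) =
        2 * (1144 / 1000) * M * h p := by rw [hM]; ring
      linarith
    rw [hGeq]
    have h1 := key x H
    have h2 := key (fun i => -x i) H'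
    linarith
  have hG0 : 0 ≤ G 0 := by
    rw [hG]
    apply Finset.sum_nonneg
    intro c _
    have e1 : tauE (rr x c) (0 : V × V) = 0 := by
      apply Prod.ext
      · rfl
      · show (0 : V) + rr x c 0 = 0
        simp [rr]
    have e2 : sigE (rr x c) (0 : V × V) = 0 := by
      apply Prod.ext
      · show (0 : V) + rr x c 0 = 0
        simp [rr]
      · rfl
    have e3 : (tauE (rr x c)).symm (0 : V × V) = 0 := by
      rw [Equiv.symm_apply_eq, e1]
    have e4 : (sigE (rr x c)).symm (0 : V × V) = 0 := by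
      rw [Equiv.symm_apply_eq, e2]
    rw [e1, e2, e3, e4, div_self (hpos 0).ne']
    norm_num
  -- conclusion
  set A := ∑ p ∈ Finset.univ.filter (fun p : V × V => p ≠ 0 ∧ p.1 ∈ T 0 ∧ p.2 ∈ T 0), F p ^ 2
    with hA
  set B := ∑ p ∈ Finset.univ.filter (fun p : V × V => ¬ (p.1 ∈ T 0 ∧ p.2 ∈ T 0)), F p ^ 2
    with hB
  set E := ∑ c : Finset (Fin (k + 1)), ∑ p : V × V,
          ((F (p.1, p.2 + ∑ i ∈ c, x i p.1) - F p) ^ 2 +
            (F (p.1 + ∑ i ∈ c, x i p.2, p.2) - F p) ^ 2) with hEdef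
  have hE0 : 0 ≤ E := Finset.sum_nonneg fun c _ => Finset.sum_nonneg fun p _ => by positivity
  have hB0 : 0 ≤ B := Finset.sum_nonneg fun p _ => sq_nonneg _
  have hlow : M / 100 * A - 576 / 1000 * M * B ≤ ∑ p, F p ^ 2 * G p := by
    rw [hA, hB, Finset.sum_filter, Finset.sum_filter, Finset.mul_sum, Finset.mul_sum,
      ← Finset.sum_sub_distrib]
    apply Finset.sum_le_sum
    intro p _
    have hF := sq_nonneg (F p)
    by_cases h1 : p.1 ∈ T 0 ∧ p.2 ∈ T 0
    · rw [if_neg (not_not.mpr h1)]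
      by_cases h0 : p = 0
      · rw [if_neg (by simp [h0])]
        subst h0
        have := mul_nonneg hF hG0
        linarith
      · rw [if_pos ⟨h0, h1⟩]
        have := mul_le_mul_of_nonneg_left (hGA p h0 h1.1 h1.2) hF
        linarith
    · rw [if_pos h1, if_neg (fun hc => h1 hc.2)]
      have := mul_le_mul_of_nonneg_left (hGB p) hF
      linarith
  have hfin : M / 100 * A ≤ E + 576 / 1000 * M * B := by linarith
  have h100 : A ≤ 100 / M * E + 57.6 * B := by
    have hM0 : 0 < M := by linarith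
    have : A = (100 / M) * (M / 100 * A) := by field_simp
    rw [this]
    calc (100 / M) * (M / 100 * A) ≤ (100 / M) * (E + 576 / 1000 * M * B) :=
          mul_le_mul_of_nonneg_left hfin (by positivity)
      _ = 100 / M * E + 57.6 * B := by
          field_simp
          ring
  have hdiv : 100 / M ≤ 100 := by
    rw [div_le_iff₀ (by linarith)]
    linarith
  have := mul_le_mul_of_nonneg_right hdiv hE0
  linarith

end Pool.Agent.MPfe8e9b
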