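import Mathlib
import Pool.Agent.Lib.MP_fe8e9b_al.Defs3
import Pool.Agent.Lib.MP_fe8e9b_al.Hardy
import Pool.Agent.Lib.MP_fe8e9b_al.Burger
import Pool.Agent.Lib.MP_fe8e9b_al.CharDec

/-!
# MP_fe8e9b_al: relative property (T) for `EL₂(R) ⋉ R²`, `R` a finite ring with `k` generators
-/

set_option autoImplicit false

open scoped BigOperators MatrixGroups Pointwise

namespace Pool.Agent.MPfe8e9b

namespace RelT

/-- The additive subgroup spanned by the words of length at most `n`. -/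
def W {R : Type} [Ring R] {k : ℕ} (y : Fin (k + 1) → R) : ℕ → AddSubgroup R
  | 0 => AddSubgroup.zmultiples 1
  | n + 1 => AddSubgroup.closure {z | ∃ i, ∃ w ∈ W y n, z = y i * w}

theorem mul_mem_W {R : Type} [Ring R] {k : ℕ} (y : Fin (k + 1) → R) (n : ℕ) (i : Fin (k + 1))
    {w : R} (hw : w ∈ W y n) : y i * w ∈ W y (n + 1) :=
  AddSubgroup.subset_closure ⟨i, w, hw, rfl⟩

theorem W_mono {R : Type} [Ring R] {k : ℕ} (y : Fin (k + 1) → R) (hy : y 0 = 1) :
    Monotone (W y) := by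
  refine monotone_nat_of_le_succ fun n w hw => ?_
  have := mul_mem_W y n 0 hw
  rwa [hy, one_mul] at this

theorem exists_W {R : Type} [Ring R] {k : ℕ} (x : Fin k → R) (r : R)
    (hr : r ∈ Subring.closure (Set.range x)) : ∃ n, ∀ m, ∀ w ∈ W (Fin.cons 1 x : Fin (k + 1) → R) m,
      r * w ∈ W (Fin.cons 1 x : Fin (k + 1) → R) (m + n) := by
  have hmono := W_mono (Fin.cons 1 x : Fin (k + 1) → R) (by simp)
  induction hr using Subring.closure_induction with
  | mem r hr =>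
    obtain ⟨i, rfl⟩ := hr
    refine ⟨1, fun m w hw => ?_⟩
    have := mul_mem_W (Fin.cons 1 x : Fin (k + 1) → R) m i.succ hw
    simpa using this
  | zero =>
    refine ⟨0, fun m w _ => ?_⟩
    rw [zero_mul]
    exact zero_mem _
  | one =>
    refine ⟨0, fun m w hw => ?_⟩
    rwa [one_mul]
  | add r s _ _ hr hs =>
    obtain ⟨a, ha⟩ := hr
    obtain ⟨b, hb⟩ := hs
    refine ⟨a + b, fun m w hw => ?_⟩
    rw [add_mul]
    exact add_mem (hmono (by omega) (ha m w hw)) (hmono (by omega) (hb m w hw))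
  | neg r _ hr =>
    obtain ⟨a, ha⟩ := hr
    refine ⟨a, fun m w hw => ?_⟩
    rw [neg_mul]
    exact neg_mem (ha m w hw)
  | mul r s _ _ hr hs =>
    obtain ⟨a, ha⟩ := hr
    obtain ⟨b, hb⟩ := hs
    refine ⟨b + a, fun m w hw => ?_⟩
    rw [mul_assoc]
    have := ha (m + b) _ (hb m w hw)
    rwa [add_assoc] at this

theorem exists_top {R : Type} [Ring R] [Fintype R] {k : ℕ} (x : Fin k → R)
    (hx : Subring.closure (Set.range x) = ⊤) :
    ∃ N, W (Fin.cons 1 x : Fin (k + 1) → R) N = ⊤ := by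
  have hmono := W_mono (Fin.cons 1 x : Fin (k + 1) → R) (by simp)
  have h1 : ∀ r : R, ∃ n, r ∈ W (Fin.cons 1 x : Fin (k + 1) → R) n := by
    intro r
    obtain ⟨n, hn⟩ := exists_W x r (by rw [hx]; trivial)
    refine ⟨0 + n, ?_⟩
    have := hn 0 1 (AddSubgroup.mem_zmultiples 1)
    rwa [mul_one] at this
  choose n hn using h1
  refine ⟨Finset.univ.sup n, ?_⟩
  rw [eq_top_iff]
  intro r _
  exact hmono (Finset.le_sup (Finset.mem_univ r)) (hn r)

/-- The characters which are trivial on `W y n`. -/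
def T {R : Type} [Ring R] {k : ℕ} (y : Fin (k + 1) → R) (n : ℕ) : AddSubgroup (AddChar R ℂ) where
  carrier := {χ | ∀ w ∈ W y n, χ w = 1}
  zero_mem' := fun _ _ => rfl
  add_mem' := by
    intro a b ha hb w hw
    rw [AddChar.add_apply, ha w hw, hb w hw, one_mul]
  neg_mem' := by
    intro a ha w hw
    rw [AddChar.neg_apply]
    exact ha _ (neg_mem hw)

theorem mem_T {R : Type} [Ring R] {k : ℕ} (y : Fin (k + 1) → R) (n : ℕ) (χ : AddChar R ℂ) :
    χ ∈ T y n ↔ ∀ w ∈ W y n, χ w = 1 := Iff.rfl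

theorem mem_T_zero {R : Type} [Ring R] {k : ℕ} (y : Fin (k + 1) → R) (χ : AddChar R ℂ) :
    χ ∈ T y 0 ↔ χ 1 = 1 := by
  rw [mem_T]
  constructor
  · intro h
    exact h 1 (AddSubgroup.mem_zmultiples 1)
  · intro h w hw
    obtain ⟨n, rfl⟩ := AddSubgroup.mem_zmultiples_iff.mp hw
    rw [AddChar.map_zsmul_eq_zpow, h, one_zpow]

theorem sum_lmul {R : Type} [Ring R] {k : ℕ} (x : Fin k → R) (c : Finset (Fin (k + 1)))
    (χ : AddChar R ℂ) :
    ∑ i ∈ c, lmul ((Fin.cons 1 x : Fin (k + 1) → R) i) χ = lmul (bt x c) χ := by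
  induction c using Finset.induction_on with
  | empty =>
    ext w
    simp [bt, lmul_apply]
  | insert a s ha ih =>
    rw [Finset.sum_insert ha, ih]
    ext w
    rw [AddChar.add_apply, lmul_apply, lmul_apply, lmul_apply, bt, bt, Finset.sum_insert ha,
      add_mul, AddChar.map_add_eq_mul]

end RelT

open RelT in
theorem rel_t (k : ℕ) : ∃ K : ℝ, 0 < K ∧ ∀ (R : Type) [Ring R] [Fintype R] (x : Fin k → R),
    Subring.closure (Set.range x) = ⊤ → ∀ (G : Type) [Group G] [Fintype G]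
    (p12 p21 q1 q2 : Multiplicative R →* G), EL2 p12 p21 q1 q2 → ∀ (f : G → ℂ) (D : ℝ),
    (∀ c : Finset (Fin (k + 1)), sq (rt (p12 (Multiplicative.ofAdd (bt x c))) f - f) ≤ D ∧
      sq (rt (p21 (Multiplicative.ofAdd (bt x c))) f - f) ≤ D) →
    sq (rt (q1 (Multiplicative.ofAdd 1)) f - f) ≤ D →
    sq (rt (q2 (Multiplicative.ofAdd 1)) f - f) ≤ D →
    sq (f - avh q1 f) ≤ K * D := by
  classical
  obtain ⟨K₁, hK₁, h₁⟩ := hardy k
  obtain ⟨K₂, hK₂, h₂⟩ := burger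
  refine ⟨K₁ * (2 * 2 ^ (k + 1) + 4 * K₂) + 4 * K₂, by positivity, ?_⟩
  intro R _ _ x hx G _ _ p12 p21 q1 q2 hE f D hD hD1 hD2
  obtain ⟨F, hF1, hF2, hF3, hF4, hF5⟩ := char_dec p12 p21 q1 q2 hE f
  set y : Fin (k + 1) → R := Fin.cons 1 x with hy
  have hy0 : y 0 = 1 := by simp [hy]
  have hbt0 : bt x {0} = 1 := by simp [bt]
  obtain ⟨N, hN⟩ := exists_top x hx
  -- bottom
  have hbot : ∑ p ∈ Finset.univ.filter (fun p : AddChar R ℂ × AddChar R ℂ =>
      ¬ (p.1 ∈ T y 0 ∧ p.2 ∈ T y 0)), F p ^ 2 ≤ 4 * K₂ * D := by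
    have h3 := h₂ (AddChar R ℂ) (fun χ => χ 1) (fun u v => AddChar.add_apply u v 1)
      (fun u => AddChar.norm_apply u 1) F
    have h4 : (Finset.univ.filter (fun p : AddChar R ℂ × AddChar R ℂ =>
        ¬ (p.1 ∈ T y 0 ∧ p.2 ∈ T y 0))) = Finset.univ.filter
        (fun p : AddChar R ℂ × AddChar R ℂ => ¬ (p.1 1 = 1 ∧ p.2 1 = 1)) := by
      refine Finset.filter_congr fun p _ => ?_
      rw [mem_T_zero, mem_T_zero]
    rw [h4]
    refine h3.trans ?_
    have h5 : ∑ p : AddChar R ℂ × AddChar R ℂ, ((F (p.1, p.2 + p.1) - F p) ^ 2 +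
        (F (p.1 + p.2, p.2) - F p) ^ 2) ≤ 2 * D := by
      rw [Finset.sum_add_distrib]
      have h6 := (hF2 (bt x {0})).trans (hD {0}).1
      have h7 := (hF3 (bt x {0})).trans (hD {0}).2
      rw [hbt0] at h6 h7
      have h8 : ∀ χ : AddChar R ℂ, lmul (1 : R) χ = χ := by
        intro χ
        ext w
        rw [lmul_apply, one_mul]
      simp only [h8] at h6 h7
      linarith
    have h6 : ∑ p : AddChar R ℂ × AddChar R ℂ, (‖p.1 1 - 1‖ ^ 2 + ‖p.2 1 - 1‖ ^ 2) * F p ^ 2 ≤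
        2 * D := by
      have h7 : ∀ p : AddChar R ℂ × AddChar R ℂ, (‖p.1 1 - 1‖ ^ 2 + ‖p.2 1 - 1‖ ^ 2) * F p ^ 2 =
          ‖p.1 1 - 1‖ ^ 2 * F p ^ 2 + ‖p.2 1 - 1‖ ^ 2 * F p ^ 2 := fun p => add_mul _ _ _
      rw [Finset.sum_congr rfl (fun p _ => h7 p), Finset.sum_add_distrib]
      linarith
    nlinarith
  -- the rest
  have htop := h₁ (AddChar R ℂ) (fun i => lmul (y i)) (T y) (by
      intro u
      ext w
      rw [hy0, lmul_apply, one_mul])
    (by
      intro m n hmn χ hχ w hw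
      exact hχ w (W_mono y hy0 hmn hw))
    (by
      intro n i u hu w hw
      rw [lmul_apply]
      exact hu _ (mul_mem_W y n i hw))
    (by
      intro n u hu w hw
      change w ∈ AddSubgroup.closure {z | ∃ i, ∃ w ∈ W y n, z = y i * w} at hw
      induction hw using AddSubgroup.closure_induction with
      | mem z hz =>
        obtain ⟨i, w, hw, rfl⟩ := hz
        exact hu i w hw
      | zero => exact AddChar.map_zero_eq_one u
      | add a b _ _ ha hb => rw [AddChar.map_add_eq_mul, ha, hb, one_mul]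
      | neg a _ ha => rw [AddChar.map_neg_eq_inv, ha, inv_one])
    ⟨N, by
      rw [eq_bot_iff]
      intro χ hχ
      rw [AddSubgroup.mem_bot]
      ext w
      exact hχ w (by rw [hN]; trivial)⟩ F
  have hsum : ∑ c : Finset (Fin (k + 1)), ∑ p : AddChar R ℂ × AddChar R ℂ,
      ((F (p.1, p.2 + ∑ i ∈ c, lmul (y i) p.1) - F p) ^ 2 +
        (F (p.1 + ∑ i ∈ c, lmul (y i) p.2, p.2) - F p) ^ 2) ≤ 2 * 2 ^ (k + 1) * D := by
    have h3 : ∀ c : Finset (Fin (k + 1)), ∑ p : AddChar R ℂ × AddChar R ℂ,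
      ((F (p.1, p.2 + ∑ i ∈ c, lmul (y i) p.1) - F p) ^ 2 +
        (F (p.1 + ∑ i ∈ c, lmul (y i) p.2, p.2) - F p) ^ 2) ≤ 2 * D := by
      intro c
      rw [Finset.sum_add_distrib]
      simp only [hy, sum_lmul]
      have h4 := (hF2 (bt x c)).trans (hD c).1
      have h5 := (hF3 (bt x c)).trans (hD c).2
      linarith
    refine (Finset.sum_le_card_nsmul _ _ _ (fun c _ => h3 c)).trans (le_of_eq ?_)
    rw [Finset.card_univ, Fintype.card_finset, Fintype.card_fin, nsmul_eq_mul]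
    push_cast
    ring
  have hall : ∑ p ∈ Finset.univ.filter (fun p : AddChar R ℂ × AddChar R ℂ => p ≠ 0), F p ^ 2 ≤
      ∑ p ∈ Finset.univ.filter (fun p : AddChar R ℂ × AddChar R ℂ =>
        p ≠ 0 ∧ p.1 ∈ T y 0 ∧ p.2 ∈ T y 0), F p ^ 2 +
      ∑ p ∈ Finset.univ.filter (fun p : AddChar R ℂ × AddChar R ℂ =>
        ¬ (p.1 ∈ T y 0 ∧ p.2 ∈ T y 0)), F p ^ 2 := by
    rw [← Finset.sum_union]
    · refine Finset.sum_le_sum_of_subset_of_nonneg ?_ (fun p _ _ => sq_nonneg _)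
      intro p hp
      rw [Finset.mem_union, Finset.mem_filter, Finset.mem_filter]
      have hp' := (Finset.mem_filter.mp hp).2
      by_cases h : p.1 ∈ T y 0 ∧ p.2 ∈ T y 0
      · exact Or.inl ⟨Finset.mem_univ _, hp', h⟩
      · exact Or.inr ⟨Finset.mem_univ _, h⟩
    · rw [Finset.disjoint_left]
      intro p hp hp'
      exact (Finset.mem_filter.mp hp').2 (Finset.mem_filter.mp hp).2.2
  have htop' : ∑ p ∈ Finset.univ.filter (fun p : AddChar R ℂ × AddChar R ℂ =>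
        p ≠ 0 ∧ p.1 ∈ T y 0 ∧ p.2 ∈ T y 0), F p ^ 2 ≤
      K₁ * (2 * 2 ^ (k + 1) * D + 4 * K₂ * D) := by
    refine htop.trans ?_
    exact mul_le_mul_of_nonneg_left (add_le_add hsum hbot) hK₁.le
  calc sq (f - avh q1 f) ≤ _ := hF1
    _ ≤ _ := hall
    _ ≤ K₁ * (2 * 2 ^ (k + 1) * D + 4 * K₂ * D) + 4 * K₂ * D := add_le_add htop' hbot
    _ = (K₁ * (2 * 2 ^ (k + 1) + 4 * K₂) + 4 * K₂) * D := by ring

end Pool.Agent.MPfe8e9b
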