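import Mathlib
import Pool.Agent.Lib.MP_fe8e9b_al.Defs3
import Pool.Agent.Lib.MP_fe8e9b_al.El3
import Pool.Agent.Lib.MP_fe8e9b_al.Final
import Pool.Agent.Lib.MP_fe8e9b_al.SLn
import Pool.Agent.Lib.MP_fe8e9b_al.RelT
import Pool.Agent.Lib.MP_fe8e9b_al.BoundGen

/-!
# MP_fe8e9b_al: gap for products of `SL_{3m}(F)` over rings with few generators
-/

set_option autoImplicit false

open scoped BigOperators MatrixGroups Pointwise

namespace Pool.Agent.MPfe8e9b

namespace Expd3

open El3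

/-- The special linear group of `3m × 3m` matrices. -/
abbrev SL3 (m : ℕ) (F : Type) [Field F] := Matrix.SpecialLinearGroup (Fin 3 × Fin m) F

/-- Block elementary matrix as an element of the special linear group. -/
noncomputable def elS (m : ℕ) (F : Type) [Field F] (a b : Fin 3) (h : a ≠ b)
    (r : Matrix (Fin m) (Fin m) F) : SL3 m F :=
  ⟨Matrix.comp (Fin 3) (Fin 3) (Fin m) (Fin m) F (el a b r), cdet_el m F a b h r⟩

/-- An element of the special linear group as a `3 × 3` matrix. -/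
def un (m : ℕ) (F : Type) [Field F] (g : SL3 m F) :
    Matrix (Fin 3) (Fin 3) (Matrix (Fin m) (Fin m) F) :=
  (Matrix.compRingEquiv (Fin 3) (Fin m) F).symm g.1

theorem un_inj (m : ℕ) (F : Type) [Field F] : Function.Injective (un m F) := by
  intro g h hgh
  exact Subtype.ext ((Matrix.compRingEquiv (Fin 3) (Fin m) F).symm.injective hgh)

theorem un_mul (m : ℕ) (F : Type) [Field F] (g h : SL3 m F) :
    un m F (g * h) = un m F g * un m F h := by
  show (Matrix.compRingEquiv (Fin 3) (Fin m) F).symm (g.1 * h.1) = _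
  rw [map_mul]
  rfl

theorem un_one (m : ℕ) (F : Type) [Field F] : un m F 1 = 1 := by
  show (Matrix.compRingEquiv (Fin 3) (Fin m) F).symm 1 = _
  rw [map_one]

theorem un_elS (m : ℕ) (F : Type) [Field F] (a b : Fin 3) (h : a ≠ b)
    (r : Matrix (Fin m) (Fin m) F) : un m F (elS m F a b h r) = el a b r := rfl

theorem un_det (m : ℕ) (F : Type) [Field F] (g : SL3 m F) :
    (Matrix.comp (Fin 3) (Fin 3) (Fin m) (Fin m) F (un m F g)).det = 1 := g.2

/-- Root homomorphism. -/
noncomputable def E {ι : Type} (m : ι → ℕ) (F : ι → Type) [∀ i, Field (F i)] (a b : Fin 3)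
    (h : a ≠ b) : Multiplicative (∀ i, Matrix (Fin (m i)) (Fin (m i)) (F i)) →*
      (∀ i, SL3 (m i) (F i)) where
  toFun r := fun i => elS (m i) (F i) a b h (Multiplicative.toAdd r i)
  map_one' := by
    funext i
    apply un_inj
    rw [un_elS]
    show el a b 0 = un _ _ 1
    rw [el_zero, un_one]
  map_mul' r s := by
    funext i
    apply un_inj
    rw [Pi.mul_apply, un_mul, un_elS, un_elS, un_elS, el_mul a b h]
    rfl

theorem EL2_E {ι : Type} (m : ι → ℕ) (F : ι → Type) [∀ i, Field (F i)] (a b c : Fin 3)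
    (hab : a ≠ b) (hac : a ≠ c) (hca : c ≠ a) (hcb : c ≠ b) :
    EL2 (E m F a c hac) (E m F c a hca) (E m F a b hab) (E m F c b hcb) where
  qq u v := by
    funext i
    apply un_inj
    rw [Pi.mul_apply, Pi.mul_apply, un_mul, un_mul]
    exact el_comm a b c b hcb.symm hab.symm _ _
  p12q1 r u := by
    funext i
    apply un_inj
    rw [Pi.mul_apply, Pi.mul_apply, un_mul, un_mul]
    exact el_comm a c a b hca hab.symm _ _
  p12q2 r v := by
    funext i
    apply un_inj
    rw [Pi.mul_apply, Pi.mul_apply, Pi.mul_apply, un_mul, un_mul, un_mul]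
    exact el_st a c b hac hcb hab _ _
  p21q2 r v := by
    funext i
    apply un_inj
    rw [Pi.mul_apply, Pi.mul_apply, un_mul, un_mul]
    exact el_comm c a c b hac hcb.symm _ _
  p21q1 r u := by
    funext i
    apply un_inj
    rw [Pi.mul_apply, Pi.mul_apply, Pi.mul_apply, un_mul, un_mul, un_mul]
    exact el_st c a b hca hab hcb _ _

/-- Displacement from a bound on the distance to the invariants. -/
theorem dsp_of_avh {H G : Type} [Group H] [Fintype H] [Group G] [Fintype G] (φ : H →* G)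
    (f : G → ℂ) {B : ℝ} (hB : sq (f - avh φ f) ≤ B) (h : H) :
    SLn.dsp f (φ h) ≤ 2 * Real.sqrt B := by
  have h2 : SLn.nrm (f - avh φ f) ≤ Real.sqrt B := Real.sqrt_le_sqrt hB
  have h3 : rt (φ h) f - f = rt (φ h) (f - avh φ f) + -(f - avh φ f) := by
    rw [rt_sub, rt_avh_self]
    abel
  rw [SLn.dsp, h3]
  refine (SLn.nrm_add_le _ _).trans ?_
  rw [SLn.nrm_rt, SLn.nrm_neg]
  linarith

theorem dsp_ELs {ι : Type} (m : ι → ℕ) (F : ι → Type) [∀ i, Field (F i)]
    [Fintype (∀ i, SL3 (m i) (F i))] (f : (∀ i, SL3 (m i) (F i)) → ℂ) {b : ℝ}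
    (hE : ∀ a b' (h : a ≠ b') r, SLn.dsp f (E m F a b' h r) ≤ b)
    (l : List (Fin 3 × Fin 3)) (hl : ∀ ρ ∈ l, ρ.1 ≠ ρ.2) (g : ∀ i, SL3 (m i) (F i))
    (hg : ∀ i, un _ _ (g i) ∈ ELs l) : SLn.dsp f g ≤ l.length * b := by
  induction l generalizing g with
  | nil =>
    have h1 : g = 1 := by
      funext i
      apply un_inj
      have h2 : un _ _ (g i) = 1 := hg i
      rw [h2, Pi.one_apply, un_one]
    rw [h1, SLn.dsp_one]
    simp
  | cons ρ l ih =>
    choose r y hy hgy using hg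
    have hρ := hl ρ (List.mem_cons_self ..)
    set e := E m F ρ.1 ρ.2 hρ (Multiplicative.ofAdd r) with he
    have h1 : ∀ i, un _ _ ((e⁻¹ * g) i) = y i := by
      intro i
      have h2 : un _ _ (e i * (e⁻¹ * g) i) = el ρ.1 ρ.2 (r i) * y i := by
        rw [← hgy i, Pi.mul_apply, Pi.inv_apply, mul_inv_cancel_left]
      rw [un_mul] at h2
      have h3 : un _ _ (e i) = el ρ.1 ρ.2 (r i) := rfl
      rw [h3] at h2
      have h4 := congrArg (fun z => el ρ.1 ρ.2 (-(r i)) * z) h2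
      simp only [← mul_assoc, neg_el _ _ hρ, one_mul] at h4
      exact h4
    have h2 := ih (fun ρ hρ => hl ρ (List.mem_cons_of_mem _ hρ)) (e⁻¹ * g) (fun i => by
      rw [h1 i]
      exact hy i)
    have h3 := SLn.dsp_mul f e (e⁻¹ * g)
    rw [mul_inv_cancel_left] at h3
    have h4 := hE ρ.1 ρ.2 hρ (Multiplicative.ofAdd r)
    rw [List.length_cons]
    push_cast
    linarith

end Expd3

open Expd3 in
theorem expd_el3 (k : ℕ) : ∃ (K : ℕ) (κ : ℝ), 0 < κ ∧ ∀ (ι : Type) [Fintype ι]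
    (m : ι → ℕ) (F : ι → Type) [∀ i, Field (F i)] [∀ i, Fintype (F i)],
    (∃ x : Fin k → (∀ i, Matrix (Fin (m i)) (Fin (m i)) (F i)),
      Subring.closure (Set.range x) = ⊤) →
    FExpd (∀ i, Matrix.SpecialLinearGroup (Fin 3 × Fin (m i)) (F i)) K κ := by
  classical
  obtain ⟨K₀, hK₀, hrel⟩ := rel_t k
  obtain ⟨l, hl, hbg⟩ := bound_gen
  let J := Fin 3 × Fin 3 × Finset (Fin (k + 1))
  refine ⟨Fintype.card J, 1 / (4 * l.length ^ 2 * K₀ + 1), by positivity, ?_⟩
  intro ι _ m F _ _ hx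
  obtain ⟨x, hx⟩ := hx
  have : ∀ i, Finite (SL3 (m i) (F i)) := fun i => inferInstance
  let inst : Fintype (∀ i, SL3 (m i) (F i)) := Fintype.ofFinite _
  refine ⟨inst, ?_⟩
  let s : J → (∀ i, SL3 (m i) (F i)) := fun j =>
    if h : j.1 ≠ j.2.1 then E m F j.1 j.2.1 h (Multiplicative.ofAdd (bt x j.2.2)) else 1
  refine ⟨fun t => s ((Fintype.equivFin J).symm t), ?_⟩
  intro f hf
  have hsum : ∑ t, sq (rt (s ((Fintype.equivFin J).symm t)) f - f) =
      ∑ j : J, sq (rt (s j) f - f) :=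
    Fintype.sum_equiv (Fintype.equivFin J).symm _ _ fun _ => rfl
  rw [hsum]
  set D := ∑ j : J, sq (rt (s j) f - f) with hD
  have hD0 : 0 ≤ D := Finset.sum_nonneg fun _ _ => sq_nonneg' _
  have h1 : ∀ a b (h : a ≠ b) c,
      sq (rt (E m F a b h (Multiplicative.ofAdd (bt x c))) f - f) ≤ D := by
    intro a b h c
    have h2 : s (a, b, c) = E m F a b h (Multiplicative.ofAdd (bt x c)) := by
      simp only [s]
      rw [dif_pos h]
    rw [← h2]
    exact Finset.single_le_sum (f := fun j => sq (rt (s j) f - f))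
      (fun _ _ => sq_nonneg' _) (Finset.mem_univ (a, b, c))
  have hbt0 : bt x {0} = 1 := by simp [bt]
  have h2 : ∀ a b (h : a ≠ b), sq (f - avh (E m F a b h) f) ≤ K₀ * D := by
    intro a b h
    obtain ⟨c, hac, hcb⟩ := El3.exists_third a b h
    refine hrel _ x hx _ _ _ _ _ (EL2_E m F a b c h hac hac.symm hcb) f D
      (fun c' => ⟨h1 _ _ _ _, h1 _ _ _ _⟩) ?_ ?_
    · have := h1 a b h {0}
      rwa [hbt0] at this
    · have := h1 c b hcb {0}
      rwa [hbt0] at this
  have h3 : ∀ a b (h : a ≠ b) r, SLn.dsp f (E m F a b h r) ≤ 2 * Real.sqrt (K₀ * D) :=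
    fun a b h r => dsp_of_avh _ f (h2 a b h) r
  have h4 : ∀ g, SLn.dsp f g ≤ l.length * (2 * Real.sqrt (K₀ * D)) := fun g =>
    dsp_ELs m F f h3 l hl g fun i => hbg _ _ _ (un_det _ _ _)
  have h5 := SLn.sq_le_of_dsp f hf h4
  have h6 : (l.length * (2 * Real.sqrt (K₀ * D))) ^ 2 = 4 * l.length ^ 2 * K₀ * D := by
    rw [mul_pow, mul_pow, Real.sq_sqrt (by positivity)]
    ring
  rw [h6] at h5
  rw [div_mul_eq_mul_div, one_mul, div_le_iff₀ (by positivity)]
  nlinarith

end Pool.Agent.MPfe8e9b
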