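import Mathlib
import Pool.Agent.Lib.MP_fe8e9b_al.Two

/-!
# MP_fe8e9b_al: extensions
-/

open scoped BigOperators MatrixGroups Pointwise

namespace Pool.Agent.MPfe8e9b

theorem avh_rt_normal {G : Type*} [Group G] (N : Subgroup G) [N.Normal] [Fintype N] (t : G)
    (f : G → ℂ) : avh N.subtype (rt t f) = rt t (avh N.subtype f) := by
  funext g
  simp only [avh, rt_apply, Subgroup.coe_subtype]
  congr 1
  let e : N ≃ N := ⟨fun n => ⟨t⁻¹ * n.1 * t, by
      have := ‹N.Normal›.conj_mem n.1 n.2 t⁻¹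
      simpa using this⟩, fun n => ⟨t * n.1 * t⁻¹, ‹N.Normal›.conj_mem n.1 n.2 t⟩,
    fun n => by
      apply Subtype.ext
      simp only
      group, fun n => by
      apply Subtype.ext
      simp only
      group⟩
  refine Fintype.sum_equiv e _ _ fun n => ?_
  congr 1
  show g * n.1 * t = g * t * (t⁻¹ * n.1 * t)
  group

/-- EXT. -/
theorem expd_ext {G : Type*} [Group G] [Fintype G] (N : Subgroup G) [N.Normal] [Fintype N]
    [Fintype (G ⧸ N)] {k₁ k₂ : ℕ} {κ : ℝ} (h₁ : Expd N k₁ κ)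
    (h₂ : Expd (G ⧸ N) k₂ κ) : Expd G (k₁ + k₂) κ := by
  obtain ⟨s₁, hs₁⟩ := h₁
  obtain ⟨s₂, hs₂⟩ := h₂
  refine ⟨Fin.append (fun i => (s₁ i : G)) (fun i => (s₂ i).out), ?_⟩
  intro f hf
  rw [Fin.sum_univ_add]
  simp only [Fin.append_left, Fin.append_right]
  obtain ⟨n, hn, hsum⟩ := sum_comp_surj (QuotientGroup.mk' N) (QuotientGroup.mk'_surjective N)
  have hn' : (0 : ℝ) < n := by exact_mod_cast hn
  set P := avh N.subtype f with hP
  let F : G ⧸ N → ℂ := fun x => P x.out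
  have hF : ∀ g : G, F (QuotientGroup.mk' N g) = P g := by
    intro g
    obtain ⟨h, hh⟩ := QuotientGroup.mk_out_eq_mul N g
    show P (QuotientGroup.mk g : G ⧸ N).out = P g
    rw [hh]
    exact avh_inv N.subtype f h g
  have hFsum : ∑ x, F x = 0 := by
    have h1 : ∑ g, F (QuotientGroup.mk' N g) = n • ∑ x, F x := hsum F
    simp only [hF] at h1
    rw [hP, sum_avh, hf] at h1
    have h2 : (n : ℂ) * ∑ x, F x = 0 := by rw [← nsmul_eq_mul, ← h1]
    rcases mul_eq_zero.mp h2 with h3 | h3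
    · exact absurd (by exact_mod_cast h3) hn.ne'
    · exact h3
  have h1 := hs₂ F hFsum
  have h2 : sq P = n * sq F := by
    unfold sq
    rw [← nsmul_eq_mul, ← hsum (fun x => ‖F x‖ ^ 2)]
    exact Finset.sum_congr rfl fun g _ => by rw [hF]
  have h3 : ∀ i, sq (rt (s₂ i).out P - P) = n * sq (rt (s₂ i) F - F) := by
    intro i
    unfold sq
    rw [← nsmul_eq_mul, ← hsum (fun x => ‖(rt (s₂ i) F - F) x‖ ^ 2)]
    refine Finset.sum_congr rfl fun g _ => ?_
    simp only [Pi.sub_apply, rt_apply, hF]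
    rw [← hF (g * (s₂ i).out), map_mul]
    have h9 : QuotientGroup.mk' N (s₂ i).out = s₂ i := QuotientGroup.out_eq' (s₂ i)
    rw [h9]
  have h4 : κ * sq P ≤ ∑ i, sq (rt (s₂ i).out f - f) := by
    have h5 : κ * sq P ≤ ∑ i, sq (rt (s₂ i).out P - P) := by
      simp only [h2, h3, ← Finset.mul_sum]
      nlinarith
    refine h5.trans (Finset.sum_le_sum fun i _ => ?_)
    have h6 : rt (s₂ i).out P - P = avh N.subtype (rt (s₂ i).out f - f) := by
      rw [avh_sub, avh_rt_normal]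
    rw [h6]
    exact sq_avh_le _ _
  have h7 := gap_sub N.subtype s₁ hs₁ f
  rw [sq_sub_avh] at h7
  have h8 : ∑ i, sq (rt (N.subtype (s₁ i)) f - f) = ∑ i, sq (rt (s₁ i : G) f - f) := rfl
  rw [h8] at h7
  nlinarith

end Pool.Agent.MPfe8e9b
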