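import Mathlib
import Pool.Agent.Lib.MP_fe8e9b_al.Two

/-!
# MP_fe8e9b_al: families with bounded multiplicities
-/

open scoped BigOperators MatrixGroups Pointwise

namespace Pool.Agent.MPfe8e9b

/-- FAM. Families with bounded multiplicities. -/
theorem expd_family
    (hpow : ∃ p₀ : ℕ, ∀ e : ℕ, ∃ (k : ℕ) (κ : ℝ), 0 < κ ∧ ∀ (ι : Type) [Fintype ι]
      [DecidableEq ι] (p : ι → ℕ) [∀ i, Fact (p i).Prime], Function.Injective p →
      (∀ i, p₀ ≤ p i) → Expd (∀ i, (Fin ((p i) ^ e) → SL(2, ZMod (p i)))) k κ) :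
    ∃ p₀ : ℕ, ∀ e : ℕ, ∃ (k : ℕ) (κ : ℝ), 0 < κ ∧ ∀ (ι : Type) [Fintype ι] [DecidableEq ι]
      (p : ι → ℕ) [∀ i, Fact (p i).Prime],
      (∀ q : ℕ, (Finset.univ.filter (fun i => p i = q)).card ≤ q ^ e) → (∀ i, p₀ ≤ p i) →
      Expd (∀ i, SL(2, ZMod (p i))) k κ := by
  obtain ⟨p₀, hp₀⟩ := hpow
  refine ⟨p₀, fun e => ?_⟩
  obtain ⟨k, κ, hκ, h⟩ := hp₀ e
  refine ⟨k, κ, hκ, ?_⟩
  intro ι _ _ p _ hmult hlarge
  classical
  -- the set of primes
  let Q : Type := {q // q ∈ Finset.univ.image p}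
  let _ : Fintype Q := inferInstanceAs (Fintype {q // q ∈ Finset.univ.image p})
  let _ : DecidableEq Q := inferInstanceAs (DecidableEq {q // q ∈ Finset.univ.image p})
  have hQ : ∀ q : Q, ∃ i, p i = q.1 := fun q => by
    obtain ⟨i, -, hi⟩ := Finset.mem_image.mp q.2
    exact ⟨i, hi⟩
  have hfact : ∀ q : Q, Fact (q.1.Prime) := fun q => by
    obtain ⟨i, hi⟩ := hQ q
    rw [← hi]
    infer_instance
  have h1 := h Q (fun q => q.1) Subtype.val_injective (fun q => by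
    obtain ⟨i, hi⟩ := hQ q
    rw [← hi]
    exact hlarge i)
  -- injections of the fibres
  have hg : ∀ q : ℕ, ∃ g : {i // p i = q} → Fin (q ^ e), Function.Injective g := by
    intro q
    have hc : Fintype.card {i // p i = q} ≤ Fintype.card (Fin (q ^ e)) := by
      rw [Fintype.card_subtype, Fintype.card_fin]
      exact hmult q
    obtain ⟨g⟩ := Function.Embedding.nonempty_of_card_le hc
    exact ⟨g, g.injective⟩
  choose g hg using hg
  have hmem : ∀ i, p i ∈ Finset.univ.image p := fun i =>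
    Finset.mem_image_of_mem p (Finset.mem_univ i)
  let φ : (∀ q : Q, (Fin (q.1 ^ e) → SL(2, ZMod q.1))) →* (∀ i, SL(2, ZMod (p i))) :=
    { toFun := fun u i => u ⟨p i, hmem i⟩ (g (p i) ⟨i, rfl⟩)
      map_one' := rfl
      map_mul' := fun _ _ => rfl }
  refine expd_surj φ ?_ h1
  intro v
  refine ⟨fun q x => if hx : ∃ i : {i // p i = q.1}, g q.1 i = x then
    (hx.choose.2 ▸ v hx.choose.1 : SL(2, ZMod q.1)) else 1, ?_⟩
  funext i
  have hx : ∃ j : {j // p j = p i}, g (p i) j = g (p i) ⟨i, rfl⟩ := ⟨⟨i, rfl⟩, rfl⟩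
  have h2 : hx.choose = ⟨i, rfl⟩ := hg (p i) hx.choose_spec
  have h3 : ∀ j : {j // p j = p i}, j = ⟨i, rfl⟩ →
      (j.2 ▸ v j.1 : SL(2, ZMod (p i))) = v i := by
    rintro _ rfl
    rfl
  show (if hx : ∃ j : {j // p j = p i}, g (p i) j = g (p i) ⟨i, rfl⟩ then
    (hx.choose.2 ▸ v hx.choose.1 : SL(2, ZMod (p i))) else 1) = v i
  rw [dif_pos hx]
  exact h3 _ h2

end Pool.Agent.MPfe8e9b
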