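import Mathlib
import Pool.Agent.Lib.MP_fe8e9b_al.Two

/-!
# MP_fe8e9b_al: families of finite fields with bounded multiplicities
-/

open scoped BigOperators MatrixGroups Pointwise

namespace Pool.Agent.MPfe8e9b

/-- FAMF. -/
theorem expd_familyF
    (hpow : ∃ q₀ : ℕ, ∀ e : ℕ, ∃ (k : ℕ) (κ : ℝ), 0 < κ ∧ ∀ (ι : Type) [Fintype ι]
      [DecidableEq ι] (F : ι → Type) [∀ i, Field (F i)] [∀ i, Fintype (F i)]
      [∀ i, DecidableEq (F i)],
      Function.Injective (fun i => Fintype.card (F i)) → (∀ i, q₀ ≤ Fintype.card (F i)) →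
      Expd (∀ i, (Fin (Fintype.card (F i) ^ e) → SL(2, F i))) k κ) :
    ∃ q₀ : ℕ, ∀ e : ℕ, ∃ (k : ℕ) (κ : ℝ), 0 < κ ∧ ∀ (ι : Type) [Fintype ι] [DecidableEq ι]
      (F : ι → Type) [∀ i, Field (F i)] [∀ i, Fintype (F i)] [∀ i, DecidableEq (F i)],
      (∀ q : ℕ, (Finset.univ.filter (fun i => Fintype.card (F i) = q)).card ≤ q ^ e) →
      (∀ i, q₀ ≤ Fintype.card (F i)) → Expd (∀ i, SL(2, F i)) k κ := by
  obtain ⟨q₀, hq₀⟩ := hpow
  refine ⟨q₀, fun e => ?_⟩
  obtain ⟨k, κ, hκ, h⟩ := hq₀ e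
  refine ⟨k, κ, hκ, ?_⟩
  intro ι _ _ F _ _ _ hmult hlarge
  classical
  -- representatives
  have hr : ∀ q : ℕ, ∃ j : Option ι, ∀ i, Fintype.card (F i) = q →
      ∃ j', j = some j' ∧ Fintype.card (F j') = q := by
    intro q
    by_cases hq : ∃ i, Fintype.card (F i) = q
    · obtain ⟨i, hi⟩ := hq
      exact ⟨some i, fun _ _ => ⟨i, rfl, hi⟩⟩
    · exact ⟨none, fun i hi => absurd ⟨i, hi⟩ hq⟩
  choose r hr using hr
  choose ρ' hρ' using fun i => hr (Fintype.card (F i)) i rfl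
  have hρc : ∀ i, Fintype.card (F (ρ' i)) = Fintype.card (F i) := fun i => (hρ' i).2
  have hρe : ∀ i j, Fintype.card (F i) = Fintype.card (F j) → ρ' i = ρ' j := by
    intro i j hij
    have h1 := (hρ' i).1
    rw [hij, (hρ' j).1] at h1
    exact (Option.some.inj h1).symm
  let Q : Type := {j // j ∈ Finset.univ.image ρ'}
  let _ : Fintype Q := inferInstanceAs (Fintype {j // j ∈ Finset.univ.image ρ'})
  let _ : DecidableEq Q := inferInstanceAs (DecidableEq {j // j ∈ Finset.univ.image ρ'})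
  have hmem : ∀ i, ρ' i ∈ Finset.univ.image ρ' := fun i =>
    Finset.mem_image_of_mem ρ' (Finset.mem_univ i)
  have hfix : ∀ j : Q, ρ' j.1 = j.1 := by
    intro j
    obtain ⟨i, -, hi⟩ := Finset.mem_image.mp j.2
    rw [← hi]
    exact hρe _ _ (hρc i)
  have h1 := h Q (fun j => F j.1) (fun j j' hjj' => by
    have := hρe j.1 j'.1 hjj'
    rw [hfix, hfix] at this
    exact Subtype.ext this) (fun j => hlarge j.1)
  -- injections of the fibres
  have hg : ∀ q : ℕ, ∃ g : {i // Fintype.card (F i) = q} → Fin (q ^ e),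
      Function.Injective g := by
    intro q
    have hc : Fintype.card {i // Fintype.card (F i) = q} ≤ Fintype.card (Fin (q ^ e)) := by
      rw [Fintype.card_subtype, Fintype.card_fin]
      exact hmult q
    obtain ⟨g⟩ := Function.Embedding.nonempty_of_card_le hc
    exact ⟨g, g.injective⟩
  choose g hg using hg
  let g' : ι → ℕ := fun i => (g (Fintype.card (F i)) ⟨i, rfl⟩ : ℕ)
  have hg'lt : ∀ i, g' i < Fintype.card (F (ρ' i)) ^ e := by
    intro i
    rw [hρc]
    exact (g (Fintype.card (F i)) ⟨i, rfl⟩).2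
  have hg'inj : ∀ i j, Fintype.card (F i) = Fintype.card (F j) → g' i = g' j → i = j := by
    intro i j hij hgij
    have h2 : ∀ (q : ℕ) (hi : Fintype.card (F i) = q) (hj : Fintype.card (F j) = q),
        ((g q ⟨i, hi⟩ : ℕ) = (g q ⟨j, hj⟩ : ℕ)) → i = j := by
      intro q hi hj hh
      have := hg q (Fin.ext hh)
      exact congrArg Subtype.val this
    have h3 : ∀ (q : ℕ) (hi : Fintype.card (F i) = q), g' i = (g q ⟨i, hi⟩ : ℕ) := by
      rintro _ rfl
      rfl
    have h4 : ∀ (q : ℕ) (hj : Fintype.card (F j) = q), g' j = (g q ⟨j, hj⟩ : ℕ) := by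
      rintro _ rfl
      rfl
    exact h2 (Fintype.card (F j)) hij rfl (by rw [← h3 _ hij, ← h4 _ rfl, hgij])
  -- isomorphisms
  have hσ : ∀ j i, Fintype.card (F j) = Fintype.card (F i) → Nonempty (F j ≃+* F i) :=
    fun j i hji => ⟨FiniteField.ringEquivOfCardEq hji⟩
  let σ : ∀ j i, Fintype.card (F j) = Fintype.card (F i) → (F j ≃+* F i) :=
    fun j i hji => (hσ j i hji).some
  let φ : (∀ j : Q, (Fin (Fintype.card (F j.1) ^ e) → SL(2, F j.1))) →* (∀ i, SL(2, F i)) :=
    { toFun := fun u i => Matrix.SpecialLinearGroup.map (σ (ρ' i) i (hρc i) : F (ρ' i) →+* F i)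
        (u ⟨ρ' i, hmem i⟩ ⟨g' i, hg'lt i⟩)
      map_one' := by
        funext i
        simp
      map_mul' := fun a b => by
        funext i
        simp }
  refine expd_surj φ ?_ h1
  intro v
  refine ⟨fun j x => if hx : ∃ i, Fintype.card (F j.1) = Fintype.card (F i) ∧ g' i = (x : ℕ) then
    Matrix.SpecialLinearGroup.map ((σ j.1 hx.choose hx.choose_spec.1).symm :
      F hx.choose →+* F j.1) (v hx.choose) else 1, ?_⟩
  funext i
  have hx : ∃ i', Fintype.card (F (ρ' i)) = Fintype.card (F i') ∧ g' i' = g' i :=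
    ⟨i, hρc i, rfl⟩
  have h2 : hx.choose = i :=
    hg'inj _ _ (hx.choose_spec.1.symm.trans (hρc i)) hx.choose_spec.2
  have h3 : ∀ i' (h' : Fintype.card (F (ρ' i)) = Fintype.card (F i')), i' = i →
      Matrix.SpecialLinearGroup.map (σ (ρ' i) i (hρc i) : F (ρ' i) →+* F i)
        (Matrix.SpecialLinearGroup.map ((σ (ρ' i) i' h').symm : F i' →+* F (ρ' i)) (v i')) =
        v i := by
    rintro _ h' rfl
    ext a b
    simp
  show Matrix.SpecialLinearGroup.map (σ (ρ' i) i (hρc i) : F (ρ' i) →+* F i)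
    (if hx : ∃ i', Fintype.card (F (ρ' i)) = Fintype.card (F i') ∧ g' i' = g' i then
    Matrix.SpecialLinearGroup.map ((σ (ρ' i) hx.choose hx.choose_spec.1).symm :
      F hx.choose →+* F (ρ' i)) (v hx.choose) else 1) = v i
  rw [dif_pos hx]
  exact h3 hx.choose hx.choose_spec.1 h2

end Pool.Agent.MPfe8e9b
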