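import Mathlib
import Pool.Agent.Lib.MP_fe8e9b_al.SLn

/-!
# MP_fe8e9b_al: bounded products of images
-/

open scoped BigOperators MatrixGroups Pointwise

namespace Pool.Agent.MPfe8e9b

namespace Images

theorem dsp_list {G : Type*} [Group G] [Fintype G] (f : G → ℂ) {b : ℝ} (l : List G)
    (h : ∀ x ∈ l, SLn.dsp f x ≤ b) : SLn.dsp f l.prod ≤ l.length * b := by
  induction l with
  | nil => simp [SLn.dsp_one]
  | cons a l ih =>
    rw [List.prod_cons, List.length_cons]
    refine (SLn.dsp_mul f a l.prod).trans ?_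
    have h1 := h a (by simp)
    have h2 := ih fun x hx => h x (by simp [hx])
    push_cast
    linarith

end Images

open Images

/-- IMAGES. -/
theorem expd_images (L k : ℕ) (κ : ℝ) (hκ : 0 < κ) : ∃ (k' : ℕ) (κ' : ℝ), 0 < κ' ∧
    ∀ (ι : Type) [Fintype ι] [DecidableEq ι] (H G : ι → Type) [∀ i, Group (H i)]
      [∀ i, Fintype (H i)] [∀ i, Group (G i)] [∀ i, Fintype (G i)],
      (∀ i, ∃ φ : Fin L → (H i →* G i), ∀ g : G i, ∃ x : Fin L → H i,
        g = (List.ofFn fun j => φ j (x j)).prod) →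
      Expd (∀ i, H i) k κ → Expd (∀ i, G i) k' κ' := by
  refine ⟨L * k, κ / (4 * L ^ 2 + 1), by positivity, ?_⟩
  intro ι _ _ H G _ _ _ _ himg hH
  obtain ⟨s, hs⟩ := hH
  choose φ hφ using himg
  let Φ : Fin L → ((∀ i, H i) →* (∀ i, G i)) := fun j => piHom fun i => φ i j
  refine ⟨fun t => Φ (finProdFinEquiv.symm t).1 (s (finProdFinEquiv.symm t).2), ?_⟩
  intro f hf
  set E := ∑ t, sq (rt (Φ (finProdFinEquiv.symm t).1 (s (finProdFinEquiv.symm t).2)) f - f)
    with hE
  have hE' : E = ∑ j : Fin L, ∑ t : Fin k, sq (rt (Φ j (s t)) f - f) := by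
    rw [hE, ← Fintype.sum_prod_type' (f := fun j t => sq (rt (Φ j (s t)) f - f))]
    exact Fintype.sum_equiv finProdFinEquiv.symm _ _ fun _ => rfl
  have hE0 : 0 ≤ E := Finset.sum_nonneg fun _ _ => sq_nonneg' _
  have h1 : ∀ j : Fin L, ∑ t : Fin k, sq (rt (Φ j (s t)) f - f) ≤ E := by
    intro j
    rw [hE']
    exact Finset.single_le_sum (f := fun j => ∑ t : Fin k, sq (rt (Φ j (s t)) f - f))
      (fun _ _ => Finset.sum_nonneg fun _ _ => sq_nonneg' _) (Finset.mem_univ j)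
  have h2 : ∀ (j : Fin L) (x : ∀ i, H i), SLn.dsp f (Φ j x) ≤ 2 * Real.sqrt (E / κ) :=
    fun j x => SLn.dsp_image (Φ j) s hκ hs f (h1 j) x
  have h3 : ∀ g, SLn.dsp f g ≤ L * (2 * Real.sqrt (E / κ)) := by
    intro g
    choose x hx using fun i => hφ i (g i)
    have h4 : g = (List.ofFn fun j => Φ j (fun i => x i j)).prod := by
      funext i
      have h5 : ((List.ofFn fun j => Φ j (fun i => x i j)).prod) i =
          Pi.evalMonoidHom (fun i => G i) i (List.ofFn fun j => Φ j (fun i => x i j)).prod := rfl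
      rw [h5, map_list_prod, List.map_ofFn]
      exact hx i
    rw [h4]
    refine (dsp_list (b := 2 * Real.sqrt (E / κ)) f _ ?_).trans (le_of_eq ?_)
    · intro y hy
      obtain ⟨j, rfl⟩ := (List.mem_ofFn' _ _).mp hy
      exact h2 j _
    · simp
  have h4 := SLn.sq_le_of_dsp f hf h3
  have h5 : (L * (2 * Real.sqrt (E / κ))) ^ 2 = 4 * L ^ 2 * (E / κ) := by
    rw [mul_pow, mul_pow, Real.sq_sqrt (by positivity)]
    ring
  rw [h5] at h4
  rw [div_mul_eq_mul_div, div_le_iff₀ (by positivity)]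
  have h6 : κ * (4 * L ^ 2 * (E / κ)) = 4 * L ^ 2 * E := by
    field_simp
  nlinarith [mul_le_mul_of_nonneg_left h4 hκ.le]

end Pool.Agent.MPfe8e9b
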