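import Mathlib
import Pool.Agent.Lib.MP_fe8e9b_al.SLn

/-!
# MP_fe8e9b_al: `SL_n` as a bounded product of images of `SL_2`
-/

open scoped BigOperators MatrixGroups Pointwise

namespace Pool.Agent.MPfe8e9b

/-- Every element of `A` is a product of images of elements of `H` under fixed homomorphisms. -/
def ImgSet (H : Type*) {G : Type*} [Group H] [Group G] (L : ℕ) (A : Set G) : Prop :=
  ∃ φ : Fin L → (H →* G), ∀ g ∈ A, ∃ x : Fin L → H, g = (List.ofFn fun j => φ j (x j)).prod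

namespace ImgSet

variable {H G : Type*} [Group H] [Group G]

theorem mono {L : ℕ} {A B : Set G} (hAB : A ⊆ B) (h : ImgSet H L B) : ImgSet H L A := by
  obtain ⟨φ, hφ⟩ := h
  exact ⟨φ, fun g hg => hφ g (hAB hg)⟩

theorem one (L : ℕ) : ImgSet H L ({1} : Set G) := by
  refine ⟨fun _ => 1, fun g hg => ⟨fun _ => 1, ?_⟩⟩
  rw [Set.mem_singleton_iff.mp hg]
  simp

theorem range (φ : H →* G) : ImgSet H 1 (Set.range φ) := by
  refine ⟨fun _ => φ, ?_⟩
  rintro _ ⟨x, rfl⟩
  exact ⟨fun _ => x, by simp⟩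

theorem mul {L₁ L₂ : ℕ} {A B : Set G} (hA : ImgSet H L₁ A) (hB : ImgSet H L₂ B) :
    ImgSet H (L₁ + L₂) (A * B) := by
  obtain ⟨φ₁, h₁⟩ := hA
  obtain ⟨φ₂, h₂⟩ := hB
  refine ⟨Fin.append φ₁ φ₂, ?_⟩
  rintro _ ⟨a, ha, b, hb, rfl⟩
  obtain ⟨x₁, hx₁⟩ := h₁ a ha
  obtain ⟨x₂, hx₂⟩ := h₂ b hb
  refine ⟨Fin.append x₁ x₂, ?_⟩
  have h3 : (fun j => (Fin.append φ₁ φ₂ j) (Fin.append x₁ x₂ j)) =
      Fin.append (fun j => φ₁ j (x₁ j)) (fun j => φ₂ j (x₂ j)) := by
    funext j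
    refine Fin.addCases (fun j => ?_) (fun j => ?_) j
    · simp
    · simp
  rw [h3, List.ofFn_fin_append, List.prod_append, ← hx₁, ← hx₂]

theorem le {L L' : ℕ} (hL : L ≤ L') {A : Set G} (h : ImgSet H L A) : ImgSet H L' A := by
  obtain ⟨m, rfl⟩ := Nat.exists_eq_add_of_le hL
  refine (h.mul (one m)).mono ?_
  intro a ha
  exact ⟨a, ha, 1, rfl, by simp⟩

end ImgSet

namespace SlImages

open SLn

/-- Transvections at the pairs in `P`, and `1`. -/
def tr {n : ℕ} (hn : 2 ≤ n) (F : Type) [Field F] (P : Finset (Fin n × Fin n)) :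
    Set (Matrix.SpecialLinearGroup (Fin n) F) :=
  {g | g = 1 ∨ ∃ p ∈ P, ∃ c : F, g = emb (eqv hn p) F (e12 c)}

theorem img_tr {n : ℕ} (hn : 2 ≤ n) (F : Type) [Field F] (P : Finset (Fin n × Fin n)) :
    ImgSet SL(2, F) P.card (tr hn F P) := by
  classical
  induction P using Finset.induction_on with
  | empty =>
    refine (ImgSet.one 0).mono ?_
    rintro g (h | ⟨p, hp, -⟩)
    · exact h
    · exact absurd hp (Finset.notMem_empty p)
  | insert q P hq ih =>
    rw [Finset.card_insert_of_notMem hq, add_comm]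
    refine ((ImgSet.range (emb (eqv hn q) F)).mul ih).mono ?_
    rintro g (h | ⟨p, hp, c, hc⟩)
    · exact ⟨1, ⟨1, map_one _⟩, 1, Or.inl rfl, by simp [h]⟩
    · rcases Finset.mem_insert.mp hp with rfl | hp'
      · exact ⟨g, ⟨e12 c, hc.symm⟩, 1, Or.inl rfl, by simp⟩
      · exact ⟨1, ⟨1, map_one _⟩, g, Or.inr ⟨p, hp', c, hc⟩, by simp⟩

theorem img_pow {n : ℕ} (hn : 2 ≤ n) (F : Type) [Field F] (m : ℕ) :
    ImgSet SL(2, F) (m * (Finset.univ : Finset (Fin n × Fin n)).card)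
      {g : Matrix.SpecialLinearGroup (Fin n) F |
        ∃ l : List (Matrix.TransvectionStruct (Fin n) F), l.length ≤ m ∧
          g.1 = (l.map Matrix.TransvectionStruct.toMatrix).prod} := by
  induction m with
  | zero =>
    rw [zero_mul]
    refine (ImgSet.one 0).mono ?_
    rintro g ⟨l, hl, h⟩
    have hl' : l = [] := List.length_eq_zero_iff.mp (Nat.le_zero.mp hl)
    rw [Set.mem_singleton_iff]
    apply Subtype.ext
    rw [h, hl']
    rfl
  | succ m ih =>
    rw [Nat.succ_mul, add_comm]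
    refine ((img_tr hn F Finset.univ).mul ih).mono ?_
    rintro g ⟨l, hl, h⟩
    rcases l with _ | ⟨t, l⟩
    · refine ⟨1, Or.inl rfl, g, ⟨[], Nat.zero_le _, h⟩, by simp⟩
    · obtain ⟨r, hr⟩ : ∃ r : Matrix.SpecialLinearGroup (Fin n) F,
          r.1 = (l.map Matrix.TransvectionStruct.toMatrix).prod :=
        ⟨⟨_, Matrix.TransvectionStruct.det_toMatrix_prod l⟩, rfl⟩
      refine ⟨emb (eqv hn (t.i, t.j)) F (e12 t.c), Or.inr ⟨(t.i, t.j), Finset.mem_univ _, t.c, rfl⟩,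
        r, ⟨l, by simpa using hl, hr⟩, ?_⟩
      apply Subtype.ext
      show (emb (eqv hn (t.i, t.j)) F (e12 t.c)).1 * r.1 = g.1
      rw [h, List.map_cons, List.prod_cons, toMatrix_eq hn, hr]

end SlImages

open SlImages in
theorem sl_img_n
    (htr : ∀ n : ℕ, ∃ L : ℕ, ∀ (F : Type) [Field F] (M : Matrix.SpecialLinearGroup (Fin n) F),
      ∃ l : List (Matrix.TransvectionStruct (Fin n) F), l.length ≤ L ∧
        M.1 = (l.map Matrix.TransvectionStruct.toMatrix).prod)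
    (n : ℕ) : ∃ L : ℕ, ∀ (F : Type) [Field F],
      ImgSet SL(2, F) L (Set.univ : Set (Matrix.SpecialLinearGroup (Fin n) F)) := by
  rcases lt_or_ge n 2 with hn | hn
  · refine ⟨0, fun F _ => (ImgSet.one 0).mono ?_⟩
    intro g _
    rw [Set.mem_singleton_iff]
    have : Subsingleton (Fin n) := by
      rcases Nat.lt_succ_iff_lt_or_eq.mp hn with h | h
      · have : n = 0 := by omega
        subst this
        infer_instance
      · subst h
        infer_instance
    exact Subsingleton.elim _ _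
  · obtain ⟨L, hL⟩ := htr n
    exact ⟨_, fun F _ => (img_pow hn F L).mono fun g _ => hL F g⟩

/-- PSLIMG. -/
theorem sl_images
    (htr : ∀ n : ℕ, ∃ L : ℕ, ∀ (F : Type) [Field F] (M : Matrix.SpecialLinearGroup (Fin n) F),
      ∃ l : List (Matrix.TransvectionStruct (Fin n) F), l.length ≤ L ∧
        M.1 = (l.map Matrix.TransvectionStruct.toMatrix).prod)
    (r : ℕ) : ∃ L : ℕ, ∀ n : ℕ, n ≤ r → ∀ (F : Type) [Field F],
      ∃ φ : Fin L → (SL(2, F) →* Matrix.SpecialLinearGroup (Fin n) F),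
        ∀ g : Matrix.SpecialLinearGroup (Fin n) F, ∃ x : Fin L → SL(2, F),
          g = (List.ofFn fun j => φ j (x j)).prod := by
  choose L hL using sl_img_n htr
  refine ⟨(Finset.range (r + 1)).sup L, ?_⟩
  intro n hn F _
  have h1 : L n ≤ (Finset.range (r + 1)).sup L :=
    Finset.le_sup (f := L) (Finset.mem_range.mpr (Nat.lt_succ_of_le hn))
  obtain ⟨φ, hφ⟩ := (hL n F).le h1
  exact ⟨φ, fun g => hφ g (Set.mem_univ g)⟩

end Pool.Agent.MPfe8e9b
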