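import Mathlib
import Pool.Agent.Lib.MP_fe8e9b_al.Final
import Pool.Agent.Lib.MP_fe8e9b_al.FamF
import Pool.Agent.Lib.MP_fe8e9b_al.Images
import Pool.Agent.Lib.MP_fe8e9b_al.SlImages
import Pool.Agent.Lib.MP_fe8e9b_al.Ext

/-!
# MP_fe8e9b_al: final assembly, second version
-/

open scoped BigOperators MatrixGroups Pointwise

namespace Pool.Agent.MPfe8e9b

/-- The group `S` is a product of `L` homomorphic images of `SL(2, F)`. -/
def SL2Product (L : ℕ) (F S : Type) [Field F] [Group S] : Prop :=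
  ∃ φ : Fin L → (SL(2, F) →* S), ∀ g : S, ∃ x : Fin L → SL(2, F),
    g = (List.ofFn fun j => φ j (x j)).prod

/-- `Q` is generated by at most `d` elements and is isomorphic to a finite direct product of
nontrivial groups `S i`, such that there are finite fields `F i` for which `S i` is isomorphic to
`PSL_n(F i)` with `2 ≤ n ≤ L` or is a product of `L` homomorphic images of `SL_2(F i)`, and such
that for every `q` there are at most `q ^ C` isomorphism classes of groups `S i` with
`|F i| = q`. -/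
def GoodProduct (d L C : ℕ) (Q : Type) [Group Q] : Prop :=
  (∃ T : Finset Q, T.card ≤ d ∧ Subgroup.closure (T : Set Q) = ⊤) ∧
  ∃ (ι : Type) (_ : Fintype ι) (F : ι → Type) (_ : ∀ i, Field (F i)) (_ : ∀ i, Fintype (F i))
    (S : ι → Type) (_ : ∀ i, Group (S i)),
    (∀ i, Nontrivial (S i)) ∧
    (∀ i, (∃ n, 2 ≤ n ∧ n ≤ L ∧
        Nonempty (S i ≃* Matrix.ProjectiveSpecialLinearGroup (Fin n) (F i))) ∨
      SL2Product L (F i) (S i)) ∧
    (∀ q : ℕ, ∃ c : {i // Fintype.card (F i) = q} → Fin (q ^ C),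
      ∀ i j, c i = c j → Nonempty (S i.1 ≃* S j.1)) ∧
    Nonempty (Q ≃* (∀ i, S i))

theorem SL2Product.le {L L' : ℕ} (hL : L ≤ L') {F S : Type} [Field F] [Group S]
    (h : SL2Product L F S) : SL2Product L' F S := by
  have h1 : ImgSet SL(2, F) L (Set.univ : Set S) := by
    obtain ⟨φ, hφ⟩ := h
    exact ⟨φ, fun g _ => hφ g⟩
  obtain ⟨φ, hφ⟩ := h1.le hL
  exact ⟨φ, fun g => hφ g (Set.mem_univ g)⟩

theorem SL2Product.surj {L : ℕ} {F S S' : Type} [Field F] [Group S] [Group S']
    (h : SL2Product L F S) (π : S →* S') (hπ : Function.Surjective π) : SL2Product L F S' := by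
  obtain ⟨φ, hφ⟩ := h
  refine ⟨fun j => π.comp (φ j), fun g => ?_⟩
  obtain ⟨s, rfl⟩ := hπ g
  obtain ⟨x, hx⟩ := hφ s
  refine ⟨x, ?_⟩
  rw [hx, map_list_prod, List.map_ofFn]
  rfl

theorem psl_product (r : ℕ) : ∃ L : ℕ, ∀ n : ℕ, n ≤ r → ∀ (F : Type) [Field F],
    SL2Product L F (Matrix.ProjectiveSpecialLinearGroup (Fin n) F) := by
  obtain ⟨L, hL⟩ := sl_images transvec_bound r
  refine ⟨L, fun n hn F _ => ?_⟩
  have h1 : SL2Product L F (Matrix.SpecialLinearGroup (Fin n) F) := hL n hn F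
  exact h1.surj (QuotientGroup.mk' _) (QuotientGroup.mk'_surjective _)

theorem SL2Product.card_le {L : ℕ} {F S : Type} [Field F] [Fintype F] [Group S]
    (h : SL2Product L F S) : Finite S ∧ Nat.card S ≤ Fintype.card F ^ (4 * L) := by
  classical
  obtain ⟨φ, hφ⟩ := h
  have hsurj : Function.Surjective
      (fun x : Fin L → SL(2, F) => (List.ofFn fun j => φ j (x j)).prod) := by
    intro g
    obtain ⟨x, hx⟩ := hφ g
    exact ⟨x, hx.symm⟩
  refine ⟨Finite.of_surjective _ hsurj, ?_⟩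
  refine (Nat.card_le_card_of_surjective _ hsurj).trans ?_
  rw [Nat.card_fun, Nat.card_fin, pow_mul]
  refine Nat.pow_le_pow_left ?_ L
  have h1 : Nat.card SL(2, F) ≤ Nat.card (Matrix (Fin 2) (Fin 2) F) :=
    Nat.card_le_card_of_injective (fun A => A.1) Subtype.val_injective
  refine h1.trans (le_of_eq ?_)
  rw [show Matrix (Fin 2) (Fin 2) F = (Fin 2 → Fin 2 → F) from rfl]
  rw [Nat.card_fun, Nat.card_fun, Nat.card_eq_fintype_card, Nat.card_fin, ← pow_mul]

/-- Multiplicities. -/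
theorem mult_family {ι : Type} [Fintype ι] (F : ι → Type) [∀ i, Field (F i)]
    [∀ i, Fintype (F i)] (S : ι → Type) [∀ i, Group (S i)] [∀ i, Nontrivial (S i)] (d L C : ℕ)
    (hd : ∃ T : Finset (∀ i, S i), T.card ≤ d ∧ Subgroup.closure (T : Set (∀ i, S i)) = ⊤)
    (hS : ∀ i, SL2Product L (F i) (S i)) (q : ℕ)
    (hc : ∃ c : {i // Fintype.card (F i) = q} → Fin (q ^ C),
      ∀ i j, c i = c j → Nonempty (S i.1 ≃* S j.1)) :
    (Finset.univ.filter (fun i => Fintype.card (F i) = q)).card ≤ q ^ (C + 4 * L * d) := by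
  classical
  obtain ⟨c, hc⟩ := hc
  have hfin : ∀ i, Finite (S i) := fun i => (hS i).card_le.1
  let _ : ∀ i, Fintype (S i) := fun i => Fintype.ofFinite _
  rw [← Fintype.card_subtype]
  have h1 : Fintype.card {i // Fintype.card (F i) = q} ≤ q ^ (4 * L * d) * q ^ C := by
    have h2 := Finset.card_le_mul_card_image_of_maps_to
      (s := (Finset.univ : Finset {i // Fintype.card (F i) = q})) (f := c)
      (t := Finset.univ) (fun _ _ => Finset.mem_univ _) (q ^ (4 * L * d)) (by
        intro b _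
        rcases (Finset.univ.filter (fun i => c i = b)).eq_empty_or_nonempty with h0 | ⟨i₀, hi₀⟩
        · rw [h0]
          simp
        · have hi₀' := (Finset.mem_filter.mp hi₀).2
          have h3 := mult_bound S d hd (S i₀.1)
            ((Finset.univ.filter (fun i => c i = b)).map ⟨Subtype.val, Subtype.val_injective⟩) (by
              intro i hi
              obtain ⟨j, hj, rfl⟩ := Finset.mem_map.mp hi
              have hj' := (Finset.mem_filter.mp hj).2
              exact hc j i₀ (hj'.trans hi₀'.symm))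
          rw [Finset.card_map] at h3
          refine h3.trans ?_
          rw [pow_mul]
          refine Nat.pow_le_pow_left ?_ d
          have h4 := (hS i₀.1).card_le.2
          rwa [Nat.card_eq_fintype_card, i₀.2] at h4)
    rwa [Finset.card_univ, Finset.card_univ, Fintype.card_fin] at h2
  refine h1.trans (le_of_eq ?_)
  rw [← pow_add, add_comm]

/-- One factor. -/
theorem good_expd
    (hfam : ∃ q₀ : ℕ, ∀ e : ℕ, ∃ (k : ℕ) (κ : ℝ), 0 < κ ∧ ∀ (ι : Type) [Fintype ι]
      [DecidableEq ι] (F : ι → Type) [∀ i, Field (F i)] [∀ i, Fintype (F i)]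
      [∀ i, DecidableEq (F i)],
      (∀ q : ℕ, (Finset.univ.filter (fun i => Fintype.card (F i) = q)).card ≤ q ^ e) →
      (∀ i, q₀ ≤ Fintype.card (F i)) → Expd (∀ i, SL(2, F i)) k κ)
    (d L C : ℕ) : ∃ (k : ℕ) (κ : ℝ), 0 < κ ∧ ∀ (Q : Type) [Group Q],
      GoodProduct d L C Q → FExpd Q k κ := by
  classical
  obtain ⟨q₀, hq₀⟩ := hfam
  obtain ⟨L₀, hL₀⟩ := psl_product L
  set L₁ := max L L₀ with hL₁
  set e := C + 4 * L₁ * d with he
  obtain ⟨k₁, κ₁, hκ₁, h₁⟩ := hq₀ e
  obtain ⟨k₂, κ₂, hκ₂, h₂⟩ := expd_images L₁ k₁ κ₁ hκ₁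
  set B := (q₀ ^ (4 * L₁)) ^ (q₀ ^ e * q₀) with hB
  refine ⟨B + k₂, min 2 κ₂, lt_min two_pos hκ₂, ?_⟩
  rintro Q _ ⟨⟨T, hT, hT'⟩, ι, hι, F, hF, hFfin, S, hS, hnt, hprod, hcls, ⟨ψ⟩⟩
  have himg : ∀ i, SL2Product L₁ (F i) (S i) := by
    intro i
    rcases hprod i with ⟨n, -, hn, ⟨σ⟩⟩ | h
    · exact (((hL₀ n hn (F i)).le (le_max_right L L₀)).surj σ.symm.toMonoidHom
        σ.symm.surjective)
    · exact h.le (le_max_left L L₀)
  have hfin : ∀ i, Finite (S i) := fun i => (himg i).card_le.1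
  let _ : ∀ i, Fintype (S i) := fun i => Fintype.ofFinite _
  have hd : ∃ T : Finset (∀ i, S i), T.card ≤ d ∧
      Subgroup.closure (T : Set (∀ i, S i)) = ⊤ := by
    refine ⟨T.image ψ, Finset.card_image_le.trans hT, ?_⟩
    rw [Finset.coe_image]
    have : (ψ : Q → _) = (ψ.toMonoidHom : Q → _) := rfl
    rw [this, ← MonoidHom.map_closure, hT']
    exact Subgroup.map_top_of_surjective _ ψ.surjective
  have hmult : ∀ q : ℕ, (Finset.univ.filter (fun i => Fintype.card (F i) = q)).card ≤ q ^ e :=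
    fun q => mult_family F S d L₁ C hd himg q (hcls q)
  -- small fields
  have hsmall : FExpd (∀ i : {i // Fintype.card (F i) < q₀}, S i.1) B 2 := by
    have h3 : (Finset.univ.filter (fun i => Fintype.card (F i) < q₀)).card ≤ q₀ ^ e * q₀ := by
      have h4 := Finset.card_le_mul_card_image_of_maps_to
        (s := Finset.univ.filter (fun i => Fintype.card (F i) < q₀))
        (f := fun i => Fintype.card (F i)) (t := Finset.range q₀) (by
          intro i hi
          exact Finset.mem_range.mpr (Finset.mem_filter.mp hi).2) (q₀ ^ e) (by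
          intro q hq
          refine (Finset.card_le_card ?_).trans ((hmult q).trans
            (Nat.pow_le_pow_left (Finset.mem_range.mp hq).le e))
          intro i hi
          exact Finset.mem_filter.mpr ⟨Finset.mem_univ _, (Finset.mem_filter.mp hi).2⟩)
      rwa [Finset.card_range] at h4
    let inst : Fintype (∀ i : {i // Fintype.card (F i) < q₀}, S i.1) := Fintype.ofFinite _
    refine ⟨inst, expd_card ?_⟩
    rw [← Nat.card_eq_fintype_card, Nat.card_pi]
    calc ∏ i : {i // Fintype.card (F i) < q₀}, Nat.card (S i.1)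
        ≤ ∏ _i : {i // Fintype.card (F i) < q₀}, q₀ ^ (4 * L₁) := by
          refine Finset.prod_le_prod' fun i _ => ?_
          exact (himg i.1).card_le.2.trans (Nat.pow_le_pow_left i.2.le _)
      _ = (q₀ ^ (4 * L₁)) ^ (Finset.univ.filter (fun i => Fintype.card (F i) < q₀)).card := by
          rw [Finset.prod_const, Finset.card_univ, Fintype.card_subtype]
      _ ≤ B := by
          rcases Nat.eq_zero_or_pos q₀ with h0 | h0
          · rw [hB]
            subst h0
            simp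
          · exact Nat.pow_le_pow_right (pow_pos h0 _) h3
  -- large fields
  have hlarge : FExpd (∀ i : {i // q₀ ≤ Fintype.card (F i)}, S i.1) k₂ κ₂ := by
    have h3 := h₁ {i // q₀ ≤ Fintype.card (F i)} (fun i => F i.1) (by
      intro q
      refine le_trans (Finset.card_le_card_of_injOn (fun i => i.1) ?_ ?_) (hmult q)
      · intro i hi
        have hi' : Fintype.card (F i.1) = q := by simpa using hi
        simpa using hi'
      · intro i _ j _ hij
        exact Subtype.ext hij) (fun i => i.2)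
    exact (h₂ {i // q₀ ≤ Fintype.card (F i)} (fun i => SL(2, F i.1)) (fun i => S i.1)
      (fun i => himg i.1) h3).fexpd
  have hun := FExpd.union S (fun i => Fintype.card (F i) < q₀)
    (fun i => q₀ ≤ Fintype.card (F i)) (lt_min two_pos hκ₂).le
    (hsmall.mono le_rfl (min_le_left _ _)) (hlarge.mono le_rfl (min_le_right _ _))
  have hall : ∀ i, Fintype.card (F i) < q₀ ∨ q₀ ≤ Fintype.card (F i) := fun i => lt_or_ge _ _
  let π : (∀ i : {i // Fintype.card (F i) < q₀ ∨ q₀ ≤ Fintype.card (F i)}, S i.1) →*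
      (∀ i, S i) :=
    { toFun := fun z i => z ⟨i, hall i⟩
      map_one' := rfl
      map_mul' := fun _ _ => rfl }
  have h4 := FExpd.surj π (fun z => ⟨fun i => z i.1, rfl⟩) hun
  exact FExpd.surj ψ.symm.toMonoidHom ψ.symm.surjective h4

theorem FExpd.ext {G : Type} [Group G] [Finite G] (N : Subgroup G) [N.Normal] {k₁ k₂ : ℕ}
    {κ : ℝ} (h₁ : FExpd N k₁ κ) (h₂ : FExpd (G ⧸ N) k₂ κ) : FExpd G (k₁ + k₂) κ := by
  obtain ⟨i₁, h₁⟩ := h₁
  obtain ⟨i₂, h₂⟩ := h₂
  let _ : Fintype G := Fintype.ofFinite G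
  exact (expd_ext N h₁ h₂).fexpd

/-- Towers. -/
theorem tower
    (hfam : ∃ q₀ : ℕ, ∀ e : ℕ, ∃ (k : ℕ) (κ : ℝ), 0 < κ ∧ ∀ (ι : Type) [Fintype ι]
      [DecidableEq ι] (F : ι → Type) [∀ i, Field (F i)] [∀ i, Fintype (F i)]
      [∀ i, DecidableEq (F i)],
      (∀ q : ℕ, (Finset.univ.filter (fun i => Fintype.card (F i) = q)).card ≤ q ^ e) →
      (∀ i, q₀ ≤ Fintype.card (F i)) → Expd (∀ i, SL(2, F i)) k κ)
    (d L C l : ℕ) : ∃ (k : ℕ) (ε : ℝ), 0 < ε ∧ ∀ (G : Type) [Group G] [Fintype G]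
      [DecidableEq G] (H : ℕ → Subgroup G), H 0 = ⊥ → H l = ⊤ →
      (∀ i < l, H i ≤ H (i + 1) ∧ ∃ _ : ((H i).subgroupOf (H (i + 1))).Normal,
        GoodProduct d L C (H (i + 1) ⧸ (H i).subgroupOf (H (i + 1)))) →
      ∃ S : Finset G, S.card ≤ k ∧ Subgroup.closure (S : Set G) = ⊤ ∧
        ∀ A : Finset G, 2 * A.card ≤ Fintype.card G →
          (1 + ε) * (A.card : ℝ) ≤ ((A ∪ S * A).card : ℝ) := by
  classical
  obtain ⟨k, κ, hκ, h⟩ := good_expd hfam d L C
  have hκ' : 0 < min κ 2 := lt_min hκ two_pos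
  refine ⟨1 + l * k, min κ 2 / (4 * ((1 + l * k : ℕ) + 1)), by positivity, ?_⟩
  intro G _ _ _ H h0 hl hstep
  have key : ∀ i ≤ l, FExpd (H i) (1 + i * k) (min κ 2) := by
    intro i
    induction i with
    | zero =>
      intro _
      rw [h0, zero_mul, add_zero]
      have h1 : Fintype.card (⊥ : Subgroup G) ≤ 1 := by
        rw [← Nat.card_eq_fintype_card, Subgroup.card_bot]
      exact (expd_mono le_rfl (min_le_right _ _) (expd_card h1)).fexpd
    | succ i ih =>
      intro hi
      obtain ⟨hle, hN, hgood⟩ := hstep i (by omega)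
      have h1 := ih (by omega)
      have h2 : FExpd ((H i).subgroupOf (H (i + 1))) (1 + i * k) (min κ 2) :=
        FExpd.surj (Subgroup.subgroupOfEquivOfLe hle).symm.toMonoidHom
          (Subgroup.subgroupOfEquivOfLe hle).symm.surjective h1
      have h3 : FExpd (H (i + 1) ⧸ (H i).subgroupOf (H (i + 1))) k (min κ 2) :=
        (h _ hgood).mono le_rfl (min_le_left _ _)
      have h4 := FExpd.ext ((H i).subgroupOf (H (i + 1))) h2 h3
      have h5 : 1 + (i + 1) * k = 1 + i * k + k := by ring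
      rw [h5]
      exact h4
  have h1 := key l le_rfl
  rw [hl] at h1
  let τ : (⊤ : Subgroup G) ≃* G := Subgroup.topEquiv
  have h2 : FExpd G (1 + l * k) (min κ 2) := FExpd.surj τ.toMonoidHom τ.surjective h1
  exact expd_vertex hκ' h2.expd

end Pool.Agent.MPfe8e9b
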