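import Mathlib
import Pool.Agent.Lib.MP_fe8e9b_al.Defs3

/-!
# MP_fe8e9b_al, round 3: products of matrix rings over finite fields (module RINGGEN)
-/

open scoped BigOperators MatrixGroups Pointwise

namespace Pool.Agent.MPfe8e9b

namespace RingGen

/-- A Goursat lemma: generation of a product of simple rings. -/
theorem goursat {ι : Type} [Fintype ι] (R : ι → Type) [∀ i, Ring (R i)]
    [∀ i, IsSimpleRing (R i)] {k : ℕ} (x : Fin k → ∀ i, R i)
    (h1 : ∀ i, Subring.closure (Set.range fun s => x s i) = ⊤)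
    (h2 : ∀ i j, i ≠ j → ¬ ∃ φ : R j ≃+* R i, ∀ s, φ (x s j) = x s i) :
    Subring.closure (Set.range x) = ⊤ := by
  classical
  set T := Subring.closure (Set.range x) with hT
  have hxT : ∀ s, x s ∈ T := fun s => Subring.subset_closure ⟨s, rfl⟩
  have hsurj : ∀ i (y : R i), ∃ t ∈ T, t i = y := by
    intro i y
    have h3 : T.map (Pi.evalRingHom R i) = ⊤ := by
      rw [hT, RingHom.map_closure, ← h1 i]
      congr 1
      ext z
      simp
    have h4 : y ∈ T.map (Pi.evalRingHom R i) := by
      rw [h3]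
      exact Subring.mem_top y
    rw [Subring.mem_map] at h4
    exact h4
  have hsep : ∀ i j, i ≠ j → ∃ t ∈ T, t i = 1 ∧ t j = 0 := by
    intro i j hij
    let J : TwoSidedIdeal (R i) := TwoSidedIdeal.mk' {y | ∃ t ∈ T, t i = y ∧ t j = 0}
      ⟨0, T.zero_mem, rfl, rfl⟩
      (by
        rintro a b ⟨t, ht, rfl, htj⟩ ⟨u, hu, rfl, huj⟩
        exact ⟨t + u, T.add_mem ht hu, rfl, by simp [htj, huj]⟩)
      (by
        rintro a ⟨t, ht, rfl, htj⟩
        exact ⟨-t, T.neg_mem ht, rfl, by simp [htj]⟩)
      (by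
        rintro a b ⟨t, ht, rfl, htj⟩
        obtain ⟨u, hu, rfl⟩ := hsurj i a
        exact ⟨u * t, T.mul_mem hu ht, rfl, by simp [htj]⟩)
      (by
        rintro a b ⟨t, ht, rfl, htj⟩
        obtain ⟨u, hu, rfl⟩ := hsurj i b
        exact ⟨t * u, T.mul_mem ht hu, rfl, by simp [htj]⟩)
    have hJ : ∀ y, y ∈ J ↔ ∃ t ∈ T, t i = y ∧ t j = 0 := fun y =>
      TwoSidedIdeal.mem_mk' _ _ _ _ _ _ y
    rcases eq_or_ne J ⊥ with hb | hb
    · exfalso
      apply h2 i j hij
      have hker : ∀ t ∈ T, t j = 0 → t i = 0 := by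
        intro t ht htj
        have h3 : t i ∈ J := (hJ _).mpr ⟨t, ht, rfl, htj⟩
        rw [hb] at h3
        exact h3
      let pj : T →+* R j := (Pi.evalRingHom R j).comp T.subtype
      let pi : T →+* R i := (Pi.evalRingHom R i).comp T.subtype
      have hpj : Function.Surjective pj := by
        intro y
        obtain ⟨t, ht, hty⟩ := hsurj j y
        exact ⟨⟨t, ht⟩, hty⟩
      have hle : RingHom.ker pj ≤ RingHom.ker pi := by
        intro t ht
        rw [RingHom.mem_ker] at ht ⊢
        exact hker t.1 t.2 ht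
      let φ : R j →+* R i := pj.liftOfSurjective hpj ⟨pi, hle⟩
      have hφ : ∀ t : T, φ (pj t) = pi t := fun t =>
        RingHom.liftOfRightInverse_comp_apply pj _ _ ⟨pi, hle⟩ t
      have hφs : Function.Surjective φ := by
        intro y
        obtain ⟨t, ht, hty⟩ := hsurj i y
        exact ⟨pj ⟨t, ht⟩, (hφ ⟨t, ht⟩).trans hty⟩
      exact ⟨RingEquiv.ofBijective φ ⟨RingHom.injective φ, hφs⟩, fun s => hφ ⟨x s, hxT s⟩⟩
    · have h3 : (1 : R i) ∈ J := IsSimpleRing.one_mem_of_ne_bot J hb
      obtain ⟨t, ht, ht1, ht0⟩ := (hJ _).mp h3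
      exact ⟨t, ht, ht1, ht0⟩
  have hsep' : ∀ i (S : Finset ι), i ∉ S → ∃ t ∈ T, t i = 1 ∧ ∀ j ∈ S, t j = 0 := by
    intro i S
    induction S using Finset.induction_on with
    | empty => exact fun _ => ⟨1, T.one_mem, rfl, by simp⟩
    | insert j S hj ih =>
      intro hi
      rw [Finset.mem_insert, not_or] at hi
      obtain ⟨t, ht, ht1, ht0⟩ := ih hi.2
      obtain ⟨u, hu, hu1, hu0⟩ := hsep i j hi.1
      refine ⟨t * u, T.mul_mem ht hu, by simp [ht1, hu1], ?_⟩
      intro l hl
      rw [Finset.mem_insert] at hl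
      rcases hl with rfl | hl
      · simp [hu0]
      · simp [ht0 l hl]
  rw [eq_top_iff]
  intro y _
  have hy : y = ∑ i, Pi.single i (y i) := (Finset.univ_sum_single y).symm
  rw [hy]
  refine T.sum_mem fun i _ => ?_
  obtain ⟨t, ht, ht1, ht0⟩ := hsep' i (Finset.univ.erase i) (by simp)
  obtain ⟨u, hu, huy⟩ := hsurj i (y i)
  have h3 : Pi.single i (y i) = t * u := by
    funext j
    rcases eq_or_ne j i with rfl | hji
    · simp [ht1, huy]
    · rw [Pi.single_eq_of_ne hji, Pi.mul_apply, ht0 j (by simp [hji]), zero_mul]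
  rw [h3]
  exact T.mul_mem ht hu

/-- Cyclic induction. -/
theorem cyc_ind {n : ℕ} [NeZero n] (P : Fin n → Prop) (h0 : P 0) (h : ∀ a, P a → P (a + 1)) :
    ∀ a, P a := by
  obtain ⟨n', rfl⟩ : ∃ n', n = n' + 1 := ⟨n - 1, by have := NeZero.ne n; omega⟩
  intro a
  induction a using Fin.induction with
  | zero => exact h0
  | succ i ih =>
    rw [← Fin.coeSucc_eq_succ]
    exact h _ ih

/-- The ring of matrices over a finite field is generated by three elements. -/
theorem base_gen (n : ℕ) (hn : 1 ≤ n) (F : Type) [Field F] [Fintype F] :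
    ∃ b : Fin 3 → Matrix (Fin n) (Fin n) F, Subring.closure (Set.range b) = ⊤ := by
  classical
  have : NeZero n := ⟨by omega⟩
  obtain ⟨θ, hθ⟩ := IsCyclic.exists_generator (α := Fˣ)
  let c : Matrix (Fin n) (Fin n) F := Matrix.of fun i j => if i = j + 1 then 1 else 0
  refine ⟨![c, Matrix.single 0 0 1, Matrix.single 0 0 (θ : F)], ?_⟩
  set T := Subring.closure (Set.range ![c, Matrix.single 0 0 (1 : F),
    Matrix.single 0 0 (θ : F)]) with hT
  have hc : c ∈ T := Subring.subset_closure ⟨0, rfl⟩
  have h1 : Matrix.single 0 0 (1 : F) ∈ T := Subring.subset_closure ⟨1, rfl⟩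
  have hθT : Matrix.single 0 0 (θ : F) ∈ T := Subring.subset_closure ⟨2, rfl⟩
  have hr : ∀ r : F, Matrix.single (0 : Fin n) (0 : Fin n) r ∈ T := by
    intro r
    rcases eq_or_ne r 0 with rfl | hr
    · rw [Matrix.single_zero]
      exact T.zero_mem
    · have h2 : Units.mk0 r hr ∈ Submonoid.powers θ := by
        rw [mem_powers_iff_mem_zpowers]
        exact hθ _
      obtain ⟨k, hk⟩ := h2
      have hk' : (θ : F) ^ k = r := by
        have := congrArg Units.val hk
        simpa using this
      rw [← hk']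
      clear hk' hk
      induction k with
      | zero => simpa using h1
      | succ k ih =>
        rw [pow_succ]
        have := T.mul_mem ih hθT
        rwa [Matrix.single_mul_single_same] at this
  have hl : ∀ (a b : Fin n) (r : F), c * Matrix.single a b r = Matrix.single (a + 1) b r := by
    intro a b r
    ext i j
    rw [Matrix.mul_apply]
    simp only [c, Matrix.of_apply, Matrix.single_apply]
    rw [Finset.sum_eq_single a]
    · by_cases h : i = a + 1
      · simp [h]
      · rw [if_neg h, zero_mul, if_neg]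
        intro h'
        exact h h'.1.symm
    · intro k _ hk
      rw [if_neg (c := a = k ∧ b = j) (fun h => hk h.1.symm), mul_zero]
    · simp
  have hrr : ∀ (a b : Fin n) (r : F), Matrix.single a (b + 1) r * c = Matrix.single a b r := by
    intro a b r
    ext i j
    rw [Matrix.mul_apply]
    simp only [c, Matrix.of_apply, Matrix.single_apply]
    rw [Finset.sum_eq_single (b + 1)]
    · by_cases h : b = j
      · simp [h]
      · rw [if_neg (c := b + 1 = j + 1) (fun h' => h (add_right_cancel h')), mul_zero, if_neg]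
        intro h'
        exact h h'.2
    · intro k _ hk
      rw [if_neg (c := a = i ∧ b + 1 = k) (fun h => hk h.2.symm), zero_mul]
    · simp
  have hs1 : ∀ (a : Fin n) (r : F), Matrix.single a (0 : Fin n) r ∈ T := by
    refine cyc_ind (fun a => ∀ r : F, Matrix.single a (0 : Fin n) r ∈ T) hr ?_
    intro a ih r
    have h3 := T.mul_mem hc (ih r)
    rwa [hl] at h3
  have hs2 : ∀ (b : Fin n) (a : Fin n) (r : F), Matrix.single a (-b) r ∈ T := by
    refine cyc_ind (fun b => ∀ (a : Fin n) (r : F), Matrix.single a (-b) r ∈ T) ?_ ?_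
    · intro a r
      simpa using hs1 a r
    · intro b ih a r
      have h3 := ih a r
      have h4 : (-b) = (-(b + 1)) + 1 := by abel
      rw [h4] at h3
      have h5 := T.mul_mem h3 hc
      rwa [hrr] at h5
  have hs : ∀ (a b : Fin n) (r : F), Matrix.single a b r ∈ T := by
    intro a b r
    have := hs2 (-b) a r
    rwa [neg_neg] at this
  rw [eq_top_iff]
  intro y _
  rw [Matrix.matrix_eq_sum_single y]
  exact T.sum_mem fun i _ => T.sum_mem fun j _ => hs i j _

/-- Matrix rings over fields with the same number of elements. -/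
theorem iso_of_card (n n' : ℕ) (F F' : Type) [Field F] [Field F'] [Fintype F] [Fintype F']
    (hn : n = n') (hq : Fintype.card F = Fintype.card F') :
    Nonempty (Matrix (Fin n) (Fin n) F ≃+* Matrix (Fin n') (Fin n') F') := by
  subst hn
  exact ⟨(FiniteField.ringEquivOfCardEq hq).mapMatrix⟩

/-- The center of a ring of matrices over a finite field. -/
theorem card_center (n : ℕ) (hn : 1 ≤ n) (F : Type) [Field F] [Fintype F] :
    Nat.card (Set.center (Matrix (Fin n) (Fin n) F)) = Fintype.card F := by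
  classical
  have : Nonempty (Fin n) := ⟨⟨0, hn⟩⟩
  rw [Matrix.center_eq_range, Nat.card_congr (Equiv.ofInjective _ (fun a b h => ?_)).symm,
    Nat.card_eq_fintype_card]
  exact Matrix.scalar_inj.mp h

theorem card_mat (n : ℕ) (F : Type) [Fintype F] :
    Fintype.card (Matrix (Fin n) (Fin n) F) = Fintype.card F ^ (n ^ 2) := by
  rw [← Nat.card_eq_fintype_card]
  have h : Nat.card (Matrix (Fin n) (Fin n) F) = Nat.card (Fin n → Fin n → F) := rfl
  rw [h, Nat.card_fun, Nat.card_fun, Nat.card_eq_fintype_card, Nat.card_eq_fintype_card,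
    Fintype.card_fin, ← pow_mul, pow_two]

/-- The invariants of a ring of matrices over a finite field. -/
theorem inv_of_iso (n n' : ℕ) (hn : 1 ≤ n) (hn' : 1 ≤ n') (F F' : Type) [Field F] [Field F']
    [Fintype F] [Fintype F'] (φ : Matrix (Fin n) (Fin n) F ≃+* Matrix (Fin n') (Fin n') F') :
    n = n' ∧ Fintype.card F = Fintype.card F' := by
  classical
  have h1 : Fintype.card F = Fintype.card F' := by
    rw [← card_center n hn F, ← card_center n' hn' F']
    refine Nat.card_congr (Equiv.subtypeEquiv φ.toEquiv fun a => ?_)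
    rw [Semigroup.mem_center_iff, Semigroup.mem_center_iff]
    constructor
    · intro h b
      obtain ⟨b, rfl⟩ := φ.surjective b
      have h3 := congrArg φ (h b)
      rw [map_mul, map_mul] at h3
      exact h3
    · intro h b
      apply φ.injective
      rw [map_mul, map_mul]
      exact h (φ b)
  refine ⟨?_, h1⟩
  have h2 : Fintype.card (Matrix (Fin n) (Fin n) F) = Fintype.card (Matrix (Fin n') (Fin n') F') :=
    Fintype.card_congr φ.toEquiv
  rw [card_mat, card_mat, h1] at h2
  have h3 : n ^ 2 = n' ^ 2 := Nat.pow_right_injective (Fintype.one_lt_card (α := F')) h2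
  exact Nat.pow_left_injective (n := 2) (by norm_num) h3

end RingGen

open RingGen in
theorem ring_gen (e : ℕ) : ∃ k : ℕ, ∀ (ι : Type) [Fintype ι] (m : ι → ℕ) (F : ι → Type)
    [∀ i, Field (F i)] [∀ i, Fintype (F i)], (∀ i, 1 ≤ m i) →
    (∀ n q : ℕ, Nat.card {i // m i = n ∧ Fintype.card (F i) = q} ≤ q ^ (e * n ^ 2)) →
    ∃ x : Fin k → (∀ i, Matrix (Fin (m i)) (Fin (m i)) (F i)),
      Subring.closure (Set.range x) = ⊤ := by
  refine ⟨3 + e, ?_⟩
  intro ι _ m F _ _ hm hcard
  classical
  -- labels
  have hlab : ∀ r : ι, ∃ L : ι → (Fin e → Matrix (Fin (m r)) (Fin (m r)) (F r)),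
      ∀ i j, (m i = m r ∧ Fintype.card (F i) = Fintype.card (F r)) →
        (m j = m r ∧ Fintype.card (F j) = Fintype.card (F r)) → L i = L j → i = j := by
    intro r
    have h1 : Fintype.card {i // m i = m r ∧ Fintype.card (F i) = Fintype.card (F r)} ≤
        Fintype.card (Fin e → Matrix (Fin (m r)) (Fin (m r)) (F r)) := by
      rw [← Nat.card_eq_fintype_card]
      refine (hcard _ _).trans (le_of_eq ?_)
      rw [Fintype.card_fun, card_mat, Fintype.card_fin, ← pow_mul, mul_comm]
    obtain ⟨f⟩ := Function.Embedding.nonempty_of_card_le h1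
    refine ⟨fun i => if h : m i = m r ∧ Fintype.card (F i) = Fintype.card (F r) then f ⟨i, h⟩
      else 0, ?_⟩
    intro i j hi hj hij
    simp only [dif_pos hi, dif_pos hj] at hij
    exact congrArg Subtype.val (f.injective hij)
  choose L hL using hlab
  choose b hb using fun r => base_gen (m r) (hm r) (F r)
  have hiso : ∀ r i, (m i = m r ∧ Fintype.card (F i) = Fintype.card (F r)) →
      Nonempty (Matrix (Fin (m i)) (Fin (m i)) (F i) ≃+* Matrix (Fin (m r)) (Fin (m r)) (F r)) :=
    fun r i h => iso_of_card _ _ _ _ h.1 h.2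
  let α : ∀ r i, (m i = m r ∧ Fintype.card (F i) = Fintype.card (F r)) →
      (Matrix (Fin (m i)) (Fin (m i)) (F i) ≃+* Matrix (Fin (m r)) (Fin (m r)) (F r)) :=
    fun r i h => (hiso r i h).some
  -- representatives
  let st : Setoid ι := ⟨fun i j => m i = m j ∧ Fintype.card (F i) = Fintype.card (F j),
    ⟨fun i => ⟨rfl, rfl⟩, fun h => ⟨h.1.symm, h.2.symm⟩,
      fun h h' => ⟨h.1.trans h'.1, h.2.trans h'.2⟩⟩⟩
  let rep : ι → ι := fun i => (Quotient.mk st i).out
  have hrep : ∀ i, m i = m (rep i) ∧ Fintype.card (F i) = Fintype.card (F (rep i)) :=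
    fun i => st.symm (Quotient.mk_out (s := st) i)
  have hrep' : ∀ i j, m i = m j ∧ Fintype.card (F i) = Fintype.card (F j) → rep i = rep j :=
    fun i j h => congrArg Quotient.out (Quotient.sound (s := st) h)
  let G : ∀ r i, (m i = m r ∧ Fintype.card (F i) = Fintype.card (F r)) → Fin (3 + e) →
      Matrix (Fin (m i)) (Fin (m i)) (F i) :=
    fun r i h s => (α r i h).symm (Fin.append (b r) (L r i) s)
  have hG : ∀ r i h s, α r i h (G r i h s) = Fin.append (b r) (L r i) s :=
    fun r i h s => (α r i h).apply_symm_apply _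
  let x : Fin (3 + e) → ∀ i, Matrix (Fin (m i)) (Fin (m i)) (F i) :=
    fun s i => G (rep i) i (hrep i) s
  have hne : ∀ i, Nonempty (Fin (m i)) := fun i => ⟨⟨0, hm i⟩⟩
  refine ⟨x, goursat _ x ?_ ?_⟩
  · intro i
    rw [eq_top_iff]
    intro y _
    have h1 : (Subring.closure (Set.range fun s => x s i)).map
        (α (rep i) i (hrep i)).toRingHom = ⊤ := by
      rw [RingHom.map_closure, eq_top_iff, ← hb (rep i)]
      refine Subring.closure_mono ?_
      rintro _ ⟨s, rfl⟩
      refine ⟨x (Fin.castAdd e s) i, ⟨_, rfl⟩, ?_⟩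
      exact (hG (rep i) i (hrep i) (Fin.castAdd e s)).trans (Fin.append_left _ _ _)
    have h2 : α (rep i) i (hrep i) y ∈ (Subring.closure (Set.range fun s => x s i)).map
        (α (rep i) i (hrep i)).toRingHom := by
      rw [h1]
      exact Subring.mem_top _
    obtain ⟨t, ht, hty⟩ := Subring.mem_map.mp h2
    have h3 : t = y := (α (rep i) i (hrep i)).injective hty
    rwa [← h3]
  · rintro i j hij ⟨φ, hφ⟩
    have h := inv_of_iso _ _ (hm j) (hm i) _ _ φ
    have hr : rep j = rep i := hrep' j i h
    have hj : m j = m (rep i) ∧ Fintype.card (F j) = Fintype.card (F (rep i)) :=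
      ⟨h.1.trans (hrep i).1, h.2.trans (hrep i).2⟩
    have hxj : ∀ s, x s j = G (rep i) j hj s := by
      intro s
      have h1 : ∀ r' (h' : m j = m r' ∧ Fintype.card (F j) = Fintype.card (F r')),
          r' = rep i → G r' j h' s = G (rep i) j hj s := by
        rintro _ h' rfl
        rfl
      exact h1 (rep j) (hrep j) hr
    let ψ : Matrix (Fin (m (rep i))) (Fin (m (rep i))) (F (rep i)) →+*
        Matrix (Fin (m (rep i))) (Fin (m (rep i))) (F (rep i)) :=
      (α (rep i) i (hrep i)).toRingHom.comp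
        (φ.toRingHom.comp (α (rep i) j hj).symm.toRingHom)
    have hψ : ∀ s, ψ (Fin.append (b (rep i)) (L (rep i) j) s) =
        Fin.append (b (rep i)) (L (rep i) i) s := by
      intro s
      show α (rep i) i (hrep i) (φ (G (rep i) j hj s)) = _
      rw [← hxj, hφ]
      exact hG (rep i) i (hrep i) s
    have hid : ψ = RingHom.id _ := by
      refine RingHom.eq_of_eqOn_set_dense (hb (rep i)) ?_
      rintro _ ⟨s, rfl⟩
      have h1 := hψ (Fin.castAdd e s)
      rw [Fin.append_left, Fin.append_left] at h1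
      exact h1
    apply hij
    symm
    refine hL (rep i) j i hj (hrep i) ?_
    funext s
    have h1 := hψ (Fin.natAdd 3 s)
    rw [Fin.append_right, Fin.append_right, hid] at h1
    exact h1

end Pool.Agent.MPfe8e9b
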