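import Mathlib
import Pool.Agent.Lib.MP_fe8e9b_al.SlImages

/-!
# MP_fe8e9b_al: `SL_(n+1)` is a product of five images of `SL_n`
-/

open scoped BigOperators MatrixGroups Pointwise Matrix

namespace Pool.Agent.MPfe8e9b

namespace SlSucc

/-- First coordinates, then the last one. -/
def e₁ (n : ℕ) : Fin n ⊕ Fin 1 ≃ Fin (n + 1) where
  toFun := Sum.elim Fin.castSucc (fun _ => Fin.last n)
  invFun := Fin.lastCases (Sum.inr 0) Sum.inl
  left_inv := by
    rintro (i | i)
    · simp
    · have : i = 0 := Subsingleton.elim _ _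
      simp [this]
  right_inv := by
    intro i
    refine Fin.lastCases ?_ (fun j => ?_) i <;> simp

/-- Last coordinates, then the first one. -/
def e₂ (n : ℕ) : Fin n ⊕ Fin 1 ≃ Fin (n + 1) where
  toFun := Sum.elim Fin.succ (fun _ => 0)
  invFun := Fin.cases (Sum.inr 0) Sum.inl
  left_inv := by
    rintro (i | i)
    · simp
    · have : i = 0 := Subsingleton.elim _ _
      simp [this]
  right_inv := by
    intro i
    refine Fin.cases ?_ (fun j => ?_) i <;> simp

variable {n : ℕ} {F : Type} [Field F]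

/-- The embedding of `SL(n)` as a block. -/
noncomputable def em (e : Fin n ⊕ Fin 1 ≃ Fin (n + 1)) (F : Type) [Field F] :
    Matrix.SpecialLinearGroup (Fin n) F →* Matrix.SpecialLinearGroup (Fin (n + 1)) F where
  toFun M := ⟨Matrix.reindex e e (Matrix.fromBlocks M.1 0 0 1), by
    rw [Matrix.det_reindex_self, Matrix.det_fromBlocks_zero₂₁, Matrix.det_one, mul_one]
    exact M.2⟩
  map_one' := by
    apply Subtype.ext
    show Matrix.reindex e e (Matrix.fromBlocks (1 : Matrix (Fin n) (Fin n) F) 0 0 1) = 1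
    rw [Matrix.fromBlocks_one]
    simp
  map_mul' M N := by
    apply Subtype.ext
    show Matrix.reindex e e (Matrix.fromBlocks (M.1 * N.1) 0 0 1) =
      Matrix.reindex e e (Matrix.fromBlocks M.1 0 0 1) *
        Matrix.reindex e e (Matrix.fromBlocks N.1 0 0 1)
    rw [Matrix.reindex_apply, Matrix.reindex_apply, Matrix.reindex_apply,
      Matrix.submatrix_mul_equiv, Matrix.fromBlocks_multiply]
    simp

theorem em_val (e : Fin n ⊕ Fin 1 ≃ Fin (n + 1)) (M : Matrix.SpecialLinearGroup (Fin n) F) :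
    (em e F M).1 = Matrix.reindex e e (Matrix.fromBlocks M.1 0 0 1) := rfl

theorem em_inl (e : Fin n ⊕ Fin 1 ≃ Fin (n + 1)) (M : Matrix.SpecialLinearGroup (Fin n) F)
    (v : Fin (n + 1) → F) (i : Fin n) :
    ((em e F M).1 *ᵥ v) (e (Sum.inl i)) = (M.1 *ᵥ (fun j => v (e (Sum.inl j)))) i := by
  rw [em_val]
  simp only [Matrix.mulVec, dotProduct]
  rw [← Equiv.sum_comp e, Fintype.sum_sum_type]
  simp [Matrix.reindex_apply]

theorem em_inr (e : Fin n ⊕ Fin 1 ≃ Fin (n + 1)) (M : Matrix.SpecialLinearGroup (Fin n) F)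
    (v : Fin (n + 1) → F) (i : Fin 1) :
    ((em e F M).1 *ᵥ v) (e (Sum.inr i)) = v (e (Sum.inr i)) := by
  rw [em_val]
  simp only [Matrix.mulVec, dotProduct]
  rw [← Equiv.sum_comp e, Fintype.sum_sum_type]
  have : i = 0 := Subsingleton.elim _ _
  simp [Matrix.reindex_apply, this]

/-- A transvection as an element of the special linear group. -/
theorem exists_tv (w φ : Fin n → F) (h : φ ⬝ᵥ w = 0) :
    ∃ A : Matrix.SpecialLinearGroup (Fin n) F, ∀ v : Fin n → F,
      A.1 *ᵥ v = v + (φ ⬝ᵥ v) • w := by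
  refine ⟨⟨1 + Matrix.vecMulVec w φ, ?_⟩, ?_⟩
  · rw [Matrix.vecMulVec_eq (Fin 1), Matrix.det_one_add_replicateCol_mul_replicateRow, h, add_zero]
  · intro v
    show (1 + Matrix.vecMulVec w φ) *ᵥ v = _
    rw [Matrix.add_mulVec, Matrix.one_mulVec]
    congr 1
    funext i
    simp only [Matrix.mulVec, dotProduct, Matrix.vecMulVec_apply, Pi.smul_apply, smul_eq_mul]
    rw [Finset.sum_mul]
    exact Finset.sum_congr rfl (fun j _ => by ring)

theorem trans1 (u : Fin n → F) (p q : Fin n) (hpq : p ≠ q) (hp : u p ≠ 0) :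
    ∃ A : Matrix.SpecialLinearGroup (Fin n) F, A.1 *ᵥ u = Pi.single q 1 := by
  set φ : Fin n → F := Pi.single q 1 + Pi.single p ((1 - u q) / u p) with hφ
  have h1 : φ ⬝ᵥ u = 1 := by
    rw [hφ, add_dotProduct, single_dotProduct, single_dotProduct]
    field_simp
    ring
  have h2 : φ ⬝ᵥ (Pi.single q 1 - u) = 0 := by
    rw [dotProduct_sub, h1, hφ, dotProduct_single, Pi.add_apply, Pi.single_eq_same,
      Pi.single_eq_of_ne hpq.symm]
    ring
  obtain ⟨A, hA⟩ := exists_tv (Pi.single q 1 - u) φ h2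
  refine ⟨A, ?_⟩
  rw [hA, h1, one_smul]
  abel

theorem trans2 (hn : 2 ≤ n) (u : Fin n → F) (hu : u ≠ 0) (q : Fin n) :
    ∃ A : Matrix.SpecialLinearGroup (Fin n) F, A.1 *ᵥ u = Pi.single q 1 := by
  by_cases h : ∃ p, p ≠ q ∧ u p ≠ 0
  · obtain ⟨p, hp, hup⟩ := h
    exact trans1 u p q hp hup
  · push Not at h
    have hq : u q ≠ 0 := by
      intro hq
      apply hu
      funext p
      by_cases hp : p = q
      · rw [hp, hq]; rfl
      · exact h p hp
    have : Nontrivial (Fin n) := Fin.nontrivial_iff_two_le.2 hn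
    obtain ⟨p, hp⟩ := exists_ne q
    obtain ⟨B, hB⟩ := exists_tv (F := F) (Pi.single p 1) (Pi.single q 1) (by
      rw [single_dotProduct, Pi.single_eq_of_ne hp.symm, mul_zero])
    have h1 : (B.1 *ᵥ u) p ≠ 0 := by
      rw [hB, single_dotProduct, Pi.add_apply, h p hp]
      simpa using hq
    obtain ⟨A, hA⟩ := trans1 (B.1 *ᵥ u) p q hp h1
    refine ⟨A * B, ?_⟩
    rw [Matrix.SpecialLinearGroup.coe_mul, ← Matrix.mulVec_mulVec]
    exact hA

/-- Column operation: some product maps `u` to the last vector. -/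
theorem col (hn : 2 ≤ n) (u : Fin (n + 1) → F) (hu : u ≠ 0) :
    ∃ k k' : Matrix.SpecialLinearGroup (Fin n) F,
      (em (e₂ n) F k').1 *ᵥ ((em (e₁ n) F k).1 *ᵥ u) = Pi.single (Fin.last n) 1 := by
  -- first step
  obtain ⟨k, hk0, hk1⟩ : ∃ k : Matrix.SpecialLinearGroup (Fin n) F,
      ((em (e₁ n) F k).1 *ᵥ u) 0 = 0 ∧
      (fun j : Fin n => ((em (e₁ n) F k).1 *ᵥ u) (Fin.succ j)) ≠ 0 := by
    set u' : Fin n → F := fun j => u (Fin.castSucc j) with hu'
    by_cases h : u' = 0
    · refine ⟨1, ?_, ?_⟩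
      · rw [map_one, Matrix.SpecialLinearGroup.coe_one, Matrix.one_mulVec]
        have := congrFun h ⟨0, by omega⟩
        exact this
      · rw [map_one, Matrix.SpecialLinearGroup.coe_one, Matrix.one_mulVec]
        intro hcon
        apply hu
        funext i
        refine Fin.cases ?_ (fun j => ?_) i
        · have := congrFun h ⟨0, by omega⟩
          exact this
        · exact congrFun hcon j
    · obtain ⟨A, hA⟩ := trans2 hn u' h ⟨1, by omega⟩
      have h1 : ∀ i : Fin n, ((em (e₁ n) F A).1 *ᵥ u) (Fin.castSucc i) =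
          (Pi.single (⟨1, by omega⟩ : Fin n) (1 : F) : Fin n → F) i := by
        intro i
        have := em_inl (e₁ n) A u i
        rw [← hA]
        exact this
      refine ⟨A, ?_, ?_⟩
      · have := h1 ⟨0, by omega⟩
        rw [Pi.single_eq_of_ne (by simp)] at this
        exact this
      · intro hcon
        have h2 := h1 ⟨1, by omega⟩
        rw [Pi.single_eq_same] at h2
        have h3 := congrFun hcon ⟨0, by omega⟩
        have h4 : Fin.castSucc (⟨1, by omega⟩ : Fin n) = Fin.succ (⟨0, by omega⟩ : Fin n) := by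
          ext; simp
        rw [h4] at h2
        simp only [Pi.zero_apply] at h3
        rw [h3] at h2
        exact zero_ne_one h2
  obtain ⟨k', hk'⟩ := trans2 hn _ hk1 ⟨n - 1, by omega⟩
  refine ⟨k, k', ?_⟩
  funext i
  refine Fin.cases ?_ (fun j => ?_) i
  · have := em_inr (e₂ n) k' ((em (e₁ n) F k).1 *ᵥ u) 0
    rw [Pi.single_eq_of_ne (by
      intro h
      have := congrArg Fin.val h
      simp at this
      omega)]
    exact this.trans hk0
  · have := em_inl (e₂ n) k' ((em (e₁ n) F k).1 *ᵥ u) j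
    refine this.trans ?_
    have h5 : (fun j => ((em (e₁ n) F k).1 *ᵥ u) ((e₂ n) (Sum.inl j))) =
      (fun j : Fin n => ((em (e₁ n) F k).1 *ᵥ u) (Fin.succ j)) := rfl
    rw [h5, hk']
    by_cases hj : j = ⟨n - 1, by omega⟩
    · subst hj
      rw [Pi.single_eq_same]
      have : Fin.succ (⟨n - 1, by omega⟩ : Fin n) = Fin.last n := by
        ext; simp; omega
      rw [this, Pi.single_eq_same]
    · rw [Pi.single_eq_of_ne hj, Pi.single_eq_of_ne]
      intro h
      apply hj
      have := congrArg Fin.val h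
      ext
      simp at this
      simp
      omega

/-- Lower unipotent element. -/
noncomputable def lw (w : Fin n → F) : Matrix.SpecialLinearGroup (Fin (n + 1)) F :=
  ⟨Matrix.reindex (e₁ n) (e₁ n) (Matrix.fromBlocks 1 0 (Matrix.replicateRow (Fin 1) w) 1), by
    rw [Matrix.det_reindex_self, Matrix.det_fromBlocks_zero₁₂, Matrix.det_one, Matrix.det_one,
      mul_one]⟩

theorem lw_conj (y : Matrix.SpecialLinearGroup (Fin n) F) (w e : Fin n → F)
    (h : w ᵥ* y.1 = e) : lw w = em (e₁ n) F y * lw e * em (e₁ n) F y⁻¹ := by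
  have h1 : Matrix.replicateRow (Fin 1) e * (y⁻¹).1 = Matrix.replicateRow (Fin 1) w := by
    rw [← Matrix.replicateRow_vecMul, ← h, Matrix.vecMul_vecMul]
    have : y.1 * (y⁻¹).1 = 1 := by
      rw [← Matrix.SpecialLinearGroup.coe_mul, mul_inv_cancel, Matrix.SpecialLinearGroup.coe_one]
    rw [this, Matrix.vecMul_one]
  have h2 : y.1 * (y⁻¹).1 = 1 := by
    rw [← Matrix.SpecialLinearGroup.coe_mul, mul_inv_cancel, Matrix.SpecialLinearGroup.coe_one]
  apply Subtype.ext
  rw [Matrix.SpecialLinearGroup.coe_mul, Matrix.SpecialLinearGroup.coe_mul, em_val, em_val]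
  show Matrix.reindex _ _ _ = _ * Matrix.reindex _ _ _ * _
  simp only [Matrix.reindex_apply]
  rw [Matrix.submatrix_mul_equiv, Matrix.submatrix_mul_equiv, Matrix.fromBlocks_multiply,
    Matrix.fromBlocks_multiply]
  simp only [Matrix.mul_one, Matrix.mul_zero, add_zero, Matrix.zero_mul, Matrix.one_mul, zero_add,
    h2, h1]

theorem factor (g : Matrix.SpecialLinearGroup (Fin (n + 1)) F)
    (h : g.1 *ᵥ Pi.single (Fin.last n) 1 = Pi.single (Fin.last n) 1) :
    ∃ (G : Matrix.SpecialLinearGroup (Fin n) F) (w : Fin n → F),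
      g = lw w * em (e₁ n) F G := by
  rw [Matrix.mulVec_single_one] at h
  set M := Matrix.reindex (e₁ n).symm (e₁ n).symm g.1 with hM
  have hM12 : M.toBlocks₁₂ = 0 := by
    ext i j
    have := congrFun h (Fin.castSucc i)
    rw [Pi.single_eq_of_ne (Fin.castSucc_lt_last i).ne] at this
    exact this
  have hM22 : M.toBlocks₂₂ = 1 := by
    ext i j
    have := congrFun h (Fin.last n)
    rw [Pi.single_eq_same] at this
    have hi : i = j := Subsingleton.elim _ _
    rw [hi, Matrix.one_apply_eq]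
    exact this
  have hMb : M = Matrix.fromBlocks M.toBlocks₁₁ 0 M.toBlocks₂₁ 1 := by
    rw [← hM12, ← hM22, Matrix.fromBlocks_toBlocks]
  have hdet : M.toBlocks₁₁.det = 1 := by
    have h1 : M.det = 1 := by
      rw [hM, Matrix.det_reindex_self]
      exact g.2
    rw [hMb, Matrix.det_fromBlocks_zero₁₂, Matrix.det_one, mul_one] at h1
    exact h1
  set G : Matrix.SpecialLinearGroup (Fin n) F := ⟨M.toBlocks₁₁, hdet⟩ with hG
  refine ⟨G, (M.toBlocks₂₁ 0) ᵥ* (G⁻¹).1, ?_⟩
  apply Subtype.ext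
  rw [Matrix.SpecialLinearGroup.coe_mul, em_val]
  show g.1 = Matrix.reindex _ _ _ * _
  have hg : g.1 = Matrix.reindex (e₁ n) (e₁ n) M := by
    rw [hM]; simp
  rw [hg]
  simp only [Matrix.reindex_apply]
  rw [Matrix.submatrix_mul_equiv, Matrix.fromBlocks_multiply]
  congr 1
  rw [hMb]
  have h2 : (G⁻¹).1 * G.1 = 1 := by
    rw [← Matrix.SpecialLinearGroup.coe_mul, inv_mul_cancel, Matrix.SpecialLinearGroup.coe_one]
  have h3 : Matrix.replicateRow (Fin 1) ((M.toBlocks₂₁ 0) ᵥ* (G⁻¹).1) * G.1 = M.toBlocks₂₁ := by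
    rw [← Matrix.replicateRow_vecMul, Matrix.vecMul_vecMul, h2, Matrix.vecMul_one]
    ext i j
    have hi : i = 0 := Subsingleton.elim _ _
    rw [hi]
    rfl
  congr 1
  · simp [hG]
  · simp
  · rw [Matrix.one_mul, Matrix.toBlocks_fromBlocks₂₁, h3]
    simp
  · simp

theorem lw_inl (w : Fin n → F) (v : Fin (n + 1) → F) (i : Fin n) :
    ((lw w).1 *ᵥ v) (Fin.castSucc i) = v (Fin.castSucc i) := by
  show (Matrix.reindex (e₁ n) (e₁ n) _ *ᵥ v) (e₁ n (Sum.inl i)) = v (e₁ n (Sum.inl i))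
  simp only [Matrix.mulVec, dotProduct]
  rw [← Equiv.sum_comp (e₁ n), Fintype.sum_sum_type]
  simp [Matrix.reindex_apply, Matrix.one_apply]

theorem lw_inr (w : Fin n → F) (v : Fin (n + 1) → F) :
    ((lw w).1 *ᵥ v) (Fin.last n) = w ⬝ᵥ (fun j => v (Fin.castSucc j)) + v (Fin.last n) := by
  show (Matrix.reindex (e₁ n) (e₁ n) _ *ᵥ v) (e₁ n (Sum.inr 0)) =
    w ⬝ᵥ (fun j => v (e₁ n (Sum.inl j))) + v (e₁ n (Sum.inr 0))
  simp only [Matrix.mulVec, dotProduct]
  rw [← Equiv.sum_comp (e₁ n), Fintype.sum_sum_type]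
  simp [Matrix.reindex_apply]

theorem lw_mem (hn : 2 ≤ n) : ∃ z : Matrix.SpecialLinearGroup (Fin n) F,
    lw (Pi.single (⟨1, by omega⟩ : Fin n) (1 : F)) = em (e₂ n) F z := by
  obtain ⟨z, hz⟩ := exists_tv (F := F) (Pi.single (⟨n - 1, by omega⟩ : Fin n) 1)
    (Pi.single (⟨0, by omega⟩ : Fin n) 1) (by
      rw [single_dotProduct, Pi.single_eq_of_ne, mul_zero]
      intro h
      have := congrArg Fin.val h
      simp at this
      omega)
  refine ⟨z, ?_⟩
  apply Subtype.ext
  apply Matrix.ext_of_mulVec_single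
  intro a
  set v : Fin (n + 1) → F := Pi.single a 1 with hv
  have h1 : ∀ i : Fin n, ((em (e₂ n) F z).1 *ᵥ v) (Fin.succ i) =
      v (Fin.succ i) + v (Fin.succ ⟨0, by omega⟩) *
        (Pi.single (⟨n - 1, by omega⟩ : Fin n) (1 : F) : Fin n → F) i := by
    intro i
    have := em_inl (e₂ n) z v i
    rw [hz] at this
    refine this.trans ?_
    rw [single_dotProduct, Pi.add_apply, Pi.smul_apply, one_mul, smul_eq_mul]
    rfl
  have h0 : ((em (e₂ n) F z).1 *ᵥ v) 0 = v 0 := em_inr (e₂ n) z v 0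
  funext i
  refine Fin.lastCases ?_ (fun j => ?_) i
  · rw [lw_inr]
    have h2 : Fin.last n = Fin.succ (⟨n - 1, by omega⟩ : Fin n) := by
      ext; simp; omega
    rw [h2, h1, Pi.single_eq_same, single_dotProduct, one_mul, mul_one, add_comm]
    congr 1
  · rw [lw_inl]
    by_cases hj : j = ⟨0, by omega⟩
    · have h3 : Fin.castSucc j = 0 := by
        rw [hj]; rfl
      rw [h3, h0]
    · obtain ⟨j', hj'⟩ : ∃ j' : Fin n, Fin.castSucc j = Fin.succ j' := by
        refine ⟨⟨j.val - 1, by omega⟩, ?_⟩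
        have : j.val ≠ 0 := fun h => hj (Fin.ext h)
        ext; simp; omega
      rw [hj', h1, Pi.single_eq_of_ne, mul_zero, add_zero]
      intro h
      rw [h] at hj'
      have := congrArg Fin.val hj'
      simp at this
      omega

end SlSucc

open SlSucc in
theorem sl_succ (n : ℕ) (hn : 2 ≤ n) (F : Type) [Field F] :
    ImgSet (Matrix.SpecialLinearGroup (Fin n) F) 5
      (Set.univ : Set (Matrix.SpecialLinearGroup (Fin (n + 1)) F)) := by
  refine ⟨![em (e₁ n) F, em (e₂ n) F, em (e₁ n) F, em (e₂ n) F, em (e₁ n) F], ?_⟩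
  intro g _
  -- make the last column trivial
  obtain ⟨k, k', hk⟩ := col hn (g.1 *ᵥ Pi.single (Fin.last n) 1) (by
    intro h
    have h1 : (g⁻¹).1 *ᵥ (g.1 *ᵥ Pi.single (Fin.last n) 1) = 0 := by
      rw [h, Matrix.mulVec_zero]
    rw [Matrix.mulVec_mulVec, ← Matrix.SpecialLinearGroup.coe_mul, inv_mul_cancel,
      Matrix.SpecialLinearGroup.coe_one, Matrix.one_mulVec] at h1
    have := congrFun h1 (Fin.last n)
    rw [Pi.single_eq_same] at this
    exact one_ne_zero this)
  obtain ⟨G, w, hG⟩ := factor (em (e₂ n) F k' * em (e₁ n) F k * g) (by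
    rw [Matrix.SpecialLinearGroup.coe_mul, Matrix.SpecialLinearGroup.coe_mul,
      ← Matrix.mulVec_mulVec, ← Matrix.mulVec_mulVec]
    exact hk)
  obtain ⟨y, z, hyz⟩ : ∃ y z : Matrix.SpecialLinearGroup (Fin n) F,
      lw w = em (e₁ n) F y * em (e₂ n) F z * em (e₁ n) F y⁻¹ := by
    by_cases hw : w = 0
    · refine ⟨1, 1, ?_⟩
      rw [map_one, map_one, inv_one, map_one, one_mul, one_mul]
      apply Subtype.ext
      show Matrix.reindex (e₁ n) (e₁ n) _ = 1
      rw [hw]
      have : Matrix.replicateRow (Fin 1) (0 : Fin n → F) = 0 := by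
        ext; rfl
      rw [this, Matrix.fromBlocks_one]
      simp
    · obtain ⟨A, hA⟩ := trans2 hn w hw ⟨1, by omega⟩
      obtain ⟨z, hz⟩ := lw_mem (n := n) (F := F) hn
      refine ⟨A.transpose, z, ?_⟩
      rw [← hz]
      apply lw_conj
      rw [Matrix.SpecialLinearGroup.coe_transpose, Matrix.vecMul_transpose]
      exact hA
  refine ⟨![k⁻¹, k'⁻¹, y, z, y⁻¹ * G], ?_⟩
  have h1 : g = em (e₁ n) F k⁻¹ * (em (e₂ n) F k'⁻¹ * (em (e₁ n) F y *
      (em (e₂ n) F z * em (e₁ n) F (y⁻¹ * G)))) := by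
    have h2 : g = (em (e₁ n) F k)⁻¹ * ((em (e₂ n) F k')⁻¹ *
        (em (e₂ n) F k' * em (e₁ n) F k * g)) := by group
    rw [h2, hG, hyz]
    simp only [map_inv, map_mul, mul_assoc]
  rw [h1]
  simp [List.ofFn_succ]

end Pool.Agent.MPfe8e9b
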