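import Mathlib
import Pool.Agent.Lib.MP_fe8e9b_al.SlImages
import Pool.Agent.Lib.MP_fe8e9b_al.SlSucc

/-!
# MP_fe8e9b_al: `SL_n` as a bounded product of images of `SL_{3 (n/3)}`
-/

set_option autoImplicit false

open scoped BigOperators MatrixGroups Pointwise

namespace Pool.Agent.MPfe8e9b

namespace Sl3Images

theorem comp_aux {H G₁ G₂ : Type*} [Group H] [Group G₁] [Group G₂] {L : ℕ}
    (hA : ImgSet H L (Set.univ : Set G₁)) (L' : ℕ) (φ : Fin L' → (G₁ →* G₂)) :
    ImgSet H (L' * L) {g : G₂ | ∃ x : Fin L' → G₁, g = (List.ofFn fun j => φ j (x j)).prod} := by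
  induction L' with
  | zero =>
    rw [zero_mul]
    refine (ImgSet.one 0).mono ?_
    rintro g ⟨x, hx⟩
    rw [hx]
    simp
  | succ n ih =>
    have h1 : ImgSet H L (Set.range (φ 0)) := by
      obtain ⟨ψ, hψ⟩ := hA
      refine ⟨fun j => (φ 0).comp (ψ j), ?_⟩
      rintro _ ⟨y, rfl⟩
      obtain ⟨x, hx⟩ := hψ y (Set.mem_univ y)
      refine ⟨x, ?_⟩
      rw [hx, map_list_prod, List.map_ofFn]
      rfl
    have h2 := h1.mul (ih (fun j => φ j.succ))
    rw [show (n + 1) * L = L + n * L by ring]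
    refine h2.mono ?_
    rintro g ⟨x, hx⟩
    rw [List.ofFn_succ, List.prod_cons] at hx
    exact ⟨_, ⟨x 0, rfl⟩, _, ⟨fun j => x j.succ, rfl⟩, hx.symm⟩

theorem comp {H G₁ G₂ : Type*} [Group H] [Group G₁] [Group G₂] {L L' : ℕ}
    (hA : ImgSet H L (Set.univ : Set G₁)) (hB : ImgSet G₁ L' (Set.univ : Set G₂)) :
    ImgSet H (L' * L) (Set.univ : Set G₂) := by
  obtain ⟨φ, hφ⟩ := hB
  exact (comp_aux hA L' φ).mono fun g hg => hφ g hg

/-- Reindexing the special linear group. -/
def reindexSL {α β : Type} [Fintype α] [DecidableEq α] [Fintype β] [DecidableEq β] (e : α ≃ β)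
    (F : Type) [Field F] : Matrix.SpecialLinearGroup α F →* Matrix.SpecialLinearGroup β F where
  toFun g := ⟨Matrix.reindex e e g.1, by rw [Matrix.det_reindex_self]; exact g.2⟩
  map_one' := by
    apply Subtype.ext
    show Matrix.reindex e e 1 = 1
    simp
  map_mul' g h := by
    apply Subtype.ext
    show Matrix.reindex e e (g.1 * h.1) = Matrix.reindex e e g.1 * Matrix.reindex e e h.1
    simp

theorem reindexSL_surj {α β : Type} [Fintype α] [DecidableEq α] [Fintype β] [DecidableEq β]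
    (e : α ≃ β) (F : Type) [Field F] : Function.Surjective (reindexSL e F) := by
  intro g
  refine ⟨⟨Matrix.reindex e.symm e.symm g.1, by rw [Matrix.det_reindex_self]; exact g.2⟩, ?_⟩
  apply Subtype.ext
  show Matrix.reindex e e (Matrix.reindex e.symm e.symm g.1) = g.1
  ext i j
  simp

theorem img_reindex {α β : Type} [Fintype α] [DecidableEq α] [Fintype β] [DecidableEq β]
    (e : α ≃ β) (F : Type) [Field F] :
    ImgSet (Matrix.SpecialLinearGroup α F) 1
      (Set.univ : Set (Matrix.SpecialLinearGroup β F)) := by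
  refine (ImgSet.range (reindexSL e F)).mono ?_
  intro g _
  exact reindexSL_surj e F g

theorem img_add (N : ℕ) (hN : 2 ≤ N) (F : Type) [Field F] (r : ℕ) :
    ImgSet (Matrix.SpecialLinearGroup (Fin N) F) (5 ^ r)
      (Set.univ : Set (Matrix.SpecialLinearGroup (Fin (N + r)) F)) := by
  induction r with
  | zero => exact img_reindex (Equiv.refl _) F
  | succ r ih =>
    have h1 := comp ih (sl_succ (N + r) (by omega) F)
    rwa [← pow_succ'] at h1

end Sl3Images

open Sl3Images in
theorem sl3_images : ∃ L : ℕ, ∀ n : ℕ, 3 ≤ n → ∀ (F : Type) [Field F],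
    ImgSet (Matrix.SpecialLinearGroup (Fin 3 × Fin (n / 3)) F) L
      (Set.univ : Set (Matrix.SpecialLinearGroup (Fin n) F)) := by
  refine ⟨5 ^ 2, ?_⟩
  intro n hn F _
  have h1 : ImgSet (Matrix.SpecialLinearGroup (Fin 3 × Fin (n / 3)) F) 1
      (Set.univ : Set (Matrix.SpecialLinearGroup (Fin (3 * (n / 3))) F)) :=
    img_reindex finProdFinEquiv F
  have h2 := img_add (3 * (n / 3)) (by omega) F (n % 3)
  have h3 : 3 * (n / 3) + n % 3 = n := Nat.div_add_mod n 3
  rw [h3] at h2
  have h4 := comp h1 h2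
  refine h4.le ?_
  rw [mul_one]
  exact Nat.pow_le_pow_right (by norm_num) (by omega)

end Pool.Agent.MPfe8e9b
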