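import Mathlib
import Pool.Agent.Lib.MP_fe8e9b_al.FinalG
import Pool.Agent.Lib.MP_fe8e9b_al.Expd3
import Pool.Agent.Lib.MP_fe8e9b_al.Sl3Images
import Pool.Agent.Lib.MP_fe8e9b_al.RingGen

/-!
# MP_fe8e9b_al: final assembly, third version (unbounded rank)
-/

set_option autoImplicit false

open scoped BigOperators MatrixGroups Pointwise

namespace Pool.Agent.MPfe8e9b

/-- The group `S` is a product of `L` homomorphic images of `SL(n, F)`. -/
def SLProduct (L n : ℕ) (F S : Type) [Field F] [Group S] : Prop :=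
  ∃ φ : Fin L → (Matrix.SpecialLinearGroup (Fin n) F →* S), ∀ g : S,
    ∃ x : Fin L → Matrix.SpecialLinearGroup (Fin n) F, g = (List.ofFn fun j => φ j (x j)).prod

/-- `Q` is generated by at most `d` elements and is isomorphic to a finite direct product of
nontrivial groups `S i`, such that there are `n i ≥ 2` and finite fields `F i` for which `S i` is a
product of `L` homomorphic images of `SL(n i, F i)`, and such that for all `m` and `q` there are at
most `q ^ (C * m ^ 2)` isomorphism classes of groups `S i` with `n i = m` and `|F i| = q`. -/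
def LieProduct (d L C : ℕ) (Q : Type) [Group Q] : Prop :=
  (∃ T : Finset Q, T.card ≤ d ∧ Subgroup.closure (T : Set Q) = ⊤) ∧
  ∃ (ι : Type) (_ : Fintype ι) (n : ι → ℕ) (F : ι → Type) (_ : ∀ i, Field (F i))
    (_ : ∀ i, Fintype (F i)) (S : ι → Type) (_ : ∀ i, Group (S i)),
    (∀ i, 2 ≤ n i) ∧ (∀ i, Nontrivial (S i)) ∧ (∀ i, SLProduct L (n i) (F i) (S i)) ∧
    (∀ m q : ℕ, ∃ c : {i // n i = m ∧ Fintype.card (F i) = q} → Fin (q ^ (C * m ^ 2)),
      ∀ i j, c i = c j → Nonempty (S i.1 ≃* S j.1)) ∧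
    Nonempty (Q ≃* (∀ i, S i))

namespace Final3

theorem closure_surj {G H : Type} [Group G] [Group H] [DecidableEq H] (f : G →* H)
    (hf : Function.Surjective f) {d : ℕ}
    (h : ∃ T : Finset G, T.card ≤ d ∧ Subgroup.closure (T : Set G) = ⊤) :
    ∃ T : Finset H, T.card ≤ d ∧ Subgroup.closure (T : Set H) = ⊤ := by
  obtain ⟨T, hT, hT'⟩ := h
  refine ⟨T.image f, Finset.card_image_le.trans hT, ?_⟩
  rw [Finset.coe_image, ← MonoidHom.map_closure, hT']
  exact Subgroup.map_top_of_surjective _ hf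

theorem SLProduct.imgSet {L n : ℕ} {F S : Type} [Field F] [Group S] (h : SLProduct L n F S) :
    ImgSet (Matrix.SpecialLinearGroup (Fin n) F) L (Set.univ : Set S) := by
  obtain ⟨φ, hφ⟩ := h
  exact ⟨φ, fun g _ => hφ g⟩

theorem SLProduct.card_le {L n : ℕ} {F S : Type} [Field F] [Fintype F] [Group S]
    (h : SLProduct L n F S) : Finite S ∧ Nat.card S ≤ Fintype.card F ^ (n ^ 2 * L) := by
  classical
  obtain ⟨φ, hφ⟩ := h
  have hsurj : Function.Surjective (fun x : Fin L → Matrix.SpecialLinearGroup (Fin n) F =>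
      (List.ofFn fun j => φ j (x j)).prod) := by
    intro g
    obtain ⟨x, hx⟩ := hφ g
    exact ⟨x, hx.symm⟩
  refine ⟨Finite.of_surjective _ hsurj, ?_⟩
  refine (Nat.card_le_card_of_surjective _ hsurj).trans ?_
  rw [Nat.card_fun, Nat.card_fin, pow_mul]
  refine Nat.pow_le_pow_left ?_ L
  have h1 : Nat.card (Matrix.SpecialLinearGroup (Fin n) F) ≤
      Nat.card (Matrix (Fin n) (Fin n) F) :=
    Nat.card_le_card_of_injective (fun A => A.1) Subtype.val_injective
  refine h1.trans (le_of_eq ?_)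
  rw [show Matrix (Fin n) (Fin n) F = (Fin n → Fin n → F) from rfl]
  rw [Nat.card_fun, Nat.card_fun, Nat.card_eq_fintype_card, Nat.card_fin, ← pow_mul, ← pow_two]

/-- Multiplicities for given `n` and `q`. -/
theorem mult_nq {ι : Type} [Fintype ι] (n : ι → ℕ) (F : ι → Type) [∀ i, Field (F i)]
    [∀ i, Fintype (F i)] (S : ι → Type) [∀ i, Group (S i)] [∀ i, Nontrivial (S i)] (d L C : ℕ)
    (hd : ∃ T : Finset (∀ i, S i), T.card ≤ d ∧ Subgroup.closure (T : Set (∀ i, S i)) = ⊤)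
    (hS : ∀ i, SLProduct L (n i) (F i) (S i)) (m q : ℕ)
    (hc : ∃ c : {i // n i = m ∧ Fintype.card (F i) = q} → Fin (q ^ (C * m ^ 2)),
      ∀ i j, c i = c j → Nonempty (S i.1 ≃* S j.1)) :
    Fintype.card {i // n i = m ∧ Fintype.card (F i) = q} ≤ q ^ ((C + L * d) * m ^ 2) := by
  classical
  obtain ⟨c, hc⟩ := hc
  have hfin : ∀ i, Finite (S i) := fun i => (SLProduct.card_le (hS i)).1
  let _ : ∀ i, Fintype (S i) := fun i => Fintype.ofFinite _
  have h1 : Fintype.card {i // n i = m ∧ Fintype.card (F i) = q} ≤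
      q ^ (m ^ 2 * L * d) * q ^ (C * m ^ 2) := by
    have h2 := Finset.card_le_mul_card_image_of_maps_to
      (s := (Finset.univ : Finset {i // n i = m ∧ Fintype.card (F i) = q})) (f := c)
      (t := Finset.univ) (fun _ _ => Finset.mem_univ _) (q ^ (m ^ 2 * L * d)) (by
        intro b _
        rcases (Finset.univ.filter (fun i => c i = b)).eq_empty_or_nonempty with h0 | ⟨i₀, hi₀⟩
        · rw [h0]
          simp
        · have hi₀' := (Finset.mem_filter.mp hi₀).2
          have h3 := mult_bound S d hd (S i₀.1)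
            ((Finset.univ.filter (fun i => c i = b)).map ⟨Subtype.val, Subtype.val_injective⟩) (by
              intro i hi
              obtain ⟨j, hj, rfl⟩ := Finset.mem_map.mp hi
              have hj' := (Finset.mem_filter.mp hj).2
              exact hc j i₀ (hj'.trans hi₀'.symm))
          rw [Finset.card_map] at h3
          refine h3.trans ?_
          rw [pow_mul]
          refine Nat.pow_le_pow_left ?_ d
          have h4 := (SLProduct.card_le (hS i₀.1)).2
          rwa [Nat.card_eq_fintype_card, i₀.2.1, i₀.2.2] at h4)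
    rwa [Finset.card_univ, Finset.card_univ, Fintype.card_fin] at h2
  refine h1.trans (le_of_eq ?_)
  rw [← pow_add]
  congr 1
  ring

/-- Multiplicities for the ring. -/
theorem mult_third {ι : Type} [Fintype ι] (n : ι → ℕ) (F : ι → Type) [∀ i, Field (F i)]
    [∀ i, Fintype (F i)] (A : ℕ)
    (h : ∀ m q : ℕ, Fintype.card {i // n i = m ∧ Fintype.card (F i) = q} ≤ q ^ (A * m ^ 2))
    (hn : ∀ i, 3 ≤ n i) (m q : ℕ) :
    Nat.card {i // n i / 3 = m ∧ Fintype.card (F i) = q} ≤ q ^ ((25 * A + 2) * m ^ 2) := by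
  classical
  rw [Nat.card_eq_fintype_card]
  rcases isEmpty_or_nonempty {i // n i / 3 = m ∧ Fintype.card (F i) = q} with hE | ⟨⟨i₀, hi₀⟩⟩
  · rw [Fintype.card_eq_zero]
    exact Nat.zero_le _
  have hm : 1 ≤ m := by
    have := hn i₀
    omega
  have hq : 2 ≤ q := by
    rw [← hi₀.2]
    exact Fintype.one_lt_card
  -- inject into three pieces
  have h1 : Fintype.card {i // n i / 3 = m ∧ Fintype.card (F i) = q} ≤
      ∑ r ∈ Finset.range 3, Fintype.card {i // n i = 3 * m + r ∧ Fintype.card (F i) = q} := by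
    simp only [Fintype.card_subtype]
    refine le_trans (Finset.card_le_card ?_) Finset.card_biUnion_le
    intro i hi
    have hi' := (Finset.mem_filter.mp hi).2
    rw [Finset.mem_biUnion]
    refine ⟨n i % 3, Finset.mem_range.mpr (Nat.mod_lt _ (by norm_num)), ?_⟩
    refine Finset.mem_filter.mpr ⟨Finset.mem_univ _, ?_, hi'.2⟩
    rw [← hi'.1]
    exact (Nat.div_add_mod _ _).symm
  refine h1.trans ?_
  have h2 : ∀ r ∈ Finset.range 3,
      Fintype.card {i // n i = 3 * m + r ∧ Fintype.card (F i) = q} ≤ q ^ (25 * A * m ^ 2) := by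
    intro r hr
    refine (h (3 * m + r) q).trans ?_
    refine Nat.pow_le_pow_right (by omega) ?_
    have hr' := Finset.mem_range.mp hr
    have h3 : 3 * m + r ≤ 5 * m := by omega
    calc A * (3 * m + r) ^ 2 ≤ A * (5 * m) ^ 2 :=
          Nat.mul_le_mul_left _ (Nat.pow_le_pow_left h3 2)
      _ = 25 * A * m ^ 2 := by ring
  refine (Finset.sum_le_card_nsmul _ _ _ h2).trans ?_
  rw [Finset.card_range, smul_eq_mul]
  calc 3 * q ^ (25 * A * m ^ 2) ≤ q ^ (2 * m ^ 2) * q ^ (25 * A * m ^ 2) := by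
        refine Nat.mul_le_mul_right _ ?_
        calc 3 ≤ 2 ^ 2 := by norm_num
          _ ≤ q ^ 2 := Nat.pow_le_pow_left hq 2
          _ ≤ q ^ (2 * m ^ 2) := Nat.pow_le_pow_right (by omega) (by nlinarith)
    _ = q ^ ((25 * A + 2) * m ^ 2) := by
        rw [← pow_add]
        congr 1
        ring

/-- The part with `n ≥ 3`. -/
theorem part3 (d L C : ℕ) : ∃ (k : ℕ) (κ : ℝ), 0 < κ ∧ ∀ (ι : Type) [Fintype ι] (n : ι → ℕ)
    (F : ι → Type) [∀ i, Field (F i)] [∀ i, Fintype (F i)] (S : ι → Type) [∀ i, Group (S i)]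
    [∀ i, Nontrivial (S i)],
    (∃ T : Finset (∀ i, S i), T.card ≤ d ∧ Subgroup.closure (T : Set (∀ i, S i)) = ⊤) →
    (∀ i, 3 ≤ n i) → (∀ i, SLProduct L (n i) (F i) (S i)) →
    (∀ m q : ℕ, ∃ c : {i // n i = m ∧ Fintype.card (F i) = q} → Fin (q ^ (C * m ^ 2)),
      ∀ i j, c i = c j → Nonempty (S i.1 ≃* S j.1)) →
    FExpd (∀ i, S i) k κ := by
  classical
  obtain ⟨k₁, h₁⟩ := ring_gen (25 * (C + L * d) + 2)
  obtain ⟨K₂, κ₂, hκ₂, h₂⟩ := expd_el3 k₁
  obtain ⟨L₃, hL₃⟩ := sl3_images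
  obtain ⟨k₄, κ₄, hκ₄, h₄⟩ := expd_images (L * L₃) K₂ κ₂ hκ₂
  refine ⟨k₄, κ₄, hκ₄, ?_⟩
  intro ι _ n F _ _ S _ _ hd hn hS hc
  have hring := h₁ ι (fun i => n i / 3) F (fun i => by
      have := hn i
      show 1 ≤ n i / 3
      omega)
    (fun m q => mult_third n F (C + L * d) (fun m q => mult_nq n F S d L C hd hS m q (hc m q))
      hn m q)
  have hex := h₂ ι (fun i => n i / 3) F hring
  have hfin : ∀ i, Finite (S i) := fun i => (SLProduct.card_le (hS i)).1
  let _ : ∀ i, Fintype (S i) := fun i => Fintype.ofFinite _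
  let _ : ∀ i, Fintype (Matrix.SpecialLinearGroup (Fin 3 × Fin (n i / 3)) (F i)) :=
    fun i => Fintype.ofFinite _
  exact (h₄ ι (fun i => Matrix.SpecialLinearGroup (Fin 3 × Fin (n i / 3)) (F i)) S (fun i => by
    obtain ⟨φ, hφ⟩ := Sl3Images.comp (hL₃ (n i) (hn i) (F i)) (SLProduct.imgSet (hS i))
    exact ⟨φ, fun g => hφ g (Set.mem_univ g)⟩) hex.expd).fexpd

theorem sl2_of_eq {L n : ℕ} {F S : Type} [Field F] [Group S] (hn : n = 2)
    (h : SLProduct L n F S) : SL2Product L F S := by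
  subst hn
  exact h

end Final3

open Final3 in
/-- One factor. -/
theorem lie_expd
    (hfam : ∃ q₀ : ℕ, ∀ e : ℕ, ∃ (k : ℕ) (κ : ℝ), 0 < κ ∧ ∀ (ι : Type) [Fintype ι]
      [DecidableEq ι] (F : ι → Type) [∀ i, Field (F i)] [∀ i, Fintype (F i)]
      [∀ i, DecidableEq (F i)],
      (∀ q : ℕ, (Finset.univ.filter (fun i => Fintype.card (F i) = q)).card ≤ q ^ e) →
      (∀ i, q₀ ≤ Fintype.card (F i)) → Expd (∀ i, SL(2, F i)) k κ)
    (d L C : ℕ) : ∃ (k : ℕ) (κ : ℝ), 0 < κ ∧ ∀ (Q : Type) [Group Q],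
      LieProduct d L C Q → FExpd Q k κ := by
  classical
  obtain ⟨k₂, κ₂, hκ₂, h₂⟩ := good_expd hfam d L (C * 2 ^ 2)
  obtain ⟨k₃, κ₃, hκ₃, h₃⟩ := part3 d L C
  refine ⟨k₂ + k₃, min κ₂ κ₃, lt_min hκ₂ hκ₃, ?_⟩
  rintro Q _ ⟨hQ, ι, hι, n, F, hF, hFfin, S, hS, hn, hnt, hprod, hcls, ⟨ψ⟩⟩
  have hd : ∃ T : Finset (∀ i, S i), T.card ≤ d ∧
      Subgroup.closure (T : Set (∀ i, S i)) = ⊤ :=
    closure_surj ψ.toMonoidHom ψ.surjective hQ
  -- n = 2
  have e2 : FExpd (∀ i : {i // n i = 2}, S i.1) k₂ κ₂ := by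
    refine h₂ _ ⟨closure_surj (restr S (fun i => n i = 2) (fun _ => True) (fun _ _ => trivial))
      (restr_surj _ _ _ _) (closure_surj
        { toFun := fun z (i : {i // True}) => z i.1
          map_one' := rfl
          map_mul' := fun _ _ => rfl } (fun z => ⟨fun i => z ⟨i, trivial⟩, rfl⟩) hd),
      {i // n i = 2}, inferInstance, fun i => F i.1, inferInstance, inferInstance,
      fun i => S i.1, inferInstance, fun i => hnt i.1,
      fun i => Or.inr (sl2_of_eq i.2 (hprod i.1)), ?_, ⟨MulEquiv.refl _⟩⟩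
    intro q
    obtain ⟨c, hc⟩ := hcls 2 q
    exact ⟨fun i => c ⟨i.1.1, i.1.2, i.2⟩, fun i j hij => hc _ _ hij⟩
  -- n ≥ 3
  have e3 : FExpd (∀ i : {i // 3 ≤ n i}, S i.1) k₃ κ₃ := by
    have hnt' : ∀ i : {i // 3 ≤ n i}, Nontrivial (S i.1) := fun i => hnt i.1
    refine h₃ {i // 3 ≤ n i} (fun i => n i.1) (fun i => F i.1) (fun i => S i.1)
      (closure_surj (restr S (fun i => 3 ≤ n i) (fun _ => True) (fun _ _ => trivial))
      (restr_surj _ _ _ _) (closure_surj
        { toFun := fun z (i : {i // True}) => z i.1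
          map_one' := rfl
          map_mul' := fun _ _ => rfl } (fun z => ⟨fun i => z ⟨i, trivial⟩, rfl⟩) hd))
      (fun i => i.2) (fun i => hprod i.1) ?_
    intro m q
    obtain ⟨c, hc⟩ := hcls m q
    exact ⟨fun i => c ⟨i.1.1, i.2⟩, fun i j hij => hc _ _ hij⟩
  have hun := FExpd.union S (fun i => n i = 2) (fun i => 3 ≤ n i) (lt_min hκ₂ hκ₃).le
    (e2.mono le_rfl (min_le_left _ _)) (e3.mono le_rfl (min_le_right _ _))
  have hall : ∀ i, n i = 2 ∨ 3 ≤ n i := fun i => by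
    have := hn i
    omega
  let π : (∀ i : {i // n i = 2 ∨ 3 ≤ n i}, S i.1) →* (∀ i, S i) :=
    { toFun := fun z i => z ⟨i, hall i⟩
      map_one' := rfl
      map_mul' := fun _ _ => rfl }
  have h4 := FExpd.surj π (fun z => ⟨fun i => z i.1, rfl⟩) hun
  exact FExpd.surj ψ.symm.toMonoidHom ψ.symm.surjective h4

/-- Towers, for a general class of factors. -/
theorem tower_gen (Pr : ∀ (Q : Type) [Group Q], Prop) (k : ℕ) (κ : ℝ) (hκ : 0 < κ)
    (h : ∀ (Q : Type) [Group Q], Pr Q → FExpd Q k κ) (l : ℕ) :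
    ∃ (k : ℕ) (ε : ℝ), 0 < ε ∧ ∀ (G : Type) [Group G] [Fintype G]
      [DecidableEq G] (H : ℕ → Subgroup G), H 0 = ⊥ → H l = ⊤ →
      (∀ i < l, H i ≤ H (i + 1) ∧ ∃ _ : ((H i).subgroupOf (H (i + 1))).Normal,
        Pr (H (i + 1) ⧸ (H i).subgroupOf (H (i + 1)))) →
      ∃ S : Finset G, S.card ≤ k ∧ Subgroup.closure (S : Set G) = ⊤ ∧
        ∀ A : Finset G, 2 * A.card ≤ Fintype.card G →
          (1 + ε) * (A.card : ℝ) ≤ ((A ∪ S * A).card : ℝ) := by
  classical
  have hκ' : 0 < min κ 2 := lt_min hκ two_pos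
  refine ⟨1 + l * k, min κ 2 / (4 * ((1 + l * k : ℕ) + 1)), by positivity, ?_⟩
  intro G _ _ _ H h0 hl hstep
  have key : ∀ i ≤ l, FExpd (H i) (1 + i * k) (min κ 2) := by
    intro i
    induction i with
    | zero =>
      intro _
      rw [h0, zero_mul, add_zero]
      have h1 : Fintype.card (⊥ : Subgroup G) ≤ 1 := by
        rw [← Nat.card_eq_fintype_card, Subgroup.card_bot]
      exact (expd_mono le_rfl (min_le_right _ _) (expd_card h1)).fexpd
    | succ i ih =>
      intro hi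
      obtain ⟨hle, hN, hgood⟩ := hstep i (by omega)
      have h1 := ih (by omega)
      have h2 : FExpd ((H i).subgroupOf (H (i + 1))) (1 + i * k) (min κ 2) :=
        FExpd.surj (Subgroup.subgroupOfEquivOfLe hle).symm.toMonoidHom
          (Subgroup.subgroupOfEquivOfLe hle).symm.surjective h1
      have h3 : FExpd (H (i + 1) ⧸ (H i).subgroupOf (H (i + 1))) k (min κ 2) :=
        (h _ hgood).mono le_rfl (min_le_left _ _)
      have h4 := FExpd.ext ((H i).subgroupOf (H (i + 1))) h2 h3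
      have h5 : 1 + (i + 1) * k = 1 + i * k + k := by ring
      rw [h5]
      exact h4
  have h1 := key l le_rfl
  rw [hl] at h1
  let τ : (⊤ : Subgroup G) ≃* G := Subgroup.topEquiv
  have h2 : FExpd G (1 + l * k) (min κ 2) := FExpd.surj τ.toMonoidHom τ.surjective h1
  exact expd_vertex hκ' h2.expd

end Pool.Agent.MPfe8e9b
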