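import Mathlib
import Pool.Agent.Lib.MP_fe8e9b_al.Defs

/-!
# MP_fe8e9b_al: `SL(2, F)` is perfect for `|F| ≥ 4`
-/

open scoped BigOperators MatrixGroups Pointwise

namespace Pool.Agent.MPfe8e9b

/-- PERF. -/
theorem sl2_perfect (F : Type*) [Field F] [Fintype F] [DecidableEq F] (h : 4 ≤ Fintype.card F) :
    commutator SL(2, F) = ⊤ := by
  have h1 : ∃ a : F, a ∉ ({0, 1, -1} : Finset F) := by
    by_contra hcon
    push Not at hcon
    have h2 : (Finset.univ : Finset F) ⊆ {0, 1, -1} := fun a _ => hcon a
    have h3 := Finset.card_le_card h2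
    have h4 : ({0, 1, -1} : Finset F).card ≤ 3 := Finset.card_le_three
    rw [Finset.card_univ] at h3
    omega
  obtain ⟨a, ha⟩ := h1
  simp only [Finset.mem_insert, Finset.mem_singleton, not_or] at ha
  refine Matrix.SL2.commutator_eq_top ha.1 ?_
  intro h5
  rcases sq_eq_one_iff.mp h5 with h6 | h6
  · exact ha.2.1 h6
  · exact ha.2.2 h6

/-- Elementary matrix with lower left entry `t`. -/
def e21 {R : Type*} [CommRing R] (t : R) : SL(2, R) :=
  ⟨!![1, 0; t, 1], by simp [Matrix.det_fin_two_of]⟩

theorem transvection_eq_e12 {F : Type*} [Field F] (h : (0 : Fin 2) ≠ 1) (c : F) :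
    Matrix.SpecialLinearGroup.transvection h c = e12 c := by
  ext i j
  fin_cases i <;> fin_cases j <;> simp [e12, Matrix.SpecialLinearGroup.transvection_coe]

theorem transvection_eq_e21 {F : Type*} [Field F] (h : (1 : Fin 2) ≠ 0) (c : F) :
    Matrix.SpecialLinearGroup.transvection h c = e21 c := by
  ext i j
  fin_cases i <;> fin_cases j <;> simp [e21, Matrix.SpecialLinearGroup.transvection_coe]

/-- Induction principle. -/
theorem sl2_induction {F : Type*} [Field F] (P : SL(2, F) → Prop)
    (h12 : ∀ t, P (e12 t)) (h21 : ∀ t, P (e21 t)) (hmul : ∀ A B, P A → P B → P (A * B))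
    (A : SL(2, F)) : P A := by
  refine Matrix.SL2.transvection_induction P ?_ hmul A
  intro i j hij c
  fin_cases i
  · obtain rfl : j = 1 := by fin_cases j <;> tauto
    have := transvection_eq_e12 hij c
    rw [show Matrix.SpecialLinearGroup.transvection hij c = e12 c from this]
    exact h12 c
  · obtain rfl : j = 0 := by fin_cases j <;> tauto
    have := transvection_eq_e21 hij c
    rw [show Matrix.SpecialLinearGroup.transvection hij c = e21 c from this]
    exact h21 c

/-- Generation by elementary matrices. -/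
theorem sl2_gen {F : Type*} [Field F] :
    Subgroup.closure (Set.range (e12 : F → SL(2, F)) ∪ Set.range (e21 : F → SL(2, F))) = ⊤ := by
  rw [Subgroup.eq_top_iff']
  refine sl2_induction _ ?_ ?_ ?_
  · exact fun t => Subgroup.subset_closure (Or.inl ⟨t, rfl⟩)
  · exact fun t => Subgroup.subset_closure (Or.inr ⟨t, rfl⟩)
  · exact fun A B hA hB => Subgroup.mul_mem _ hA hB

end Pool.Agent.MPfe8e9b
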