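import Mathlib
import Pool.Agent.Lib.MP_fe8e9b_al.Two
import Pool.Agent.Lib.MP_fe8e9b_al.AnglePi
import Pool.Agent.Lib.MP_fe8e9b_al.Perf

/-!
# MP_fe8e9b_al: from `p` copies to `p ^ e` copies
-/

open scoped BigOperators MatrixGroups Pointwise

namespace Pool.Agent.MPfe8e9b

/-- Composition with a map of index sets. -/
def compHom {A B : Type*} (S : Type*) [Group S] (g : B → A) : (A → S) →* (B → S) where
  toFun u := fun b => u (g b)
  map_one' := rfl
  map_mul' _ _ := rfl

theorem compHom_surj {A B : Type*} (S : Type*) [Group S] (g : B → A)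
    (hg : Function.Injective g) : Function.Surjective (compHom S g) := by
  classical
  intro v
  refine ⟨Function.extend g v 1, ?_⟩
  funext b
  exact hg.extend_apply v 1 b

theorem piHom_surjective {ι : Type*} {H G : ι → Type*} [∀ i, Group (H i)] [∀ i, Group (G i)]
    (φ : ∀ i, H i →* G i) (h : ∀ i, Function.Surjective (φ i)) :
    Function.Surjective (piHom φ) := by
  intro z
  choose f hf using fun i => h i (z i)
  exact ⟨f, funext hf⟩

/-- Families of powers: passing to smaller exponents. -/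
theorem expd_reindex {ι : Type*} [Fintype ι] [DecidableEq ι] {A B S : ι → Type*}
    [∀ i, Fintype (A i)] [∀ i, Fintype (B i)] [∀ i, DecidableEq (A i)] [∀ i, DecidableEq (B i)]
    [∀ i, Group (S i)] [∀ i, Fintype (S i)]
    (hAB : ∀ i, Fintype.card (B i) ≤ Fintype.card (A i)) {k : ℕ} {κ : ℝ}
    (h : Expd (∀ i, (A i → S i)) k κ) : Expd (∀ i, (B i → S i)) k κ := by
  have hg : ∀ i, ∃ g : B i → A i, Function.Injective g := fun i => by
    obtain ⟨g⟩ := Function.Embedding.nonempty_of_card_le (hAB i)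
    exact ⟨g, g.injective⟩
  choose g hg using hg
  exact expd_surj (piHom fun i => compHom (S i) (g i))
    (piHom_surjective _ fun i => compHom_surj (S i) (g i) (hg i)) h

/-- Doubling of the exponent. -/
theorem expd_double
    (hamp : ∀ {S : Type} [Group S] [Fintype S], commutator S = ⊤ →
      ∀ (A B : Type) [Fintype A] [Fintype B] [DecidableEq A] [DecidableEq B],
      Angle (fstHom A B S) (sndHom A B S) (1 / 2))
    {ι : Type} [Fintype ι] [DecidableEq ι] {A S : ι → Type}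
    [∀ i, Fintype (A i)] [∀ i, DecidableEq (A i)] [∀ i, Group (S i)] [∀ i, Fintype (S i)]
    (hS : ∀ i, commutator (S i) = ⊤) {k : ℕ} {κ : ℝ} (hκ : 0 ≤ κ)
    (h : Expd (∀ i, (A i → S i)) k κ) :
    Expd (∀ i, (A i × A i → S i)) (k + k) (κ * (1 - Real.sqrt (1 / 2))) := by
  have h1 := angle_pi (fun i => fstHom (A i) (A i) (S i)) (fun i => sndHom (A i) (A i) (S i))
    (c := 1 / 2) (by norm_num) (fun i => hamp (hS i) (A i) (A i))
  exact expd_two _ _ (by norm_num) h1 hκ h h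

/-- POW. -/
theorem expd_pow
    (hamp : ∀ {S : Type} [Group S] [Fintype S], commutator S = ⊤ →
      ∀ (A B : Type) [Fintype A] [Fintype B] [DecidableEq A] [DecidableEq B],
      Angle (fstHom A B S) (sndHom A B S) (1 / 2))
    (hbase : ∃ (k : ℕ) (κ : ℝ) (p₀ : ℕ), 0 < κ ∧ ∀ (ι : Type) [Fintype ι] [DecidableEq ι]
      (p : ι → ℕ) [∀ i, Fact (p i).Prime], Function.Injective p → (∀ i, p₀ ≤ p i) →
      Expd (∀ i, (ZMod (p i) → SL(2, ZMod (p i)))) k κ) :
    ∃ p₀ : ℕ, ∀ e : ℕ, ∃ (k : ℕ) (κ : ℝ), 0 < κ ∧ ∀ (ι : Type) [Fintype ι] [DecidableEq ι]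
      (p : ι → ℕ) [∀ i, Fact (p i).Prime], Function.Injective p → (∀ i, p₀ ≤ p i) →
      Expd (∀ i, (Fin ((p i) ^ e) → SL(2, ZMod (p i)))) k κ := by
  obtain ⟨k₀, κ₀, p₁, hκ₀, hb⟩ := hbase
  refine ⟨max p₁ 5, ?_⟩
  have hs : (0 : ℝ) < 1 - Real.sqrt (1 / 2) := by
    have : Real.sqrt (1 / 2) < 1 := by
      rw [Real.sqrt_lt' one_pos]
      norm_num
    linarith
  have key : ∀ j : ℕ, ∃ (k : ℕ) (κ : ℝ), 0 < κ ∧ ∀ (ι : Type) [Fintype ι] [DecidableEq ι]
      (p : ι → ℕ) [∀ i, Fact (p i).Prime], Function.Injective p → (∀ i, max p₁ 5 ≤ p i) →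
      Expd (∀ i, (Fin ((p i) ^ (2 ^ j)) → SL(2, ZMod (p i)))) k κ := by
    intro j
    induction j with
    | zero =>
      refine ⟨k₀, κ₀, hκ₀, ?_⟩
      intro ι _ _ p _ hp hp₀
      refine expd_reindex (fun i => ?_) (hb ι p hp fun i => (le_max_left _ _).trans (hp₀ i))
      simp [ZMod.card]
    | succ j ih =>
      obtain ⟨k, κ, hκ, h⟩ := ih
      refine ⟨k + k, κ * (1 - Real.sqrt (1 / 2)), mul_pos hκ hs, ?_⟩
      intro ι _ _ p _ hp hp₀
      have hS : ∀ i, commutator SL(2, ZMod (p i)) = ⊤ := fun i =>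
        sl2_perfect (ZMod (p i)) (by
          rw [ZMod.card]
          have := (le_max_right _ _).trans (hp₀ i)
          omega)
      refine expd_reindex (fun i => ?_)
        (expd_double hamp hS hκ.le (h ι p hp hp₀))
      rw [Fintype.card_prod, Fintype.card_fin, Fintype.card_fin, pow_succ 2 j, pow_mul, pow_two]
  intro e
  obtain ⟨k, κ, hκ, h⟩ := key e
  refine ⟨k, κ, hκ, ?_⟩
  intro ι _ _ p _ hp hp₀
  refine expd_reindex (fun i => ?_) (h ι p hp hp₀)
  rw [Fintype.card_fin, Fintype.card_fin]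
  refine Nat.pow_le_pow_right ?_ Nat.lt_two_pow_self.le
  have := (le_max_right _ _).trans (hp₀ i)
  omega

end Pool.Agent.MPfe8e9b
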