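import Mathlib
import Pool.Agent.Lib.MP_fe8e9b_al.Pow

/-!
# MP_fe8e9b_al: from `q` copies to `q ^ e` copies, all finite fields
-/

open scoped BigOperators MatrixGroups Pointwise

namespace Pool.Agent.MPfe8e9b

/-- POWF. -/
theorem expd_powF
    (hamp : ∀ {S : Type} [Group S] [Fintype S], commutator S = ⊤ →
      ∀ (A B : Type) [Fintype A] [Fintype B] [DecidableEq A] [DecidableEq B],
      Angle (fstHom A B S) (sndHom A B S) (1 / 2))
    (hdist : ∃ (k : ℕ) (κ : ℝ) (q₀ : ℕ), 0 < κ ∧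
      ∀ (ι : Type) [Fintype ι] [DecidableEq ι] (F : ι → Type) [∀ i, Field (F i)]
      [∀ i, Fintype (F i)] [∀ i, DecidableEq (F i)],
      Function.Injective (fun i => Fintype.card (F i)) → (∀ i, q₀ ≤ Fintype.card (F i)) →
      Expd (∀ i, SL(2, F i)) k κ)
    (hbase : ∃ q₀ : ℕ, ∀ (k : ℕ) (κ : ℝ), 0 < κ → ∃ (k' : ℕ) (κ' : ℝ), 0 < κ' ∧
      ∀ (ι : Type) [Fintype ι] [DecidableEq ι] (F : ι → Type) [∀ i, Field (F i)]
      [∀ i, Fintype (F i)] [∀ i, DecidableEq (F i)], (∀ i, q₀ ≤ Fintype.card (F i)) →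
      Expd (∀ i, SL(2, F i)) k κ → Expd (∀ i, (F i → SL(2, F i))) k' κ') :
    ∃ q₀ : ℕ, ∀ e : ℕ, ∃ (k : ℕ) (κ : ℝ), 0 < κ ∧ ∀ (ι : Type) [Fintype ι] [DecidableEq ι]
      (F : ι → Type) [∀ i, Field (F i)] [∀ i, Fintype (F i)] [∀ i, DecidableEq (F i)],
      Function.Injective (fun i => Fintype.card (F i)) → (∀ i, q₀ ≤ Fintype.card (F i)) →
      Expd (∀ i, (Fin (Fintype.card (F i) ^ e) → SL(2, F i))) k κ := by
  obtain ⟨k₁, κ₁, q₁, hκ₁, h₁⟩ := hdist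
  obtain ⟨q₂, h₂⟩ := hbase
  obtain ⟨k₀, κ₀, hκ₀, hb⟩ := h₂ k₁ κ₁ hκ₁
  refine ⟨max (max q₁ q₂) 5, ?_⟩
  have hs : (0 : ℝ) < 1 - Real.sqrt (1 / 2) := by
    have : Real.sqrt (1 / 2) < 1 := by
      rw [Real.sqrt_lt' one_pos]
      norm_num
    linarith
  have key : ∀ j : ℕ, ∃ (k : ℕ) (κ : ℝ), 0 < κ ∧ ∀ (ι : Type) [Fintype ι] [DecidableEq ι]
      (F : ι → Type) [∀ i, Field (F i)] [∀ i, Fintype (F i)] [∀ i, DecidableEq (F i)],
      Function.Injective (fun i => Fintype.card (F i)) →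
      (∀ i, max (max q₁ q₂) 5 ≤ Fintype.card (F i)) →
      Expd (∀ i, (Fin (Fintype.card (F i) ^ (2 ^ j)) → SL(2, F i))) k κ := by
    intro j
    induction j with
    | zero =>
      refine ⟨k₀, κ₀, hκ₀, ?_⟩
      intro ι _ _ F _ _ _ hF hq
      have hq₁ : ∀ i, q₁ ≤ Fintype.card (F i) := fun i =>
        ((le_max_left _ _).trans (le_max_left _ _)).trans (hq i)
      have hq₂ : ∀ i, q₂ ≤ Fintype.card (F i) := fun i =>
        ((le_max_right _ _).trans (le_max_left _ _)).trans (hq i)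
      refine expd_reindex (fun i => ?_) (hb ι F hq₂ (h₁ ι F hF hq₁))
      simp
    | succ j ih =>
      obtain ⟨k, κ, hκ, h⟩ := ih
      refine ⟨k + k, κ * (1 - Real.sqrt (1 / 2)), mul_pos hκ hs, ?_⟩
      intro ι _ _ F _ _ _ hF hq
      have hS : ∀ i, commutator SL(2, F i) = ⊤ := fun i =>
        sl2_perfect (F i) (by
          have := (le_max_right _ _).trans (hq i)
          omega)
      refine expd_reindex (fun i => ?_)
        (expd_double hamp hS hκ.le (h ι F hF hq))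
      rw [Fintype.card_prod, Fintype.card_fin, Fintype.card_fin, pow_succ 2 j, pow_mul, pow_two]
  intro e
  obtain ⟨k, κ, hκ, h⟩ := key e
  refine ⟨k, κ, hκ, ?_⟩
  intro ι _ _ F _ _ _ hF hq
  refine expd_reindex (fun i => ?_) (h ι F hF hq)
  rw [Fintype.card_fin, Fintype.card_fin]
  exact Nat.pow_le_pow_right Fintype.card_pos Nat.lt_two_pow_self.le

end Pool.Agent.MPfe8e9b
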