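import Mathlib
import Pool.Agent.Lib.MP_fe8e9b_al.Final3
import Pool.Agent.Lib.MP_fe8e9b_al.FamF
import Pool.Agent.Lib.MP_fe8e9b_al.PowF
import Pool.Agent.Lib.MP_fe8e9b_al.BaseF
import Pool.Agent.Lib.MP_fe8e9b_al.Amp
import Pool.Agent.Lib.MP_fe8e9b_al.Comm
import Pool.Agent.Lib.MP_fe8e9b_al.Distinct

/-!
# MP_fe8e9b_al: anabelian groups of bounded height with layers of Lie type

For all `d`, `L`, `C` and `l` there are `k` and `ε > 0` such that every finite group `G` with a
chain `1 = H 0 ≤ H 1 ≤ … ≤ H l = G` in which every `H i` is normal in `H (i + 1)` and every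
quotient `H (i + 1) ⧸ H i` satisfies `LieProduct d L C` has a generating set of at most `k`
elements whose Cayley graph is an `ε`-expander.
-/

open scoped BigOperators MatrixGroups Pointwise

namespace Pool.Agent.Results.MP_fe8e9b_al.LieTowers

open Pool.Agent.MPfe8e9b

/-- The theorem. -/
theorem result (d L C l : ℕ) :
    ∃ (k : ℕ) (ε : ℝ), 0 < ε ∧ ∀ (G : Type) [Group G] [Fintype G] [DecidableEq G]
      (H : ℕ → Subgroup G), H 0 = ⊥ → H l = ⊤ →
      (∀ i < l, H i ≤ H (i + 1) ∧ ∃ _ : ((H i).subgroupOf (H (i + 1))).Normal,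
        LieProduct d L C (H (i + 1) ⧸ (H i).subgroupOf (H (i + 1)))) →
      ∃ S : Finset G, S.card ≤ k ∧ Subgroup.closure (S : Set G) = ⊤ ∧
        ∀ A : Finset G, 2 * A.card ≤ Fintype.card G →
          (1 + ε) * (A.card : ℝ) ≤ ((A ∪ S * A).card : ℝ) := by
  obtain ⟨k, κ, hκ, h⟩ := lie_expd (expd_familyF (expd_powF
    (fun hS A B => angle_amp hS (comm_bound hS) A B) expd_distinct expd_baseF)) d L C
  exact tower_gen (fun Q _ => LieProduct d L C Q) k κ hκ h l

end Pool.Agent.Results.MP_fe8e9b_al.LieTowers
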